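import Mathlib
import Pool.Agent.Lib.PolyTime.Eq

set_option autoImplicit false

/-!
# A loop machine

`exp_machine`: from polynomial-time functions `init`, `step`, `dn`, `out` one gets one machine
that reads a raw bit string, iterates `step` until `dn` holds and outputs `out`; the running time
is (number of iterations) times a polynomial in the size of the largest intermediate state.
-/

namespace Pool.Agent.Lib.MP_87d05f_lc

open Pool.Agent.PolyTime Function Polynomial

/-! ### From raw bits to the code of a list -/

/-- program: raw bits on `A` become the code of the list -/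
def convCmd : Cmd St :=
  .seq (.loopB .A (.push .B false) (.push .B true))
    (.seq (.push .A false)
      (.loopB .B (.seq (.push .A false) (.push .A true))
        (.seq (.push .A false) (.seq (.push .A false) (.seq (.push .A true) (.push .A true))))))

theorem run_rev (x : List Bool) : ∀ b : List Bool,
    RunLe (.loopB .A (.push .B false) (.push .B true)) (stk x b [] [])
      (stk [] (x.reverse ++ b) [] []) (2 * x.length + 1) := by
  induction x with
  | nil => intro b; exact RunLe.loopB_none rfl
  | cons a x ih =>
    intro b
    have e : (a :: x).reverse ++ b = x.reverse ++ (a :: b) := by simp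
    rw [e]
    cases a
    · refine (RunLe.loopB_false (n := 1) (stk_A _ _ _ _) ?_ (ih (false :: b))).mono ?_
      · simpa using RunLe.push (stk x b [] []) .B false
      · simp only [List.length_cons]; omega
    · refine (RunLe.loopB_true (n := 1) (stk_A _ _ _ _) ?_ (ih (true :: b))).mono ?_
      · simpa using RunLe.push (stk x b [] []) .B true
      · simp only [List.length_cons]; omega

theorem bits_cons_false (l : List Bool) :
    (enc (false :: l)).bits = true :: false :: (enc l).bits := by
  simp [Sx.bits]

theorem bits_cons_true (l : List Bool) :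
    (enc (true :: l)).bits = true :: true :: false :: false :: (enc l).bits := by
  simp [Sx.bits]

theorem run_build (b : List Bool) : ∀ l : List Bool,
    RunLe (.loopB .B (.seq (.push .A false) (.push .A true))
        (.seq (.push .A false) (.seq (.push .A false) (.seq (.push .A true) (.push .A true)))))
      (stk (enc l).bits b [] [])
      (stk (enc (b.reverse ++ l)).bits [] [] []) (5 * b.length + 1) := by
  induction b with
  | nil => intro l; exact RunLe.loopB_none rfl
  | cons a b ih =>
    intro l
    have e : (a :: b).reverse ++ l = b.reverse ++ (a :: l) := by simp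
    rw [e]
    cases a
    · refine (RunLe.loopB_false (n := 2) (stk_B _ _ _ _) ?_ (ih (false :: l))).mono ?_
      · rw [update_B, bits_cons_false]
        refine RunLe.seq (n := 1) (n' := 1) (RunLe.push _ _ _) ?_
        simpa using RunLe.push (stk (false :: (enc l).bits) b [] []) .A true
      · simp only [List.length_cons]; omega
    · refine (RunLe.loopB_true (n := 4) (stk_B _ _ _ _) ?_ (ih (true :: l))).mono ?_
      · rw [update_B, bits_cons_true]
        refine RunLe.seq (n := 1) (n' := 3) (RunLe.push _ _ _) ?_
        refine RunLe.seq (n := 1) (n' := 2) (RunLe.push _ _ _) ?_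
        refine RunLe.seq (n := 1) (n' := 1) (RunLe.push _ _ _) ?_
        simpa using RunLe.push (stk (true :: false :: false :: (enc l).bits) b [] []) .A true
      · simp only [List.length_cons]; omega

theorem run_conv (x : List Bool) :
    RunLe convCmd (stk x [] [] []) (stk (enc x).bits [] [] []) (7 * x.length + 3) := by
  have h1 := run_rev x []
  have h2 := run_build x.reverse []
  rw [List.reverse_reverse, List.append_nil, List.length_reverse] at h2
  rw [List.append_nil] at h1
  refine (RunLe.seq h1 (RunLe.seq (n := 1) (n' := 5 * x.length + 1) (RunLe.push _ _ _) ?_)).mono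
    (by omega)
  simpa [Sx.bits] using h2

/-! ### The loop -/

variable {σ : Type} [SCode σ]

/-- read the flag on top of `A`; if it is `false`, put `true` on `C` -/
def flagCmd : Cmd St :=
  .pop .A .skip .skip (.pop .A .skip (.push .C true) (.seq (.pop .A .skip .skip .skip)
    (.pop .A .skip .skip .skip)))

theorem run_flag_false (s : σ) :
    RunLe flagCmd (stk (enc (false, s)).bits [] [] []) (stk (enc s).bits [] [true] []) 3 := by
  have e : (enc (false, s)).bits = true :: false :: (enc s).bits := by simp [Sx.bits]
  rw [e]
  refine RunLe.pop_true (n := 2) (stk_A _ _ _ _) ?_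
  rw [update_A]
  refine RunLe.pop_false (n := 1) (stk_A _ _ _ _) ?_
  rw [update_A]
  simpa using RunLe.push (stk (enc s).bits [] [] []) .C true

theorem run_flag_true (s : σ) :
    RunLe flagCmd (stk (enc (true, s)).bits [] [] []) (stk (enc s).bits [] [] []) 4 := by
  have e : (enc (true, s)).bits = true :: true :: false :: false :: (enc s).bits := by
    simp [Sx.bits]
  rw [e]
  refine RunLe.pop_true (n := 3) (stk_A _ _ _ _) ?_
  rw [update_A]
  refine RunLe.pop_true (n := 2) (stk_A _ _ _ _) ?_
  rw [update_A]
  refine RunLe.seq (S' := stk (false :: (enc s).bits) [] [] []) (n := 1) (n' := 1) ?_ ?_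
  · refine RunLe.pop_false (n := 0) (stk_A _ _ _ _) ?_
    rw [update_A]
    exact RunLe.skip _
  · refine RunLe.pop_false (n := 0) (stk_A _ _ _ _) ?_
    rw [update_A]
    exact RunLe.skip _

theorem loop_run {step : σ → σ} {dn : σ → Bool} {cg : Cmd St} {P : Polynomial ℕ}
    (hcg : ∀ s : σ, RunLe cg (stk (enc s).bits [] [] [])
      (stk (enc (dn (step s), step s)).bits [] [] []) (P.eval (sz s))) :
    ∀ (N : ℕ) (s : σ) (B : ℕ), (∀ i, i ≤ N → sz (step^[i] s) ≤ B) →
      (∀ i, 1 ≤ i → i ≤ N → dn (step^[i] s) = false) → dn (step^[N + 1] s) = true →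
      RunLe (.loopT .C (.seq cg flagCmd)) (stk (enc s).bits [] [true] [])
        (stk (enc (step^[N + 1] s)).bits [] [] []) ((N + 1) * (P.eval B + 5) + 1) := by
  intro N
  induction N with
  | zero =>
    intro s B hB hf hd
    simp only [zero_add, Function.iterate_one] at hd ⊢
    have h0 := hB 0 le_rfl
    simp only [Function.iterate_zero, id_eq] at h0
    refine (RunLe.loopT_true (S' := stk (enc (step s)).bits [] [] [])
      (n := P.eval (sz s) + 4) (n' := 1) (stk_C _ _ _ _) ?_ ?_).mono ?_
    · rw [update_C]
      refine RunLe.seq (hcg s) ?_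
      rw [hd]
      exact run_flag_true _
    · exact RunLe.loopT_none rfl
    · have := eval_mono P h0
      omega
  | succ N ih =>
    intro s B hB hf hd
    have h0 := hB 0 (Nat.zero_le _)
    simp only [Function.iterate_zero, id_eq] at h0
    have h1 : dn (step s) = false := by
      have := hf 1 le_rfl (by omega)
      simpa using this
    have h2 := ih (step s) B (fun i hi => by
        have := hB (i + 1) (by omega)
        rwa [Function.iterate_succ_apply] at this)
      (fun i hi hi' => by
        have := hf (i + 1) (by omega) (by omega)
        rwa [Function.iterate_succ_apply] at this)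
      (by rwa [Function.iterate_succ_apply] at hd)
    rw [Function.iterate_succ_apply]
    refine (RunLe.loopT_true (n := P.eval (sz s) + 3) (stk_C _ _ _ _) ?_ h2).mono ?_
    · rw [update_C]
      refine RunLe.seq (hcg s) ?_
      rw [h1]
      exact run_flag_false _
    · have := eval_mono P h0
      nlinarith

theorem ptime_cmd {α β : Type} [SCode α] [SCode β] {f : α → β} (hf : PTime f) :
    ∃ (c : Cmd St) (P : Polynomial ℕ), ∀ a : α,
      RunLe c (stk (enc a).bits [] [] []) (stk (enc (f a)).bits [] [] []) (P.eval (sz a)) := by
  obtain ⟨g, hg, hg'⟩ := hf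
  obtain ⟨c, P, h⟩ := hg.exists_cmd
  refine ⟨c, P, fun a => ?_⟩
  have := h (enc a) [] [] (dom_enc a)
  rw [List.append_nil, List.append_nil, hg'] at this
  exact this

theorem sz_listBool_le (x : List Bool) : sz x ≤ 4 * x.length + 1 := by
  induction x with
  | nil => simp
  | cons a x ih =>
    have := sz_bool_le a
    simp only [sz_cons, List.length_cons]
    omega

theorem exp_machine {init : List Bool → σ} {step : σ → σ} {dn : σ → Bool} {out : σ → Bool}
    (hi : PTime init) (hs : PTime step) (hd : PTime dn) (ho : PTime out) :
    ∃ (tm : Turing.FinTM2) (e₀ : tm.Γ tm.k₀ ≃ Bool) (acc rej : List (tm.Γ tm.k₁))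
      (P : Polynomial ℕ), acc ≠ rej ∧
      ∀ (x : List Bool) (N B : ℕ), 1 ≤ N →
        (∀ i, i ≤ N → sz (step^[i] (init x)) ≤ B) →
        (∀ i, 1 ≤ i → i < N → dn (step^[i] (init x)) = false) →
        dn (step^[N] (init x)) = true →
        ∀ m : ℕ, P.eval x.length + N * P.eval B ≤ m →
        Nonempty (Turing.TM2OutputsInTime tm (x.map e₀.symm)
          (some (if out (step^[N] (init x)) = true then acc else rej)) m) := by
  obtain ⟨ci, Pi, hci⟩ := ptime_cmd hi
  have hg : PTime (fun s : σ => (dn (step s), step s)) := (hd.comp hs).pair hs
  obtain ⟨cg, Pg, hcg⟩ := ptime_cmd hg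
  obtain ⟨co, Po, hco⟩ := ptime_cmd ho
  set c : Cmd St := .seq convCmd (.seq ci (.seq (.push .C true)
    (.seq (.loopT .C (.seq cg flagCmd)) co))) with hc
  refine ⟨(Flow.compile c).toTM .A .A, Equiv.refl _, [true, false, false], [false],
    C 7 * X + C 10 + Pi.comp (C 4 * X + C 1) + Pg + C 10 + Po, ?_, ?_⟩
  · intro h
    exact absurd (congrArg List.length h) (by change ¬ ((3 : ℕ) = 1); decide)
  · intro x N B hN hB hf hd' m hm
    obtain ⟨N, rfl⟩ : ∃ M, N = M + 1 := ⟨N - 1, by omega⟩
    set s0 := init x with hs0
    have h1 := run_conv x
    have h2 := hci x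
    have h3 := loop_run (step := step) (dn := dn) hcg N s0 B (fun i hi => hB i (by omega))
      (fun i hi hi' => hf i hi (by omega)) hd'
    have h4 := hco (step^[N + 1] s0)
    have hrun := RunLe.seq h1 (RunLe.seq h2 (RunLe.seq (n := 1)
      (by simpa using RunLe.push (stk (enc s0).bits [] [] []) .C true)
      (RunLe.seq h3 h4)))
    obtain ⟨t, ht, hrun⟩ := hrun
    have hBN := hB (N + 1) le_rfl
    have hb1 : t + 1 ≤ m := by
      refine le_trans ?_ hm
      have e1 := eval_mono Pi (sz_listBool_le x)
      have e2 := eval_mono Po hBN
      simp only [eval_add, eval_mul, eval_C, eval_X, eval_comp]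
      generalize eval B Pg = u at *
      generalize eval B Po = v at *
      generalize eval (sz x) Pi = w at *
      generalize eval (4 * x.length + 1) Pi = w' at *
      generalize eval (sz (step^[N + 1] s0)) Po = v' at *
      nlinarith
    rw [← update_eq_stk, ← update_eq_stk] at hrun
    have h := Cmd.outputs c .A .A hrun m hb1
    have e : ∀ l : List Bool, List.map (Equiv.refl Bool).symm l = l := fun l => List.map_id l
    have e3 : (enc (out (step^[N + 1] s0))).bits =
        (if out (step^[N + 1] s0) = true then [true, false, false] else [false]) := by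
      cases out (step^[N + 1] s0) <;> simp [Sx.bits]
    rw [e3] at h
    exact (congrArg (fun a => Nonempty (Turing.TM2OutputsInTime
      ((Flow.compile c).toTM .A .A) a (some (if out (step^[N + 1] s0) = true then
        [true, false, false] else [false])) m)) (e x)).mpr h

end Pool.Agent.Lib.MP_87d05f_lc
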