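import Mathlib
import Pool.Agent.Lib.PolyTime.Eq

set_option autoImplicit false

/-!
# More structured programs: embeddings, unary codes, clocks
-/

namespace Pool.Agent.Lib.MP_87d05f_lc

open Pool.Agent.PolyTime Function

/-! ### Renaming stacks -/

section rename

variable {K L : Type} [DecidableEq K] [DecidableEq L]

/-- the same program on renamed stacks -/
def mapCmd (i : K → L) : Cmd K → Cmd L
  | .skip => .skip
  | .push k b => .push (i k) b
  | .seq c₁ c₂ => .seq (mapCmd i c₁) (mapCmd i c₂)
  | .pop k cn cf ct => .pop (i k) (mapCmd i cn) (mapCmd i cf) (mapCmd i ct)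
  | .loopB k cf ct => .loopB (i k) (mapCmd i cf) (mapCmd i ct)
  | .loopT k c => .loopT (i k) (mapCmd i c)

theorem run_inl {c : Cmd K} {S S' : K → List Bool} {t : ℕ} (h : Run c S S' t)
    (g : L → List Bool) :
    Run (mapCmd (Sum.inl : K → K ⊕ L) c) (Sum.elim S g) (Sum.elim S' g) t := by
  induction h with
  | skip S => exact .skip _
  | push S k b =>
    have := Run.push (Sum.elim S g) (Sum.inl k : K ⊕ L) b
    rw [Sum.update_elim_inl] at this
    exact this
  | seq _ _ ih₁ ih₂ => exact .seq ih₁ ih₂
  | pop_none hk _ ih => exact .pop_none hk ih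
  | pop_false hk _ ih =>
    refine .pop_false (k := (Sum.inl _ : K ⊕ L)) hk ?_
    rw [Sum.update_elim_inl]
    exact ih
  | pop_true hk _ ih =>
    refine .pop_true (k := (Sum.inl _ : K ⊕ L)) hk ?_
    rw [Sum.update_elim_inl]
    exact ih
  | loopB_none hk => exact .loopB_none hk
  | loopB_false hk _ _ ih₁ ih₂ =>
    refine .loopB_false (k := (Sum.inl _ : K ⊕ L)) hk ?_ ih₂
    rw [Sum.update_elim_inl]
    exact ih₁
  | loopB_true hk _ _ ih₁ ih₂ =>
    refine .loopB_true (k := (Sum.inl _ : K ⊕ L)) hk ?_ ih₂
    rw [Sum.update_elim_inl]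
    exact ih₁
  | loopT_none hk => exact .loopT_none hk
  | @loopT_false k c S l hk =>
    have := Run.loopT_false (k := (Sum.inl k : K ⊕ L)) (c := mapCmd Sum.inl c)
      (S := Sum.elim S g) hk
    rw [Sum.update_elim_inl] at this
    exact this
  | loopT_true hk _ _ ih₁ ih₂ =>
    refine .loopT_true (k := (Sum.inl _ : K ⊕ L)) hk ?_ ih₂
    rw [Sum.update_elim_inl]
    exact ih₁

theorem run_inr {c : Cmd L} {S S' : L → List Bool} {t : ℕ} (h : Run c S S' t)
    (g : K → List Bool) :
    Run (mapCmd (Sum.inr : L → K ⊕ L) c) (Sum.elim g S) (Sum.elim g S') t := by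
  induction h with
  | skip S => exact .skip _
  | push S k b =>
    have := Run.push (Sum.elim g S) (Sum.inr k : K ⊕ L) b
    rw [Sum.update_elim_inr] at this
    exact this
  | seq _ _ ih₁ ih₂ => exact .seq ih₁ ih₂
  | pop_none hk _ ih => exact .pop_none hk ih
  | pop_false hk _ ih =>
    refine .pop_false (k := (Sum.inr _ : K ⊕ L)) hk ?_
    rw [Sum.update_elim_inr]
    exact ih
  | pop_true hk _ ih =>
    refine .pop_true (k := (Sum.inr _ : K ⊕ L)) hk ?_
    rw [Sum.update_elim_inr]
    exact ih
  | loopB_none hk => exact .loopB_none hk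
  | loopB_false hk _ _ ih₁ ih₂ =>
    refine .loopB_false (k := (Sum.inr _ : K ⊕ L)) hk ?_ ih₂
    rw [Sum.update_elim_inr]
    exact ih₁
  | loopB_true hk _ _ ih₁ ih₂ =>
    refine .loopB_true (k := (Sum.inr _ : K ⊕ L)) hk ?_ ih₂
    rw [Sum.update_elim_inr]
    exact ih₁
  | loopT_none hk => exact .loopT_none hk
  | @loopT_false k c S l hk =>
    have := Run.loopT_false (k := (Sum.inr k : K ⊕ L)) (c := mapCmd Sum.inr c)
      (S := Sum.elim g S) hk
    rw [Sum.update_elim_inr] at this
    exact this
  | loopT_true hk _ _ ih₁ ih₂ =>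
    refine .loopT_true (k := (Sum.inr _ : K ⊕ L)) hk ?_ ih₂
    rw [Sum.update_elim_inr]
    exact ih₁

theorem RunLe.inl {c : Cmd K} {S S' : K → List Bool} {n : ℕ} (h : RunLe c S S' n)
    (g : L → List Bool) :
    RunLe (mapCmd (Sum.inl : K → K ⊕ L) c) (Sum.elim S g) (Sum.elim S' g) n := by
  obtain ⟨t, ht, h⟩ := h
  exact ⟨t, ht, run_inl h g⟩

theorem RunLe.inr {c : Cmd L} {S S' : L → List Bool} {n : ℕ} (h : RunLe c S S' n)
    (g : K → List Bool) :
    RunLe (mapCmd (Sum.inr : L → K ⊕ L) c) (Sum.elim g S) (Sum.elim g S') n := by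
  obtain ⟨t, ht, h⟩ := h
  exact ⟨t, ht, run_inr h g⟩

end rename

/-! ### Elementary programs -/

section basic

variable {K : Type} [DecidableEq K]

theorem RunLe.pop_none {k : K} {cn cf ct : Cmd K} {S S' : K → List Bool} {n : ℕ}
    (hk : S k = []) (h : RunLe cn S S' n) : RunLe (.pop k cn cf ct) S S' (n + 1) := by
  obtain ⟨t, ht, h⟩ := h
  exact ⟨t + 1, by omega, .pop_none hk h⟩

/-- push a fixed list: the last element first -/
def pushL (k : K) : List Bool → Cmd K
  | [] => .skip
  | b :: l => .seq (pushL k l) (.push k b)

theorem run_pushL (k : K) (l : List Bool) (S : K → List Bool) :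
    RunLe (pushL k l) S (update S k (l ++ S k)) l.length := by
  induction l with
  | nil =>
    have : update S k ([] ++ S k) = S := by rw [List.nil_append, update_eq_self]
    rw [this]
    exact RunLe.skip S
  | cons b l ih =>
    have h := RunLe.push (update S k (l ++ S k)) k b
    rw [update_self, update_idem] at h
    exact RunLe.seq ih h

/-- the unary code of a number -/
def ucode (j : ℕ) : List Bool := List.replicate j true ++ [false]

theorem ucode_length (j : ℕ) : (ucode j).length = j + 1 := by simp [ucode]

theorem ucode_succ (j : ℕ) : ucode (j + 1) = true :: ucode j := by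
  simp [ucode, List.replicate_succ]

/-- read a number in unary (at most `fuel`), continue accordingly -/
def readU (k : K) (emp : Cmd K) (cs : ℕ → Cmd K) : ℕ → ℕ → Cmd K
  | 0, _ => .skip
  | f + 1, j => .pop k emp (cs j) (readU k emp cs f (j + 1))

theorem run_readU (k : K) (emp : Cmd K) (cs : ℕ → Cmd K) (i : ℕ) :
    ∀ (f j : ℕ) (S S' : K → List Bool) (r : List Bool) (n : ℕ), i < f → S k = ucode i ++ r →
      RunLe (cs (j + i)) (update S k r) S' n → RunLe (readU k emp cs f j) S S' (n + i + 1) := by
  induction i with
  | zero =>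
    intro f j S S' r n hf hS h
    obtain ⟨f, rfl⟩ : ∃ g, f = g + 1 := ⟨f - 1, by omega⟩
    exact RunLe.pop_false (l := r) (by rw [hS]; rfl) h
  | succ i ih =>
    intro f j S S' r n hf hS h
    obtain ⟨f, rfl⟩ : ∃ g, f = g + 1 := ⟨f - 1, by omega⟩
    have h1 := ih f (j + 1) (update S k (ucode i ++ r)) S' r n (by omega) (by rw [update_self])
      (by rw [update_idem]; rw [show j + 1 + i = j + (i + 1) by ring]; exact h)
    refine (RunLe.pop_true (l := ucode i ++ r) (by rw [hS, ucode_succ]; rfl) h1).mono (by omega)

theorem run_readU_nil (k : K) (emp : Cmd K) (cs : ℕ → Cmd K) (f j : ℕ) (S S' : K → List Bool)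
    (n : ℕ) (hS : S k = []) (h : RunLe emp S S' n) :
    RunLe (readU k emp cs (f + 1) j) S S' (n + 1) :=
  RunLe.pop_none hS h

/-- empty a stack -/
def clearC (k : K) : Cmd K := .loopB k .skip .skip

theorem run_clearC (k : K) (l : List Bool) : ∀ S : K → List Bool, S k = l →
    RunLe (clearC k) S (update S k []) (l.length + 1) := by
  induction l with
  | nil =>
    intro S hS
    have : update S k [] = S := by rw [← hS, update_eq_self]
    rw [this]
    exact RunLe.loopB_none hS
  | cons b l ih =>
    intro S hS
    have h := ih (update S k l) (update_self ..)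
    rw [update_idem] at h
    cases b
    · exact (RunLe.loopB_false (n := 0) hS (RunLe.skip _) h).mono (by simp only [List.length_cons]; omega)
    · exact (RunLe.loopB_true (n := 0) hS (RunLe.skip _) h).mono (by simp only [List.length_cons]; omega)

end basic

/-! ### Loops with a clock -/

/-- the stacks of the clock -/
inductive Ct : Type
  | N | Z | Y | C | D
  deriving DecidableEq

instance : Fintype Ct := ⟨⟨{Ct.N, Ct.Z, Ct.Y, Ct.C, Ct.D}, by decide⟩, fun x => by cases x <;> decide⟩

/-- the stacks of the clock as a function -/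
def ctk (n z y c d : List Bool) : Ct → List Bool
  | .N => n
  | .Z => z
  | .Y => y
  | .C => c
  | .D => d

@[simp] theorem ctk_N (n z y c d) : ctk n z y c d .N = n := rfl
@[simp] theorem ctk_Z (n z y c d) : ctk n z y c d .Z = z := rfl
@[simp] theorem ctk_Y (n z y c d) : ctk n z y c d .Y = y := rfl
@[simp] theorem ctk_C (n z y c d) : ctk n z y c d .C = c := rfl
@[simp] theorem ctk_D (n z y c d) : ctk n z y c d .D = d := rfl
@[simp] theorem update_ctN (n z y c d x) : update (ctk n z y c d) .N x = ctk x z y c d := by
  funext k; cases k <;> simp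
@[simp] theorem update_ctZ (n z y c d x) : update (ctk n z y c d) .Z x = ctk n x y c d := by
  funext k; cases k <;> simp
@[simp] theorem update_ctY (n z y c d x) : update (ctk n z y c d) .Y x = ctk n z x c d := by
  funext k; cases k <;> simp
@[simp] theorem update_ctC (n z y c d x) : update (ctk n z y c d) .C x = ctk n z y x d := by
  funext k; cases k <;> simp
@[simp] theorem update_ctD (n z y c d x) : update (ctk n z y c d) .D x = ctk n z y c x := by
  funext k; cases k <;> simp

/-- increment of a binary number, least significant bit first; the flag is `false` on overflow -/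
def incr : List Bool → List Bool × Bool
  | [] => ([], false)
  | false :: l => (true :: l, true)
  | true :: l => (false :: (incr l).1, (incr l).2)

/-- value of a binary number -/
def bval : List Bool → ℕ
  | [] => 0
  | b :: l => (if b then 1 else 0) + 2 * bval l

theorem bval_lt (l : List Bool) : bval l < 2 ^ l.length := by
  induction l with
  | nil => simp [bval]
  | cons b l ih =>
    simp only [bval, List.length_cons, pow_succ]
    split_ifs <;> omega

theorem incr_length (l : List Bool) : (incr l).1.length = l.length := by
  induction l with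
  | nil => rfl
  | cons b l ih => cases b <;> simp [incr, ih]

theorem incr_true (l : List Bool) : (incr l).2 = true → bval (incr l).1 = bval l + 1 := by
  induction l with
  | nil => intro h; simp [incr] at h
  | cons b l ih =>
    cases b
    · intro _; simp [incr, bval]; omega
    · intro h
      have := ih h
      simp only [incr, bval, if_true, Bool.false_eq_true, if_false]
      omega

theorem incr_false (l : List Bool) : (incr l).2 = false →
    bval l + 1 = 2 ^ l.length ∧ (incr l).1 = List.replicate l.length false := by
  induction l with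
  | nil => intro _; simp [incr, bval]
  | cons b l ih =>
    cases b
    · intro h; simp [incr] at h
    · intro h
      obtain ⟨h1, h2⟩ := ih h
      constructor
      · simp only [bval, if_true, List.length_cons, pow_succ]
        omega
      · simp only [incr, List.length_cons, List.replicate_succ, h2]

theorem bval_replicate (h : ℕ) : bval (List.replicate h false) = 0 := by
  induction h with
  | zero => rfl
  | succ h ih => simp [List.replicate_succ, bval, ih]

/-- the carry loop of the increment -/
def carryC : Cmd Ct :=
  .loopT .D (.pop .Z .skip (.seq (.push .Z true) (.push .C true))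
    (.seq (.push .Y true) (.push .D true)))

theorem run_carryC (z : List Bool) : ∀ (n y c : List Bool),
    ∃ y' z' : List Bool,
      RunLe carryC (ctk n z y c [true]) (ctk n z' y' (if (incr z).2 then true :: c else c) [])
        (4 * z.length + 5) ∧ y'.length ≤ y.length + z.length ∧
      List.replicate y'.length false ++ z' = List.replicate y.length false ++ (incr z).1 := by
  induction z with
  | nil =>
    intro n y c
    refine ⟨y, [], ?_, by simp, by simp [incr]⟩
    refine (RunLe.loopT_true (S' := ctk n [] y c []) (n := 1) (n' := 1) rfl ?_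
      (RunLe.loopT_none rfl)).mono (by simp)
    rw [update_ctD]
    exact RunLe.pop_none rfl (RunLe.skip _)
  | cons b z ih =>
    intro n y c
    cases b
    · refine ⟨y, true :: z, ?_, by simp, by simp [incr]⟩
      refine (RunLe.loopT_true (S' := ctk n (true :: z) y (true :: c) []) (n := 3) (n' := 1) rfl ?_
        ?_).mono (by simp only [List.length_cons]; omega)
      · rw [update_ctD]
        refine RunLe.pop_false (n := 2) (l := z) rfl ?_
        rw [update_ctZ]
        refine RunLe.seq (n := 1) (n' := 1) (RunLe.push _ _ _) ?_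
        rw [update_ctZ]
        simpa using RunLe.push (ctk n (true :: z) y c []) .C true
      · exact RunLe.loopT_none rfl
    · obtain ⟨y', z', h1, h2, h3⟩ := ih n (true :: y) c
      refine ⟨y', z', ?_, ?_, ?_⟩
      · refine (RunLe.loopT_true (S' := ctk n z (true :: y) c [true]) (n := 3) rfl ?_ h1).mono
          (by simp only [List.length_cons]; omega)
        rw [update_ctD]
        refine RunLe.pop_true (n := 2) (l := z) rfl ?_
        rw [update_ctZ]
        refine RunLe.seq (n := 1) (n' := 1) (RunLe.push _ _ _) ?_
        rw [update_ctY]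
        simpa using RunLe.push (ctk n z (true :: y) c []) .D true
      · simp only [List.length_cons] at h2 ⊢; omega
      · rw [h3]
        simp only [incr, List.length_cons, List.replicate_succ']
        simp

/-- move the ones from `Y` to `Z` as zeros -/
def flushC : Cmd Ct := .loopB .Y (.push .Z false) (.push .Z false)

theorem run_flushC (y : List Bool) : ∀ (n z c d : List Bool),
    RunLe flushC (ctk n z y c d) (ctk n (List.replicate y.length false ++ z) [] c d)
      (2 * y.length + 1) := by
  induction y with
  | nil => intro n z c d; exact RunLe.loopB_none rfl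
  | cons b y ih =>
    intro n z c d
    have h := ih n (false :: z) c d
    have e : List.replicate (b :: y).length false ++ z =
        List.replicate y.length false ++ false :: z := by
      simp [List.replicate_succ']
    rw [e]
    cases b
    · refine (RunLe.loopB_false (n := 1) (l := y) (by rfl) ?_ h).mono
        (by simp only [List.length_cons]; omega)
      rw [update_ctY]
      simpa using RunLe.push (ctk n z y c d) .Z false
    · refine (RunLe.loopB_true (n := 1) (l := y) (by rfl) ?_ h).mono
        (by simp only [List.length_cons]; omega)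
      rw [update_ctY]
      simpa using RunLe.push (ctk n z y c d) .Z false

/-- one tick of the clock -/
def tickC : Cmd Ct := .seq (.push .D true) (.seq carryC flushC)

theorem run_tickC (n z c : List Bool) :
    RunLe tickC (ctk n z [] c []) (ctk n (incr z).1 [] (if (incr z).2 then true :: c else c) [])
      (6 * z.length + 7) := by
  obtain ⟨y', z', h1, h2, h3⟩ := run_carryC z n [] c
  have h4 := run_flushC y' n z' (if (incr z).2 then true :: c else c) []
  rw [h3] at h4
  simp only [List.length_nil, List.replicate_zero, List.nil_append, Nat.zero_add] at h4 h2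
  refine (RunLe.seq (n := 1) (by simpa using RunLe.push (ctk n z [] c []) .D true)
    (RunLe.seq h1 h4)).mono (by omega)

section clock

variable {K : Type} [DecidableEq K] {X : Type}

/-- run `body` until the counter overflows -/
def loop1 (body : Cmd K) : Cmd (K ⊕ Ct) :=
  .loopT (.inr .C) (.seq (mapCmd Sum.inl body) (mapCmd Sum.inr tickC))

theorem run_loop1 {body : Cmd K} {E : X → K → List Bool} {f : X → X} {Pr : X → Prop} {t₀ : ℕ}
    (hbody : ∀ x, Pr x → Pr (f x) ∧ RunLe body (E x) (E (f x)) t₀) (n : List Bool) (h : ℕ)
    (r : ℕ) : ∀ (z : List Bool) (x : X), Pr x → z.length = h → bval z + r + 1 = 2 ^ h →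
      Pr (f^[r + 1] x) ∧
      RunLe (loop1 body) (Sum.elim (E x) (ctk n z [] [true] []))
        (Sum.elim (E (f^[r + 1] x)) (ctk n (List.replicate h false) [] [] []))
        ((r + 1) * (t₀ + 6 * h + 8) + 1) := by
  induction r with
  | zero =>
    intro z x hx hz hv
    obtain ⟨h1, h2⟩ := hbody x hx
    refine ⟨h1, ?_⟩
    have hf : (incr z).2 = false := by
      by_contra hne
      rw [Bool.not_eq_false] at hne
      have h3 := incr_true z hne
      have h4 := bval_lt (incr z).1
      rw [incr_length, h3, hz] at h4
      omega
    have h5 := run_tickC n z []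
    rw [hf, (incr_false z hf).2, hz] at h5
    refine (RunLe.loopT_true (S' := Sum.elim (E (f x)) (ctk n (List.replicate h false) [] [] []))
      (n := t₀ + (6 * h + 7)) (n' := 1) (l := []) rfl ?_ (RunLe.loopT_none rfl)).mono (by
        simp only [Nat.zero_add, Nat.one_mul]; omega)
    rw [Sum.update_elim_inr, update_ctC]
    exact RunLe.seq (RunLe.inl h2 _) (RunLe.inr h5 _)
  | succ r ih =>
    intro z x hx hz hv
    obtain ⟨h1, h2⟩ := hbody x hx
    have hf : (incr z).2 = true := by
      by_contra hne
      rw [Bool.not_eq_true] at hne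
      have := (incr_false z hne).1
      rw [hz] at this
      omega
    have h5 := run_tickC n z []
    rw [hf, if_pos rfl, hz] at h5
    obtain ⟨h6, h7⟩ := ih (incr z).1 (f x) h1 (by rw [incr_length, hz])
      (by rw [incr_true z hf]; omega)
    rw [← Function.iterate_succ_apply] at h6 h7
    refine ⟨h6, ?_⟩
    refine (RunLe.loopT_true (S' := Sum.elim (E (f x)) (ctk n (incr z).1 [] [true] []))
      (n := t₀ + (6 * h + 7)) (l := []) rfl ?_ h7).mono (by nlinarith)
    rw [Sum.update_elim_inr, update_ctC]
    exact RunLe.seq (RunLe.inl h2 _) (RunLe.inr h5 _)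

/-- run `body` for `N * 2 ^ h` times, `N` and `h` being given on the stacks of the clock -/
def clockC (body : Cmd K) : Cmd (K ⊕ Ct) :=
  .seq (.loopB (.inr .N) .skip (.seq (.push (.inr .C) true) (loop1 body)))
    (clearC (.inr .Z))

theorem run_clockC {body : Cmd K} {E : X → K → List Bool} {f : X → X} {Pr : X → Prop} {t₀ : ℕ}
    (hbody : ∀ x, Pr x → Pr (f x) ∧ RunLe body (E x) (E (f x)) t₀) (h N : ℕ) :
    ∀ x : X, Pr x → Pr (f^[N * 2 ^ h] x) ∧
      RunLe (clockC body) (Sum.elim (E x)
        (ctk (List.replicate N true) (List.replicate h false) [] [] []))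
        (Sum.elim (E (f^[N * 2 ^ h] x)) (ctk [] [] [] [] []))
        (N * (2 ^ h * (t₀ + 6 * h + 8) + 3) + (h + 2)) := by
  have key : ∀ N, ∀ x : X, Pr x → Pr (f^[N * 2 ^ h] x) ∧
      RunLe (.loopB (.inr .N) .skip (.seq (.push (.inr .C) true) (loop1 body)))
        (Sum.elim (E x) (ctk (List.replicate N true) (List.replicate h false) [] [] []))
        (Sum.elim (E (f^[N * 2 ^ h] x)) (ctk [] (List.replicate h false) [] [] []))
        (N * (2 ^ h * (t₀ + 6 * h + 8) + 3) + 1) := by
    intro N
    induction N with
    | zero =>
      intro x hx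
      rw [Nat.zero_mul, Function.iterate_zero, id_eq]
      exact ⟨hx, (RunLe.loopB_none rfl).mono (by omega)⟩
    | succ N ih =>
      intro x hx
      have h2 : 1 ≤ 2 ^ h := Nat.one_le_two_pow
      obtain ⟨h3, h4⟩ := run_loop1 hbody (List.replicate N true) h (2 ^ h - 1)
        (List.replicate h false) x hx (List.length_replicate ..)
        (by rw [bval_replicate]; omega)
      rw [Nat.sub_add_cancel h2] at h3 h4
      obtain ⟨h5, h6⟩ := ih _ h3
      have e : (N + 1) * 2 ^ h = N * 2 ^ h + 2 ^ h := by ring
      rw [e, Function.iterate_add_apply]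
      refine ⟨h5, ?_⟩
      refine (RunLe.loopB_true (k := (Sum.inr Ct.N : K ⊕ Ct)) (n := 1 + (2 ^ h * (t₀ + 6 * h + 8) + 1))
        (l := List.replicate N true) rfl ?_ h6).mono (by nlinarith)
      rw [Sum.update_elim_inr, update_ctN]
      refine RunLe.seq (n := 1) (RunLe.push _ _ _) ?_
      rw [Sum.update_elim_inr, Sum.elim_inr, ctk_C, update_ctC]
      exact h4
  intro x hx
  obtain ⟨h1, h2⟩ := key N x hx
  refine ⟨h1, ?_⟩
  have h3 := run_clearC (Sum.inr Ct.Z : K ⊕ Ct) (List.replicate h false)
    (Sum.elim (E (f^[N * 2 ^ h] x)) (ctk [] (List.replicate h false) [] [] [])) rfl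
  rw [Sum.update_elim_inr, update_ctZ, List.length_replicate] at h3
  exact (RunLe.seq h2 h3).mono (by omega)

end clock

end Pool.Agent.Lib.MP_87d05f_lc
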