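import Mathlib
import Pool.Agent.Lib.MP_87d05f_lc.CmdLib

set_option autoImplicit false

/-!
# Simulation of an arbitrary Mathlib machine by a structured program on Boolean stacks
-/

namespace Pool.Agent.Lib.MP_87d05f_lc

open Pool.Agent.PolyTime Function Turing

/-! ### Codes of symbols -/

section codes

variable {A : Type}

open Classical in
/-- position of a symbol in a list of symbols -/
noncomputable def ix (G : List A) (s : A) : ℕ := G.idxOf s

theorem ix_lt {G : List A} {s : A} (h : s ∈ G) : ix G s < G.length := by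
  classical
  unfold ix
  exact List.idxOf_lt_length_iff.2 h

theorem getElem?_ix {G : List A} {s : A} (h : s ∈ G) : G[ix G s]? = some s := by
  classical
  have h1 := ix_lt h
  rw [List.getElem?_eq_getElem h1]
  congr 1
  unfold ix
  exact List.getElem_idxOf _

theorem ix_le (G : List A) (s : A) : ix G s ≤ G.length := by
  classical
  unfold ix
  exact List.idxOf_le_length

/-- code of a symbol -/
noncomputable def scode (G : List A) (s : A) : List Bool := ucode (ix G s)

/-- code of a stack -/
noncomputable def stcode (G : List A) (l : List A) : List Bool := l.flatMap (scode G)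

theorem stcode_cons (G : List A) (s : A) (l : List A) :
    stcode G (s :: l) = scode G s ++ stcode G l := rfl

theorem stcode_nil (G : List A) : stcode G [] = [] := rfl

theorem scode_length_le {G : List A} {s : A} (h : s ∈ G) : (scode G s).length ≤ G.length := by
  rw [scode, ucode_length]
  exact ix_lt h

theorem stcode_length_le {G : List A} {l : List A} (h : ∀ s ∈ l, s ∈ G) :
    (stcode G l).length ≤ l.length * G.length := by
  induction l with
  | nil => simp [stcode]
  | cons s l ih =>
    rw [stcode_cons, List.length_append, List.length_cons]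
    have h1 := scode_length_le (h s List.mem_cons_self)
    have h2 := ih (fun t ht => h t (List.mem_cons_of_mem _ ht))
    nlinarith

theorem ucode_append_inj {i j : ℕ} {r r' : List Bool} (h : ucode i ++ r = ucode j ++ r') :
    i = j ∧ r = r' := by
  induction i generalizing j with
  | zero =>
    cases j with
    | zero => simpa [ucode] using h
    | succ j => simp [ucode, List.replicate_succ] at h
  | succ i ih =>
    cases j with
    | zero => simp [ucode, List.replicate_succ] at h
    | succ j =>
      rw [ucode_succ, ucode_succ] at h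
      simp only [List.cons_append, List.cons.injEq, true_and] at h
      obtain ⟨h1, h2⟩ := ih h
      exact ⟨by rw [h1], h2⟩

theorem stcode_injOn {G : List A} : ∀ {l l' : List A}, (∀ s ∈ l, s ∈ G) → (∀ s ∈ l', s ∈ G) →
    stcode G l = stcode G l' → l = l' := by
  intro l
  induction l with
  | nil =>
    intro l' _ _ h
    cases l' with
    | nil => rfl
    | cons s l' =>
      have := congrArg List.length h
      rw [stcode_cons, stcode_nil, List.length_append, scode, ucode_length, List.length_nil] at this
      omega
  | cons s l ih =>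
    intro l' hl hl' h
    cases l' with
    | nil =>
      have := congrArg List.length h
      rw [stcode_cons, stcode_nil, List.length_append, scode, ucode_length, List.length_nil] at this
      omega
    | cons s' l' =>
      rw [stcode_cons, stcode_cons] at h
      obtain ⟨h1, h2⟩ := ucode_append_inj h
      have hs := getElem?_ix (hl s List.mem_cons_self)
      have hs' := getElem?_ix (hl' s' List.mem_cons_self)
      rw [h1, hs'] at hs
      simp only [Option.some.injEq] at hs
      rw [hs, ih (fun t ht => hl t (List.mem_cons_of_mem _ ht))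
        (fun t ht => hl' t (List.mem_cons_of_mem _ ht)) h2]

end codes

/-! ### Auxiliary stacks -/

/-- `Q` holds the control state, `X` is auxiliary -/
inductive Ax : Type
  | Q | X
  deriving DecidableEq

instance : Fintype Ax := ⟨⟨{Ax.Q, Ax.X}, by decide⟩, fun x => by cases x <;> decide⟩

/-- the auxiliary stacks as a function -/
def axk (q x : List Bool) : Ax → List Bool
  | .Q => q
  | .X => x

@[simp] theorem axk_Q (q x) : axk q x .Q = q := rfl
@[simp] theorem axk_X (q x) : axk q x .X = x := rfl
@[simp] theorem update_axQ (q x y) : update (axk q x) .Q y = axk y x := by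
  funext k; cases k <;> simp
@[simp] theorem update_axX (q x y) : update (axk q x) .X y = axk q y := by
  funext k; cases k <;> simp

/-! ### Statements -/

section sim

variable {K : Type} [DecidableEq K] {Γ : K → Type} {Λ σ : Type}

/-- all pushed symbols are in the lists -/
def PushIn (G : ∀ k, List (Γ k)) : TM2.Stmt Γ Λ σ → Prop
  | .push k f q => (∀ v, f v ∈ G k) ∧ PushIn G q
  | .peek _ _ q => PushIn G q
  | .pop _ _ q => PushIn G q
  | .load _ q => PushIn G q
  | .branch _ q₁ q₂ => PushIn G q₁ ∧ PushIn G q₂
  | .goto _ => True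
  | .halt => True

/-- translation of a statement, the internal state being known -/
noncomputable def trS (G : ∀ k, List (Γ k)) (CL : List (Option Λ × σ)) :
    TM2.Stmt Γ Λ σ → σ → Cmd (K ⊕ Ax)
  | .push k f q, v => .seq (pushL (.inl k) (scode (G k) (f v))) (trS G CL q v)
  | .peek k f q, v => readU (.inl k) (trS G CL q (f v none))
      (fun j => (Option.casesOn (G k)[j]? .skip (fun s =>
        .seq (pushL (.inl k) (ucode j)) (trS G CL q (f v (some s)))))) ((G k).length + 1) 0
  | .pop k f q, v => readU (.inl k) (trS G CL q (f v none))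
      (fun j => (Option.casesOn (G k)[j]? .skip (fun s => trS G CL q (f v (some s)))))
        ((G k).length + 1) 0
  | .load a q, v => trS G CL q (a v)
  | .branch p q₁ q₂, v => bif p v then trS G CL q₁ v else trS G CL q₂ v
  | .goto l, v => pushL (.inr .Q) (scode CL (some (l v), v))
  | .halt, v => pushL (.inr .Q) (scode CL (none, v))

/-- all symbols on the stacks are in the lists -/
def Good (G : ∀ k, List (Γ k)) (S : ∀ k, List (Γ k)) : Prop := ∀ k, ∀ s ∈ S k, s ∈ G k

/-- the coded stacks -/
noncomputable def emS (G : ∀ k, List (Γ k)) (S : ∀ k, List (Γ k)) (q x : List Bool) :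
    K ⊕ Ax → List Bool :=
  Sum.elim (fun k => stcode (G k) (S k)) (axk q x)

theorem emS_update (G : ∀ k, List (Γ k)) (S : ∀ k, List (Γ k)) (q x : List Bool) (k : K)
    (l : List (Γ k)) :
    update (emS G S q x) (.inl k) (stcode (G k) l) = emS G (update S k l) q x := by
  unfold emS
  rw [Sum.update_elim_inl]
  congr 1
  funext j
  rw [Function.apply_update (fun k l => stcode (G k) l) S k l j]

theorem emS_updateQ (G : ∀ k, List (Γ k)) (S : ∀ k, List (Γ k)) (q x y : List Bool) :
    update (emS G S q x) (.inr .Q) y = emS G S y x := by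
  unfold emS
  rw [Sum.update_elim_inr, update_axQ]

theorem Good.update {G : ∀ k, List (Γ k)} {S : ∀ k, List (Γ k)} (h : Good G S) (k : K)
    {l : List (Γ k)} (hl : ∀ s ∈ l, s ∈ G k) : Good G (Function.update S k l) := by
  intro j
  by_cases hj : j = k
  · subst hj
    rw [Function.update_self]
    exact hl
  · rw [Function.update_of_ne hj]
    exact h j

theorem trS_run (G : ∀ k, List (Γ k)) (CL : List (Option Λ × σ)) (q : TM2.Stmt Γ Λ σ)
    (hq : PushIn G q) : ∃ c : ℕ, ∀ (v : σ) (S : ∀ k, List (Γ k)) (x : List Bool), Good G S →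
      Good G (TM2.stepAux q v S).stk ∧
      RunLe (trS G CL q v) (emS G S [] x)
        (emS G (TM2.stepAux q v S).stk
          (scode CL ((TM2.stepAux q v S).l, (TM2.stepAux q v S).var)) x) c ∧
      ∀ k, ((TM2.stepAux q v S).stk k).length ≤ (S k).length + c := by
  induction q with
  | push k f q ih =>
    obtain ⟨c, hc⟩ := ih hq.2
    refine ⟨(G k).length + c + 1, fun v S x hS => ?_⟩
    obtain ⟨h1, h2, h3⟩ := hc v (update S k (f v :: S k)) x (hS.update k (by
      intro s hs
      rcases List.mem_cons.1 hs with rfl | hs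
      · exact hq.1 v
      · exact hS k s hs))
    refine ⟨h1, ?_, ?_⟩
    · have h4 := run_pushL (Sum.inl k : K ⊕ Ax) (scode (G k) (f v)) (emS G S [] x)
      have e : scode (G k) (f v) ++ emS G S [] x (.inl k) = stcode (G k) (f v :: S k) := rfl
      rw [e, emS_update] at h4
      exact (RunLe.seq h4 h2).mono (by
        have := scode_length_le (hq.1 v)
        omega)
    · intro j
      refine (h3 j).trans ?_
      by_cases hj : j = k
      · subst hj
        rw [update_self, List.length_cons]; omega
      · rw [update_of_ne hj]; omega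
  | peek k f q ih =>
    obtain ⟨c, hc⟩ := ih hq
    refine ⟨c + 2 * (G k).length + 2, fun v S x hS => ?_⟩
    obtain ⟨h1, h2, h3⟩ := hc (f v (S k).head?) S x hS
    refine ⟨h1, ?_, fun j => (h3 j).trans (by omega)⟩
    rcases hk : S k with _ | ⟨s, l⟩
    · rw [hk] at h2
      refine (run_readU_nil _ _ _ _ _ _ _ c ?_ ?_).mono (by omega)
      · change stcode (G k) (S k) = []
        rw [hk]
        rfl
      · simpa [TM2.stepAux, hk] using h2
    · have hs : s ∈ G k := hS k s (by rw [hk]; exact List.mem_cons_self)
      rw [hk] at h2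
      have hi := ix_lt hs
      refine (run_readU _ _ _ (ix (G k) s) _ _ _ _ (stcode (G k) l) (c + (G k).length)
        (by omega) ?_ ?_).mono (by omega)
      · change stcode (G k) (S k) = _
        rw [hk]
        rfl
      · rw [Nat.zero_add, getElem?_ix hs, emS_update]
        have h4 := run_pushL (Sum.inl k : K ⊕ Ax) (ucode (ix (G k) s))
          (emS G (update S k l) [] x)
        have e : ucode (ix (G k) s) ++ emS G (update S k l) [] x (.inl k) =
            stcode (G k) (S k) := by
          change ucode (ix (G k) s) ++ stcode (G k) (update S k l k) = _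
          rw [update_self, hk]
          rfl
        rw [e, emS_update, update_idem, update_eq_self] at h4
        have h5 : RunLe (trS G CL q (f v (some s))) (emS G S [] x)
            (emS G (TM2.stepAux (.peek k f q) v S).stk (scode CL
              ((TM2.stepAux (.peek k f q) v S).l, (TM2.stepAux (.peek k f q) v S).var)) x) c := by
          simpa [TM2.stepAux, hk] using h2
        refine (RunLe.seq h4 h5).mono ?_
        rw [ucode_length]
        omega
  | pop k f q ih =>
    obtain ⟨c, hc⟩ := ih hq
    refine ⟨c + (G k).length + 2, fun v S x hS => ?_⟩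
    obtain ⟨h1, h2, h3⟩ := hc (f v (S k).head?) (update S k (S k).tail) x (hS.update k (by
      intro s hs
      exact hS k s (List.mem_of_mem_tail hs)))
    refine ⟨h1, ?_, ?_⟩
    · rcases hk : S k with _ | ⟨s, l⟩
      · refine (run_readU_nil _ _ _ _ _ _ _ c ?_ ?_).mono (by omega)
        · change stcode (G k) (S k) = []
          rw [hk]
          rfl
        · have e : update S k [] = S := by rw [← hk, update_eq_self]
          rw [hk] at h2
          simp only [List.head?_nil, List.tail_nil, e] at h2
          simpa [TM2.stepAux, hk, e] using h2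
      · have hs : s ∈ G k := hS k s (by rw [hk]; exact List.mem_cons_self)
        rw [hk] at h2
        have hi := ix_lt hs
        refine (run_readU _ _ _ (ix (G k) s) _ _ _ _ (stcode (G k) l) c
          (by omega) ?_ ?_).mono (by omega)
        · change stcode (G k) (S k) = _
          rw [hk]
          rfl
        · rw [Nat.zero_add, getElem?_ix hs, emS_update]
          simpa [TM2.stepAux, hk] using h2
    · intro j
      refine (h3 j).trans ?_
      by_cases hj : j = k
      · subst hj
        rw [update_self, List.length_tail]; omega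
      · rw [update_of_ne hj]; omega
  | load a q ih =>
    obtain ⟨c, hc⟩ := ih hq
    exact ⟨c, fun v S x hS => hc (a v) S x hS⟩
  | branch p q₁ q₂ ih₁ ih₂ =>
    obtain ⟨c₁, hc₁⟩ := ih₁ hq.1
    obtain ⟨c₂, hc₂⟩ := ih₂ hq.2
    refine ⟨c₁ + c₂, fun v S x hS => ?_⟩
    rcases hp : p v with _ | _
    · obtain ⟨h1, h2, h3⟩ := hc₂ v S x hS
      have e1 : trS G CL (.branch p q₁ q₂) v = trS G CL q₂ v := by simp [trS, hp]
      have e2 : TM2.stepAux (.branch p q₁ q₂) v S = TM2.stepAux q₂ v S := by
        simp [TM2.stepAux, hp]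
      rw [e1, e2]
      exact ⟨h1, h2.mono (by omega), fun k => (h3 k).trans (by omega)⟩
    · obtain ⟨h1, h2, h3⟩ := hc₁ v S x hS
      have e1 : trS G CL (.branch p q₁ q₂) v = trS G CL q₁ v := by simp [trS, hp]
      have e2 : TM2.stepAux (.branch p q₁ q₂) v S = TM2.stepAux q₁ v S := by
        simp [TM2.stepAux, hp]
      rw [e1, e2]
      exact ⟨h1, h2.mono (by omega), fun k => (h3 k).trans (by omega)⟩
  | goto l =>
    refine ⟨CL.length + 1, fun v S x hS => ⟨hS, ?_, fun k => by
      simp only [TM2.stepAux]; omega⟩⟩
    have h := run_pushL (Sum.inr Ax.Q : K ⊕ Ax) (scode CL (some (l v), v)) (emS G S [] x)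
    have e : emS G S [] x (.inr .Q) = [] := rfl
    rw [e, List.append_nil, emS_updateQ] at h
    refine h.mono ?_
    rw [scode, ucode_length]
    have := ix_le CL (some (l v), v)
    omega
  | halt =>
    refine ⟨CL.length + 1, fun v S x hS => ⟨hS, ?_, fun k => by
      simp only [TM2.stepAux]; omega⟩⟩
    have h := run_pushL (Sum.inr Ax.Q : K ⊕ Ax) (scode CL (none, v)) (emS G S [] x)
    have e : emS G S [] x (.inr .Q) = [] := rfl
    rw [e, List.append_nil, emS_updateQ] at h
    refine h.mono ?_
    rw [scode, ucode_length]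
    have := ix_le CL ((none : Option Λ), v)
    omega

theorem PushIn.mono {G G' : ∀ k, List (Γ k)} (h : ∀ k, ∀ s ∈ G k, s ∈ G' k)
    {q : TM2.Stmt Γ Λ σ} (hq : PushIn G q) : PushIn G' q := by
  induction q with
  | push k f q ih => exact ⟨fun v => h k _ (hq.1 v), ih hq.2⟩
  | peek k f q ih => exact ih hq
  | pop k f q ih => exact ih hq
  | load a q ih => exact ih hq
  | branch p q₁ q₂ ih₁ ih₂ => exact ⟨ih₁ hq.1, ih₂ hq.2⟩
  | goto l => trivial
  | halt => trivial

theorem exists_pushIn [Fintype σ] (q : TM2.Stmt Γ Λ σ) : ∃ G : ∀ k, List (Γ k), PushIn G q := by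
  induction q with
  | push k f q ih =>
    obtain ⟨G, hG⟩ := ih
    refine ⟨update G k (((Finset.univ : Finset σ).toList.map f) ++ G k), ?_, ?_⟩
    · intro v
      rw [update_self]
      exact List.mem_append_left _ (List.mem_map.2 ⟨v, by simp, rfl⟩)
    · refine hG.mono fun j s hs => ?_
      by_cases hj : j = k
      · subst hj
        rw [update_self]
        exact List.mem_append_right _ hs
      · rw [update_of_ne hj]
        exact hs
  | peek k f q ih => exact ih
  | pop k f q ih => exact ih
  | load a q ih => exact ih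
  | branch p q₁ q₂ ih₁ ih₂ =>
    obtain ⟨G₁, h₁⟩ := ih₁
    obtain ⟨G₂, h₂⟩ := ih₂
    exact ⟨fun k => G₁ k ++ G₂ k, h₁.mono fun k s hs => List.mem_append_left _ hs,
      h₂.mono fun k s hs => List.mem_append_right _ hs⟩
  | goto l => exact ⟨fun _ => [], trivial⟩
  | halt => exact ⟨fun _ => [], trivial⟩

theorem exists_alphabet [Fintype σ] [Fintype Λ] (m : Λ → TM2.Stmt Γ Λ σ) (k₀ : K)
    [Fintype (Γ k₀)] : ∃ G : ∀ k, List (Γ k), (∀ l, PushIn G (m l)) ∧ ∀ s : Γ k₀, s ∈ G k₀ := by
  choose G hG using fun l => exists_pushIn (m l)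
  let G' : ∀ k, List (Γ k) := fun k => (Finset.univ : Finset Λ).toList.flatMap (fun l => G l k)
  have h1 : ∀ l k, ∀ s ∈ G l k, s ∈ G' k := fun l k s hs =>
    List.mem_flatMap.2 ⟨l, by simp, hs⟩
  refine ⟨update G' k₀ ((Finset.univ : Finset (Γ k₀)).toList ++ G' k₀), fun l => ?_, fun s => ?_⟩
  · refine (hG l).mono fun k s hs => ?_
    by_cases hk : k = k₀
    · subst hk
      rw [update_self]
      exact List.mem_append_right _ (h1 l k s hs)
    · rw [update_of_ne hk]
      exact h1 l k s hs
  · rw [update_self]
    exact List.mem_append_left _ (by simp)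

/-! ### One step -/

/-- the step of the machine, halted configurations being fixed -/
def fstep (m : Λ → TM2.Stmt Γ Λ σ) (c : TM2.Cfg Γ Λ σ) : TM2.Cfg Γ Λ σ :=
  (TM2.step m c).getD c

/-- a configuration on the stacks -/
noncomputable def emC (G : ∀ k, List (Γ k)) (CL : List (Option Λ × σ)) (c : TM2.Cfg Γ Λ σ)
    (x : List Bool) : K ⊕ Ax → List Bool :=
  emS G c.stk (scode CL (c.l, c.var)) x

/-- the program for one step -/
noncomputable def stepC (G : ∀ k, List (Γ k)) (CL : List (Option Λ × σ))
    (m : Λ → TM2.Stmt Γ Λ σ) : Cmd (K ⊕ Ax) :=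
  readU (.inr .Q) .skip (fun j => (Option.casesOn CL[j]? .skip (fun p =>
    (Option.casesOn p.1 (pushL (.inr .Q) (ucode j)) (fun l => trS G CL (m l) p.2)))))
    (CL.length + 1) 0

theorem stepC_run [Fintype Λ] (G : ∀ k, List (Γ k)) (CL : List (Option Λ × σ))
    (m : Λ → TM2.Stmt Γ Λ σ) (hm : ∀ l, PushIn G (m l)) (hCL : ∀ p, p ∈ CL) :
    ∃ c : ℕ, ∀ (c₀ : TM2.Cfg Γ Λ σ) (x : List Bool), Good G c₀.stk →
      Good G (fstep m c₀).stk ∧ RunLe (stepC G CL m) (emC G CL c₀ x) (emC G CL (fstep m c₀) x) c ∧
      ∀ k, ((fstep m c₀).stk k).length ≤ (c₀.stk k).length + c := by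
  choose c hc using fun l => trS_run G CL (m l) (hm l)
  refine ⟨∑ l, c l + 2 * CL.length + 2, ?_⟩
  rintro ⟨l, v, S⟩ x hS
  have hp := hCL (l, v)
  have hix := ix_lt hp
  have e1 : emC G CL ⟨l, v, S⟩ x (.inr .Q) = ucode (ix CL (l, v)) ++ [] := by
    rw [List.append_nil]; rfl
  have e2 : update (emC G CL ⟨l, v, S⟩ x) (.inr .Q) [] = emS G S [] x := emS_updateQ ..
  rcases l with _ | l
  · -- halted
    have e3 : fstep m ⟨none, v, S⟩ = ⟨none, v, S⟩ := rfl
    rw [e3]
    refine ⟨hS, ?_, fun k => by omega⟩
    refine (run_readU _ _ _ (ix CL (none, v)) _ _ _ _ [] (CL.length + 1) (by omega) e1 ?_).mono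
      (by omega)
    rw [Nat.zero_add, getElem?_ix hp, e2]
    have h := run_pushL (Sum.inr Ax.Q : K ⊕ Ax) (ucode (ix CL (none, v))) (emS G S [] x)
    have e : emS G S [] x (.inr .Q) = [] := rfl
    rw [e, List.append_nil, emS_updateQ] at h
    refine h.mono ?_
    rw [ucode_length]
    omega
  · have e3 : fstep m ⟨some l, v, S⟩ = TM2.stepAux (m l) v S := rfl
    rw [e3]
    obtain ⟨h1, h2, h3⟩ := hc l v S x hS
    have hcl : c l ≤ ∑ l, c l := Finset.single_le_sum (fun _ _ => Nat.zero_le _)
      (Finset.mem_univ l)
    refine ⟨h1, ?_, fun k => by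
      have h := h3 k
      change _ ≤ (S k).length + _
      omega⟩
    refine (run_readU _ _ _ (ix CL (some l, v)) _ _ _ _ [] (c l) (by omega) e1 ?_).mono
      (by omega)
    rw [Nat.zero_add, getElem?_ix hp, e2]
    exact h2

end sim

end Pool.Agent.Lib.MP_87d05f_lc
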