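import Mathlib
import Pool.Agent.Lib.MP_87d05f_lc.Sim
import Pool.Agent.Lib.MP_87d05f_lc.Machine

set_option autoImplicit false

/-!
# Calling a machine as a subroutine, with a clock
-/

namespace Pool.Agent.Lib.MP_87d05f_lc

open Pool.Agent.PolyTime Function Turing

section call

variable {K : Type} [DecidableEq K]

/-- all the stacks -/
abbrev KK (K : Type) := (St ⊕ (K ⊕ Ax)) ⊕ Ct

/-- the contents of all the stacks -/
def full (st : St → List Bool) (tm : K ⊕ Ax → List Bool) (ct : Ct → List Bool) :
    KK K → List Bool := Sum.elim (Sum.elim st tm) ct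

theorem full_st (st : St → List Bool) (tm : K ⊕ Ax → List Bool) (ct : Ct → List Bool) (a : St)
    (v : List Bool) : update (full st tm ct) (.inl (.inl a)) v = full (update st a v) tm ct := by
  unfold full
  rw [Sum.update_elim_inl, Sum.update_elim_inl]

theorem full_tm (st : St → List Bool) (tm : K ⊕ Ax → List Bool) (ct : Ct → List Bool)
    (k : K ⊕ Ax) (v : List Bool) :
    update (full st tm ct) (.inl (.inr k)) v = full st (update tm k v) ct := by
  unfold full
  rw [Sum.update_elim_inl, Sum.update_elim_inr]

theorem full_ct (st : St → List Bool) (tm : K ⊕ Ax → List Bool) (ct : Ct → List Bool) (c : Ct)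
    (v : List Bool) : update (full st tm ct) (.inr c) v = full st tm (update ct c v) := by
  unfold full
  rw [Sum.update_elim_inr]

theorem run_popT {k : KK K} {S : KK K → List Bool} {l : List Bool} (b : Bool)
    (h : S k = b :: l) : RunLe (.pop k .skip .skip .skip) S (update S k l) 1 := by
  cases b
  · exact RunLe.pop_false (n := 0) h (RunLe.skip _)
  · exact RunLe.pop_true (n := 0) h (RunLe.skip _)

/-! ### Reading the query -/

/-- read the code of a list of bits from `A` to `X` -/
def rdX : Cmd (KK K) :=
  .loopT (.inl (.inl .A)) (.pop (.inl (.inl .A)) .skip (.push (.inl (.inr (.inr .X))) false)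
    (.seq (.pop (.inl (.inl .A)) .skip .skip .skip) (.seq (.pop (.inl (.inl .A)) .skip .skip .skip)
      (.push (.inl (.inr (.inr .X))) true))))

theorem run_rdX (x : List Bool) (T : K → List Bool) (q : List Bool) (ct : Ct → List Bool)
    (r : List Bool) : ∀ y : List Bool,
    RunLe rdX (full (stk ((enc x).bits ++ r) [] [] []) (Sum.elim T (axk q y)) ct)
      (full (stk r [] [] []) (Sum.elim T (axk q (x.reverse ++ y))) ct) (6 * x.length + 1) := by
  induction x with
  | nil =>
    intro y
    have h := RunLe.loopT_false (k := (.inl (.inl .A) : KK K))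
      (c := (.pop (.inl (.inl .A)) .skip (.push (.inl (.inr (.inr .X))) false)
        (.seq (.pop (.inl (.inl .A)) .skip .skip .skip) (.seq (.pop (.inl (.inl .A)) .skip .skip
          .skip) (.push (.inl (.inr (.inr .X))) true)))))
      (S := full (stk ((enc ([] : List Bool)).bits ++ r) [] [] []) (Sum.elim T (axk q y)) ct)
      (l := r) rfl
    rw [full_st, update_A] at h
    exact h
  | cons b x ih =>
    intro y
    have e : (b :: x).reverse ++ y = x.reverse ++ (b :: y) := by simp
    rw [e]
    have h := ih (b :: y)
    cases b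
    · rw [bits_cons_false]
      refine (RunLe.loopT_true (n := 2) (l := false :: ((enc x).bits ++ r)) (by rfl) ?_ h).mono
        (by simp only [List.length_cons]; omega)
      rw [full_st, update_A]
      refine RunLe.pop_false (n := 1) (l := (enc x).bits ++ r) (by rfl) ?_
      rw [full_st, update_A]
      have h2 := RunLe.push (full (stk ((enc x).bits ++ r) [] [] [])
        (Sum.elim T (axk q y)) ct) (.inl (.inr (.inr .X)) : KK K) false
      rw [full_tm, Sum.update_elim_inr, update_axX] at h2
      exact h2
    · rw [bits_cons_true]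
      refine (RunLe.loopT_true (n := 4)
        (l := true :: false :: false :: ((enc x).bits ++ r)) (by rfl) ?_ h).mono
        (by simp only [List.length_cons]; omega)
      rw [full_st, update_A]
      refine RunLe.pop_true (n := 3) (l := false :: false :: ((enc x).bits ++ r)) (by rfl) ?_
      rw [full_st, update_A]
      refine RunLe.seq (n := 1) (n' := 2) (run_popT (l := false :: ((enc x).bits ++ r)) false
        (by rfl)) ?_
      rw [full_st, update_A]
      refine RunLe.seq (n := 1) (n' := 1) (run_popT (l := (enc x).bits ++ r) false (by rfl)) ?_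
      rw [full_st, update_A]
      have h2 := RunLe.push (full (stk ((enc x).bits ++ r) [] [] [])
        (Sum.elim T (axk q y)) ct) (.inl (.inr (.inr .X)) : KK K) true
      rw [full_tm, Sum.update_elim_inr, update_axX] at h2
      exact h2

/-- read a number from `A` to a stack of the clock -/
def rdN (c : Ct) (b : Bool) : Cmd (KK K) :=
  .loopT (.inl (.inl .A)) (.seq (.pop (.inl (.inl .A)) .skip .skip .skip) (.push (.inr c) b))

theorem nat_bits_succ (n : ℕ) : (enc (n + 1)).bits = true :: false :: (enc n).bits := by
  simp [Sx.bits]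

theorem run_rdN (c : Ct) (b : Bool) (N : ℕ) (tm : K ⊕ Ax → List Bool) (r : List Bool) :
    ∀ ct : Ct → List Bool,
    RunLe (rdN c b) (full (stk ((enc N).bits ++ r) [] [] []) tm ct)
      (full (stk r [] [] []) tm (update ct c (List.replicate N b ++ ct c))) (3 * N + 1) := by
  induction N with
  | zero =>
    intro ct
    have h := RunLe.loopT_false (k := (.inl (.inl .A) : KK K))
      (c := (.seq (.pop (.inl (.inl .A)) .skip .skip .skip) (.push (.inr c) b)))
      (S := full (stk ((enc (0 : ℕ)).bits ++ r) [] [] []) tm ct) (l := r) rfl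
    rw [full_st, update_A] at h
    have e : update ct c (List.replicate 0 b ++ ct c) = ct := by simp
    rw [e]
    exact h
  | succ N ih =>
    intro ct
    have h := ih (update ct c (b :: ct c))
    rw [update_idem, update_self] at h
    have e : List.replicate N b ++ b :: ct c = List.replicate (N + 1) b ++ ct c := by
      rw [List.replicate_succ']; simp
    rw [e] at h
    rw [nat_bits_succ]
    refine (RunLe.loopT_true (n := 2) (l := false :: ((enc N).bits ++ r)) (by rfl) ?_ h).mono
      (by omega)
    rw [full_st, update_A]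
    refine RunLe.seq (n := 1) (n' := 1) (run_popT (l := (enc N).bits ++ r) false (by rfl)) ?_
    rw [full_st, update_A]
    have h2 := RunLe.push (full (stk ((enc N).bits ++ r) [] [] []) tm ct) (.inr c : KK K) b
    rw [full_ct] at h2
    exact h2

/-! ### Loading the input of the machine -/

variable {Γ : K → Type}

/-- move the bits from `X` to the input stack -/
noncomputable def ldC (G : ∀ k, List (Γ k)) (k₀ : K) (sy : Bool → Γ k₀) : Cmd (KK K) :=
  .loopB (.inl (.inr (.inr .X))) (pushL (.inl (.inr (.inl k₀))) (scode (G k₀) (sy false)))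
    (pushL (.inl (.inr (.inl k₀))) (scode (G k₀) (sy true)))

theorem run_ldC (G : ∀ k, List (Γ k)) (k₀ : K) (sy : Bool → Γ k₀)
    (st : St → List Bool) (q : List Bool) (ct : Ct → List Bool) (y : List Bool) :
    ∀ T : K → List Bool,
    RunLe (ldC G k₀ sy) (full st (Sum.elim T (axk q y)) ct)
      (full st (Sum.elim (update T k₀ (stcode (G k₀) (y.reverse.map sy) ++ T k₀)) (axk q [])) ct)
      ((y.length) * ((G k₀).length + 2) + 1) := by
  induction y with
  | nil =>
    intro T
    have e : update T k₀ (stcode (G k₀) (([] : List Bool).reverse.map sy) ++ T k₀) = T := by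
      simp [stcode]
    rw [e]
    exact (RunLe.loopB_none (by rfl)).mono (by simp)
  | cons b y ih =>
    intro T
    have h := ih (update T k₀ (scode (G k₀) (sy b) ++ T k₀))
    rw [update_idem, update_self] at h
    have e : stcode (G k₀) (y.reverse.map sy) ++ (scode (G k₀) (sy b) ++ T k₀) =
        stcode (G k₀) ((b :: y).reverse.map sy) ++ T k₀ := by
      rw [List.reverse_cons, List.map_append, ← List.append_assoc]
      congr 1
      unfold stcode
      rw [List.flatMap_append]
      simp
    rw [e] at h
    have hb : ∀ b : Bool, RunLe (pushL (.inl (.inr (.inl k₀)) : KK K) (scode (G k₀) (sy b)))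
        (full st (Sum.elim T (axk q y)) ct)
        (full st (Sum.elim (update T k₀ (scode (G k₀) (sy b) ++ T k₀)) (axk q y)) ct)
        ((G k₀).length + 1) := by
      intro b
      have h2 := run_pushL (.inl (.inr (.inl k₀)) : KK K) (scode (G k₀) (sy b))
        (full st (Sum.elim T (axk q y)) ct)
      rw [full_tm, Sum.update_elim_inl] at h2
      refine h2.mono ?_
      rw [scode, ucode_length]
      have := ix_le (G k₀) (sy b)
      omega
    cases b
    · refine (RunLe.loopB_false (n := (G k₀).length + 1) (l := y) (by rfl) ?_ h).mono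
        (by simp only [List.length_cons]; nlinarith)
      rw [full_tm, Sum.update_elim_inr, update_axX]
      exact hb false
    · refine (RunLe.loopB_true (n := (G k₀).length + 1) (l := y) (by rfl) ?_ h).mono
        (by simp only [List.length_cons]; nlinarith)
      rw [full_tm, Sum.update_elim_inr, update_axX]
      exact hb true

/-! ### Checking the output -/

/-- compare a stack with a fixed list -/
def chkC {K' : Type} (k : K') (yes no : Cmd K') : List Bool → Cmd K'
  | [] => .pop k yes no no
  | b :: w => .pop k no (bif b then no else chkC k yes no w) (bif b then chkC k yes no w else no)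

/-- Comparing: afterwards a suffix `v` of the stack is left. -/
theorem run_chkC {K' : Type} [DecidableEq K'] (k : K') (yes no : Cmd K')
    (R : Bool → List Bool → (K' → List Bool)) (S₀ : K' → List Bool) (c : ℕ)
    (hyes : ∀ v, RunLe yes (update S₀ k v) (R true v) c)
    (hno : ∀ v, RunLe no (update S₀ k v) (R false v) c) (w : List Bool) :
    ∀ u : List Bool, ∃ v : List Bool, v.length ≤ u.length ∧
      RunLe (chkC k yes no w) (update S₀ k u) (R (decide (u = w)) v) (c + w.length + 1) := by
  induction w with
  | nil =>
    intro u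
    rcases u with _ | ⟨b, u⟩
    · refine ⟨[], le_rfl, ?_⟩
      exact (RunLe.pop_none (by rw [update_self]) (hyes [])).mono (by simp)
    · refine ⟨u, by simp, ?_⟩
      have e : decide ((b :: u) = ([] : List Bool)) = false := by simp
      rw [e]
      have h := hno u
      cases b
      · exact (RunLe.pop_false (l := u) (by rw [update_self]) (by rw [update_idem]; exact h)).mono
          (by simp)
      · exact (RunLe.pop_true (l := u) (by rw [update_self]) (by rw [update_idem]; exact h)).mono
          (by simp)
  | cons a w ih =>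
    intro u
    rcases u with _ | ⟨b, u⟩
    · refine ⟨[], le_rfl, ?_⟩
      have e : decide (([] : List Bool) = a :: w) = false := by simp
      rw [e]
      exact (RunLe.pop_none (by rw [update_self]) (hno [])).mono (by simp)
    · obtain ⟨v, hv, hrun⟩ := ih u
      by_cases hab : b = a
      · subst hab
        refine ⟨v, by simp only [List.length_cons]; omega, ?_⟩
        have e : decide (b :: u = b :: w) = decide (u = w) := by simp
        rw [e]
        cases b
        · refine (RunLe.pop_false (l := u) (by rw [update_self]) (S' := R (decide (u = w)) v)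
            (n := c + w.length + 1) ?_).mono (by simp only [List.length_cons]; omega)
          rw [update_idem]
          exact hrun
        · refine (RunLe.pop_true (l := u) (by rw [update_self]) (S' := R (decide (u = w)) v)
            (n := c + w.length + 1) ?_).mono (by simp only [List.length_cons]; omega)
          rw [update_idem]
          exact hrun
      · refine ⟨u, by simp, ?_⟩
        have e : decide (b :: u = a :: w) = false := by simp [hab]
        rw [e]
        have h := hno u
        cases b <;> cases a
        · exact absurd rfl hab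
        · exact (RunLe.pop_false (l := u) (by rw [update_self])
            (by rw [update_idem]; exact h)).mono (by simp only [List.length_cons]; omega)
        · exact (RunLe.pop_true (l := u) (by rw [update_self])
            (by rw [update_idem]; exact h)).mono (by simp only [List.length_cons]; omega)
        · exact absurd rfl hab

/-! ### Cleaning up -/

/-- empty the stacks of a list -/
def clearL : List K → Cmd (KK K)
  | [] => .skip
  | k :: ks => .seq (clearC (.inl (.inr (.inl k)))) (clearL ks)

theorem run_clearL (st : St → List Bool) (a : Ax → List Bool) (ct : Ct → List Bool) (B : ℕ)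
    (ks : List K) : ∀ T : K → List Bool, (∀ k, (T k).length ≤ B) →
    RunLe (clearL ks) (full st (Sum.elim T a) ct)
      (full st (Sum.elim (fun k => if k ∈ ks then [] else T k) a) ct) (ks.length * (B + 1)) := by
  induction ks with
  | nil =>
    intro T _
    have e : (fun k => if k ∈ ([] : List K) then [] else T k) = T := by simp
    rw [e]
    exact (RunLe.skip _).mono (by simp)
  | cons j ks ih =>
    intro T hT
    have h1 := run_clearC (.inl (.inr (.inl j)) : KK K) (T j) (full st (Sum.elim T a) ct) rfl
    rw [full_tm, Sum.update_elim_inl] at h1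
    have h2 := ih (update T j []) (by
      intro k
      by_cases hk : k = j
      · subst hk; rw [update_self]; simp
      · rw [update_of_ne hk]; exact hT k)
    have e : (fun k => if k ∈ ks then [] else update T j [] k) =
        (fun k => if k ∈ j :: ks then [] else T k) := by
      funext k
      by_cases hk : k = j
      · subst hk; simp
      · rw [update_of_ne hk]; simp [hk]
    rw [e] at h2
    refine (RunLe.seq h1 h2).mono ?_
    have := hT j
    simp only [List.length_cons]
    nlinarith

/-! ### The subroutine -/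

variable {Λ σ : Type}

/-- the initial configuration -/
def cfg₀ (k₀ : K) (sy : Bool → Γ k₀) (main : Λ) (v₀ : σ) (x : List Bool) : TM2.Cfg Γ Λ σ :=
  ⟨some main, v₀, update (fun _ => []) k₀ (x.map sy)⟩

/-- the answer of the subroutine -/
noncomputable def ans (m : Λ → TM2.Stmt Γ Λ σ) (k₀ k₁ : K) (sy : Bool → Γ k₀) (main : Λ) (v₀ : σ)
    (acc : List (Γ k₁)) (x : List Bool) (T : ℕ) : Bool :=
  @decide (((fstep m)^[T] (cfg₀ k₀ sy main v₀ x)).stk k₁ = acc) (Classical.propDecidable _)

theorem iterate_fstep_good [Fintype Λ] {G : ∀ k, List (Γ k)}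
    {m : Λ → TM2.Stmt Γ Λ σ} {c : ℕ}
    (hc : ∀ (c₀ : TM2.Cfg Γ Λ σ), Good G c₀.stk → Good G (fstep m c₀).stk ∧
      ∀ k, ((fstep m c₀).stk k).length ≤ (c₀.stk k).length + c) (n : ℕ) :
    ∀ c₀ : TM2.Cfg Γ Λ σ, Good G c₀.stk → Good G ((fstep m)^[n] c₀).stk ∧
      ∀ k, (((fstep m)^[n] c₀).stk k).length ≤ (c₀.stk k).length + n * c := by
  induction n with
  | zero => intro c₀ h; exact ⟨h, fun k => by simp⟩
  | succ n ih =>
    intro c₀ h
    obtain ⟨h1, h2⟩ := hc c₀ h
    obtain ⟨h3, h4⟩ := ih _ h1
    rw [Function.iterate_succ_apply]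
    refine ⟨h3, fun k => (h4 k).trans ?_⟩
    have := h2 k
    rw [Nat.succ_mul]
    omega

theorem exists_callC [Fintype K] [Fintype Λ] [Fintype σ] (m : Λ → TM2.Stmt Γ Λ σ) (k₀ k₁ : K)
    [Fintype (Γ k₀)] (sy : Bool → Γ k₀) (main : Λ) (v₀ : σ) (acc : List (Γ k₁)) :
    ∃ (cc : Cmd (KK K)) (κ : ℕ), ∀ (x : List Bool) (N h : ℕ) (r : List Bool),
      RunLe cc (full (stk (true :: ((enc (x, (N, h))).bits ++ r)) [] [] []) (fun _ => [])
          (ctk [] [] [] [] []))
        (full (stk (true :: ((enc (ans m k₀ k₁ sy main v₀ acc x (N * 2 ^ h))).bits ++ r)) [] [] [])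
          (fun _ => []) (ctk [] [] [] [] []))
        (κ * ((x.length + 1) + (N + 1) * (2 ^ h * (h + 1)))) := by
  classical
  -- the alphabet
  obtain ⟨G₀, hG₀, hG₀'⟩ := exists_alphabet m k₀
  set G : ∀ k, List (Γ k) := update G₀ k₁ (acc ++ G₀ k₁) with hG
  have hGG : ∀ k, ∀ s ∈ G₀ k, s ∈ G k := by
    intro k s hs
    by_cases hk : k = k₁
    · subst hk
      rw [hG, update_self]
      exact List.mem_append_right _ hs
    · rw [hG, update_of_ne hk]
      exact hs
  have hm : ∀ l, PushIn G (m l) := fun l => (hG₀ l).mono hGG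
  have hGk₀ : ∀ s : Γ k₀, s ∈ G k₀ := fun s => hGG _ _ (hG₀' s)
  have hacc : ∀ s ∈ acc, s ∈ G k₁ := fun s hs => by
    rw [hG, update_self]
    exact List.mem_append_left _ hs
  clear_value G
  set CL : List (Option Λ × σ) := (Finset.univ : Finset (Option Λ × σ)).toList with hCLdef
  have hCL : ∀ p, p ∈ CL := fun p => by rw [hCLdef]; simp
  clear_value CL
  obtain ⟨t₀, ht₀⟩ := stepC_run G CL m hm hCL
  set gK : ℕ := ∑ k, (G k).length with hgK
  have hgk : ∀ k, (G k).length ≤ gK := fun k =>
    Finset.single_le_sum (f := fun k => (G k).length) (fun _ _ => Nat.zero_le _) (Finset.mem_univ k)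
  clear_value gK
  set w : List Bool := stcode (G k₁) acc with hw
  set yes : Cmd (KK K) := pushL (.inl (.inl .A)) [true, true, false, false] with hyes
  set no : Cmd (KK K) := pushL (.inl (.inl .A)) [true, false] with hno
  set ks : List K := (Finset.univ : Finset K).toList with hks
  have hmem : ∀ k, k ∈ ks := fun k => by rw [hks]; simp
  clear_value ks
  refine ⟨.seq (.pop (.inl (.inl .A)) .skip .skip .skip)
    (.seq (.pop (.inl (.inl .A)) .skip .skip .skip)
    (.seq rdX (.seq (ldC G k₀ sy) (.seq (.pop (.inl (.inl .A)) .skip .skip .skip)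
    (.seq (rdN .N true) (.seq (rdN .Z false)
    (.seq (pushL (.inl (.inr (.inr .Q))) (scode CL (some main, v₀)))
    (.seq (clockC (mapCmd Sum.inr (stepC G CL m)))
    (.seq (chkC (.inl (.inr (.inl k₁))) yes no w)
    (.seq (clearL ks) (clearC (.inl (.inr (.inr .Q)))))))))))))),
    40 + gK + t₀ + 2 * CL.length + w.length + ks.length * (gK * (t₀ + 1) + 1), ?_⟩
  intro x N h r
  set c₀ : TM2.Cfg Γ Λ σ := cfg₀ k₀ sy main v₀ x with hc₀
  set T : ℕ := N * 2 ^ h with hT
  have hgood₀ : Good G c₀.stk := by
    intro k s hs
    rw [hc₀] at hs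
    change s ∈ update (fun _ => []) k₀ (x.map sy) k at hs
    by_cases hk : k = k₀
    · subst hk; exact hGk₀ s
    · rw [update_of_ne hk] at hs
      simp at hs
  obtain ⟨hgf, hlen⟩ := iterate_fstep_good (G := G) (m := m) (c := t₀)
    (fun c hc => ⟨(ht₀ c [] hc).1, (ht₀ c [] hc).2.2⟩) T c₀ hgood₀
  have hansc : (((fstep m)^[T] c₀).stk k₁ = acc) ↔
      stcode (G k₁) (((fstep m)^[T] c₀).stk k₁) = w :=
    ⟨fun h => by rw [h], fun h => stcode_injOn (hgf k₁) hacc h⟩
  -- the phases
  have E : (fun _ : K ⊕ Ax => ([] : List Bool)) = Sum.elim (fun _ => []) (axk [] []) := by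
    funext k
    rcases k with k | k
    · rfl
    · cases k <;> rfl
  have p1 : RunLe (.pop (.inl (.inl .A)) .skip .skip .skip : Cmd (KK K))
      (full (stk (true :: ((enc (x, (N, h))).bits ++ r)) [] [] []) (fun _ => [])
        (ctk [] [] [] [] []))
      (full (stk ((enc (x, (N, h))).bits ++ r) [] [] []) (fun _ => []) (ctk [] [] [] [] [])) 1 := by
    have h1 := run_popT (k := (.inl (.inl .A) : KK K))
      (S := full (stk (true :: ((enc (x, (N, h))).bits ++ r)) [] [] []) (fun _ => [])
        (ctk [] [] [] [] [])) (l := (enc (x, (N, h))).bits ++ r) true rfl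
    rw [full_st, update_A] at h1
    exact h1
  have hbits : (enc (x, (N, h))).bits ++ r =
      true :: ((enc x).bits ++ (true :: ((enc N).bits ++ ((enc h).bits ++ r)))) := by
    simp [Sx.bits]
  have p2 : RunLe (.pop (.inl (.inl .A)) .skip .skip .skip : Cmd (KK K))
      (full (stk ((enc (x, (N, h))).bits ++ r) [] [] []) (fun _ => []) (ctk [] [] [] [] []))
      (full (stk ((enc x).bits ++ (true :: ((enc N).bits ++ ((enc h).bits ++ r)))) [] [] [])
        (fun _ => []) (ctk [] [] [] [] [])) 1 := by
    have h1 := run_popT (k := (.inl (.inl .A) : KK K))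
      (S := full (stk ((enc (x, (N, h))).bits ++ r) [] [] []) (fun _ => [])
        (ctk [] [] [] [] []))
      (l := (enc x).bits ++ (true :: ((enc N).bits ++ ((enc h).bits ++ r)))) true
      (by rw [hbits]; rfl)
    rw [full_st, update_A] at h1
    exact h1
  have p3 := run_rdX x (fun _ : K => []) [] (ctk [] [] [] [] [])
    (true :: ((enc N).bits ++ ((enc h).bits ++ r))) []
  rw [← E, List.append_nil] at p3
  have p4 := run_ldC G k₀ sy (stk (true :: ((enc N).bits ++ ((enc h).bits ++ r))) [] [] []) []
    (ctk [] [] [] [] []) x.reverse (fun _ => [])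
  rw [List.reverse_reverse, List.append_nil, List.length_reverse] at p4
  set T₀ : K → List Bool := update (fun _ => []) k₀ (stcode (G k₀) (x.map sy)) with hT₀
  have p5 : RunLe (.pop (.inl (.inl .A)) .skip .skip .skip : Cmd (KK K))
      (full (stk (true :: ((enc N).bits ++ ((enc h).bits ++ r))) [] [] [])
        (Sum.elim T₀ (axk [] [])) (ctk [] [] [] [] []))
      (full (stk ((enc N).bits ++ ((enc h).bits ++ r)) [] [] [])
        (Sum.elim T₀ (axk [] [])) (ctk [] [] [] [] [])) 1 := by
    have h1 := run_popT (k := (.inl (.inl .A) : KK K))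
      (S := full (stk (true :: ((enc N).bits ++ ((enc h).bits ++ r))) [] [] [])
        (Sum.elim T₀ (axk [] [])) (ctk [] [] [] [] []))
      (l := (enc N).bits ++ ((enc h).bits ++ r)) true rfl
    rw [full_st, update_A] at h1
    exact h1
  have p6 := run_rdN .N true N (Sum.elim T₀ (axk [] [])) ((enc h).bits ++ r)
    (ctk [] [] [] [] [])
  rw [ctk_N, List.append_nil, update_ctN] at p6
  have p7 := run_rdN .Z false h (Sum.elim T₀ (axk [] [])) r
    (ctk (List.replicate N true) [] [] [] [])
  rw [ctk_Z, List.append_nil, update_ctZ] at p7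
  have p8 : RunLe (pushL (.inl (.inr (.inr .Q)) : KK K) (scode CL (some main, v₀)))
      (full (stk r [] [] []) (Sum.elim T₀ (axk [] []))
        (ctk (List.replicate N true) (List.replicate h false) [] [] []))
      (full (stk r [] [] []) (emC G CL c₀ [])
        (ctk (List.replicate N true) (List.replicate h false) [] [] [])) (CL.length + 1) := by
    have h1 := run_pushL (.inl (.inr (.inr .Q)) : KK K) (scode CL (some main, v₀))
      (full (stk r [] [] []) (Sum.elim T₀ (axk [] []))
        (ctk (List.replicate N true) (List.replicate h false) [] [] []))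
    rw [full_tm, Sum.update_elim_inr, update_axQ] at h1
    have e1 : full (stk r [] [] []) (Sum.elim T₀ (axk [] []))
        (ctk (List.replicate N true) (List.replicate h false) [] [] [])
        (.inl (.inr (.inr .Q)) : KK K) = [] := rfl
    rw [e1, List.append_nil] at h1
    have e2 : (Sum.elim T₀ (axk (scode CL (some main, v₀)) []) : K ⊕ Ax → List Bool) =
        emC G CL c₀ [] := by
      unfold emC emS
      congr 1
      funext k
      rw [hT₀, hc₀]
      change _ = stcode (G k) (update (fun _ => []) k₀ (x.map sy) k)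
      rw [Function.apply_update (fun k l => stcode (G k) l)]
      rfl
    rw [e2] at h1
    refine h1.mono ?_
    rw [scode, ucode_length]
    have := ix_le CL (some main, v₀)
    omega
  obtain ⟨-, p9⟩ := run_clockC (K := St ⊕ (K ⊕ Ax)) (X := TM2.Cfg Γ Λ σ)
    (body := mapCmd Sum.inr (stepC G CL m))
    (E := fun c => Sum.elim (stk r [] [] []) (emC G CL c [])) (f := fstep m)
    (Pr := fun c => Good G c.stk) (t₀ := t₀)
    (fun c hc => ⟨(ht₀ c [] hc).1, RunLe.inr (ht₀ c [] hc).2.1 _⟩) h N c₀ hgood₀
  set cf : TM2.Cfg Γ Λ σ := (fstep m)^[T] c₀ with hcf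
  obtain ⟨v, hv, p10⟩ := run_chkC (.inl (.inr (.inl k₁)) : KK K) yes no
    (fun b v => full (stk (true :: ((enc b).bits ++ r)) [] [] [])
      (update (emC G CL cf []) (.inl k₁) v) (ctk [] [] [] [] []))
    (full (stk r [] [] []) (emC G CL cf []) (ctk [] [] [] [] [])) 4
    (by
      intro v
      have h1 := run_pushL (.inl (.inl .A) : KK K) [true, true, false, false]
        (update (full (stk r [] [] []) (emC G CL cf []) (ctk [] [] [] [] []))
          (.inl (.inr (.inl k₁))) v)
      rw [full_tm, full_st, update_A] at h1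
      rw [full_tm]
      exact h1)
    (by
      intro v
      have h1 := run_pushL (.inl (.inl .A) : KK K) [true, false]
        (update (full (stk r [] [] []) (emC G CL cf []) (ctk [] [] [] [] []))
          (.inl (.inr (.inl k₁))) v)
      rw [full_tm, full_st, update_A] at h1
      rw [full_tm]
      exact h1.mono (by simp))
    w (stcode (G k₁) (cf.stk k₁))
  have e3 : update (full (stk r [] [] []) (emC G CL cf []) (ctk [] [] [] [] []))
      (.inl (.inr (.inl k₁)) : KK K) (stcode (G k₁) (cf.stk k₁)) =
      full (stk r [] [] []) (emC G CL cf []) (ctk [] [] [] [] []) := by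
    rw [full_tm]
    congr 1
    exact update_eq_self_iff.2 rfl
  have e4 : decide (stcode (G k₁) (cf.stk k₁) = w) = ans m k₀ k₁ sy main v₀ acc x T := by
    by_cases hh : cf.stk k₁ = acc
    · rw [decide_eq_true (hansc.1 hh)]
      exact (@decide_eq_true _ (Classical.propDecidable _) hh).symm
    · rw [decide_eq_false (mt hansc.2 hh)]
      exact (@decide_eq_false _ (Classical.propDecidable _) hh).symm
  rw [e3, e4] at p10
  set b : Bool := ans m k₀ k₁ sy main v₀ acc x T with hb
  -- the final stacks of the machine
  set B : ℕ := (x.length + T * t₀) * gK with hB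
  have hcode : ∀ k, (stcode (G k) (cf.stk k)).length ≤ B := by
    intro k
    refine (stcode_length_le (hgf k)).trans ?_
    refine Nat.mul_le_mul ((hlen k).trans ?_) (hgk k)
    refine Nat.add_le_add_right ?_ _
    rw [hc₀]
    change (update (fun _ => []) k₀ (x.map sy) k).length ≤ _
    by_cases hk : k = k₀
    · subst hk; rw [update_self]; simp
    · rw [update_of_ne hk]; simp
  set Tf : K → List Bool := update (fun k => stcode (G k) (cf.stk k)) k₁ v with hTf
  have e5 : update (emC G CL cf []) (.inl k₁) v =
      Sum.elim Tf (axk (scode CL (cf.l, cf.var)) []) := by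
    unfold emC emS
    rw [Sum.update_elim_inl]
  rw [e5] at p10
  have p11 := run_clearL (stk (true :: ((enc b).bits ++ r)) [] [] [])
    (axk (scode CL (cf.l, cf.var)) []) (ctk [] [] [] [] []) B ks Tf (by
      intro k
      by_cases hk : k = k₁
      · subst hk
        rw [hTf, update_self]
        exact hv.trans (hcode k)
      · rw [hTf, update_of_ne hk]
        exact hcode k)
  have e6 : (fun k => if k ∈ ks then [] else Tf k) = (fun _ : K => ([] : List Bool)) := by
    funext k
    rw [if_pos (hmem k)]
  rw [e6] at p11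
  have p12 := run_clearC (.inl (.inr (.inr .Q)) : KK K) (scode CL (cf.l, cf.var))
    (full (stk (true :: ((enc b).bits ++ r)) [] [] [])
      (Sum.elim (fun _ => []) (axk (scode CL (cf.l, cf.var)) [])) (ctk [] [] [] [] [])) rfl
  rw [full_tm, Sum.update_elim_inr, update_axQ, ← E] at p12
  have hall := RunLe.seq p1 (RunLe.seq p2 (RunLe.seq p3 (RunLe.seq p4 (RunLe.seq p5 (RunLe.seq p6
    (RunLe.seq p7 (RunLe.seq p8 (RunLe.seq p9 (RunLe.seq p10 (RunLe.seq p11 p12))))))))))
  refine hall.mono ?_
  -- the time
  have hq : (scode CL (cf.l, cf.var)).length ≤ CL.length + 1 := by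
    rw [scode, ucode_length]
    have := ix_le CL (cf.l, cf.var)
    omega
  have hg0 := hgk k₀
  set p : ℕ := 2 ^ h with hp
  have hp1 : 1 ≤ p := Nat.one_le_two_pow
  set a : ℕ := x.length with ha
  set V : ℕ := (N + 1) * (p * (h + 1)) with hV
  have v1 : N * (p * (h + 1)) + p * (h + 1) = V := by rw [hV]; ring
  have v2 : h + 1 ≤ p * (h + 1) := Nat.le_mul_of_pos_left _ hp1
  have v3 : N * 1 ≤ N * (p * (h + 1)) := Nat.mul_le_mul_left _ (by nlinarith)
  have v4 : T ≤ V := by
    have : N * p ≤ N * (p * (h + 1)) := Nat.mul_le_mul_left _ (Nat.le_mul_of_pos_right _ (by omega))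
    rw [hT]
    omega
  have v5 : N * (p * (t₀ + 6 * h + 8) + 3) ≤ (t₀ + 17) * V := by
    have : N * (p * (t₀ + 6 * h + 8) + 3) = (t₀ + 8) * (N * p) + 6 * (N * (p * h)) + 3 * N := by
      ring
    rw [this]
    have w1 : N * (p * h) ≤ V := by
      have : N * (p * h) ≤ N * (p * (h + 1)) :=
        Nat.mul_le_mul_left _ (Nat.mul_le_mul_left _ (by omega))
      omega
    have w2 : (t₀ + 8) * (N * p) ≤ (t₀ + 8) * V := Nat.mul_le_mul_left _ v4
    nlinarith
  have v6 : B ≤ gK * (t₀ + 1) * (a + V) := by
    rw [hB]
    have : a + T * t₀ ≤ (t₀ + 1) * (a + V) := by nlinarith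
    calc (a + T * t₀) * gK ≤ ((t₀ + 1) * (a + V)) * gK := Nat.mul_le_mul_right _ this
      _ = _ := by ring
  have v7 : ks.length * (B + 1) ≤ ks.length * (gK * (t₀ + 1) + 1) * (a + 1 + V) := by
    have : B + 1 ≤ (gK * (t₀ + 1) + 1) * (a + 1 + V) := by nlinarith
    calc ks.length * (B + 1) ≤ ks.length * ((gK * (t₀ + 1) + 1) * (a + 1 + V)) :=
          Nat.mul_le_mul_left _ this
      _ = _ := by ring
  have v8 : a * ((G k₀).length + 2) ≤ (gK + 2) * a := by
    rw [Nat.mul_comm]
    exact Nat.mul_le_mul_right _ (by omega)
  have v9 : (40 + gK + t₀ + 2 * CL.length + w.length + ks.length * (gK * (t₀ + 1) + 1)) *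
      (a + 1 + V) = ks.length * (gK * (t₀ + 1) + 1) * (a + 1 + V) +
      (40 + gK + t₀ + 2 * CL.length + w.length) * (a + 1 + V) := by ring
  rw [v9]
  have v10 : (2 * CL.length + w.length) * 1 ≤ (2 * CL.length + w.length) * (a + 1 + V) :=
    Nat.mul_le_mul_left _ (by omega)
  have v11 : 1 + (1 + (6 * a + 1 + (a * ((G k₀).length + 2) + 1 + (1 + (3 * N + 1 +
      (3 * h + 1 + (CL.length + 1 + (N * (p * (t₀ + 6 * h + 8) + 3) + (h + 2) +
      (4 + w.length + 1 + (ks.length * (B + 1) + ((scode CL (cf.l, cf.var)).length + 1))))))))))) ≤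
      ks.length * (gK * (t₀ + 1) + 1) * (a + 1 + V) +
      (40 + gK + t₀ + 2 * CL.length + w.length) * (a + 1 + V) := by
    nlinarith
  exact v11

end call

end Pool.Agent.Lib.MP_87d05f_lc
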