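import Mathlib
import Pool.Agent.Lib.MP_87d05f_lc.Machine

set_option autoImplicit false

/-!
# Depth-first search of a binary branching tree by an iterated step function
-/

namespace Pool.Agent.Lib.MP_87d05f_lc

open Pool.Agent.PolyTime Function

section dfs

variable {τ : Type}

/-- `Acc expand s`: the branching tree below `s` has an accepting leaf. -/
inductive AccLeaf (expand : τ → Bool ⊕ (τ × τ)) : τ → Prop
  | leaf {s} : expand s = Sum.inl true → AccLeaf expand s
  | left {s l r} : expand s = Sum.inr (l, r) → AccLeaf expand l → AccLeaf expand s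
  | right {s l r} : expand s = Sum.inr (l, r) → AccLeaf expand r → AccLeaf expand s

/-- one step of the search: the list is the stack of open nodes, the Boolean the result -/
def dstep (expand : τ → Bool ⊕ (τ × τ)) (p : List τ × Bool) : List τ × Bool :=
  bif p.2 then p else
    match p.1 with
    | [] => p
    | s :: rest =>
      match expand s with
      | Sum.inl b => (rest, b)
      | Sum.inr lr => (lr.1 :: lr.2 :: rest, false)

variable (expand : τ → Bool ⊕ (τ × τ)) (Inv : τ → Prop) (Ψ : τ → ℕ) (T : ℕ → ℕ) (κ : ℕ)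

theorem dfs_aux
    (hexp : ∀ s, Inv s → (∃ b, expand s = Sum.inl b) ∨
      (∃ l r, expand s = Sum.inr (l, r) ∧ Inv l ∧ Inv r ∧ Ψ l + 1 ≤ Ψ s ∧ Ψ r + κ ≤ Ψ s))
    (hκ : 1 ≤ κ)
    (hT1 : ∀ m, 1 ≤ T m)
    (hT : ∀ m m₁ m₂, m₁ + 1 ≤ m → m₂ + κ ≤ m → 1 + T m₁ + T m₂ ≤ T m) :
    ∀ (m : ℕ) (s : τ), Ψ s ≤ m → Inv s → ∀ rest : List τ, ∃ k, 1 ≤ k ∧ k ≤ T (Ψ s) ∧
      (∀ i, i < k → ∃ pre : List τ, pre ≠ [] ∧ pre.length ≤ Ψ s + 1 ∧ (∀ t ∈ pre, Inv t) ∧
        (dstep expand)^[i] (s :: rest, false) = (pre ++ rest, false)) ∧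
      ((AccLeaf expand s ∧ ∃ pre : List τ, pre.length ≤ Ψ s + 1 ∧ (∀ t ∈ pre, Inv t) ∧
          (dstep expand)^[k] (s :: rest, false) = (pre ++ rest, true)) ∨
        (¬ AccLeaf expand s ∧ (dstep expand)^[k] (s :: rest, false) = (rest, false))) := by
  intro m
  induction m with
  | zero =>
    intro s hs hI rest
    rcases hexp s hI with ⟨b, hb⟩ | ⟨l, r, hlr, _, _, hl, _⟩
    · refine ⟨1, le_rfl, hT1 _, ?_, ?_⟩
      · intro i hi
        obtain rfl : i = 0 := by omega
        exact ⟨[s], by simp, by simp, by simpa using hI, by simp⟩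
      · cases b
        · right
          refine ⟨?_, ?_⟩
          · rintro (h | ⟨h, _⟩ | ⟨h, _⟩) <;> rw [hb] at h <;> simp at h
          · simp [dstep, hb]
        · left
          exact ⟨.leaf hb, [], by simp, by simp, by simp [dstep, hb]⟩
    · omega
  | succ m ih =>
    intro s hs hI rest
    rcases hexp s hI with ⟨b, hb⟩ | ⟨l, r, hlr, hIl, hIr, hl, hr⟩
    · refine ⟨1, le_rfl, hT1 _, ?_, ?_⟩
      · intro i hi
        obtain rfl : i = 0 := by omega
        exact ⟨[s], by simp, by simp, by simpa using hI, by simp⟩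
      · cases b
        · right
          refine ⟨?_, ?_⟩
          · rintro (h | ⟨h, _⟩ | ⟨h, _⟩) <;> rw [hb] at h <;> simp at h
          · simp [dstep, hb]
        · left
          exact ⟨.leaf hb, [], by simp, by simp, by simp [dstep, hb]⟩
    · have hstep1 : (dstep expand) (s :: rest, false) = (l :: r :: rest, false) := by
        simp [dstep, hlr]
      obtain ⟨k1, hk1, hk1T, hpre1, hres1⟩ := ih l (by omega) hIl (r :: rest)
      obtain ⟨k2, hk2, hk2T, hpre2, hres2⟩ := ih r (by omega) hIr rest
      have hsum := hT (Ψ s) (Ψ l) (Ψ r) hl hr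
      rcases hres1 with ⟨ha, pre, hpl, hpI, hpk⟩ | ⟨hna, hk⟩
      · -- accepted on the left
        refine ⟨k1 + 1, by omega, by omega, ?_, Or.inl ⟨.left hlr ha, pre ++ [r], ?_, ?_, ?_⟩⟩
        · intro i hi
          rcases i with _ | i
          · exact ⟨[s], by simp, by simp, by simpa using hI, by simp⟩
          · obtain ⟨p, hp0, hpl, hpI, hp⟩ := hpre1 i (by omega)
            refine ⟨p ++ [r], by simp, ?_, ?_, ?_⟩
            · simp only [List.length_append, List.length_singleton]; omega
            · intro t ht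
              rw [List.mem_append, List.mem_singleton] at ht
              rcases ht with ht | rfl
              · exact hpI t ht
              · exact hIr
            · rw [Function.iterate_succ_apply, hstep1, hp]
              simp
        · simp only [List.length_append, List.length_singleton]; omega
        · intro t ht
          rw [List.mem_append, List.mem_singleton] at ht
          rcases ht with ht | rfl
          · exact hpI t ht
          · exact hIr
        · rw [Function.iterate_succ_apply, hstep1, hpk]
          simp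
      · -- not accepted on the left
        have hmid : (dstep expand)^[k1 + 1] (s :: rest, false) = (r :: rest, false) := by
          rw [Function.iterate_succ_apply, hstep1, hk]
        have hpre : ∀ i, i < k1 + 1 + k2 → ∃ pre : List τ, pre ≠ [] ∧ pre.length ≤ Ψ s + 1 ∧
            (∀ t ∈ pre, Inv t) ∧
            (dstep expand)^[i] (s :: rest, false) = (pre ++ rest, false) := by
          intro i hi
          by_cases hik : i < k1 + 1
          · rcases i with _ | i
            · exact ⟨[s], by simp, by simp, by simpa using hI, by simp⟩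
            · obtain ⟨p, hp0, hpl, hpI, hp⟩ := hpre1 i (by omega)
              refine ⟨p ++ [r], by simp, ?_, ?_, ?_⟩
              · simp only [List.length_append, List.length_singleton]; omega
              · intro t ht
                rw [List.mem_append, List.mem_singleton] at ht
                rcases ht with ht | rfl
                · exact hpI t ht
                · exact hIr
              · rw [Function.iterate_succ_apply, hstep1, hp]
                simp
          · obtain ⟨j, rfl⟩ : ∃ j, i = j + (k1 + 1) := ⟨i - (k1 + 1), by omega⟩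
            obtain ⟨p, hp0, hpl, hpI, hp⟩ := hpre2 j (by omega)
            refine ⟨p, hp0, by omega, hpI, ?_⟩
            rw [Function.iterate_add_apply, hmid, hp]
        refine ⟨k1 + 1 + k2, by omega, by omega, hpre, ?_⟩
        rcases hres2 with ⟨ha, pre, hpl, hpI, hpk⟩ | ⟨hna2, hk'⟩
        · left
          refine ⟨.right hlr ha, pre, by omega, hpI, ?_⟩
          rw [Nat.add_comm (k1 + 1) k2, Function.iterate_add_apply, hmid, hpk]
        · right
          refine ⟨?_, ?_⟩
          · rintro (h | ⟨h, h'⟩ | ⟨h, h'⟩)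
            · rw [hlr] at h; simp at h
            · rw [hlr] at h
              simp only [Sum.inr.injEq, Prod.mk.injEq] at h
              obtain ⟨rfl, rfl⟩ := h
              exact hna h'
            · rw [hlr] at h
              simp only [Sum.inr.injEq, Prod.mk.injEq] at h
              obtain ⟨rfl, rfl⟩ := h
              exact hna2 h'
          · rw [Nat.add_comm (k1 + 1) k2, Function.iterate_add_apply, hmid, hk']

end dfs

/-! ### The search machine -/

section machine

variable {ε τ : Type} [SCode ε] [SCode τ]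

/-- the step of the whole search machine -/
def mstep (expand : ε → τ → Bool ⊕ (τ × τ)) (s : ε × (List τ × Bool)) : ε × (List τ × Bool) :=
  (s.1, dstep (expand s.1) s.2)

omit [SCode ε] [SCode τ] in
theorem mstep_iterate (expand : ε → τ → Bool ⊕ (τ × τ)) (e : ε) (i : ℕ) :
    ∀ p : List τ × Bool, (mstep expand)^[i] (e, p) = (e, (dstep (expand e))^[i] p) := by
  induction i with
  | zero => intro p; rfl
  | succ i ih =>
    intro p
    rw [Function.iterate_succ_apply, Function.iterate_succ_apply]
    exact ih _

theorem mstep_ptime {expand : ε → τ → Bool ⊕ (τ × τ)}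
    (h : PTime (fun p : ε × τ => expand p.1 p.2)) : PTime (mstep expand) := by
  have h1 : PTime (fun s : ε × (List τ × Bool) => (s.2.1 : List τ)) :=
    PTime.fst.comp PTime.snd
  have h2 : PTime (fun s : ε × (List τ × Bool) => (s.2.2 : Bool)) :=
    PTime.snd.comp PTime.snd
  -- the body
  have h4 : PTime (fun p : (ε × (List τ × Bool)) × τ × List τ =>
      ((expand p.1.1 p.2.1).elim (fun b => (p.2.2, b))
        (fun lr => (lr.1 :: lr.2 :: p.2.2, false)) : List τ × Bool)) := by
    have hexp : PTime (fun p : (ε × (List τ × Bool)) × τ × List τ => expand p.1.1 p.2.1) :=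
      h.comp ((PTime.fst.comp PTime.fst).pair (PTime.fst.comp PTime.snd))
    have hrest : PTime (fun p : (ε × (List τ × Bool)) × τ × List τ => p.2.2) :=
      PTime.snd.comp PTime.snd
    refine PTime.sum_elim (g := fun (p : (ε × (List τ × Bool)) × τ × List τ) (b : Bool) =>
      (p.2.2, b)) (h := fun (p : (ε × (List τ × Bool)) × τ × List τ) (lr : τ × τ) =>
      (lr.1 :: lr.2 :: p.2.2, false)) hexp ?_ ?_
    · exact (hrest.comp PTime.fst).pair PTime.snd
    · exact (PTime.cons (PTime.fst.comp PTime.snd) (PTime.cons (PTime.snd.comp PTime.snd)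
        (hrest.comp PTime.fst))).pair (PTime.const false)
  have h3 : PTime (fun s : ε × (List τ × Bool) =>
      (bif s.2.2 then s.2 else
        (List.casesOn s.2.1 s.2 (fun t rest => (expand s.1 t).elim (fun b => (rest, b))
          (fun lr => (lr.1 :: lr.2 :: rest, false))) : List τ × Bool))) :=
    PTime.cond h2 PTime.snd (PTime.list_casesOn (f := fun s : ε × (List τ × Bool) => s.2.1)
      (h := fun (s : ε × (List τ × Bool)) (t : τ) (rest : List τ) =>
        ((expand s.1 t).elim (fun b => (rest, b))
          (fun lr => (lr.1 :: lr.2 :: rest, false)) : List τ × Bool)) h1 PTime.snd h4)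
  exact (PTime.fst.pair h3).of_eq (fun s => by
    rcases s with ⟨e, ⟨_ | ⟨t, rest⟩, b⟩⟩
    · cases b <;> rfl
    · cases b
      · simp only [mstep, dstep, cond_false]
        cases expand e t <;> rfl
      · rfl)

theorem sz_list_le {α : Type} [SCode α] (l : List α) (B : ℕ) (h : ∀ a ∈ l, sz a ≤ B) :
    sz l ≤ l.length * (B + 1) + 1 := by
  induction l with
  | nil => simp
  | cons a l ih =>
    have h1 := h a List.mem_cons_self
    have h2 := ih (fun b hb => h b (List.mem_cons_of_mem _ hb))
    simp only [sz_cons, List.length_cons]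
    nlinarith

/-- The search machine: it decides whether the branching tree below the initial node has an
accepting leaf, in time (number of nodes of the tree) times a polynomial in the sizes. -/
theorem search_machine {init : List Bool → ε × τ} {expand : ε → τ → Bool ⊕ (τ × τ)}
    (hi : PTime init) (he : PTime (fun p : ε × τ => expand p.1 p.2)) :
    ∃ (tm : Turing.FinTM2) (e₀ : tm.Γ tm.k₀ ≃ Bool) (acc rej : List (tm.Γ tm.k₁))
      (P : Polynomial ℕ), acc ≠ rej ∧
      ∀ (x : List Bool) (Inv : τ → Prop) (Ψ : τ → ℕ) (T : ℕ → ℕ) (κ B : ℕ),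
        (∀ s, Inv s → (∃ b, expand (init x).1 s = Sum.inl b) ∨
          (∃ l r, expand (init x).1 s = Sum.inr (l, r) ∧ Inv l ∧ Inv r ∧ Ψ l + 1 ≤ Ψ s ∧
            Ψ r + κ ≤ Ψ s)) → 1 ≤ κ → (∀ m, 1 ≤ T m) →
        (∀ m m₁ m₂, m₁ + 1 ≤ m → m₂ + κ ≤ m → 1 + T m₁ + T m₂ ≤ T m) →
        Inv (init x).2 → (∀ s, Inv s → sz s ≤ B) → sz (init x).1 ≤ B →
        ∀ m : ℕ, P.eval x.length + T (Ψ (init x).2) *
          P.eval (B + ((Ψ (init x).2 + 1) * (B + 1) + 6)) ≤ m →
        (AccLeaf (expand (init x).1) (init x).2 →
          Nonempty (Turing.TM2OutputsInTime tm (x.map e₀.symm) (some acc) m)) ∧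
        (¬ AccLeaf (expand (init x).1) (init x).2 →
          Nonempty (Turing.TM2OutputsInTime tm (x.map e₀.symm) (some rej) m)) := by
  have hinit : PTime (fun x : List Bool => (((init x).1, ([(init x).2], false)) :
      ε × (List τ × Bool))) :=
    (PTime.fst.comp hi).pair ((PTime.cons (PTime.snd.comp hi) (PTime.const [])).pair
      (PTime.const false))
  have hdn : PTime (fun s : ε × (List τ × Bool) => s.2.2 || s.2.1.isEmpty) :=
    PTime.or (PTime.snd.comp PTime.snd) (PTime.isEmpty (PTime.fst.comp PTime.snd))
  have hout : PTime (fun s : ε × (List τ × Bool) => s.2.2) := PTime.snd.comp PTime.snd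
  obtain ⟨tm, e₀, acc, rej, P, hne, h⟩ := exp_machine hinit (mstep_ptime he) hdn hout
  refine ⟨tm, e₀, acc, rej, P, hne, ?_⟩
  intro x Inv Ψ T κ B hexp hκ hT1 hT hI hB hBe m hm
  obtain ⟨k, hk1, hkT, hpre, hres⟩ := dfs_aux (expand (init x).1) Inv Ψ T κ hexp hκ hT1 hT
    (Ψ (init x).2) (init x).2 le_rfl hI []
  set B' := B + ((Ψ (init x).2 + 1) * (B + 1) + 6) with hB'
  -- size bound for a state
  have hsz : ∀ (pre : List τ) (b : Bool), pre.length ≤ Ψ (init x).2 + 1 → (∀ t ∈ pre, Inv t) →
      sz ((init x).1, (pre, b)) ≤ B' := by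
    intro pre b hl hp
    have h1 := sz_list_le pre B (fun t ht => hB t (hp t ht))
    have h2 := sz_bool_le b
    have h3 : pre.length * (B + 1) ≤ (Ψ (init x).2 + 1) * (B + 1) :=
      Nat.mul_le_mul_right _ hl
    simp only [sz_pair]
    omega
  have hstate : ∀ i, i ≤ k → sz ((mstep expand)^[i] ((init x).1, ([(init x).2], false))) ≤ B' := by
    intro i hi
    rw [mstep_iterate]
    rcases hi.eq_or_lt with rfl | hi
    · rcases hres with ⟨_, pre, hl, hp, hpk⟩ | ⟨_, hk⟩
      · rw [hpk, List.append_nil]
        exact hsz pre true hl hp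
      · rw [hk]
        exact hsz [] false (by simp) (by simp)
    · obtain ⟨pre, _, hl, hp, hpi⟩ := hpre i hi
      rw [hpi, List.append_nil]
      exact hsz pre false hl hp
  have hnd : ∀ i, 1 ≤ i → i < k → (((mstep expand)^[i] ((init x).1, ([(init x).2], false))).2.2 ||
      ((mstep expand)^[i] ((init x).1, ([(init x).2], false))).2.1.isEmpty) = false := by
    intro i _ hi
    obtain ⟨pre, h0, _, _, hpi⟩ := hpre i hi
    rw [mstep_iterate, hpi, List.append_nil]
    simp [h0]
  have hd : (((mstep expand)^[k] ((init x).1, ([(init x).2], false))).2.2 ||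
      ((mstep expand)^[k] ((init x).1, ([(init x).2], false))).2.1.isEmpty) = true := by
    rw [mstep_iterate]
    rcases hres with ⟨_, pre, _, _, hpk⟩ | ⟨_, hk⟩
    · rw [hpk]; simp
    · rw [hk]; simp
  have hm' : P.eval x.length + k * P.eval B' ≤ m :=
    (Nat.add_le_add_left (Nat.mul_le_mul_right _ hkT) _).trans hm
  have hfin := h x k B' hk1 hstate hnd hd m hm'
  rw [mstep_iterate] at hfin
  constructor
  · intro hacc
    rcases hres with ⟨_, pre, _, _, hpk⟩ | ⟨hna, _⟩
    · rw [hpk] at hfin
      simpa using hfin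
    · exact absurd hacc hna
  · intro hacc
    rcases hres with ⟨ha, _⟩ | ⟨_, hk⟩
    · exact absurd ha hacc
    · rw [hk] at hfin
      simpa using hfin

end machine

end Pool.Agent.Lib.MP_87d05f_lc
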