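import Mathlib
import Pool.Agent.Lib.MP_87d05f_lc.Call
import Pool.Agent.Lib.MP_87d05f_lc.Search

set_option autoImplicit false

/-!
# The search machine with calls of a given machine at the leaves
-/

namespace Pool.Agent.Lib.MP_87d05f_lc

open Pool.Agent.PolyTime Function Turing Polynomial

/-! ### The answer of the subroutine -/

/-- a query: input, and two numbers `N`, `h` for the time bound `N * 2 ^ h` -/
abbrev Qry := List Bool × (ℕ × ℕ)

/-- the answer to a query -/
noncomputable def ansT (tm : FinTM2) (e₀ : tm.Γ tm.k₀ ≃ Bool) (acc : List (tm.Γ tm.k₁))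
    (q : Qry) : Bool :=
  ans tm.m tm.k₀ tm.k₁ e₀.symm tm.main tm.initialState acc q.1 (q.2.1 * 2 ^ q.2.2)

theorem bind_none {α : Type} (f : α → Option α) (n : ℕ) : (flip bind f)^[n] none = none := by
  induction n with
  | zero => rfl
  | succ n ih => rw [Function.iterate_succ_apply]; exact ih

theorem fstep_of_evals {K : Type} [DecidableEq K] {Γ : K → Type} {Λ σ : Type}
    (m : Λ → TM2.Stmt Γ Λ σ) (n : ℕ) : ∀ c d : TM2.Cfg Γ Λ σ,
    (flip bind (TM2.step m))^[n] (some c) = some d → (fstep m)^[n] c = d := by
  induction n with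
  | zero => intro c d h; simpa using h
  | succ n ih =>
    intro c d h
    rw [Function.iterate_succ_apply] at h ⊢
    have h1 : flip bind (TM2.step m) (some c) = TM2.step m c := rfl
    rw [h1] at h
    rcases hc : TM2.step m c with _ | c'
    · rw [hc, bind_none] at h
      simp at h
    · rw [hc] at h
      have : fstep m c = c' := by unfold fstep; rw [hc]; rfl
      rw [this]
      exact ih c' d h

theorem fstep_halted {K : Type} [DecidableEq K] {Γ : K → Type} {Λ σ : Type}
    (m : Λ → TM2.Stmt Γ Λ σ) (v : σ) (S : ∀ k, List (Γ k)) (n : ℕ) :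
    (fstep m)^[n] ⟨none, v, S⟩ = ⟨none, v, S⟩ := by
  induction n with
  | zero => rfl
  | succ n ih =>
    rw [Function.iterate_succ_apply]
    exact ih

theorem ansT_of_outputs (tm : FinTM2) (e₀ : tm.Γ tm.k₀ ≃ Bool) (acc out : List (tm.Γ tm.k₁))
    (q : Qry)
    (h : Nonempty (TM2OutputsInTime tm (q.1.map e₀.symm) (some out) (q.2.1 * 2 ^ q.2.2))) :
    ansT tm e₀ acc q = true ↔ out = acc := by
  obtain ⟨⟨⟨n, h1⟩, h2⟩⟩ := h
  have h0 : initList tm (q.1.map e₀.symm) =
      cfg₀ tm.k₀ e₀.symm tm.main tm.initialState q.1 := by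
    unfold initList cfg₀
    congr 1
    funext k
    by_cases hk : k = tm.k₀
    · refine Eq.trans (dif_pos hk) ?_
      cases hk
      exact (update_self tm.k₀ (q.1.map e₀.symm) (fun _ => [])).symm
    · exact Eq.trans (dif_neg hk) (update_of_ne hk (q.1.map e₀.symm) (fun _ => [])).symm
  have h3 : (fstep tm.m)^[n] (cfg₀ tm.k₀ e₀.symm tm.main tm.initialState q.1) =
      haltList tm out := by
    rw [← h0]
    exact fstep_of_evals tm.m n _ _ h1
  have h4 : (fstep tm.m)^[q.2.1 * 2 ^ q.2.2] (cfg₀ tm.k₀ e₀.symm tm.main tm.initialState q.1) =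
      haltList tm out := by
    obtain ⟨j, hj⟩ := Nat.exists_eq_add_of_le h2
    rw [hj, Nat.add_comm, Function.iterate_add_apply, h3]
    exact fstep_halted tm.m _ _ j
  have h5 : (haltList tm out).stk tm.k₁ = out := by
    unfold haltList
    exact dif_pos rfl
  unfold ansT ans
  rw [h4]
  have h6 : ∀ (l : List (tm.Γ tm.k₁)), l = out →
      ((@decide (l = acc) (Classical.propDecidable _)) = true ↔ out = acc) := by
    intro l hl
    subst hl
    exact @decide_eq_true_iff _ (Classical.propDecidable _)
  exact h6 _ h5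

/-! ### The loop -/

section loop

variable {K : Type} [DecidableEq K] {σ : Type} [SCode σ]

/-- the stacks with a state on `A` and a flag on `C` -/
def fA (a c : List Bool) : KK K → List Bool :=
  full (stk a [] c []) (fun _ => []) (ctk [] [] [] [] [])

theorem run_st {c : Cmd St} {a b a' b' : List Bool} {n : ℕ}
    (h : RunLe c (stk a [] b []) (stk a' [] b' []) n) :
    RunLe (mapCmd Sum.inl (mapCmd Sum.inl c) : Cmd (KK K)) (fA a b) (fA a' b') n :=
  RunLe.inl (RunLe.inl h _) _

theorem loop_run' {step : σ → σ} {dn : σ → Bool} {body : Cmd (KK K)} {t : σ → ℕ}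
    (hb : ∀ s : σ, RunLe body (fA (enc s).bits []) (fA (enc (dn (step s), step s)).bits []) (t s)) :
    ∀ (N : ℕ) (s : σ) (R : ℕ), (∀ i, i ≤ N → t (step^[i] s) ≤ R) →
      (∀ i, 1 ≤ i → i ≤ N → dn (step^[i] s) = false) → dn (step^[N + 1] s) = true →
      RunLe (.loopT (.inl (.inl .C)) (.seq body (mapCmd Sum.inl (mapCmd Sum.inl flagCmd))))
        (fA (enc s).bits [true])
        (fA (enc (step^[N + 1] s)).bits []) ((N + 1) * (R + 5) + 1) := by
  intro N
  induction N with
  | zero =>
    intro s R hR hf hd
    simp only [zero_add, Function.iterate_one] at hd ⊢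
    have h0 := hR 0 le_rfl
    simp only [Function.iterate_zero, id_eq] at h0
    refine (RunLe.loopT_true (S' := fA (enc (step s)).bits [])
      (n := t s + 4) (n' := 1) (l := []) (by rfl) ?_ ?_).mono ?_
    · unfold fA
      rw [full_st, update_C]
      refine RunLe.seq (hb s) ?_
      rw [hd]
      exact run_st (run_flag_true _)
    · exact RunLe.loopT_none rfl
    · omega
  | succ N ih =>
    intro s R hR hf hd
    have h0 := hR 0 (Nat.zero_le _)
    simp only [Function.iterate_zero, id_eq] at h0
    have h1 : dn (step s) = false := by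
      have := hf 1 le_rfl (by omega)
      simpa using this
    have h2 := ih (step s) R (fun i hi => by
        have := hR (i + 1) (by omega)
        rwa [Function.iterate_succ_apply] at this)
      (fun i hi hi' => by
        have := hf (i + 1) (by omega) (by omega)
        rwa [Function.iterate_succ_apply] at this)
      (by rwa [Function.iterate_succ_apply] at hd)
    rw [Function.iterate_succ_apply]
    refine (RunLe.loopT_true (S' := fA (enc (step s)).bits [true]) (n := t s + 3) (l := [])
      (by rfl) ?_ h2).mono ?_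
    · unfold fA
      rw [full_st, update_C]
      refine RunLe.seq (hb s) ?_
      rw [h1]
      exact run_st (run_flag_false _)
    · nlinarith

end loop

/-- cost of a query -/
def qcost (q : Qry) : ℕ := (q.1.length + 1) + (q.2.1 + 1) * (2 ^ q.2.2 * (q.2.2 + 1))

theorem update_eq_fA {K : Type} [DecidableEq K] (x : List Bool) :
    update (fun _ => []) (.inl (.inl .A) : KK K) x = fA x [] := by
  have h : (fun _ : KK K => ([] : List Bool)) = fA [] [] := by
    funext k
    rcases k with (k | k) | k
    · cases k <;> rfl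
    · rfl
    · cases k <;> rfl
  rw [h]
  unfold fA
  rw [full_st, update_A]

/-- The loop machine with calls of a given machine. -/
theorem oracle_machine {σ : Type} [SCode σ] (tm : FinTM2) (e₀ : tm.Γ tm.k₀ ≃ Bool)
    (acc : List (tm.Γ tm.k₁)) {init : List Bool → σ} {query : σ → Qry} {next : Bool → σ → σ}
    {dn : σ → Bool} {out : σ → Bool}
    (hi : PTime init) (hq : PTime query) (hn : PTime (fun p : Bool × σ => next p.1 p.2))
    (hd : PTime dn) (ho : PTime out) :
    ∃ (tm' : FinTM2) (e₀' : tm'.Γ tm'.k₀ ≃ Bool) (acc' rej' : List (tm'.Γ tm'.k₁))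
      (P : Polynomial ℕ) (κ : ℕ), acc' ≠ rej' ∧
      ∀ (x : List Bool) (N B R : ℕ), 1 ≤ N →
        (∀ i, i ≤ N → sz ((fun s => next (ansT tm e₀ acc (query s)) s)^[i] (init x)) ≤ B) →
        (∀ i, i < N → qcost (query
          ((fun s => next (ansT tm e₀ acc (query s)) s)^[i] (init x))) ≤ R) →
        (∀ i, 1 ≤ i → i < N →
          dn ((fun s => next (ansT tm e₀ acc (query s)) s)^[i] (init x)) = false) →
        dn ((fun s => next (ansT tm e₀ acc (query s)) s)^[N] (init x)) = true →
        ∀ m : ℕ, P.eval x.length + N * (P.eval B + κ * R) ≤ m →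
        Nonempty (TM2OutputsInTime tm' (x.map e₀'.symm)
          (some (if out ((fun s => next (ansT tm e₀ acc (query s)) s)^[N] (init x)) = true
            then acc' else rej')) m) := by
  have : Fintype tm.K := tm.kFin
  obtain ⟨ci, Pi, hci⟩ := ptime_cmd hi
  have hq' : PTime (fun s : σ => (query s, s)) := hq.pair PTime.id
  obtain ⟨cq, Pq, hcq⟩ := ptime_cmd hq'
  have hn' : PTime (fun p : Bool × σ => (dn (next p.1 p.2), next p.1 p.2)) := (hd.comp hn).pair hn
  obtain ⟨cn, Pn, hcn⟩ := ptime_cmd hn'
  obtain ⟨co, Po, hco⟩ := ptime_cmd ho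
  obtain ⟨cc, κ, hcc⟩ := @exists_callC tm.K tm.kDecidableEq tm.Γ tm.Λ tm.σ tm.kFin tm.ΛFin
    tm.σFin tm.m tm.k₀ tm.k₁ tm.Γk₀Fin e₀.symm tm.main tm.initialState acc
  set step : σ → σ := fun s => next (ansT tm e₀ acc (query s)) s with hstep
  set up : Cmd St → Cmd (KK tm.K) := fun c => mapCmd Sum.inl (mapCmd Sum.inl c) with hup
  set body : Cmd (KK tm.K) := .seq (up cq) (.seq cc (up cn)) with hbody
  have hb : ∀ s : σ, RunLe body (fA (enc s).bits [])
      (fA (enc (dn (step s), step s)).bits [])
      (Pq.eval (sz s) + (κ * qcost (query s) + Pn.eval (sz s + 4))) := by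
    intro s
    have h1 := run_st (K := tm.K) (hcq s)
    have h2 := hcc (query s).1 (query s).2.1 (query s).2.2 (enc s).bits
    have h3 := run_st (K := tm.K) (hcn (ansT tm e₀ acc (query s), s))
    have e1 : (enc (query s, s)).bits = true :: ((enc (query s)).bits ++ (enc s).bits) := by
      simp [Sx.bits]
    have e2 : (enc (ansT tm e₀ acc (query s), s)).bits =
        true :: ((enc (ansT tm e₀ acc (query s))).bits ++ (enc s).bits) := by
      simp [Sx.bits]
    rw [e1] at h1
    rw [e2] at h3
    refine RunLe.seq h1 (RunLe.seq h2 (h3.mono (eval_mono Pn ?_)))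
    have := sz_bool_le (ansT tm e₀ acc (query s))
    rw [sz_pair]
    omega
  set c : Cmd (KK tm.K) := .seq (up convCmd) (.seq (up ci) (.seq (.push (.inl (.inl .C)) true)
    (.seq (.loopT (.inl (.inl .C)) (.seq body (up flagCmd))) (up co)))) with hc
  refine ⟨(Flow.compile c).toTM (.inl (.inl .A)) (.inl (.inl .A)), Equiv.refl _,
    [true, false, false], [false],
    C 7 * X + C 10 + Pi.comp (C 4 * X + C 1) + Pq + Pn.comp (X + C 4) + C 10 + Po, κ, ?_, ?_⟩
  · intro h
    exact absurd (congrArg List.length h) (by change ¬ ((3 : ℕ) = 1); decide)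
  · intro x N B R hN hB hR hf hd' m hm
    obtain ⟨N, rfl⟩ : ∃ M, N = M + 1 := ⟨N - 1, by omega⟩
    set s0 := init x with hs0
    have h1 := run_st (K := tm.K) (run_conv x)
    have h2 := run_st (K := tm.K) (hci x)
    have h3 := loop_run' (step := step) (dn := dn) hb N s0
      (Pq.eval B + (κ * R + Pn.eval (B + 4))) (fun i hi => by
        have g1 := eval_mono Pq (hB i (by omega))
        have g2 := eval_mono Pn (Nat.add_le_add_right (hB i (by omega)) 4)
        have g3 := Nat.mul_le_mul_left κ (hR i (by omega))
        omega)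
      (fun i hi hi' => hf i hi (by omega)) hd'
    have h4 := run_st (K := tm.K) (hco (step^[N + 1] s0))
    have hp : RunLe (.push (.inl (.inl .C)) true : Cmd (KK tm.K)) (fA (enc s0).bits [])
        (fA (enc s0).bits [true]) 1 := by
      have h := RunLe.push (fA (enc s0).bits []) (.inl (.inl .C) : KK tm.K) true
      have e : update (fA (enc s0).bits []) (.inl (.inl .C) : KK tm.K)
          (true :: fA (enc s0).bits [] (.inl (.inl .C) : KK tm.K)) =
          fA (enc s0).bits [true] := by
        unfold fA
        rw [full_st, update_C]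
        rfl
      rw [e] at h
      exact h
    have hrun := RunLe.seq h1 (RunLe.seq h2 (RunLe.seq hp (RunLe.seq h3 h4)))
    obtain ⟨t, ht, hrun⟩ := hrun
    have hBN := hB (N + 1) le_rfl
    have hb1 : t + 1 ≤ m := by
      refine le_trans ?_ hm
      have e1 := eval_mono Pi (sz_listBool_le x)
      have e2 := eval_mono Po hBN
      simp only [eval_add, eval_mul, eval_C, eval_X, eval_comp]
      generalize eval B Pq = u at *
      generalize eval (B + 4) Pn = u' at *
      generalize eval B Po = v at *
      generalize eval (sz x) Pi = w at *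
      generalize eval (4 * x.length + 1) Pi = w' at *
      generalize eval (4 * B + 1) Pi = w'' at *
      generalize eval x.length Pq = y1 at *
      generalize eval (x.length + 4) Pn = y2 at *
      generalize eval x.length Po = y3 at *
      generalize eval (sz (step^[N + 1] s0)) Po = v' at *
      generalize κ * R = z at *
      have k1 : (N + 1) * (u + (z + u') + 5) + (N + 1) * v ≤
          (N + 1) * (7 * B + 10 + w'' + u + u' + 10 + v + z) := by
        rw [← Nat.mul_add]
        exact Nat.mul_le_mul_left _ (by omega)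
      have k2 : v ≤ (N + 1) * v := Nat.le_mul_of_pos_left _ (Nat.succ_pos N)
      omega
    rw [← update_eq_fA, ← update_eq_fA] at hrun
    have h := Cmd.outputs c (.inl (.inl .A)) (.inl (.inl .A)) hrun m hb1
    have e : ∀ l : List Bool, List.map (Equiv.refl Bool).symm l = l := fun l => List.map_id l
    have e3 : (enc (out (step^[N + 1] s0))).bits =
        (if out (step^[N + 1] s0) = true then [true, false, false] else [false]) := by
      cases out (step^[N + 1] s0) <;> simp [Sx.bits]
    rw [e3] at h
    exact (congrArg (fun a => Nonempty (TM2OutputsInTime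
      ((Flow.compile c).toTM (.inl (.inl .A)) (.inl (.inl .A))) a
      (some (if out (step^[N + 1] s0) = true then
        [true, false, false] else [false])) m)) (e x)).mpr h

end Pool.Agent.Lib.MP_87d05f_lc
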