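import Mathlib
import Pool.Agent.Lib.MP_87d05f_lc.Oracle

set_option autoImplicit false

/-!
# The loop machine with calls of a given machine and a word as output
-/

namespace Pool.Agent.Lib.MP_87d05f_lc

open Pool.Agent.PolyTime Function Turing Polynomial

/-! ### From the code of a word to the word -/

/-- program: the code of a list of bits on `A` becomes the raw list -/
def decCmd : Cmd St :=
  .seq (.loopT .A (.pop .A .skip (.push .B false) (.seq (.pop .A .skip .skip .skip)
      (.seq (.pop .A .skip .skip .skip) (.push .B true)))))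
    (.loopB .B (.push .A false) (.push .A true))

theorem run_dec1 (w : List Bool) : ∀ b : List Bool,
    RunLe (.loopT .A (.pop .A .skip (.push .B false) (.seq (.pop .A .skip .skip .skip)
      (.seq (.pop .A .skip .skip .skip) (.push .B true))))) (stk (enc w).bits b [] [])
      (stk [] (w.reverse ++ b) [] []) (5 * w.length + 1) := by
  induction w with
  | nil =>
    intro b
    have e : (enc ([] : List Bool)).bits = [false] := by simp [Sx.bits]
    rw [e]
    have h := RunLe.loopT_false (k := St.A) (c := .pop .A .skip (.push .B false)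
      (.seq (.pop .A .skip .skip .skip) (.seq (.pop .A .skip .skip .skip) (.push .B true))))
      (S := stk [false] b [] []) (l := []) (stk_A _ _ _ _)
    rw [update_A] at h
    simpa using h
  | cons a w ih =>
    intro b
    have e : (a :: w).reverse ++ b = w.reverse ++ (a :: b) := by simp
    rw [e]
    cases a
    · rw [bits_cons_false]
      refine (RunLe.loopT_true (n := 2) (stk_A _ _ _ _) ?_ (ih (false :: b))).mono ?_
      · rw [update_A]
        refine RunLe.pop_false (n := 1) (stk_A _ _ _ _) ?_
        rw [update_A]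
        simpa using RunLe.push (stk (enc w).bits b [] []) .B false
      · simp only [List.length_cons]; omega
    · rw [bits_cons_true]
      refine (RunLe.loopT_true (n := 4) (stk_A _ _ _ _) ?_ (ih (true :: b))).mono ?_
      · rw [update_A]
        refine RunLe.pop_true (n := 3) (stk_A _ _ _ _) ?_
        rw [update_A]
        refine RunLe.seq (S' := stk (false :: (enc w).bits) b [] []) (n := 1) (n' := 2) ?_ ?_
        · refine RunLe.pop_false (n := 0) (stk_A _ _ _ _) ?_
          rw [update_A]
          exact RunLe.skip _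
        · refine RunLe.seq (S' := stk (enc w).bits b [] []) (n := 1) (n' := 1) ?_ ?_
          · refine RunLe.pop_false (n := 0) (stk_A _ _ _ _) ?_
            rw [update_A]
            exact RunLe.skip _
          · simpa using RunLe.push (stk (enc w).bits b [] []) .B true
      · simp only [List.length_cons]; omega

theorem run_dec2 (w : List Bool) : ∀ b : List Bool,
    RunLe (.loopB .B (.push .A false) (.push .A true)) (stk b w [] [])
      (stk (w.reverse ++ b) [] [] []) (2 * w.length + 1) := by
  induction w with
  | nil => intro b; exact RunLe.loopB_none rfl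
  | cons a w ih =>
    intro b
    have e : (a :: w).reverse ++ b = w.reverse ++ (a :: b) := by simp
    rw [e]
    cases a
    · refine (RunLe.loopB_false (n := 1) (stk_B _ _ _ _) ?_ (ih (false :: b))).mono ?_
      · rw [update_B]
        simpa using RunLe.push (stk b w [] []) .A false
      · simp only [List.length_cons]; omega
    · refine (RunLe.loopB_true (n := 1) (stk_B _ _ _ _) ?_ (ih (true :: b))).mono ?_
      · rw [update_B]
        simpa using RunLe.push (stk b w [] []) .A true
      · simp only [List.length_cons]; omega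

theorem run_dec (w : List Bool) :
    RunLe decCmd (stk (enc w).bits [] [] []) (stk w [] [] []) (7 * w.length + 2) := by
  have h1 := run_dec1 w []
  have h2 := run_dec2 w.reverse []
  rw [List.reverse_reverse, List.append_nil, List.length_reverse] at h2
  rw [List.append_nil] at h1
  exact (RunLe.seq h1 h2).mono (by omega)

/-- The loop machine with calls of a given machine and a word as output. -/
theorem oracle_machine_out {σ : Type} [SCode σ] (tm : FinTM2) (e₀ : tm.Γ tm.k₀ ≃ Bool)
    (acc : List (tm.Γ tm.k₁)) {init : List Bool → σ} {query : σ → Qry} {next : Bool → σ → σ}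
    {dn : σ → Bool} {out : σ → List Bool}
    (hi : PTime init) (hq : PTime query) (hn : PTime (fun p : Bool × σ => next p.1 p.2))
    (hd : PTime dn) (ho : PTime out) :
    ∃ (tm' : FinTM2) (e₀' : tm'.Γ tm'.k₀ ≃ Bool) (e₁' : tm'.Γ tm'.k₁ ≃ Bool)
      (P : Polynomial ℕ) (κ : ℕ),
      ∀ (x : List Bool) (N B R : ℕ), 1 ≤ N →
        (∀ i, i ≤ N → sz ((fun s => next (ansT tm e₀ acc (query s)) s)^[i] (init x)) ≤ B) →
        (∀ i, i < N → qcost (query
          ((fun s => next (ansT tm e₀ acc (query s)) s)^[i] (init x))) ≤ R) →
        (∀ i, 1 ≤ i → i < N →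
          dn ((fun s => next (ansT tm e₀ acc (query s)) s)^[i] (init x)) = false) →
        dn ((fun s => next (ansT tm e₀ acc (query s)) s)^[N] (init x)) = true →
        ∀ m : ℕ, P.eval x.length + N * (P.eval B + κ * R) ≤ m →
        Nonempty (TM2OutputsInTime tm' (x.map e₀'.symm)
          (some ((out ((fun s => next (ansT tm e₀ acc (query s)) s)^[N] (init x))).map e₁'.symm))
            m) := by
  have : Fintype tm.K := tm.kFin
  obtain ⟨ci, Pi, hci⟩ := ptime_cmd hi
  have hq' : PTime (fun s : σ => (query s, s)) := hq.pair PTime.id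
  obtain ⟨cq, Pq, hcq⟩ := ptime_cmd hq'
  have hn' : PTime (fun p : Bool × σ => (dn (next p.1 p.2), next p.1 p.2)) := (hd.comp hn).pair hn
  obtain ⟨cn, Pn, hcn⟩ := ptime_cmd hn'
  obtain ⟨co, Po, hco⟩ := ptime_cmd ho
  obtain ⟨Pz, hPz⟩ := ho.sz_le
  obtain ⟨cc, κ, hcc⟩ := @exists_callC tm.K tm.kDecidableEq tm.Γ tm.Λ tm.σ tm.kFin tm.ΛFin
    tm.σFin tm.m tm.k₀ tm.k₁ tm.Γk₀Fin e₀.symm tm.main tm.initialState acc
  set step : σ → σ := fun s => next (ansT tm e₀ acc (query s)) s with hstep
  set up : Cmd St → Cmd (KK tm.K) := fun c => mapCmd Sum.inl (mapCmd Sum.inl c) with hup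
  set body : Cmd (KK tm.K) := .seq (up cq) (.seq cc (up cn)) with hbody
  have hb : ∀ s : σ, RunLe body (fA (enc s).bits [])
      (fA (enc (dn (step s), step s)).bits [])
      (Pq.eval (sz s) + (κ * qcost (query s) + Pn.eval (sz s + 4))) := by
    intro s
    have h1 := run_st (K := tm.K) (hcq s)
    have h2 := hcc (query s).1 (query s).2.1 (query s).2.2 (enc s).bits
    have h3 := run_st (K := tm.K) (hcn (ansT tm e₀ acc (query s), s))
    have e1 : (enc (query s, s)).bits = true :: ((enc (query s)).bits ++ (enc s).bits) := by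
      simp [Sx.bits]
    have e2 : (enc (ansT tm e₀ acc (query s), s)).bits =
        true :: ((enc (ansT tm e₀ acc (query s))).bits ++ (enc s).bits) := by
      simp [Sx.bits]
    rw [e1] at h1
    rw [e2] at h3
    refine RunLe.seq h1 (RunLe.seq h2 (h3.mono (eval_mono Pn ?_)))
    have := sz_bool_le (ansT tm e₀ acc (query s))
    rw [sz_pair]
    omega
  set c : Cmd (KK tm.K) := .seq (up convCmd) (.seq (up ci) (.seq (.push (.inl (.inl .C)) true)
    (.seq (.loopT (.inl (.inl .C)) (.seq body (up flagCmd))) (.seq (up co) (up decCmd))))) with hc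
  refine ⟨(Flow.compile c).toTM (.inl (.inl .A)) (.inl (.inl .A)), Equiv.refl _, Equiv.refl _,
    C 7 * X + C 10 + Pi.comp (C 4 * X + C 1) + Pq + Pn.comp (X + C 4) + C 10 + Po +
      C 7 * Pz + C 10, κ, ?_⟩
  intro x N B R hN hB hR hf hd' m hm
  obtain ⟨N, rfl⟩ : ∃ M, N = M + 1 := ⟨N - 1, by omega⟩
  set s0 := init x with hs0
  have h1 := run_st (K := tm.K) (run_conv x)
  have h2 := run_st (K := tm.K) (hci x)
  have h3 := loop_run' (step := step) (dn := dn) hb N s0
    (Pq.eval B + (κ * R + Pn.eval (B + 4))) (fun i hi => by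
      have g1 := eval_mono Pq (hB i (by omega))
      have g2 := eval_mono Pn (Nat.add_le_add_right (hB i (by omega)) 4)
      have g3 := Nat.mul_le_mul_left κ (hR i (by omega))
      omega)
    (fun i hi hi' => hf i hi (by omega)) hd'
  have h4 := run_st (K := tm.K) (hco (step^[N + 1] s0))
  have h5 := run_st (K := tm.K) (run_dec (out (step^[N + 1] s0)))
  have hp : RunLe (.push (.inl (.inl .C)) true : Cmd (KK tm.K)) (fA (enc s0).bits [])
      (fA (enc s0).bits [true]) 1 := by
    have h := RunLe.push (fA (enc s0).bits []) (.inl (.inl .C) : KK tm.K) true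
    have e : update (fA (enc s0).bits []) (.inl (.inl .C) : KK tm.K)
        (true :: fA (enc s0).bits [] (.inl (.inl .C) : KK tm.K)) =
        fA (enc s0).bits [true] := by
      unfold fA
      rw [full_st, update_C]
      rfl
    rw [e] at h
    exact h
  have hrun := RunLe.seq h1 (RunLe.seq h2 (RunLe.seq hp (RunLe.seq h3 (RunLe.seq h4 h5))))
  obtain ⟨t, ht, hrun⟩ := hrun
  have hBN := hB (N + 1) le_rfl
  have hlen : (out (step^[N + 1] s0)).length ≤ Pz.eval B := by
    have h6 := (length_le_sz _).trans ((hPz (step^[N + 1] s0)).trans (eval_mono Pz hBN))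
    omega
  have hb1 : t + 1 ≤ m := by
    refine le_trans ?_ hm
    have e1 := eval_mono Pi (sz_listBool_le x)
    have e2 := eval_mono Po hBN
    simp only [eval_add, eval_mul, eval_C, eval_X, eval_comp]
    generalize eval B Pq = u at *
    generalize eval (B + 4) Pn = u' at *
    generalize eval B Po = v at *
    generalize eval B Pz = v1 at *
    generalize eval (sz x) Pi = w at *
    generalize eval (4 * x.length + 1) Pi = w' at *
    generalize eval (4 * B + 1) Pi = w'' at *
    generalize eval x.length Pq = y1 at *
    generalize eval (x.length + 4) Pn = y2 at *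
    generalize eval x.length Po = y3 at *
    generalize eval x.length Pz = y4 at *
    generalize eval (sz (step^[N + 1] s0)) Po = v' at *
    generalize κ * R = z at *
    have k1 : (N + 1) * (u + (z + u') + 5) + ((N + 1) * v + (N + 1) * (7 * v1)) ≤
        (N + 1) * (7 * B + 10 + w'' + u + u' + 10 + v + 7 * v1 + 10 + z) := by
      rw [← Nat.mul_add, ← Nat.mul_add]
      exact Nat.mul_le_mul_left _ (by omega)
    have k2 : v ≤ (N + 1) * v := Nat.le_mul_of_pos_left _ (Nat.succ_pos N)
    have k3 : 7 * v1 ≤ (N + 1) * (7 * v1) := Nat.le_mul_of_pos_left _ (Nat.succ_pos N)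
    omega
  rw [← update_eq_fA, ← update_eq_fA] at hrun
  have h := Cmd.outputs c (.inl (.inl .A)) (.inl (.inl .A)) hrun m hb1
  have e : ∀ l : List Bool, List.map (Equiv.refl Bool).symm l = l := fun l => List.map_id l
  have e4 : ∀ x' y' : List Bool, x' = x → y' = out (step^[N + 1] s0) →
      Nonempty (TM2OutputsInTime ((Flow.compile c).toTM (.inl (.inl .A)) (.inl (.inl .A))) x'
        (some y') m) := by
    rintro x' y' rfl rfl
    exact h
  exact e4 _ _ (e x) (e _)

end Pool.Agent.Lib.MP_87d05f_lc
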