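import Mathlib

set_option autoImplicit false

/-!
# The potential function of the branching process, on finite sets
-/

namespace Pool.Agent.Lib.MP_87d05f_lc

open Finset

section pot

variable {α : Type} [DecidableEq α]

/-- the pairs of `P` avoiding `U` -/
def aliveP (U : Finset α) (P : Finset (α × α)) : Finset (α × α) :=
  P.filter (fun p => p.1 ∉ U ∧ p.2 ∉ U)

/-- number of neighbours of `x` in `P` outside `U` -/
def dg (U : Finset α) (P : Finset (α × α)) (x : α) : ℕ :=
  (P.filter (fun p => p.1 = x ∧ p.2 ∉ U)).card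

/-- the invariant -/
structure FInv (L : Finset α) (θ : ℕ) (U : Finset α) (P : Finset (α × α)) : Prop where
  sub : U ⊆ L
  psub : ∀ p ∈ P, p.1 ∈ L ∧ p.2 ∈ L
  symm : ∀ x y, (x, y) ∈ P → (y, x) ∈ P
  irr : ∀ x, (x, x) ∉ P
  deg : ∀ x, x ∉ U → dg U P x ≤ 2 * θ

/-- the potential -/
def Psi (L : Finset α) (θ : ℕ) (U : Finset α) (P : Finset (α × α)) : ℕ :=
  5 * θ * (L.card - U.card) + (2 * θ * L.card - (aliveP U P).card)

variable {L : Finset α} {θ : ℕ} {U : Finset α} {P : Finset (α × α)}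

theorem FInv.card_aliveP (h : FInv L θ U P) : (aliveP U P).card ≤ 2 * θ * L.card := by
  have h1 : ∀ p ∈ aliveP U P, p.1 ∈ L := fun p hp => (h.psub p (Finset.mem_filter.1 hp).1).1
  rw [Finset.card_eq_sum_card_fiberwise h1, Nat.mul_comm, ← smul_eq_mul]
  refine Finset.sum_le_card_nsmul _ _ _ fun x _ => ?_
  by_cases hx : x ∈ U
  · have : {a ∈ aliveP U P | a.1 = x} = ∅ := by
      ext p
      simp only [aliveP, Finset.mem_filter, Finset.notMem_empty, iff_false]
      rintro ⟨⟨_, h2, _⟩, rfl⟩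
      exact h2 hx
    rw [this]
    simp
  · refine le_trans (Finset.card_le_card ?_) (h.deg x hx)
    intro p hp
    simp only [aliveP, Finset.mem_filter] at hp ⊢
    exact ⟨hp.1.1, hp.2, hp.1.2.2⟩

theorem dg_mono {U U' : Finset α} (h : U ⊆ U') (P : Finset (α × α)) (x : α) :
    dg U' P x ≤ dg U P x := by
  refine Finset.card_le_card ?_
  intro p hp
  simp only [Finset.mem_filter] at hp ⊢
  exact ⟨hp.1, hp.2.1, fun h' => hp.2.2 (h h')⟩

theorem FInv.add_unit (h : FInv L θ U P) {x : α} (hx : x ∈ L) (hxU : x ∉ U) :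
    FInv L θ (insert x U) P ∧ Psi L θ (insert x U) P + θ ≤ Psi L θ U P := by
  have hinv : FInv L θ (insert x U) P := by
    refine ⟨Finset.insert_subset hx h.sub, h.psub, h.symm, h.irr, fun y hy => ?_⟩
    exact (dg_mono (Finset.subset_insert _ _) P y).trans
      (h.deg y fun hyU => hy (Finset.mem_insert_of_mem hyU))
  refine ⟨hinv, ?_⟩
  have h1 : (aliveP U P).card ≤ (aliveP (insert x U) P).card + 4 * θ := by
    have h2 : aliveP U P ⊆ aliveP (insert x U) P ∪ (P.filter (fun p => p.1 = x ∧ p.2 ∉ U) ∪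
        (P.filter (fun p => p.1 = x ∧ p.2 ∉ U)).image Prod.swap) := by
      intro p hp
      simp only [aliveP, Finset.mem_filter, Finset.mem_union, Finset.mem_insert,
        Finset.mem_image] at hp ⊢
      by_cases h1 : p.1 = x
      · exact Or.inr (Or.inl ⟨hp.1, h1, hp.2.2⟩)
      · by_cases h2 : p.2 = x
        · refine Or.inr (Or.inr ⟨(p.2, p.1), ⟨h.symm _ _ hp.1, h2, hp.2.1⟩, rfl⟩)
        · refine Or.inl ⟨hp.1, ?_, ?_⟩
          · rintro (h3 | h3)
            · exact h1 h3
            · exact hp.2.1 h3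
          · rintro (h3 | h3)
            · exact h2 h3
            · exact hp.2.2 h3
    have h3 := (Finset.card_le_card h2).trans (Finset.card_union_le _ _)
    have h4 := Finset.card_union_le (P.filter (fun p => p.1 = x ∧ p.2 ∉ U))
      ((P.filter (fun p => p.1 = x ∧ p.2 ∉ U)).image Prod.swap)
    have h5 : ((P.filter (fun p => p.1 = x ∧ p.2 ∉ U)).image Prod.swap).card ≤
        (P.filter (fun p => p.1 = x ∧ p.2 ∉ U)).card := Finset.card_image_le
    have h6 := h.deg x hxU
    unfold dg at h6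
    omega
  have h2 : (insert x U).card = U.card + 1 := Finset.card_insert_of_notMem hxU
  have h3 : (insert x U).card ≤ L.card := Finset.card_le_card hinv.sub
  have h4 : L.card - U.card = (L.card - (insert x U).card) + 1 := by omega
  unfold Psi
  rw [h4, Nat.mul_add]
  omega

theorem FInv.add_units (h : FInv L θ U P) (Y : Finset α) :
    (∀ y ∈ Y, y ∈ L ∧ y ∉ U) →
    FInv L θ (Y ∪ U) P ∧ Psi L θ (Y ∪ U) P + θ * Y.card ≤ Psi L θ U P := by
  induction Y using Finset.induction_on with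
  | empty => intro _; simpa using h
  | insert y Y hy ih =>
    intro hY
    obtain ⟨h1, h2⟩ := ih (fun z hz => hY z (Finset.mem_insert_of_mem hz))
    have h3 := hY y (Finset.mem_insert_self _ _)
    obtain ⟨h4, h5⟩ := h1.add_unit h3.1 (fun h' => (Finset.mem_union.1 h').elim hy h3.2)
    rw [Finset.insert_union]
    refine ⟨h4, ?_⟩
    rw [Finset.card_insert_of_notMem hy, Nat.mul_add]
    omega

theorem FInv.add_pairs (h : FInv L θ U P) (W : Finset (α × α))
    (hW : ∀ p ∈ W, p.1 ∈ L ∧ p.2 ∈ L ∧ p.1 ∉ U ∧ p.2 ∉ U ∧ p.1 ≠ p.2 ∧ p ∉ P)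
    (hsymm : ∀ x y, (x, y) ∈ W → (y, x) ∈ W)
    (hdeg : ∀ x, x ∉ U → dg U P x + (W.filter (fun p => p.1 = x)).card ≤ 2 * θ) :
    FInv L θ U (W ∪ P) ∧ Psi L θ U (W ∪ P) + W.card ≤ Psi L θ U P := by
  have hinv : FInv L θ U (W ∪ P) := by
    refine ⟨h.sub, ?_, ?_, ?_, ?_⟩
    · intro p hp
      rcases Finset.mem_union.1 hp with hp | hp
      · exact ⟨(hW p hp).1, (hW p hp).2.1⟩
      · exact h.psub p hp
    · intro x y hp
      rcases Finset.mem_union.1 hp with hp | hp
      · exact Finset.mem_union_left _ (hsymm _ _ hp)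
      · exact Finset.mem_union_right _ (h.symm _ _ hp)
    · intro x hp
      rcases Finset.mem_union.1 hp with hp | hp
      · exact (hW _ hp).2.2.2.2.1 rfl
      · exact h.irr x hp
    · intro x hx
      refine le_trans ?_ (hdeg x hx)
      have h1 : (W ∪ P).filter (fun p => p.1 = x ∧ p.2 ∉ U) ⊆
          P.filter (fun p => p.1 = x ∧ p.2 ∉ U) ∪ W.filter (fun p => p.1 = x) := by
        intro p hp
        simp only [Finset.mem_filter, Finset.mem_union] at hp ⊢
        rcases hp.1 with h2 | h2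
        · exact Or.inr ⟨h2, hp.2.1⟩
        · exact Or.inl ⟨h2, hp.2⟩
      exact (Finset.card_le_card h1).trans (Finset.card_union_le _ _)
  refine ⟨hinv, ?_⟩
  have h1 : aliveP U (W ∪ P) = W ∪ aliveP U P := by
    ext p
    simp only [aliveP, Finset.mem_filter, Finset.mem_union]
    constructor
    · rintro ⟨h1 | h1, h2⟩
      · exact Or.inl h1
      · exact Or.inr ⟨h1, h2⟩
    · rintro (h1 | ⟨h1, h2⟩)
      · exact ⟨Or.inl h1, (hW p h1).2.2.1, (hW p h1).2.2.2.1⟩
      · exact ⟨Or.inr h1, h2⟩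
  have h2 : Disjoint W (aliveP U P) := by
    rw [Finset.disjoint_left]
    intro p hp hp'
    exact (hW p hp).2.2.2.2.2 (Finset.mem_filter.1 hp').1
  have h3 : (aliveP U (W ∪ P)).card = W.card + (aliveP U P).card := by
    rw [h1, Finset.card_union_of_disjoint h2]
  have h4 := hinv.card_aliveP
  unfold Psi
  omega

end pot

end Pool.Agent.Lib.MP_87d05f_lc
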