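import Mathlib
import Pool.Agent.Lib.MP_87d05f_lc.Search

set_option autoImplicit false

/-!
# 2-SAT in polynomial time, by eliminating one variable after the other
-/

namespace Pool.Agent.Lib.MP_87d05f_lc

open Pool.Agent.PolyTime Function

/-- a literal: sign and variable -/
abbrev Lit (V : Type) := Bool × V

section sat

variable {V : Type} [DecidableEq V]

/-- the opposite literal -/
def neg (l : Lit V) : Lit V := (!l.1, l.2)

/-- the literal is true under the assignment -/
def tr (a : V → Bool) (l : Lit V) : Prop := a l.2 = l.1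

omit [DecidableEq V] in
theorem neg_neg' (l : Lit V) : neg (neg l) = l := by simp [neg]

omit [DecidableEq V] in
theorem tr_neg (a : V → Bool) (l : Lit V) : tr a (neg l) ↔ ¬ tr a l := by
  unfold tr neg
  cases a l.2 <;> cases l.1 <;> simp

/-- an extended literal is a literal or the constant `false` (coded by `none`) -/
def sem (a : V → Bool) : Option (Lit V) → Prop
  | none => False
  | some l => tr a l

/-- symmetric membership -/
def has (R : List (Option (Lit V) × Option (Lit V))) (p q : Option (Lit V)) : Bool :=
  decide ((p, q) ∈ R) || decide ((q, p) ∈ R)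

theorem has_comm (R : List (Option (Lit V) × Option (Lit V))) (p q : Option (Lit V)) :
    has R p q = has R q p := by
  unfold has
  rw [Bool.or_comm]

/-- is this a literal of the variable `v`? -/
def isOn (v : V) (p : Option (Lit V)) : Bool :=
  decide (p = some (true, v)) || decide (p = some (false, v))

/-- the clause `l ∨ q` is there, with `q` not on the variable of `l` -/
def wth (R : List (Option (Lit V) × Option (Lit V))) (l : Lit V) (q : Option (Lit V)) : Bool :=
  !(isOn l.2 q) && (has R (some l) q || (decide (q = none) && has R (some l) (some l)))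

/-- candidates for the resolution step -/
def elimP (R : List (Option (Lit V) × Option (Lit V))) (v : V)
    (pq : Option (Lit V) × Option (Lit V)) : Bool :=
  (!isOn v pq.1 && !isOn v pq.2) && (has R pq.1 pq.2 ||
    ((wth R (true, v) pq.1 && wth R (false, v) pq.2) ||
      (wth R (false, v) pq.1 && wth R (true, v) pq.2)))

/-- eliminate the variable `v` -/
def elimV (B : List (Option (Lit V))) (R : List (Option (Lit V) × Option (Lit V))) (v : V) :
    List (Option (Lit V) × Option (Lit V)) :=
  (B.product B).filter (elimP R v)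

theorem elimP_swap (R : List (Option (Lit V) × Option (Lit V))) (v : V)
    (p q : Option (Lit V)) : elimP R v (p, q) = elimP R v (q, p) := by
  unfold elimP
  simp only [has_comm R q p]
  generalize isOn v p = a
  generalize isOn v q = b
  generalize wth R (true, v) p = c
  generalize wth R (true, v) q = d
  generalize wth R (false, v) p = e
  generalize wth R (false, v) q = f
  generalize has R p q = g
  cases a <;> cases b <;> cases c <;> cases d <;> cases e <;> cases f <;> cases g <;> rfl

theorem has_elimV (B : List (Option (Lit V))) (R : List (Option (Lit V) × Option (Lit V)))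
    (v : V) (p q : Option (Lit V)) :
    has (elimV B R v) p q = true ↔ p ∈ B ∧ q ∈ B ∧ elimP R v (p, q) = true := by
  unfold has elimV
  simp only [Bool.or_eq_true, decide_eq_true_eq, List.mem_filter, List.pair_mem_product,
    elimP_swap R v q p]
  tauto

/-- all the clauses hold -/
def SatR (a : V → Bool) (R : List (Option (Lit V) × Option (Lit V))) : Prop :=
  ∀ p q, has R p q = true → sem a p ∨ sem a q

theorem isOn_iff (v : V) (p : Option (Lit V)) : isOn v p = true ↔ ∃ b, p = some (b, v) := by
  unfold isOn
  simp only [Bool.or_eq_true, decide_eq_true_eq]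
  constructor
  · rintro (h | h)
    · exact ⟨true, h⟩
    · exact ⟨false, h⟩
  · rintro ⟨b, h⟩
    cases b
    · exact Or.inr h
    · exact Or.inl h

theorem sem_update (a : V → Bool) (v : V) (b : Bool) (p : Option (Lit V)) (h : isOn v p = false) :
    sem (Function.update a v b) p ↔ sem a p := by
  rcases p with _ | l
  · rfl
  · have : l.2 ≠ v := by
      rintro rfl
      have h2 : isOn l.2 (some l) = true := (isOn_iff _ _).2 ⟨l.1, rfl⟩
      rw [h2] at h
      simp at h
    simp only [sem, tr, Function.update_of_ne this]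

theorem wth_sound {a : V → Bool} {R : List (Option (Lit V) × Option (Lit V))} (hR : SatR a R)
    {l : Lit V} {q : Option (Lit V)} (h : wth R l q = true) : tr a l ∨ sem a q := by
  unfold wth at h
  simp only [Bool.and_eq_true, Bool.or_eq_true, decide_eq_true_eq] at h
  rcases h.2 with h1 | ⟨rfl, h1⟩
  · exact hR _ _ h1
  · rcases hR _ _ h1 with h2 | h2
    · exact Or.inl h2
    · exact Or.inl h2

theorem elimV_sound {a : V → Bool} {B : List (Option (Lit V))}
    {R : List (Option (Lit V) × Option (Lit V))} (v : V) (hR : SatR a R) :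
    SatR a (elimV B R v) := by
  intro p q h
  obtain ⟨_, _, h⟩ := (has_elimV _ _ _ _ _).1 h
  unfold elimP at h
  simp only [Bool.and_eq_true, Bool.or_eq_true] at h
  have key : ∀ p q : Option (Lit V), wth R (true, v) p = true → wth R (false, v) q = true →
      sem a p ∨ sem a q := by
    intro p q h1 h2
    rcases wth_sound hR h1 with h1 | h1
    · rcases wth_sound hR h2 with h2 | h2
      · unfold tr at h1 h2
        simp only at h1 h2
        rw [h1] at h2
        simp at h2
      · exact Or.inr h2
    · exact Or.inl h1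
  rcases h.2 with h | ⟨h1, h2⟩ | ⟨h1, h2⟩
  · exact hR _ _ h
  · exact key _ _ h1 h2
  · exact (key _ _ h2 h1).symm

/-- the extension step: from a model after the elimination to a model before -/
theorem elimV_complete {a : V → Bool} {B : List (Option (Lit V))}
    {R : List (Option (Lit V) × Option (Lit V))} (v : V) (hnone : none ∈ B)
    (hB : ∀ p q, has R p q = true → p ∈ B) (ha : SatR a (elimV B R v)) : ∃ a', SatR a' R := by
  -- membership in `B` for `wth`
  have hwB : ∀ l q, wth R l q = true → q ∈ B := by
    intro l q h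
    unfold wth at h
    simp only [Bool.and_eq_true, Bool.or_eq_true, decide_eq_true_eq] at h
    rcases h.2 with h | ⟨rfl, _⟩
    · rw [has_comm] at h
      exact hB _ _ h
    · exact hnone
  have hwon : ∀ l q, wth R l q = true → isOn l.2 q = false := by
    intro l q h
    unfold wth at h
    simp only [Bool.and_eq_true, Bool.not_eq_true'] at h
    exact h.1
  -- resolvents
  have hres : ∀ p q, wth R (true, v) p = true → wth R (false, v) q = true →
      sem a p ∨ sem a q := by
    intro p q h1 h2
    apply ha
    rw [has_elimV]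
    refine ⟨hwB _ _ h1, hwB _ _ h2, ?_⟩
    unfold elimP
    simp [h1, h2, hwon _ _ h1, hwon _ _ h2]
  -- the value for `v`
  have key : ∃ b : Bool, ∀ q, wth R (!b, v) q = true → sem a q := by
    by_cases h : ∀ q, wth R (true, v) q = true → sem a q
    · exact ⟨false, h⟩
    · push Not at h
      obtain ⟨q0, h0, h0'⟩ := h
      refine ⟨true, fun q hq => ?_⟩
      rcases hres _ _ h0 hq with h | h
      · exact absurd h h0'
      · exact h
  obtain ⟨b, hb⟩ := key
  refine ⟨Function.update a v b, ?_⟩
  -- a clause with the literal `(b, v)` is true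
  have htrue : sem (Function.update a v b) (some (b, v)) := by
    simp [sem, tr]
  -- a clause with the literal `(!b, v)`
  have hfalse : ∀ q, has R (some (!b, v)) q = true →
      sem (Function.update a v b) (some (!b, v)) ∨ sem (Function.update a v b) q := by
    intro q hq
    right
    by_cases hon : isOn v q = true
    · obtain ⟨b', rfl⟩ := (isOn_iff _ _).1 hon
      by_cases hbb : b' = b
      · subst hbb; exact htrue
      · have hbb : b' = !b := by cases b <;> cases b' <;> simp_all
        subst hbb
        have h1 : wth R (!b, v) none = true := by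
          unfold wth
          simp [hq, isOn]
        exact absurd (hb _ h1) (by simp [sem])
    · simp only [Bool.not_eq_true] at hon
      rw [sem_update _ _ _ _ hon]
      apply hb
      unfold wth
      simp [hq, hon]
  intro p q hpq
  by_cases hp : isOn v p = true
  · obtain ⟨b', rfl⟩ := (isOn_iff _ _).1 hp
    by_cases hbb : b' = b
    · subst hbb; exact Or.inl htrue
    · have hbb : b' = !b := by cases b <;> cases b' <;> simp_all
      subst hbb
      exact hfalse _ hpq
  · by_cases hq : isOn v q = true
    · obtain ⟨b', rfl⟩ := (isOn_iff _ _).1 hq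
      by_cases hbb : b' = b
      · subst hbb; exact Or.inr htrue
      · have hbb : b' = !b := by cases b <;> cases b' <;> simp_all
        subst hbb
        rw [has_comm] at hpq
        exact (hfalse _ hpq).symm
    · simp only [Bool.not_eq_true] at hp hq
      rw [sem_update _ _ _ _ hp, sem_update _ _ _ _ hq]
      apply ha
      rw [has_elimV]
      refine ⟨hB _ _ hpq, hB q p (by rw [has_comm]; exact hpq), ?_⟩
      unfold elimP
      simp [hp, hq, hpq]

theorem elimV_avoid {B : List (Option (Lit V))}
    {R : List (Option (Lit V) × Option (Lit V))} {v w : V}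
    (h : w = v ∨ ∀ p q, has R p q = true → isOn w p = false) :
    ∀ p q, has (elimV B R v) p q = true → isOn w p = false := by
  intro p q hpq
  obtain ⟨_, _, hpq⟩ := (has_elimV _ _ _ _ _).1 hpq
  unfold elimP at hpq
  simp only [Bool.and_eq_true, Bool.or_eq_true, Bool.not_eq_true'] at hpq
  rcases h with rfl | h
  · exact hpq.1.1
  · have hw : ∀ l, wth R l p = true → isOn w p = false := by
      intro l hl
      unfold wth at hl
      simp only [Bool.and_eq_true, Bool.or_eq_true, decide_eq_true_eq] at hl
      rcases hl.2 with hl | ⟨rfl, _⟩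
      · rw [has_comm] at hl
        exact h _ _ hl
      · simp [isOn]
    rcases hpq.2 with h1 | ⟨h1, _⟩ | ⟨h1, _⟩
    · exact h _ _ h1
    · exact hw _ h1
    · exact hw _ h1

/-- the initial set of clauses -/
def initR (U : List (Lit V)) (Q : List (Lit V × Lit V)) :
    List (Option (Lit V) × Option (Lit V)) :=
  U.map (fun u => (some u, none)) ++ Q.map (fun p => (some p.1, some p.2))

/-- the extended literals -/
def baseR (lits : List (Lit V)) : List (Option (Lit V)) := none :: lits.map some

/-- the result of the elimination of all variables -/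
def elimAll (lits : List (Lit V)) (R : List (Option (Lit V) × Option (Lit V))) :
    List (Option (Lit V) × Option (Lit V)) :=
  (lits.map Prod.snd).foldl (elimV (baseR lits)) R

theorem foldl_elimV (B : List (Option (Lit V))) (hnone : none ∈ B) (vs : List V) :
    ∀ R : List (Option (Lit V) × Option (Lit V)), (∀ p q, has R p q = true → p ∈ B) →
      ((∃ a, SatR a R) ↔ ∃ a, SatR a (vs.foldl (elimV B) R)) ∧
      (∀ p q, has (vs.foldl (elimV B) R) p q = true → p ∈ B) ∧
      (∀ w, (w ∈ vs ∨ ∀ p q, has R p q = true → isOn w p = false) →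
        ∀ p q, has (vs.foldl (elimV B) R) p q = true → isOn w p = false) := by
  induction vs with
  | nil =>
    intro R hR
    refine ⟨Iff.rfl, hR, fun w hw p q h => ?_⟩
    rcases hw with hw | hw
    · simp at hw
    · exact hw p q h
  | cons v vs ih =>
    intro R hR
    simp only [List.foldl_cons]
    have hR' : ∀ p q, has (elimV B R v) p q = true → p ∈ B := fun p q h =>
      ((has_elimV _ _ _ _ _).1 h).1
    obtain ⟨h1, h2, h3⟩ := ih (elimV B R v) hR'
    refine ⟨?_, h2, fun w hw => ?_⟩
    · rw [← h1]
      constructor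
      · rintro ⟨a, ha⟩; exact ⟨a, elimV_sound v ha⟩
      · rintro ⟨a, ha⟩; exact elimV_complete v hnone hR ha
    · apply h3
      rcases hw with hw | hw
      · rcases List.mem_cons.1 hw with rfl | hw
        · exact Or.inr (elimV_avoid (Or.inl rfl))
        · exact Or.inl hw
      · exact Or.inr (elimV_avoid (Or.inr hw))

/-- the test -/
def twoSat (lits : List (Lit V)) (U : List (Lit V)) (Q : List (Lit V × Lit V)) : Bool :=
  !(has (elimAll lits (initR U Q)) none none)

theorem has_initR (U : List (Lit V)) (Q : List (Lit V × Lit V)) (p q : Option (Lit V)) :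
    has (initR U Q) p q = true ↔ (∃ u ∈ U, (p = some u ∧ q = none) ∨ (p = none ∧ q = some u)) ∨
      ∃ r ∈ Q, (p = some r.1 ∧ q = some r.2) ∨ (p = some r.2 ∧ q = some r.1) := by
  unfold has initR
  simp only [List.mem_append, List.mem_map, Prod.mk.injEq, Bool.or_eq_true, decide_eq_true_eq]
  constructor
  · rintro ((⟨u, hu, rfl, rfl⟩ | ⟨r, hr, rfl, rfl⟩) | (⟨u, hu, rfl, rfl⟩ | ⟨r, hr, rfl, rfl⟩))
    · exact Or.inl ⟨u, hu, Or.inl ⟨rfl, rfl⟩⟩
    · exact Or.inr ⟨r, hr, Or.inl ⟨rfl, rfl⟩⟩
    · exact Or.inl ⟨u, hu, Or.inr ⟨rfl, rfl⟩⟩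
    · exact Or.inr ⟨r, hr, Or.inr ⟨rfl, rfl⟩⟩
  · rintro (⟨u, hu, ⟨rfl, rfl⟩ | ⟨rfl, rfl⟩⟩ | ⟨r, hr, ⟨rfl, rfl⟩ | ⟨rfl, rfl⟩⟩)
    · exact Or.inl (Or.inl ⟨u, hu, rfl, rfl⟩)
    · exact Or.inr (Or.inl ⟨u, hu, rfl, rfl⟩)
    · exact Or.inl (Or.inr ⟨r, hr, rfl, rfl⟩)
    · exact Or.inr (Or.inr ⟨r, hr, rfl, rfl⟩)

theorem satR_initR (a : V → Bool) (U : List (Lit V)) (Q : List (Lit V × Lit V)) :
    SatR a (initR U Q) ↔ (∀ u ∈ U, tr a u) ∧ ∀ r ∈ Q, tr a r.1 ∨ tr a r.2 := by
  unfold SatR
  constructor
  · intro h
    refine ⟨fun u hu => ?_, fun r hr => ?_⟩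
    · rcases h (some u) none ((has_initR _ _ _ _).2 (Or.inl ⟨u, hu, Or.inl ⟨rfl, rfl⟩⟩)) with h | h
      · exact h
      · exact absurd h (by simp [sem])
    · exact h (some r.1) (some r.2)
        ((has_initR _ _ _ _).2 (Or.inr ⟨r, hr, Or.inl ⟨rfl, rfl⟩⟩))
  · rintro ⟨h1, h2⟩ p q hpq
    rcases (has_initR _ _ _ _).1 hpq with
      ⟨u, hu, ⟨rfl, rfl⟩ | ⟨rfl, rfl⟩⟩ | ⟨r, hr, ⟨rfl, rfl⟩ | ⟨rfl, rfl⟩⟩
    · exact Or.inl (h1 u hu)
    · exact Or.inr (h1 u hu)
    · exact h2 r hr
    · exact (h2 r hr).symm

theorem twoSat_iff {lits : List (Lit V)} {U : List (Lit V)} {Q : List (Lit V × Lit V)}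
    (hU : ∀ u ∈ U, u ∈ lits) (hQ : ∀ r ∈ Q, r.1 ∈ lits ∧ r.2 ∈ lits) :
    twoSat lits U Q = true ↔ ∃ a : V → Bool, (∀ u ∈ U, tr a u) ∧ ∀ r ∈ Q, tr a r.1 ∨ tr a r.2 := by
  have hB : ∀ p q, has (initR U Q) p q = true → p ∈ baseR lits := by
    intro p q hpq
    unfold baseR
    rw [List.mem_cons, List.mem_map]
    rcases (has_initR _ _ _ _).1 hpq with
      ⟨u, hu, ⟨rfl, rfl⟩ | ⟨rfl, rfl⟩⟩ | ⟨r, hr, ⟨rfl, rfl⟩ | ⟨rfl, rfl⟩⟩
    · exact Or.inr ⟨u, hU u hu, rfl⟩
    · exact Or.inl rfl
    · exact Or.inr ⟨r.1, (hQ r hr).1, rfl⟩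
    · exact Or.inr ⟨r.2, (hQ r hr).2, rfl⟩
  obtain ⟨h1, h2, h3⟩ := foldl_elimV (baseR lits) (by simp [baseR]) (lits.map Prod.snd)
    (initR U Q) hB
  have h4 : (∃ a : V → Bool, (∀ u ∈ U, tr a u) ∧ ∀ r ∈ Q, tr a r.1 ∨ tr a r.2) ↔
      ∃ a, SatR a (initR U Q) := by
    simp only [satR_initR]
  rw [h4, h1]
  have hnone : ∀ p q, has (elimAll lits (initR U Q)) p q = true → p = none := by
    intro p q hpq
    have hp := h2 p q hpq
    unfold baseR at hp
    rw [List.mem_cons, List.mem_map] at hp
    rcases hp with rfl | ⟨l, hl, rfl⟩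
    · rfl
    · have := h3 l.2 (Or.inl (List.mem_map.2 ⟨l, hl, rfl⟩)) _ _ hpq
      have h5 : isOn l.2 (some l) = true := (isOn_iff _ _).2 ⟨l.1, rfl⟩
      rw [h5] at this
      simp at this
  unfold twoSat
  simp only [Bool.not_eq_true']
  constructor
  · intro h
    refine ⟨fun _ => false, fun p q hpq => ?_⟩
    have hp := hnone p q hpq
    have hq := hnone q p (by rw [has_comm]; exact hpq)
    subst hp hq
    unfold elimAll at h
    rw [h] at hpq
    simp at hpq
  · rintro ⟨a, ha⟩
    by_contra hne
    simp only [Bool.not_eq_false] at hne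
    rcases ha none none hne with h | h <;> exact h

end sat

/-! ### Polynomial time -/

section ptime

variable {V : Type} [DecidableEq V] [SCode V]

omit [DecidableEq V] [SCode V] in
theorem mem_ptime {α β : Type} [SCode α] [SCode β] [DecidableEq β] {f : α → β} {l : α → List β}
    (hf : PTime f) (hl : PTime l) [∀ a, Decidable (f a ∈ l a)] :
    PTime (fun a => decide (f a ∈ l a)) :=
  (PTime.mem hf hl).of_eq fun a => Bool.eq_iff_iff.2 (by simp)

theorem has_ptime {α : Type} [SCode α] {R : α → List (Option (Lit V) × Option (Lit V))}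
    {p q : α → Option (Lit V)} (hR : PTime R) (hp : PTime p) (hq : PTime q) :
    PTime (fun a => has (R a) (p a) (q a)) :=
  PTime.or (mem_ptime (hp.pair hq) hR) (mem_ptime (hq.pair hp) hR)

theorem isOn_ptime {α : Type} [SCode α] {v : α → V} {p : α → Option (Lit V)} (hv : PTime v)
    (hp : PTime p) : PTime (fun a => isOn (v a) (p a)) :=
  PTime.or (PTime.eq hp (PTime.some ((PTime.const true).pair hv)))
    (PTime.eq hp (PTime.some ((PTime.const false).pair hv)))

theorem wth_ptime {α : Type} [SCode α] {R : α → List (Option (Lit V) × Option (Lit V))}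
    {l : α → Lit V} {q : α → Option (Lit V)} (hR : PTime R) (hl : PTime l) (hq : PTime q) :
    PTime (fun a => wth (R a) (l a) (q a)) :=
  PTime.and (PTime.not (isOn_ptime (PTime.snd.comp hl) hq))
    (PTime.or (has_ptime hR (PTime.some hl) hq)
      (PTime.and (PTime.eq hq (PTime.const none)) (has_ptime hR (PTime.some hl) (PTime.some hl))))

theorem elimP_ptime {α : Type} [SCode α] {R : α → List (Option (Lit V) × Option (Lit V))}
    {v : α → V} {pq : α → Option (Lit V) × Option (Lit V)} (hR : PTime R) (hv : PTime v)
    (hpq : PTime pq) : PTime (fun a => elimP (R a) (v a) (pq a)) := by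
  have hp : PTime (fun a => (pq a).1) := PTime.fst.comp hpq
  have hq : PTime (fun a => (pq a).2) := PTime.snd.comp hpq
  have ht : PTime (fun a => ((true, v a) : Lit V)) := (PTime.const true).pair hv
  have hf : PTime (fun a => ((false, v a) : Lit V)) := (PTime.const false).pair hv
  exact PTime.and (PTime.and (PTime.not (isOn_ptime hv hp)) (PTime.not (isOn_ptime hv hq)))
    (PTime.or (has_ptime hR hp hq) (PTime.or (PTime.and (wth_ptime hR ht hp) (wth_ptime hR hf hq))
      (PTime.and (wth_ptime hR hf hp) (wth_ptime hR ht hq))))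

theorem sz_filter_le {α : Type} [SCode α] (f : α → Bool) (l : List α) :
    sz (l.filter f) ≤ sz l := by
  induction l with
  | nil => simp
  | cons a l ih =>
    rw [List.filter_cons]
    split_ifs <;> simp only [sz_cons] <;> omega

theorem twoSat_ptime : PTime (fun p : List (Lit V) × List (Lit V) × List (Lit V × Lit V) =>
    twoSat p.1 p.2.1 p.2.2) := by
  have hinit : PTime (fun p : List (Lit V) × List (Lit V) × List (Lit V × Lit V) =>
      initR p.2.1 p.2.2) := by
    refine PTime.append ?_ ?_
    · refine PTime.map (f := fun _ u => (some u, none)) (PTime.fst.comp PTime.snd) ?_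
      exact (PTime.some PTime.snd).pair (PTime.const none)
    · refine PTime.map (f := fun _ (r : Lit V × Lit V) => (some r.1, some r.2))
        (PTime.snd.comp PTime.snd) ?_
      exact (PTime.some (PTime.fst.comp PTime.snd)).pair (PTime.some (PTime.snd.comp PTime.snd))
  have hbase : PTime (fun p : List (Lit V) × List (Lit V) × List (Lit V × Lit V) =>
      baseR p.1) :=
    PTime.cons (PTime.const none) (PTime.map (f := fun _ l => some l) PTime.fst
      (PTime.some PTime.snd))
  have hprod : PTime (fun p : List (Lit V) × List (Lit V) × List (Lit V × Lit V) =>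
      (baseR p.1).product (baseR p.1)) := PTime.product hbase hbase
  have hvars : PTime (fun p : List (Lit V) × List (Lit V) × List (Lit V × Lit V) =>
      p.1.map Prod.snd) :=
    (PTime.map (f := fun (_ : List (Lit V) × List (Lit V) × List (Lit V × Lit V)) (l : Lit V) =>
      l.2) PTime.fst (PTime.snd.comp PTime.snd)).of_eq fun _ => rfl
  have hstep : PTime (fun q : (List (Lit V) × List (Lit V) × List (Lit V × Lit V)) ×
      List (Option (Lit V) × Option (Lit V)) × V => elimV (baseR q.1.1) q.2.1 q.2.2) := by
    refine PTime.filter (p := fun (q : (List (Lit V) × List (Lit V) × List (Lit V × Lit V)) ×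
      List (Option (Lit V) × Option (Lit V)) × V) pq => elimP q.2.1 q.2.2 pq)
      (hprod.comp PTime.fst) ?_
    exact elimP_ptime ((PTime.fst.comp PTime.snd).comp PTime.fst)
      ((PTime.snd.comp PTime.snd).comp PTime.fst) PTime.snd
  obtain ⟨P1, hP1⟩ := hinit.sz_le
  obtain ⟨P2, hP2⟩ := hprod.sz_le
  have hall : PTime (fun p : List (Lit V) × List (Lit V) × List (Lit V × Lit V) =>
      elimAll p.1 (initR p.2.1 p.2.2)) := by
    refine PTime.foldl_of_bound (f := fun (p : List (Lit V) × List (Lit V) ×
      List (Lit V × Lit V)) R v => elimV (baseR p.1) R v) hvars hinit hstep (P1 + P2) ?_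
    intro a l₁ l₂ _
    rw [Polynomial.eval_add]
    rcases List.eq_nil_or_concat l₁ with rfl | ⟨l, v, rfl⟩
    · have := hP1 a
      simp only [List.foldl_nil]
      omega
    · simp only [List.concat_eq_append, List.foldl_append, List.foldl_cons, List.foldl_nil]
      have h1 := hP2 a
      have h2 := sz_filter_le (elimP (List.foldl (fun R v => elimV (baseR a.1) R v)
        (initR a.2.1 a.2.2) l) v) ((baseR a.1).product (baseR a.1))
      unfold elimV
      unfold elimV at h2
      omega
  exact PTime.not (has_ptime hall (PTime.const none) (PTime.const none))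

end ptime

end Pool.Agent.Lib.MP_87d05f_lc
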