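import Mathlib
import Pool.Agent.Lib.MP_87d05f_lc.TwoSat
import Pool.Agent.Lib.MP_87d05f_lc.Potential

set_option autoImplicit false

/-!
# The branching rules
-/

namespace Pool.Agent.Lib.MP_87d05f_lc

open Pool.Agent.PolyTime Function

/-- the formula: clauses (without repeated literals), literals, pairs from two-literal clauses -/
abbrev Env (V : Type) := List (List (Lit V)) × List (Lit V) × List (Lit V × Lit V)

/-- a node: the literals made true, and the derived two-literal clauses -/
abbrev Nd (V : Type) := List (Lit V) × List (Lit V × Lit V)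

section rules

variable {V : Type} [DecidableEq V]

/-- is `x ∨ y` known? -/
def adj (e : Env V) (s : Nd V) (x y : Lit V) : Bool :=
  decide ((x, y) ∈ s.2) || decide ((x, y) ∈ e.2.2)

/-- is the clause not yet implied by the node? -/
def alive (e : Env V) (s : Nd V) (c : List (Lit V)) : Bool :=
  c.all (fun x => !decide (x ∈ s.1)) && c.all (fun x => c.all (fun y => !adj e s x y))

/-- `c` is the clause with the three different literals `x`, `y`, `z` -/
def isTri (c : List (Lit V)) (x y z : Lit V) : Bool :=
  decide (c.length = 3) && ((decide (x ∈ c) && (decide (y ∈ c) && decide (z ∈ c))) &&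
    (!decide (x = y) && (!decide (y = z) && !decide (x = z))))

/-- there is an alive clause `x ∨ y ∨ z` -/
def tri (e : Env V) (s : Nd V) (x y z : Lit V) : Bool :=
  e.1.any (fun c => alive e s c && isTri c x y z)

def Yset (e : Env V) (s : Nd V) (x : Lit V) : List (Lit V) :=
  e.2.1.filter (fun y => (!decide (y = x) && !decide (y ∈ s.1)) && adj e s x y)

def Zset (e : Env V) (s : Nd V) (x y : Lit V) : List (Lit V) :=
  e.2.1.filter (fun z => tri e s x y z)

def Wset (e : Env V) (s : Nd V) (x : Lit V) : List (Lit V × Lit V) :=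
  (e.2.1.product e.2.1).filter (fun p => tri e s x p.1 p.2)

def find1 (θ : ℕ) (e : Env V) (s : Nd V) : Option (Lit V) :=
  e.2.1.find? (fun x => !decide (x ∈ s.1) && decide (θ ≤ (Yset e s x).length))

def find2 (θ : ℕ) (e : Env V) (s : Nd V) : Option (Lit V × Lit V) :=
  (e.2.1.product e.2.1).find? (fun p => decide (θ ≤ (Zset e s p.1 p.2).length))

def find3 (θ : ℕ) (e : Env V) (s : Nd V) : Option (Lit V) :=
  e.2.1.find? (fun x => decide (θ * θ ≤ (Wset e s x).length))

/-- the two children of a node, if there is a rule that applies -/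
def rule (θ : ℕ) (e : Env V) (s : Nd V) : Option (Nd V × Nd V) :=
  match find1 θ e s with
  | some x => some ((x :: s.1, s.2), (Yset e s x ++ s.1, s.2))
  | none =>
    match find2 θ e s with
    | some p => some ((s.1, p :: (p.2, p.1) :: s.2), (Zset e s p.1 p.2 ++ s.1, s.2))
    | none =>
      match find3 θ e s with
      | some x => some ((x :: s.1, s.2), (s.1, Wset e s x ++ s.2))
      | none => none

/-! ### Basic facts -/

theorem adj_iff {e : Env V} {s : Nd V} {x y : Lit V} :
    adj e s x y = true ↔ (x, y) ∈ s.2 ∨ (x, y) ∈ e.2.2 := by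
  unfold adj
  simp only [Bool.or_eq_true, decide_eq_true_eq]

theorem alive_iff {e : Env V} {s : Nd V} {c : List (Lit V)} :
    alive e s c = true ↔ (∀ x ∈ c, x ∉ s.1) ∧ ∀ x ∈ c, ∀ y ∈ c, adj e s x y = false := by
  unfold alive
  simp only [Bool.and_eq_true, List.all_eq_true, Bool.not_eq_true', decide_eq_false_iff_not]

theorem isTri_iff {c : List (Lit V)} {x y z : Lit V} :
    isTri c x y z = true ↔ c.length = 3 ∧ x ∈ c ∧ y ∈ c ∧ z ∈ c ∧ x ≠ y ∧ y ≠ z ∧ x ≠ z := by
  unfold isTri
  simp only [Bool.and_eq_true, Bool.not_eq_true', decide_eq_false_iff_not, decide_eq_true_eq]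
  tauto

theorem tri_iff {e : Env V} {s : Nd V} {x y z : Lit V} :
    tri e s x y z = true ↔ ∃ c ∈ e.1, alive e s c = true ∧ isTri c x y z = true := by
  unfold tri
  simp only [List.any_eq_true, Bool.and_eq_true]

theorem isTri_cover {c : List (Lit V)} {x y z : Lit V} (hc : c.Nodup)
    (h : isTri c x y z = true) : ∀ l, l ∈ c ↔ l = x ∨ l = y ∨ l = z := by
  obtain ⟨h1, hx, hy, hz, hxy, hyz, hxz⟩ := isTri_iff.1 h
  have h2 : ({x, y, z} : Finset (Lit V)) ⊆ c.toFinset := by
    intro l hl
    simp only [Finset.mem_insert, Finset.mem_singleton] at hl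
    rw [List.mem_toFinset]
    rcases hl with rfl | rfl | rfl
    · exact hx
    · exact hy
    · exact hz
  have h3 : ({x, y, z} : Finset (Lit V)) = c.toFinset := by
    refine Finset.eq_of_subset_of_card_le h2 ?_
    rw [List.toFinset_card_of_nodup hc, h1, Finset.card_eq_three.2 ⟨x, y, z, hxy, hxz, hyz, rfl⟩]
  intro l
  rw [← List.mem_toFinset, ← h3]
  simp only [Finset.mem_insert, Finset.mem_singleton]

theorem tri_perm {e : Env V} {s : Nd V} {x y z x' y' z' : Lit V}
    (h : tri e s x y z = true) (hx : x' = x ∨ x' = y ∨ x' = z) (hy : y' = x ∨ y' = y ∨ y' = z)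
    (hz : z' = x ∨ z' = y ∨ z' = z) (h1 : x' ≠ y') (h2 : y' ≠ z') (h3 : x' ≠ z') :
    tri e s x' y' z' = true := by
  obtain ⟨c, hc, hal, ht⟩ := tri_iff.1 h
  obtain ⟨hl, hxc, hyc, hzc, _, _, _⟩ := isTri_iff.1 ht
  refine tri_iff.2 ⟨c, hc, hal, isTri_iff.2 ⟨hl, ?_, ?_, ?_, h1, h2, h3⟩⟩
  · rcases hx with rfl | rfl | rfl <;> assumption
  · rcases hy with rfl | rfl | rfl <;> assumption
  · rcases hz with rfl | rfl | rfl <;> assumption

/-- what an alive triple gives -/
theorem tri_facts {e : Env V} {s : Nd V} {x y z : Lit V} (h : tri e s x y z = true) :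
    x ∉ s.1 ∧ y ∉ s.1 ∧ z ∉ s.1 ∧ adj e s x y = false ∧ adj e s y z = false ∧
      adj e s x z = false ∧ x ≠ y ∧ y ≠ z ∧ x ≠ z := by
  obtain ⟨c, hc, hal, ht⟩ := tri_iff.1 h
  obtain ⟨hl, hxc, hyc, hzc, h1, h2, h3⟩ := isTri_iff.1 ht
  obtain ⟨h4, h5⟩ := alive_iff.1 hal
  exact ⟨h4 _ hxc, h4 _ hyc, h4 _ hzc, h5 _ hxc _ hyc, h5 _ hyc _ hzc, h5 _ hxc _ hzc, h1, h2, h3⟩

/-! ### Well-formed formulas -/

structure WF (e : Env V) : Prop where
  nd : e.2.1.Nodup
  cnd : ∀ c ∈ e.1, c.Nodup
  csub : ∀ c ∈ e.1, ∀ l ∈ c, l ∈ e.2.1
  pairs : ∀ x y, (x, y) ∈ e.2.2 ↔ [x, y] ∈ e.1 ∨ [y, x] ∈ e.1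

/-- the formula holds -/
def FSat (a : V → Bool) (e : Env V) : Prop := ∀ c ∈ e.1, ∃ l ∈ c, tr a l

/-- the node's constraints hold -/
def NSat (a : V → Bool) (s : Nd V) : Prop := (∀ u ∈ s.1, tr a u) ∧ ∀ p ∈ s.2, tr a p.1 ∨ tr a p.2

theorem adj_sound {e : Env V} {s : Nd V} (he : WF e) {a : V → Bool} (h1 : FSat a e)
    (h2 : NSat a s) {x y : Lit V} (h : adj e s x y = true) : tr a x ∨ tr a y := by
  rcases adj_iff.1 h with h | h
  · exact h2.2 _ h
  · rcases (he.pairs x y).1 h with h | h
    · obtain ⟨l, hl, hl'⟩ := h1 _ h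
      simp only [List.mem_cons, List.not_mem_nil, or_false] at hl
      rcases hl with rfl | rfl
      · exact Or.inl hl'
      · exact Or.inr hl'
    · obtain ⟨l, hl, hl'⟩ := h1 _ h
      simp only [List.mem_cons, List.not_mem_nil, or_false] at hl
      rcases hl with rfl | rfl
      · exact Or.inr hl'
      · exact Or.inl hl'

theorem tri_sound {e : Env V} {s : Nd V} (he : WF e) {a : V → Bool} (h1 : FSat a e)
    {x y z : Lit V} (h : tri e s x y z = true) : tr a x ∨ tr a y ∨ tr a z := by
  obtain ⟨c, hc, _, ht⟩ := tri_iff.1 h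
  obtain ⟨l, hl, hl'⟩ := h1 c hc
  rcases (isTri_cover (he.cnd c hc) ht l).1 hl with rfl | rfl | rfl
  · exact Or.inl hl'
  · exact Or.inr (Or.inl hl')
  · exact Or.inr (Or.inr hl')

/-- exhaustiveness of the branching -/
theorem rule_sat {θ : ℕ} {e : Env V} {s l r : Nd V} (he : WF e) {a : V → Bool} (h1 : FSat a e)
    (h2 : NSat a s) (h : rule θ e s = some (l, r)) : NSat a l ∨ NSat a r := by
  unfold rule at h
  split at h
  · rename_i x hx
    simp only [Option.some.injEq, Prod.mk.injEq] at h
    obtain ⟨rfl, rfl⟩ := h
    by_cases hax : tr a x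
    · left
      refine ⟨fun u hu => ?_, h2.2⟩
      rcases List.mem_cons.1 hu with rfl | hu
      · exact hax
      · exact h2.1 u hu
    · right
      refine ⟨fun u hu => ?_, h2.2⟩
      rcases List.mem_append.1 hu with hu | hu
      · simp only [Yset, List.mem_filter, Bool.and_eq_true] at hu
        rcases adj_sound he h1 h2 hu.2.2 with h | h
        · exact absurd h hax
        · exact h
      · exact h2.1 u hu
  · split at h
    · rename_i p hp
      simp only [Option.some.injEq, Prod.mk.injEq] at h
      obtain ⟨rfl, rfl⟩ := h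
      by_cases hap : tr a p.1 ∨ tr a p.2
      · left
        refine ⟨h2.1, fun q hq => ?_⟩
        rcases List.mem_cons.1 hq with rfl | hq
        · exact hap
        · rcases List.mem_cons.1 hq with rfl | hq
          · exact hap.symm
          · exact h2.2 q hq
      · right
        refine ⟨fun u hu => ?_, h2.2⟩
        rcases List.mem_append.1 hu with hu | hu
        · simp only [Zset, List.mem_filter] at hu
          rcases tri_sound he h1 hu.2 with h | h | h
          · exact absurd (Or.inl h) hap
          · exact absurd (Or.inr h) hap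
          · exact h
        · exact h2.1 u hu
    · split at h
      · rename_i x hx
        simp only [Option.some.injEq, Prod.mk.injEq] at h
        obtain ⟨rfl, rfl⟩ := h
        by_cases hax : tr a x
        · left
          refine ⟨fun u hu => ?_, h2.2⟩
          rcases List.mem_cons.1 hu with rfl | hu
          · exact hax
          · exact h2.1 u hu
        · right
          refine ⟨h2.1, fun q hq => ?_⟩
          rcases List.mem_append.1 hq with hq | hq
          · simp only [Wset, List.mem_filter] at hq
            rcases tri_sound he h1 hq.2 with h | h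
            · exact absurd h hax
            · exact h
          · exact h2.2 q hq
      · simp at h

/-! ### The invariant and the potential -/

/-- the invariant of the nodes -/
structure Inv (θ : ℕ) (e : Env V) (s : Nd V) : Prop where
  nd1 : s.1.Nodup
  nd2 : s.2.Nodup
  fi : FInv e.2.1.toFinset θ s.1.toFinset s.2.toFinset

/-- the potential of the nodes -/
def Pot (θ : ℕ) (e : Env V) (s : Nd V) : ℕ :=
  Psi e.2.1.toFinset θ s.1.toFinset s.2.toFinset

theorem find1_none {θ : ℕ} {e : Env V} {s : Nd V} (h : find1 θ e s = none) :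
    ∀ x ∈ e.2.1, x ∉ s.1 → (Yset e s x).length < θ := by
  intro x hx hxs
  unfold find1 at h
  rw [List.find?_eq_none] at h
  have := h x hx
  simp only [Bool.and_eq_true, Bool.not_eq_true', decide_eq_false_iff_not, decide_eq_true_eq] at this
  by_contra hlt
  exact this ⟨hxs, by omega⟩

theorem find2_none {θ : ℕ} {e : Env V} {s : Nd V} (h : find2 θ e s = none) :
    ∀ x ∈ e.2.1, ∀ y ∈ e.2.1, (Zset e s x y).length < θ := by
  intro x hx y hy
  unfold find2 at h
  rw [List.find?_eq_none] at h
  have := h (x, y) (List.pair_mem_product.2 ⟨hx, hy⟩)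
  simp only [decide_eq_true_eq] at this
  omega

theorem find3_none {θ : ℕ} {e : Env V} {s : Nd V} (h : find3 θ e s = none) :
    ∀ x ∈ e.2.1, (Wset e s x).length < θ * θ := by
  intro x hx
  unfold find3 at h
  rw [List.find?_eq_none] at h
  have := h x hx
  simp only [decide_eq_true_eq] at this
  omega

theorem rule_none {θ : ℕ} {e : Env V} {s : Nd V} (h : rule θ e s = none) :
    find1 θ e s = none ∧ find2 θ e s = none ∧ find3 θ e s = none := by
  unfold rule at h
  split at h
  · simp at h
  · rename_i h1
    split at h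
    · simp at h
    · rename_i h2
      split at h
      · simp at h
      · rename_i h3
        exact ⟨h1, h2, h3⟩

/-- the degree in `P` is small if the first rule does not apply -/
theorem dg_lt {θ : ℕ} {e : Env V} {s : Nd V} (he : WF e) (hs : Inv θ e s)
    (h : find1 θ e s = none) (x : Lit V) (hx : x ∈ e.2.1) (hxs : x ∉ s.1) :
    dg s.1.toFinset s.2.toFinset x < θ := by
  refine lt_of_le_of_lt ?_ (find1_none h x hx hxs)
  have hnd : (Yset e s x).Nodup := he.nd.filter _
  rw [← List.toFinset_card_of_nodup hnd]
  unfold dg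
  refine Finset.card_le_card_of_injOn Prod.snd ?_ ?_
  · intro p hp
    have hp' : p ∈ s.2 ∧ p.1 = x ∧ p.2 ∉ s.1 := by
      simpa only [Finset.coe_filter, List.mem_toFinset, Set.mem_ofPred_eq] using hp
    obtain ⟨h1, h2, h3⟩ := hp'
    have h4 := hs.fi.psub p (List.mem_toFinset.2 h1)
    rw [Finset.mem_coe, List.mem_toFinset]
    simp only [Yset, List.mem_filter, Bool.and_eq_true, Bool.not_eq_true',
      decide_eq_false_iff_not]
    refine ⟨List.mem_toFinset.1 h4.2, ⟨?_, h3⟩, adj_iff.2 (Or.inl ?_)⟩
    · intro h5
      refine hs.fi.irr x (List.mem_toFinset.2 ?_)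
      have : p = (x, x) := Prod.ext h2 h5
      rw [← this]
      exact h1
    · rw [← h2]
      exact h1
  · intro p hp q hq hpq
    have hp' : p ∈ s.2 ∧ p.1 = x ∧ p.2 ∉ s.1 := by
      simpa only [Finset.coe_filter, List.mem_toFinset, Set.mem_ofPred_eq] using hp
    have hq' : q ∈ s.2 ∧ q.1 = x ∧ q.2 ∉ s.1 := by
      simpa only [Finset.coe_filter, List.mem_toFinset, Set.mem_ofPred_eq] using hq
    exact Prod.ext (hp'.2.1.trans hq'.2.1.symm) hpq

theorem mem_lits_of_tri {e : Env V} {s : Nd V} (he : WF e) {x y z : Lit V}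
    (h : tri e s x y z = true) : x ∈ e.2.1 ∧ y ∈ e.2.1 ∧ z ∈ e.2.1 := by
  obtain ⟨c, hc, _, ht⟩ := tri_iff.1 h
  obtain ⟨_, hx, hy, hz, _⟩ := isTri_iff.1 ht
  exact ⟨he.csub c hc _ hx, he.csub c hc _ hy, he.csub c hc _ hz⟩

theorem rule_spec {θ : ℕ} {e : Env V} {s : Nd V} (hθ : 1 ≤ θ) (he : WF e) (hs : Inv θ e s) :
    rule θ e s = none ∨ ∃ l r, rule θ e s = some (l, r) ∧ Inv θ e l ∧ Inv θ e r ∧
      Pot θ e l + 1 ≤ Pot θ e s ∧ Pot θ e r + θ * θ ≤ Pot θ e s := by
  -- adding a list of units
  have hunits : ∀ Y : List (Lit V), Y.Nodup → (∀ y ∈ Y, y ∈ e.2.1 ∧ y ∉ s.1) →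
      Inv θ e (Y ++ s.1, s.2) ∧ Pot θ e (Y ++ s.1, s.2) + θ * Y.length ≤ Pot θ e s := by
    intro Y hY hY'
    obtain ⟨h1, h2⟩ := hs.fi.add_units Y.toFinset (fun y hy => by
      rw [List.mem_toFinset] at hy
      rw [List.mem_toFinset, List.mem_toFinset]
      exact hY' y hy)
    rw [← List.toFinset_append] at h1 h2
    rw [List.toFinset_card_of_nodup hY] at h2
    refine ⟨⟨?_, hs.nd2, h1⟩, h2⟩
    exact List.nodup_append'.2 ⟨hY, hs.nd1, fun y hy hy' => (hY' y hy).2 hy'⟩
  -- adding a list of pairs
  have hpairs : ∀ W : List (Lit V × Lit V), W.Nodup →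
      (∀ p ∈ W, p.1 ∈ e.2.1 ∧ p.2 ∈ e.2.1 ∧ p.1 ∉ s.1 ∧ p.2 ∉ s.1 ∧ p.1 ≠ p.2 ∧ p ∉ s.2) →
      (∀ x y, (x, y) ∈ W → (y, x) ∈ W) →
      (∀ x, x ∉ s.1 → dg s.1.toFinset s.2.toFinset x +
        (W.toFinset.filter (fun p => p.1 = x)).card ≤ 2 * θ) →
      Inv θ e (s.1, W ++ s.2) ∧ Pot θ e (s.1, W ++ s.2) + W.length ≤ Pot θ e s := by
    intro W hW hW' hsymm hdeg
    obtain ⟨h1, h2⟩ := hs.fi.add_pairs W.toFinset
      (fun p hp => by
        rw [List.mem_toFinset] at hp
        simp only [List.mem_toFinset]
        exact hW' p hp)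
      (fun x y hxy => by
        rw [List.mem_toFinset] at hxy ⊢
        exact hsymm x y hxy)
      (fun x hx => by
        rw [List.mem_toFinset] at hx
        exact hdeg x hx)
    rw [← List.toFinset_append] at h1 h2
    rw [List.toFinset_card_of_nodup hW] at h2
    refine ⟨⟨hs.nd1, ?_, h1⟩, h2⟩
    exact List.nodup_append'.2 ⟨hW, hs.nd2, fun y hy hy' => (hW' y hy).2.2.2.2.2 hy'⟩
  have hθ2 : θ ≤ θ * θ := Nat.le_mul_of_pos_left _ hθ
  unfold rule
  split
  · rename_i x hx
    right
    have h1 := List.mem_of_find?_eq_some hx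
    have h2 := List.find?_some hx
    simp only [Bool.and_eq_true, Bool.not_eq_true', decide_eq_false_iff_not,
      decide_eq_true_eq] at h2
    obtain ⟨h3, h4⟩ := hunits [x] (List.nodup_singleton x) (by
      intro y hy
      rw [List.mem_singleton] at hy
      subst hy
      exact ⟨h1, h2.1⟩)
    obtain ⟨h5, h6⟩ := hunits (Yset e s x) (he.nd.filter _) (by
      intro y hy
      simp only [Yset, List.mem_filter, Bool.and_eq_true, Bool.not_eq_true',
        decide_eq_false_iff_not] at hy
      exact ⟨hy.1, hy.2.1.2⟩)
    refine ⟨_, _, rfl, h3, h5, ?_, ?_⟩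
    · simp only [List.singleton_append, List.length_singleton] at h4
      omega
    · have := Nat.mul_le_mul_left θ h2.2
      omega
  · rename_i hf1
    split
    · rename_i p hp
      right
      have h1 := List.mem_of_find?_eq_some hp
      have h2 := List.find?_some hp
      simp only [decide_eq_true_eq] at h2
      rcases p with ⟨x, y⟩
      simp only at h2
      -- a witness
      have h3 : ∃ z, z ∈ Zset e s x y := by
        by_contra hne
        push Not at hne
        have := List.eq_nil_iff_forall_not_mem.2 hne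
        rw [this, List.length_nil] at h2
        omega
      obtain ⟨z, hz⟩ := h3
      simp only [Zset, List.mem_filter] at hz
      obtain ⟨f1, f2, f3, f4, f5, f6, f7, f8, f9⟩ := tri_facts hz.2
      obtain ⟨m1, m2, m3⟩ := mem_lits_of_tri he hz.2
      have f4' : adj e s y x = false :=
        (tri_facts (tri_perm (x' := y) (y' := x) (z' := z) hz.2 (by simp) (by simp) (by simp)
          (Ne.symm f7) f9 f8)).2.2.2.1
      obtain ⟨h5, h6⟩ := hpairs [(x, y), (y, x)]
        (by
          rw [List.nodup_cons]
          refine ⟨?_, List.nodup_singleton _⟩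
          rw [List.mem_singleton]
          intro h
          exact f7 (Prod.mk.inj h).1)
        (by
          intro p hp
          simp only [List.mem_cons, List.not_mem_nil, or_false] at hp
          rcases hp with rfl | rfl
          · refine ⟨m1, m2, f1, f2, f7, fun h => ?_⟩
            rw [adj_iff.2 (Or.inl h)] at f4
            simp at f4
          · refine ⟨m2, m1, f2, f1, Ne.symm f7, fun h => ?_⟩
            rw [adj_iff.2 (Or.inl h)] at f4'
            simp at f4')
        (by
          intro u v huv
          simp only [List.mem_cons, Prod.mk.injEq, List.not_mem_nil, or_false] at huv ⊢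
          rcases huv with ⟨rfl, rfl⟩ | ⟨rfl, rfl⟩
          · exact Or.inr ⟨rfl, rfl⟩
          · exact Or.inl ⟨rfl, rfl⟩)
        (by
          intro u hu
          have hcard : (([(x, y), (y, x)] : List (Lit V × Lit V)).toFinset.filter
              (fun p => p.1 = u)).card ≤ 1 := by
            rw [Finset.card_le_one]
            intro p hp q hq
            simp only [Finset.mem_filter, List.mem_toFinset, List.mem_cons, List.not_mem_nil,
              or_false] at hp hq
            rcases hp with ⟨rfl | rfl, hp⟩ <;> rcases hq with ⟨rfl | rfl, hq⟩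
            · rfl
            · exact absurd (hp.trans hq.symm) f7
            · exact absurd (hq.trans hp.symm) f7
            · rfl
          by_cases hul : u ∈ e.2.1
          · have := dg_lt he hs hf1 u hul hu
            omega
          · have h7 : (([(x, y), (y, x)] : List (Lit V × Lit V)).toFinset.filter
              (fun p => p.1 = u)).card = 0 := by
              rw [Finset.card_eq_zero]
              ext p
              simp only [Finset.mem_filter, List.mem_toFinset, List.mem_cons, List.not_mem_nil,
                or_false, Finset.notMem_empty, iff_false]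
              rintro ⟨rfl | rfl, rfl⟩
              · exact hul m1
              · exact hul m2
            have h8 : dg s.1.toFinset s.2.toFinset u = 0 := by
              unfold dg
              rw [Finset.card_eq_zero]
              ext p
              simp only [Finset.mem_filter, Finset.notMem_empty, iff_false]
              rintro ⟨h9, rfl, _⟩
              exact hul (List.mem_toFinset.1 (hs.fi.psub p h9).1)
            omega)
      obtain ⟨h7, h8⟩ := hunits (Zset e s x y) (he.nd.filter _) (by
        intro w hw
        simp only [Zset, List.mem_filter] at hw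
        exact ⟨hw.1, (tri_facts hw.2).2.2.1⟩)
      refine ⟨_, _, rfl, h5, h7, ?_, ?_⟩
      · simp only [List.cons_append, List.nil_append, List.length_cons, List.length_nil] at h6
        change Pot θ e (s.1, (x, y) :: (y, x) :: s.2) + 1 ≤ _
        omega
      · have := Nat.mul_le_mul_left θ h2
        change Pot θ e (Zset e s x y ++ s.1, s.2) + θ * θ ≤ _
        omega
    · rename_i hf2
      split
      · rename_i x hx
        right
        have h1 := List.mem_of_find?_eq_some hx
        have h2 := List.find?_some hx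
        simp only [decide_eq_true_eq] at h2
        have h3 : ∃ p, p ∈ Wset e s x := by
          by_contra hne
          push Not at hne
          have := List.eq_nil_iff_forall_not_mem.2 hne
          rw [this, List.length_nil] at h2
          have : 1 * 1 ≤ θ * θ := Nat.mul_le_mul hθ hθ
          omega
        obtain ⟨p, hp⟩ := h3
        simp only [Wset, List.mem_filter] at hp
        have hxs := (tri_facts hp.2).1
        obtain ⟨h4, h5⟩ := hunits [x] (List.nodup_singleton x) (by
          intro y hy
          rw [List.mem_singleton] at hy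
          subst hy
          exact ⟨h1, hxs⟩)
        obtain ⟨h6, h7⟩ := hpairs (Wset e s x) ((he.nd.product he.nd).filter _)
          (by
            intro p hp
            simp only [Wset, List.mem_filter] at hp
            obtain ⟨f1, f2, f3, f4, f5, f6, f7, f8, f9⟩ := tri_facts hp.2
            obtain ⟨m1, m2, m3⟩ := mem_lits_of_tri he hp.2
            refine ⟨m2, m3, f2, f3, f8, fun h => ?_⟩
            rw [adj_iff.2 (Or.inl h)] at f5
            simp at f5)
          (by
            intro u v huv
            simp only [Wset, List.mem_filter, List.pair_mem_product] at huv ⊢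
            obtain ⟨f1, f2, f3, f4, f5, f6, f7, f8, f9⟩ := tri_facts huv.2
            exact ⟨⟨huv.1.2, huv.1.1⟩, tri_perm huv.2 (by simp) (by simp) (by simp) f9
              (Ne.symm f8) f7⟩)
          (by
            intro u hu
            by_cases hul : u ∈ e.2.1
            · have h8 := dg_lt he hs hf1 u hul hu
              have h9 := find2_none hf2 x h1 u hul
              have h10 : ((Wset e s x).toFinset.filter (fun p => p.1 = u)).card ≤
                  (Zset e s x u).length := by
                have hnd : (Zset e s x u).Nodup := he.nd.filter _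
                rw [← List.toFinset_card_of_nodup hnd]
                refine Finset.card_le_card_of_injOn Prod.snd ?_ ?_
                · intro p hp
                  rw [Finset.mem_coe, Finset.mem_filter, List.mem_toFinset] at hp
                  rw [Finset.mem_coe, List.mem_toFinset]
                  obtain ⟨hp, rfl⟩ := hp
                  simp only [Wset, List.mem_filter] at hp
                  simp only [Zset, List.mem_filter]
                  exact ⟨(mem_lits_of_tri he hp.2).2.2, hp.2⟩
                · intro p hp q hq hpq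
                  rw [Finset.mem_coe, Finset.mem_filter] at hp hq
                  exact Prod.ext (hp.2.trans hq.2.symm) hpq
              omega
            · have h7 : ((Wset e s x).toFinset.filter (fun p => p.1 = u)).card = 0 := by
                rw [Finset.card_eq_zero]
                ext p
                simp only [Finset.mem_filter, List.mem_toFinset, Finset.notMem_empty, iff_false]
                rintro ⟨hp, rfl⟩
                simp only [Wset, List.mem_filter] at hp
                exact hul (mem_lits_of_tri he hp.2).2.1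
              have h8 : dg s.1.toFinset s.2.toFinset u = 0 := by
                unfold dg
                rw [Finset.card_eq_zero]
                ext p
                simp only [Finset.mem_filter, Finset.notMem_empty, iff_false]
                rintro ⟨h9, rfl, _⟩
                exact hul (List.mem_toFinset.1 (hs.fi.psub p h9).1)
              omega)
        refine ⟨_, _, rfl, h4, h6, ?_, ?_⟩
        · simp only [List.singleton_append, List.length_singleton] at h5
          omega
        · omega
      · exact Or.inl rfl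

end rules

/-! ### Polynomial time -/

section ptime

variable {V : Type} [DecidableEq V] [SCode V] {α : Type} [SCode α]

theorem adj_ptime {e : α → Env V} {s : α → Nd V} {x y : α → Lit V} (he : PTime e) (hs : PTime s)
    (hx : PTime x) (hy : PTime y) : PTime (fun a => adj (e a) (s a) (x a) (y a)) :=
  PTime.or (mem_ptime (hx.pair hy) (PTime.snd.comp hs))
    (mem_ptime (hx.pair hy) (PTime.snd.comp (PTime.snd.comp he)))

theorem alive_ptime {e : α → Env V} {s : α → Nd V} {c : α → List (Lit V)} (he : PTime e)
    (hs : PTime s) (hc : PTime c) : PTime (fun a => alive (e a) (s a) (c a)) := by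
  refine PTime.and ?_ ?_
  · refine PTime.all (p := fun a x => !decide (x ∈ (s a).1)) hc ?_
    exact PTime.not (mem_ptime PTime.snd ((PTime.fst.comp hs).comp PTime.fst))
  · refine PTime.all (p := fun a x => (c a).all (fun y => !adj (e a) (s a) x y)) hc ?_
    refine PTime.all (p := fun (q : α × Lit V) y => !adj (e q.1) (s q.1) q.2 y)
      (hc.comp PTime.fst) ?_
    exact PTime.not (adj_ptime (he.comp (PTime.fst.comp PTime.fst))
      (hs.comp (PTime.fst.comp PTime.fst)) (PTime.snd.comp PTime.fst) PTime.snd)

theorem isTri_ptime {c : α → List (Lit V)} {x y z : α → Lit V} (hc : PTime c) (hx : PTime x)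
    (hy : PTime y) (hz : PTime z) : PTime (fun a => isTri (c a) (x a) (y a) (z a)) := by
  refine PTime.and (PTime.nat_eq (PTime.length hc) (PTime.const 3)) (PTime.and
    (PTime.and (mem_ptime hx hc) (PTime.and (mem_ptime hy hc) (mem_ptime hz hc)))
    (PTime.and (PTime.not (PTime.eq hx hy)) (PTime.and (PTime.not (PTime.eq hy hz))
      (PTime.not (PTime.eq hx hz)))))

theorem tri_ptime {e : α → Env V} {s : α → Nd V} {x y z : α → Lit V} (he : PTime e)
    (hs : PTime s) (hx : PTime x) (hy : PTime y) (hz : PTime z) :
    PTime (fun a => tri (e a) (s a) (x a) (y a) (z a)) := by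
  refine PTime.any (p := fun a c => alive (e a) (s a) c && isTri c (x a) (y a) (z a))
    (PTime.fst.comp he) ?_
  exact PTime.and (alive_ptime (he.comp PTime.fst) (hs.comp PTime.fst) PTime.snd)
    (isTri_ptime PTime.snd (hx.comp PTime.fst) (hy.comp PTime.fst) (hz.comp PTime.fst))

theorem Yset_ptime {e : α → Env V} {s : α → Nd V} {x : α → Lit V} (he : PTime e)
    (hs : PTime s) (hx : PTime x) : PTime (fun a => Yset (e a) (s a) (x a)) := by
  refine PTime.filter (p := fun a y => (!decide (y = x a) && !decide (y ∈ (s a).1)) &&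
    adj (e a) (s a) (x a) y) (PTime.fst.comp (PTime.snd.comp he)) ?_
  exact PTime.and (PTime.and (PTime.not (PTime.eq PTime.snd (hx.comp PTime.fst)))
    (PTime.not (mem_ptime PTime.snd ((PTime.fst.comp hs).comp PTime.fst))))
    (adj_ptime (he.comp PTime.fst) (hs.comp PTime.fst) (hx.comp PTime.fst) PTime.snd)

theorem Zset_ptime {e : α → Env V} {s : α → Nd V} {x y : α → Lit V} (he : PTime e)
    (hs : PTime s) (hx : PTime x) (hy : PTime y) :
    PTime (fun a => Zset (e a) (s a) (x a) (y a)) := by
  refine PTime.filter (p := fun a z => tri (e a) (s a) (x a) (y a) z)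
    (PTime.fst.comp (PTime.snd.comp he)) ?_
  exact tri_ptime (he.comp PTime.fst) (hs.comp PTime.fst) (hx.comp PTime.fst)
    (hy.comp PTime.fst) PTime.snd

theorem lits2_ptime {e : α → Env V} (he : PTime e) :
    PTime (fun a => (e a).2.1.product (e a).2.1) :=
  PTime.product (PTime.fst.comp (PTime.snd.comp he)) (PTime.fst.comp (PTime.snd.comp he))

theorem Wset_ptime {e : α → Env V} {s : α → Nd V} {x : α → Lit V} (he : PTime e)
    (hs : PTime s) (hx : PTime x) : PTime (fun a => Wset (e a) (s a) (x a)) := by
  refine PTime.filter (p := fun a (p : Lit V × Lit V) => tri (e a) (s a) (x a) p.1 p.2)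
    (lits2_ptime he) ?_
  exact tri_ptime (he.comp PTime.fst) (hs.comp PTime.fst) (hx.comp PTime.fst)
    (PTime.fst.comp PTime.snd) (PTime.snd.comp PTime.snd)

theorem find1_ptime (θ : ℕ) {e : α → Env V} {s : α → Nd V} (he : PTime e) (hs : PTime s) :
    PTime (fun a => find1 θ (e a) (s a)) := by
  refine PTime.find? (p := fun a x => !decide (x ∈ (s a).1) &&
    decide (θ ≤ (Yset (e a) (s a) x).length)) (PTime.fst.comp (PTime.snd.comp he)) ?_
  exact PTime.and (PTime.not (mem_ptime PTime.snd ((PTime.fst.comp hs).comp PTime.fst)))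
    (PTime.nat_le (PTime.const θ) (PTime.length (Yset_ptime (he.comp PTime.fst)
      (hs.comp PTime.fst) PTime.snd)))

theorem find2_ptime (θ : ℕ) {e : α → Env V} {s : α → Nd V} (he : PTime e) (hs : PTime s) :
    PTime (fun a => find2 θ (e a) (s a)) := by
  refine PTime.find? (p := fun a (p : Lit V × Lit V) =>
    decide (θ ≤ (Zset (e a) (s a) p.1 p.2).length)) (lits2_ptime he) ?_
  exact PTime.nat_le (PTime.const θ) (PTime.length (Zset_ptime (he.comp PTime.fst)
    (hs.comp PTime.fst) (PTime.fst.comp PTime.snd) (PTime.snd.comp PTime.snd)))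

theorem find3_ptime (θ : ℕ) {e : α → Env V} {s : α → Nd V} (he : PTime e) (hs : PTime s) :
    PTime (fun a => find3 θ (e a) (s a)) := by
  refine PTime.find? (p := fun a x => decide (θ * θ ≤ (Wset (e a) (s a) x).length))
    (PTime.fst.comp (PTime.snd.comp he)) ?_
  exact PTime.nat_le (PTime.const (θ * θ)) (PTime.length (Wset_ptime (he.comp PTime.fst)
    (hs.comp PTime.fst) PTime.snd))

theorem rule_ptime (θ : ℕ) {e : α → Env V} {s : α → Nd V} (he : PTime e) (hs : PTime s) :
    PTime (fun a => rule θ (e a) (s a)) := by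
  have hs1 : PTime (fun a => (s a).1) := PTime.fst.comp hs
  have hs2 : PTime (fun a => (s a).2) := PTime.snd.comp hs
  -- the three outcomes
  have o1 : PTime (fun q : α × Lit V => (some ((q.2 :: (s q.1).1, (s q.1).2),
      (Yset (e q.1) (s q.1) q.2 ++ (s q.1).1, (s q.1).2)) : Option (Nd V × Nd V))) :=
    PTime.some (((PTime.cons PTime.snd (hs1.comp PTime.fst)).pair (hs2.comp PTime.fst)).pair
      ((PTime.append (Yset_ptime (he.comp PTime.fst) (hs.comp PTime.fst) PTime.snd)
        (hs1.comp PTime.fst)).pair (hs2.comp PTime.fst)))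
  have o2 : PTime (fun q : α × (Lit V × Lit V) =>
      (some (((s q.1).1, q.2 :: (q.2.2, q.2.1) :: (s q.1).2),
        (Zset (e q.1) (s q.1) q.2.1 q.2.2 ++ (s q.1).1, (s q.1).2)) :
        Option (Nd V × Nd V))) := by
    have h1 : PTime (fun q : α × (Lit V × Lit V) => q.2.1) := PTime.fst.comp PTime.snd
    have h2 : PTime (fun q : α × (Lit V × Lit V) => q.2.2) := PTime.snd.comp PTime.snd
    exact PTime.some (((hs1.comp PTime.fst).pair (PTime.cons PTime.snd (PTime.cons
      (h2.pair h1) (hs2.comp PTime.fst)))).pair
      ((PTime.append (Zset_ptime (he.comp PTime.fst) (hs.comp PTime.fst) h1 h2)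
        (hs1.comp PTime.fst)).pair (hs2.comp PTime.fst)))
  have o3 : PTime (fun q : α × Lit V => (some ((q.2 :: (s q.1).1, (s q.1).2),
      ((s q.1).1, Wset (e q.1) (s q.1) q.2 ++ (s q.1).2)) : Option (Nd V × Nd V))) :=
    PTime.some (((PTime.cons PTime.snd (hs1.comp PTime.fst)).pair (hs2.comp PTime.fst)).pair
      ((hs1.comp PTime.fst).pair (PTime.append (Wset_ptime (he.comp PTime.fst)
        (hs.comp PTime.fst) PTime.snd) (hs2.comp PTime.fst))))
  have h3 := PTime.option_casesOn (f := fun a => find3 θ (e a) (s a))
    (g := fun _ => (none : Option (Nd V × Nd V)))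
    (h := fun a x => (some ((x :: (s a).1, (s a).2), ((s a).1, Wset (e a) (s a) x ++ (s a).2)) :
      Option (Nd V × Nd V))) (find3_ptime θ he hs) (PTime.const none) o3
  have h2 := PTime.option_casesOn (f := fun a => find2 θ (e a) (s a))
    (h := fun a (p : Lit V × Lit V) => (some (((s a).1, p :: (p.2, p.1) :: (s a).2),
      (Zset (e a) (s a) p.1 p.2 ++ (s a).1, (s a).2)) : Option (Nd V × Nd V)))
    (find2_ptime θ he hs) h3 o2
  have h1 := PTime.option_casesOn (f := fun a => find1 θ (e a) (s a))
    (h := fun a x => (some ((x :: (s a).1, (s a).2), (Yset (e a) (s a) x ++ (s a).1, (s a).2)) :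
      Option (Nd V × Nd V))) (find1_ptime θ he hs) h2 o1
  refine h1.of_eq fun a => ?_
  unfold rule
  cases find1 θ (e a) (s a) with
  | some x => rfl
  | none =>
    cases find2 θ (e a) (s a) with
    | some p => rfl
    | none =>
      cases find3 θ (e a) (s a) with
      | some x => rfl
      | none => rfl

end ptime

end Pool.Agent.Lib.MP_87d05f_lc
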