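import Mathlib
import Pool.Agent.Lib.MP_87d05f_lc.Branch

set_option autoImplicit false

/-!
# Reading the formula
-/

namespace Pool.Agent.Lib.MP_87d05f_lc

open Pool.Agent.PolyTime Function

/-- the encoding of the problem -/
def encF (F : List (List (Bool × ℕ))) : List Bool :=
  F.flatMap (fun c => c.flatMap (fun l => [true, l.1] ++
    (Nat.bits l.2).flatMap (fun x => [true, x]) ++ [false, false]) ++ [false, true])

/-- the action of a pair of bits, from right to left -/
def pact (b₁ b₂ : Bool) (s : List (List (List Bool))) : List (List (List Bool)) :=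
  bif b₁ then (List.casesOn s [] (fun c r =>
      List.casesOn c ([] :: r) (fun l c' => ((b₂ :: l) :: c') :: r)))
  else bif b₂ then [] :: s
  else (List.casesOn s [] (fun c r => ([] :: c) :: r))

def pstep (b : Bool) (s : Option Bool × List (List (List Bool))) :
    Option Bool × List (List (List Bool)) :=
  (Option.casesOn s.1 (some b, s.2) (fun b₂ => (none, pact b b₂ s.2)))

/-- the literal of a bit string -/
def toLit (w : List Bool) : Lit (List Bool) := (w.headD false, w.tail)

def parse (x : List Bool) : List (List (Lit (List Bool))) :=
  (x.foldr pstep (none, [])).2.map (fun c => c.map toLit)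

theorem foldr_bits (w : List Bool) (l : List Bool) (c : List (List Bool))
    (r : List (List (List Bool))) :
    (w.flatMap (fun x => [true, x])).foldr pstep (none, (l :: c) :: r) =
      (none, ((w ++ l) :: c) :: r) := by
  induction w with
  | nil => rfl
  | cons b w ih =>
    rw [List.flatMap_cons, List.foldr_append, ih]
    rfl

theorem foldr_lit (sg : Bool) (n : ℕ) (c : List (List Bool)) (r : List (List (List Bool))) :
    ([true, sg] ++ (Nat.bits n).flatMap (fun x => [true, x]) ++ [false, false]).foldr pstep
      (none, c :: r) = (none, ((sg :: Nat.bits n) :: c) :: r) := by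
  have h : ([false, false] : List Bool).foldr pstep (none, c :: r) = (none, ([] :: c) :: r) := rfl
  rw [List.foldr_append, h, List.foldr_append, foldr_bits, List.append_nil]
  rfl

theorem foldr_clause (c : List (Bool × ℕ)) (d : List (List Bool)) (r : List (List (List Bool))) :
    (c.flatMap (fun l => [true, l.1] ++ (Nat.bits l.2).flatMap (fun x => [true, x]) ++
      [false, false])).foldr pstep (none, d :: r) =
      (none, (c.map (fun l => l.1 :: Nat.bits l.2) ++ d) :: r) := by
  induction c with
  | nil => rfl
  | cons l c ih =>
    rw [List.flatMap_cons, List.foldr_append, ih, foldr_lit]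
    rfl

theorem foldr_encF (F : List (List (Bool × ℕ))) (r : List (List (List Bool))) :
    (encF F).foldr pstep (none, r) =
      (none, F.map (fun c => c.map (fun l => l.1 :: Nat.bits l.2)) ++ r) := by
  induction F with
  | nil => rfl
  | cons c F ih =>
    have h : ([false, true] : List Bool).foldr pstep
        (none, F.map (fun c => c.map (fun l => l.1 :: Nat.bits l.2)) ++ r) =
        (none, [] :: (F.map (fun c => c.map (fun l => l.1 :: Nat.bits l.2)) ++ r)) := rfl
    unfold encF at ih ⊢
    rw [List.flatMap_cons, List.foldr_append, ih, List.foldr_append, h, foldr_clause]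
    simp

/-- the formula with variables coded in binary -/
def binF (F : List (List (Bool × ℕ))) : List (List (Lit (List Bool))) :=
  F.map (fun c => c.map (fun l => (l.1, Nat.bits l.2)))

theorem parse_encF (F : List (List (Bool × ℕ))) : parse (encF F) = binF F := by
  unfold parse binF
  rw [foldr_encF]
  simp [toLit]

theorem sz_cons_le_of {α : Type} [SCode α] {l l' : List α} {a : α} (h : sz l ≤ sz l') :
    sz (a :: l) ≤ sz (a :: l') := by
  simp only [sz_cons]; omega

theorem parse_ptime : PTime parse := by
  have hpact : PTime (fun p : (Bool × Bool) × List (List (List Bool)) =>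
      pact p.1.1 p.1.2 p.2) := by
    unfold pact
    refine PTime.cond (PTime.fst.comp PTime.fst) ?_ (PTime.cond (PTime.snd.comp PTime.fst) ?_ ?_)
    · refine PTime.list_casesOn (f := fun p : (Bool × Bool) × List (List (List Bool)) => p.2)
        (g := fun _ => ([] : List (List (List Bool))))
        (h := fun p c r => (List.casesOn c ([] :: r) (fun l c' => ((p.1.2 :: l) :: c') :: r) :
          List (List (List Bool)))) PTime.snd (PTime.const _) ?_
      refine PTime.list_casesOn
        (f := fun q : ((Bool × Bool) × List (List (List Bool))) × List (List Bool) ×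
          List (List (List Bool)) => q.2.1)
        (g := fun q => [] :: q.2.2)
        (h := fun q l c' => ((q.1.1.2 :: l) :: c') :: q.2.2) (PTime.fst.comp PTime.snd) ?_ ?_
      · exact PTime.cons (PTime.const []) (PTime.snd.comp PTime.snd)
      · exact PTime.cons (PTime.cons (PTime.cons ((PTime.snd.comp PTime.fst).comp
          (PTime.fst.comp PTime.fst)) (PTime.fst.comp PTime.snd)) (PTime.snd.comp PTime.snd))
          ((PTime.snd.comp PTime.snd).comp PTime.fst)
    · exact PTime.cons (PTime.const []) PTime.snd
    · refine PTime.list_casesOn (f := fun p : (Bool × Bool) × List (List (List Bool)) => p.2)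
        (g := fun _ => ([] : List (List (List Bool))))
        (h := fun p c r => ([] :: c) :: r) PTime.snd (PTime.const _) ?_
      exact PTime.cons (PTime.cons (PTime.const []) (PTime.fst.comp PTime.snd))
        (PTime.snd.comp PTime.snd)
  have hstep : PTime (fun p : List Bool × Bool × (Option Bool × List (List (List Bool))) =>
      pstep p.2.1 p.2.2) := by
    unfold pstep
    have hb : PTime (fun p : List Bool × Bool × (Option Bool × List (List (List Bool))) =>
        p.2.1) := PTime.fst.comp PTime.snd
    have ho : PTime (fun p : List Bool × Bool × (Option Bool × List (List (List Bool))) =>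
        p.2.2.1) := PTime.fst.comp (PTime.snd.comp PTime.snd)
    have hs : PTime (fun p : List Bool × Bool × (Option Bool × List (List (List Bool))) =>
        p.2.2.2) := PTime.snd.comp (PTime.snd.comp PTime.snd)
    refine PTime.option_casesOn
      (f := fun p : List Bool × Bool × (Option Bool × List (List (List Bool))) => p.2.2.1)
      (g := fun p => ((some p.2.1, p.2.2.2) : Option Bool × List (List (List Bool))))
      (h := fun p b₂ => ((none, pact p.2.1 b₂ p.2.2.2) :
        Option Bool × List (List (List Bool)))) ho ((PTime.some hb).pair hs) ?_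
    refine (PTime.const none).pair ?_
    exact hpact.comp (((hb.comp PTime.fst).pair PTime.snd).pair (hs.comp PTime.fst))
  have hsz : ∀ (b₁ b₂ : Bool) (s : List (List (List Bool))), sz (pact b₁ b₂ s) ≤ sz s + 4 := by
    intro b₁ b₂ s
    have hb := sz_bool_le b₂
    unfold pact
    rcases b₁ with _ | _ <;> rcases b₂ with _ | _ <;> rcases s with _ | ⟨c, r⟩ <;>
      simp only [cond_true, cond_false, sz_nil, sz_cons] <;> try omega
    · rcases c with _ | ⟨l, c'⟩
      · simp only [sz_cons, sz_nil]; omega
      · simp only [sz_cons, sz_false]; omega
    · rcases c with _ | ⟨l, c'⟩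
      · simp only [sz_cons, sz_nil]; omega
      · simp only [sz_cons, sz_true]; omega
  have hfold : PTime (fun x : List Bool => x.foldr pstep (none, [])) := by
    refine PTime.foldr (f := fun (_ : List Bool) b s => pstep b s) PTime.id (PTime.const _) hstep
      (Polynomial.C 10) ?_
    intro a s b _
    rcases s with ⟨o, s⟩
    have hb := sz_bool_le b
    rcases o with _ | b₂
    · simp only [pstep, sz_pair, sz_none, sz_some, Polynomial.eval_C]
      omega
    · have := hsz b b₂ s
      simp only [pstep, sz_pair, sz_none, sz_some, Polynomial.eval_C]
      omega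
  have hlit : PTime toLit :=
    (PTime.headD PTime.id (PTime.const false)).pair (PTime.tail PTime.id)
  refine PTime.map (f := fun (_ : List Bool) (c : List (List Bool)) => c.map toLit)
    (PTime.snd.comp hfold) ?_
  exact PTime.map (f := fun (_ : List Bool × List (List Bool)) w => toLit w) PTime.snd
    (hlit.comp PTime.snd)

/-! ### Removing repetitions -/

section ded

variable {α : Type} [DecidableEq α]

/-- remove repetitions -/
def ded (l : List α) : List α := l.foldr (fun a r => bif decide (a ∈ r) then r else a :: r) []

theorem ded_cons (a : α) (l : List α) :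
    ded (a :: l) = bif decide (a ∈ ded l) then ded l else a :: ded l := rfl

theorem mem_ded {l : List α} {a : α} : a ∈ ded l ↔ a ∈ l := by
  induction l with
  | nil => rfl
  | cons b l ih =>
    rw [ded_cons]
    by_cases hb : b ∈ ded l
    · simp only [hb, decide_true, cond_true, List.mem_cons, ih]
      constructor
      · exact Or.inr
      · rintro (rfl | h)
        · exact ih.1 hb
        · exact h
    · simp only [hb, decide_false, cond_false, List.mem_cons, ih]

theorem nodup_ded (l : List α) : (ded l).Nodup := by
  induction l with
  | nil => exact List.nodup_nil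
  | cons b l ih =>
    rw [ded_cons]
    by_cases hb : b ∈ ded l
    · simp only [hb, decide_true, cond_true]
      exact ih
    · simp only [hb, decide_false, cond_false]
      exact List.nodup_cons.2 ⟨hb, ih⟩

theorem ded_toFinset (l : List α) : (ded l).toFinset = l.toFinset := by
  ext a
  rw [List.mem_toFinset, List.mem_toFinset, mem_ded]

theorem ded_length (l : List α) : (ded l).length = l.toFinset.card := by
  rw [← ded_toFinset, List.toFinset_card_of_nodup (nodup_ded l)]

theorem ded_ptime {β : Type} [SCode α] [SCode β] {l : β → List α} (hl : PTime l) :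
    PTime (fun a => ded (l a)) := by
  have h : PTime (fun l : List α => ded l) := by
    refine PTime.foldr (f := fun (_ : List α) a r => bif decide (a ∈ r) then r else a :: r)
      PTime.id (PTime.const []) ?_ (Polynomial.X + 1) ?_
    · exact PTime.cond (mem_ptime (PTime.fst.comp PTime.snd) (PTime.snd.comp PTime.snd))
        (PTime.snd.comp PTime.snd) (PTime.cons (PTime.fst.comp PTime.snd)
          (PTime.snd.comp PTime.snd))
    · intro a s b hb
      have := sz_le_of_mem hb
      simp only [Polynomial.eval_add, Polynomial.eval_X, Polynomial.eval_one]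
      by_cases h : b ∈ s
      · simp only [h, decide_true, cond_true]; omega
      · simp only [h, decide_false, cond_false, sz_cons]; omega
  exact h.comp hl

end ded

/-! ### The formula as an environment -/

section env

variable {V : Type} [DecidableEq V]

/-- the pairs of the two-literal clauses -/
def mkPairs (c : List (List (Lit V))) (L : List (Lit V)) : List (Lit V × Lit V) :=
  (L.product L).filter (fun p => decide ([p.1, p.2] ∈ c) || decide ([p.2, p.1] ∈ c))

/-- the environment of a formula -/
def mkEnv (cl : List (List (Lit V))) : Env V :=
  (cl.map ded, ded (cl.map ded).flatten,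
    mkPairs (cl.map ded) (ded (cl.map ded).flatten))

theorem mkEnv_WF (cl : List (List (Lit V))) : WF (mkEnv cl) := by
  have hsub : ∀ c ∈ (mkEnv cl).1, ∀ l ∈ c, l ∈ (mkEnv cl).2.1 := by
    intro c hc l hl
    exact mem_ded.2 (List.mem_flatten.2 ⟨c, hc, hl⟩)
  refine ⟨nodup_ded _, ?_, hsub, ?_⟩
  · intro c hc
    obtain ⟨d, _, rfl⟩ := List.mem_map.1 hc
    exact nodup_ded d
  · intro x y
    change (x, y) ∈ mkPairs (cl.map ded) (ded (cl.map ded).flatten) ↔ _
    unfold mkPairs
    simp only [List.mem_filter, List.pair_mem_product, Bool.or_eq_true, decide_eq_true_eq]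
    constructor
    · rintro ⟨_, h⟩
      exact h
    · intro h
      refine ⟨?_, h⟩
      rcases h with h | h
      · exact ⟨hsub _ h x (by simp), hsub _ h y (by simp)⟩
      · exact ⟨hsub _ h x (by simp), hsub _ h y (by simp)⟩

theorem mkEnv_ptime {α : Type} [SCode α] [SCode V] {cl : α → List (List (Lit V))}
    (h : PTime cl) : PTime (fun a => mkEnv (cl a)) := by
  have h1 : PTime (fun a => (cl a).map ded) :=
    PTime.map (f := fun (_ : α) c => ded c) h (ded_ptime PTime.snd)
  have h2 : PTime (fun a => ded ((cl a).map ded).flatten) := ded_ptime (PTime.flatten h1)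
  refine h1.pair (h2.pair ?_)
  refine PTime.filter (p := fun a (p : Lit V × Lit V) => decide ([p.1, p.2] ∈ (cl a).map ded) ||
    decide ([p.2, p.1] ∈ (cl a).map ded)) (PTime.product h2 h2) ?_
  have h3 : PTime (fun q : α × (Lit V × Lit V) => q.2.1) := PTime.fst.comp PTime.snd
  have h4 : PTime (fun q : α × (Lit V × Lit V) => q.2.2) := PTime.snd.comp PTime.snd
  exact PTime.or
    (mem_ptime (PTime.cons h3 (PTime.cons h4 (PTime.const []))) (h1.comp PTime.fst))
    (mem_ptime (PTime.cons h4 (PTime.cons h3 (PTime.const []))) (h1.comp PTime.fst))

end env

end Pool.Agent.Lib.MP_87d05f_lc
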