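import Mathlib
import Pool.Agent.Lib.MP_87d05f_lc.Parse

set_option autoImplicit false

/-!
# Thinning out a list with many repetitions
-/

namespace Pool.Agent.Lib.MP_87d05f_lc

open Pool.Agent.PolyTime Function

/-- division, computable in polynomial time in unary -/
def mydiv (n g : ℕ) : ℕ := ((List.range n).filter (fun q => decide ((q + 1) * g ≤ n))).length

theorem mydiv_eq {n g : ℕ} (hg : 1 ≤ g) : mydiv n g = n / g := by
  unfold mydiv
  have h1 : (List.range n).filter (fun q => decide ((q + 1) * g ≤ n)) =
      (List.range n).filter (fun q => decide (q < n / g)) := by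
    refine List.filter_congr fun q _ => ?_
    rw [Bool.eq_iff_iff, decide_eq_true_eq, decide_eq_true_eq, Nat.lt_iff_add_one_le,
      Nat.le_div_iff_mul_le hg]
  rw [h1]
  have h2 : n / g ≤ n := Nat.div_le_self n g
  obtain ⟨m, hm⟩ := Nat.exists_eq_add_of_le h2
  generalize n / g = d at *
  subst hm
  rw [List.range_eq_range', ← List.range'_append_1 (s := 0), List.filter_append]
  have h3 : (List.range' 0 d).filter (fun q => decide (q < d)) = List.range' 0 d := by
    rw [List.filter_eq_self]
    intro a ha
    rw [List.mem_range'_1] at ha
    simpa using ha.2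
  have h4 : (List.range' (0 + d) m).filter (fun q => decide (q < d)) = [] := by
    rw [List.filter_eq_nil_iff]
    intro a ha
    rw [List.mem_range'_1] at ha
    simp only [decide_eq_true_eq]
    omega
  rw [h3, h4]
  simp

theorem mydiv_ptime {α : Type} [SCode α] {n g : α → ℕ} (hn : PTime n) (hg : PTime g) :
    PTime (fun a => mydiv (n a) (g a)) := by
  unfold mydiv
  refine PTime.length (PTime.filter (p := fun a q => decide ((q + 1) * g a ≤ n a))
    (PTime.range hn) ?_)
  exact PTime.nat_le (PTime.mul (PTime.succ PTime.snd) (hg.comp PTime.fst)) (hn.comp PTime.fst)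

section thin

variable {α : Type} [DecidableEq α]

/-- how often `t` occurs -/
def cnt (l : List α) (t : α) : ℕ := (l.filter (fun s => decide (s = t))).length

theorem cnt_eq (l : List α) (t : α) : cnt l t = l.count t := by
  unfold cnt
  rw [List.count_eq_length_filter]
  congr 1

/-- keep (about) every `g`-th copy of each element -/
def thin (g : ℕ) (l : List α) : List α :=
  (ded l).flatMap (fun t => List.replicate (mydiv (cnt l t) g) t)

theorem mem_of_mem_thin {g : ℕ} {l : List α} {t : α} (h : t ∈ thin g l) : t ∈ l := by
  unfold thin at h
  obtain ⟨s, hs, h⟩ := List.mem_flatMap.1 h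
  rw [(List.mem_replicate.1 h).2]
  exact mem_ded.1 hs

theorem countP_eq_sum (f : α → Bool) (l : List α) :
    l.countP f = ((ded l).map (fun t => if f t then l.count t else 0)).sum := by
  have h : ∀ (d : List α), d.Nodup → ∀ l : List α, (∀ x ∈ l, x ∈ d) →
      l.countP f = (d.map (fun t => if f t then l.count t else 0)).sum := by
    intro d hd l
    induction l with
    | nil => intro _; simp
    | cons a l ih =>
      intro hl
      have ih := ih (fun x hx => hl x (List.mem_cons_of_mem _ hx))
      have ha := hl a List.mem_cons_self
      rw [List.countP_cons, ih]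
      have e : ∀ t, (if f t then (a :: l).count t else 0) =
          (if f t then l.count t else 0) + (if t = a then (if f a then 1 else 0) else 0) := by
        intro t
        rw [List.count_cons]
        by_cases hta : t = a
        · subst hta
          cases f t <;> simp
        · have : (a == t) = false := by simpa using fun h => hta h.symm
          rw [this, if_neg hta]
          simp
      simp only [e]
      rw [List.sum_map_add]
      congr 1
      rw [← List.sum_toFinset _ hd]
      simp [ha]
  exact h (ded l) (nodup_ded l) l (fun x hx => mem_ded.2 hx)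

theorem thin_countP (g : ℕ) (f : α → Bool) (l : List α) :
    (thin g l).countP f = ((ded l).map (fun t => if f t then mydiv (cnt l t) g else 0)).sum := by
  unfold thin
  rw [List.countP_flatMap]
  congr 1
  refine List.map_congr_left fun t _ => ?_
  simp only [Function.comp]
  rw [List.countP_replicate]

theorem sum_map_le {β : Type} (l : List β) (f g : β → ℕ) (h : ∀ b ∈ l, f b ≤ g b) :
    (l.map f).sum ≤ (l.map g).sum := by
  induction l with
  | nil => simp
  | cons b l ih =>
    have h1 := h b List.mem_cons_self
    have h2 := ih (fun c hc => h c (List.mem_cons_of_mem _ hc))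
    simp only [List.map_cons, List.sum_cons]
    omega

theorem sum_map_mul {β : Type} (l : List β) (f : β → ℕ) (g : ℕ) :
    g * (l.map f).sum = (l.map (fun b => g * f b)).sum := by
  induction l with
  | nil => simp
  | cons b l ih =>
    simp only [List.map_cons, List.sum_cons, Nat.mul_add, ih]

theorem thin_upper {g : ℕ} (hg : 1 ≤ g) (f : α → Bool) (l : List α) :
    g * (thin g l).countP f ≤ l.countP f := by
  rw [thin_countP, countP_eq_sum, sum_map_mul]
  refine sum_map_le _ _ _ fun t _ => ?_
  rw [mydiv_eq hg, cnt_eq]
  cases f t
  · simp
  · simpa using Nat.mul_div_le (l.count t) g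

theorem thin_length {g : ℕ} (hg : 1 ≤ g) (l : List α) : g * (thin g l).length ≤ l.length := by
  simpa using thin_upper hg (fun _ => true) l

theorem thin_lower {g : ℕ} (hg : 1 ≤ g) (f : α → Bool) (l : List α) :
    l.countP f ≤ g * (thin g l).countP f + (g - 1) * (ded l).length := by
  rw [thin_countP, countP_eq_sum, sum_map_mul]
  have h : (g - 1) * (ded l).length = ((ded l).map (fun _ => g - 1)).sum := by
    simp [Nat.mul_comm]
  rw [h, ← List.sum_map_add]
  refine sum_map_le _ _ _ fun t _ => ?_
  rw [mydiv_eq hg, cnt_eq]
  cases f t
  · simp
  · simp only [if_true]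
    have h1 := Nat.div_add_mod (l.count t) g
    have h2 := Nat.mod_lt (l.count t) hg
    omega

theorem cnt_ptime {β : Type} [SCode α] [SCode β] {l : β → List α} {t : β → α} (hl : PTime l)
    (ht : PTime t) : PTime (fun a => cnt (l a) (t a)) :=
  PTime.length (PTime.filter (p := fun a s => decide (s = t a)) hl
    (PTime.eq PTime.snd (ht.comp PTime.fst)))

theorem thin_ptime {β : Type} [SCode α] [SCode β] {g : β → ℕ} {l : β → List α} (hg : PTime g)
    (hl : PTime l) : PTime (fun a => thin (g a) (l a)) := by
  unfold thin
  refine PTime.flatMap (f := fun a t => List.replicate (mydiv (cnt (l a) t) (g a)) t)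
    (ded_ptime hl) ?_
  exact PTime.replicate (mydiv_ptime (cnt_ptime (hl.comp PTime.fst) PTime.snd)
    (hg.comp PTime.fst)) PTime.snd

end thin

end Pool.Agent.Lib.MP_87d05f_lc
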