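import Mathlib
import Pool.Agent.Lib.MP_87d05f_lc.Thin

set_option autoImplicit false

/-!
# The sparse formula at a leaf of the branching process
-/

namespace Pool.Agent.Lib.MP_87d05f_lc

open Pool.Agent.PolyTime Function

section fals

variable {V : Type} [DecidableEq V]

/-- the clause is falsified -/
def falsB (a : V → Bool) (c : List (Lit V)) : Bool := !(c.any (fun l => a l.2 == l.1))

omit [DecidableEq V] in
theorem falsB_iff {a : V → Bool} {c : List (Lit V)} :
    falsB a c = true ↔ ∀ l ∈ c, ¬ tr a l := by
  unfold falsB tr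
  simp only [Bool.not_eq_true', List.any_eq_false, beq_iff_eq]

omit [DecidableEq V] in
theorem falsB_false {a : V → Bool} {c : List (Lit V)} :
    falsB a c = false ↔ ∃ l ∈ c, tr a l := by
  rw [← Bool.not_eq_true, falsB_iff]
  push Not
  rfl

theorem falsB_ded (a : V → Bool) (c : List (Lit V)) : falsB a (ded c) = falsB a c := by
  rw [Bool.eq_iff_iff, falsB_iff, falsB_iff]
  simp only [mem_ded]

theorem countP_falsB_ded (a : V → Bool) (cl : List (List (Lit V))) :
    (cl.map ded).countP (falsB a) = cl.countP (falsB a) := by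
  rw [List.countP_map]
  congr 1
  funext c
  exact falsB_ded a c

end fals

section types

variable {V : Type} [DecidableEq V]

/-- the implied subclause at a node -/
def tcl (e : Env V) (s : Nd V) (c : List (Lit V)) : List (Lit V) :=
  (Option.casesOn (c.find? (fun x => decide (x ∈ s.1)))
    (Option.casesOn ((c.product c).find? (fun p => adj e s p.1 p.2)) c (fun p => [p.1, p.2]))
    (fun x => [x]))

/-- the three cases -/
theorem tcl_cases (e : Env V) (s : Nd V) (c : List (Lit V)) :
    (∃ x ∈ c, x ∈ s.1 ∧ tcl e s c = [x]) ∨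
    ((∀ x ∈ c, x ∉ s.1) ∧ ∃ x ∈ c, ∃ y ∈ c, adj e s x y = true ∧ tcl e s c = [x, y]) ∨
    ((∀ x ∈ c, x ∉ s.1) ∧ (∀ x ∈ c, ∀ y ∈ c, adj e s x y = false) ∧ tcl e s c = c) := by
  unfold tcl
  rcases h : c.find? (fun x => decide (x ∈ s.1)) with _ | x
  · right
    have h1 : ∀ x ∈ c, x ∉ s.1 := by
      rw [List.find?_eq_none] at h
      intro x hx hxs
      exact h x hx (by simpa using hxs)
    rcases h' : (c.product c).find? (fun p => adj e s p.1 p.2) with _ | p
    · right
      refine ⟨h1, fun x hx y hy => ?_, by simp only [h']⟩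
      rw [List.find?_eq_none] at h'
      have := h' (x, y) (List.pair_mem_product.2 ⟨hx, hy⟩)
      simpa using this
    · left
      have h2 := List.mem_of_find?_eq_some h'
      have h3 := List.find?_some h'
      rcases p with ⟨x, y⟩
      obtain ⟨hx, hy⟩ := List.pair_mem_product.1 h2
      exact ⟨h1, x, hx, y, hy, h3, by simp only [h']⟩
  · left
    have h2 := List.mem_of_find?_eq_some h
    have h3 := List.find?_some h
    exact ⟨x, h2, by simpa using h3, rfl⟩

theorem tcl_sub {e : Env V} {s : Nd V} {c : List (Lit V)} : ∀ l ∈ tcl e s c, l ∈ c := by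
  intro l hl
  rcases tcl_cases e s c with ⟨x, hx, _, h⟩ | ⟨_, x, hx, y, hy, _, h⟩ | ⟨_, _, h⟩
  · rw [h, List.mem_singleton] at hl
    rw [hl]; exact hx
  · rw [h] at hl
    simp only [List.mem_cons, List.not_mem_nil, or_false] at hl
    rcases hl with rfl | rfl
    · exact hx
    · exact hy
  · rwa [h] at hl

theorem tcl_length {e : Env V} {s : Nd V} {c : List (Lit V)} (hc : c.length ≤ 3) :
    (tcl e s c).length ≤ 3 := by
  rcases tcl_cases e s c with ⟨x, hx, _, h⟩ | ⟨_, x, hx, y, hy, _, h⟩ | ⟨_, _, h⟩
  · rw [h]; simp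
  · rw [h]; simp
  · rw [h]; exact hc

theorem tcl_sat {e : Env V} {s : Nd V} (he : WF e) {a : V → Bool} (h1 : FSat a e)
    (h2 : NSat a s) {c : List (Lit V)} (hc : c ∈ e.1) : ∃ l ∈ tcl e s c, tr a l := by
  rcases tcl_cases e s c with ⟨x, _, hx, h⟩ | ⟨_, x, _, y, _, hxy, h⟩ | ⟨_, _, h⟩
  · rw [h]
    exact ⟨x, by simp, h2.1 x hx⟩
  · rw [h]
    rcases adj_sound he h1 h2 hxy with h | h
    · exact ⟨x, by simp, h⟩
    · exact ⟨y, by simp, h⟩
  · rw [h]
    exact h1 c hc

theorem tcl_fals (e : Env V) (s : Nd V) (a : V → Bool) :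
    e.1.countP (falsB a) ≤ (e.1.map (tcl e s)).countP (falsB a) := by
  rw [List.countP_map]
  refine List.countP_mono_left fun c _ h => ?_
  simp only [Function.comp]
  rw [falsB_iff] at h ⊢
  exact fun l hl => h l (tcl_sub l hl)

/-- number of different subclauses at a leaf -/
theorem types_le {θ : ℕ} {e : Env V} {s : Nd V} (he : WF e) (hs : Inv θ e s)
    (hr : rule θ e s = none) (h3 : ∀ c ∈ e.1, c.length ≤ 3) (h0 : [] ∉ e.1) :
    (ded (e.1.map (tcl e s))).length ≤ (1 + θ + θ * θ) * e.2.1.length := by
  obtain ⟨r1, r2, r3⟩ := rule_none hr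
  rw [ded_length]
  set L := e.2.1.toFinset with hL
  have hLc : L.card = e.2.1.length := List.toFinset_card_of_nodup he.nd
  set A : Finset (List (Lit V)) := L.image (fun x => [x]) with hA
  set B : Finset (List (Lit V)) := (L.filter (fun x => x ∉ s.1)).biUnion
    (fun x => (Yset e s x).toFinset.image (fun y => [x, y])) with hB
  set C : Finset (List (Lit V)) := L.biUnion
    (fun x => (Wset e s x).toFinset.image (fun p => [x, p.1, p.2])) with hC
  have hsub : (e.1.map (tcl e s)).toFinset ⊆ A ∪ B ∪ C := by
    intro t ht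
    rw [List.mem_toFinset, List.mem_map] at ht
    obtain ⟨c, hc, rfl⟩ := ht
    have hcL : ∀ l ∈ c, l ∈ L := fun l hl => List.mem_toFinset.2 (he.csub c hc l hl)
    rcases tcl_cases e s c with ⟨x, hx, _, h⟩ | ⟨h1, x, hx, y, hy, hxy, h⟩ | ⟨h1, h2, h⟩
    · rw [h]
      exact Finset.mem_union_left _ (Finset.mem_union_left _
        (Finset.mem_image.2 ⟨x, hcL x hx, rfl⟩))
    · rw [h]
      refine Finset.mem_union_left _ (Finset.mem_union_right _ ?_)
      rw [hB, Finset.mem_biUnion]
      refine ⟨x, Finset.mem_filter.2 ⟨hcL x hx, h1 x hx⟩, Finset.mem_image.2 ⟨y, ?_, rfl⟩⟩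
      rw [List.mem_toFinset]
      simp only [Yset, List.mem_filter, Bool.and_eq_true, Bool.not_eq_true',
        decide_eq_false_iff_not]
      refine ⟨he.csub c hc y hy, ⟨?_, h1 y hy⟩, hxy⟩
      rintro rfl
      rcases adj_iff.1 hxy with h | h
      · exact hs.fi.irr y (List.mem_toFinset.2 h)
      · have h4 : [y, y] ∈ e.1 := by
          rcases (he.pairs y y).1 h with h | h <;> exact h
        have := he.cnd _ h4
        simp at this
    · rw [h]
      have hnd := he.cnd c hc
      have hl3 := h3 c hc
      rcases c with _ | ⟨x, _ | ⟨y, _ | ⟨z, _ | ⟨w, c⟩⟩⟩⟩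
      · exact absurd hc h0
      · exact Finset.mem_union_left _ (Finset.mem_union_left _
          (Finset.mem_image.2 ⟨x, hcL x (by simp), rfl⟩))
      · have h4 := h2 x (by simp) y (by simp)
        have h5 : adj e s x y = true := adj_iff.2 (Or.inr ((he.pairs x y).2 (Or.inl hc)))
        rw [h5] at h4
        simp at h4
      · refine Finset.mem_union_right _ ?_
        have hnd' : x ≠ y ∧ y ≠ z ∧ x ≠ z := by
          simp only [List.nodup_cons, List.mem_cons, List.not_mem_nil, or_false, not_or,
            not_false_eq_true, List.nodup_nil, and_true] at hnd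
          exact ⟨hnd.1.1, hnd.2, hnd.1.2⟩
        have htri : tri e s x y z = true :=
          tri_iff.2 ⟨_, hc, alive_iff.2 ⟨h1, h2⟩,
            isTri_iff.2 ⟨rfl, by simp, by simp, by simp, hnd'⟩⟩
        have hm := mem_lits_of_tri he htri
        rw [hC, Finset.mem_biUnion]
        refine ⟨x, List.mem_toFinset.2 hm.1, Finset.mem_image.2 ⟨(y, z), ?_, rfl⟩⟩
        rw [List.mem_toFinset]
        unfold Wset
        rw [List.mem_filter]
        exact ⟨List.pair_mem_product.2 hm.2, htri⟩
      · simp only [List.length_cons] at hl3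
        omega
  have cA : A.card ≤ L.card := Finset.card_image_le
  have cB : B.card ≤ L.card * θ := by
    refine le_trans Finset.card_biUnion_le ?_
    refine le_trans (Finset.sum_le_card_nsmul _ _ θ fun x hx => ?_) ?_
    · rw [Finset.mem_filter, hL, List.mem_toFinset] at hx
      refine le_trans Finset.card_image_le (le_trans (List.toFinset_card_le _) ?_)
      exact (find1_none r1 x hx.1 hx.2).le
    · rw [smul_eq_mul]
      exact Nat.mul_le_mul_right _ (Finset.card_filter_le _ _)
  have cC : C.card ≤ L.card * (θ * θ) := by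
    refine le_trans Finset.card_biUnion_le ?_
    rw [← smul_eq_mul]
    refine Finset.sum_le_card_nsmul _ _ _ fun x hx => ?_
    rw [hL, List.mem_toFinset] at hx
    refine le_trans Finset.card_image_le (le_trans (List.toFinset_card_le _) ?_)
    exact (find3_none r3 x hx).le
  have h5 := Finset.card_le_card hsub
  have h6 := Finset.card_union_le (A ∪ B) C
  have h7 := Finset.card_union_le A B
  rw [hLc] at cA cB cC
  nlinarith

/-- the sparse formula -/
def sparse (p q K : ℕ) (e : Env V) (s : Nd V) : List (List (Lit V)) :=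
  thin (max 1 (mydiv (p * e.1.length) (2 * q * K * e.2.1.length))) (e.1.map (tcl e s))

theorem sparse_mem {p q K : ℕ} {e : Env V} {s : Nd V} {c : List (Lit V)}
    (h : c ∈ sparse p q K e s) : ∃ c' ∈ e.1, c = tcl e s c' := by
  obtain ⟨c', hc', rfl⟩ := List.mem_map.1 (mem_of_mem_thin h)
  exact ⟨c', hc', rfl⟩

theorem sparse_size {p q K : ℕ} (hp : 1 ≤ p) (hq : 1 ≤ q) (hK : 1 ≤ K) {e : Env V} {s : Nd V}
    (hty : (ded (e.1.map (tcl e s))).length ≤ K * e.2.1.length) :
    (sparse p q K e s).length ≤ 4 * q * K * e.2.1.length := by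
  set m := e.1.length with hm
  set Λ := e.2.1.length with hΛ
  unfold sparse
  rw [← hm, ← hΛ]
  have hlen : (e.1.map (tcl e s)).length = m := by rw [List.length_map]
  rcases Nat.eq_zero_or_pos Λ with h0 | hpos
  · rw [h0, Nat.mul_zero] at hty
    have h1 : ded (e.1.map (tcl e s)) = [] := List.length_eq_zero_iff.1 (Nat.le_zero.1 hty)
    unfold thin
    rw [h1]
    simp
  · set d := 2 * q * K * Λ with hd
    have hd1 : 1 ≤ d := by
      rw [hd]
      exact Nat.succ_le_of_lt (by positivity)
    rw [mydiv_eq hd1]
    have h1 := thin_length (le_max_left 1 (p * m / d)) (e.1.map (tcl e s))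
    rw [hlen] at h1
    generalize (thin (max 1 (p * m / d)) (e.1.map (tcl e s))).length = n at *
    have h2 : m ≤ p * m := Nat.le_mul_of_pos_left _ hp
    have h3 : p * m < d * (p * m / d + 1) := by
      have := Nat.div_add_mod (p * m) d
      have := Nat.mod_lt (p * m) hd1
      rw [Nat.mul_add]
      omega
    generalize p * m / d = g at *
    have h4 : g + 1 ≤ 2 * max 1 g := by omega
    have h5 : d * (g + 1) ≤ d * (2 * max 1 g) := Nat.mul_le_mul_left _ h4
    have h6 : max 1 g * n < max 1 g * (2 * d) := by
      calc max 1 g * n ≤ m := h1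
        _ ≤ p * m := h2
        _ < d * (g + 1) := h3
        _ ≤ d * (2 * max 1 g) := h5
        _ = max 1 g * (2 * d) := by ring
    have h7 : n < 2 * d := Nat.lt_of_mul_lt_mul_left h6
    have h8 : 2 * d = 4 * q * K * Λ := by rw [hd]; ring
    omega

theorem sparse_gap {p q K : ℕ} {e : Env V} {s : Nd V}
    (hty : (ded (e.1.map (tcl e s))).length ≤ K * e.2.1.length)
    {a : V → Bool} (hno : p * e.1.length ≤ q * e.1.countP (falsB a)) :
    p * (sparse p q K e s).length ≤ 2 * q * (sparse p q K e s).countP (falsB a) ∧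
      (0 < p * e.1.length → 0 < (sparse p q K e s).countP (falsB a)) := by
  set m := e.1.length with hm
  set Λ := e.2.1.length with hΛ
  unfold sparse
  rw [← hm, ← hΛ]
  have hlen : (e.1.map (tcl e s)).length = m := by rw [List.length_map]
  have hW := tcl_fals e s a
  set d := 2 * q * K * Λ with hd
  set g := max 1 (mydiv (p * m) d) with hg
  have hg1 : 1 ≤ g := le_max_left _ _
  have h1 := thin_length hg1 (e.1.map (tcl e s))
  have h2 := thin_lower hg1 (falsB a) (e.1.map (tcl e s))
  rw [hlen] at h1
  generalize (thin g (e.1.map (tcl e s))).length = n at *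
  generalize (thin g (e.1.map (tcl e s))).countP (falsB a) = S at *
  generalize (e.1.map (tcl e s)).countP (falsB a) = W at *
  generalize (ded (e.1.map (tcl e s))).length = Ty at *
  generalize e.1.countP (falsB a) = W' at *
  have hqW : p * m ≤ q * W := hno.trans (Nat.mul_le_mul_left _ hW)
  -- the main inequality
  have key : p * m ≤ 2 * q * (g * S) := by
    rcases Nat.lt_or_ge 1 g with hg2 | hg2
    · have hge : g = mydiv (p * m) d := by omega
      rcases Nat.eq_zero_or_pos d with hd0 | hdpos
      · -- then there are no types that matter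
        have h3 : q * (K * Λ) = 0 := by
          have : 2 * (q * (K * Λ)) = d := by rw [hd]; ring
          omega
        have h4 : q * Ty = 0 := by
          have := Nat.mul_le_mul_left q hty
          omega
        have h5 : q * W ≤ q * (g * S + (g - 1) * Ty) := Nat.mul_le_mul_left _ h2
        have h6 : q * (g * S + (g - 1) * Ty) = q * (g * S) + (g - 1) * (q * Ty) := by ring
        rw [h6, h4] at h5
        nlinarith
      · rw [mydiv_eq hdpos] at hge
        have h3 : g * d ≤ p * m := by
          rw [hge]
          exact Nat.div_mul_le_self _ _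
        have h4 : (g - 1) * Ty ≤ (g - 1) * (K * Λ) := Nat.mul_le_mul_left _ hty
        have h5 : 2 * q * W ≤ 2 * q * (g * S + (g - 1) * (K * Λ)) :=
          Nat.mul_le_mul_left _ (h2.trans (Nat.add_le_add_left h4 _))
        have h6 : 2 * q * ((g - 1) * (K * Λ)) ≤ g * d := by
          have : 2 * q * ((g - 1) * (K * Λ)) = (g - 1) * d := by rw [hd]; ring
          rw [this]
          exact Nat.mul_le_mul_right _ (Nat.sub_le _ _)
        nlinarith
    · have hg' : g = 1 := by omega
      rw [hg'] at h2 ⊢
      simp only [Nat.sub_self, Nat.zero_mul, Nat.add_zero, Nat.one_mul] at h2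
      have := Nat.mul_le_mul_left q h2
      nlinarith
  constructor
  · have h3 : g * (p * n) ≤ g * (2 * q * S) := by
      calc g * (p * n) = p * (g * n) := by ring
        _ ≤ p * m := Nat.mul_le_mul_left _ h1
        _ ≤ 2 * q * (g * S) := key
        _ = g * (2 * q * S) := by ring
    exact Nat.le_of_mul_le_mul_left h3 hg1
  · intro hpm
    by_contra h0
    have : S = 0 := by omega
    rw [this] at key
    simp at key
    rw [Nat.pos_iff_ne_zero] at hpm
    exact hpm (Nat.mul_eq_zero.2 key)

end types

/-! ### Polynomial time -/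

section ptime

variable {V : Type} [DecidableEq V] [SCode V] {α : Type} [SCode α]

theorem tcl_ptime {e : α → Env V} {s : α → Nd V} {c : α → List (Lit V)} (he : PTime e)
    (hs : PTime s) (hc : PTime c) : PTime (fun a => tcl (e a) (s a) (c a)) := by
  unfold tcl
  have h1 : PTime (fun a => (c a).find? (fun x => decide (x ∈ (s a).1))) := by
    refine PTime.find? (p := fun a x => decide (x ∈ (s a).1)) hc ?_
    exact mem_ptime PTime.snd ((PTime.fst.comp hs).comp PTime.fst)
  have h2 : PTime (fun a => ((c a).product (c a)).find? (fun p => adj (e a) (s a) p.1 p.2)) := by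
    refine PTime.find? (p := fun a (p : Lit V × Lit V) => adj (e a) (s a) p.1 p.2)
      (PTime.product hc hc) ?_
    exact adj_ptime (he.comp PTime.fst) (hs.comp PTime.fst) (PTime.fst.comp PTime.snd)
      (PTime.snd.comp PTime.snd)
  refine PTime.option_casesOn (f := fun a => (c a).find? (fun x => decide (x ∈ (s a).1)))
    (g := fun a => (Option.casesOn (((c a).product (c a)).find?
      (fun p => adj (e a) (s a) p.1 p.2)) (c a) (fun p => [p.1, p.2]) : List (Lit V)))
    (h := fun _ x => [x]) h1 ?_ (PTime.cons PTime.snd (PTime.const []))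
  exact PTime.option_casesOn (f := fun a => ((c a).product (c a)).find?
      (fun p => adj (e a) (s a) p.1 p.2)) (h := fun _ (p : Lit V × Lit V) => [p.1, p.2]) h2 hc
    (PTime.cons (PTime.fst.comp PTime.snd) (PTime.cons (PTime.snd.comp PTime.snd)
      (PTime.const [])))

theorem max_ptime {f g : α → ℕ} (hf : PTime f) (hg : PTime g) :
    PTime (fun a => max (f a) (g a)) :=
  (PTime.ite (c := fun a => f a ≤ g a) (PTime.nat_le hf hg) hg hf).of_eq fun a => by
    rw [max_def]

theorem sparse_ptime (p q K : ℕ) {e : α → Env V} {s : α → Nd V} (he : PTime e) (hs : PTime s) :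
    PTime (fun a => sparse p q K (e a) (s a)) := by
  unfold sparse
  refine thin_ptime (max_ptime (PTime.const 1) (mydiv_ptime (PTime.mul (PTime.const p)
    (PTime.length (PTime.fst.comp he))) (PTime.mul (PTime.const (2 * q * K))
    (PTime.length (PTime.fst.comp (PTime.snd.comp he)))))) ?_
  refine PTime.map (f := fun a c => tcl (e a) (s a) c) (PTime.fst.comp he) ?_
  exact tcl_ptime (he.comp PTime.fst) (hs.comp PTime.fst) PTime.snd

end ptime

end Pool.Agent.Lib.MP_87d05f_lc
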