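import Mathlib
import Pool.Agent.Lib.MP_87d05f_lc.Types

set_option autoImplicit false

/-!
# Substituting values for variables
-/

namespace Pool.Agent.Lib.MP_87d05f_lc

open Pool.Agent.PolyTime Function

section assign

variable {V : Type} [DecidableEq V]

/-- give the value `b` to the variable `v` -/
def assign (G : List (List (Lit V))) (v : V) (b : Bool) : List (List (Lit V)) :=
  (G.filter (fun c => !decide ((b, v) ∈ c))).map (fun c => c.filter (fun l => !decide (l = (!b, v))))

theorem falsB_assign (a : V → Bool) (v : V) (b : Bool) (c : List (Lit V)) (hc : (b, v) ∉ c) :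
    falsB a (c.filter (fun l => !decide (l = (!b, v)))) = falsB (update a v b) c := by
  rw [Bool.eq_iff_iff, falsB_iff, falsB_iff]
  simp only [List.mem_filter, Bool.not_eq_true', decide_eq_false_iff_not, and_imp]
  constructor
  · intro h l hl
    by_cases hv : l.2 = v
    · have hlb : l.1 ≠ b := fun hb => hc (by rw [← hb, ← hv]; exact hl)
      unfold tr
      rw [hv, update_self]
      exact fun h => hlb h.symm
    · have h1 := h l hl (fun h' => hv (by rw [h']))
      unfold tr at h1 ⊢
      rwa [update_of_ne hv]
  · intro h l hl hne
    have h1 := h l hl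
    by_cases hv : l.2 = v
    · have hlb : l.1 ≠ b := fun hb => hc (by rw [← hb, ← hv]; exact hl)
      exfalso
      apply hne
      refine Prod.ext ?_ hv
      cases b <;> cases h2 : l.1 <;> simp_all
    · unfold tr at h1 ⊢
      rwa [update_of_ne hv] at h1

theorem falsB_true_of_mem (a : V → Bool) (v : V) (b : Bool) (c : List (Lit V)) (hc : (b, v) ∈ c) :
    falsB (update a v b) c = false := by
  rw [falsB_false]
  exact ⟨(b, v), hc, by simp [tr]⟩

theorem countP_assign (a : V → Bool) (G : List (List (Lit V))) (v : V) (b : Bool) :
    (assign G v b).countP (falsB a) = G.countP (falsB (update a v b)) := by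
  induction G with
  | nil => rfl
  | cons c G ih =>
    unfold assign at ih ⊢
    rw [List.countP_cons, ← ih]
    by_cases hc : (b, v) ∈ c
    · rw [List.filter_cons_of_neg (by simpa using hc), falsB_true_of_mem a v b c hc]
      simp
    · rw [List.filter_cons_of_pos (by simpa using hc), List.map_cons, List.countP_cons,
        falsB_assign a v b c hc]

theorem assign_length (G : List (List (Lit V))) (v : V) (b : Bool) :
    (assign G v b).length ≤ G.length := by
  unfold assign
  rw [List.length_map]
  exact List.length_filter_le _ _

theorem mem_assign {G : List (List (Lit V))} {v : V} {b : Bool} {d : List (Lit V)}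
    (h : d ∈ assign G v b) : ∃ c ∈ G, (b, v) ∉ c ∧ d = c.filter (fun l => !decide (l = (!b, v))) := by
  unfold assign at h
  obtain ⟨c, hc, rfl⟩ := List.mem_map.1 h
  rw [List.mem_filter] at hc
  exact ⟨c, hc.1, by simpa using hc.2, rfl⟩

theorem assign_sat {a : V → Bool} {G : List (List (Lit V))} (v : V)
    (h : ∀ c ∈ G, ∃ l ∈ c, tr a l) : ∀ c ∈ assign G v (a v), ∃ l ∈ c, tr a l := by
  intro d hd
  obtain ⟨c, hc, _, rfl⟩ := mem_assign hd
  obtain ⟨l, hl, hla⟩ := h c hc
  refine ⟨l, List.mem_filter.2 ⟨hl, ?_⟩, hla⟩
  rw [Bool.not_eq_true', decide_eq_false_iff_not]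
  rintro rfl
  unfold tr at hla
  simp only at hla
  cases h : a v <;> rw [h] at hla <;> simp at hla

theorem assign_clause_length {G : List (List (Lit V))} {v : V} {b : Bool} {n : ℕ}
    (h : ∀ c ∈ G, c.length ≤ n) : ∀ c ∈ assign G v b, c.length ≤ n := by
  intro d hd
  obtain ⟨c, hc, _, rfl⟩ := mem_assign hd
  exact (List.length_filter_le _ _).trans (h c hc)

theorem assign_flatten (G : List (List (Lit V))) (v : V) (b : Bool) :
    (assign G v b).flatten.Sublist G.flatten := by
  induction G with
  | nil => exact List.Sublist.refl _
  | cons c G ih =>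
    unfold assign at ih ⊢
    by_cases hc : (b, v) ∈ c
    · rw [List.filter_cons_of_neg (by simpa using hc), List.flatten_cons]
      exact ih.trans (List.sublist_append_right _ _)
    · rw [List.filter_cons_of_pos (by simpa using hc), List.map_cons, List.flatten_cons,
        List.flatten_cons]
      exact List.Sublist.append List.filter_sublist ih

theorem assign_avoid {G : List (List (Lit V))} {v : V} {b : Bool} :
    ∀ l ∈ (assign G v b).flatten, l.2 ≠ v := by
  intro l hl
  obtain ⟨d, hd, hl⟩ := List.mem_flatten.1 hl
  obtain ⟨c, hc, hbv, rfl⟩ := mem_assign hd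
  rw [List.mem_filter, Bool.not_eq_true', decide_eq_false_iff_not] at hl
  rintro rfl
  have h1 : l.1 ≠ b := fun h => hbv (by rw [← h]; exact hl.1)
  apply hl.2
  refine Prod.ext ?_ rfl
  cases b <;> cases h2 : l.1 <;> simp_all

/-- give values to all the variables of a list -/
def assignAll (G : List (List (Lit V))) (ps : List (V × Bool)) : List (List (Lit V)) :=
  ps.foldl (fun G p => assign G p.1 p.2) G

theorem assignAll_cons (G : List (List (Lit V))) (p : V × Bool) (ps : List (V × Bool)) :
    assignAll G (p :: ps) = assignAll (assign G p.1 p.2) ps := rfl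

theorem assignAll_no {B : ℕ → Prop} (ps : List (V × Bool)) : ∀ G : List (List (Lit V)),
    (∀ a, B (G.countP (falsB a))) → ∀ a, B ((assignAll G ps).countP (falsB a)) := by
  induction ps with
  | nil => intro G h; exact h
  | cons p ps ih =>
    intro G h
    rw [assignAll_cons]
    refine ih _ fun a => ?_
    rw [countP_assign]
    exact h _

theorem assignAll_sat {a : V → Bool} (vs : List V) : ∀ G : List (List (Lit V)),
    (∀ c ∈ G, ∃ l ∈ c, tr a l) →
    ∀ c ∈ assignAll G (vs.map (fun v => (v, a v))), ∃ l ∈ c, tr a l := by
  induction vs with
  | nil => intro G h; exact h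
  | cons v vs ih =>
    intro G h
    rw [List.map_cons, assignAll_cons]
    exact ih _ (assign_sat v h)

theorem assignAll_length (ps : List (V × Bool)) : ∀ G : List (List (Lit V)),
    (assignAll G ps).length ≤ G.length := by
  induction ps with
  | nil => intro G; exact le_rfl
  | cons p ps ih =>
    intro G
    rw [assignAll_cons]
    exact (ih _).trans (assign_length G p.1 p.2)

theorem assignAll_clause_length {n : ℕ} (ps : List (V × Bool)) :
    ∀ G : List (List (Lit V)), (∀ c ∈ G, c.length ≤ n) →
    ∀ c ∈ assignAll G ps, c.length ≤ n := by
  induction ps with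
  | nil => intro G h; exact h
  | cons p ps ih =>
    intro G h
    rw [assignAll_cons]
    exact ih _ (assign_clause_length h)

theorem assignAll_flatten (ps : List (V × Bool)) : ∀ G : List (List (Lit V)),
    (assignAll G ps).flatten.Sublist G.flatten := by
  induction ps with
  | nil => intro G; exact List.Sublist.refl _
  | cons p ps ih =>
    intro G
    rw [assignAll_cons]
    exact (ih _).trans (assign_flatten G p.1 p.2)

theorem assignAll_avoid (ps : List (V × Bool)) : ∀ G : List (List (Lit V)),
    ∀ v ∈ ps.map Prod.fst, ∀ l ∈ (assignAll G ps).flatten, l.2 ≠ v := by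
  induction ps with
  | nil => intro G v hv; simp at hv
  | cons p ps ih =>
    intro G v hv l hl
    rw [assignAll_cons] at hl
    rw [List.map_cons] at hv
    rcases List.mem_cons.1 hv with rfl | hv
    · exact assign_avoid l ((assignAll_flatten ps _).subset hl)
    · exact ih _ v hv l hl

/-- the list of variables, with multiplicities -/
def vlist (G : List (List (Lit V))) : List V := G.flatten.map Prod.snd

/-- the variables with more than `K` occurrences -/
def high (K : ℕ) (G : List (List (Lit V))) : List V :=
  (ded (vlist G)).filter (fun v => decide (K < cnt (vlist G) v))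

theorem high_length (K : ℕ) (G : List (List (Lit V))) :
    K * (high K G).length ≤ (vlist G).length := by
  have h1 : (vlist G).length = ((ded (vlist G)).map (fun v => (vlist G).count v)).sum := by
    have := countP_eq_sum (fun _ => true) (vlist G)
    rw [List.countP_true] at this
    rw [this]
    rfl
  rw [h1]
  have h2 : K * (high K G).length = ((high K G).map (fun _ => K)).sum := by
    simp [Nat.mul_comm]
  rw [h2]
  unfold high
  have h3 : ∀ l : List V, ((l.filter (fun v => decide (K < cnt (vlist G) v))).map
      (fun _ => K)).sum ≤ (l.map (fun v => (vlist G).count v)).sum := by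
    intro l
    induction l with
    | nil => simp
    | cons v l ih =>
      by_cases h : K < cnt (vlist G) v
      · rw [List.filter_cons_of_pos (by simpa using h), List.map_cons, List.sum_cons,
          List.map_cons, List.sum_cons]
        rw [cnt_eq] at h
        omega
      · rw [List.filter_cons_of_neg (by simpa using h), List.map_cons, List.sum_cons]
        omega
  exact h3 _

/-- after the variables in `high K G` got values, all variables occur at most `K` times -/
theorem count_assignAll_high (K : ℕ) (G : List (List (Lit V))) (ps : List (V × Bool))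
    (hps : ps.map Prod.fst = high K G) (v : V) :
    (vlist (assignAll G ps)).count v ≤ K := by
  by_cases hv : v ∈ high K G
  · have h : v ∉ vlist (assignAll G ps) := by
      unfold vlist
      rw [List.mem_map]
      rintro ⟨l, hl, hlv⟩
      exact assignAll_avoid _ G v (by rw [hps]; exact hv) l hl hlv
    rw [List.count_eq_zero_of_not_mem h]
    exact Nat.zero_le _
  · have h1 : (vlist (assignAll G ps)).count v ≤ (vlist G).count v :=
      ((assignAll_flatten _ G).map _).count_le _
    refine h1.trans ?_
    by_contra hlt
    push Not at hlt
    apply hv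
    unfold high
    rw [List.mem_filter, decide_eq_true_eq, cnt_eq]
    refine ⟨mem_ded.2 ?_, hlt⟩
    exact List.count_pos_iff.1 (by omega)

end assign

/-! ### Polynomial time and sizes -/

section ptime

variable {V : Type} [DecidableEq V] [SCode V] {α : Type} [SCode α]

theorem assign_ptime {G : α → List (List (Lit V))} {v : α → V} {b : α → Bool} (hG : PTime G)
    (hv : PTime v) (hb : PTime b) : PTime (fun a => assign (G a) (v a) (b a)) := by
  unfold assign
  refine PTime.map (f := fun a (c : List (Lit V)) =>
    c.filter (fun l => !decide (l = (!b a, v a)))) ?_ ?_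
  · refine PTime.filter (p := fun a (c : List (Lit V)) => !decide ((b a, v a) ∈ c)) hG ?_
    exact PTime.not (mem_ptime ((hb.pair hv).comp PTime.fst) PTime.snd)
  · refine PTime.filter (p := fun (q : α × List (Lit V)) (l : Lit V) =>
      !decide (l = (!b q.1, v q.1))) PTime.snd ?_
    exact PTime.not (PTime.eq PTime.snd (((PTime.not hb).pair hv).comp
      (PTime.fst.comp PTime.fst)))

theorem vlist_ptime {G : α → List (List (Lit V))} (hG : PTime G) :
    PTime (fun a => vlist (G a)) :=
  (PTime.map (f := fun (_ : α) (l : Lit V) => l.2) (PTime.flatten hG)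
    (PTime.snd.comp PTime.snd)).of_eq fun _ => rfl

theorem high_ptime (K : ℕ) {G : α → List (List (Lit V))} (hG : PTime G) :
    PTime (fun a => high K (G a)) := by
  unfold high
  refine PTime.filter (p := fun a v => decide (K < cnt (vlist (G a)) v))
    (ded_ptime (vlist_ptime hG)) ?_
  exact PTime.nat_lt (PTime.const K) (cnt_ptime ((vlist_ptime hG).comp PTime.fst) PTime.snd)

theorem sz_assign_le (G : List (List (Lit V))) (v : V) (b : Bool) :
    sz (assign G v b) ≤ sz G := by
  induction G with
  | nil => exact le_rfl
  | cons c G ih =>
    unfold assign at ih ⊢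
    by_cases hc : (b, v) ∈ c
    · rw [List.filter_cons_of_neg (by simpa using hc), sz_cons]
      omega
    · rw [List.filter_cons_of_pos (by simpa using hc), List.map_cons, sz_cons, sz_cons]
      have h2 : ∀ (f : Lit V → Bool), sz (c.filter f) ≤ sz c := fun f => sz_filter_le f c
      have h3 := h2 (fun l => !decide (l = (!b, v)))
      omega

end ptime

end Pool.Agent.Lib.MP_87d05f_lc
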