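import Mathlib
import Pool.Agent.Lib.MP_87d05f_lc.Oracle

set_option autoImplicit false

/-!
# Depth-first search with calls of a given machine at the leaves
-/

namespace Pool.Agent.Lib.MP_87d05f_lc

open Pool.Agent.PolyTime Function Turing

section dfs

variable {τ : Type} (expand : τ → Bool ⊕ (τ × τ)) (Inv : τ → Prop) (D W : τ → ℕ)

theorem dfs_gen
    (hexp : ∀ s, Inv s → (∃ b, expand s = Sum.inl b) ∨
      (∃ l r, expand s = Sum.inr (l, r) ∧ Inv l ∧ Inv r ∧ D l + 1 ≤ D s ∧ D r + 1 ≤ D s ∧
        1 + W l + W r ≤ W s))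
    (hW : ∀ s, 1 ≤ W s) :
    ∀ (m : ℕ) (s : τ), D s ≤ m → Inv s → ∀ rest : List τ, ∃ k, 1 ≤ k ∧ k ≤ W s ∧
      (∀ i, i < k → ∃ pre : List τ, pre ≠ [] ∧ pre.length ≤ D s + 1 ∧ (∀ t ∈ pre, Inv t) ∧
        (dstep expand)^[i] (s :: rest, false) = (pre ++ rest, false)) ∧
      ((AccLeaf expand s ∧ ∃ pre : List τ, pre.length ≤ D s + 1 ∧ (∀ t ∈ pre, Inv t) ∧
          (dstep expand)^[k] (s :: rest, false) = (pre ++ rest, true)) ∨
        (¬ AccLeaf expand s ∧ (dstep expand)^[k] (s :: rest, false) = (rest, false))) := by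
  have hleaf : ∀ (s : τ) (b : Bool), Inv s → expand s = Sum.inl b → ∀ rest : List τ,
      ∃ k, 1 ≤ k ∧ k ≤ W s ∧
      (∀ i, i < k → ∃ pre : List τ, pre ≠ [] ∧ pre.length ≤ D s + 1 ∧ (∀ t ∈ pre, Inv t) ∧
        (dstep expand)^[i] (s :: rest, false) = (pre ++ rest, false)) ∧
      ((AccLeaf expand s ∧ ∃ pre : List τ, pre.length ≤ D s + 1 ∧ (∀ t ∈ pre, Inv t) ∧
          (dstep expand)^[k] (s :: rest, false) = (pre ++ rest, true)) ∨
        (¬ AccLeaf expand s ∧ (dstep expand)^[k] (s :: rest, false) = (rest, false))) := by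
    intro s b hI hb rest
    refine ⟨1, le_rfl, hW _, ?_, ?_⟩
    · intro i hi
      obtain rfl : i = 0 := by omega
      exact ⟨[s], by simp, by simp, by simpa using hI, by simp⟩
    · cases b
      · right
        refine ⟨?_, ?_⟩
        · rintro (h | ⟨h, _⟩ | ⟨h, _⟩) <;> rw [hb] at h <;> simp at h
        · simp [dstep, hb]
      · left
        exact ⟨.leaf hb, [], by simp, by simp, by simp [dstep, hb]⟩
  intro m
  induction m with
  | zero =>
    intro s hs hI rest
    rcases hexp s hI with ⟨b, hb⟩ | ⟨l, r, hlr, _, _, hl, _⟩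
    · exact hleaf s b hI hb rest
    · omega
  | succ m ih =>
    intro s hs hI rest
    rcases hexp s hI with ⟨b, hb⟩ | ⟨l, r, hlr, hIl, hIr, hl, hr, hsum⟩
    · exact hleaf s b hI hb rest
    · have hstep1 : (dstep expand) (s :: rest, false) = (l :: r :: rest, false) := by
        simp [dstep, hlr]
      obtain ⟨k1, hk1, hk1T, hpre1, hres1⟩ := ih l (by omega) hIl (r :: rest)
      obtain ⟨k2, hk2, hk2T, hpre2, hres2⟩ := ih r (by omega) hIr rest
      rcases hres1 with ⟨ha, pre, hpl, hpI, hpk⟩ | ⟨hna, hk⟩
      · -- accepted on the left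
        refine ⟨k1 + 1, by omega, by omega, ?_, Or.inl ⟨.left hlr ha, pre ++ [r], ?_, ?_, ?_⟩⟩
        · intro i hi
          rcases i with _ | i
          · exact ⟨[s], by simp, by simp, by simpa using hI, by simp⟩
          · obtain ⟨p, hp0, hpl, hpI, hp⟩ := hpre1 i (by omega)
            refine ⟨p ++ [r], by simp, ?_, ?_, ?_⟩
            · simp only [List.length_append, List.length_singleton]; omega
            · intro t ht
              rw [List.mem_append, List.mem_singleton] at ht
              rcases ht with ht | rfl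
              · exact hpI t ht
              · exact hIr
            · rw [Function.iterate_succ_apply, hstep1, hp]
              simp
        · simp only [List.length_append, List.length_singleton]; omega
        · intro t ht
          rw [List.mem_append, List.mem_singleton] at ht
          rcases ht with ht | rfl
          · exact hpI t ht
          · exact hIr
        · rw [Function.iterate_succ_apply, hstep1, hpk]
          simp
      · -- not accepted on the left
        have hmid : (dstep expand)^[k1 + 1] (s :: rest, false) = (r :: rest, false) := by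
          rw [Function.iterate_succ_apply, hstep1, hk]
        have hpre : ∀ i, i < k1 + 1 + k2 → ∃ pre : List τ, pre ≠ [] ∧ pre.length ≤ D s + 1 ∧
            (∀ t ∈ pre, Inv t) ∧
            (dstep expand)^[i] (s :: rest, false) = (pre ++ rest, false) := by
          intro i hi
          by_cases hik : i < k1 + 1
          · rcases i with _ | i
            · exact ⟨[s], by simp, by simp, by simpa using hI, by simp⟩
            · obtain ⟨p, hp0, hpl, hpI, hp⟩ := hpre1 i (by omega)
              refine ⟨p ++ [r], by simp, ?_, ?_, ?_⟩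
              · simp only [List.length_append, List.length_singleton]; omega
              · intro t ht
                rw [List.mem_append, List.mem_singleton] at ht
                rcases ht with ht | rfl
                · exact hpI t ht
                · exact hIr
              · rw [Function.iterate_succ_apply, hstep1, hp]
                simp
          · obtain ⟨j, rfl⟩ : ∃ j, i = j + (k1 + 1) := ⟨i - (k1 + 1), by omega⟩
            obtain ⟨p, hp0, hpl, hpI, hp⟩ := hpre2 j (by omega)
            refine ⟨p, hp0, by omega, hpI, ?_⟩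
            rw [Function.iterate_add_apply, hmid, hp]
        refine ⟨k1 + 1 + k2, by omega, by omega, hpre, ?_⟩
        rcases hres2 with ⟨ha, pre, hpl, hpI, hpk⟩ | ⟨hna2, hk'⟩
        · left
          refine ⟨.right hlr ha, pre, by omega, hpI, ?_⟩
          rw [Nat.add_comm (k1 + 1) k2, Function.iterate_add_apply, hmid, hpk]
        · right
          refine ⟨?_, ?_⟩
          · rintro (h | ⟨h, h'⟩ | ⟨h, h'⟩)
            · rw [hlr] at h; simp at h
            · rw [hlr] at h
              simp only [Sum.inr.injEq, Prod.mk.injEq] at h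
              obtain ⟨rfl, rfl⟩ := h
              exact hna h'
            · rw [hlr] at h
              simp only [Sum.inr.injEq, Prod.mk.injEq] at h
              obtain ⟨rfl, rfl⟩ := h
              exact hna2 h'
          · rw [Nat.add_comm (k1 + 1) k2, Function.iterate_add_apply, hmid, hk']

end dfs

section machine

variable {ε τ : Type} [SCode ε] [SCode τ]

/-- the outcome of a node, the answer to its query (if any) being given -/
def resolve (r : Bool) (o : (Bool ⊕ Qry) ⊕ (τ × τ)) : Bool ⊕ (τ × τ) :=
  o.elim (fun a => a.elim (fun b => Sum.inl b) (fun _ => Sum.inl r)) (fun lr => Sum.inr lr)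

/-- the expansion with the answers of the machine -/
noncomputable def expandA (tm : FinTM2) (e₀ : tm.Γ tm.k₀ ≃ Bool) (acc : List (tm.Γ tm.k₁))
    (expand : ε → τ → (Bool ⊕ Qry) ⊕ (τ × τ)) (e : ε) (s : τ) : Bool ⊕ (τ × τ) :=
  (expand e s).elim (fun a => a.elim (fun b => Sum.inl b) (fun q => Sum.inl (ansT tm e₀ acc q)))
    (fun lr => Sum.inr lr)

/-- the query of the state of the search -/
def query' (expand : ε → τ → (Bool ⊕ Qry) ⊕ (τ × τ)) (s : ε × (List τ × Bool)) : Qry :=
  (List.casesOn s.2.1 ([], (0, 0)) (fun t _ => (expand s.1 t).elim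
    (fun a => a.elim (fun _ => ([], (0, 0))) (fun q => q)) (fun _ => ([], (0, 0)))))

/-- the next state of the search, the answer to the query being given -/
def next' (expand : ε → τ → (Bool ⊕ Qry) ⊕ (τ × τ)) (r : Bool) (s : ε × (List τ × Bool)) :
    ε × (List τ × Bool) :=
  ((mstep (fun (e : Bool × ε) t => resolve e.1 (expand e.2 t)) ((r, s.1), s.2)).1.2,
    (mstep (fun (e : Bool × ε) t => resolve e.1 (expand e.2 t)) ((r, s.1), s.2)).2)

omit [SCode ε] [SCode τ] in
theorem next'_eq (tm : FinTM2) (e₀ : tm.Γ tm.k₀ ≃ Bool) (acc : List (tm.Γ tm.k₁))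
    (expand : ε → τ → (Bool ⊕ Qry) ⊕ (τ × τ)) (s : ε × (List τ × Bool)) :
    next' expand (ansT tm e₀ acc (query' expand s)) s =
      (s.1, dstep (expandA tm e₀ acc expand s.1) s.2) := by
  rcases s with ⟨e, ⟨_ | ⟨t, rest⟩, b⟩⟩
  · cases b <;> rfl
  · cases b
    · simp only [next', mstep, dstep, cond_false, query', expandA]
      rcases h : expand e t with (a | q) | lr
      · simp [resolve]
      · simp [resolve]
      · simp [resolve]
    · rfl

theorem resolve_ptime {α : Type} [SCode α] {r : α → Bool} {o : α → (Bool ⊕ Qry) ⊕ (τ × τ)}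
    (hr : PTime r) (ho : PTime o) : PTime (fun a => resolve (r a) (o a)) := by
  unfold resolve
  refine PTime.sum_elim (g := fun (x : α) (a : Bool ⊕ Qry) =>
    (a.elim (fun b => Sum.inl b) (fun _ => Sum.inl (r x)) : Bool ⊕ (τ × τ)))
    (h := fun (_ : α) (lr : τ × τ) => (Sum.inr lr : Bool ⊕ (τ × τ))) ho ?_
    (PTime.inr PTime.snd)
  exact PTime.sum_elim (f := fun (p : α × (Bool ⊕ Qry)) => p.2)
    (g := fun (_ : α × (Bool ⊕ Qry)) (b : Bool) => (Sum.inl b : Bool ⊕ (τ × τ)))
    (h := fun (p : α × (Bool ⊕ Qry)) (_ : Qry) => (Sum.inl (r p.1) : Bool ⊕ (τ × τ)))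
    PTime.snd (PTime.inl PTime.snd) (PTime.inl (hr.comp (PTime.fst.comp PTime.fst)))

theorem query'_ptime {expand : ε → τ → (Bool ⊕ Qry) ⊕ (τ × τ)}
    (he : PTime (fun p : ε × τ => expand p.1 p.2)) : PTime (query' expand) := by
  unfold query'
  refine PTime.list_casesOn (f := fun s : ε × (List τ × Bool) => s.2.1)
    (g := fun _ => (([], (0, 0)) : Qry))
    (h := fun s t _ => ((expand s.1 t).elim
      (fun a => a.elim (fun _ => (([], (0, 0)) : Qry)) (fun q => q)) (fun _ => ([], (0, 0)))))
    (PTime.fst.comp PTime.snd) (PTime.const _) ?_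
  refine PTime.sum_elim (f := fun p : (ε × (List τ × Bool)) × τ × List τ =>
      expand p.1.1 p.2.1)
    (g := fun _ a => a.elim (fun _ => (([], (0, 0)) : Qry)) (fun q => q))
    (h := fun _ _ => (([], (0, 0)) : Qry)) ?_ ?_ (PTime.const _)
  · exact he.comp ((PTime.fst.comp PTime.fst).pair (PTime.fst.comp PTime.snd))
  · exact PTime.sum_elim
      (f := fun p : ((ε × (List τ × Bool)) × τ × List τ) × (Bool ⊕ Qry) => p.2)
      (g := fun _ _ => (([], (0, 0)) : Qry)) (h := fun _ q => q) PTime.snd (PTime.const _)
      PTime.snd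

theorem next'_ptime {expand : ε → τ → (Bool ⊕ Qry) ⊕ (τ × τ)}
    (he : PTime (fun p : ε × τ => expand p.1 p.2)) :
    PTime (fun p : Bool × (ε × (List τ × Bool)) => next' expand p.1 p.2) := by
  have h1 : PTime (fun p : (Bool × ε) × τ => resolve p.1.1 (expand p.1.2 p.2)) :=
    resolve_ptime (PTime.fst.comp PTime.fst)
      (he.comp ((PTime.snd.comp PTime.fst).pair PTime.snd))
  have h2 := mstep_ptime (ε := Bool × ε) (τ := τ)
    (expand := fun e t => resolve e.1 (expand e.2 t)) h1
  have h3 : PTime (fun p : Bool × (ε × (List τ × Bool)) =>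
      mstep (fun (e : Bool × ε) t => resolve e.1 (expand e.2 t)) ((p.1, p.2.1), p.2.2)) :=
    h2.comp ((PTime.fst.pair (PTime.fst.comp PTime.snd)).pair (PTime.snd.comp PTime.snd))
  exact (PTime.snd.comp (PTime.fst.comp h3)).pair (PTime.snd.comp h3)

/-- The search machine with calls of a given machine at the leaves. -/
theorem oracle_search (tm : FinTM2) (e₀ : tm.Γ tm.k₀ ≃ Bool) (acc : List (tm.Γ tm.k₁))
    {init : List Bool → ε × τ} {expand : ε → τ → (Bool ⊕ Qry) ⊕ (τ × τ)}
    (hi : PTime init) (he : PTime (fun p : ε × τ => expand p.1 p.2)) :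
    ∃ (tm' : FinTM2) (e₀' : tm'.Γ tm'.k₀ ≃ Bool) (acc' rej' : List (tm'.Γ tm'.k₁))
      (P : Polynomial ℕ) (κ : ℕ), acc' ≠ rej' ∧
      ∀ (x : List Bool) (Inv : τ → Prop) (D W : τ → ℕ) (B R : ℕ),
        (∀ s, Inv s → (∃ b, expandA tm e₀ acc expand (init x).1 s = Sum.inl b) ∨
          (∃ l r, expandA tm e₀ acc expand (init x).1 s = Sum.inr (l, r) ∧ Inv l ∧ Inv r ∧
            D l + 1 ≤ D s ∧ D r + 1 ≤ D s ∧ 1 + W l + W r ≤ W s)) → (∀ s, 1 ≤ W s) →
        Inv (init x).2 → (∀ s, Inv s → sz s ≤ B) → sz (init x).1 ≤ B →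
        (∀ s q, Inv s → expand (init x).1 s = Sum.inl (Sum.inr q) → qcost q ≤ R) →
        ∀ m : ℕ, P.eval x.length + W (init x).2 *
          (P.eval (B + ((D (init x).2 + 1) * (B + 1) + 6)) + κ * (R + 2)) ≤ m →
        (AccLeaf (expandA tm e₀ acc expand (init x).1) (init x).2 →
          Nonempty (TM2OutputsInTime tm' (x.map e₀'.symm) (some acc') m)) ∧
        (¬ AccLeaf (expandA tm e₀ acc expand (init x).1) (init x).2 →
          Nonempty (TM2OutputsInTime tm' (x.map e₀'.symm) (some rej') m)) := by
  have hinit : PTime (fun x : List Bool => (((init x).1, ([(init x).2], false)) :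
      ε × (List τ × Bool))) :=
    (PTime.fst.comp hi).pair ((PTime.cons (PTime.snd.comp hi) (PTime.const [])).pair
      (PTime.const false))
  have hdn : PTime (fun s : ε × (List τ × Bool) => s.2.2 || s.2.1.isEmpty) :=
    PTime.or (PTime.snd.comp PTime.snd) (PTime.isEmpty (PTime.fst.comp PTime.snd))
  have hout : PTime (fun s : ε × (List τ × Bool) => s.2.2) := PTime.snd.comp PTime.snd
  obtain ⟨tm', e₀', acc', rej', P, κ, hne, h⟩ := oracle_machine tm e₀ acc hinit
    (query'_ptime he) (next'_ptime he) hdn hout
  refine ⟨tm', e₀', acc', rej', P, κ, hne, ?_⟩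
  intro x Inv D W B R hexp hW hI hB hBe hR m hm
  obtain ⟨k, hk1, hkT, hpre, hres⟩ := dfs_gen (expandA tm e₀ acc expand (init x).1) Inv D W hexp hW
    (D (init x).2) (init x).2 le_rfl hI []
  have hiter : ∀ i (s : ε × (List τ × Bool)),
      (fun s => next' expand (ansT tm e₀ acc (query' expand s)) s)^[i] s =
        (s.1, (dstep (expandA tm e₀ acc expand s.1))^[i] s.2) := by
    intro i
    induction i with
    | zero => intro s; rfl
    | succ i ih =>
      intro s
      rw [Function.iterate_succ_apply, Function.iterate_succ_apply, next'_eq, ih]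
  set B' := B + ((D (init x).2 + 1) * (B + 1) + 6) with hB'
  have hsz : ∀ (pre : List τ) (b : Bool), pre.length ≤ D (init x).2 + 1 → (∀ t ∈ pre, Inv t) →
      sz ((init x).1, (pre, b)) ≤ B' := by
    intro pre b hl hp
    have h1 := sz_list_le pre B (fun t ht => hB t (hp t ht))
    have h2 := sz_bool_le b
    have h3 : pre.length * (B + 1) ≤ (D (init x).2 + 1) * (B + 1) :=
      Nat.mul_le_mul_right _ hl
    simp only [sz_pair]
    omega
  have hm' : P.eval x.length + k * (P.eval B' + κ * (R + 2)) ≤ m :=
    (Nat.add_le_add_left (Nat.mul_le_mul_right _ hkT) _).trans hm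
  have hfin := h x k B' (R + 2) hk1 (by
      intro i hi
      rw [hiter]
      rcases hi.eq_or_lt with rfl | hi
      · rcases hres with ⟨_, pre, hl, hp, hpk⟩ | ⟨_, hk⟩
        · change sz ((init x).1, (dstep (expandA tm e₀ acc expand (init x).1))^[i]
            ([(init x).2], false)) ≤ B'
          rw [hpk, List.append_nil]
          exact hsz pre true hl hp
        · change sz ((init x).1, (dstep (expandA tm e₀ acc expand (init x).1))^[i]
            ([(init x).2], false)) ≤ B'
          rw [hk]
          exact hsz [] false (by simp) (by simp)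
      · obtain ⟨pre, _, hl, hp, hpi⟩ := hpre i hi
        change sz ((init x).1, (dstep (expandA tm e₀ acc expand (init x).1))^[i]
            ([(init x).2], false)) ≤ B'
        rw [hpi, List.append_nil]
        exact hsz pre false hl hp)
    (by
      intro i hi
      rw [hiter]
      obtain ⟨pre, h0, hl, hp, hpi⟩ := hpre i hi
      change qcost (query' expand ((init x).1, (dstep (expandA tm e₀ acc expand (init x).1))^[i]
            ([(init x).2], false))) ≤ _
      rw [hpi, List.append_nil]
      rcases pre with _ | ⟨t, pre⟩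
      · exact absurd rfl h0
      · unfold query'
        simp only
        rcases ht : expand (init x).1 t with (a | q) | lr
        · simp [qcost]
        · simp only [Sum.elim_inl, Sum.elim_inr]
          exact (hR t q (hp t List.mem_cons_self) ht).trans (by omega)
        · simp [qcost])
    (by
      intro i _ hi
      rw [hiter]
      obtain ⟨pre, h0, _, _, hpi⟩ := hpre i hi
      change (((dstep (expandA tm e₀ acc expand (init x).1))^[i] ([(init x).2], false)).2 ||
        ((dstep (expandA tm e₀ acc expand (init x).1))^[i] ([(init x).2], false)).1.isEmpty) = false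
      rw [hpi, List.append_nil]
      simp [h0])
    (by
      rw [hiter]
      change (((dstep (expandA tm e₀ acc expand (init x).1))^[k] ([(init x).2], false)).2 ||
        ((dstep (expandA tm e₀ acc expand (init x).1))^[k] ([(init x).2], false)).1.isEmpty) = true
      rcases hres with ⟨_, pre, _, _, hpk⟩ | ⟨_, hk⟩
      · rw [hpk]; simp
      · rw [hk]; simp)
    m hm'
  rw [hiter] at hfin
  constructor
  · intro hacc
    rcases hres with ⟨_, pre, _, _, hpk⟩ | ⟨hna, _⟩
    · simp only [hpk] at hfin
      simpa using hfin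
    · exact absurd hacc hna
  · intro hacc
    rcases hres with ⟨ha, _⟩ | ⟨_, hk⟩
    · exact absurd ha hacc
    · simp only [hk] at hfin
      simpa using hfin

end machine

end Pool.Agent.Lib.MP_87d05f_lc
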