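import Mathlib
import Pool.Agent.Lib.MP_87d05f_lc.Assign
import Pool.Agent.Lib.MP_87d05f_lc.OracleSearch

set_option autoImplicit false

/-!
# The search tree of the sparsification, in general form
-/

namespace Pool.Agent.Lib.MP_87d05f_lc

open Pool.Agent.PolyTime Function Turing

/-- formulas with variables in binary -/
abbrev BF' := List (List (Lit (List Bool)))

section defs

variable {ε ν : Type} [SCode ε] [SCode ν]

/-- nodes of the search: nodes of the branching process, or a formula with a list of variables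
still to be given values -/
abbrev NdG (ν : Type) := ν ⊕ (BF' × List (List Bool))

variable (bad : ε → Bool) (ru : ε → ν → Option (ν × ν)) (lf : ε → ν → BF' × List (List Bool))
  (qf : BF' → Qry)

/-- the end of the search -/
def gfin (G : BF') : (Bool ⊕ Qry) ⊕ (NdG ν × NdG ν) :=
  bif decide (([] : List (Lit (List Bool))) ∈ G) then Sum.inl (Sum.inl false) else
  bif G.isEmpty then Sum.inl (Sum.inl true) else Sum.inl (Sum.inr (qf G))

/-- branching on the listed variables -/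
def gexp2 (G : BF') (vs : List (List Bool)) : (Bool ⊕ Qry) ⊕ (NdG ν × NdG ν) :=
  (List.casesOn vs (gfin qf G) (fun v vs' =>
    Sum.inr (Sum.inr (assign G v true, vs'), Sum.inr (assign G v false, vs'))))

/-- the search tree -/
def gexp (e : ε) (t : NdG ν) : (Bool ⊕ Qry) ⊕ (NdG ν × NdG ν) :=
  bif bad e then Sum.inl (Sum.inl false) else
  t.elim (fun s => (Option.casesOn (ru e s) (gexp2 qf (lf e s).1 (lf e s).2)
      (fun lr => Sum.inr (Sum.inl lr.1, Sum.inl lr.2))))
    (fun Gv => gexp2 qf Gv.1 Gv.2)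

theorem gfin_ptime {α : Type} [SCode α] {G : α → BF'} (hq : PTime qf) (hG : PTime G) :
    PTime (fun a => (gfin qf (G a) : (Bool ⊕ Qry) ⊕ (NdG ν × NdG ν))) := by
  unfold gfin
  exact PTime.cond (mem_ptime (PTime.const []) hG) (PTime.const _)
    (PTime.cond (PTime.isEmpty hG) (PTime.const _) (PTime.inl (PTime.inr (hq.comp hG))))

theorem gexp2_ptime {α : Type} [SCode α] {G : α → BF'} {vs : α → List (List Bool)}
    (hq : PTime qf) (hG : PTime G) (hv : PTime vs) :
    PTime (fun a => (gexp2 qf (G a) (vs a) : (Bool ⊕ Qry) ⊕ (NdG ν × NdG ν))) := by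
  unfold gexp2
  refine PTime.list_casesOn (f := vs) (g := fun a => gfin qf (G a))
    (h := fun a v vs' => (Sum.inr (Sum.inr (assign (G a) v true, vs'),
      Sum.inr (assign (G a) v false, vs')) : (Bool ⊕ Qry) ⊕ (NdG ν × NdG ν))) hv
    (gfin_ptime qf hq hG) ?_
  have h1 : PTime (fun q : α × List Bool × List (List Bool) => G q.1) := hG.comp PTime.fst
  have h2 : PTime (fun q : α × List Bool × List (List Bool) => q.2.1) :=
    PTime.fst.comp PTime.snd
  have h3 : PTime (fun q : α × List Bool × List (List Bool) => q.2.2) :=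
    PTime.snd.comp PTime.snd
  exact PTime.inr (PTime.pair (PTime.inr ((assign_ptime h1 h2 (PTime.const true)).pair h3))
    (PTime.inr ((assign_ptime h1 h2 (PTime.const false)).pair h3)))

theorem gexp_ptime (hb : PTime bad) (hr : PTime (fun x : ε × ν => ru x.1 x.2))
    (hl : PTime (fun x : ε × ν => lf x.1 x.2)) (hq : PTime qf) :
    PTime (fun x : ε × NdG ν => gexp bad ru lf qf x.1 x.2) := by
  unfold gexp
  refine PTime.cond (hb.comp PTime.fst) (PTime.const _) ?_
  refine PTime.sum_elim (f := fun x : ε × NdG ν => x.2)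
    (g := fun x s => (Option.casesOn (ru x.1 s) (gexp2 qf (lf x.1 s).1 (lf x.1 s).2)
      (fun lr => Sum.inr (Sum.inl lr.1, Sum.inl lr.2)) : (Bool ⊕ Qry) ⊕ (NdG ν × NdG ν)))
    (h := fun _ Gv => gexp2 qf Gv.1 Gv.2) PTime.snd ?_ ?_
  · have h1 : PTime (fun y : (ε × NdG ν) × ν => (y.1.1, y.2)) :=
      (PTime.fst.comp PTime.fst).pair PTime.snd
    refine PTime.option_casesOn (f := fun y : (ε × NdG ν) × ν => ru y.1.1 y.2)
      (g := fun y => gexp2 qf (lf y.1.1 y.2).1 (lf y.1.1 y.2).2)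
      (h := fun _ lr => (Sum.inr (Sum.inl lr.1, Sum.inl lr.2) :
        (Bool ⊕ Qry) ⊕ (NdG ν × NdG ν)))
      (hr.comp h1) (gexp2_ptime qf hq (PTime.fst.comp (hl.comp h1))
        (PTime.snd.comp (hl.comp h1))) ?_
    exact PTime.inr (PTime.pair (PTime.inl (PTime.fst.comp PTime.snd))
      (PTime.inl (PTime.snd.comp PTime.snd)))
  · exact gexp2_ptime qf hq (PTime.fst.comp PTime.snd) (PTime.snd.comp PTime.snd)

/-! ### Semantics -/

variable (tm : FinTM2) (e₀ : tm.Γ tm.k₀ ≃ Bool) (acc : List (tm.Γ tm.k₁))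

/-- the search tree with the answers -/
noncomputable def GX (e : ε) (t : NdG ν) : Bool ⊕ (NdG ν × NdG ν) :=
  expandA tm e₀ acc (gexp bad ru lf qf) e t

/-- the final answer on a formula -/
noncomputable def gfinA (G : BF') : Bool ⊕ (NdG ν × NdG ν) :=
  (gfin qf G).elim (fun a => a.elim (fun b => Sum.inl b) (fun q => Sum.inl (ansT tm e₀ acc q)))
    (fun lr => Sum.inr lr)

omit [SCode ε] [SCode ν] in
theorem GX_bad {e : ε} (h0 : bad e = true) (t : NdG ν) :
    GX bad ru lf qf tm e₀ acc e t = Sum.inl false := by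
  unfold GX expandA gexp
  rw [h0]
  rfl

omit [SCode ε] [SCode ν] in
theorem GX_inr_nil {e : ε} (h0 : bad e = false) (G : BF') :
    GX bad ru lf qf tm e₀ acc e (Sum.inr (G, [])) = gfinA qf tm e₀ acc G := by
  unfold GX expandA gexp gfinA
  rw [h0]
  rfl

omit [SCode ε] [SCode ν] in
theorem GX_inr_cons {e : ε} (h0 : bad e = false) (G : BF') (v : List Bool)
    (vs : List (List Bool)) :
    GX bad ru lf qf tm e₀ acc e (Sum.inr (G, v :: vs)) =
      Sum.inr (Sum.inr (assign G v true, vs), Sum.inr (assign G v false, vs)) := by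
  unfold GX expandA gexp
  rw [h0]
  rfl

omit [SCode ε] [SCode ν] in
theorem GX_inl_some {e : ε} (h0 : bad e = false) {s : ν} {lr : ν × ν}
    (h : ru e s = some lr) :
    GX bad ru lf qf tm e₀ acc e (Sum.inl s) = Sum.inr (Sum.inl lr.1, Sum.inl lr.2) := by
  unfold GX expandA gexp
  rw [h0]
  simp only [cond_false, Sum.elim_inl]
  rw [h]
  rfl

omit [SCode ε] [SCode ν] in
theorem GX_inl_none {e : ε} (h0 : bad e = false) {s : ν} (h : ru e s = none) :
    GX bad ru lf qf tm e₀ acc e (Sum.inl s) =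
      GX bad ru lf qf tm e₀ acc e (Sum.inr (lf e s)) := by
  unfold GX expandA gexp
  rw [h0]
  simp only [cond_false, Sum.elim_inl, Sum.elim_inr]
  rw [h]

theorem accLeaf_congr' {τ : Type} {E : τ → Bool ⊕ (τ × τ)} {s s' : τ} (h : E s = E s') :
    AccLeaf E s → AccLeaf E s' := by
  intro ha
  cases ha with
  | leaf h1 => exact .leaf (by rw [← h]; exact h1)
  | left h1 h2 => exact .left (by rw [← h]; exact h1) h2
  | right h1 h2 => exact .right (by rw [← h]; exact h1) h2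

omit [SCode ε] [SCode ν] in
theorem gacc2_of {e : ε} (h0 : bad e = false) (a : List Bool → Bool)
    (vs : List (List Bool)) : ∀ G : BF',
    (gfinA qf tm e₀ acc (assignAll G (vs.map (fun v => (v, a v)))) :
      Bool ⊕ (NdG ν × NdG ν)) = Sum.inl true →
    AccLeaf (GX bad ru lf qf tm e₀ acc e) (Sum.inr (G, vs)) := by
  induction vs with
  | nil =>
    intro G h
    refine .leaf ?_
    rw [GX_inr_nil bad ru lf qf tm e₀ acc h0]
    exact h
  | cons v vs ih =>
    intro G h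
    rw [List.map_cons, assignAll_cons] at h
    have h1 := ih _ h
    have h2 := GX_inr_cons bad ru lf qf tm e₀ acc h0 G v vs
    rcases hv : a v with _ | _
    · simp only [hv] at h1
      exact .right h2 h1
    · simp only [hv] at h1
      exact .left h2 h1

omit [SCode ε] [SCode ν] in
theorem gacc2_exists {e : ε} (h0 : bad e = false) (vs : List (List Bool)) :
    ∀ G : BF', AccLeaf (GX bad ru lf qf tm e₀ acc e) (Sum.inr (G, vs)) →
    ∃ ps : List (List Bool × Bool), ps.map Prod.fst = vs ∧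
      (gfinA qf tm e₀ acc (assignAll G ps) : Bool ⊕ (NdG ν × NdG ν)) = Sum.inl true := by
  induction vs with
  | nil =>
    intro G h
    refine ⟨[], rfl, ?_⟩
    have h2 := GX_inr_nil bad ru lf qf tm e₀ acc h0 G
    have h3 : ∀ lr, (gfinA qf tm e₀ acc G : Bool ⊕ (NdG ν × NdG ν)) ≠ Sum.inr lr := by
      intro lr
      unfold gfinA gfin
      rcases decide (([] : List (Lit (List Bool))) ∈ G) with _ | _ <;>
        rcases G.isEmpty with _ | _ <;> simp
    cases h with
    | leaf h1 => rw [h2] at h1; exact h1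
    | left h1 _ => rw [h2] at h1; exact absurd h1 (h3 _)
    | right h1 _ => rw [h2] at h1; exact absurd h1 (h3 _)
  | cons v vs ih =>
    intro G h
    have h2 := GX_inr_cons bad ru lf qf tm e₀ acc h0 G v vs
    cases h with
    | leaf h1 => rw [h2] at h1; simp at h1
    | left h1 h3 =>
      rw [h2] at h1
      simp only [Sum.inr.injEq, Prod.mk.injEq] at h1
      obtain ⟨rfl, rfl⟩ := h1
      obtain ⟨ps, hps, h4⟩ := ih _ h3
      exact ⟨(v, true) :: ps, by rw [List.map_cons, hps], h4⟩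
    | right h1 h3 =>
      rw [h2] at h1
      simp only [Sum.inr.injEq, Prod.mk.injEq] at h1
      obtain ⟨rfl, rfl⟩ := h1
      obtain ⟨ps, hps, h4⟩ := ih _ h3
      exact ⟨(v, false) :: ps, by rw [List.map_cons, hps], h4⟩

omit [SCode ε] [SCode ν] in
/-- completeness of the whole search -/
theorem gaccS_of_sat {e : ε} (h0 : bad e = false) {a : List Bool → Bool}
    (Inv : ν → Prop) (Pt : ν → ℕ) (Sat : ν → Prop) {κ : ℕ} (hκ : 1 ≤ κ)
    (hru : ∀ s, Inv s → ru e s = none ∨ ∃ l r, ru e s = some (l, r) ∧ Inv l ∧ Inv r ∧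
      Pt l + 1 ≤ Pt s ∧ Pt r + κ ≤ Pt s)
    (hsat : ∀ s l r, Sat s → ru e s = some (l, r) → Sat l ∨ Sat r)
    (hleaf : ∀ s, Inv s → Sat s → ru e s = none →
      (gfinA qf tm e₀ acc (assignAll (lf e s).1 ((lf e s).2.map (fun v => (v, a v)))) :
        Bool ⊕ (NdG ν × NdG ν)) = Sum.inl true) :
    ∀ (n : ℕ) (s : ν), Pt s ≤ n → Inv s → Sat s →
    AccLeaf (GX bad ru lf qf tm e₀ acc e) (Sum.inl s) := by
  have hl : ∀ s : ν, Inv s → Sat s → ru e s = none →
      AccLeaf (GX bad ru lf qf tm e₀ acc e) (Sum.inl s) := by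
    intro s hs hsa hr
    refine accLeaf_congr' (GX_inl_none bad ru lf qf tm e₀ acc h0 hr).symm ?_
    exact gacc2_of bad ru lf qf tm e₀ acc h0 a _ _ (hleaf s hs hsa hr)
  intro n
  induction n with
  | zero =>
    intro s hn hs hsa
    rcases hru s hs with h | ⟨l, r, h, _, _, h1, _⟩
    · exact hl s hs hsa h
    · omega
  | succ n ih =>
    intro s hn hs hsa
    rcases hru s hs with h | ⟨l, r, h, hl', hr', h1, h2⟩
    · exact hl s hs hsa h
    · have hE := GX_inl_some bad ru lf qf tm e₀ acc h0 h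
      rcases hsat s l r hsa h with h3 | h3
      · exact .left hE (ih l (by omega) hl' h3)
      · exact .right hE (ih r (by omega) hr' h3)

omit [SCode ε] [SCode ν] in
/-- an accepted node has an accepted end formula -/
theorem gexists_fin {e : ε} (h0 : bad e = false) (Inv : ν → Prop)
    (hru : ∀ s l r, Inv s → ru e s = some (l, r) → Inv l ∧ Inv r) {t : NdG ν}
    (h : AccLeaf (GX bad ru lf qf tm e₀ acc e) t) :
    ∀ s : ν, t = Sum.inl s → Inv s →
    ∃ s', Inv s' ∧ ru e s' = none ∧ ∃ ps : List (List Bool × Bool),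
      ps.map Prod.fst = (lf e s').2 ∧
      (gfinA qf tm e₀ acc (assignAll (lf e s').1 ps) : Bool ⊕ (NdG ν × NdG ν)) =
        Sum.inl true := by
  have hleaf : ∀ s : ν, Inv s → ru e s = none →
      AccLeaf (GX bad ru lf qf tm e₀ acc e) (Sum.inl s) →
      ∃ s', Inv s' ∧ ru e s' = none ∧ ∃ ps : List (List Bool × Bool),
      ps.map Prod.fst = (lf e s').2 ∧
      (gfinA qf tm e₀ acc (assignAll (lf e s').1 ps) : Bool ⊕ (NdG ν × NdG ν)) =
        Sum.inl true := by
    intro s hs hr ha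
    have h1 := accLeaf_congr' (GX_inl_none bad ru lf qf tm e₀ acc h0 hr) ha
    obtain ⟨ps, h2, h3⟩ := gacc2_exists bad ru lf qf tm e₀ acc h0 (lf e s).2 (lf e s).1 h1
    exact ⟨s, hs, hr, ps, h2, h3⟩
  induction h with
  | @leaf t h =>
    rintro s rfl hs
    rcases hr : ru e s with _ | lr
    · exact hleaf s hs hr (.leaf h)
    · rw [GX_inl_some bad ru lf qf tm e₀ acc h0 hr] at h
      simp at h
  | @left t l r h h' ih =>
    rintro s rfl hs
    rcases hr : ru e s with _ | lr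
    · exact hleaf s hs hr (.left h h')
    · obtain ⟨h1, h2⟩ := hru s lr.1 lr.2 hs hr
      rw [GX_inl_some bad ru lf qf tm e₀ acc h0 hr] at h
      simp only [Sum.inr.injEq, Prod.mk.injEq] at h
      exact ih lr.1 h.1.symm h1
  | @right t l r h h' ih =>
    rintro s rfl hs
    rcases hr : ru e s with _ | lr
    · exact hleaf s hs hr (.right h h')
    · obtain ⟨h1, h2⟩ := hru s lr.1 lr.2 hs hr
      rw [GX_inl_some bad ru lf qf tm e₀ acc h0 hr] at h
      simp only [Sum.inr.injEq, Prod.mk.injEq] at h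
      exact ih lr.2 h.2.symm h2

/-! ### The bounds of the search -/

/-- the invariant of the nodes: `E1` bounds sizes, `Fm` the number of occurrences, `Hm` the
number of variables to branch on -/
def GInv (Inv : ν → Prop) (E1 Fm Hm : ℕ) (t : NdG ν) : Prop :=
  t.elim (fun s => Inv s)
    (fun Gv => sz Gv.1 ≤ E1 ∧ sz Gv.2 ≤ E1 ∧ (vlist Gv.1).length ≤ Fm ∧ Gv.2.length ≤ Hm)

/-- depth -/
def GDep (Pt : ν → ℕ) (Hm : ℕ) (t : NdG ν) : ℕ :=
  t.elim (fun s => Pt s + Hm) (fun Gv => Gv.2.length)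

/-- number of nodes -/
def GWt (T : ℕ → ℕ) (Pt : ν → ℕ) (Hm : ℕ) (t : NdG ν) : ℕ :=
  t.elim (fun s => T (Pt s) * 2 ^ (Hm + 2)) (fun Gv => 2 ^ (Gv.2.length + 1) - 1)

omit [SCode ε] [SCode ν] in
theorem gexp2_spec {e : ε} (h0 : bad e = false) {E1 Fm Hm : ℕ} (G : BF')
    (vs : List (List Bool)) (h1 : sz G ≤ E1) (h2 : sz vs ≤ E1) (h3 : (vlist G).length ≤ Fm)
    (h4 : vs.length ≤ Hm) :
    (∃ b, GX bad ru lf qf tm e₀ acc e (Sum.inr (G, vs)) = Sum.inl b) ∨
    (∃ G₁ G₂ vs', GX bad ru lf qf tm e₀ acc e (Sum.inr (G, vs)) =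
      Sum.inr (Sum.inr (G₁, vs'), Sum.inr (G₂, vs')) ∧
      (sz G₁ ≤ E1 ∧ sz vs' ≤ E1 ∧ (vlist G₁).length ≤ Fm ∧ vs'.length ≤ Hm) ∧
      (sz G₂ ≤ E1 ∧ sz vs' ≤ E1 ∧ (vlist G₂).length ≤ Fm ∧ vs'.length ≤ Hm) ∧
      vs'.length + 1 = vs.length) := by
  rcases vs with _ | ⟨v, vs⟩
  · left
    rw [GX_inr_nil bad ru lf qf tm e₀ acc h0]
    unfold gfinA gfin
    rcases decide (([] : List (Lit (List Bool))) ∈ G) with _ | _
    · rcases G.isEmpty with _ | _
      · exact ⟨_, rfl⟩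
      · exact ⟨_, rfl⟩
    · exact ⟨_, rfl⟩
  · right
    have hv : ∀ b, (vlist (assign G v b)).length ≤ (vlist G).length := by
      intro b
      exact ((assign_flatten G v b).map _).length_le
    rw [sz_cons] at h2
    rw [List.length_cons] at h4
    refine ⟨_, _, vs, GX_inr_cons bad ru lf qf tm e₀ acc h0 G v vs,
      ⟨(sz_assign_le G v true).trans h1, by omega, (hv true).trans h3, by omega⟩,
      ⟨(sz_assign_le G v false).trans h1, by omega, (hv false).trans h3, by omega⟩, by simp⟩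

omit [SCode ε] [SCode ν] in
theorem GX_spec {e : ε} {κ : ℕ} (hκ : 1 ≤ κ) (Inv : ν → Prop) (Pt : ν → ℕ) {T : ℕ → ℕ}
    (hT1 : ∀ m, 1 ≤ T m)
    (hT : ∀ m m₁ m₂, m₁ + 1 ≤ m → m₂ + κ ≤ m → 1 + T m₁ + T m₂ ≤ T m) {E1 Fm Hm : ℕ}
    (hru : bad e = false → ∀ s, Inv s → ru e s = none ∨ ∃ l r, ru e s = some (l, r) ∧ Inv l ∧
      Inv r ∧ Pt l + 1 ≤ Pt s ∧ Pt r + κ ≤ Pt s)
    (hleaf : bad e = false → ∀ s, Inv s → ru e s = none → sz (lf e s).1 ≤ E1 ∧
      sz (lf e s).2 ≤ E1 ∧ (vlist (lf e s).1).length ≤ Fm ∧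
      (lf e s).2.length ≤ Hm) (t : NdG ν) (ht : GInv Inv E1 Fm Hm t) :
    (∃ b, GX bad ru lf qf tm e₀ acc e t = Sum.inl b) ∨
    (∃ l r, GX bad ru lf qf tm e₀ acc e t = Sum.inr (l, r) ∧ GInv Inv E1 Fm Hm l ∧
      GInv Inv E1 Fm Hm r ∧ GDep Pt Hm l + 1 ≤ GDep Pt Hm t ∧ GDep Pt Hm r + 1 ≤ GDep Pt Hm t ∧
      1 + GWt T Pt Hm l + GWt T Pt Hm r ≤ GWt T Pt Hm t) := by
  rcases hb : bad e with _ | _
  swap
  · exact Or.inl ⟨false, GX_bad bad ru lf qf tm e₀ acc hb t⟩
  have h0 := hb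
  rcases t with s | ⟨G, vs⟩
  · change Inv s at ht
    rcases hru h0 s ht with h | ⟨l, r, h, hl, hr, h1, h2⟩
    · obtain ⟨g1, g2, g3, g4⟩ := hleaf h0 s ht h
      rw [GX_inl_none bad ru lf qf tm e₀ acc h0 h]
      rcases gexp2_spec bad ru lf qf tm e₀ acc h0 _ _ g1 g2 g3 g4 with
        h' | ⟨G₁, G₂, vs', h', i1, i2, i3⟩
      · exact Or.inl h'
      · refine Or.inr ⟨_, _, h', i1, i2, ?_, ?_, ?_⟩
        · change vs'.length + 1 ≤ Pt s + Hm
          omega
        · change vs'.length + 1 ≤ Pt s + Hm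
          omega
        · change 1 + (2 ^ (vs'.length + 1) - 1) + (2 ^ (vs'.length + 1) - 1) ≤
            T (Pt s) * 2 ^ (Hm + 2)
          have j1 : 2 ^ (vs'.length + 1) ≤ 2 ^ (Hm + 1) :=
            Nat.pow_le_pow_right (by norm_num) (by omega)
          have j2 : 2 ^ (Hm + 2) = 2 * 2 ^ (Hm + 1) := by rw [pow_succ]; ring
          have j3 : 1 * 2 ^ (Hm + 2) ≤ T (Pt s) * 2 ^ (Hm + 2) :=
            Nat.mul_le_mul_right _ (hT1 _)
          have j4 : 1 ≤ 2 ^ (vs'.length + 1) := Nat.one_le_two_pow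
          generalize T (Pt s) * 2 ^ (Hm + 2) = X at *
          generalize 2 ^ (vs'.length + 1) = Y at *
          generalize 2 ^ (Hm + 2) = Z at *
          generalize 2 ^ (Hm + 1) = U at *
          omega
    · refine Or.inr ⟨_, _, GX_inl_some bad ru lf qf tm e₀ acc h0 h, hl, hr, ?_, ?_, ?_⟩
      · change Pt l + Hm + 1 ≤ Pt s + Hm
        omega
      · change Pt r + Hm + 1 ≤ Pt s + Hm
        omega
      · change 1 + T (Pt l) * 2 ^ (Hm + 2) + T (Pt r) * 2 ^ (Hm + 2) ≤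
          T (Pt s) * 2 ^ (Hm + 2)
        have j1 := Nat.mul_le_mul_right (2 ^ (Hm + 2)) (hT _ _ _ h1 h2)
        have j2 : 1 ≤ 2 ^ (Hm + 2) := Nat.one_le_two_pow
        nlinarith
  · obtain ⟨g1, g2, g3, g4⟩ := ht
    rcases gexp2_spec bad ru lf qf tm e₀ acc h0 G vs g1 g2 g3 g4 with
        h' | ⟨G₁, G₂, vs', h', i1, i2, i3⟩
    · exact Or.inl h'
    · refine Or.inr ⟨_, _, h', i1, i2, ?_, ?_, ?_⟩
      · change vs'.length + 1 ≤ vs.length
        omega
      · change vs'.length + 1 ≤ vs.length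
        omega
      · change 1 + (2 ^ (vs'.length + 1) - 1) + (2 ^ (vs'.length + 1) - 1) ≤
            2 ^ (vs.length + 1) - 1
        rw [← i3]
        have j2 : 2 ^ (vs'.length + 1 + 1) = 2 * 2 ^ (vs'.length + 1) := by rw [pow_succ]; ring
        have j3 : 1 ≤ 2 ^ (vs'.length + 1) := Nat.one_le_two_pow
        omega

omit [SCode ν] in
theorem GWt_pos {T : ℕ → ℕ} (hT1 : ∀ m, 1 ≤ T m) (Pt : ν → ℕ) (Hm : ℕ) (t : NdG ν) :
    1 ≤ GWt T Pt Hm t := by
  rcases t with s | ⟨G, vs⟩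
  · change 1 ≤ T (Pt s) * 2 ^ (Hm + 2)
    exact Nat.mul_pos (hT1 _) (by positivity)
  · change 1 ≤ 2 ^ (vs.length + 1) - 1
    have j2 : 2 ^ (vs.length + 1) = 2 * 2 ^ vs.length := by rw [pow_succ]; ring
    have j3 : 1 ≤ 2 ^ vs.length := Nat.one_le_two_pow
    omega

omit [SCode ε] [SCode ν] in
/-- the queries of the search -/
theorem gquery_of {e : ε} (Inv : ν → Prop) {E1 Fm Hm : ℕ}
    (hleaf : bad e = false → ∀ s, Inv s → ru e s = none → sz (lf e s).1 ≤ E1 ∧
      sz (lf e s).2 ≤ E1 ∧ (vlist (lf e s).1).length ≤ Fm ∧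
      (lf e s).2.length ≤ Hm) (t : NdG ν) (ht : GInv Inv E1 Fm Hm t) (y : Qry)
    (hy : gexp bad ru lf qf e t = Sum.inl (Sum.inr y)) :
    ∃ G : BF', sz G ≤ E1 ∧ (vlist G).length ≤ Fm ∧ [] ∉ G ∧ y = qf G := by
  have hfin : ∀ G : BF', sz G ≤ E1 → (vlist G).length ≤ Fm →
      (gfin qf G : (Bool ⊕ Qry) ⊕ (NdG ν × NdG ν)) = Sum.inl (Sum.inr y) →
      ∃ G : BF', sz G ≤ E1 ∧ (vlist G).length ≤ Fm ∧ [] ∉ G ∧ y = qf G := by
    intro G g1 g2 hG
    unfold gfin at hG
    by_cases h1 : [] ∈ G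
    · rw [decide_eq_true h1] at hG
      simp at hG
    · rw [decide_eq_false h1] at hG
      rcases h2 : G.isEmpty with _ | _
      · rw [h2] at hG
        simp only [cond_false, Sum.inl.injEq, Sum.inr.injEq] at hG
        exact ⟨G, g1, g2, h1, hG.symm⟩
      · rw [h2] at hG
        simp at hG
  have hexp : ∀ (G : BF') (vs : List (List Bool)), sz G ≤ E1 → (vlist G).length ≤ Fm →
      (gexp2 qf G vs : (Bool ⊕ Qry) ⊕ (NdG ν × NdG ν)) = Sum.inl (Sum.inr y) →
      ∃ G : BF', sz G ≤ E1 ∧ (vlist G).length ≤ Fm ∧ [] ∉ G ∧ y = qf G := by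
    intro G vs g1 g2 hG
    unfold gexp2 at hG
    rcases vs with _ | ⟨v, vs⟩
    · exact hfin G g1 g2 hG
    · simp at hG
  unfold gexp at hy
  rcases h0 : bad e with _ | _
  · rw [h0] at hy
    simp only [cond_false] at hy
    rcases t with s | ⟨G, vs⟩
    · rcases hr : ru e s with _ | lr
      · obtain ⟨g1, g2, g3, g4⟩ := hleaf h0 s ht hr
        simp only [Sum.elim_inl] at hy
        rw [hr] at hy
        exact hexp _ _ g1 g3 hy
      · simp only [Sum.elim_inl] at hy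
        rw [hr] at hy
        simp at hy
    · obtain ⟨g1, g2, g3, g4⟩ := ht
      exact hexp _ _ g1 g3 hy
  · rw [h0] at hy
    simp at hy

end defs

end Pool.Agent.Lib.MP_87d05f_lc
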