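import Mathlib
import Pool.Agent.Lib.MP_87d05f_lc.Parse

set_option autoImplicit false

/-!
# The search tree with 2-SAT at the leaves
-/

namespace Pool.Agent.Lib.MP_87d05f_lc

open Pool.Agent.PolyTime Function

section leaf

variable {V : Type} [DecidableEq V]

/-- the literals of the unit clauses -/
def units (e : Env V) : List (Lit V) := e.2.1.filter (fun x => decide ([x] ∈ e.1))

/-- the test at a leaf -/
def leaf (e : Env V) (s : Nd V) : Bool :=
  !decide (([] : List (Lit V)) ∈ e.1) && twoSat e.2.1 (s.1 ++ units e) (s.2 ++ e.2.2)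

/-- the search tree -/
def expand (θ : ℕ) (e : Env V) (s : Nd V) : Bool ⊕ (Nd V × Nd V) :=
  (Option.casesOn (rule θ e s) (Sum.inl (leaf e s)) (fun lr => Sum.inr lr))

theorem expand_none {θ : ℕ} {e : Env V} {s : Nd V} (h : rule θ e s = none) :
    expand θ e s = Sum.inl (leaf e s) := by
  unfold expand
  rw [h]

theorem expand_some {θ : ℕ} {e : Env V} {s : Nd V} {lr : Nd V × Nd V}
    (h : rule θ e s = some lr) : expand θ e s = Sum.inr lr := by
  unfold expand
  rw [h]

theorem mem_units {e : Env V} {x : Lit V} (he : WF e) : x ∈ units e ↔ [x] ∈ e.1 := by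
  unfold units
  simp only [List.mem_filter, decide_eq_true_eq]
  exact ⟨fun h => h.2, fun h => ⟨he.csub _ h x (by simp), h⟩⟩

theorem leaf_iff {θ : ℕ} {e : Env V} {s : Nd V} (he : WF e) (hs : Inv θ e s) :
    leaf e s = true ↔ [] ∉ e.1 ∧ ∃ a : V → Bool, NSat a s ∧ (∀ x, [x] ∈ e.1 → tr a x) ∧
      ∀ x y, [x, y] ∈ e.1 → tr a x ∨ tr a y := by
  unfold leaf
  rw [Bool.and_eq_true, Bool.not_eq_true', decide_eq_false_iff_not]
  refine and_congr_right fun _ => ?_
  rw [twoSat_iff]
  · constructor
    · rintro ⟨a, h1, h2⟩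
      refine ⟨a, ⟨fun u hu => h1 u (List.mem_append_left _ hu), fun p hp =>
        h2 p (List.mem_append_left _ hp)⟩, fun x hx => ?_, fun x y hxy => ?_⟩
      · exact h1 x (List.mem_append_right _ ((mem_units he).2 hx))
      · exact h2 (x, y) (List.mem_append_right _ ((he.pairs x y).2 (Or.inl hxy)))
    · rintro ⟨a, ⟨h1, h2⟩, h3, h4⟩
      refine ⟨a, fun u hu => ?_, fun p hp => ?_⟩
      · rcases List.mem_append.1 hu with hu | hu
        · exact h1 u hu
        · exact h3 u ((mem_units he).1 hu)
      · rcases List.mem_append.1 hp with hp | hp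
        · exact h2 p hp
        · rcases (he.pairs p.1 p.2).1 hp with h | h
          · exact h4 _ _ h
          · exact (h4 _ _ h).symm
  · intro u hu
    rcases List.mem_append.1 hu with hu | hu
    · exact List.mem_toFinset.1 (hs.fi.sub (List.mem_toFinset.2 hu))
    · exact (List.mem_filter.1 hu).1
  · intro p hp
    rcases List.mem_append.1 hp with hp | hp
    · have := hs.fi.psub p (List.mem_toFinset.2 hp)
      exact ⟨List.mem_toFinset.1 this.1, List.mem_toFinset.1 this.2⟩
    · rcases (he.pairs p.1 p.2).1 hp with h | h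
      · exact ⟨he.csub _ h _ (by simp), he.csub _ h _ (by simp)⟩
      · exact ⟨he.csub _ h _ (by simp), he.csub _ h _ (by simp)⟩

theorem expand_spec {θ : ℕ} {e : Env V} (hθ : 1 ≤ θ) (he : WF e) (s : Nd V) (hs : Inv θ e s) :
    (∃ b, expand θ e s = Sum.inl b) ∨ ∃ l r, expand θ e s = Sum.inr (l, r) ∧ Inv θ e l ∧
      Inv θ e r ∧ Pot θ e l + 1 ≤ Pot θ e s ∧ Pot θ e r + θ * θ ≤ Pot θ e s := by
  rcases rule_spec hθ he hs with h | ⟨l, r, h, h'⟩
  · exact Or.inl ⟨_, expand_none h⟩
  · exact Or.inr ⟨l, r, expand_some h, h'⟩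

/-- satisfiable formulas are accepted -/
theorem accLeaf_of_sat {θ : ℕ} {e : Env V} (hθ : 1 ≤ θ) (he : WF e) {a : V → Bool}
    (ha : FSat a e) : ∀ (n : ℕ) (s : Nd V), Pot θ e s ≤ n → Inv θ e s → NSat a s →
    AccLeaf (expand θ e) s := by
  intro n
  induction n with
  | zero =>
    intro s hn hs hsa
    rcases rule_spec hθ he hs with h | ⟨l, r, h, _, _, h1, _⟩
    · refine .leaf ?_
      rw [expand_none h, Sum.inl.injEq, leaf_iff he hs]
      refine ⟨fun h0 => ?_, a, hsa, fun x hx => ?_, fun x y hxy => ?_⟩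
      · obtain ⟨l, hl, _⟩ := ha _ h0
        simp at hl
      · obtain ⟨l, hl, h⟩ := ha _ hx
        rw [List.mem_singleton] at hl
        subst hl
        exact h
      · obtain ⟨l, hl, h⟩ := ha _ hxy
        simp only [List.mem_cons, List.not_mem_nil, or_false] at hl
        rcases hl with rfl | rfl
        · exact Or.inl h
        · exact Or.inr h
    · omega
  | succ n ih =>
    intro s hn hs hsa
    rcases rule_spec hθ he hs with h | ⟨l, r, h, hl, hr, h1, h2⟩
    · refine .leaf ?_
      rw [expand_none h, Sum.inl.injEq, leaf_iff he hs]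
      refine ⟨fun h0 => ?_, a, hsa, fun x hx => ?_, fun x y hxy => ?_⟩
      · obtain ⟨l, hl, _⟩ := ha _ h0
        simp at hl
      · obtain ⟨l, hl, h⟩ := ha _ hx
        rw [List.mem_singleton] at hl
        subst hl
        exact h
      · obtain ⟨l, hl, h⟩ := ha _ hxy
        simp only [List.mem_cons, List.not_mem_nil, or_false] at hl
        rcases hl with rfl | rfl
        · exact Or.inl h
        · exact Or.inr h
    · have hθ2 : 1 * 1 ≤ θ * θ := Nat.mul_le_mul hθ hθ
      rcases rule_sat he ha hsa h with h3 | h3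
      · exact .left (expand_some h) (ih l (by omega) hl h3)
      · exact .right (expand_some h) (ih r (by omega) hr h3)

/-- an accepting leaf -/
theorem exists_leaf {θ : ℕ} {e : Env V} (hθ : 1 ≤ θ) (he : WF e) {s : Nd V}
    (h : AccLeaf (expand θ e) s) : Inv θ e s →
    ∃ s', Inv θ e s' ∧ rule θ e s' = none ∧ leaf e s' = true := by
  induction h with
  | @leaf s h =>
    intro hs
    rcases hr : rule θ e s with _ | lr
    · rw [expand_none hr, Sum.inl.injEq] at h
      exact ⟨s, hs, hr, h⟩
    · rw [expand_some hr] at h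
      simp at h
  | @left s l r h _ ih =>
    intro hs
    rcases expand_spec hθ he s hs with ⟨b, h'⟩ | ⟨l', r', h', hl, _⟩
    · rw [h] at h'; simp at h'
    · rw [h] at h'
      simp only [Sum.inr.injEq, Prod.mk.injEq] at h'
      obtain ⟨rfl, rfl⟩ := h'
      exact ih hl
  | @right s l r h _ ih =>
    intro hs
    rcases expand_spec hθ he s hs with ⟨b, h'⟩ | ⟨l', r', h', _, hr, _⟩
    · rw [h] at h'; simp at h'
    · rw [h] at h'
      simp only [Sum.inr.injEq, Prod.mk.injEq] at h'
      obtain ⟨rfl, rfl⟩ := h'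
      exact ih hr

/-- the literal sets of the falsified clauses -/
def FSets (a : V → Bool) (cl : List (List (Lit V))) : Finset (Finset (Lit V)) :=
  ((cl.filter (fun c => !(c.any (fun l => a l.2 == l.1)))).map List.toFinset).toFinset

theorem mem_FSets {a : V → Bool} {cl : List (List (Lit V))} {S : Finset (Lit V)} :
    S ∈ FSets a cl ↔ ∃ c ∈ cl, (∀ l ∈ c, ¬ tr a l) ∧ c.toFinset = S := by
  unfold FSets
  simp only [List.mem_toFinset, List.mem_map, List.mem_filter, Bool.not_eq_true',
    List.any_eq_false, beq_iff_eq, tr]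
  constructor
  · rintro ⟨c, ⟨h1, h2⟩, h3⟩
    exact ⟨c, h1, h2, h3⟩
  · rintro ⟨c, h1, h2, h3⟩
    exact ⟨c, ⟨h1, h2⟩, h3⟩

/-- an accepting leaf gives an assignment falsifying few different clauses -/
theorem few_falsified {θ : ℕ} {cl : List (List (Lit V))} (hcl : ∀ c ∈ cl, c.length ≤ 3)
    {s : Nd V} (hs : Inv θ (mkEnv cl) s) (hr : rule θ (mkEnv cl) s = none)
    (hl : leaf (mkEnv cl) s = true) :
    ∃ a : V → Bool, (FSets a cl).card ≤ (mkEnv cl).2.1.length * (θ * θ) := by
  have he := mkEnv_WF cl
  obtain ⟨h0, a, ha, h1, h2⟩ := (leaf_iff he hs).1 hl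
  refine ⟨a, ?_⟩
  obtain ⟨r1, r2, r3⟩ := rule_none hr
  -- the triples
  set T : Finset (Lit V × (Lit V × Lit V)) := (mkEnv cl).2.1.toFinset.biUnion
    (fun x => ((Wset (mkEnv cl) s x).toFinset.image (fun p => (x, p)))) with hT
  have hTc : T.card ≤ (mkEnv cl).2.1.length * (θ * θ) := by
    refine le_trans Finset.card_biUnion_le ?_
    rw [← List.toFinset_card_of_nodup he.nd, ← smul_eq_mul]
    refine Finset.sum_le_card_nsmul _ _ _ fun x hx => ?_
    rw [List.mem_toFinset] at hx
    refine le_trans Finset.card_image_le (le_trans (List.toFinset_card_le _) ?_)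
    exact (find3_none r3 x hx).le
  refine le_trans ?_ hTc
  have hsub : FSets a cl ⊆ T.image (fun q => ({q.1, q.2.1, q.2.2} : Finset (Lit V))) := by
    intro S hS
    obtain ⟨c, hc, hfal, rfl⟩ := mem_FSets.1 hS
    have hd : ded c ∈ (mkEnv cl).1 := List.mem_map.2 ⟨c, hc, rfl⟩
    have hdf : ∀ l ∈ ded c, ¬ tr a l := fun l hl => hfal l (mem_ded.1 hl)
    have hdl : (ded c).length ≤ 3 :=
      le_trans (by rw [ded_length]; exact List.toFinset_card_le _) (hcl c hc)
    have hnd := nodup_ded c
    rw [← ded_toFinset]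
    generalize ded c = d at *
    -- shape of `d`
    rcases d with _ | ⟨x, _ | ⟨y, _ | ⟨z, _ | ⟨w, d⟩⟩⟩⟩
    · exact absurd hd h0
    · exact absurd (h1 x hd) (hdf x (by simp))
    · rcases h2 x y hd with h | h
      · exact absurd h (hdf x (by simp))
      · exact absurd h (hdf y (by simp))
    · have hal : alive (mkEnv cl) s [x, y, z] = true := by
        rw [alive_iff]
        refine ⟨fun l hl hls => hdf l hl (ha.1 l hls), fun l hl l' hl' => ?_⟩
        by_contra hadj
        rw [Bool.not_eq_false, adj_iff] at hadj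
        rcases hadj with h | h
        · rcases ha.2 _ h with h | h
          · exact hdf l hl h
          · exact hdf l' hl' h
        · rcases (he.pairs l l').1 h with h | h
          · rcases h2 _ _ h with h | h
            · exact hdf l hl h
            · exact hdf l' hl' h
          · rcases h2 _ _ h with h | h
            · exact hdf l' hl' h
            · exact hdf l hl h
      have hnd' : x ≠ y ∧ y ≠ z ∧ x ≠ z := by
        simp only [List.nodup_cons, List.mem_cons, List.not_mem_nil, or_false, not_or,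
          not_false_eq_true, List.nodup_nil, and_true] at hnd
        exact ⟨hnd.1.1, hnd.2, hnd.1.2⟩
      have htri : tri (mkEnv cl) s x y z = true :=
        tri_iff.2 ⟨_, hd, hal, isTri_iff.2 ⟨rfl, by simp, by simp, by simp, hnd'⟩⟩
      have hm := mem_lits_of_tri he htri
      rw [Finset.mem_image]
      refine ⟨(x, (y, z)), ?_, ?_⟩
      · rw [hT, Finset.mem_biUnion]
        refine ⟨x, List.mem_toFinset.2 hm.1, Finset.mem_image.2 ⟨(y, z), ?_, rfl⟩⟩
        rw [List.mem_toFinset]
        unfold Wset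
        rw [List.mem_filter]
        exact ⟨List.pair_mem_product.2 hm.2, htri⟩
      · ext l
        simp only [Finset.mem_insert, Finset.mem_singleton, List.mem_toFinset, List.mem_cons,
          List.not_mem_nil, or_false]
    · simp only [List.length_cons] at hdl
      omega
  exact le_trans (Finset.card_le_card hsub) Finset.card_image_le

end leaf

/-! ### Polynomial time -/

section ptime

variable {V : Type} [DecidableEq V] [SCode V]

theorem leaf_ptime : PTime (fun p : Env V × Nd V => leaf p.1 p.2) := by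
  have h1 : PTime (fun p : Env V × Nd V => p.1.1) := PTime.fst.comp PTime.fst
  have h2 : PTime (fun p : Env V × Nd V => p.1.2.1) :=
    PTime.fst.comp (PTime.snd.comp PTime.fst)
  have h3 : PTime (fun p : Env V × Nd V => p.1.2.2) :=
    PTime.snd.comp (PTime.snd.comp PTime.fst)
  have h4 : PTime (fun p : Env V × Nd V => units p.1) := by
    refine PTime.filter (p := fun (p : Env V × Nd V) x => decide ([x] ∈ p.1.1)) h2 ?_
    exact mem_ptime (PTime.cons PTime.snd (PTime.const [])) (h1.comp PTime.fst)
  have h5 := twoSat_ptime.comp (h2.pair ((PTime.append (PTime.fst.comp PTime.snd) h4).pair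
    (PTime.append (PTime.snd.comp PTime.snd) h3)))
  exact PTime.and (PTime.not (mem_ptime (PTime.const []) h1)) h5

theorem expand_ptime (θ : ℕ) : PTime (fun p : Env V × Nd V => expand θ p.1 p.2) :=
  PTime.option_casesOn (f := fun p : Env V × Nd V => rule θ p.1 p.2)
    (g := fun p => (Sum.inl (leaf p.1 p.2) : Bool ⊕ (Nd V × Nd V)))
    (h := fun _ lr => Sum.inr lr) (rule_ptime θ PTime.fst PTime.snd) (PTime.inl leaf_ptime)
    (PTime.inr PTime.snd)

end ptime

/-! ### Sizes -/

section sizes

variable {V : Type} [DecidableEq V] [SCode V]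

theorem nodup_length_le {α : Type} [DecidableEq α] {l l' : List α} (h : l.Nodup)
    (hs : ∀ x ∈ l, x ∈ l') : l.length ≤ l'.length := by
  rw [← List.toFinset_card_of_nodup h]
  refine le_trans (Finset.card_le_card ?_) (List.toFinset_card_le l')
  intro x hx
  rw [List.mem_toFinset] at hx ⊢
  exact hs x hx

theorem sz_node_le {θ : ℕ} {e : Env V} {s : Nd V} (hs : Inv θ e s) (E : ℕ) (hE : sz e ≤ E) :
    sz s ≤ E * (E + 1) + (E * E * (2 * E + 2) + 3) := by
  have hL : sz e.2.1 ≤ E := by
    have : sz e = sz e.1 + (sz e.2.1 + sz e.2.2 + 1) + 1 := rfl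
    omega
  have hlen := length_le_sz e.2.1
  have hel : ∀ x ∈ e.2.1, sz x ≤ E := fun x hx => by
    have := sz_le_of_mem hx
    omega
  have h1 : ∀ x ∈ s.1, x ∈ e.2.1 := fun x hx =>
    List.mem_toFinset.1 (hs.fi.sub (List.mem_toFinset.2 hx))
  have h2 : ∀ p ∈ s.2, p ∈ e.2.1.product e.2.1 := fun p hp => by
    have := hs.fi.psub p (List.mem_toFinset.2 hp)
    rw [List.mem_toFinset, List.mem_toFinset] at this
    exact List.pair_mem_product.2 this
  have h3 := nodup_length_le hs.nd1 h1
  have h4 : s.2.length ≤ e.2.1.length * e.2.1.length :=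
    (nodup_length_le hs.nd2 h2).trans (List.length_product _ _).le
  have h5 := sz_list_le s.1 E (fun x hx => hel x (h1 x hx))
  have h6 := sz_list_le s.2 (2 * E + 1) (fun p hp => by
    have := List.pair_mem_product.1 (h2 p hp)
    have h7 := hel _ this.1
    have h8 := hel _ this.2
    have : sz p = sz p.1 + sz p.2 + 1 := rfl
    omega)
  have h7 : s.1.length * (E + 1) ≤ E * (E + 1) := Nat.mul_le_mul_right _ (by omega)
  have h8 : s.2.length * (2 * E + 1 + 1) ≤ E * E * (2 * E + 2) := by
    refine Nat.mul_le_mul (h4.trans (Nat.mul_le_mul (by omega) (by omega))) (by omega)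
  have : sz s = sz s.1 + sz s.2 + 1 := rfl
  omega

end sizes

end Pool.Agent.Lib.MP_87d05f_lc
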