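import Mathlib
import Pool.Agent.Lib.MP_87d05f_lc.Dense

set_option autoImplicit false

/-!
# The machine for formulas with many different clauses
-/

namespace Pool.Agent.Lib.MP_87d05f_lc

open Pool.Agent.PolyTime Function

/-! ### Numbers -/

theorem poly_bound (Q : Polynomial ℕ) : ∃ C k : ℕ, ∀ L : ℕ, Q.eval L ≤ C * (L + 1) ^ k := by
  refine ⟨∑ i ∈ Finset.range (Q.natDegree + 1), Q.coeff i, Q.natDegree, fun L => ?_⟩
  rw [Polynomial.eval_eq_sum_range, Finset.sum_mul]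
  refine Finset.sum_le_sum fun i hi => Nat.mul_le_mul_left _ ?_
  rw [Finset.mem_range] at hi
  exact (Nat.pow_le_pow_left (Nat.le_succ L) i).trans
    (Nat.pow_le_pow_right (Nat.succ_pos L) (by omega))

theorem exists_theta (b : ℕ) (hb : 0 < b) :
    ∃ θ N s : ℕ, 1 ≤ θ ∧ 0 < N ∧ N = 16 * θ * b ∧ θ * θ = N * s ∧ 2 * N ≤ 2 ^ s := by
  refine ⟨16 * b * (4 * b + 13), 16 * (16 * b * (4 * b + 13)) * b, 4 * b + 13, ?_, ?_, rfl, ?_, ?_⟩
  · exact Nat.succ_le_of_lt (by positivity)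
  · positivity
  · ring
  · have h1 : b < 2 ^ b := Nat.lt_two_pow_self
    have h2 : b * b * b ≤ 2 ^ b * 2 ^ b * 2 ^ b :=
      Nat.mul_le_mul (Nat.mul_le_mul h1.le h1.le) h1.le
    have h3 : 2 ≤ 2 ^ b := by
      calc 2 = 2 ^ 1 := rfl
        _ ≤ 2 ^ b := Nat.pow_le_pow_right (by norm_num) hb
    have h4 : 2 ^ (4 * b + 13) = 8192 * (2 ^ b * 2 ^ b * 2 ^ b * 2 ^ b) := by
      rw [pow_add, Nat.mul_comm 4 b, pow_mul]
      ring
    rw [h4]
    have h5 : 2 * (16 * (16 * b * (4 * b + 13)) * b) ≤ 512 * (17 * (b * b * b)) := by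
      have : b * b ≤ b * b * b := Nat.le_mul_of_pos_right _ hb
      nlinarith
    have h6 : b * b * b * 2 ≤ 2 ^ b * 2 ^ b * 2 ^ b * 2 ^ b := Nat.mul_le_mul h2 h3
    nlinarith

theorem exists_mu (N s : ℕ) (hN : 0 < N) (hs : 2 * N ≤ 2 ^ s) :
    ∃ μ : ℝ, 0 < μ ∧ μ ≤ 1 ∧ μ ^ N = 1 / 2 ∧ μ + μ ^ (N * s) ≤ 1 := by
  have hN' : (0 : ℝ) < N := by exact_mod_cast hN
  refine ⟨(1 / 2 : ℝ) ^ ((1 : ℝ) / N), by positivity, ?_, ?_, ?_⟩
  · exact Real.rpow_le_one (by norm_num) (by norm_num) (by positivity)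
  · rw [← Real.rpow_natCast, ← Real.rpow_mul (by norm_num)]
    rw [one_div_mul_cancel hN'.ne', Real.rpow_one]
  · have hpow : ((1 / 2 : ℝ) ^ ((1 : ℝ) / N)) ^ N = 1 / 2 := by
      rw [← Real.rpow_natCast, ← Real.rpow_mul (by norm_num)]
      rw [one_div_mul_cancel hN'.ne', Real.rpow_one]
    set μ : ℝ := (1 / 2 : ℝ) ^ ((1 : ℝ) / N) with hμ
    have hμ0 : 0 < μ := by positivity
    have h1 : μ ≤ 1 - 1 / (2 * N) := by
      by_contra hlt
      push Not at hlt
      have h2 : (1 : ℝ) + (N : ℝ) * (-(1 / (2 * N))) ≤ (1 + (-(1 / (2 * N)))) ^ N := by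
        refine one_add_mul_le_pow ?_ N
        have : (1 : ℝ) / (2 * N) ≤ 1 := by
          rw [div_le_one (by positivity)]
          have : (1 : ℝ) ≤ N := by exact_mod_cast hN
          linarith
        linarith
      have h3 : (1 : ℝ) + (N : ℝ) * (-(1 / (2 * N))) = 1 / 2 := by
        field_simp
        ring
      have h4 : (0 : ℝ) ≤ 1 - 1 / (2 * N) := by
        have : (1 : ℝ) / (2 * N) ≤ 1 := by
          rw [div_le_one (by positivity)]
          have : (1 : ℝ) ≤ N := by exact_mod_cast hN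
          linarith
        linarith
      have h5 : (1 - 1 / (2 * N) : ℝ) ^ N < μ ^ N := pow_lt_pow_left₀ hlt h4 hN.ne'
      rw [h3, ← sub_eq_add_neg] at h2
      rw [hpow] at h5
      linarith
    have h2 : μ ^ (N * s) ≤ 1 / (2 * N) := by
      rw [pow_mul, hpow, one_div_pow]
      refine one_div_le_one_div_of_le (by positivity) ?_
      exact_mod_cast hs
    linarith

theorem exists_T (b : ℕ) (hb : 0 < b) :
    ∃ (θ : ℕ) (T : ℕ → ℕ), 1 ≤ θ ∧ (∀ m, 1 ≤ T m) ∧
      (∀ m m₁ m₂, m₁ + 1 ≤ m → m₂ + θ * θ ≤ m → 1 + T m₁ + T m₂ ≤ T m) ∧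
      ∀ n m, m ≤ 16 * θ * n → T m ≤ 4 * 2 ^ (n / b) := by
  obtain ⟨θ, N, s, hθ, hN, hNe, hθθ, hs⟩ := exists_theta b hb
  obtain ⟨μ, hμ0, hμ1, hμN, hsum⟩ := exists_mu N s hN hs
  rw [← hθθ] at hsum
  have hl1 : 1 ≤ μ⁻¹ := (one_le_inv₀ hμ0).2 hμ1
  have hfl : ∀ m : ℕ, 2 ≤ ⌊2 * (μ⁻¹) ^ m⌋₊ := by
    intro m
    rw [Nat.le_floor_iff (by positivity)]
    have := one_le_pow₀ (n := m) hl1
    push_cast
    linarith
  refine ⟨θ, fun m => ⌊2 * (μ⁻¹) ^ m⌋₊ - 1, hθ, ?_, ?_, ?_⟩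
  · intro m
    have := hfl m
    change 1 ≤ ⌊2 * (μ⁻¹) ^ m⌋₊ - 1
    omega
  · intro m m₁ m₂ h1 h2
    have f1 := hfl m₁
    have f2 := hfl m₂
    have key : ⌊2 * (μ⁻¹) ^ m₁⌋₊ + ⌊2 * (μ⁻¹) ^ m₂⌋₊ ≤ ⌊2 * (μ⁻¹) ^ m⌋₊ := by
      rw [Nat.le_floor_iff (by positivity)]
      push_cast
      have g1 : (⌊2 * (μ⁻¹) ^ m₁⌋₊ : ℝ) ≤ 2 * (μ⁻¹) ^ m₁ := Nat.floor_le (by positivity)
      have g2 : (⌊2 * (μ⁻¹) ^ m₂⌋₊ : ℝ) ≤ 2 * (μ⁻¹) ^ m₂ := Nat.floor_le (by positivity)
      have e1 : (μ⁻¹) ^ m₁ ≤ (μ⁻¹) ^ m * μ := by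
        have : (μ⁻¹) ^ (m₁ + 1) ≤ (μ⁻¹) ^ m := pow_le_pow_right₀ hl1 h1
        calc (μ⁻¹) ^ m₁ = (μ⁻¹) ^ (m₁ + 1) * μ := by
              rw [pow_succ, mul_assoc, inv_mul_cancel₀ hμ0.ne', mul_one]
          _ ≤ (μ⁻¹) ^ m * μ := mul_le_mul_of_nonneg_right this hμ0.le
      have e2 : (μ⁻¹) ^ m₂ ≤ (μ⁻¹) ^ m * μ ^ (θ * θ) := by
        have : (μ⁻¹) ^ (m₂ + θ * θ) ≤ (μ⁻¹) ^ m := pow_le_pow_right₀ hl1 h2
        calc (μ⁻¹) ^ m₂ = (μ⁻¹) ^ (m₂ + θ * θ) * μ ^ (θ * θ) := by
              rw [pow_add, mul_assoc, ← mul_pow, inv_mul_cancel₀ hμ0.ne', one_pow, mul_one]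
          _ ≤ (μ⁻¹) ^ m * μ ^ (θ * θ) := mul_le_mul_of_nonneg_right this (by positivity)
      have e3 : (μ⁻¹) ^ m * (μ + μ ^ (θ * θ)) ≤ (μ⁻¹) ^ m * 1 :=
        mul_le_mul_of_nonneg_left hsum (by positivity)
      linarith
    change 1 + (⌊2 * (μ⁻¹) ^ m₁⌋₊ - 1) + (⌊2 * (μ⁻¹) ^ m₂⌋₊ - 1) ≤ ⌊2 * (μ⁻¹) ^ m⌋₊ - 1
    omega
  · intro n m hm
    have h1 : n < b * (n / b) + b := by
      have := Nat.div_add_mod n b
      have := Nat.mod_lt n hb
      omega
    have h2 : m ≤ N * (n / b + 1) := by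
      have : 16 * θ * n ≤ 16 * θ * (b * (n / b) + b) := Nat.mul_le_mul_left _ h1.le
      rw [hNe]
      nlinarith
    have h3 : (μ⁻¹) ^ m ≤ 2 ^ (n / b + 1) := by
      calc (μ⁻¹) ^ m ≤ (μ⁻¹) ^ (N * (n / b + 1)) := pow_le_pow_right₀ hl1 h2
        _ = 2 ^ (n / b + 1) := by
          rw [pow_mul, inv_pow, hμN]
          norm_num
    have h4 : (⌊2 * (μ⁻¹) ^ m⌋₊ : ℝ) ≤ 4 * 2 ^ (n / b) := by
      refine le_trans (Nat.floor_le (by positivity)) ?_
      rw [pow_succ] at h3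
      linarith
    have h5 : ⌊2 * (μ⁻¹) ^ m⌋₊ ≤ 4 * 2 ^ (n / b) := by exact_mod_cast h4
    exact (Nat.sub_le _ _).trans h5

/-! ### Variables coded in binary -/

/-- the number of a bit string -/
def unbits (w : List Bool) : ℕ := w.foldr (fun b n => Nat.bit b n) 0

theorem unbits_bits (n : ℕ) : unbits (Nat.bits n) = n := by
  induction n using Nat.binaryRec' with
  | zero => simp [unbits]
  | bit b n h ih =>
    rw [Nat.bits_append_bit _ _ h]
    change Nat.bit b (unbits (Nat.bits n)) = _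
    rw [ih]

theorem bits_injective : Function.Injective Nat.bits := fun m n h => by
  rw [← unbits_bits m, h, unbits_bits]

/-- number of variables -/
def nvars {V : Type} [DecidableEq V] (F : List (List (Bool × V))) : ℕ :=
  (F.flatten.map (fun l => l.2)).toFinset.card

theorem nvars_binF (F : List (List (Bool × ℕ))) : nvars (binF F) = nvars F := by
  unfold nvars
  have h : ((binF F).flatten.map (fun l => l.2)).toFinset =
      ((F.flatten.map (fun l => l.2)).toFinset).image Nat.bits := by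
    ext w
    simp only [binF, List.mem_toFinset, List.mem_map, List.mem_flatten, Finset.mem_image]
    constructor
    · rintro ⟨l, ⟨c, ⟨d, hd, rfl⟩, hl⟩, rfl⟩
      obtain ⟨l', hl', rfl⟩ := List.mem_map.1 hl
      exact ⟨l'.2, ⟨l', ⟨d, hd, hl'⟩, rfl⟩, rfl⟩
    · rintro ⟨v, ⟨l, ⟨c, hc, hl⟩, rfl⟩, rfl⟩
      exact ⟨(l.1, Nat.bits l.2), ⟨_, ⟨c, hc, rfl⟩, List.mem_map.2 ⟨l, hl, rfl⟩⟩, rfl⟩
  rw [h, Finset.card_image_of_injective _ bits_injective]

theorem lits_length_le {V : Type} [DecidableEq V] (cl : List (List (Lit V))) :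
    (mkEnv cl).2.1.length ≤ 2 * nvars cl := by
  rw [← List.toFinset_card_of_nodup (mkEnv_WF cl).nd]
  unfold nvars
  have h : (mkEnv cl).2.1.toFinset ⊆ (Finset.univ : Finset Bool) ×ˢ
      (cl.flatten.map (fun l => l.2)).toFinset := by
    intro l hl
    rw [List.mem_toFinset] at hl
    obtain ⟨d, hd, hl⟩ := List.mem_flatten.1 (mem_ded.1 hl)
    obtain ⟨c, hc, rfl⟩ := List.mem_map.1 hd
    rw [mem_ded] at hl
    rw [Finset.mem_product]
    refine ⟨Finset.mem_univ _, ?_⟩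
    rw [List.mem_toFinset, List.mem_map]
    exact ⟨l, List.mem_flatten.2 ⟨c, hc, hl⟩, rfl⟩
  refine (Finset.card_le_card h).trans ?_
  rw [Finset.card_product, Finset.card_univ, Fintype.card_bool]

theorem binF_sat (F : List (List (Bool × ℕ))) (a : ℕ → Bool)
    (h : ∀ c ∈ F, ∃ l ∈ c, a l.2 = l.1) :
    FSat (fun w => a (unbits w)) (mkEnv (binF F)) := by
  intro d hd
  obtain ⟨c', hc', rfl⟩ := List.mem_map.1 hd
  obtain ⟨c, hc, rfl⟩ := List.mem_map.1 hc'
  obtain ⟨l, hl, h⟩ := h c hc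
  refine ⟨(l.1, Nat.bits l.2), mem_ded.2 (List.mem_map.2 ⟨l, hl, rfl⟩), ?_⟩
  unfold tr
  simp only [unbits_bits]
  exact h

theorem card_FSets_binF (F : List (List (Bool × ℕ))) (a : List Bool → Bool) :
    (FSets (fun n => a (Nat.bits n)) F).card ≤ (FSets a (binF F)).card := by
  have hinj : Function.Injective (fun S : Finset (Lit ℕ) =>
      S.image (fun l : Lit ℕ => ((l.1, Nat.bits l.2) : Lit (List Bool)))) := by
    refine Finset.image_injective ?_
    intro l l' h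
    simp only [Prod.mk.injEq] at h
    exact Prod.ext h.1 (bits_injective h.2)
  rw [← Finset.card_image_of_injective _ hinj]
  refine Finset.card_le_card ?_
  intro S hS
  obtain ⟨S', hS', rfl⟩ := Finset.mem_image.1 hS
  obtain ⟨c, hc, hf, rfl⟩ := mem_FSets.1 hS'
  rw [mem_FSets]
  refine ⟨c.map (fun l => (l.1, Nat.bits l.2)), List.mem_map.2 ⟨c, hc, rfl⟩, ?_, ?_⟩
  · intro l hl
    obtain ⟨l', hl', rfl⟩ := List.mem_map.1 hl
    exact hf l' hl'
  · ext l
    simp only [List.mem_toFinset, List.mem_map, Finset.mem_image]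

/-! ### The main theorem -/

/-- the initial state -/
def initS (x : List Bool) : Env (List Bool) × Nd (List Bool) := (mkEnv (parse x), ([], []))

theorem inv_init (θ : ℕ) (e : Env (List Bool)) : Inv θ e ([], []) := by
  refine ⟨List.nodup_nil, List.nodup_nil, ⟨?_, ?_, ?_, ?_, ?_⟩⟩
  · simp
  · intro p hp; simp at hp
  · intro x y h; simp at h
  · intro x h; simp at h
  · intro x _
    simp [dg]

theorem pot_init_le (θ : ℕ) (cl : List (List (Lit (List Bool)))) :
    Pot θ (mkEnv cl) ([], []) ≤ 16 * θ * nvars cl := by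
  have h1 := lits_length_le cl
  have h2 := List.toFinset_card_le (mkEnv cl).2.1
  have h3 : (mkEnv cl).2.1.toFinset.card ≤ 2 * nvars cl := h2.trans h1
  unfold Pot Psi
  simp only [List.toFinset_nil, Finset.card_empty, Nat.sub_zero]
  have h4 : 5 * θ * (mkEnv cl).2.1.toFinset.card ≤ 5 * θ * (2 * nvars cl) :=
    Nat.mul_le_mul_left _ h3
  have h5 : 2 * θ * (mkEnv cl).2.1.toFinset.card ≤ 2 * θ * (2 * nvars cl) :=
    Nat.mul_le_mul_left _ h3
  have h6 := Nat.sub_le (2 * θ * (mkEnv cl).2.1.toFinset.card) (aliveP (∅ : Finset (Lit (List Bool))) ∅).card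
  nlinarith

theorem dense_main (b : ℕ) (hb : 0 < b) :
    ∃ D C k : ℕ, ∃ (tm : Turing.FinTM2) (e₀ : tm.Γ tm.k₀ ≃ Bool)
      (acc rej : List (tm.Γ tm.k₁)), acc ≠ rej ∧
      ∀ F : List (List (Bool × ℕ)), (∀ c ∈ F, c.length ≤ 3) →
        ((∃ a : ℕ → Bool, ∀ c ∈ F, ∃ l ∈ c, a l.2 = l.1) →
          Nonempty (Turing.TM2OutputsInTime tm ((encF F).map e₀.symm) (some acc)
            (C * ((encF F).length + 1) ^ k * 2 ^ (nvars F / b)))) ∧
        ((∀ a : ℕ → Bool, D * nvars F < (FSets a F).card) →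
          Nonempty (Turing.TM2OutputsInTime tm ((encF F).map e₀.symm) (some rej)
            (C * ((encF F).length + 1) ^ k * 2 ^ (nvars F / b)))) := by
  obtain ⟨θ, T, hθ, hT1, hT2, hT3⟩ := exists_T b hb
  have hinit : PTime initS :=
    (mkEnv_ptime parse_ptime).pair (PTime.const ([], []))
  obtain ⟨P1, hP1⟩ := (mkEnv_ptime parse_ptime).sz_le
  obtain ⟨tm, e₀, acc, rej, P, hne, h⟩ := search_machine hinit (expand_ptime θ)
  -- bounds
  set E : Polynomial ℕ := P1.comp (Polynomial.C 4 * Polynomial.X + 1) with hE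
  set B : Polynomial ℕ := E * (E + 1) + (E * E * (2 * E + 2) + 3) + E with hB
  set Q : Polynomial ℕ := P + 4 * P.comp (B + ((Polynomial.C (16 * θ) * Polynomial.X + 1) *
    (B + 1) + 6)) with hQ
  obtain ⟨C, k, hC⟩ := poly_bound Q
  refine ⟨2 * (θ * θ), C, k, tm, e₀, acc, rej, hne, ?_⟩
  intro F hF
  set x := encF F with hx
  have hcl : parse x = binF F := parse_encF F
  have he : (initS x).1 = mkEnv (binF F) := by
    change mkEnv (parse x) = _
    rw [hcl]
  have hs0 : (initS x).2 = ([], []) := rfl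
  have hWF := mkEnv_WF (binF F)
  have hszE : sz (mkEnv (binF F)) ≤ E.eval x.length := by
    rw [← hcl, hE, Polynomial.eval_comp]
    refine (hP1 x).trans (eval_mono P1 ?_)
    have := sz_listBool_le x
    simpa using this
  have hszB : ∀ s : Nd (List Bool), Inv θ (mkEnv (binF F)) s → sz s ≤ B.eval x.length := by
    intro s hs
    have := sz_node_le hs (E.eval x.length) hszE
    simp only [hB, Polynomial.eval_add, Polynomial.eval_mul, Polynomial.eval_one,
      Polynomial.eval_ofNat]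
    omega
  have hszB' : sz (mkEnv (binF F)) ≤ B.eval x.length := by
    refine hszE.trans ?_
    simp only [hB, Polynomial.eval_add]
    omega
  have hpot : Pot θ (mkEnv (binF F)) ([], []) ≤ 16 * θ * nvars F := by
    have := pot_init_le θ (binF F)
    rwa [nvars_binF] at this
  -- the number of variables is at most the length of the code
  have hnx : nvars F ≤ x.length := by
    unfold nvars
    refine (List.toFinset_card_le _).trans ?_
    rw [List.length_map, List.length_flatten, hx]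
    unfold encF
    rw [List.length_flatMap]
    refine List.sum_le_sum fun c _ => ?_
    rw [List.length_append, List.length_flatMap]
    refine le_trans ?_ (Nat.le_add_right _ _)
    have : ∀ c : List (Bool × ℕ), c.length ≤ (c.map (fun l => ([true, l.1] ++
        (Nat.bits l.2).flatMap (fun x => [true, x]) ++ [false, false]).length)).sum := by
      intro c
      induction c with
      | nil => simp
      | cons l c ih =>
        simp only [List.map_cons, List.sum_cons, List.length_cons, List.length_append] at ih ⊢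
        omega
    exact this c
  have htime : ∀ m, C * (x.length + 1) ^ k * 2 ^ (nvars F / b) ≤ m →
      P.eval x.length + T (Pot θ (mkEnv (binF F)) ([], [])) * P.eval (B.eval x.length +
        ((Pot θ (mkEnv (binF F)) ([], []) + 1) * (B.eval x.length + 1) + 6)) ≤ m := by
    intro m hm
    refine le_trans ?_ hm
    have h1 := hT3 (nvars F) _ hpot
    have h2 : P.eval (B.eval x.length +
        ((Pot θ (mkEnv (binF F)) ([], []) + 1) * (B.eval x.length + 1) + 6)) ≤
        P.eval (B.eval x.length + ((16 * θ * x.length + 1) * (B.eval x.length + 1) + 6)) := by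
      refine eval_mono P ?_
      have : Pot θ (mkEnv (binF F)) ([], []) ≤ 16 * θ * x.length :=
        hpot.trans (Nat.mul_le_mul_left _ hnx)
      have := Nat.mul_le_mul_right (B.eval x.length + 1) (Nat.add_le_add_right this 1)
      omega
    have h3 := hC x.length
    have h4 : Q.eval x.length = P.eval x.length + 4 * P.eval (B.eval x.length +
        ((16 * θ * x.length + 1) * (B.eval x.length + 1) + 6)) := by
      simp only [hQ, Polynomial.eval_add, Polynomial.eval_mul, Polynomial.eval_comp,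
        Polynomial.eval_one, Polynomial.eval_ofNat, Polynomial.eval_C, Polynomial.eval_X]
    have h5 : 1 ≤ 2 ^ (nvars F / b) := Nat.one_le_two_pow
    have h6 := Nat.mul_le_mul h1 h2
    have h7 : Q.eval x.length * 2 ^ (nvars F / b) ≤
        C * (x.length + 1) ^ k * 2 ^ (nvars F / b) := Nat.mul_le_mul_right _ h3
    refine le_trans ?_ h7
    rw [h4]
    have h8 : P.eval x.length * 1 ≤ P.eval x.length * 2 ^ (nvars F / b) :=
      Nat.mul_le_mul_left _ h5
    nlinarith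
  have hmain := h x (Inv θ (mkEnv (binF F))) (Pot θ (mkEnv (binF F))) T (θ * θ)
    (B.eval x.length) (by rw [he]; exact expand_spec hθ hWF) (Nat.mul_le_mul hθ hθ) hT1 hT2
    (by rw [hs0]; exact inv_init θ _) hszB (by rw [he]; exact hszB')
    (C * (x.length + 1) ^ k * 2 ^ (nvars F / b)) (by rw [hs0]; exact htime _ le_rfl)
  rw [he, hs0] at hmain
  refine ⟨?_, ?_⟩
  · rintro ⟨a, ha⟩
    exact hmain.1 (accLeaf_of_sat hθ hWF (binF_sat F a ha) _ _ le_rfl (inv_init θ _)
      ⟨fun u hu => by simp at hu, fun p hp => by simp at hp⟩)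
  · intro hno
    refine hmain.2 fun hacc => ?_
    obtain ⟨s', hs', hr, hl⟩ := exists_leaf hθ hWF hacc (inv_init θ _)
    obtain ⟨a, ha⟩ := few_falsified (cl := binF F) (by
      intro c hc
      obtain ⟨d, hd, rfl⟩ := List.mem_map.1 hc
      rw [List.length_map]
      exact hF d hd) hs' hr hl
    have h1 := card_FSets_binF F a
    have h2 := hno (fun n => a (Nat.bits n))
    have h3 := lits_length_le (binF F)
    rw [nvars_binF] at h3
    have h4 := Nat.mul_le_mul_right (θ * θ) h3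
    nlinarith

end Pool.Agent.Lib.MP_87d05f_lc
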