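import Mathlib
import Pool.Agent.Lib.MP_87d05f_lc.Assign

set_option autoImplicit false

/-!
# Formulas in which every variable occurs at most three times
-/

namespace Pool.Agent.Lib.MP_87d05f_lc

open Pool.Agent.PolyTime Function

/-! ### Adjacent pairs and cycles -/

section adjp

variable {α : Type}

def adjStep (a : α) (s : Option α × List (α × α)) : Option α × List (α × α) :=
  (some a, (Option.casesOn s.1 s.2 (fun b => (a, b) :: s.2)))

/-- the list of adjacent pairs -/
def adjp (l : List α) : List (α × α) := (l.foldr adjStep (none, [])).2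

theorem adjp_fst (l : List α) : (l.foldr adjStep (none, [])).1 = l.head? := by
  cases l <;> rfl

theorem adjp_nil : adjp ([] : List α) = [] := rfl

theorem adjp_single (a : α) : adjp [a] = [] := rfl

theorem adjp_cons (a b : α) (l : List α) : adjp (a :: b :: l) = (a, b) :: adjp (b :: l) := rfl

theorem adjp_map_snd (l : List α) : (adjp l).map Prod.snd = l.tail := by
  induction l with
  | nil => rfl
  | cons a l ih =>
    cases l with
    | nil => rfl
    | cons b l => rw [adjp_cons, List.map_cons, ih]; rfl

theorem adjp_map_fst (l : List α) : (adjp l).map Prod.fst = l.dropLast := by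
  induction l with
  | nil => rfl
  | cons a l ih =>
    cases l with
    | nil => rfl
    | cons b l => rw [adjp_cons, List.map_cons, ih]; rfl

theorem isChain_adjp {R : α → α → Prop} (l : List α) (h : ∀ p ∈ adjp l, R p.1 p.2) :
    List.IsChain R l := by
  induction l with
  | nil => exact List.IsChain.nil
  | cons a l ih =>
    cases l with
    | nil => exact List.IsChain.singleton a
    | cons b l =>
      rw [List.isChain_cons_cons]
      refine ⟨h (a, b) (by rw [adjp_cons]; exact List.mem_cons_self), ih fun p hp => ?_⟩
      exact h p (by rw [adjp_cons]; exact List.mem_cons_of_mem _ hp)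

/-- the cycle through the elements of a list -/
def cyc (l : List α) : List (α × α) := adjp (l ++ l.take 1)

theorem cyc_map_fst (l : List α) : (cyc l).map Prod.fst = l := by
  unfold cyc
  rw [adjp_map_fst]
  cases l with
  | nil => rfl
  | cons a l =>
    simp only [List.take_succ_cons, List.take_zero]
    exact List.dropLast_concat

theorem cyc_map_snd (l : List α) : ((cyc l).map Prod.snd).Perm l := by
  unfold cyc
  rw [adjp_map_snd]
  cases l with
  | nil => exact List.Perm.refl _
  | cons a l =>
    simp only [List.cons_append, List.tail_cons, List.take_succ_cons, List.take_zero]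
    exact List.perm_append_singleton a l

theorem cyc_length (l : List α) : (cyc l).length = l.length := by
  rw [← List.length_map (f := Prod.fst), cyc_map_fst]

theorem cyc_mem {l : List α} {p : α × α} (h : p ∈ cyc l) : p.1 ∈ l ∧ p.2 ∈ l := by
  constructor
  · rw [← cyc_map_fst l]
    exact List.mem_map_of_mem h
  · rw [← (cyc_map_snd l).mem_iff]
    exact List.mem_map_of_mem h

/-- along a cycle of implications all values agree -/
theorem cyc_const {l : List α} {f : α → Bool} (h : ∀ p ∈ cyc l, f p.1 = true → f p.2 = true)
    {a b : α} (ha : a ∈ l) (hb : b ∈ l) : f a = f b := by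
  have hch : List.IsChain (fun x y => f x = true → f y = true) (l ++ l.take 1) :=
    isChain_adjp _ h
  have hpw : List.Pairwise (fun x y => f x = true → f y = true) (l ++ l.take 1) := by
    have : IsTrans α (fun x y => f x = true → f y = true) := ⟨fun _ _ _ h1 h2 h3 => h2 (h1 h3)⟩
    exact List.isChain_iff_pairwise.1 hch
  rcases l with _ | ⟨x, t⟩
  · simp at ha
  · have key : ∀ y ∈ x :: t, f y = f x := by
      intro y hy
      simp only [List.take_succ_cons, List.take_zero] at hpw
      rw [List.pairwise_append] at hpw
      have h1 : f y = true → f x = true := hpw.2.2 y hy x (by simp)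
      have h2 : f x = true → f y = true := by
        rcases List.mem_cons.1 hy with rfl | hy
        · exact id
        · exact (List.pairwise_cons.1 hpw.1).1 y hy
      cases hx : f x <;> cases hy' : f y
      · rfl
      · exact absurd (h1 hy') (by rw [hx]; simp)
      · exact absurd (h2 hx) (by rw [hy']; simp)
      · rfl
    rw [key a ha, key b hb]

theorem adjp_ptime {β : Type} [SCode α] [SCode β] {l : β → List α} (hl : PTime l) :
    PTime (fun a => adjp (l a)) := by
  have h : PTime (fun l : List α => l.foldr adjStep (none, [])) := by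
    refine PTime.foldr (f := fun (_ : List α) a s => adjStep a s) PTime.id
      (PTime.const _) ?_ (Polynomial.C 4 * Polynomial.X + Polynomial.C 10) ?_
    · unfold adjStep
      have ha : PTime (fun p : List α × α × (Option α × List (α × α)) => p.2.1) :=
        PTime.fst.comp PTime.snd
      have hs : PTime (fun p : List α × α × (Option α × List (α × α)) => p.2.2.2) :=
        PTime.snd.comp (PTime.snd.comp PTime.snd)
      have ho : PTime (fun p : List α × α × (Option α × List (α × α)) => p.2.2.1) :=
        PTime.fst.comp (PTime.snd.comp PTime.snd)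
      refine (PTime.some ha).pair ?_
      refine PTime.option_casesOn
        (f := fun p : List α × α × (Option α × List (α × α)) => p.2.2.1)
        (g := fun p => p.2.2.2) (h := fun p b => (p.2.1, b) :: p.2.2.2) ho hs ?_
      exact PTime.cons ((ha.comp PTime.fst).pair PTime.snd) (hs.comp PTime.fst)
    · intro a s b hb
      have h1 := sz_le_of_mem hb
      rcases s with ⟨o, s⟩
      simp only [Polynomial.eval_add, Polynomial.eval_mul, Polynomial.eval_C, Polynomial.eval_X]
      rcases o with _ | c
      · simp only [adjStep, sz_pair, sz_some, sz_none]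
        omega
      · simp only [adjStep, sz_pair, sz_some, sz_cons]
        omega
  exact PTime.snd.comp (h.comp hl)

end adjp

/-! ### Names of occurrences -/

/-- the name of the occurrence number `j` in clause number `i` -/
def nm (p : ℕ × ℕ) : List Bool :=
  List.replicate p.1 false ++ (true :: (List.replicate p.2 false ++ [true]))

theorem replicate_append_inj {i j : ℕ} {r r' : List Bool}
    (h : List.replicate i false ++ (true :: r) = List.replicate j false ++ (true :: r')) :
    i = j ∧ r = r' := by
  induction i generalizing j with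
  | zero =>
    cases j with
    | zero => simpa using h
    | succ j => simp [List.replicate_succ] at h
  | succ i ih =>
    cases j with
    | zero => simp [List.replicate_succ] at h
    | succ j =>
      rw [List.replicate_succ, List.replicate_succ] at h
      simp only [List.cons_append, List.cons.injEq, true_and] at h
      obtain ⟨h1, h2⟩ := ih h
      exact ⟨by rw [h1], h2⟩

theorem nm_injective : Function.Injective nm := by
  rintro ⟨i, j⟩ ⟨i', j'⟩ h
  unfold nm at h
  obtain ⟨h1, h2⟩ := replicate_append_inj h
  simp only at h1 h2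
  obtain ⟨h3, _⟩ := replicate_append_inj (r := []) (r' := []) h2
  rw [h1, h3]

theorem nm_end (p : ℕ × ℕ) : ∃ u, nm p = u ++ [true] :=
  ⟨List.replicate p.1 false ++ (true :: List.replicate p.2 false), by simp [nm]⟩

theorem nm_ptime {α : Type} [SCode α] {p : α → ℕ × ℕ} (hp : PTime p) :
    PTime (fun a => nm (p a)) := by
  unfold nm
  exact PTime.append (PTime.replicate (PTime.fst.comp hp) (PTime.const false))
    (PTime.cons (PTime.const true) (PTime.append (PTime.replicate (PTime.snd.comp hp)
      (PTime.const false)) (PTime.const [true])))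

section occ

variable {V : Type} [DecidableEq V]

/-- the list of all occurrences -/
def occs (G : List (List (Lit V))) : List ((ℕ × ℕ) × Lit V) :=
  G.zipIdx.flatMap (fun ci => ci.1.zipIdx.map (fun lj => ((ci.2, lj.2), lj.1)))

/-- the occurrences of a variable -/
def occV (G : List (List (Lit V))) (v : V) : List (ℕ × ℕ) :=
  ((occs G).filter (fun o => decide (o.2.2 = v))).map Prod.fst

/-- the renamed clause -/
def renC (ci : List (Lit V) × ℕ) : List (Lit (List Bool)) :=
  ci.1.zipIdx.map (fun lj => (lj.1.1, nm (ci.2, lj.2)))

/-- the renamed clauses -/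
def mainC (G : List (List (Lit V))) : List (List (Lit (List Bool))) := G.zipIdx.map renC

/-- the clauses of the cycle of a variable -/
def cyc2 (l : List (ℕ × ℕ)) : List (List (Lit (List Bool))) :=
  (cyc l).map (fun p => [(false, nm p.1), (true, nm p.2)])

/-- the cycles -/
def cycC (G : List (List (Lit V))) : List (List (Lit (List Bool))) :=
  (ded (vlist G)).flatMap (fun v => cyc2 (occV G v))

/-- the formula with three occurrences per variable -/
def occ3 (G : List (List (Lit V))) : List (List (Lit (List Bool))) := mainC G ++ cycC G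

omit [DecidableEq V] in
theorem mem_occs {G : List (List (Lit V))} {i j : ℕ} {l : Lit V} :
    ((i, j), l) ∈ occs G ↔ ∃ d, G[i]? = some d ∧ d[j]? = some l := by
  unfold occs
  rw [List.mem_flatMap]
  constructor
  · rintro ⟨⟨c, i'⟩, h1, h2⟩
    rw [List.mem_map] at h2
    obtain ⟨⟨l', j'⟩, h3, h4⟩ := h2
    simp only [Prod.mk.injEq] at h4
    obtain ⟨⟨rfl, rfl⟩, rfl⟩ := h4
    exact ⟨c, List.mem_zipIdx_iff_getElem?.1 h1, List.mem_zipIdx_iff_getElem?.1 h3⟩
  · rintro ⟨c, h1, h2⟩
    exact ⟨(c, i), List.mem_zipIdx_iff_getElem?.2 h1,
      List.mem_map.2 ⟨(l, j), List.mem_zipIdx_iff_getElem?.2 h2, rfl⟩⟩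

omit [DecidableEq V] in
theorem occs_functional {G : List (List (Lit V))} {p : ℕ × ℕ} {l l' : Lit V}
    (h : (p, l) ∈ occs G) (h' : (p, l') ∈ occs G) : l = l' := by
  rcases p with ⟨i, j⟩
  obtain ⟨c, h1, h2⟩ := mem_occs.1 h
  obtain ⟨c', h3, h4⟩ := mem_occs.1 h'
  rw [h1] at h3
  simp only [Option.some.injEq] at h3
  subst h3
  rw [h2] at h4
  simpa using h4

theorem mem_occV {G : List (List (Lit V))} {v : V} {p : ℕ × ℕ} :
    p ∈ occV G v ↔ ∃ l, (p, l) ∈ occs G ∧ l.2 = v := by
  unfold occV
  rw [List.mem_map]
  constructor
  · rintro ⟨⟨p', l⟩, h, rfl⟩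
    rw [List.mem_filter, decide_eq_true_eq] at h
    exact ⟨l, h.1, h.2⟩
  · rintro ⟨l, h, hv⟩
    exact ⟨(p, l), List.mem_filter.2 ⟨h, by simpa using hv⟩, rfl⟩

omit [DecidableEq V] in
theorem occs_map_snd (G : List (List (Lit V))) : (occs G).map Prod.snd = G.flatten := by
  unfold occs
  rw [List.map_flatMap]
  have h : ∀ ci : List (Lit V) × ℕ,
      (ci.1.zipIdx.map (fun lj => ((ci.2, lj.2), lj.1))).map Prod.snd = ci.1 := by
    intro ci
    rw [List.map_map]
    exact List.zipIdx_map_fst 0 ci.1
  simp only [h]
  rw [List.flatMap_def, List.zipIdx_map_fst]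

theorem occV_length (G : List (List (Lit V))) (v : V) :
    (occV G v).length = (vlist G).count v := by
  unfold occV vlist
  rw [List.length_map, ← occs_map_snd, List.map_map, List.count_eq_countP, List.countP_map,
    List.countP_eq_length_filter]
  congr 2

omit [DecidableEq V] in
theorem occs_fst_nodup (G : List (List (Lit V))) : ((occs G).map Prod.fst).Nodup := by
  unfold occs
  rw [List.map_flatMap, List.nodup_flatMap]
  constructor
  · intro ci _
    have h : (ci.1.zipIdx.map (fun lj => ((ci.2, lj.2), lj.1))).map Prod.fst =
        (ci.1.zipIdx.map Prod.snd).map (fun j => (ci.2, j)) := by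
      rw [List.map_map, List.map_map]; rfl
    rw [h, List.zipIdx_map_snd]
    refine List.Nodup.map ?_ List.nodup_range'
    intro j j' h
    simpa using h
  · have h1 : (G.zipIdx.map Prod.snd).Nodup := by
      rw [List.zipIdx_map_snd]
      exact List.nodup_range'
    rw [List.Nodup, List.pairwise_map] at h1
    refine h1.imp ?_
    intro ci ci' hne p hp hp'
    rw [List.mem_map] at hp hp'
    obtain ⟨q, hq, rfl⟩ := hp
    obtain ⟨q', hq', h2⟩ := hp'
    obtain ⟨lj, _, rfl⟩ := List.mem_map.1 hq
    obtain ⟨lj', _, rfl⟩ := List.mem_map.1 hq'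
    simp only [Prod.mk.injEq] at h2
    exact hne h2.1.symm

theorem occV_nodup (G : List (List (Lit V))) (v : V) : (occV G v).Nodup := by
  unfold occV
  exact (List.Sublist.map _ List.filter_sublist).nodup (occs_fst_nodup G)

/-! ### Satisfiable formulas stay satisfiable -/

theorem occ3_sat {G : List (List (Lit V))} {a : V → Bool} (h : ∀ c ∈ G, ∃ l ∈ c, tr a l) :
    ∃ a' : List Bool → Bool, ∀ c ∈ occ3 G, ∃ l ∈ c, tr a' l := by
  classical
  set a' : List Bool → Bool := fun w => decide (∃ o ∈ occs G, nm o.1 = w ∧ a o.2.2 = true) with ha'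
  have hval : ∀ p l, (p, l) ∈ occs G → a' (nm p) = a l.2 := by
    intro p l hpl
    rw [ha', Bool.eq_iff_iff, decide_eq_true_eq]
    constructor
    · rintro ⟨⟨p', l'⟩, h1, h2, h3⟩
      have h4 := nm_injective h2
      simp only at h4
      subst h4
      rw [occs_functional hpl h1]
      exact h3
    · intro h3
      exact ⟨(p, l), hpl, rfl, h3⟩
  refine ⟨a', fun c hc => ?_⟩
  unfold occ3 at hc
  rcases List.mem_append.1 hc with hc | hc
  · obtain ⟨⟨d, i⟩, hd, rfl⟩ := List.mem_map.1 hc
    have hdi := List.mem_zipIdx_iff_getElem?.1 hd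
    obtain ⟨l, hl, hla⟩ := h d (List.mem_of_getElem? hdi)
    obtain ⟨j, hj⟩ := List.mem_iff_getElem?.1 hl
    refine ⟨(l.1, nm (i, j)), ?_, ?_⟩
    · unfold renC
      exact List.mem_map.2 ⟨(l, j), List.mem_zipIdx_iff_getElem?.2 hj, rfl⟩
    · unfold tr
      simp only
      rw [hval (i, j) l (mem_occs.2 ⟨d, hdi, hj⟩)]
      exact hla
  · obtain ⟨v, _, hc⟩ := List.mem_flatMap.1 hc
    obtain ⟨p, hp, rfl⟩ := List.mem_map.1 hc
    obtain ⟨g1, g2⟩ := cyc_mem hp
    obtain ⟨l1, h1, h0⟩ := mem_occV.1 g1
    obtain ⟨l2, h2, h3⟩ := mem_occV.1 g2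
    have e1 := hval _ _ h1
    have e2 := hval _ _ h2
    rw [h3, ← h0] at e2
    rcases hv : a l1.2 with _ | _
    · exact ⟨(false, nm p.1), by simp, by unfold tr; simp only; rw [e1, hv]⟩
    · exact ⟨(true, nm p.2), by simp, by unfold tr; simp only; rw [e2, hv]⟩

/-! ### Falsified clauses -/

theorem countP_or_le {β : Type} (l : List β) (f g : β → Bool) :
    l.countP (fun b => f b || g b) ≤ l.countP f + l.countP g := by
  induction l with
  | nil => simp
  | cons b l ih =>
    simp only [List.countP_cons]
    cases f b <;> cases g b <;> simp <;> omega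

theorem countP_any_le {β γ : Type} (l : List β) (L : List γ) (P : γ → β → Bool) :
    l.countP (fun b => L.any (fun v => P v b)) ≤ (L.map (fun v => l.countP (P v))).sum := by
  induction L with
  | nil => simp
  | cons v L ih =>
    simp only [List.any_cons, List.map_cons, List.sum_cons]
    exact (countP_or_le _ _ _).trans (Nat.add_le_add_left ih _)

theorem countP_has_le (G : List (List (Lit V))) (v : V) :
    G.countP (fun c => c.any (fun l => decide (l.2 = v))) ≤ (vlist G).count v := by
  unfold vlist
  induction G with
  | nil => simp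
  | cons c G ih =>
    rw [List.countP_cons, List.flatten_cons, List.map_append, List.count_append]
    have h : (if (c.any (fun l => decide (l.2 = v))) = true then 1 else 0) ≤
        (c.map Prod.snd).count v := by
      split_ifs with hc
      · obtain ⟨l, hl, hlv⟩ := List.any_eq_true.1 hc
        rw [decide_eq_true_eq] at hlv
        exact List.count_pos_iff.2 (List.mem_map.2 ⟨l, hl, hlv⟩)
      · exact Nat.zero_le _
    omega

/-- the assignment read off from an assignment of the occurrences -/
def backA (G : List (List (Lit V))) (a : List Bool → Bool) (v : V) : Bool :=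
  (Option.casesOn (occV G v).head? false (fun p => a (nm p)))

/-- the variable has occurrences with different values -/
def incon (G : List (List (Lit V))) (a : List Bool → Bool) (v : V) : Bool :=
  (occV G v).any (fun p => !decide (a (nm p) = backA G a v))

theorem incon_le (G : List (List (Lit V))) (a : List Bool → Bool) (v : V) :
    (if incon G a v = true then 1 else 0) ≤ (cyc2 (occV G v)).countP (falsB a) := by
  split_ifs with h
  · by_contra hlt
    have h0 : (cyc2 (occV G v)).countP (falsB a) = 0 := by omega
    rw [List.countP_eq_zero] at h0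
    have himp : ∀ p ∈ cyc (occV G v), a (nm p.1) = true → a (nm p.2) = true := by
      intro p hp h1
      have h2 := h0 [(false, nm p.1), (true, nm p.2)] (List.mem_map.2 ⟨p, hp, rfl⟩)
      rw [Bool.not_eq_true, falsB_false] at h2
      obtain ⟨l, hl, hla⟩ := h2
      simp only [List.mem_cons, List.not_mem_nil, or_false] at hl
      unfold tr at hla
      rcases hl with rfl | rfl
      · simp only at hla
        rw [h1] at hla
        simp at hla
      · exact hla
    unfold incon at h
    rw [List.any_eq_true] at h
    obtain ⟨p, hp, hne⟩ := h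
    rw [Bool.not_eq_true', decide_eq_false_iff_not] at hne
    apply hne
    unfold backA
    rcases hl : occV G v with _ | ⟨q, t⟩
    · rw [hl] at hp; simp at hp
    · rw [hl] at himp hp
      exact cyc_const (f := fun p => a (nm p)) himp hp List.mem_cons_self
  · exact Nat.zero_le _

theorem fals_cases {G : List (List (Lit V))} {a : List Bool → Bool}
    {ci : List (Lit V) × ℕ} (hci : ci ∈ G.zipIdx) (h : falsB (backA G a) ci.1 = true) :
    falsB a (renC ci) = true ∨
      (ded (vlist G)).any (fun v => incon G a v && ci.1.any (fun l => decide (l.2 = v))) = true := by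
  by_cases h1 : falsB a (renC ci) = true
  · exact Or.inl h1
  · right
    rw [Bool.not_eq_true, falsB_false] at h1
    obtain ⟨l', hl', hla⟩ := h1
    obtain ⟨⟨l, j⟩, hlj, rfl⟩ := List.mem_map.1 hl'
    have hj := List.mem_zipIdx_iff_getElem?.1 hlj
    have hi := List.mem_zipIdx_iff_getElem?.1 hci
    simp only at hj hla
    have hl : l ∈ ci.1 := List.mem_of_getElem? hj
    have hocc : ((ci.2, j), l) ∈ occs G := mem_occs.2 ⟨ci.1, hi, hj⟩
    have hne := falsB_iff.1 h l hl
    rw [List.any_eq_true]
    refine ⟨l.2, ?_, ?_⟩
    · rw [mem_ded]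
      unfold vlist
      rw [← occs_map_snd, List.map_map]
      exact List.mem_map.2 ⟨((ci.2, j), l), hocc, rfl⟩
    · rw [Bool.and_eq_true]
      refine ⟨?_, List.any_eq_true.2 ⟨l, hl, by simp⟩⟩
      unfold incon
      rw [List.any_eq_true]
      refine ⟨(ci.2, j), mem_occV.2 ⟨l, hocc, rfl⟩, ?_⟩
      rw [Bool.not_eq_true', decide_eq_false_iff_not]
      intro he
      apply hne
      unfold tr at hla ⊢
      simp only at hla
      rw [← he]
      exact hla

theorem countP_zipIdx {β : Type} (f : β → Bool) (l : List β) :
    l.zipIdx.countP (fun bi => f bi.1) = l.countP f := by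
  conv_rhs => rw [← List.zipIdx_map_fst 0 l]
  rw [List.countP_map]
  rfl

/-- few falsified clauses in the new formula give few falsified clauses in the old one -/
theorem occ3_fals {K : ℕ} {G : List (List (Lit V))} (hK : ∀ v, (vlist G).count v ≤ K)
    (a : List Bool → Bool) :
    G.countP (falsB (backA G a)) ≤ (K + 1) * (occ3 G).countP (falsB a) := by
  have h1 : G.countP (falsB (backA G a)) = G.zipIdx.countP (fun ci => falsB (backA G a) ci.1) :=
    (countP_zipIdx _ _).symm
  have h2 : G.zipIdx.countP (fun ci => falsB (backA G a) ci.1) ≤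
      G.zipIdx.countP (fun ci => falsB a (renC ci) || (ded (vlist G)).any
        (fun v => incon G a v && ci.1.any (fun l => decide (l.2 = v)))) := by
    refine List.countP_mono_left fun ci hci h => ?_
    rw [Bool.or_eq_true]
    exact fals_cases hci h
  have h3 := countP_or_le G.zipIdx (fun ci => falsB a (renC ci)) (fun ci => (ded (vlist G)).any
        (fun v => incon G a v && ci.1.any (fun l => decide (l.2 = v))))
  have h4 : G.zipIdx.countP (fun ci => falsB a (renC ci)) = (mainC G).countP (falsB a) := by
    unfold mainC
    rw [List.countP_map]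
    rfl
  have h5 := countP_any_le G.zipIdx (ded (vlist G))
    (fun v (ci : List (Lit V) × ℕ) => incon G a v && ci.1.any (fun l => decide (l.2 = v)))
  have h6 : ((ded (vlist G)).map (fun v => G.zipIdx.countP (fun ci : List (Lit V) × ℕ =>
      incon G a v && ci.1.any (fun l => decide (l.2 = v))))).sum ≤
      ((ded (vlist G)).map (fun v => K * (cyc2 (occV G v)).countP (falsB a))).sum := by
    refine sum_map_le _ _ _ fun v _ => ?_
    have h7 := incon_le G a v
    rcases h8 : incon G a v with _ | _
    · simp
    · rw [h8] at h7
      simp only [if_true] at h7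
      simp only [Bool.true_and]
      have h9 : G.zipIdx.countP (fun ci : List (Lit V) × ℕ =>
          ci.1.any (fun l => decide (l.2 = v))) =
          G.countP (fun c => c.any (fun l => decide (l.2 = v))) :=
        countP_zipIdx (fun c : List (Lit V) => c.any (fun l => decide (l.2 = v))) G
      rw [h9]
      calc _ ≤ (vlist G).count v := countP_has_le G v
        _ ≤ K := hK v
        _ = K * 1 := (Nat.mul_one K).symm
        _ ≤ K * (cyc2 (occV G v)).countP (falsB a) := Nat.mul_le_mul_left _ h7
  have h7 : ((ded (vlist G)).map (fun v => K * (cyc2 (occV G v)).countP (falsB a))).sum =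
      K * (cycC G).countP (falsB a) := by
    unfold cycC
    rw [List.countP_flatMap, sum_map_mul]
    rfl
  have h8 : (occ3 G).countP (falsB a) =
      (mainC G).countP (falsB a) + (cycC G).countP (falsB a) := by
    unfold occ3
    rw [List.countP_append]
  rw [h8, h1]
  rw [h7] at h6
  rw [h4] at h3
  nlinarith

/-! ### Sizes -/

theorem vlist_length_eq_sum (G : List (List (Lit V))) :
    (vlist G).length = ((ded (vlist G)).map (fun v => (vlist G).count v)).sum := by
  have := countP_eq_sum (fun _ => true) (vlist G)
  rw [List.countP_true] at this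
  rw [this]
  rfl

theorem cycC_length (G : List (List (Lit V))) : (cycC G).length = (vlist G).length := by
  unfold cycC
  rw [List.length_flatMap, vlist_length_eq_sum]
  congr 1
  refine List.map_congr_left fun v _ => ?_
  unfold cyc2
  rw [List.length_map, cyc_length, occV_length]

omit [DecidableEq V] in
theorem vlist_length_le {G : List (List (Lit V))} {n : ℕ} (h : ∀ c ∈ G, c.length ≤ n) :
    (vlist G).length ≤ n * G.length := by
  unfold vlist
  rw [List.length_map]
  induction G with
  | nil => simp
  | cons c G ih =>
    have h1 := h c List.mem_cons_self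
    have h2 := ih (fun d hd => h d (List.mem_cons_of_mem _ hd))
    rw [List.flatten_cons, List.length_append, List.length_cons]
    nlinarith

theorem occ3_length {G : List (List (Lit V))} (h : ∀ c ∈ G, c.length ≤ 3) :
    (occ3 G).length ≤ 4 * G.length := by
  unfold occ3
  rw [List.length_append, cycC_length]
  have h1 := vlist_length_le h
  have h2 : (mainC G).length = G.length := by
    unfold mainC
    rw [List.length_map, List.length_zipIdx]
  omega

theorem occ3_length_ge (G : List (List (Lit V))) : G.length ≤ (occ3 G).length := by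
  unfold occ3
  rw [List.length_append]
  have h2 : (mainC G).length = G.length := by
    unfold mainC
    rw [List.length_map, List.length_zipIdx]
  omega

theorem occ3_clause_length {G : List (List (Lit V))} (h : ∀ c ∈ G, c.length ≤ 3) :
    ∀ c ∈ occ3 G, c.length ≤ 3 := by
  intro c hc
  unfold occ3 at hc
  rcases List.mem_append.1 hc with hc | hc
  · obtain ⟨⟨d, i⟩, hd, rfl⟩ := List.mem_map.1 hc
    unfold renC
    rw [List.length_map, List.length_zipIdx]
    exact h d (List.mem_of_getElem? (List.mem_zipIdx_iff_getElem?.1 hd))
  · obtain ⟨v, _, hc⟩ := List.mem_flatMap.1 hc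
    obtain ⟨p, hp, rfl⟩ := List.mem_map.1 hc
    simp

/-! ### Occurrences -/

theorem vlist_mainC (G : List (List (Lit V))) :
    vlist (mainC G) = ((occs G).map Prod.fst).map nm := by
  unfold vlist mainC occs
  rw [List.map_map, List.map_flatMap, ← List.flatMap_def, List.map_flatMap]
  congr 1
  funext ci
  unfold renC
  rw [List.map_map, List.map_map]
  rfl

/-- all pairs of the cycles -/
def allCyc (G : List (List (Lit V))) : List ((ℕ × ℕ) × (ℕ × ℕ)) :=
  (ded (vlist G)).flatMap (fun v => cyc (occV G v))

theorem vlist_cycC (G : List (List (Lit V))) :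
    vlist (cycC G) = (allCyc G).flatMap (fun p => [nm p.1, nm p.2]) := by
  unfold vlist cycC allCyc cyc2
  rw [List.flatMap_assoc]
  generalize ded (vlist G) = L
  induction L with
  | nil => rfl
  | cons v L ih =>
    rw [List.flatMap_cons, List.flatten_append, List.map_append, ih, List.flatMap_cons]
    congr 1
    generalize cyc (occV G v) = C
    induction C with
    | nil => rfl
    | cons p C ihC =>
      rw [List.map_cons, List.flatten_cons, List.map_append, ihC, List.flatMap_cons]
      rfl

theorem count_pairs (C : List ((ℕ × ℕ) × (ℕ × ℕ))) (w : List Bool) :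
    (C.flatMap (fun p => [nm p.1, nm p.2])).count w =
      ((C.map Prod.fst).map nm).count w + ((C.map Prod.snd).map nm).count w := by
  induction C with
  | nil => rfl
  | cons p C ih =>
    rw [List.flatMap_cons, List.count_append, ih]
    simp only [List.map_cons, List.count_cons, List.count_nil]
    omega

theorem flatMap_occV_nodup (G : List (List (Lit V))) (f : V → List (ℕ × ℕ))
    (hf : ∀ v, (f v).Perm (occV G v)) : ((ded (vlist G)).flatMap f).Nodup := by
  rw [List.nodup_flatMap]
  constructor
  · intro v _
    exact (hf v).nodup_iff.2 (occV_nodup G v)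
  · refine (nodup_ded (vlist G)).imp ?_
    intro v v' hne p hp hp'
    rw [(hf v).mem_iff] at hp
    rw [(hf v').mem_iff] at hp'
    obtain ⟨l, h1, rfl⟩ := mem_occV.1 hp
    obtain ⟨l', h2, rfl⟩ := mem_occV.1 hp'
    exact hne (by rw [occs_functional h1 h2])

/-- every variable occurs at most three times -/
theorem occ3_count (G : List (List (Lit V))) (w : List Bool) : (vlist (occ3 G)).count w ≤ 3 := by
  have h0 : vlist (occ3 G) = vlist (mainC G) ++ vlist (cycC G) := by
    unfold occ3 vlist
    rw [List.flatten_append, List.map_append]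
  rw [h0, List.count_append, vlist_mainC, vlist_cycC, count_pairs]
  have h1 : (((occs G).map Prod.fst).map nm).count w ≤ 1 :=
    List.nodup_iff_count_le_one.1 ((occs_fst_nodup G).map nm_injective) w
  have h2 : (((allCyc G).map Prod.fst).map nm).count w ≤ 1 := by
    refine List.nodup_iff_count_le_one.1 (List.Nodup.map nm_injective ?_) w
    unfold allCyc
    rw [List.map_flatMap]
    exact flatMap_occV_nodup G _ (fun v => by rw [cyc_map_fst])
  have h3 : (((allCyc G).map Prod.snd).map nm).count w ≤ 1 := by
    refine List.nodup_iff_count_le_one.1 (List.Nodup.map nm_injective ?_) w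
    unfold allCyc
    rw [List.map_flatMap]
    exact flatMap_occV_nodup G _ (fun v => cyc_map_snd _)
  omega

/-- all variables are names of occurrences -/
theorem occ3_vars (G : List (List (Lit V))) (w : List Bool) (hw : w ∈ vlist (occ3 G)) :
    w ∈ ((occs G).map Prod.fst).map nm := by
  have h0 : vlist (occ3 G) = vlist (mainC G) ++ vlist (cycC G) := by
    unfold occ3 vlist
    rw [List.flatten_append, List.map_append]
  rw [h0] at hw
  rcases List.mem_append.1 hw with hw | hw
  · rwa [vlist_mainC] at hw
  · rw [vlist_cycC] at hw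
    obtain ⟨p, hp, hw⟩ := List.mem_flatMap.1 hw
    unfold allCyc at hp
    obtain ⟨v, _, hp⟩ := List.mem_flatMap.1 hp
    obtain ⟨h1, h2⟩ := cyc_mem hp
    obtain ⟨l1, h1, _⟩ := mem_occV.1 h1
    obtain ⟨l2, h2, _⟩ := mem_occV.1 h2
    simp only [List.mem_cons, List.not_mem_nil, or_false] at hw
    rcases hw with rfl | rfl
    · exact List.mem_map.2 ⟨p.1, List.mem_map.2 ⟨_, h1, rfl⟩, rfl⟩
    · exact List.mem_map.2 ⟨p.2, List.mem_map.2 ⟨_, h2, rfl⟩, rfl⟩

theorem occ3_nvars (G : List (List (Lit V))) :
    (vlist (occ3 G)).toFinset.card ≤ (vlist G).length := by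
  have h : (vlist (occ3 G)).toFinset ⊆ (((occs G).map Prod.fst).map nm).toFinset := by
    intro w hw
    rw [List.mem_toFinset] at hw ⊢
    exact occ3_vars G w hw
  refine (Finset.card_le_card h).trans ((List.toFinset_card_le _).trans ?_)
  rw [List.length_map, List.length_map]
  unfold vlist
  rw [List.length_map, ← occs_map_snd, List.length_map]

end occ

/-! ### Polynomial time -/

section ptime

variable {V : Type} [DecidableEq V] [SCode V] {α : Type} [SCode α]

theorem occs_ptime {G : α → List (List (Lit V))} (hG : PTime G) :
    PTime (fun a => occs (G a)) := by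
  unfold occs
  refine PTime.flatMap (f := fun _ (ci : List (Lit V) × ℕ) =>
    ci.1.zipIdx.map (fun lj => ((ci.2, lj.2), lj.1))) (PTime.zipIdx hG) ?_
  refine PTime.map (f := fun (q : α × (List (Lit V) × ℕ)) (lj : Lit V × ℕ) =>
    ((q.2.2, lj.2), lj.1)) (PTime.zipIdx (PTime.fst.comp PTime.snd)) ?_
  exact ((PTime.snd.comp (PTime.snd.comp PTime.fst)).pair (PTime.snd.comp PTime.snd)).pair
    (PTime.fst.comp PTime.snd)

theorem occV_ptime {G : α → List (List (Lit V))} {v : α → V} (hG : PTime G) (hv : PTime v) :
    PTime (fun a => occV (G a) (v a)) := by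
  unfold occV
  refine (PTime.map (f := fun (_ : α) (o : (ℕ × ℕ) × Lit V) => o.1) ?_
    (PTime.fst.comp PTime.snd)).of_eq fun _ => rfl
  refine PTime.filter (p := fun a (o : (ℕ × ℕ) × Lit V) => decide (o.2.2 = v a))
    (occs_ptime hG) ?_
  exact PTime.eq (PTime.snd.comp (PTime.snd.comp PTime.snd)) (hv.comp PTime.fst)

theorem take1_ptime {β : Type} [SCode β] {l : α → List β} (hl : PTime l) :
    PTime (fun a => (l a).take 1) := PTime.take (PTime.const 1) hl

theorem cyc_ptime {β : Type} [SCode β] {l : α → List β} (hl : PTime l) :
    PTime (fun a => cyc (l a)) := adjp_ptime (PTime.append hl (take1_ptime hl))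

theorem occ3_ptime {G : α → List (List (Lit V))} (hG : PTime G) :
    PTime (fun a => occ3 (G a)) := by
  unfold occ3
  refine PTime.append ?_ ?_
  · unfold mainC
    refine PTime.map (f := fun (_ : α) ci => renC ci) (PTime.zipIdx hG) ?_
    unfold renC
    refine PTime.map (f := fun (q : α × (List (Lit V) × ℕ)) (lj : Lit V × ℕ) =>
      ((lj.1.1, nm (q.2.2, lj.2)) : Lit (List Bool))) (PTime.zipIdx (PTime.fst.comp PTime.snd)) ?_
    exact (PTime.fst.comp (PTime.fst.comp PTime.snd)).pair (nm_ptime
      ((PTime.snd.comp (PTime.snd.comp PTime.fst)).pair (PTime.snd.comp PTime.snd)))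
  · unfold cycC
    refine PTime.flatMap (f := fun a v => cyc2 (occV (G a) v)) (ded_ptime (vlist_ptime hG)) ?_
    unfold cyc2
    refine PTime.map (f := fun (_ : α × V) (p : (ℕ × ℕ) × (ℕ × ℕ)) =>
      ([(false, nm p.1), (true, nm p.2)] : List (Lit (List Bool))))
      (cyc_ptime (occV_ptime (hG.comp PTime.fst) PTime.snd)) ?_
    exact PTime.cons ((PTime.const false).pair (nm_ptime (PTime.fst.comp PTime.snd)))
      (PTime.cons ((PTime.const true).pair (nm_ptime (PTime.snd.comp PTime.snd)))
        (PTime.const []))

end ptime

end Pool.Agent.Lib.MP_87d05f_lc
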