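import Mathlib
import Pool.Agent.Lib.MP_87d05f_lc.Occ3
import Pool.Agent.Lib.MP_87d05f_lc.DenseMain

set_option autoImplicit false

/-!
# Formulas with variables in binary as formulas with variables that are numbers
-/

namespace Pool.Agent.Lib.MP_87d05f_lc

open Pool.Agent.PolyTime Function

theorem unbits_cons (b : Bool) (w : List Bool) : unbits (b :: w) = Nat.bit b (unbits w) := rfl

theorem unbits_ne_zero (u : List Bool) : unbits (u ++ [true]) ≠ 0 := by
  induction u with
  | nil => simp [unbits]
  | cons b u ih =>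
    rw [List.cons_append, unbits_cons]
    exact Nat.bit_ne_zero b ih

theorem bits_unbits (u : List Bool) : Nat.bits (unbits (u ++ [true])) = u ++ [true] := by
  induction u with
  | nil => simp [unbits]
  | cons b u ih =>
    rw [List.cons_append, unbits_cons, Nat.bits_append_bit, ih]
    intro h
    exact absurd h (unbits_ne_zero u)

/-- all variables are canonical -/
def Canon (G : List (List (Lit (List Bool)))) : Prop := ∀ w ∈ vlist G, ∃ u, w = u ++ [true]

theorem occ3_canon {V : Type} [DecidableEq V] (G : List (List (Lit V))) : Canon (occ3 G) := by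
  intro w hw
  obtain ⟨p, _, rfl⟩ := List.mem_map.1 (occ3_vars G w hw)
  exact nm_end p

/-- the same formula with numbers -/
def numG (G : List (List (Lit (List Bool)))) : List (List (Bool × ℕ)) :=
  G.map (fun c => c.map (fun l => (l.1, unbits l.2)))

/-- the encoding -/
def encG (G : List (List (Lit (List Bool)))) : List Bool :=
  G.flatMap (fun c => c.flatMap (fun l => [true, l.1] ++
    l.2.flatMap (fun x => [true, x]) ++ [false, false]) ++ [false, true])

theorem canon_lit {G : List (List (Lit (List Bool)))} (h : Canon G) {c : List (Lit (List Bool))}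
    (hc : c ∈ G) {l : Lit (List Bool)} (hl : l ∈ c) : Nat.bits (unbits l.2) = l.2 := by
  obtain ⟨u, hu⟩ := h l.2 (List.mem_map.2 ⟨l, List.mem_flatten.2 ⟨c, hc, hl⟩, rfl⟩)
  rw [hu, bits_unbits]

theorem binF_numG {G : List (List (Lit (List Bool)))} (h : Canon G) : binF (numG G) = G := by
  unfold binF numG
  rw [List.map_map]
  conv_rhs => rw [← List.map_id G]
  refine List.map_congr_left fun c hc => ?_
  simp only [Function.comp, List.map_map, id_eq]
  conv_rhs => rw [← List.map_id c]
  refine List.map_congr_left fun l hl => ?_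
  simp only [Function.comp, canon_lit h hc hl, id_eq]

theorem encF_numG {G : List (List (Lit (List Bool)))} (h : Canon G) : encF (numG G) = encG G := by
  unfold encF encG numG
  rw [List.flatMap_map]
  refine List.flatMap_congr fun c hc => ?_
  rw [List.flatMap_map]
  congr 1
  refine List.flatMap_congr fun l hl => ?_
  rw [canon_lit h hc hl]

theorem nvars_eq {V : Type} [DecidableEq V] (F : List (List (Bool × V))) :
    nvars F = (vlist F).toFinset.card := rfl

theorem nvars_numG {G : List (List (Lit (List Bool)))} (h : Canon G) :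
    nvars (numG G) = nvars G := by
  rw [← nvars_binF, binF_numG h]

theorem numG_length (G : List (List (Lit (List Bool)))) : (numG G).length = G.length :=
  List.length_map ..

theorem numG_count {G : List (List (Lit (List Bool)))} (h : Canon G) (v : ℕ) :
    ((numG G).flatten.map Prod.snd).count v ≤ (vlist G).count (Nat.bits v) := by
  have h1 : (numG G).flatten.map Prod.snd = (vlist G).map unbits := by
    unfold numG vlist
    rw [← List.map_flatten, List.map_map, List.map_map]
    rfl
  rw [h1, List.count_eq_countP, List.countP_map, List.count_eq_countP]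
  refine List.countP_mono_left fun w hw hv => ?_
  obtain ⟨u, rfl⟩ := h w hw
  simp only [Function.comp, beq_iff_eq] at hv ⊢
  rw [← hv, bits_unbits]

theorem numG_fals (G : List (List (Lit (List Bool)))) (a : ℕ → Bool) :
    (numG G).countP (falsB a) = G.countP (falsB (fun w => a (unbits w))) := by
  unfold numG
  rw [List.countP_map]
  congr 1
  funext c
  simp only [Function.comp, falsB, List.any_map]
  rfl

theorem numG_sat {G : List (List (Lit (List Bool)))} (h : Canon G) {a : List Bool → Bool}
    (ha : ∀ c ∈ G, ∃ l ∈ c, tr a l) :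
    ∃ a' : ℕ → Bool, ∀ c ∈ numG G, ∃ l ∈ c, a' l.2 = l.1 := by
  refine ⟨fun n => a (Nat.bits n), fun c hc => ?_⟩
  obtain ⟨d, hd, rfl⟩ := List.mem_map.1 hc
  obtain ⟨l, hl, hla⟩ := ha d hd
  refine ⟨(l.1, unbits l.2), List.mem_map.2 ⟨l, hl, rfl⟩, ?_⟩
  simp only [canon_lit h hd hl]
  exact hla

theorem encG_ptime {α : Type} [SCode α] {G : α → List (List (Lit (List Bool)))} (hG : PTime G) :
    PTime (fun a => encG (G a)) := by
  unfold encG
  refine PTime.flatMap (f := fun (_ : α) (c : List (Lit (List Bool))) =>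
    (c.flatMap (fun l => [true, l.1] ++ l.2.flatMap (fun x => [true, x]) ++ [false, false]) ++
      [false, true] : List Bool)) hG ?_
  refine PTime.append ?_ (PTime.const _)
  refine PTime.flatMap (f := fun (_ : α × List (Lit (List Bool))) (l : Lit (List Bool)) =>
    ([true, l.1] ++ l.2.flatMap (fun x => [true, x]) ++ [false, false] : List Bool)) PTime.snd ?_
  refine PTime.append (PTime.append ?_ ?_) (PTime.const _)
  · exact PTime.cons (PTime.const true) (PTime.cons (PTime.fst.comp PTime.snd) (PTime.const []))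
  · refine PTime.flatMap (f := fun (_ : (α × List (Lit (List Bool))) × Lit (List Bool)) x =>
      ([true, x] : List Bool)) (PTime.snd.comp PTime.snd) ?_
    exact PTime.cons (PTime.const true) (PTime.cons PTime.snd (PTime.const []))

/-! ### Polynomially bounded functions -/

/-- polynomially bounded -/
def PolyB (f : ℕ → ℕ) : Prop := ∃ C k : ℕ, ∀ L, f L ≤ C * (L + 1) ^ k

theorem PolyB.const (c : ℕ) : PolyB (fun _ => c) := ⟨c, 0, fun L => by simp⟩

theorem PolyB.id : PolyB (fun L => L) := ⟨1, 1, fun L => by simp⟩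

theorem PolyB.add {f g : ℕ → ℕ} (hf : PolyB f) (hg : PolyB g) : PolyB (fun L => f L + g L) := by
  obtain ⟨C, k, h⟩ := hf
  obtain ⟨C', k', h'⟩ := hg
  refine ⟨C + C', k + k', fun L => ?_⟩
  have h1 : (L + 1) ^ k ≤ (L + 1) ^ (k + k') :=
    Nat.pow_le_pow_right (Nat.succ_pos L) (Nat.le_add_right _ _)
  have h2 : (L + 1) ^ k' ≤ (L + 1) ^ (k + k') :=
    Nat.pow_le_pow_right (Nat.succ_pos L) (Nat.le_add_left _ _)
  calc f L + g L ≤ C * (L + 1) ^ k + C' * (L + 1) ^ k' := Nat.add_le_add (h L) (h' L)
    _ ≤ C * (L + 1) ^ (k + k') + C' * (L + 1) ^ (k + k') :=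
        Nat.add_le_add (Nat.mul_le_mul_left _ h1) (Nat.mul_le_mul_left _ h2)
    _ = _ := by ring

theorem PolyB.mul {f g : ℕ → ℕ} (hf : PolyB f) (hg : PolyB g) : PolyB (fun L => f L * g L) := by
  obtain ⟨C, k, h⟩ := hf
  obtain ⟨C', k', h'⟩ := hg
  refine ⟨C * C', k + k', fun L => ?_⟩
  calc f L * g L ≤ (C * (L + 1) ^ k) * (C' * (L + 1) ^ k') := Nat.mul_le_mul (h L) (h' L)
    _ = _ := by ring

theorem PolyB.pow {f : ℕ → ℕ} (hf : PolyB f) (n : ℕ) : PolyB (fun L => f L ^ n) := by
  induction n with
  | zero => simpa using PolyB.const 1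
  | succ n ih => simpa [pow_succ] using ih.mul hf

theorem PolyB.mono {f g : ℕ → ℕ} (hg : PolyB g) (h : ∀ L, f L ≤ g L) : PolyB f := by
  obtain ⟨C, k, h'⟩ := hg
  exact ⟨C, k, fun L => (h L).trans (h' L)⟩

theorem PolyB.eval (P : Polynomial ℕ) {f : ℕ → ℕ} (hf : PolyB f) :
    PolyB (fun L => P.eval (f L)) := by
  obtain ⟨C, k, h⟩ := poly_bound P
  exact PolyB.mono ((PolyB.const C).mul ((hf.add (PolyB.const 1)).pow k)) (fun L => h (f L))

end Pool.Agent.Lib.MP_87d05f_lc
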