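import Mathlib
import Pool.Agent.Lib.MP_87d05f_lc.Enc3
import Pool.Agent.Lib.MP_87d05f_lc.OracleSearch

set_option autoImplicit false

/-!
# The search tree of the sparsification
-/

namespace Pool.Agent.Lib.MP_87d05f_lc

open Pool.Agent.PolyTime Function Turing

/-- formulas with variables in binary -/
abbrev BF := List (List (Lit (List Bool)))

/-- nodes of the search: nodes of the branching process, or a formula with a list of variables
still to be given values -/
abbrev Nd2 := Nd (List Bool) ⊕ (BF × List (List Bool))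

section defs

variable (θ p q K1 K2 C k b' : ℕ)

/-- the end of the search -/
def fin3 (G : BF) : (Bool ⊕ Qry) ⊕ (Nd2 × Nd2) :=
  bif decide (([] : List (Lit (List Bool))) ∈ G) then Sum.inl (Sum.inl false) else
  bif G.isEmpty then Sum.inl (Sum.inl true) else
  Sum.inl (Sum.inr (encG (occ3 G), (C * ((encG (occ3 G)).length + 1) ^ k,
    mydiv (vlist G).length b')))

/-- branching on the listed variables -/
def expand2 (G : BF) (vs : List (List Bool)) : (Bool ⊕ Qry) ⊕ (Nd2 × Nd2) :=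
  (List.casesOn vs (fin3 C k b' G) (fun v vs' =>
    Sum.inr (Sum.inr (assign G v true, vs'), Sum.inr (assign G v false, vs'))))

/-- the search tree -/
def expandS (e : Env (List Bool)) (t : Nd2) : (Bool ⊕ Qry) ⊕ (Nd2 × Nd2) :=
  bif decide (([] : List (Lit (List Bool))) ∈ e.1) then Sum.inl (Sum.inl false) else
  t.elim (fun s => (Option.casesOn (rule θ e s)
      (expand2 C k b' (sparse p q K1 e s) (high K2 (sparse p q K1 e s)))
      (fun lr => Sum.inr (Sum.inl lr.1, Sum.inl lr.2))))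
    (fun Gv => expand2 C k b' Gv.1 Gv.2)

theorem fin3_ptime {α : Type} [SCode α] {G : α → BF} (hG : PTime G) :
    PTime (fun a => fin3 C k b' (G a)) := by
  unfold fin3
  refine PTime.cond (mem_ptime (PTime.const []) hG) (PTime.const _)
    (PTime.cond (PTime.isEmpty hG) (PTime.const _) ?_)
  have h := encG_ptime (occ3_ptime hG)
  refine PTime.inl (PTime.inr (h.pair (PTime.pair ?_ ?_)))
  · exact PTime.mul (PTime.const C) (PTime.natPow_const (PTime.succ (PTime.length h)) k)
  · exact mydiv_ptime (PTime.length (vlist_ptime hG)) (PTime.const b')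

theorem expand2_ptime {α : Type} [SCode α] {G : α → BF} {vs : α → List (List Bool)}
    (hG : PTime G) (hv : PTime vs) : PTime (fun a => expand2 C k b' (G a) (vs a)) := by
  unfold expand2
  refine PTime.list_casesOn (f := vs) (g := fun a => fin3 C k b' (G a))
    (h := fun a v vs' => (Sum.inr (Sum.inr (assign (G a) v true, vs'),
      Sum.inr (assign (G a) v false, vs')) : (Bool ⊕ Qry) ⊕ (Nd2 × Nd2))) hv
    (fin3_ptime C k b' hG) ?_
  have h1 : PTime (fun q : α × List Bool × List (List Bool) => G q.1) := hG.comp PTime.fst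
  have h2 : PTime (fun q : α × List Bool × List (List Bool) => q.2.1) :=
    PTime.fst.comp PTime.snd
  have h3 : PTime (fun q : α × List Bool × List (List Bool) => q.2.2) :=
    PTime.snd.comp PTime.snd
  exact PTime.inr (PTime.pair (PTime.inr ((assign_ptime h1 h2 (PTime.const true)).pair h3))
    (PTime.inr ((assign_ptime h1 h2 (PTime.const false)).pair h3)))

theorem expandS_ptime : PTime (fun x : Env (List Bool) × Nd2 =>
    expandS θ p q K1 K2 C k b' x.1 x.2) := by
  unfold expandS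
  refine PTime.cond (mem_ptime (PTime.const []) (PTime.fst.comp PTime.fst)) (PTime.const _) ?_
  refine PTime.sum_elim (f := fun x : Env (List Bool) × Nd2 => x.2)
    (g := fun x s => (Option.casesOn (rule θ x.1 s)
      (expand2 C k b' (sparse p q K1 x.1 s) (high K2 (sparse p q K1 x.1 s)))
      (fun lr => Sum.inr (Sum.inl lr.1, Sum.inl lr.2)) : (Bool ⊕ Qry) ⊕ (Nd2 × Nd2)))
    (h := fun _ Gv => expand2 C k b' Gv.1 Gv.2) PTime.snd ?_ ?_
  · have h1 : PTime (fun y : (Env (List Bool) × Nd2) × Nd (List Bool) => y.1.1) :=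
      PTime.fst.comp PTime.fst
    have h2 : PTime (fun y : (Env (List Bool) × Nd2) × Nd (List Bool) => y.2) := PTime.snd
    have h3 := sparse_ptime p q K1 h1 h2
    refine PTime.option_casesOn
      (f := fun y : (Env (List Bool) × Nd2) × Nd (List Bool) => rule θ y.1.1 y.2)
      (g := fun y => expand2 C k b' (sparse p q K1 y.1.1 y.2)
        (high K2 (sparse p q K1 y.1.1 y.2)))
      (h := fun _ lr => (Sum.inr (Sum.inl lr.1, Sum.inl lr.2) : (Bool ⊕ Qry) ⊕ (Nd2 × Nd2)))
      (rule_ptime θ h1 h2) (expand2_ptime C k b' h3 (high_ptime K2 h3)) ?_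
    exact PTime.inr (PTime.pair (PTime.inl (PTime.fst.comp PTime.snd))
      (PTime.inl (PTime.snd.comp PTime.snd)))
  · exact expand2_ptime C k b' (PTime.fst.comp PTime.snd) (PTime.snd.comp PTime.snd)

/-! ### Semantics -/

variable (tm : FinTM2) (e₀ : tm.Γ tm.k₀ ≃ Bool) (acc : List (tm.Γ tm.k₁))

/-- the search tree with the answers -/
noncomputable def EX (e : Env (List Bool)) (t : Nd2) : Bool ⊕ (Nd2 × Nd2) :=
  expandA tm e₀ acc (expandS θ p q K1 K2 C k b') e t

/-- the final answer on a formula -/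
noncomputable def finA (G : BF) : Bool ⊕ (Nd2 × Nd2) :=
  (fin3 C k b' G).elim (fun a => a.elim (fun b => Sum.inl b) (fun q => Sum.inl (ansT tm e₀ acc q)))
    (fun lr => Sum.inr lr)

theorem EX_nil {e : Env (List Bool)} (h0 : [] ∈ e.1) (t : Nd2) :
    EX θ p q K1 K2 C k b' tm e₀ acc e t = Sum.inl false := by
  unfold EX expandA expandS
  rw [decide_eq_true h0]
  rfl

theorem EX_inr_nil {e : Env (List Bool)} (h0 : [] ∉ e.1) (G : BF) :
    EX θ p q K1 K2 C k b' tm e₀ acc e (Sum.inr (G, [])) = finA C k b' tm e₀ acc G := by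
  unfold EX expandA expandS finA
  rw [decide_eq_false h0]
  rfl

theorem EX_inr_cons {e : Env (List Bool)} (h0 : [] ∉ e.1) (G : BF) (v : List Bool)
    (vs : List (List Bool)) :
    EX θ p q K1 K2 C k b' tm e₀ acc e (Sum.inr (G, v :: vs)) =
      Sum.inr (Sum.inr (assign G v true, vs), Sum.inr (assign G v false, vs)) := by
  unfold EX expandA expandS
  rw [decide_eq_false h0]
  rfl

theorem EX_inl_some {e : Env (List Bool)} (h0 : [] ∉ e.1) {s : Nd (List Bool)}
    {lr : Nd (List Bool) × Nd (List Bool)} (h : rule θ e s = some lr) :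
    EX θ p q K1 K2 C k b' tm e₀ acc e (Sum.inl s) = Sum.inr (Sum.inl lr.1, Sum.inl lr.2) := by
  unfold EX expandA expandS
  rw [decide_eq_false h0]
  simp only [cond_false, Sum.elim_inl]
  rw [h]
  rfl

theorem EX_inl_none {e : Env (List Bool)} (h0 : [] ∉ e.1) {s : Nd (List Bool)}
    (h : rule θ e s = none) :
    EX θ p q K1 K2 C k b' tm e₀ acc e (Sum.inl s) =
      EX θ p q K1 K2 C k b' tm e₀ acc e
        (Sum.inr (sparse p q K1 e s, high K2 (sparse p q K1 e s))) := by
  unfold EX expandA expandS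
  rw [decide_eq_false h0]
  simp only [cond_false, Sum.elim_inl, Sum.elim_inr]
  rw [h]

theorem accLeaf_congr {τ : Type} {E : τ → Bool ⊕ (τ × τ)} {s s' : τ} (h : E s = E s') :
    AccLeaf E s → AccLeaf E s' := by
  intro ha
  cases ha with
  | leaf h1 => exact .leaf (by rw [← h]; exact h1)
  | left h1 h2 => exact .left (by rw [← h]; exact h1) h2
  | right h1 h2 => exact .right (by rw [← h]; exact h1) h2

theorem acc2_of {e : Env (List Bool)} (h0 : [] ∉ e.1) (a : List Bool → Bool)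
    (vs : List (List Bool)) : ∀ G : BF,
    finA C k b' tm e₀ acc (assignAll G (vs.map (fun v => (v, a v)))) = Sum.inl true →
    AccLeaf (EX θ p q K1 K2 C k b' tm e₀ acc e) (Sum.inr (G, vs)) := by
  induction vs with
  | nil =>
    intro G h
    refine .leaf ?_
    rw [EX_inr_nil θ p q K1 K2 C k b' tm e₀ acc h0]
    exact h
  | cons v vs ih =>
    intro G h
    rw [List.map_cons, assignAll_cons] at h
    have h1 := ih _ h
    have h2 := EX_inr_cons θ p q K1 K2 C k b' tm e₀ acc h0 G v vs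
    rcases hv : a v with _ | _
    · simp only [hv] at h1
      exact .right h2 h1
    · simp only [hv] at h1
      exact .left h2 h1

theorem acc2_exists {e : Env (List Bool)} (h0 : [] ∉ e.1) (vs : List (List Bool)) :
    ∀ G : BF, AccLeaf (EX θ p q K1 K2 C k b' tm e₀ acc e) (Sum.inr (G, vs)) →
    ∃ ps : List (List Bool × Bool), ps.map Prod.fst = vs ∧
      finA C k b' tm e₀ acc (assignAll G ps) = Sum.inl true := by
  induction vs with
  | nil =>
    intro G h
    refine ⟨[], rfl, ?_⟩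
    have h2 := EX_inr_nil θ p q K1 K2 C k b' tm e₀ acc h0 G
    have h3 : ∀ lr, finA C k b' tm e₀ acc G ≠ Sum.inr lr := by
      intro lr
      unfold finA fin3
      rcases decide (([] : List (Lit (List Bool))) ∈ G) with _ | _ <;>
        rcases G.isEmpty with _ | _ <;> simp
    cases h with
    | leaf h1 => rw [h2] at h1; exact h1
    | left h1 _ => rw [h2] at h1; exact absurd h1 (h3 _)
    | right h1 _ => rw [h2] at h1; exact absurd h1 (h3 _)
  | cons v vs ih =>
    intro G h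
    have h2 := EX_inr_cons θ p q K1 K2 C k b' tm e₀ acc h0 G v vs
    cases h with
    | leaf h1 => rw [h2] at h1; simp at h1
    | left h1 h3 =>
      rw [h2] at h1
      simp only [Sum.inr.injEq, Prod.mk.injEq] at h1
      obtain ⟨rfl, rfl⟩ := h1
      obtain ⟨ps, hps, h4⟩ := ih _ h3
      exact ⟨(v, true) :: ps, by rw [List.map_cons, hps], h4⟩
    | right h1 h3 =>
      rw [h2] at h1
      simp only [Sum.inr.injEq, Prod.mk.injEq] at h1
      obtain ⟨rfl, rfl⟩ := h1
      obtain ⟨ps, hps, h4⟩ := ih _ h3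
      exact ⟨(v, false) :: ps, by rw [List.map_cons, hps], h4⟩

/-- completeness of the whole search -/
theorem accS_of_sat {e : Env (List Bool)} (hθ : 1 ≤ θ) (he : WF e) (h0 : [] ∉ e.1)
    {a : List Bool → Bool} (ha : FSat a e)
    (hfin : ∀ G : BF, (∀ c ∈ G, ∃ l ∈ c, tr a l) → (∀ c ∈ G, c.length ≤ 3) →
      finA C k b' tm e₀ acc G = Sum.inl true) (h3 : ∀ c ∈ e.1, c.length ≤ 3) :
    ∀ (n : ℕ) (s : Nd (List Bool)), Pot θ e s ≤ n → Inv θ e s → NSat a s →
    AccLeaf (EX θ p q K1 K2 C k b' tm e₀ acc e) (Sum.inl s) := by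
  have hleaf : ∀ s : Nd (List Bool), NSat a s → rule θ e s = none →
      AccLeaf (EX θ p q K1 K2 C k b' tm e₀ acc e) (Sum.inl s) := by
    intro s hsa hr
    refine accLeaf_congr (EX_inl_none θ p q K1 K2 C k b' tm e₀ acc h0 hr).symm ?_
    refine acc2_of θ p q K1 K2 C k b' tm e₀ acc h0 a _ _ ?_
    refine hfin _ (assignAll_sat _ _ ?_) (assignAll_clause_length _ _ ?_)
    · intro c hc
      obtain ⟨c', hc', rfl⟩ := sparse_mem hc
      exact tcl_sat he ha hsa hc'
    · intro c hc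
      obtain ⟨c', hc', rfl⟩ := sparse_mem hc
      exact tcl_length (h3 c' hc')
  intro n
  induction n with
  | zero =>
    intro s hn hs hsa
    rcases rule_spec hθ he hs with h | ⟨l, r, h, _, _, h1, _⟩
    · exact hleaf s hsa h
    · omega
  | succ n ih =>
    intro s hn hs hsa
    rcases rule_spec hθ he hs with h | ⟨l, r, h, hl, hr, h1, h2⟩
    · exact hleaf s hsa h
    · have hθ2 : 1 * 1 ≤ θ * θ := Nat.mul_le_mul hθ hθ
      have hE := EX_inl_some θ p q K1 K2 C k b' tm e₀ acc h0 h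
      rcases rule_sat he ha hsa h with h3 | h3
      · exact .left hE (ih l (by omega) hl h3)
      · exact .right hE (ih r (by omega) hr h3)

/-- an accepted node has an accepted end formula -/
theorem exists_fin {e : Env (List Bool)} (hθ : 1 ≤ θ) (he : WF e) (h0 : [] ∉ e.1) {t : Nd2}
    (h : AccLeaf (EX θ p q K1 K2 C k b' tm e₀ acc e) t) :
    ∀ s : Nd (List Bool), t = Sum.inl s → Inv θ e s →
    ∃ s', Inv θ e s' ∧ rule θ e s' = none ∧ ∃ ps : List (List Bool × Bool),
      ps.map Prod.fst = high K2 (sparse p q K1 e s') ∧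
      finA C k b' tm e₀ acc (assignAll (sparse p q K1 e s') ps) = Sum.inl true := by
  have hleaf : ∀ s : Nd (List Bool), Inv θ e s → rule θ e s = none →
      AccLeaf (EX θ p q K1 K2 C k b' tm e₀ acc e) (Sum.inl s) →
      ∃ s', Inv θ e s' ∧ rule θ e s' = none ∧ ∃ ps : List (List Bool × Bool),
      ps.map Prod.fst = high K2 (sparse p q K1 e s') ∧
      finA C k b' tm e₀ acc (assignAll (sparse p q K1 e s') ps) = Sum.inl true := by
    intro s hs hr ha
    obtain ⟨ps, h1, h2⟩ := acc2_exists θ p q K1 K2 C k b' tm e₀ acc h0 _ _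
      (accLeaf_congr (EX_inl_none θ p q K1 K2 C k b' tm e₀ acc h0 hr) ha)
    exact ⟨s, hs, hr, ps, h1, h2⟩
  induction h with
  | @leaf t h =>
    rintro s rfl hs
    rcases hr : rule θ e s with _ | lr
    · exact hleaf s hs hr (.leaf h)
    · rw [EX_inl_some θ p q K1 K2 C k b' tm e₀ acc h0 hr] at h
      simp at h
  | @left t l r h h' ih =>
    rintro s rfl hs
    rcases hr : rule θ e s with _ | lr
    · exact hleaf s hs hr (.left h h')
    · rcases rule_spec hθ he hs with h1 | ⟨l', r', h1, hl, hr', _, _⟩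
      · rw [h1] at hr; simp at hr
      · rw [EX_inl_some θ p q K1 K2 C k b' tm e₀ acc h0 h1] at h
        simp only [Sum.inr.injEq, Prod.mk.injEq] at h
        exact ih l' h.1.symm hl
  | @right t l r h h' ih =>
    rintro s rfl hs
    rcases hr : rule θ e s with _ | lr
    · exact hleaf s hs hr (.right h h')
    · rcases rule_spec hθ he hs with h1 | ⟨l', r', h1, hl, hr', _, _⟩
      · rw [h1] at hr; simp at hr
      · rw [EX_inl_some θ p q K1 K2 C k b' tm e₀ acc h0 h1] at h
        simp only [Sum.inr.injEq, Prod.mk.injEq] at h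
        exact ih r' h.2.symm hr'

/-! ### The bounds of the search -/

/-- the invariant of the nodes: `E1` bounds sizes, `Fm` the number of occurrences, `Hm` the
number of variables to branch on -/
def Inv2 (e : Env (List Bool)) (E1 Fm Hm : ℕ) (t : Nd2) : Prop :=
  t.elim (fun s => Inv θ e s)
    (fun Gv => sz Gv.1 ≤ E1 ∧ sz Gv.2 ≤ E1 ∧ (vlist Gv.1).length ≤ Fm ∧ Gv.2.length ≤ Hm)

/-- depth -/
def Dep (e : Env (List Bool)) (Hm : ℕ) (t : Nd2) : ℕ :=
  t.elim (fun s => Pot θ e s + Hm) (fun Gv => Gv.2.length)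

/-- number of nodes -/
def Wt (T : ℕ → ℕ) (e : Env (List Bool)) (Hm : ℕ) (t : Nd2) : ℕ :=
  t.elim (fun s => T (Pot θ e s) * 2 ^ (Hm + 2)) (fun Gv => 2 ^ (Gv.2.length + 1) - 1)

theorem expand2_spec {e : Env (List Bool)} (h0 : [] ∉ e.1) {E1 Fm Hm : ℕ} (G : BF)
    (vs : List (List Bool)) (h1 : sz G ≤ E1) (h2 : sz vs ≤ E1) (h3 : (vlist G).length ≤ Fm)
    (h4 : vs.length ≤ Hm) :
    (∃ b, EX θ p q K1 K2 C k b' tm e₀ acc e (Sum.inr (G, vs)) = Sum.inl b) ∨
    (∃ G₁ G₂ vs', EX θ p q K1 K2 C k b' tm e₀ acc e (Sum.inr (G, vs)) =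
      Sum.inr (Sum.inr (G₁, vs'), Sum.inr (G₂, vs')) ∧
      (sz G₁ ≤ E1 ∧ sz vs' ≤ E1 ∧ (vlist G₁).length ≤ Fm ∧ vs'.length ≤ Hm) ∧
      (sz G₂ ≤ E1 ∧ sz vs' ≤ E1 ∧ (vlist G₂).length ≤ Fm ∧ vs'.length ≤ Hm) ∧
      vs'.length + 1 = vs.length) := by
  rcases vs with _ | ⟨v, vs⟩
  · left
    rw [EX_inr_nil θ p q K1 K2 C k b' tm e₀ acc h0]
    unfold finA fin3
    rcases decide (([] : List (Lit (List Bool))) ∈ G) with _ | _
    · rcases G.isEmpty with _ | _
      · exact ⟨_, rfl⟩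
      · exact ⟨_, rfl⟩
    · exact ⟨_, rfl⟩
  · right
    have hv : ∀ b, (vlist (assign G v b)).length ≤ (vlist G).length := by
      intro b
      exact ((assign_flatten G v b).map _).length_le
    rw [sz_cons] at h2
    rw [List.length_cons] at h4
    refine ⟨_, _, vs, EX_inr_cons θ p q K1 K2 C k b' tm e₀ acc h0 G v vs,
      ⟨(sz_assign_le G v true).trans h1, by omega, (hv true).trans h3, by omega⟩,
      ⟨(sz_assign_le G v false).trans h1, by omega, (hv false).trans h3, by omega⟩, by simp⟩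

theorem EX_spec {e : Env (List Bool)} (hθ : 1 ≤ θ) (he : WF e) {T : ℕ → ℕ}
    (hT1 : ∀ m, 1 ≤ T m)
    (hT : ∀ m m₁ m₂, m₁ + 1 ≤ m → m₂ + θ * θ ≤ m → 1 + T m₁ + T m₂ ≤ T m) {E1 Fm Hm : ℕ}
    (hleaf : [] ∉ e.1 → ∀ s, Inv θ e s → rule θ e s = none → sz (sparse p q K1 e s) ≤ E1 ∧
      sz (high K2 (sparse p q K1 e s)) ≤ E1 ∧ (vlist (sparse p q K1 e s)).length ≤ Fm ∧
      (high K2 (sparse p q K1 e s)).length ≤ Hm) (t : Nd2) (ht : Inv2 θ e E1 Fm Hm t) :
    (∃ b, EX θ p q K1 K2 C k b' tm e₀ acc e t = Sum.inl b) ∨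
    (∃ l r, EX θ p q K1 K2 C k b' tm e₀ acc e t = Sum.inr (l, r) ∧ Inv2 θ e E1 Fm Hm l ∧
      Inv2 θ e E1 Fm Hm r ∧ Dep θ e Hm l + 1 ≤ Dep θ e Hm t ∧ Dep θ e Hm r + 1 ≤ Dep θ e Hm t ∧
      1 + Wt θ T e Hm l + Wt θ T e Hm r ≤ Wt θ T e Hm t) := by
  by_cases h0 : [] ∈ e.1
  · exact Or.inl ⟨false, EX_nil θ p q K1 K2 C k b' tm e₀ acc h0 t⟩
  rcases t with s | ⟨G, vs⟩
  · change Inv θ e s at ht
    rcases rule_spec hθ he ht with h | ⟨l, r, h, hl, hr, h1, h2⟩
    · obtain ⟨g1, g2, g3, g4⟩ := hleaf h0 s ht h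
      rw [EX_inl_none θ p q K1 K2 C k b' tm e₀ acc h0 h]
      rcases expand2_spec θ p q K1 K2 C k b' tm e₀ acc h0 _ _ g1 g2 g3 g4 with
        h' | ⟨G₁, G₂, vs', h', i1, i2, i3⟩
      · exact Or.inl h'
      · refine Or.inr ⟨_, _, h', i1, i2, ?_, ?_, ?_⟩
        · change vs'.length + 1 ≤ Pot θ e s + Hm
          omega
        · change vs'.length + 1 ≤ Pot θ e s + Hm
          omega
        · change 1 + (2 ^ (vs'.length + 1) - 1) + (2 ^ (vs'.length + 1) - 1) ≤
            T (Pot θ e s) * 2 ^ (Hm + 2)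
          have j1 : 2 ^ (vs'.length + 1) ≤ 2 ^ (Hm + 1) :=
            Nat.pow_le_pow_right (by norm_num) (by omega)
          have j2 : 2 ^ (Hm + 2) = 2 * 2 ^ (Hm + 1) := by rw [pow_succ]; ring
          have j3 : 1 * 2 ^ (Hm + 2) ≤ T (Pot θ e s) * 2 ^ (Hm + 2) :=
            Nat.mul_le_mul_right _ (hT1 _)
          have j4 : 1 ≤ 2 ^ (vs'.length + 1) := Nat.one_le_two_pow
          generalize T (Pot θ e s) * 2 ^ (Hm + 2) = X at *
          generalize 2 ^ (vs'.length + 1) = Y at *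
          generalize 2 ^ (Hm + 2) = Z at *
          generalize 2 ^ (Hm + 1) = U at *
          omega
    · have hθ2 : 1 * 1 ≤ θ * θ := Nat.mul_le_mul hθ hθ
      refine Or.inr ⟨_, _, EX_inl_some θ p q K1 K2 C k b' tm e₀ acc h0 h, hl, hr, ?_, ?_, ?_⟩
      · change Pot θ e l + Hm + 1 ≤ Pot θ e s + Hm
        omega
      · change Pot θ e r + Hm + 1 ≤ Pot θ e s + Hm
        omega
      · change 1 + T (Pot θ e l) * 2 ^ (Hm + 2) + T (Pot θ e r) * 2 ^ (Hm + 2) ≤
          T (Pot θ e s) * 2 ^ (Hm + 2)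
        have j1 := Nat.mul_le_mul_right (2 ^ (Hm + 2)) (hT _ _ _ h1 h2)
        have j2 : 1 ≤ 2 ^ (Hm + 2) := Nat.one_le_two_pow
        nlinarith
  · obtain ⟨g1, g2, g3, g4⟩ := ht
    rcases expand2_spec θ p q K1 K2 C k b' tm e₀ acc h0 G vs g1 g2 g3 g4 with
        h' | ⟨G₁, G₂, vs', h', i1, i2, i3⟩
    · exact Or.inl h'
    · refine Or.inr ⟨_, _, h', i1, i2, ?_, ?_, ?_⟩
      · change vs'.length + 1 ≤ vs.length
        omega
      · change vs'.length + 1 ≤ vs.length
        omega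
      · change 1 + (2 ^ (vs'.length + 1) - 1) + (2 ^ (vs'.length + 1) - 1) ≤
            2 ^ (vs.length + 1) - 1
        rw [← i3]
        have j2 : 2 ^ (vs'.length + 1 + 1) = 2 * 2 ^ (vs'.length + 1) := by rw [pow_succ]; ring
        have j3 : 1 ≤ 2 ^ (vs'.length + 1) := Nat.one_le_two_pow
        omega

theorem Wt_pos {T : ℕ → ℕ} (hT1 : ∀ m, 1 ≤ T m) (e : Env (List Bool)) (Hm : ℕ) (t : Nd2) :
    1 ≤ Wt θ T e Hm t := by
  rcases t with s | ⟨G, vs⟩
  · change 1 ≤ T (Pot θ e s) * 2 ^ (Hm + 2)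
    exact Nat.mul_pos (hT1 _) (by positivity)
  · change 1 ≤ 2 ^ (vs.length + 1) - 1
    have j2 : 2 ^ (vs.length + 1) = 2 * 2 ^ vs.length := by rw [pow_succ]; ring
    have j3 : 1 ≤ 2 ^ vs.length := Nat.one_le_two_pow
    omega

/-- the queries of the search -/
theorem query_of {e : Env (List Bool)} {E1 Fm Hm : ℕ}
    (hleaf : [] ∉ e.1 → ∀ s, Inv θ e s → rule θ e s = none → sz (sparse p q K1 e s) ≤ E1 ∧
      sz (high K2 (sparse p q K1 e s)) ≤ E1 ∧ (vlist (sparse p q K1 e s)).length ≤ Fm ∧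
      (high K2 (sparse p q K1 e s)).length ≤ Hm) (t : Nd2) (ht : Inv2 θ e E1 Fm Hm t) (y : Qry)
    (hy : expandS θ p q K1 K2 C k b' e t = Sum.inl (Sum.inr y)) :
    ∃ G : BF, sz G ≤ E1 ∧ (vlist G).length ≤ Fm ∧
      y = (encG (occ3 G), (C * ((encG (occ3 G)).length + 1) ^ k,
        mydiv (vlist G).length b')) := by
  have hfin : ∀ G : BF, sz G ≤ E1 → (vlist G).length ≤ Fm → fin3 C k b' G = Sum.inl (Sum.inr y) →
      ∃ G : BF, sz G ≤ E1 ∧ (vlist G).length ≤ Fm ∧
      y = (encG (occ3 G), (C * ((encG (occ3 G)).length + 1) ^ k,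
        mydiv (vlist G).length b')) := by
    intro G g1 g2 hG
    unfold fin3 at hG
    rcases h1 : decide (([] : List (Lit (List Bool))) ∈ G) with _ | _
    · rcases h2 : G.isEmpty with _ | _
      · rw [h1, h2] at hG
        simp only [cond_false, Sum.inl.injEq, Sum.inr.injEq] at hG
        exact ⟨G, g1, g2, hG.symm⟩
      · rw [h1, h2] at hG
        simp at hG
    · rw [h1] at hG
      simp at hG
  have hexp : ∀ (G : BF) (vs : List (List Bool)), sz G ≤ E1 → (vlist G).length ≤ Fm →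
      expand2 C k b' G vs = Sum.inl (Sum.inr y) → ∃ G : BF, sz G ≤ E1 ∧ (vlist G).length ≤ Fm ∧
      y = (encG (occ3 G), (C * ((encG (occ3 G)).length + 1) ^ k,
        mydiv (vlist G).length b')) := by
    intro G vs g1 g2 hG
    unfold expand2 at hG
    rcases vs with _ | ⟨v, vs⟩
    · exact hfin G g1 g2 hG
    · simp at hG
  unfold expandS at hy
  by_cases h0 : [] ∈ e.1
  · rw [decide_eq_true h0] at hy
    simp at hy
  · rw [decide_eq_false h0] at hy
    simp only [cond_false] at hy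
    rcases t with s | ⟨G, vs⟩
    · rcases hr : rule θ e s with _ | lr
      · obtain ⟨g1, g2, g3, g4⟩ := hleaf h0 s ht hr
        simp only [Sum.elim_inl] at hy
        rw [hr] at hy
        exact hexp _ _ g1 g3 hy
      · simp only [Sum.elim_inl] at hy
        rw [hr] at hy
        simp at hy
    · obtain ⟨g1, g2, g3, g4⟩ := ht
      exact hexp _ _ g1 g3 hy

end defs

end Pool.Agent.Lib.MP_87d05f_lc
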