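import Mathlib
import Pool.Agent.Lib.MP_87d05f_lc.SparseSearch

set_option autoImplicit false

/-!
# Bounded occurrence for the deterministic Gap-ETH
-/

namespace Pool.Agent.Lib.MP_87d05f_lc

open Pool.Agent.PolyTime Function Turing

/-- separators for the formulas of a class -/
def Sep (Q : List (List (Bool × ℕ)) → Prop) (ε : ℚ) (b : ℕ) : Prop :=
  ∃ C k : ℕ, ∃ (tm : FinTM2) (e₀ : tm.Γ tm.k₀ ≃ Bool) (acc rej : List (tm.Γ tm.k₁)), acc ≠ rej ∧
    ∀ F : List (List (Bool × ℕ)), F ≠ [] → (∀ c ∈ F, c.length ≤ 3) → Q F →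
      ((∃ a : ℕ → Bool, ∀ c ∈ F, ∃ l ∈ c, a l.2 = l.1) →
        Nonempty (TM2OutputsInTime tm ((encF F).map e₀.symm) (some acc)
          (C * ((encF F).length + 1) ^ k * 2 ^ (nvars F / b)))) ∧
      ((∀ a : ℕ → Bool, ε * (F.length : ℚ) ≤ ((F.countP (falsB a) : ℕ) : ℚ)) →
        Nonempty (TM2OutputsInTime tm ((encF F).map e₀.symm) (some rej)
          (C * ((encF F).length + 1) ^ k * 2 ^ (nvars F / b))))

/-- no empty clause and every variable occurs at most three times -/
def Occ (F : List (List (Bool × ℕ))) : Prop :=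
  [] ∉ F ∧ ∀ v, (F.flatten.map (fun l => l.2)).count v ≤ 3

theorem outputs_mono {tm : FinTM2} {l : List (tm.Γ tm.k₀)} {l' : Option (List (tm.Γ tm.k₁))}
    {m m' : ℕ} (h : m ≤ m') : Nonempty (TM2OutputsInTime tm l l' m) →
    Nonempty (TM2OutputsInTime tm l l' m') := by
  rintro ⟨⟨h1, h2⟩⟩
  exact ⟨⟨h1, h2.trans h⟩⟩

/-- the condition on the fraction, cleared of denominators -/
theorem frac_iff {p q m f : ℕ} (hq : 0 < q) : ((p : ℚ) / q) * (m : ℚ) ≤ (f : ℚ) ↔
    p * m ≤ q * f := by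
  have hq' : (0 : ℚ) < q := by exact_mod_cast hq
  rw [div_mul_eq_mul_div, div_le_iff₀ hq']
  rw [mul_comm (f : ℚ)]
  exact_mod_cast Iff.rfl

section fin

variable {C k b' : ℕ} {tm : FinTM2} {e₀ : tm.Γ tm.k₀ ≃ Bool} {acc rej : List (tm.Γ tm.k₁)}

theorem occ_numG {G : BF} (h0 : [] ∉ G) : Occ (numG (occ3 G)) := by
  have hc := occ3_canon G
  refine ⟨?_, fun v => ?_⟩
  · intro h
    have h1 : [] ∈ binF (numG (occ3 G)) := List.mem_map.2 ⟨[], h, rfl⟩
    rw [binF_numG hc] at h1
    unfold occ3 at h1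
    rcases List.mem_append.1 h1 with h1 | h1
    · obtain ⟨⟨d, i⟩, hd, he⟩ := List.mem_map.1 h1
      unfold renC at he
      simp only [List.map_eq_nil_iff, List.zipIdx_eq_nil_iff] at he
      rw [he] at hd
      exact h0 (List.mem_of_getElem? (List.mem_zipIdx_iff_getElem?.1 hd))
    · obtain ⟨v, _, h1⟩ := List.mem_flatMap.1 h1
      obtain ⟨p, hp, h1⟩ := List.mem_map.1 h1
      simp at h1
  · have h1 := numG_count hc v
    have h2 := occ3_count G (Nat.bits v)
    exact h1.trans h2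

theorem clause_numG {G : BF} (h3 : ∀ c ∈ G, c.length ≤ 3) :
    ∀ c ∈ numG (occ3 G), c.length ≤ 3 := by
  intro c hc
  obtain ⟨d, hd, rfl⟩ := List.mem_map.1 hc
  rw [List.length_map]
  exact occ3_clause_length h3 d hd

theorem numG_ne_nil {G : BF} (h : G ≠ []) : numG (occ3 G) ≠ [] := by
  intro h'
  have h1 := numG_length (occ3 G)
  have h2 := occ3_length_ge G
  rw [h'] at h1
  simp only [List.length_nil] at h1
  have : G.length = 0 := by omega
  exact h (List.length_eq_zero_iff.1 this)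

theorem qtime {G : BF} (hb' : 0 < b') :
    C * ((encF (numG (occ3 G))).length + 1) ^ k * 2 ^ (nvars (numG (occ3 G)) / b') ≤
      C * ((encG (occ3 G)).length + 1) ^ k * 2 ^ (mydiv (vlist G).length b') := by
  have hc := occ3_canon G
  rw [encF_numG hc, nvars_numG hc, mydiv_eq hb']
  refine Nat.mul_le_mul_left _ (Nat.pow_le_pow_right (by norm_num) ?_)
  exact Nat.div_le_div_right (by rw [nvars_eq]; exact occ3_nvars G)

theorem fin_yes (hb' : 0 < b')
    (hS : ∀ F : List (List (Bool × ℕ)), F ≠ [] → (∀ c ∈ F, c.length ≤ 3) → Occ F →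
      (∃ a : ℕ → Bool, ∀ c ∈ F, ∃ l ∈ c, a l.2 = l.1) →
        Nonempty (TM2OutputsInTime tm ((encF F).map e₀.symm) (some acc)
          (C * ((encF F).length + 1) ^ k * 2 ^ (nvars F / b'))))
    {a : List Bool → Bool} {G : BF} (hG : ∀ c ∈ G, ∃ l ∈ c, tr a l)
    (h3 : ∀ c ∈ G, c.length ≤ 3) : finA C k b' tm e₀ acc G = Sum.inl true := by
  have h0 : [] ∉ G := by
    intro h
    obtain ⟨l, hl, _⟩ := hG _ h
    simp at hl
  unfold finA fin3
  rw [decide_eq_false h0]
  rcases hGe : G.isEmpty with _ | _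
  · have hne : G ≠ [] := by
      rintro rfl
      simp at hGe
    simp only [cond_false, Sum.elim_inl, Sum.elim_inr]
    have hc := occ3_canon G
    obtain ⟨a', ha'⟩ := occ3_sat hG
    have h := hS (numG (occ3 G)) (numG_ne_nil hne) (clause_numG h3) (occ_numG h0)
      (numG_sat hc ha')
    have h' := outputs_mono (qtime (C := C) (k := k) (G := G) hb') h
    rw [encF_numG hc] at h'
    have h2 := (ansT_of_outputs tm e₀ acc acc (encG (occ3 G),
      (C * ((encG (occ3 G)).length + 1) ^ k, mydiv (vlist G).length b')) h').2 rfl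
    rw [h2]
  · rfl

theorem fin_no {p q K : ℕ} (hq : 0 < q) (hb' : 0 < b') (hne : acc ≠ rej)
    (hS : ∀ F : List (List (Bool × ℕ)), F ≠ [] → (∀ c ∈ F, c.length ≤ 3) → Occ F →
      (∀ a : ℕ → Bool, ((p : ℚ) / (8 * q * (K + 1) : ℕ)) * (F.length : ℚ) ≤
        ((F.countP (falsB a) : ℕ) : ℚ)) →
        Nonempty (TM2OutputsInTime tm ((encF F).map e₀.symm) (some rej)
          (C * ((encF F).length + 1) ^ k * 2 ^ (nvars F / b'))))
    {G : BF} (h3 : ∀ c ∈ G, c.length ≤ 3) (hK : ∀ v, @List.count _ instBEqOfDecidableEq v (vlist G) ≤ K)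
    (hG : ∀ a, p * G.length ≤ 2 * q * G.countP (falsB a) ∧ 0 < G.countP (falsB a)) :
    finA C k b' tm e₀ acc G = Sum.inl false := by
  unfold finA fin3
  by_cases h0 : [] ∈ G
  · rw [decide_eq_true h0]
    rfl
  · rw [decide_eq_false h0]
    rcases hGe : G.isEmpty with _ | _
    · have hGne : G ≠ [] := by
        rintro rfl
        simp at hGe
      simp only [cond_false, Sum.elim_inl, Sum.elim_inr]
      have hc := occ3_canon G
      have hq8 : 0 < 8 * q * (K + 1) := by positivity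
      have h := hS (numG (occ3 G)) (numG_ne_nil hGne) (clause_numG h3) (occ_numG h0) (by
        intro a
        rw [frac_iff hq8, numG_length, numG_fals]
        set a' : List Bool → Bool := fun w => a (unbits w) with ha'
        have g1 := occ3_fals hK a'
        have g2 := (hG (backA G a')).1
        have g3 := Nat.mul_le_mul_left p (occ3_length h3)
        have g4 := Nat.mul_le_mul_left (8 * q) g1
        calc p * (occ3 G).length ≤ p * (4 * G.length) := g3
          _ = 4 * (p * G.length) := by ring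
          _ ≤ 4 * (2 * q * G.countP (falsB (backA G a'))) := Nat.mul_le_mul_left _ g2
          _ = 8 * q * G.countP (falsB (backA G a')) := by ring
          _ ≤ 8 * q * ((K + 1) * (occ3 G).countP (falsB a')) := g4
          _ = _ := by ring)
      have h' := outputs_mono (qtime (C := C) (k := k) (G := G) hb') h
      rw [encF_numG hc] at h'
      have h2 := ansT_of_outputs tm e₀ acc rej (encG (occ3 G),
        (C * ((encG (occ3 G)).length + 1) ^ k, mydiv (vlist G).length b')) h'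
      rcases h4 : ansT tm e₀ acc (encG (occ3 G),
        (C * ((encG (occ3 G)).length + 1) ^ k, mydiv (vlist G).length b')) with _ | _
      · rfl
      · exact absurd (h2.1 h4).symm hne
    · exfalso
      have h1 : G = [] := List.isEmpty_iff.1 hGe
      have := (hG (fun _ => true)).2
      rw [h1] at this
      simp at this

end fin


theorem arith_total {PL TT X Pe κ R fR : ℕ} (hT : TT ≤ 4 * X) (hR : R ≤ fR * X) (hX : 1 ≤ X) :
    PL + TT * (4 * X) * (Pe + κ * (R + 2)) ≤ (PL + 16 * (Pe + κ * (fR + 2))) * (X * X * X) := by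
  have h1 : TT * (4 * X) ≤ 4 * X * (4 * X) := Nat.mul_le_mul_right _ hT
  have h2 : R + 2 ≤ (fR + 2) * X := by nlinarith
  have h3 : Pe + κ * (R + 2) ≤ (Pe + κ * (fR + 2)) * X := by
    have e1 := Nat.mul_le_mul_left κ h2
    have e2 : Pe * 1 ≤ Pe * X := Nat.mul_le_mul_left _ hX
    nlinarith
  have h4 := Nat.mul_le_mul h1 h3
  have h5 : 1 * 1 * 1 ≤ X * X * X := Nat.mul_le_mul (Nat.mul_le_mul hX hX) hX
  have h6 := Nat.mul_le_mul_left PL h5
  have h7 : 4 * X * (4 * X) * ((Pe + κ * (fR + 2)) * X) =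
      16 * (Pe + κ * (fR + 2)) * (X * X * X) := by ring
  rw [h7] at h4
  rw [Nat.add_mul]
  omega

theorem arith_exp (n b : ℕ) (hb : 0 < b) :
    2 ^ (n / (4 * b)) * 2 ^ (n / (4 * b)) * 2 ^ (n / (4 * b)) ≤ 2 ^ (n / b) := by
  rw [← pow_add, ← pow_add]
  refine Nat.pow_le_pow_right (by norm_num) ?_
  rw [Nat.le_div_iff_mul_le hb]
  have h := Nat.div_mul_le_self n (4 * b)
  generalize n / (4 * b) = h' at *
  nlinarith

theorem nvars_le_length (F : List (List (Bool × ℕ))) : nvars F ≤ (encF F).length := by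
  unfold nvars
  refine (List.toFinset_card_le _).trans ?_
  rw [List.length_map, List.length_flatten]
  unfold encF
  rw [List.length_flatMap]
  refine List.sum_le_sum fun c _ => ?_
  rw [List.length_append, List.length_flatMap]
  refine le_trans ?_ (Nat.le_add_right _ _)
  have : ∀ c : List (Bool × ℕ), c.length ≤ (c.map (fun l => ([true, l.1] ++
      (Nat.bits l.2).flatMap (fun x => [true, x]) ++ [false, false]).length)).sum := by
    intro c
    induction c with
    | nil => simp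
    | cons l c ih =>
      simp only [List.map_cons, List.sum_cons, List.length_cons, List.length_append] at ih ⊢
      omega
  exact this c

/-- the initial state -/
def initS2 (x : List Bool) : Env (List Bool) × Nd2 := (mkEnv (parse x), Sum.inl ([], []))

theorem sparse_main (p q b : ℕ) (hp : 0 < p) (hq : 0 < q) (hb : 0 < b) :
    ∃ K b' : ℕ, 0 < b' ∧ (Sep Occ ((p : ℚ) / (8 * q * (K + 1) : ℕ)) b' →
      Sep (fun _ => True) ((p : ℚ) / (q : ℚ)) b) := by
  obtain ⟨θ, T, hθ, hT1, hT2, hT3⟩ := exists_T (4 * b) (by positivity)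
  obtain ⟨K1, hK1⟩ : ∃ K1, K1 = 1 + θ + θ * θ := ⟨_, rfl⟩
  have hK1pos : 1 ≤ K1 := by omega
  obtain ⟨M3, hM3⟩ : ∃ M3, M3 = 24 * q * K1 := ⟨_, rfl⟩
  have hM3pos : 0 < M3 := by rw [hM3]; positivity
  obtain ⟨K2, hK2⟩ : ∃ K2, K2 = M3 * (4 * b) := ⟨_, rfl⟩
  have hK2pos : 0 < K2 := by rw [hK2]; positivity
  refine ⟨K2, K2, hK2pos, ?_⟩
  rintro ⟨C, k, tm, e₀, acc, rej, hne, hS⟩
  have hYes := fun F h1 h2 h3 => (hS F h1 h2 h3).1
  have hNo := fun F h1 h2 h3 => (hS F h1 h2 h3).2
  have hinit : PTime initS2 := (mkEnv_ptime parse_ptime).pair (PTime.const _)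
  obtain ⟨tm', e₀', acc', rej', P, κ, hne', h⟩ := oracle_search tm e₀ acc hinit
    (expandS_ptime θ p q K1 K2 C k K2)
  -- size polynomials
  obtain ⟨P1, hP1⟩ := (mkEnv_ptime parse_ptime).sz_le
  have hsp : PTime (fun y : Env (List Bool) × Nd (List Bool) => sparse p q K1 y.1 y.2) :=
    sparse_ptime p q K1 PTime.fst PTime.snd
  obtain ⟨P2, hP2⟩ := hsp.sz_le
  have hhi : PTime (fun y : Env (List Bool) × Nd (List Bool) =>
      high K2 (sparse p q K1 y.1 y.2)) := high_ptime K2 hsp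
  obtain ⟨P3, hP3⟩ := hhi.sz_le
  have hen : PTime (fun G : BF => encG (occ3 G)) := encG_ptime (occ3_ptime PTime.id)
  obtain ⟨P4, hP4⟩ := hen.sz_le
  -- the bounds as functions of the length
  obtain ⟨fE, hfE⟩ : ∃ f : ℕ → ℕ, f = fun L => P1.eval (4 * L + 1) := ⟨_, rfl⟩
  have pE : PolyB fE := by
    rw [hfE]
    exact PolyB.eval P1 (((PolyB.const 4).mul PolyB.id).add (PolyB.const 1))
  obtain ⟨fN, hfN⟩ : ∃ f : ℕ → ℕ, f = fun L => fE L * (fE L + 1) +
    (fE L * fE L * (2 * fE L + 2) + 3) := ⟨_, rfl⟩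
  have pN : PolyB fN := by
    rw [hfN]
    exact (pE.mul (pE.add (PolyB.const 1))).add (((pE.mul pE).mul
      (((PolyB.const 2).mul pE).add (PolyB.const 2))).add (PolyB.const 3))
  obtain ⟨fE1, hfE1⟩ : ∃ f : ℕ → ℕ, f = fun L => P2.eval (fE L + fN L + 1) +
    P3.eval (fE L + fN L + 1) := ⟨_, rfl⟩
  have pE1 : PolyB fE1 := by
    rw [hfE1]
    exact (PolyB.eval P2 ((pE.add pN).add (PolyB.const 1))).add
      (PolyB.eval P3 ((pE.add pN).add (PolyB.const 1)))
  obtain ⟨fB, hfB⟩ : ∃ f : ℕ → ℕ, f = fun L => fE L + fN L + 2 * fE1 L + 7 := ⟨_, rfl⟩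
  have pB : PolyB fB := by
    rw [hfB]
    exact ((pE.add pN).add ((PolyB.const 2).mul pE1)).add (PolyB.const 7)
  obtain ⟨fD, hfD⟩ : ∃ f : ℕ → ℕ, f = fun L => 16 * θ * L + L := ⟨_, rfl⟩
  have pD : PolyB fD := by
    rw [hfD]
    exact ((PolyB.const (16 * θ)).mul PolyB.id).add PolyB.id
  obtain ⟨fQ, hfQ⟩ : ∃ f : ℕ → ℕ, f = fun L => P4.eval (fE1 L) := ⟨_, rfl⟩
  have pQ : PolyB fQ := by
    rw [hfQ]
    exact PolyB.eval P4 pE1
  obtain ⟨fR, hfR⟩ : ∃ f : ℕ → ℕ, f = fun L => (fQ L + 1) +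
    (C * (fQ L + 1) ^ k + 1) * (L + 1) := ⟨_, rfl⟩
  have pR : PolyB fR := by
    rw [hfR]
    exact (pQ.add (PolyB.const 1)).add ((((PolyB.const C).mul
      ((pQ.add (PolyB.const 1)).pow k)).add (PolyB.const 1)).mul (PolyB.id.add (PolyB.const 1)))
  obtain ⟨C', k', hC'⟩ : PolyB (fun L => P.eval L + 16 * (P.eval (fB L + ((fD L + 1) *
      (fB L + 1) + 6)) + κ * (fR L + 2))) :=
    (PolyB.eval P PolyB.id).add ((PolyB.const 16).mul ((PolyB.eval P (pB.add (((pD.add
      (PolyB.const 1)).mul (pB.add (PolyB.const 1))).add (PolyB.const 6)))).add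
      ((PolyB.const κ).mul (pR.add (PolyB.const 2)))))
  refine ⟨C', k', tm', e₀', acc', rej', hne', ?_⟩
  intro F hF hF3 _
  obtain ⟨x, hx⟩ : ∃ x, x = encF F := ⟨_, rfl⟩
  obtain ⟨L, hL⟩ : ∃ L, L = x.length := ⟨_, rfl⟩
  obtain ⟨n, hn⟩ : ∃ n, n = nvars F := ⟨_, rfl⟩
  obtain ⟨e, he⟩ : ∃ e, e = mkEnv (binF F) := ⟨_, rfl⟩
  have hnL : n ≤ L := by
    rw [hn, hL, hx]
    exact nvars_le_length F
  have hcl : parse x = binF F := by rw [hx]; exact parse_encF F
  have hi1 : (initS2 x).1 = e := by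
    change mkEnv (parse x) = _
    rw [hcl, he]
  have hi2 : (initS2 x).2 = Sum.inl ([], []) := rfl
  have hWF : WF e := by rw [he]; exact mkEnv_WF (binF F)
  have he1 : e.1 = (binF F).map ded := by rw [he]; rfl
  have he3 : ∀ c ∈ e.1, c.length ≤ 3 := by
    intro c hc
    rw [he1] at hc
    obtain ⟨d, hd, rfl⟩ := List.mem_map.1 hc
    rw [ded_length]
    refine (List.toFinset_card_le _).trans ?_
    obtain ⟨c', hc', rfl⟩ := List.mem_map.1 hd
    rw [List.length_map]
    exact hF3 c' hc'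
  have hlits : e.2.1.length ≤ 2 * n := by
    rw [he, hn, ← nvars_binF]
    exact lits_length_le (binF F)
  have hszE : sz e ≤ fE L := by
    rw [he, ← hcl, hfE]
    refine (hP1 x).trans (eval_mono P1 ?_)
    rw [hL]
    exact sz_listBool_le x
  have hszN : ∀ s : Nd (List Bool), Inv θ e s → sz s ≤ fN L := by
    intro s hs
    rw [hfN]
    exact sz_node_le hs (fE L) hszE
  have hpot : Pot θ e ([], []) ≤ 16 * θ * n := by
    have := pot_init_le θ (binF F)
    rwa [nvars_binF, ← he, ← hn] at this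
  have hleaf : [] ∉ e.1 → ∀ s, Inv θ e s → rule θ e s = none →
      sz (sparse p q K1 e s) ≤ fE1 L ∧ sz (high K2 (sparse p q K1 e s)) ≤ fE1 L ∧
      (vlist (sparse p q K1 e s)).length ≤ M3 * n ∧
      (high K2 (sparse p q K1 e s)).length ≤ n / (4 * b) := by
    intro h0 s hs hr
    have g0 : sz (e, s) ≤ fE L + fN L + 1 := by
      have := hszN s hs
      rw [sz_pair]
      omega
    have g1 : sz (sparse p q K1 e s) ≤ P2.eval (fE L + fN L + 1) :=
      (hP2 (e, s)).trans (eval_mono P2 g0)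
    have g2 : sz (high K2 (sparse p q K1 e s)) ≤ P3.eval (fE L + fN L + 1) :=
      (hP3 (e, s)).trans (eval_mono P3 g0)
    have g3 := types_le hWF hs hr he3 h0
    rw [← hK1] at g3
    have g4 := sparse_size hp hq hK1pos g3
    have g5 : (vlist (sparse p q K1 e s)).length ≤ 3 * (sparse p q K1 e s).length := by
      refine vlist_length_le ?_
      intro c hc
      obtain ⟨c', hc', rfl⟩ := sparse_mem hc
      exact tcl_length (he3 c' hc')
    have g6 : (vlist (sparse p q K1 e s)).length ≤ M3 * n := by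
      have := Nat.mul_le_mul_left (4 * q * K1) hlits
      rw [hM3]
      nlinarith
    refine ⟨?_, ?_, g6, ?_⟩
    · rw [hfE1]
      exact g1.trans (Nat.le_add_right _ _)
    · rw [hfE1]
      exact g2.trans (Nat.le_add_left _ _)
    · have g7 := (high_length K2 (sparse p q K1 e s)).trans g6
      rw [hK2, Nat.mul_assoc] at g7
      have g8 := Nat.le_of_mul_le_mul_left g7 hM3pos
      rw [Nat.le_div_iff_mul_le (by positivity), ← hK2] at *
      rw [Nat.mul_comm]
      exact g8
  obtain ⟨h4, hh4⟩ : ∃ h4, h4 = n / (4 * b) := ⟨_, rfl⟩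
  rw [← hh4] at hleaf
  have hh4n : h4 ≤ n := by rw [hh4]; exact Nat.div_le_self _ _
  -- the invariant holds at the root and bounds the sizes
  have hszI : ∀ t : Nd2, Inv2 θ e (fE1 L) (M3 * n) h4 t → sz t ≤ fB L := by
    intro t ht
    rw [hfB]
    rcases t with s | ⟨G, vs⟩
    · have := hszN s ht
      rw [sz_inl]
      change sz s + 2 ≤ fE L + fN L + 2 * fE1 L + 7
      omega
    · obtain ⟨g1, g2, _, _⟩ := ht
      rw [sz_inr, sz_pair]
      change sz G + sz vs + 1 + 4 ≤ fE L + fN L + 2 * fE1 L + 7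
      change sz G ≤ _ at g1
      change sz vs ≤ _ at g2
      omega
  have hszB : sz e ≤ fB L := by
    rw [hfB]
    change sz e ≤ fE L + fN L + 2 * fE1 L + 7
    omega
  have hroot : Inv2 θ e (fE1 L) (M3 * n) h4 (Sum.inl ([], [])) := inv_init θ e
  -- the cost of the queries
  have hcost : ∀ (t : Nd2) (y : Qry), Inv2 θ e (fE1 L) (M3 * n) h4 t →
      expandS θ p q K1 K2 C k K2 e t = Sum.inl (Sum.inr y) → qcost y ≤ fR L * 2 ^ h4 := by
    intro t y ht hy
    obtain ⟨G, g1, g2, rfl⟩ := query_of θ p q K1 K2 C k K2 hleaf t ht y hy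
    have g3 : (encG (occ3 G)).length ≤ fQ L := by
      have e1 := length_le_sz (encG (occ3 G))
      have e2 := (hP4 G).trans (eval_mono P4 g1)
      rw [hfQ]
      change (encG (occ3 G)).length ≤ P4.eval (fE1 L)
      omega
    have g4 : mydiv (vlist G).length K2 ≤ h4 := by
      rw [mydiv_eq hK2pos, hh4, hK2]
      refine (Nat.div_le_div_right g2).trans ?_
      rw [Nat.mul_div_mul_left _ _ hM3pos]
    unfold qcost
    simp only
    rw [hfR]
    change (encG (occ3 G)).length + 1 + (C * ((encG (occ3 G)).length + 1) ^ k + 1) *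
      (2 ^ mydiv (vlist G).length K2 * (mydiv (vlist G).length K2 + 1)) ≤
      ((fQ L + 1) + (C * (fQ L + 1) ^ k + 1) * (L + 1)) * 2 ^ h4
    have g5 : C * ((encG (occ3 G)).length + 1) ^ k + 1 ≤ C * (fQ L + 1) ^ k + 1 :=
      Nat.add_le_add_right (Nat.mul_le_mul_left _ (Nat.pow_le_pow_left (by omega) _)) 1
    have g6 : 2 ^ mydiv (vlist G).length K2 ≤ 2 ^ h4 := Nat.pow_le_pow_right (by norm_num) g4
    have g7 : 2 ^ mydiv (vlist G).length K2 * (mydiv (vlist G).length K2 + 1) ≤
        2 ^ h4 * (L + 1) := Nat.mul_le_mul g6 (by omega)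
    have g8 := Nat.mul_le_mul g5 g7
    have g9 : (fQ L + 1) * 1 ≤ (fQ L + 1) * 2 ^ h4 :=
      Nat.mul_le_mul_left _ Nat.one_le_two_pow
    have g10 : ((fQ L + 1) + (C * (fQ L + 1) ^ k + 1) * (L + 1)) * 2 ^ h4 =
        (fQ L + 1) * 2 ^ h4 + (C * (fQ L + 1) ^ k + 1) * (2 ^ h4 * (L + 1)) := by ring
    rw [g10]
    omega
  -- the total time
  have hdep : Dep θ e h4 (Sum.inl ([], [])) ≤ fD L := by
    change Pot θ e ([], []) + h4 ≤ fD L
    rw [hfD]
    change Pot θ e ([], []) + h4 ≤ 16 * θ * L + L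
    have := Nat.mul_le_mul_left (16 * θ) hnL
    omega
  have htime : P.eval x.length + Wt θ T e h4 (Sum.inl ([], [])) * (P.eval (fB L +
      ((Dep θ e h4 (Sum.inl ([], [])) + 1) * (fB L + 1) + 6)) + κ * (fR L * 2 ^ h4 + 2)) ≤
      C' * (x.length + 1) ^ k' * 2 ^ (n / b) := by
    rw [← hL]
    have t1 : T (Pot θ e ([], [])) ≤ 4 * 2 ^ h4 := by
      rw [hh4]
      exact hT3 n _ hpot
    have t2 : Wt θ T e h4 (Sum.inl ([], [])) = T (Pot θ e ([], [])) * (4 * 2 ^ h4) := by
      change T (Pot θ e ([], [])) * 2 ^ (h4 + 2) = _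
      rw [pow_add]
      ring
    have t3 : P.eval (fB L + ((Dep θ e h4 (Sum.inl ([], [])) + 1) * (fB L + 1) + 6)) ≤
        P.eval (fB L + ((fD L + 1) * (fB L + 1) + 6)) := by
      refine eval_mono P ?_
      have := Nat.mul_le_mul_right (fB L + 1) (Nat.add_le_add_right hdep 1)
      omega
    rw [t2]
    have t4 := arith_total (PL := P.eval L) (Pe := P.eval (fB L + ((fD L + 1) * (fB L + 1) + 6)))
      (κ := κ) (R := fR L * 2 ^ h4) (fR := fR L) t1 le_rfl Nat.one_le_two_pow
    have t5 : 2 ^ h4 * 2 ^ h4 * 2 ^ h4 ≤ 2 ^ (n / b) := by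
      rw [hh4]
      exact arith_exp n b hb
    have t6 := Nat.mul_le_mul (hC' L) t5
    refine le_trans ?_ t6
    refine le_trans ?_ t4
    exact Nat.add_le_add_left (Nat.mul_le_mul_left _ (Nat.add_le_add_right t3 _)) _
  have hmain := h x (Inv2 θ e (fE1 L) (M3 * n) h4) (Dep θ e h4) (Wt θ T e h4) (fB L)
    (fR L * 2 ^ h4) (by
      rw [hi1]
      exact EX_spec θ p q K1 K2 C k K2 tm e₀ acc hθ hWF hT1 hT2 hleaf)
    (Wt_pos θ hT1 e h4) (by rw [hi2]; exact hroot) hszI (by rw [hi1]; exact hszB)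
    (by
      intro t y ht hy
      rw [hi1] at hy
      exact hcost t y ht hy)
    (C' * (x.length + 1) ^ k' * 2 ^ (n / b)) (by rw [hi2]; exact htime)
  rw [hi1, hi2] at hmain
  rw [← hx, ← hn]
  refine ⟨?_, ?_⟩
  · rintro ⟨a, ha⟩
    refine hmain.1 ?_
    have hsat : FSat (fun w => a (unbits w)) e := by
      rw [he]
      exact binF_sat F a ha
    have h0 : [] ∉ e.1 := by
      intro h0
      obtain ⟨l, hl, _⟩ := hsat _ h0
      simp at hl
    exact accS_of_sat θ p q K1 K2 C k K2 tm e₀ acc hθ hWF h0 hsat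
      (fun G g1 g2 => fin_yes hK2pos hYes g1 g2) he3 _ _ le_rfl (inv_init θ _)
      ⟨fun u hu => by simp at hu, fun p hp => by simp at hp⟩
  · intro hgap
    refine hmain.2 fun hacc => ?_
    have h0 : [] ∉ e.1 := by
      intro h0
      have h1 := EX_nil θ p q K1 K2 C k K2 tm e₀ acc h0 (Sum.inl ([], []))
      have h2 : EX θ p q K1 K2 C k K2 tm e₀ acc e = expandA tm e₀ acc
        (expandS θ p q K1 K2 C k K2) e := rfl
      rw [← h2] at hacc
      cases hacc with
      | leaf g => rw [h1] at g; simp at g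
      | left g _ => rw [h1] at g; simp at g
      | right g _ => rw [h1] at g; simp at g
    obtain ⟨s', hs', hr, ps, hps, hfin⟩ := exists_fin θ p q K1 K2 C k K2 tm e₀ acc hθ hWF h0
      hacc ([], []) rfl (inv_init θ _)
    have hlen : e.1.length = F.length := by
      rw [he1, List.length_map]
      exact List.length_map ..
    have hty := types_le hWF hs' hr he3 h0
    rw [← hK1] at hty
    have hnoA : ∀ a : List Bool → Bool, p * e.1.length ≤ q * e.1.countP (falsB a) := by
      intro a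
      have g1 := hgap (fun n => a (Nat.bits n))
      rw [frac_iff hq] at g1
      rw [hlen, he1, countP_falsB_ded]
      refine g1.trans (Nat.mul_le_mul_left _ (le_of_eq ?_))
      unfold binF
      rw [List.countP_map]
      congr 1
      funext c
      simp only [Function.comp, falsB, List.any_map]
      rfl
    have hFlen : 0 < F.length := List.length_pos_iff.2 hF
    have hgap2 : ∀ a : List Bool → Bool, p * (sparse p q K1 e s').length ≤
        2 * q * (sparse p q K1 e s').countP (falsB a) ∧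
        0 < (sparse p q K1 e s').countP (falsB a) := by
      intro a
      obtain ⟨g1, g2⟩ := sparse_gap hty (hnoA a)
      exact ⟨g1, g2 (by rw [hlen]; positivity)⟩
    have hgap3 := assignAll_no (B := fun r => p * (sparse p q K1 e s').length ≤ 2 * q * r ∧
      0 < r) ps _ hgap2
    have hno := fin_no (C := C) (k := k) (e₀ := e₀) (K := K2) hq hK2pos hne hNo
      (G := assignAll (sparse p q K1 e s') ps)
      (assignAll_clause_length _ _ (by
        intro c hc
        obtain ⟨c', hc', rfl⟩ := sparse_mem hc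
        exact tcl_length (he3 c' hc')))
      (fun v => count_assignAll_high K2 _ ps hps v)
      (fun a => ⟨(Nat.mul_le_mul_left p (assignAll_length ps _)).trans (hgap3 a).1,
        (hgap3 a).2⟩)
    rw [hno] at hfin
    simp at hfin

end Pool.Agent.Lib.MP_87d05f_lc
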