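import Mathlib

set_option autoImplicit false

/-!
# The potential of the branching process for clauses of any width
-/

namespace Pool.Agent.Lib.MP_87d05f_lc

section kpot

variable {α : Type} [DecidableEq α]

/-- the number of sets of size `c` of the family that contain `H` -/
def dgk (F : Finset (Finset α)) (H : Finset α) (c : ℕ) : ℕ :=
  (F.filter (fun C => C.card = c ∧ H ⊆ C)).card

theorem dgk_mono {F F' : Finset (Finset α)} (h : F ⊆ F') (H : Finset α) (c : ℕ) :
    dgk F H c ≤ dgk F' H c :=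
  Finset.card_le_card (Finset.filter_subset_filter _ h)

theorem dgk_union (F F' : Finset (Finset α)) (H : Finset α) (c : ℕ) :
    dgk (F ∪ F') H c ≤ dgk F H c + dgk F' H c := by
  unfold dgk
  rw [Finset.filter_union]
  exact Finset.card_union_le _ _

/-- the invariant -/
structure KInv (k M : ℕ) (L : Finset α) (s : Finset (Finset α)) : Prop where
  sub : ∀ S ∈ s, S ⊆ L
  ne : ∀ S ∈ s, S.Nonempty
  sz : ∀ S ∈ s, S.card + 1 ≤ k
  anti : ∀ S ∈ s, ∀ S' ∈ s, S ⊆ S' → S = S'
  deg : ∀ H : Finset α, H.Nonempty → ∀ j, 1 ≤ j → dgk s H (H.card + j) ≤ 2 * M ^ j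

/-- the weight of a set -/
def wtk (k M : ℕ) (S : Finset α) : ℕ := (3 * M) ^ (k - 1 - S.card)

/-- the total weight -/
def KPsi (k M : ℕ) (s : Finset (Finset α)) : ℕ := ∑ S ∈ s, wtk k M S

/-- the sum in the recursion -/
def gsum (M r : ℕ) : ℕ := ∑ j ∈ Finset.range r, 2 * M ^ (j + 1) * (3 * M) ^ (r - (j + 1))

theorem gsum_eq (M r : ℕ) : M ^ r + gsum M r = (3 * M) ^ r := by
  induction r with
  | zero => simp [gsum]
  | succ r ih =>
    have h : gsum M (r + 1) = 3 * M * gsum M r + 2 * M ^ (r + 1) := by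
      unfold gsum
      rw [Finset.sum_range_succ, Finset.mul_sum]
      congr 1
      · refine Finset.sum_congr rfl fun j hj => ?_
        rw [Finset.mem_range] at hj
        have : r + 1 - (j + 1) = (r - (j + 1)) + 1 := by omega
        rw [this, pow_succ (3 * M)]
        ring
      · simp
    rw [h, pow_succ (3 * M), ← ih]
    ring

/-- sum over the supersets of a set, by size -/
theorem sum_super_le {k M : ℕ} {s : Finset (Finset α)} {p : Finset α}
    (hsz : ∀ S ∈ s, S.card + 1 ≤ k) (hp : p ∉ s)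
    (hdeg : ∀ j, 1 ≤ j → dgk s p (p.card + j) ≤ 2 * M ^ j) :
    ∑ S ∈ s.filter (fun S => p ⊆ S), wtk k M S ≤ gsum M (k - 1 - p.card) := by
  set r := k - 1 - p.card with hr
  have hmaps : ∀ S ∈ s.filter (fun S => p ⊆ S), S.card - p.card - 1 ∈ Finset.range r := by
    intro S hS
    rw [Finset.mem_filter] at hS
    have h1 := Finset.card_le_card hS.2
    have h2 : p.card ≠ S.card := by
      intro h
      exact hp (by rw [Finset.eq_of_subset_of_card_le hS.2 h.ge]; exact hS.1)
    have h3 := hsz S hS.1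
    rw [Finset.mem_range]
    omega
  rw [← Finset.sum_fiberwise_of_maps_to hmaps]
  unfold gsum
  refine Finset.sum_le_sum fun j hj => ?_
  rw [Finset.mem_range] at hj
  have h1 : ∀ S ∈ (s.filter (fun S => p ⊆ S)).filter (fun S => S.card - p.card - 1 = j),
      wtk k M S = (3 * M) ^ (r - (j + 1)) := by
    intro S hS
    rw [Finset.mem_filter, Finset.mem_filter] at hS
    obtain ⟨⟨hS1, hS2⟩, hS3⟩ := hS
    have h1 := Finset.card_le_card hS2
    have h2 : p.card ≠ S.card := by
      intro h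
      exact hp (by rw [Finset.eq_of_subset_of_card_le hS2 h.ge]; exact hS1)
    unfold wtk
    congr 1
    omega
  rw [Finset.sum_congr rfl h1, Finset.sum_const, smul_eq_mul]
  refine Nat.mul_le_mul_right _ (le_trans (Finset.card_le_card ?_) (hdeg (j + 1) (by omega)))
  intro S hS
  rw [Finset.mem_filter, Finset.mem_filter] at hS
  obtain ⟨⟨hS1, hS2⟩, hS3⟩ := hS
  have h1 := Finset.card_le_card hS2
  have h2 : p.card ≠ S.card := by
    intro h
    exact hp (by rw [Finset.eq_of_subset_of_card_le hS2 h.ge]; exact hS1)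
  rw [Finset.mem_filter]
  exact ⟨hS1, by omega, hS2⟩

/-- the total weight is bounded -/
theorem KPsi_le {k M : ℕ} {L : Finset α} {s : Finset (Finset α)} (hk : 2 ≤ k)
    (h : KInv k M L s) : KPsi k M s ≤ 3 ^ (k - 1) * M ^ (k - 2) * L.card := by
  have h1 : KPsi k M s ≤ ∑ l ∈ L, ∑ S ∈ s.filter (fun S => l ∈ S), wtk k M S := by
    have h2 : ∑ l ∈ L, ∑ S ∈ s.filter (fun S => l ∈ S), wtk k M S =
        ∑ S ∈ s, ∑ _l ∈ L.filter (fun l => l ∈ S), wtk k M S := by
      rw [Finset.sum_comm' (t' := s) (s' := fun S => L.filter (fun l => l ∈ S))]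
      intro l S
      simp only [Finset.mem_filter]
      tauto
    rw [h2]
    unfold KPsi
    refine Finset.sum_le_sum fun S hS => ?_
    rw [Finset.sum_const, smul_eq_mul]
    obtain ⟨l, hl⟩ := h.ne S hS
    have : 0 < (L.filter (fun l => l ∈ S)).card :=
      Finset.card_pos.2 ⟨l, Finset.mem_filter.2 ⟨h.sub S hS hl, hl⟩⟩
    exact Nat.le_mul_of_pos_left _ this
  refine h1.trans ?_
  rw [mul_comm, ← smul_eq_mul]
  refine Finset.sum_le_card_nsmul _ _ _ fun l hl => ?_
  have h3 : s.filter (fun S => l ∈ S) = s.filter (fun S => {l} ⊆ S) := by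
    refine Finset.filter_congr fun S _ => ?_
    rw [Finset.singleton_subset_iff]
  have hkk : k - 1 - 1 = k - 2 := by omega
  have h5 := gsum_eq M (k - 2)
  have h6 : 3 ^ (k - 1) * M ^ (k - 2) = 3 * (3 * M) ^ (k - 2) := by
    have : k - 1 = (k - 2) + 1 := by omega
    rw [this, pow_succ, mul_pow]
    ring
  rw [h3, h6]
  by_cases hls : {l} ∈ s
  · -- then the only set containing l is {l}
    have : s.filter (fun S => {l} ⊆ S) ⊆ {{l}} := by
      intro S hS
      rw [Finset.mem_filter] at hS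
      rw [Finset.mem_singleton]
      exact (h.anti _ hls _ hS.1 hS.2).symm
    refine (Finset.sum_le_sum_of_subset this).trans ?_
    rw [Finset.sum_singleton]
    unfold wtk
    rw [Finset.card_singleton, hkk]
    omega
  · have h4 := sum_super_le (k := k) (M := M) h.sz hls
      (fun j hj => h.deg {l} (Finset.singleton_nonempty l) j hj)
    rw [Finset.card_singleton, hkk] at h4
    omega

/-- the new family -/
def addF (s P : Finset (Finset α)) : Finset (Finset α) :=
  P ∪ s.filter (fun S => ∀ p ∈ P, ¬ p ⊆ S)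

theorem addF_inv {k M i : ℕ} {L : Finset α} {s P : Finset (Finset α)} (h : KInv k M L s)
    (hi : 1 ≤ i) (hik : i + 1 ≤ k) (hPL : ∀ p ∈ P, p ⊆ L) (hPi : ∀ p ∈ P, p.card = i)
    (hnc : ∀ p ∈ P, ∀ S ∈ s, ¬ S ⊆ p)
    (hd : ∀ H : Finset α, H.Nonempty → ∀ j, 1 ≤ j → H.card + j = i →
      dgk s H i + dgk P H i ≤ 2 * M ^ j) : KInv k M L (addF s P) := by
  unfold addF
  refine ⟨?_, ?_, ?_, ?_, ?_⟩
  · intro S hS
    rcases Finset.mem_union.1 hS with hS | hS
    · exact hPL S hS
    · exact h.sub S (Finset.mem_filter.1 hS).1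
  · intro S hS
    rcases Finset.mem_union.1 hS with hS | hS
    · rw [← Finset.card_pos, hPi S hS]
      exact hi
    · exact h.ne S (Finset.mem_filter.1 hS).1
  · intro S hS
    rcases Finset.mem_union.1 hS with hS | hS
    · rw [hPi S hS]; exact hik
    · exact h.sz S (Finset.mem_filter.1 hS).1
  · intro S hS S' hS' hSS
    rcases Finset.mem_union.1 hS with hS | hS <;> rcases Finset.mem_union.1 hS' with hS' | hS'
    · exact Finset.eq_of_subset_of_card_le hSS (by rw [hPi S hS, hPi S' hS'])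
    · exact absurd hSS ((Finset.mem_filter.1 hS').2 S hS)
    · exact absurd hSS (hnc S' hS' S (Finset.mem_filter.1 hS).1)
    · exact h.anti S (Finset.mem_filter.1 hS).1 S' (Finset.mem_filter.1 hS').1 hSS
  · intro H hH j hj
    have h1 := dgk_union P (s.filter (fun S => ∀ p ∈ P, ¬ p ⊆ S)) H (H.card + j)
    have h2 := dgk_mono (Finset.filter_subset (fun S => ∀ p ∈ P, ¬ p ⊆ S) s) H (H.card + j)
    by_cases hij : H.card + j = i
    · have h3 := hd H hH j hj hij
      rw [hij] at h1 h2 ⊢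
      omega
    · have h3 : dgk P H (H.card + j) = 0 := by
        unfold dgk
        rw [Finset.card_eq_zero, Finset.filter_eq_empty_iff]
        rintro p hp ⟨hc, _⟩
        exact hij (by rw [← hc, hPi p hp])
      have h4 := h.deg H hH j hj
      omega

theorem addF_psi {k M i : ℕ} {L : Finset α} {s P : Finset (Finset α)} (h : KInv k M L s)
    (hi : 1 ≤ i) (hPi : ∀ p ∈ P, p.card = i) (hnc : ∀ p ∈ P, ∀ S ∈ s, ¬ S ⊆ p) :
    KPsi k M s + P.card * M ^ (k - 1 - i) ≤ KPsi k M (addF s P) := by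
  have hdisj : Disjoint P (s.filter (fun S => ∀ p ∈ P, ¬ p ⊆ S)) := by
    rw [Finset.disjoint_left]
    intro p hp hp'
    exact (Finset.mem_filter.1 hp').2 p hp (Finset.Subset.refl p)
  have h1 : KPsi k M (addF s P) = ∑ p ∈ P, wtk k M p +
      ∑ S ∈ s.filter (fun S => ∀ p ∈ P, ¬ p ⊆ S), wtk k M S := by
    unfold KPsi addF
    rw [Finset.sum_union hdisj]
  have h2 : KPsi k M s = ∑ S ∈ s.filter (fun S => ∀ p ∈ P, ¬ p ⊆ S), wtk k M S +
      ∑ S ∈ s.filter (fun S => ¬ ∀ p ∈ P, ¬ p ⊆ S), wtk k M S := by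
    unfold KPsi
    rw [Finset.sum_filter_add_sum_filter_not]
  have h3 : ∑ S ∈ s.filter (fun S => ¬ ∀ p ∈ P, ¬ p ⊆ S), wtk k M S ≤
      ∑ p ∈ P, ∑ S ∈ s.filter (fun S => p ⊆ S), wtk k M S := by
    have e1 : ∑ p ∈ P, ∑ S ∈ s.filter (fun S => p ⊆ S), wtk k M S =
        ∑ S ∈ s, ∑ _p ∈ P.filter (fun p => p ⊆ S), wtk k M S := by
      rw [Finset.sum_comm' (t' := s) (s' := fun S => P.filter (fun p => p ⊆ S))]
      intro p S
      simp only [Finset.mem_filter]
      tauto
    rw [e1, Finset.sum_filter]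
    refine Finset.sum_le_sum fun S hS => ?_
    by_cases hc : ∀ p ∈ P, ¬ p ⊆ S
    · rw [if_neg (not_not.2 hc)]
      exact Nat.zero_le _
    · rw [if_pos hc]
      push Not at hc
      obtain ⟨p, hp, hpS⟩ := hc
      rw [Finset.sum_const, smul_eq_mul]
      exact Nat.le_mul_of_pos_left _ (Finset.card_pos.2 ⟨p, Finset.mem_filter.2 ⟨hp, hpS⟩⟩)
  have h4 : ∑ p ∈ P, ∑ S ∈ s.filter (fun S => p ⊆ S), wtk k M S + P.card * M ^ (k - 1 - i) ≤
      ∑ p ∈ P, wtk k M p := by
    rw [← smul_eq_mul, ← Finset.sum_const, ← Finset.sum_add_distrib]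
    refine Finset.sum_le_sum fun p hp => ?_
    have hps : p ∉ s := fun hps => hnc p hp p hps (Finset.Subset.refl p)
    have hpn : p.Nonempty := by
      rw [← Finset.card_pos, hPi p hp]
      exact hi
    have g1 := sum_super_le (k := k) (M := M) h.sz hps (fun j hj => h.deg p hpn j hj)
    have g2 := gsum_eq M (k - 1 - p.card)
    unfold wtk at g1 ⊢
    rw [hPi p hp] at g1 g2 ⊢
    omega
  omega

end kpot

end Pool.Agent.Lib.MP_87d05f_lc
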