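import Mathlib
import Pool.Agent.Lib.MP_87d05f_lc.KPot
import Pool.Agent.Lib.MP_87d05f_lc.Enc3

set_option autoImplicit false

/-!
# The branching process for clauses of any width
-/

namespace Pool.Agent.Lib.MP_87d05f_lc

open Pool.Agent.PolyTime Function

section kb

variable {V : Type} [DecidableEq V]

/-- the clauses and the list of all literals -/
abbrev KEnv (V : Type) := List (List (Lit V)) × List (Lit V)

/-- the clauses derived so far -/
abbrev KNd (V : Type) := List (List (Lit V))

/-- the canonical list of the literals of a clause -/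
def can (L c : List (Lit V)) : List (Lit V) := L.filter (fun l => decide (l ∈ c))

/-- inclusion -/
def subl (H C : List (Lit V)) : Bool := H.all (fun l => decide (l ∈ C))

/-- the clause contains a derived clause -/
def kcov (s : KNd V) (c : List (Lit V)) : Bool := s.any (fun S => subl S c)

/-- the clauses of the current formula -/
def kfam (e : KEnv V) (s : KNd V) : List (List (Lit V)) :=
  s ++ (ded e.1).filter (fun c => !kcov s c)

/-- the clauses of length `c` of the current formula that contain `H` -/
def flo (e : KEnv V) (s : KNd V) (H : List (Lit V)) (c : ℕ) : List (List (Lit V)) :=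
  (kfam e s).filter (fun C => decide (C.length = c) && subl H C)

/-- all tuples -/
def tup : ℕ → List (Lit V) → List (List (Lit V))
  | 0, _ => [[]]
  | h + 1, L => (tup h L).flatMap (fun t => L.map (fun l => l :: t))

/-- all sets of `h` literals -/
def cands (h : ℕ) (L : List (Lit V)) : List (List (Lit V)) :=
  ((tup h L).map (fun t => can L t)).filter (fun H => decide (H.length = h))

/-- find a heart of a flower -/
def kfind (M : ℕ) (e : KEnv V) (s : KNd V) (c i : ℕ) : Option (List (Lit V)) :=
  (cands (c - i) e.2).find? (fun H => decide (M ^ i ≤ (flo e s H c).length))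

/-- the petals -/
def petals (e : KEnv V) (s : KNd V) (H : List (Lit V)) (c : ℕ) : List (List (Lit V)) :=
  (flo e s H c).map (fun C => C.filter (fun l => !decide (l ∈ H)))

/-- add clauses and remove the clauses containing them -/
def petN (s P : KNd V) : KNd V := P ++ s.filter (fun S => !P.any (fun p => subl p S))

/-- search for flowers with petals of size at most `i` in the clauses of size `c` -/
def kri (M : ℕ) (e : KEnv V) (s : KNd V) (c : ℕ) : ℕ → Option (KNd V × KNd V)
  | 0 => none
  | i + 1 => (Option.casesOn (kri M e s c i)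
      (Option.casesOn (kfind M e s c (i + 1)) none
        (fun H => some (petN s [H], petN s (petals e s H c)))) (fun r => some r))

/-- search for flowers in the clauses of size at most `c` -/
def krc (M : ℕ) (e : KEnv V) (s : KNd V) : ℕ → Option (KNd V × KNd V)
  | 0 => none
  | c + 1 => (Option.casesOn (krc M e s c) (kri M e s (c + 1) c) (fun r => some r))

theorem kri_spec (M : ℕ) (e : KEnv V) (s : KNd V) (c n : ℕ) :
    (kri M e s c n = none ∧ ∀ i, 1 ≤ i → i ≤ n → kfind M e s c i = none) ∨
    ∃ i H, 1 ≤ i ∧ i ≤ n ∧ kfind M e s c i = some H ∧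
      (∀ i', 1 ≤ i' → i' < i → kfind M e s c i' = none) ∧
      kri M e s c n = some (petN s [H], petN s (petals e s H c)) := by
  induction n with
  | zero =>
    left
    refine ⟨rfl, fun i h1 h2 => by omega⟩
  | succ n ih =>
    rcases ih with ⟨h1, h2⟩ | ⟨i, H, h1, h2, h3, h4, h5⟩
    · rcases hf : kfind M e s c (n + 1) with _ | H
      · left
        refine ⟨?_, ?_⟩
        · unfold kri
          rw [h1, hf]
        · intro i hi hi'
          rcases Nat.lt_or_ge i (n + 1) with h | h
          · exact h2 i hi (by omega)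
          · obtain rfl : i = n + 1 := by omega
            exact hf
      · right
        refine ⟨n + 1, H, by omega, le_rfl, hf, fun i' h h' => h2 i' h (by omega), ?_⟩
        unfold kri
        rw [h1, hf]
    · right
      refine ⟨i, H, h1, by omega, h3, h4, ?_⟩
      unfold kri
      rw [h5]

theorem krc_spec (M : ℕ) (e : KEnv V) (s : KNd V) (n : ℕ) :
    (krc M e s n = none ∧ ∀ c i, c ≤ n → 1 ≤ i → i < c → kfind M e s c i = none) ∨
    ∃ c i H, c ≤ n ∧ 1 ≤ i ∧ i < c ∧ kfind M e s c i = some H ∧
      (∀ i', 1 ≤ i' → i' < i → kfind M e s c i' = none) ∧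
      (∀ c' i', c' < c → 1 ≤ i' → i' < c' → kfind M e s c' i' = none) ∧
      krc M e s n = some (petN s [H], petN s (petals e s H c)) := by
  induction n with
  | zero =>
    left
    exact ⟨rfl, fun c i h1 h2 h3 => by omega⟩
  | succ n ih =>
    rcases ih with ⟨h1, h2⟩ | ⟨c, i, H, h0, h1, h2, h3, h4, h5, h6⟩
    · rcases kri_spec M e s (n + 1) n with ⟨g1, g2⟩ | ⟨i, H, g1, g2, g3, g4, g5⟩
      · left
        refine ⟨?_, ?_⟩
        · unfold krc
          rw [h1]
          exact g1
        · intro c i hc hi hi'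
          rcases Nat.lt_or_ge c (n + 1) with h | h
          · exact h2 c i (by omega) hi hi'
          · obtain rfl : c = n + 1 := by omega
            exact g2 i hi (by omega)
      · right
        refine ⟨n + 1, i, H, le_rfl, g1, by omega, g3, g4,
          fun c' i' h h' h'' => h2 c' i' (by omega) h' h'', ?_⟩
        unfold krc
        rw [h1]
        exact g5
    · right
      refine ⟨c, i, H, by omega, h1, h2, h3, h4, h5, ?_⟩
      unfold krc
      rw [h6]

/-! ### Canonical lists -/

theorem sublist_eq_filter {L c : List (Lit V)} (hL : L.Nodup) (h : c.Sublist L) :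
    L.filter (fun l => decide (l ∈ c)) = c := by
  induction h with
  | slnil => rfl
  | @cons c L a h ih =>
    rw [List.nodup_cons] at hL
    have ha : a ∉ c := fun ha => hL.1 (h.subset ha)
    rw [List.filter_cons_of_neg (by simpa using ha)]
    exact ih hL.2
  | @cons_cons c L a h ih =>
    rw [List.nodup_cons] at hL
    rw [List.filter_cons_of_pos (by simp)]
    congr 1
    rw [← ih hL.2]
    refine List.filter_congr fun x hx => ?_
    rw [Bool.eq_iff_iff, decide_eq_true_eq, decide_eq_true_eq, ih hL.2, List.mem_cons]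
    constructor
    · rintro (rfl | h)
      · exact absurd hx hL.1
      · exact h
    · exact Or.inr

theorem can_sublist (L c : List (Lit V)) : (can L c).Sublist L := List.filter_sublist

theorem can_self {L c : List (Lit V)} (hL : L.Nodup) (h : c.Sublist L) : can L c = c :=
  sublist_eq_filter hL h

theorem mem_can {L c : List (Lit V)} {l : Lit V} : l ∈ can L c ↔ l ∈ L ∧ l ∈ c := by
  unfold can
  rw [List.mem_filter, decide_eq_true_eq]

theorem canon_inj {L c c' : List (Lit V)} (hL : L.Nodup) (h : c.Sublist L) (h' : c'.Sublist L)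
    (he : c.toFinset = c'.toFinset) : c = c' := by
  rw [← sublist_eq_filter hL h, ← sublist_eq_filter hL h']
  refine List.filter_congr fun x _ => ?_
  rw [Bool.eq_iff_iff, decide_eq_true_eq, decide_eq_true_eq, ← List.mem_toFinset, he,
    List.mem_toFinset]

theorem card_canon {L c : List (Lit V)} (hL : L.Nodup) (h : c.Sublist L) :
    c.toFinset.card = c.length := List.toFinset_card_of_nodup (h.nodup hL)

theorem subl_iff {H C : List (Lit V)} : subl H C = true ↔ H.toFinset ⊆ C.toFinset := by
  unfold subl
  rw [List.all_eq_true]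
  constructor
  · intro h l hl
    rw [List.mem_toFinset] at hl ⊢
    simpa using h l hl
  · intro h l hl
    have := h (List.mem_toFinset.2 hl)
    rw [List.mem_toFinset] at this
    simpa using this

theorem subl_mem {H C : List (Lit V)} : subl H C = true ↔ ∀ l ∈ H, l ∈ C := by
  unfold subl
  rw [List.all_eq_true]
  simp only [decide_eq_true_eq]

/-- the family of sets -/
def toF (X : List (List (Lit V))) : Finset (Finset (Lit V)) := (X.map List.toFinset).toFinset

theorem mem_toF {X : List (List (Lit V))} {S : Finset (Lit V)} :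
    S ∈ toF X ↔ ∃ c ∈ X, c.toFinset = S := by
  unfold toF
  rw [List.mem_toFinset, List.mem_map]

theorem toF_mem {X : List (List (Lit V))} {c : List (Lit V)} (h : c ∈ X) : c.toFinset ∈ toF X :=
  mem_toF.2 ⟨c, h, rfl⟩

theorem toF_nodup {L : List (Lit V)} {X : List (List (Lit V))} (hL : L.Nodup) (hX : X.Nodup)
    (hc : ∀ c ∈ X, c.Sublist L) : (X.map List.toFinset).Nodup :=
  List.Nodup.map_on (fun c h c' h' he => canon_inj hL (hc c h) (hc c' h') he) hX

theorem toF_card {L : List (Lit V)} {X : List (List (Lit V))} (hL : L.Nodup) (hX : X.Nodup)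
    (hc : ∀ c ∈ X, c.Sublist L) : (toF X).card = X.length := by
  unfold toF
  rw [List.toFinset_card_of_nodup (toF_nodup hL hX hc), List.length_map]

theorem flo_length {L : List (Lit V)} {X : List (List (Lit V))} (hL : L.Nodup) (hX : X.Nodup)
    (hc : ∀ c ∈ X, c.Sublist L) (H : List (Lit V)) (n : ℕ) :
    (X.filter (fun C => decide (C.length = n) && subl H C)).length =
      dgk (toF X) H.toFinset n := by
  rw [← toF_card hL (hX.filter _) (fun c h => hc c (List.mem_filter.1 h).1)]
  unfold dgk
  congr 1
  ext S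
  rw [mem_toF, Finset.mem_filter, mem_toF]
  constructor
  · rintro ⟨c, h, rfl⟩
    rw [List.mem_filter, Bool.and_eq_true, decide_eq_true_eq, subl_iff] at h
    exact ⟨⟨c, h.1, rfl⟩, by rw [card_canon hL (hc c h.1)]; exact h.2.1, h.2.2⟩
  · rintro ⟨⟨c, h, rfl⟩, h1, h2⟩
    rw [card_canon hL (hc c h)] at h1
    refine ⟨c, ?_, rfl⟩
    rw [List.mem_filter, Bool.and_eq_true, decide_eq_true_eq, subl_iff]
    exact ⟨h, h1, h2⟩

/-- well-formed environments -/
structure KWF (k : ℕ) (e : KEnv V) : Prop where
  nd : e.2.Nodup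
  can : ∀ c ∈ e.1, c.Sublist e.2
  ne : [] ∉ e.1
  len : ∀ c ∈ e.1, c.length ≤ k

/-- the invariant of the nodes -/
structure KOk (k M : ℕ) (e : KEnv V) (s : KNd V) : Prop where
  nd : s.Nodup
  can : ∀ S ∈ s, S.Sublist e.2
  inv : KInv k M e.2.toFinset (toF s)

/-- the potential -/
def KPot (k M : ℕ) (e : KEnv V) (s : KNd V) : ℕ :=
  3 ^ (k - 1) * M ^ (k - 2) * e.2.length - KPsi k M (toF s)

theorem KPsi_le' {k M : ℕ} {e : KEnv V} {s : KNd V} (hk : 2 ≤ k) (he : e.2.Nodup)
    (hs : KOk k M e s) : KPsi k M (toF s) ≤ 3 ^ (k - 1) * M ^ (k - 2) * e.2.length := by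
  have := KPsi_le hk hs.inv
  rwa [List.toFinset_card_of_nodup he] at this

theorem kfam_mem {e : KEnv V} {s : KNd V} {c : List (Lit V)} :
    c ∈ kfam e s ↔ c ∈ s ∨ (c ∈ e.1 ∧ kcov s c = false) := by
  unfold kfam
  rw [List.mem_append, List.mem_filter, mem_ded]
  simp

theorem kcov_iff {s : KNd V} {c : List (Lit V)} :
    kcov s c = true ↔ ∃ S ∈ s, subl S c = true := by
  unfold kcov
  rw [List.any_eq_true]

theorem kfam_nodup {e : KEnv V} {s : KNd V} (hs : s.Nodup) : (kfam e s).Nodup := by
  unfold kfam
  refine List.Nodup.append hs ((nodup_ded _).filter _) ?_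
  intro c hc hc'
  rw [List.mem_filter] at hc'
  have : kcov s c = true := kcov_iff.2 ⟨c, hc, subl_mem.2 fun l hl => hl⟩
  rw [this] at hc'
  simp at hc'

theorem kfam_can {k : ℕ} {e : KEnv V} {s : KNd V} (he : KWF k e)
    (hs : ∀ S ∈ s, S.Sublist e.2) : ∀ c ∈ kfam e s, c.Sublist e.2 := by
  intro c hc
  rcases kfam_mem.1 hc with hc | hc
  · exact hs c hc
  · exact he.can c hc.1

omit [DecidableEq V] in
theorem mem_tup {L : List (Lit V)} : ∀ (H : List (Lit V)), (∀ l ∈ H, l ∈ L) → H ∈ tup H.length L := by
  intro H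
  induction H with
  | nil => intro _; simp [tup]
  | cons l H ih =>
    intro h
    rw [List.length_cons]
    unfold tup
    rw [List.mem_flatMap]
    exact ⟨H, ih fun x hx => h x (List.mem_cons_of_mem _ hx),
      List.mem_map.2 ⟨l, h l List.mem_cons_self, rfl⟩⟩

theorem mem_cands {L H : List (Lit V)} {h : ℕ} (hL : L.Nodup) :
    H ∈ cands h L ↔ H.Sublist L ∧ H.length = h := by
  unfold cands
  rw [List.mem_filter, decide_eq_true_eq, List.mem_map]
  constructor
  · rintro ⟨⟨t, _, rfl⟩, h2⟩
    exact ⟨can_sublist _ _, h2⟩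
  · rintro ⟨h1, rfl⟩
    exact ⟨⟨H, mem_tup H fun l hl => h1.subset hl, can_self hL h1⟩, rfl⟩

theorem kfind_none {k M : ℕ} {e : KEnv V} {s : KNd V} {c i : ℕ} (he : KWF k e)
    (hs : KOk k M e s) (h : kfind M e s c i = none) (H : Finset (Lit V))
    (hH : H ⊆ e.2.toFinset) (hc : H.card = c - i) : dgk (toF (kfam e s)) H c < M ^ i := by
  unfold kfind at h
  rw [List.find?_eq_none] at h
  have h1 : (e.2.filter (fun l => decide (l ∈ H))).toFinset = H := by
    ext l
    rw [List.mem_toFinset, List.mem_filter, decide_eq_true_eq]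
    constructor
    · exact fun h => h.2
    · exact fun h => ⟨List.mem_toFinset.1 (hH h), h⟩
  have h2 : (e.2.filter (fun l => decide (l ∈ H))).Sublist e.2 := List.filter_sublist
  have h3 : (e.2.filter (fun l => decide (l ∈ H))).length = c - i := by
    rw [← card_canon he.nd h2, h1, hc]
  have h4 := h _ ((mem_cands he.nd).2 ⟨h2, h3⟩)
  rw [decide_eq_true_eq, not_le] at h4
  unfold flo at h4
  rw [flo_length he.nd (kfam_nodup hs.nd) (kfam_can he hs.can), h1] at h4
  exact h4

/-- adding clauses, as sets -/
theorem toF_petN (s P : KNd V) : toF (petN s P) = addF (toF s) (toF P) := by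
  ext S
  unfold petN addF
  rw [mem_toF, Finset.mem_union, Finset.mem_filter, mem_toF, mem_toF]
  constructor
  · rintro ⟨c, hc, rfl⟩
    rcases List.mem_append.1 hc with hc | hc
    · exact Or.inl ⟨c, hc, rfl⟩
    · rw [List.mem_filter] at hc
      refine Or.inr ⟨⟨c, hc.1, rfl⟩, fun p hp hpc => ?_⟩
      obtain ⟨p', hp', rfl⟩ := mem_toF.1 hp
      have : P.any (fun p => subl p c) = true :=
        List.any_eq_true.2 ⟨p', hp', subl_iff.2 hpc⟩
      rw [this] at hc
      simp at hc
  · rintro (⟨c, hc, rfl⟩ | ⟨⟨c, hc, rfl⟩, h⟩)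
    · exact ⟨c, List.mem_append_left _ hc, rfl⟩
    · refine ⟨c, List.mem_append_right _ (List.mem_filter.2 ⟨hc, ?_⟩), rfl⟩
      rw [Bool.not_eq_true', ← Bool.not_eq_true, List.any_eq_true]
      rintro ⟨p, hp, hpc⟩
      exact h _ (toF_mem hp) (subl_iff.1 hpc)

theorem petN_nodup {s P : KNd V} (hs : s.Nodup) (hP : P.Nodup) : (petN s P).Nodup := by
  unfold petN
  refine List.Nodup.append hP (hs.filter _) ?_
  intro c hc hc'
  rw [List.mem_filter] at hc'
  have : P.any (fun p => subl p c) = true :=
    List.any_eq_true.2 ⟨c, hc, subl_mem.2 fun l hl => hl⟩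
  rw [this] at hc'
  simp at hc'

theorem petN_ok {k M i : ℕ} {e : KEnv V} {s P : KNd V} (hk : 2 ≤ k)
    (he : KWF k e) (hs : KOk k M e s) (hPn : P.Nodup) (hPc : ∀ p ∈ P, p.Sublist e.2)
    (hi : 1 ≤ i) (hik : i + 1 ≤ k) (hPi : ∀ p ∈ P, p.length = i)
    (hnc : ∀ p ∈ P, ∀ S ∈ s, ¬ S.toFinset ⊆ p.toFinset)
    (hd : ∀ H : Finset (Lit V), H.Nonempty → ∀ j, 1 ≤ j → H.card + j = i →
      dgk (toF s) H i + dgk (toF P) H i ≤ 2 * M ^ j) :
    KOk k M e (petN s P) ∧ KPot k M e (petN s P) + P.length * M ^ (k - 1 - i) ≤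
      KPot k M e s := by
  have hPi' : ∀ p ∈ toF P, p.card = i := by
    intro p hp
    obtain ⟨p', hp', rfl⟩ := mem_toF.1 hp
    rw [card_canon he.nd (hPc p' hp'), hPi p' hp']
  have hnc' : ∀ p ∈ toF P, ∀ S ∈ toF s, ¬ S ⊆ p := by
    intro p hp S hS
    obtain ⟨p', hp', rfl⟩ := mem_toF.1 hp
    obtain ⟨S', hS', rfl⟩ := mem_toF.1 hS
    exact hnc p' hp' S' hS'
  have hinv : KInv k M e.2.toFinset (toF (petN s P)) := by
    rw [toF_petN]
    refine addF_inv hs.inv hi hik ?_ hPi' hnc' hd
    intro p hp
    obtain ⟨p', hp', rfl⟩ := mem_toF.1 hp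
    intro l hl
    rw [List.mem_toFinset] at hl ⊢
    exact (hPc p' hp').subset hl
  have hok : KOk k M e (petN s P) := by
    refine ⟨petN_nodup hs.nd hPn, ?_, hinv⟩
    intro c hc
    rcases List.mem_append.1 hc with hc | hc
    · exact hPc c hc
    · exact hs.can c (List.mem_filter.1 hc).1
  refine ⟨hok, ?_⟩
  have h1 := addF_psi hs.inv hi hPi' hnc'
  rw [← toF_petN, toF_card he.nd hPn hPc] at h1
  have h2 := KPsi_le' hk he.nd hok
  have h3 := KPsi_le' hk he.nd hs
  unfold KPot
  omega

/-- a derived clause is not contained in a proper subset of a current clause -/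
theorem not_sub_of_fam {k M : ℕ} {e : KEnv V} {s : KNd V} (hs : KOk k M e s)
    {C S : List (Lit V)} (hC : C ∈ kfam e s) (hS : S ∈ s) {p : Finset (Lit V)}
    (hp : p ⊆ C.toFinset) (hne : p ≠ C.toFinset) : ¬ S.toFinset ⊆ p := by
  intro h
  rcases kfam_mem.1 hC with hC | hC
  · have := hs.inv.anti _ (toF_mem hS) _ (toF_mem hC) (h.trans hp)
    rw [this] at h
    exact hne (Finset.Subset.antisymm hp h)
  · have : kcov s C = true := kcov_iff.2 ⟨S, hS, subl_iff.2 (h.trans hp)⟩
    rw [hC.2] at this
    simp at this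

theorem mem_petals {e : KEnv V} {s : KNd V} {H : List (Lit V)} {c : ℕ} {p : List (Lit V)}
    (h : p ∈ petals e s H c) : ∃ C ∈ kfam e s, C.length = c ∧ H.toFinset ⊆ C.toFinset ∧
      p = C.filter (fun l => !decide (l ∈ H)) := by
  unfold petals flo at h
  obtain ⟨C, hC, rfl⟩ := List.mem_map.1 h
  rw [List.mem_filter, Bool.and_eq_true, decide_eq_true_eq, subl_iff] at hC
  exact ⟨C, hC.1, hC.2.1, hC.2.2, rfl⟩

theorem petal_toFinset (C H : List (Lit V)) :
    (C.filter (fun l => !decide (l ∈ H))).toFinset = C.toFinset \ H.toFinset := by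
  ext l
  simp

theorem krc_ok {k M : ℕ} {e : KEnv V} {s : KNd V} (hk : 2 ≤ k) (hM : 1 ≤ M)
    (he : KWF k e) (hs : KOk k M e s) :
    (krc M e s k = none ∧ ∀ c i, c ≤ k → 1 ≤ i → i < c → kfind M e s c i = none) ∨
    ∃ l r, krc M e s k = some (l, r) ∧ KOk k M e l ∧ KOk k M e r ∧
      KPot k M e l + 1 ≤ KPot k M e s ∧ KPot k M e r + M ^ (k - 1) ≤ KPot k M e s := by
  rcases krc_spec M e s k with h | ⟨c, i, H, hck, hi, hic, hfd, hfi, hfc, hr⟩
  · exact Or.inl h
  right
  have hH : H ∈ cands (c - i) e.2 := List.mem_of_find?_eq_some hfd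
  rw [mem_cands he.nd] at hH
  have hcount := List.find?_some hfd
  rw [decide_eq_true_eq] at hcount
  have hHc : H.toFinset.card = c - i := by rw [card_canon he.nd hH.1, hH.2]
  have hfam := kfam_can he hs.can
  have hflo : (flo e s H c).length = dgk (toF (kfam e s)) H.toFinset c :=
    flo_length he.nd (kfam_nodup hs.nd) hfam H c
  have hsF : toF s ⊆ toF (kfam e s) := by
    intro S hS
    obtain ⟨c', hc', rfl⟩ := mem_toF.1 hS
    exact toF_mem (kfam_mem.2 (Or.inl hc'))
  have hLs : ∀ H' : Finset (Lit V), ¬ H' ⊆ e.2.toFinset → ∀ n, dgk (toF s) H' n = 0 := by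
    intro H' hH' n
    unfold dgk
    rw [Finset.card_eq_zero, Finset.filter_eq_empty_iff]
    rintro S hS ⟨_, h⟩
    exact hH' (h.trans (hs.inv.sub S hS))
  have hMpos : ∀ j, 1 ≤ M ^ j := fun j => Nat.one_le_pow _ _ hM
  -- the number of old clauses
  have hold : ∀ H' : Finset (Lit V), H'.Nonempty → ∀ j, 1 ≤ j → ∀ n, n < c → H'.card + j = n →
      dgk (toF s) H' n + 1 ≤ M ^ j := by
    intro H' hne j hj n hn hjn
    have hpos := Finset.card_pos.2 hne
    by_cases hL : H' ⊆ e.2.toFinset
    · have h1 := kfind_none he hs (hfc n j hn hj (by omega)) H' hL (by omega)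
      have h2 := dgk_mono hsF H' n
      omega
    · rw [hLs H' hL n]
      have := hMpos j
      omega
  refine ⟨_, _, hr, ?_⟩
  -- the heart
  have hleft := petN_ok (k := k) (M := M) (i := c - i) (P := [H]) hk he hs (by simp)
    (by simpa using hH.1) (by omega) (by omega) (by simpa using hH.2)
    (by
      intro p hp S hS
      rw [List.mem_singleton] at hp
      subst hp
      have hpos : 0 < (flo e s p c).length := lt_of_lt_of_le (hMpos i) hcount
      obtain ⟨C, hC⟩ := List.exists_mem_of_length_pos hpos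
      unfold flo at hC
      rw [List.mem_filter, Bool.and_eq_true, decide_eq_true_eq, subl_iff] at hC
      refine not_sub_of_fam hs hC.1 hS hC.2.2 ?_
      intro heq
      have := card_canon he.nd (hfam C hC.1)
      rw [← heq, hHc] at this
      omega)
    (by
      intro H' hne j hj hjn
      have h1 := hold H' hne j hj (c - i) (by omega) hjn
      have h2 : dgk (toF [H]) H' (c - i) ≤ 1 := by
        refine (Finset.card_filter_le _ _).trans ?_
        unfold toF
        simp
      omega)
  -- the petals
  have hpc : ∀ p ∈ petals e s H c, p.Sublist e.2 ∧ p.length = i := by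
    intro p hp
    obtain ⟨C, hC, hCc, hHC, rfl⟩ := mem_petals hp
    have h1 : (C.filter (fun l => !decide (l ∈ H))).Sublist e.2 :=
      List.filter_sublist.trans (hfam C hC)
    refine ⟨h1, ?_⟩
    rw [← card_canon he.nd h1, petal_toFinset, Finset.card_sdiff_of_subset hHC, hHc,
      card_canon he.nd (hfam C hC), hCc]
    omega
  have hpn : (petals e s H c).Nodup := by
    unfold petals
    refine List.Nodup.map_on ?_ ((kfam_nodup hs.nd).filter _)
    intro C hC C' hC' heq
    unfold flo at hC hC'
    rw [List.mem_filter, Bool.and_eq_true, decide_eq_true_eq, subl_iff] at hC hC'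
    refine canon_inj he.nd (hfam C hC.1) (hfam C' hC'.1) ?_
    have h1 := congrArg List.toFinset heq
    rw [petal_toFinset, petal_toFinset] at h1
    rw [← Finset.sdiff_union_of_subset hC.2.2, h1, Finset.sdiff_union_of_subset hC'.2.2]
  have hright := petN_ok (k := k) (M := M) (i := i) (P := petals e s H c) hk he hs hpn
    (fun p hp => (hpc p hp).1) hi (by omega) (fun p hp => (hpc p hp).2)
    (by
      intro p hp S hS
      obtain ⟨C, hC, hCc, hHC, rfl⟩ := mem_petals hp
      rw [petal_toFinset]
      refine not_sub_of_fam hs hC hS Finset.sdiff_subset ?_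
      intro heq
      have h1 : H.toFinset.Nonempty := Finset.card_pos.1 (by omega)
      obtain ⟨l, hl⟩ := h1
      have h2 := hHC hl
      rw [← heq, Finset.mem_sdiff] at h2
      exact h2.2 hl)
    (by
      intro H' hne j hj hjn
      have h1 := hold H' hne j hj i hic hjn
      have hpos := Finset.card_pos.2 hne
      have h2 : dgk (toF (petals e s H c)) H' i ≤ M ^ j := by
        by_cases hdis : Disjoint H' H.toFinset
        · by_cases hL : H' ⊆ e.2.toFinset
          · have h3 := kfind_none he hs (hfi j hj (by omega)) (H.toFinset ∪ H')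
              (Finset.union_subset (fun l hl => List.mem_toFinset.2
                (hH.1.subset (List.mem_toFinset.1 hl))) hL)
              (by rw [Finset.card_union_of_disjoint hdis.symm, hHc]; omega)
            refine le_trans ?_ h3.le
            unfold dgk
            refine Finset.card_le_card_of_injOn (fun p => p ∪ H.toFinset) ?_ ?_
            · intro p hp
              rw [Finset.mem_coe, Finset.mem_filter] at hp
              obtain ⟨hp, _, hp2⟩ := hp
              obtain ⟨p', hp', rfl⟩ := mem_toF.1 hp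
              obtain ⟨C, hC, hCc, hHC, rfl⟩ := mem_petals hp'
              rw [petal_toFinset] at hp2 ⊢
              simp only [Finset.sdiff_union_of_subset hHC]
              rw [Finset.mem_coe, Finset.mem_filter]
              refine ⟨toF_mem hC, by rw [card_canon he.nd (hfam C hC), hCc], ?_⟩
              exact Finset.union_subset hHC (hp2.trans Finset.sdiff_subset)
            · intro p hp q hq hpq
              rw [Finset.mem_coe, Finset.mem_filter] at hp hq
              obtain ⟨p', hp', rfl⟩ := mem_toF.1 hp.1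
              obtain ⟨q', hq', rfl⟩ := mem_toF.1 hq.1
              obtain ⟨C, hC, hCc, hHC, rfl⟩ := mem_petals hp'
              obtain ⟨C', hC', hCc', hHC', rfl⟩ := mem_petals hq'
              simp only [petal_toFinset, Finset.sdiff_union_of_subset hHC,
                Finset.sdiff_union_of_subset hHC'] at hpq ⊢
              rw [hpq]
          · refine le_trans (le_of_eq ?_) (Nat.zero_le _)
            unfold dgk
            rw [Finset.card_eq_zero, Finset.filter_eq_empty_iff]
            rintro S hS ⟨_, h⟩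
            obtain ⟨p', hp', rfl⟩ := mem_toF.1 hS
            refine hL (h.trans fun l hl => ?_)
            rw [List.mem_toFinset] at hl ⊢
            exact (hpc p' hp').1.subset hl
        · refine le_trans (le_of_eq ?_) (Nat.zero_le _)
          unfold dgk
          rw [Finset.card_eq_zero, Finset.filter_eq_empty_iff]
          rintro S hS ⟨_, h⟩
          obtain ⟨p', hp', rfl⟩ := mem_toF.1 hS
          obtain ⟨C, hC, hCc, hHC, rfl⟩ := mem_petals hp'
          rw [petal_toFinset] at h
          exact hdis (Finset.disjoint_of_subset_left h Finset.sdiff_disjoint)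
      omega)
  refine ⟨hleft.1, hright.1, ?_, ?_⟩
  · have h1 := hleft.2
    have h2 := hMpos (k - 1 - (c - i))
    rw [List.length_singleton] at h1
    omega
  · have h1 := hright.2
    have h2 : M ^ (k - 1) ≤ (petals e s H c).length * M ^ (k - 1 - i) := by
      have h3 : M ^ (k - 1) = M ^ i * M ^ (k - 1 - i) := by
        rw [← pow_add]
        congr 1
        omega
      rw [h3]
      refine Nat.mul_le_mul_right _ ?_
      unfold petals
      rw [List.length_map]
      exact hcount
    omega

/-! ### Soundness -/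

theorem petN_sat {s P : KNd V} {a : V → Bool} (hs : ∀ S ∈ s, ∃ l ∈ S, tr a l)
    (hP : ∀ p ∈ P, ∃ l ∈ p, tr a l) : ∀ S ∈ petN s P, ∃ l ∈ S, tr a l := by
  intro S hS
  rcases List.mem_append.1 hS with hS | hS
  · exact hP S hS
  · exact hs S (List.mem_filter.1 hS).1

theorem krc_sat {k M : ℕ} {e : KEnv V} {s l r : KNd V} {a : V → Bool}
    (ha : ∀ c ∈ e.1, ∃ l ∈ c, tr a l) (hs : ∀ S ∈ s, ∃ l ∈ S, tr a l)
    (h : krc M e s k = some (l, r)) :
    (∀ S ∈ l, ∃ x ∈ S, tr a x) ∨ (∀ S ∈ r, ∃ x ∈ S, tr a x) := by
  rcases krc_spec M e s k with ⟨h', _⟩ | ⟨c, i, H, _, _, _, _, _, _, hr⟩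
  · rw [h'] at h
    simp at h
  · rw [hr] at h
    simp only [Option.some.injEq, Prod.mk.injEq] at h
    obtain ⟨rfl, rfl⟩ := h
    by_cases hH : ∃ x ∈ H, tr a x
    · left
      exact petN_sat hs (by simpa using hH)
    · right
      refine petN_sat hs fun p hp => ?_
      obtain ⟨C, hC, _, _, rfl⟩ := mem_petals hp
      have h1 : ∃ x ∈ C, tr a x := by
        rcases kfam_mem.1 hC with hC | hC
        · exact hs C hC
        · exact ha C hC.1
      obtain ⟨x, hx, hxa⟩ := h1
      refine ⟨x, List.mem_filter.2 ⟨hx, ?_⟩, hxa⟩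
      rw [Bool.not_eq_true', decide_eq_false_iff_not]
      exact fun hxH => hH ⟨x, hxH, hxa⟩

end kb

end Pool.Agent.Lib.MP_87d05f_lc
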