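import Mathlib
import Pool.Agent.Lib.MP_87d05f_lc.KBranch

set_option autoImplicit false

/-!
# The sparse formula at a leaf of the branching process, any width
-/

namespace Pool.Agent.Lib.MP_87d05f_lc

open Pool.Agent.PolyTime Function

section kt

variable {V : Type} [DecidableEq V]

/-- the environment of a formula -/
def mkK (cl : List (List (Lit V))) : KEnv V :=
  (cl.map (fun c => can (ded cl.flatten) c), ded cl.flatten)

theorem can_length_le {L c : List (Lit V)} (hL : L.Nodup) : (can L c).length ≤ c.length :=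
  nodup_length_le (hL.filter _) (fun _ hx => (mem_can.1 hx).2)

theorem mkK_wf {k : ℕ} {cl : List (List (Lit V))} (h : ∀ c ∈ cl, c.length ≤ k)
    (h0 : [] ∉ (mkK cl).1) : KWF k (mkK cl) := by
  refine ⟨nodup_ded _, ?_, h0, ?_⟩
  · intro c hc
    obtain ⟨d, _, rfl⟩ := List.mem_map.1 hc
    exact can_sublist _ _
  · intro c hc
    obtain ⟨d, hd, rfl⟩ := List.mem_map.1 hc
    exact (can_length_le (nodup_ded _)).trans (h d hd)

theorem mem_can_of {cl : List (List (Lit V))} {c : List (Lit V)} (hc : c ∈ cl) {l : Lit V} :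
    l ∈ can (ded cl.flatten) c ↔ l ∈ c := by
  rw [mem_can, mem_ded, List.mem_flatten]
  exact ⟨fun h => h.2, fun h => ⟨⟨c, hc, h⟩, h⟩⟩

theorem mkK_fals (cl : List (List (Lit V))) (a : V → Bool) :
    (mkK cl).1.countP (falsB a) = cl.countP (falsB a) := by
  change (cl.map (fun c => can (ded cl.flatten) c)).countP (falsB a) = _
  rw [List.countP_map]
  refine List.countP_congr fun c hc => ?_
  simp only [Function.comp]
  rw [falsB_iff, falsB_iff]
  simp only [mem_can_of hc]

theorem mkK_sat {cl : List (List (Lit V))} {a : V → Bool} (h : ∀ c ∈ cl, ∃ l ∈ c, tr a l) :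
    ∀ c ∈ (mkK cl).1, ∃ l ∈ c, tr a l := by
  intro c hc
  obtain ⟨d, hd, rfl⟩ := List.mem_map.1 hc
  obtain ⟨l, hl, h⟩ := h d hd
  exact ⟨l, (mem_can_of hd).2 hl, h⟩

theorem mkK_length (cl : List (List (Lit V))) : (mkK cl).1.length = cl.length :=
  List.length_map ..

theorem mkK_lits (cl : List (List (Lit V))) : (mkK cl).2.length ≤ 2 * nvars cl := by
  change (ded cl.flatten).length ≤ _
  rw [← List.toFinset_card_of_nodup (nodup_ded cl.flatten)]
  unfold nvars
  have h : (ded cl.flatten).toFinset ⊆ (Finset.univ : Finset Bool) ×ˢ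
      (cl.flatten.map (fun l => l.2)).toFinset := by
    intro l hl
    rw [List.mem_toFinset, mem_ded] at hl
    rw [Finset.mem_product]
    refine ⟨Finset.mem_univ _, ?_⟩
    rw [List.mem_toFinset, List.mem_map]
    exact ⟨l, hl, rfl⟩
  refine (Finset.card_le_card h).trans ?_
  rw [Finset.card_product, Finset.card_univ, Fintype.card_bool]

/-- the implied subclause at a node -/
def ktcl (s : KNd V) (c : List (Lit V)) : List (Lit V) :=
  (Option.casesOn (s.find? (fun S => subl S c)) c (fun S => S))

theorem ktcl_cases (s : KNd V) (c : List (Lit V)) :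
    (∃ S ∈ s, subl S c = true ∧ ktcl s c = S) ∨ (kcov s c = false ∧ ktcl s c = c) := by
  unfold ktcl
  rcases h : s.find? (fun S => subl S c) with _ | S
  · right
    refine ⟨?_, rfl⟩
    rw [List.find?_eq_none] at h
    rw [← Bool.not_eq_true, kcov_iff]
    rintro ⟨S, hS, hSc⟩
    exact h S hS hSc
  · left
    exact ⟨S, List.mem_of_find?_eq_some h, by simpa using List.find?_some h, rfl⟩

theorem ktcl_sub {s : KNd V} {c : List (Lit V)} : ∀ l ∈ ktcl s c, l ∈ c := by
  rcases ktcl_cases s c with ⟨S, _, h, he⟩ | ⟨_, he⟩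
  · rw [he]
    exact subl_mem.1 h
  · rw [he]
    exact fun _ h => h

theorem ktcl_fam {e : KEnv V} {s : KNd V} {c : List (Lit V)} (hc : c ∈ e.1) :
    ktcl s c ∈ kfam e s := by
  rcases ktcl_cases s c with ⟨S, hS, _, he⟩ | ⟨h, he⟩
  · rw [he]
    exact kfam_mem.2 (Or.inl hS)
  · rw [he]
    exact kfam_mem.2 (Or.inr ⟨hc, h⟩)

theorem ktcl_length {k M : ℕ} {e : KEnv V} {s : KNd V} (he : KWF k e) (hs : KOk k M e s)
    {c : List (Lit V)} (hc : c ∈ e.1) : (ktcl s c).length ≤ k := by
  rcases ktcl_cases s c with ⟨S, hS, _, h⟩ | ⟨_, h⟩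
  · rw [h, ← card_canon he.nd (hs.can S hS)]
    have := hs.inv.sz _ (toF_mem hS)
    omega
  · rw [h]
    exact he.len c hc

theorem ktcl_sat {e : KEnv V} {s : KNd V} {a : V → Bool} (h1 : ∀ c ∈ e.1, ∃ l ∈ c, tr a l)
    (h2 : ∀ S ∈ s, ∃ l ∈ S, tr a l) {c : List (Lit V)} (hc : c ∈ e.1) :
    ∃ l ∈ ktcl s c, tr a l := by
  rcases ktcl_cases s c with ⟨S, hS, _, h⟩ | ⟨_, h⟩
  · rw [h]
    exact h2 S hS
  · rw [h]
    exact h1 c hc

theorem ktcl_fals (e : KEnv V) (s : KNd V) (a : V → Bool) :
    e.1.countP (falsB a) ≤ (e.1.map (ktcl s)).countP (falsB a) := by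
  rw [List.countP_map]
  refine List.countP_mono_left fun c _ h => ?_
  simp only [Function.comp]
  rw [falsB_iff] at h ⊢
  exact fun l hl => h l (ktcl_sub l hl)

/-- number of different subclauses at a leaf -/
theorem ktypes_le {k M : ℕ} {e : KEnv V} {s : KNd V} (hM : 1 ≤ M) (he : KWF k e)
    (hs : KOk k M e s)
    (hr : ∀ c i, c ≤ k → 1 ≤ i → i < c → kfind M e s c i = none) :
    (ded (e.1.map (ktcl s))).length ≤ k * M ^ (k - 1) * e.2.length := by
  have hfam := kfam_can he hs.can
  have hnd := kfam_nodup (e := e) hs.nd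
  have h1 : (ded (e.1.map (ktcl s))).length ≤ (kfam e s).length := by
    refine nodup_length_le (nodup_ded _) fun t ht => ?_
    rw [mem_ded, List.mem_map] at ht
    obtain ⟨c, hc, rfl⟩ := ht
    exact ktcl_fam hc
  refine h1.trans ?_
  rw [← toF_card he.nd hnd hfam]
  have hlen : ∀ C ∈ toF (kfam e s), 1 ≤ C.card ∧ C.card ≤ k ∧ C ⊆ e.2.toFinset := by
    intro C hC
    obtain ⟨c, hc, rfl⟩ := mem_toF.1 hC
    rw [card_canon he.nd (hfam c hc)]
    refine ⟨?_, ?_, ?_⟩
    · rcases kfam_mem.1 hc with h | h
      · have := Finset.card_pos.2 (hs.inv.ne _ (toF_mem h))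
        rwa [card_canon he.nd (hfam c hc)] at this
      · refine List.length_pos_iff.2 fun h' => he.ne ?_
        rw [← h']
        exact h.1
    · rcases kfam_mem.1 hc with h | h
      · have := hs.inv.sz _ (toF_mem h)
        rw [card_canon he.nd (hfam c hc)] at this
        omega
      · exact he.len c h.1
    · intro l hl
      rw [List.mem_toFinset] at hl ⊢
      exact (hfam c hc).subset hl
  have h2 : toF (kfam e s) ⊆ e.2.toFinset.biUnion (fun l => (Finset.range k).biUnion
      (fun n => (toF (kfam e s)).filter (fun C => C.card = n + 1 ∧ {l} ⊆ C))) := by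
    intro C hC
    obtain ⟨g1, g2, g3⟩ := hlen C hC
    obtain ⟨l, hl⟩ := Finset.card_pos.1 g1
    rw [Finset.mem_biUnion]
    refine ⟨l, g3 hl, ?_⟩
    rw [Finset.mem_biUnion]
    refine ⟨C.card - 1, Finset.mem_range.2 (by omega), Finset.mem_filter.2 ⟨hC, by omega, ?_⟩⟩
    rwa [Finset.singleton_subset_iff]
  refine (Finset.card_le_card h2).trans (Finset.card_biUnion_le.trans ?_)
  have h3 : ∀ l ∈ e.2.toFinset, ((Finset.range k).biUnion
      (fun n => (toF (kfam e s)).filter (fun C => C.card = n + 1 ∧ {l} ⊆ C))).card ≤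
      k * M ^ (k - 1) := by
    intro l hl
    refine Finset.card_biUnion_le.trans ?_
    have h4 : ∀ n ∈ Finset.range k,
        ((toF (kfam e s)).filter (fun C => C.card = n + 1 ∧ {l} ⊆ C)).card ≤ M ^ (k - 1) := by
      intro n hn
      rw [Finset.mem_range] at hn
      have hmono : M ^ n ≤ M ^ (k - 1) := Nat.pow_le_pow_right hM (by omega)
      rcases Nat.eq_zero_or_pos n with rfl | hn0
      · refine le_trans ?_ hmono
        rw [pow_zero, Finset.card_le_one]
        intro C hC C' hC'
        rw [Finset.mem_filter] at hC hC'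
        have e1 : {l} = C := Finset.eq_of_subset_of_card_le hC.2.2 (by
          rw [Finset.card_singleton, hC.2.1])
        have e2 : {l} = C' := Finset.eq_of_subset_of_card_le hC'.2.2 (by
          rw [Finset.card_singleton, hC'.2.1])
        rw [← e1, ← e2]
      · refine le_trans ?_ hmono
        exact (kfind_none he hs (hr (n + 1) n (by omega) hn0 (by omega)) {l}
          (Finset.singleton_subset_iff.2 hl) (by rw [Finset.card_singleton]; omega)).le
    refine (Finset.sum_le_card_nsmul _ _ _ h4).trans ?_
    rw [Finset.card_range, smul_eq_mul]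
  refine (Finset.sum_le_card_nsmul _ _ _ h3).trans ?_
  rw [smul_eq_mul, List.toFinset_card_of_nodup he.nd, Nat.mul_comm]

/-- thinning out to a number of clauses linear in `Λ` -/
def spr (p q K Λ : ℕ) (l : List (List (Lit V))) : List (List (Lit V)) :=
  thin (max 1 (mydiv (p * l.length) (2 * q * K * Λ))) l

theorem spr_size {p q K Λ : ℕ} (hp : 1 ≤ p) (hq : 1 ≤ q) (hK : 1 ≤ K)
    {l : List (List (Lit V))} (hty : (ded l).length ≤ K * Λ) :
    (spr p q K Λ l).length ≤ 4 * q * K * Λ := by
  set m := l.length with hm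
  unfold spr
  rw [← hm]
  rcases Nat.eq_zero_or_pos Λ with h0 | hpos
  · rw [h0, Nat.mul_zero] at hty
    have h1 : ded l = [] := List.length_eq_zero_iff.1 (Nat.le_zero.1 hty)
    unfold thin
    rw [h1]
    simp
  · set d := 2 * q * K * Λ with hd
    have hd1 : 1 ≤ d := by
      rw [hd]
      exact Nat.succ_le_of_lt (by positivity)
    rw [mydiv_eq hd1]
    have h1 := thin_length (le_max_left 1 (p * m / d)) l
    rw [← hm] at h1
    generalize (thin (max 1 (p * m / d)) l).length = n at *
    have h2 : m ≤ p * m := Nat.le_mul_of_pos_left _ hp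
    have h3 : p * m < d * (p * m / d + 1) := by
      have := Nat.div_add_mod (p * m) d
      have := Nat.mod_lt (p * m) hd1
      rw [Nat.mul_add]
      omega
    generalize p * m / d = g at *
    have h4 : g + 1 ≤ 2 * max 1 g := by omega
    have h5 : d * (g + 1) ≤ d * (2 * max 1 g) := Nat.mul_le_mul_left _ h4
    have h6 : max 1 g * n < max 1 g * (2 * d) := by
      calc max 1 g * n ≤ m := h1
        _ ≤ p * m := h2
        _ < d * (g + 1) := h3
        _ ≤ d * (2 * max 1 g) := h5
        _ = max 1 g * (2 * d) := by ring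
    have h7 : n < 2 * d := Nat.lt_of_mul_lt_mul_left h6
    have h8 : 2 * d = 4 * q * K * Λ := by rw [hd]; ring
    omega

theorem spr_mem {p q K Λ : ℕ} {l : List (List (Lit V))} {c : List (Lit V)}
    (h : c ∈ spr p q K Λ l) : c ∈ l := mem_of_mem_thin h

theorem spr_gap {p q K Λ : ℕ} {l : List (List (Lit V))} (hty : (ded l).length ≤ K * Λ)
    {a : V → Bool} (hno : p * l.length ≤ q * l.countP (falsB a)) :
    p * (spr p q K Λ l).length ≤ 2 * q * (spr p q K Λ l).countP (falsB a) ∧
      (0 < p * l.length → 0 < (spr p q K Λ l).countP (falsB a)) := by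
  set m := l.length with hm
  unfold spr
  rw [← hm]
  set d := 2 * q * K * Λ with hd
  set g := max 1 (mydiv (p * m) d) with hg
  have hg1 : 1 ≤ g := le_max_left _ _
  have h1 := thin_length hg1 l
  have h2 := thin_lower hg1 (falsB a) l
  rw [← hm] at h1
  generalize (thin g l).length = n at *
  generalize (thin g l).countP (falsB a) = S at *
  generalize l.countP (falsB a) = W at *
  generalize (ded l).length = Ty at *
  have key : p * m ≤ 2 * q * (g * S) := by
    rcases Nat.lt_or_ge 1 g with hg2 | hg2
    · have hge : g = mydiv (p * m) d := by omega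
      rcases Nat.eq_zero_or_pos d with hd0 | hdpos
      · have h3 : q * (K * Λ) = 0 := by
          have : 2 * (q * (K * Λ)) = d := by rw [hd]; ring
          omega
        have h4 : q * Ty = 0 := by
          have := Nat.mul_le_mul_left q hty
          omega
        have h5 : q * W ≤ q * (g * S + (g - 1) * Ty) := Nat.mul_le_mul_left _ h2
        have h6 : q * (g * S + (g - 1) * Ty) = q * (g * S) + (g - 1) * (q * Ty) := by ring
        rw [h6, h4] at h5
        nlinarith
      · rw [mydiv_eq hdpos] at hge
        have h3 : g * d ≤ p * m := by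
          rw [hge]
          exact Nat.div_mul_le_self _ _
        have h4 : (g - 1) * Ty ≤ (g - 1) * (K * Λ) := Nat.mul_le_mul_left _ hty
        have h5 : 2 * q * W ≤ 2 * q * (g * S + (g - 1) * (K * Λ)) :=
          Nat.mul_le_mul_left _ (h2.trans (Nat.add_le_add_left h4 _))
        have h6 : 2 * q * ((g - 1) * (K * Λ)) ≤ g * d := by
          have : 2 * q * ((g - 1) * (K * Λ)) = (g - 1) * d := by rw [hd]; ring
          rw [this]
          exact Nat.mul_le_mul_right _ (Nat.sub_le _ _)
        nlinarith
    · have hg' : g = 1 := by omega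
      rw [hg'] at h2 ⊢
      simp only [Nat.sub_self, Nat.zero_mul, Nat.add_zero, Nat.one_mul] at h2
      have := Nat.mul_le_mul_left q h2
      nlinarith
  constructor
  · have h3 : g * (p * n) ≤ g * (2 * q * S) := by
      calc g * (p * n) = p * (g * n) := by ring
        _ ≤ p * m := Nat.mul_le_mul_left _ h1
        _ ≤ 2 * q * (g * S) := key
        _ = g * (2 * q * S) := by ring
    exact Nat.le_of_mul_le_mul_left h3 hg1
  · intro hpm
    by_contra h0
    have : S = 0 := by omega
    rw [this] at key
    simp at key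
    rw [Nat.pos_iff_ne_zero] at hpm
    exact hpm (Nat.mul_eq_zero.2 key)

/-- the sparse formula at a leaf -/
def ksparse (p q K : ℕ) (e : KEnv V) (s : KNd V) : List (List (Lit V)) :=
  spr p q K e.2.length (e.1.map (fun c => ktcl s c))

end kt

/-! ### Polynomial time and sizes -/

section ptime

variable {V : Type} [DecidableEq V] [SCode V] {α : Type} [SCode α]

theorem can_ptime {L c : α → List (Lit V)} (hL : PTime L) (hc : PTime c) :
    PTime (fun a => can (L a) (c a)) := by
  unfold can
  refine PTime.filter (p := fun a l => decide (l ∈ c a)) hL ?_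
  exact mem_ptime PTime.snd (hc.comp PTime.fst)

theorem subl_ptime {H C : α → List (Lit V)} (hH : PTime H) (hC : PTime C) :
    PTime (fun a => subl (H a) (C a)) := by
  unfold subl
  refine PTime.all (p := fun a l => decide (l ∈ C a)) hH ?_
  exact mem_ptime PTime.snd (hC.comp PTime.fst)

theorem kcov_ptime {s : α → KNd V} {c : α → List (Lit V)} (hs : PTime s) (hc : PTime c) :
    PTime (fun a => kcov (s a) (c a)) := by
  unfold kcov
  refine PTime.any (p := fun a S => subl S (c a)) hs ?_
  exact subl_ptime PTime.snd (hc.comp PTime.fst)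

theorem kfam_ptime {e : α → KEnv V} {s : α → KNd V} (he : PTime e) (hs : PTime s) :
    PTime (fun a => kfam (e a) (s a)) := by
  unfold kfam
  refine PTime.append hs (PTime.filter (p := fun a c => !kcov (s a) c)
    (ded_ptime (PTime.fst.comp he)) ?_)
  exact PTime.not (kcov_ptime (hs.comp PTime.fst) PTime.snd)

theorem flo_ptime {e : α → KEnv V} {s : α → KNd V} {H : α → List (Lit V)} (c : ℕ)
    (he : PTime e) (hs : PTime s) (hH : PTime H) :
    PTime (fun a => flo (e a) (s a) (H a) c) := by
  unfold flo
  refine PTime.filter (p := fun a (C : List (Lit V)) => decide (C.length = c) && subl (H a) C)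
    (kfam_ptime he hs) ?_
  exact PTime.and (PTime.nat_eq (PTime.length PTime.snd) (PTime.const c))
    (subl_ptime (hH.comp PTime.fst) PTime.snd)

omit [DecidableEq V] in
theorem tup_ptime (h : ℕ) {L : α → List (Lit V)} (hL : PTime L) :
    PTime (fun a => tup h (L a)) := by
  induction h with
  | zero => exact PTime.const [[]]
  | succ h ih =>
    unfold tup
    refine PTime.flatMap (f := fun a (t : List (Lit V)) => (L a).map (fun l => l :: t)) ih ?_
    refine PTime.map (f := fun (x : α × List (Lit V)) l => l :: x.2) (hL.comp PTime.fst) ?_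
    exact PTime.cons PTime.snd (PTime.snd.comp PTime.fst)

theorem cands_ptime (h : ℕ) {L : α → List (Lit V)} (hL : PTime L) :
    PTime (fun a => cands h (L a)) := by
  unfold cands
  refine PTime.filter (p := fun (_ : α) (H : List (Lit V)) => decide (H.length = h)) ?_
    (PTime.nat_eq (PTime.length PTime.snd) (PTime.const h))
  refine PTime.map (f := fun a t => can (L a) t) (tup_ptime h hL) ?_
  exact can_ptime (hL.comp PTime.fst) PTime.snd

theorem kfind_ptime (M c i : ℕ) {e : α → KEnv V} {s : α → KNd V} (he : PTime e)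
    (hs : PTime s) : PTime (fun a => kfind M (e a) (s a) c i) := by
  unfold kfind
  refine PTime.find? (p := fun a (H : List (Lit V)) => decide (M ^ i ≤ (flo (e a) (s a) H c).length))
    (cands_ptime (c - i) (PTime.snd.comp he)) ?_
  exact PTime.nat_le (PTime.const _)
    (PTime.length (flo_ptime c (he.comp PTime.fst) (hs.comp PTime.fst) PTime.snd))

theorem petals_ptime (c : ℕ) {e : α → KEnv V} {s : α → KNd V} {H : α → List (Lit V)}
    (he : PTime e) (hs : PTime s) (hH : PTime H) :
    PTime (fun a => petals (e a) (s a) (H a) c) := by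
  unfold petals
  refine PTime.map (f := fun a (C : List (Lit V)) => C.filter (fun l => !decide (l ∈ H a)))
    (flo_ptime c he hs hH) ?_
  refine PTime.filter (p := fun (x : α × List (Lit V)) l => !decide (l ∈ H x.1)) PTime.snd ?_
  exact PTime.not (mem_ptime PTime.snd (hH.comp (PTime.fst.comp PTime.fst)))

theorem petN_ptime {s P : α → KNd V} (hs : PTime s) (hP : PTime P) :
    PTime (fun a => petN (s a) (P a)) := by
  unfold petN
  refine PTime.append hP (PTime.filter (p := fun a S => !(P a).any (fun p => subl p S)) hs ?_)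
  refine PTime.not (PTime.any (p := fun (x : α × List (Lit V)) p => subl p x.2)
    (hP.comp PTime.fst) ?_)
  exact subl_ptime PTime.snd (PTime.snd.comp PTime.fst)

theorem kri_ptime (M c i : ℕ) {e : α → KEnv V} {s : α → KNd V} (he : PTime e)
    (hs : PTime s) : PTime (fun a => kri M (e a) (s a) c i) := by
  induction i with
  | zero => exact PTime.const none
  | succ i ih =>
    unfold kri
    refine PTime.option_casesOn (f := fun a => kri M (e a) (s a) c i)
      (g := fun a => (Option.casesOn (kfind M (e a) (s a) c (i + 1)) none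
        (fun H => some (petN (s a) [H], petN (s a) (petals (e a) (s a) H c))) :
        Option (KNd V × KNd V)))
      (h := fun _ r => some r) ih ?_ (PTime.some PTime.snd)
    refine PTime.option_casesOn (f := fun a => kfind M (e a) (s a) c (i + 1))
      (g := fun _ => none)
      (h := fun a H => some (petN (s a) [H], petN (s a) (petals (e a) (s a) H c)))
      (kfind_ptime M c (i + 1) he hs) (PTime.const none) ?_
    have h1 : PTime (fun x : α × List (Lit V) => e x.1) := he.comp PTime.fst
    have h2 : PTime (fun x : α × List (Lit V) => s x.1) := hs.comp PTime.fst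
    exact PTime.some ((petN_ptime h2 (PTime.cons PTime.snd (PTime.const []))).pair
      (petN_ptime h2 (petals_ptime c h1 h2 PTime.snd)))

theorem krc_ptime (M c : ℕ) {e : α → KEnv V} {s : α → KNd V} (he : PTime e)
    (hs : PTime s) : PTime (fun a => krc M (e a) (s a) c) := by
  induction c with
  | zero => exact PTime.const none
  | succ c ih =>
    unfold krc
    exact PTime.option_casesOn (f := fun a => krc M (e a) (s a) c)
      (g := fun a => kri M (e a) (s a) (c + 1) c) (h := fun _ r => some r) ih
      (kri_ptime M (c + 1) c he hs) (PTime.some PTime.snd)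

theorem ktcl_ptime {s : α → KNd V} {c : α → List (Lit V)} (hs : PTime s) (hc : PTime c) :
    PTime (fun a => ktcl (s a) (c a)) := by
  unfold ktcl
  refine PTime.option_casesOn (f := fun a => (s a).find? (fun S => subl S (c a)))
    (g := fun a => c a) (h := fun _ S => S) ?_ hc PTime.snd
  refine PTime.find? (p := fun a S => subl S (c a)) hs ?_
  exact subl_ptime PTime.snd (hc.comp PTime.fst)

theorem ksparse_ptime (p q K : ℕ) {e : α → KEnv V} {s : α → KNd V} (he : PTime e)
    (hs : PTime s) : PTime (fun a => ksparse p q K (e a) (s a)) := by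
  unfold ksparse spr
  have h1 : PTime (fun a => (e a).1.map (fun c => ktcl (s a) c)) :=
    PTime.map (f := fun a c => ktcl (s a) c) (PTime.fst.comp he)
      (ktcl_ptime (hs.comp PTime.fst) PTime.snd)
  exact thin_ptime (max_ptime (PTime.const 1) (mydiv_ptime (PTime.mul (PTime.const p)
    (PTime.length h1)) (PTime.mul (PTime.const (2 * q * K))
    (PTime.length (PTime.snd.comp he))))) h1

theorem mkK_ptime {cl : α → List (List (Lit V))} (h : PTime cl) :
    PTime (fun a => mkK (cl a)) := by
  unfold mkK
  have h1 : PTime (fun a => ded (cl a).flatten) := ded_ptime (PTime.flatten h)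
  refine PTime.pair ?_ h1
  refine PTime.map (f := fun a c => can (ded (cl a).flatten) c) h ?_
  exact can_ptime (h1.comp PTime.fst) PTime.snd

omit [DecidableEq V] in
theorem sz_sublist_le {β : Type} [SCode β] {c L : List β} (h : c.Sublist L) : sz c ≤ sz L := by
  induction h with
  | slnil => exact le_rfl
  | cons a _ ih => rw [sz_cons]; omega
  | cons_cons a _ ih => rw [sz_cons, sz_cons]; omega

/-- sizes of the nodes -/
theorem sz_knode_le {k M : ℕ} {e : KEnv V} {s : KNd V} (hk : 2 ≤ k) (hM : 1 ≤ M)
    (hn : e.2.Nodup) (hs : KOk k M e s) (E : ℕ) (hE : sz e ≤ E) :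
    sz s ≤ 3 ^ (k - 1) * M ^ (k - 2) * E * (E + 1) + 1 := by
  have hL : sz e.2 ≤ E := by
    have : sz e = sz e.1 + sz e.2 + 1 := rfl
    omega
  have h1 : s.length ≤ KPsi k M (toF s) := by
    rw [← toF_card hn hs.nd hs.can]
    unfold KPsi
    rw [Finset.card_eq_sum_ones]
    exact Finset.sum_le_sum fun S _ => Nat.one_le_pow _ _ (by omega)
  have h2 := KPsi_le' hk hn hs
  have h3 := length_le_sz e.2
  have h4 : e.2.length ≤ E := by omega
  have h5 := Nat.mul_le_mul_left (3 ^ (k - 1) * M ^ (k - 2)) h4
  have h6 := sz_list_le s E (fun S hS => (sz_sublist_le (hs.can S hS)).trans hL)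
  have h7 : s.length * (E + 1) ≤ 3 ^ (k - 1) * M ^ (k - 2) * E * (E + 1) :=
    Nat.mul_le_mul_right _ (h1.trans (h2.trans h5))
  omega

end ptime

end Pool.Agent.Lib.MP_87d05f_lc
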