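import Mathlib
import Pool.Agent.Lib.MP_87d05f_lc.KTypes

set_option autoImplicit false

/-!
# Splitting clauses into clauses of length at most three
-/

namespace Pool.Agent.Lib.MP_87d05f_lc

open Pool.Agent.PolyTime Function

section split

variable {V : Type} [DecidableEq V]

/-- the middle clauses -/
def midC (i : ℕ) (lj : Lit V × ℕ) : List (Lit (V ⊕ (ℕ × ℕ))) :=
  [(false, Sum.inr (i, lj.2)), (lj.1.1, Sum.inl lj.1.2), (true, Sum.inr (i, lj.2 + 1))]

/-- the clauses for one clause -/
def splitC (i : ℕ) (c : List (Lit V)) : List (List (Lit (V ⊕ (ℕ × ℕ)))) :=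
  [(true, Sum.inr (i, 0))] :: [(false, Sum.inr (i, c.length))] :: c.zipIdx.map (midC i)

/-- the split formula -/
def split3 (G : List (List (Lit V))) : List (List (Lit (V ⊕ (ℕ × ℕ)))) :=
  G.zipIdx.flatMap (fun ci => splitC ci.2 ci.1)

omit [DecidableEq V] in
theorem chain_true {a : V ⊕ (ℕ × ℕ) → Bool} (i : ℕ) (c : List (Lit V)) : ∀ n : ℕ,
    (∀ l ∈ c, ¬ tr (fun v => a (Sum.inl v)) l) → a (Sum.inr (i, n)) = true →
    (∀ d ∈ (c.zipIdx n).map (midC i), ∃ l ∈ d, tr a l) →
    a (Sum.inr (i, n + c.length)) = true := by
  induction c with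
  | nil => intro n _ h _; simpa using h
  | cons l c ih =>
    intro n hf h0 hd
    have h1 : a (Sum.inr (i, n + 1)) = true := by
      obtain ⟨x, hx, hxa⟩ := hd (midC i (l, n)) (by
        rw [List.zipIdx_cons, List.map_cons]
        exact List.mem_cons_self)
      unfold midC at hx
      simp only [List.mem_cons, List.not_mem_nil, or_false] at hx
      rcases hx with rfl | rfl | rfl
      · unfold tr at hxa
        rw [h0] at hxa
        simp at hxa
      · exact absurd hxa (hf l List.mem_cons_self)
      · exact hxa
    have h2 := ih (n + 1) (fun x hx => hf x (List.mem_cons_of_mem _ hx)) h1 (by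
      intro d hd'
      refine hd d ?_
      rw [List.zipIdx_cons, List.map_cons]
      exact List.mem_cons_of_mem _ hd')
    rw [List.length_cons]
    have e : n + (c.length + 1) = n + 1 + c.length := by omega
    rw [e]
    exact h2

omit [DecidableEq V] in
theorem splitC_fals {a : V ⊕ (ℕ × ℕ) → Bool} (i : ℕ) (c : List (Lit V))
    (h : falsB (fun v => a (Sum.inl v)) c = true) : 1 ≤ (splitC i c).countP (falsB a) := by
  by_contra h0
  have h1 : (splitC i c).countP (falsB a) = 0 := by omega
  rw [List.countP_eq_zero] at h1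
  have h2 : ∀ d ∈ splitC i c, ∃ l ∈ d, tr a l := by
    intro d hd
    have := h1 d hd
    rw [Bool.not_eq_true, falsB_false] at this
    exact this
  rw [falsB_iff] at h
  have g0 : a (Sum.inr (i, 0)) = true := by
    obtain ⟨l, hl, hla⟩ := h2 [(true, Sum.inr (i, 0))] (by unfold splitC; simp)
    rw [List.mem_singleton] at hl
    rw [hl] at hla
    exact hla
  have g1 := chain_true i c 0 h g0 (by
    intro d hd
    refine h2 d ?_
    unfold splitC
    exact List.mem_cons_of_mem _ (List.mem_cons_of_mem _ hd))
  obtain ⟨l, hl, hla⟩ := h2 [(false, Sum.inr (i, c.length))] (by unfold splitC; simp)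
  rw [List.mem_singleton] at hl
  rw [hl] at hla
  unfold tr at hla
  rw [Nat.zero_add] at g1
  rw [g1] at hla
  simp at hla

omit [DecidableEq V] in
theorem split3_fals (G : List (List (Lit V))) (a : V ⊕ (ℕ × ℕ) → Bool) :
    G.countP (falsB (fun v => a (Sum.inl v))) ≤ (split3 G).countP (falsB a) := by
  have h : ∀ n : ℕ, G.countP (falsB (fun v => a (Sum.inl v))) ≤
      ((G.zipIdx n).flatMap (fun ci => splitC ci.2 ci.1)).countP (falsB a) := by
    induction G with
    | nil => intro n; simp
    | cons c G ih =>
      intro n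
      rw [List.zipIdx_cons, List.flatMap_cons, List.countP_append, List.countP_cons]
      have h1 := ih (n + 1)
      simp only
      split_ifs with hc
      · have := splitC_fals n c hc
        omega
      · omega
  exact h 0

omit [DecidableEq V] in
theorem split3_sat {G : List (List (Lit V))} {a : V → Bool} (h : ∀ c ∈ G, ∃ l ∈ c, tr a l) :
    ∃ a' : V ⊕ (ℕ × ℕ) → Bool, ∀ c ∈ split3 G, ∃ l ∈ c, tr a' l := by
  refine ⟨Sum.elim a (fun p => ((G[p.1]?.getD []).take p.2).all (fun l => !(a l.2 == l.1))), ?_⟩
  intro d hd
  unfold split3 at hd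
  obtain ⟨⟨c, i⟩, hci, hd⟩ := List.mem_flatMap.1 hd
  have hget : G[i]? = some c := List.mem_zipIdx_iff_getElem?.1 hci
  have hcG : c ∈ G := List.mem_of_getElem? hget
  unfold splitC at hd
  simp only at hd
  rcases List.mem_cons.1 hd with rfl | hd
  · refine ⟨_, List.mem_singleton.2 rfl, ?_⟩
    unfold tr
    simp
  rcases List.mem_cons.1 hd with rfl | hd
  · refine ⟨_, List.mem_singleton.2 rfl, ?_⟩
    unfold tr
    obtain ⟨l, hl, hla⟩ := h c hcG
    simp only [Sum.elim_inr, hget, Option.getD_some, List.take_length]
    rw [List.all_eq_false]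
    refine ⟨l, hl, ?_⟩
    unfold tr at hla
    simp [hla]
  · obtain ⟨⟨l, j⟩, hlj, rfl⟩ := List.mem_map.1 hd
    have hgj := List.mem_zipIdx_iff_getElem?.1 hlj
    simp only at hgj
    unfold midC
    by_cases hl : tr a l
    · exact ⟨(l.1, Sum.inl l.2), by simp, hl⟩
    · by_cases hy : (c.take j).all (fun l => !(a l.2 == l.1)) = true
      · refine ⟨(true, Sum.inr (i, j + 1)), by simp, ?_⟩
        unfold tr
        simp only [Sum.elim_inr, hget, Option.getD_some]
        rw [List.take_add_one, List.all_append, hy, hgj]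
        unfold tr at hl
        simpa using hl
      · refine ⟨(false, Sum.inr (i, j)), by simp, ?_⟩
        unfold tr
        simp only [Sum.elim_inr, hget, Option.getD_some]
        exact Bool.not_eq_true _ ▸ hy

omit [DecidableEq V] in
theorem splitC_length (i : ℕ) (c : List (Lit V)) : (splitC i c).length = c.length + 2 := by
  unfold splitC
  simp

omit [DecidableEq V] in
theorem split3_length {k : ℕ} {G : List (List (Lit V))} (h : ∀ c ∈ G, c.length ≤ k) :
    (split3 G).length ≤ (k + 2) * G.length := by
  have h' : ∀ n : ℕ, ((G.zipIdx n).flatMap (fun ci => splitC ci.2 ci.1)).length ≤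
      (k + 2) * G.length := by
    induction G with
    | nil => intro n; simp
    | cons c G ih =>
      intro n
      rw [List.zipIdx_cons, List.flatMap_cons, List.length_append, splitC_length,
        List.length_cons]
      have h1 := ih (fun d hd => h d (List.mem_cons_of_mem _ hd)) (n + 1)
      have h2 := h c List.mem_cons_self
      rw [Nat.mul_add]
      simp only
      omega
  exact h' 0

omit [DecidableEq V] in
theorem split3_ne {G : List (List (Lit V))} (h : G ≠ []) : split3 G ≠ [] := by
  rcases G with _ | ⟨c, G⟩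
  · exact absurd rfl h
  · unfold split3 splitC
    rw [List.zipIdx_cons, List.flatMap_cons]
    simp

omit [DecidableEq V] in
theorem split3_clause {G : List (List (Lit V))} {d : List (Lit (V ⊕ (ℕ × ℕ)))}
    (hd : d ∈ split3 G) : d ≠ [] ∧ d.length ≤ 3 := by
  unfold split3 at hd
  obtain ⟨⟨c, i⟩, _, hd⟩ := List.mem_flatMap.1 hd
  unfold splitC at hd
  rcases List.mem_cons.1 hd with rfl | hd
  · simp
  rcases List.mem_cons.1 hd with rfl | hd
  · simp
  obtain ⟨lj, _, rfl⟩ := List.mem_map.1 hd
  unfold midC
  simp

omit [DecidableEq V] in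
theorem vlist_split3 (G : List (List (Lit V))) :
    vlist (split3 G) = G.zipIdx.flatMap (fun ci => vlist (splitC ci.2 ci.1)) := by
  unfold split3 vlist
  induction G.zipIdx with
  | nil => rfl
  | cons x l ih =>
    rw [List.flatMap_cons, List.flatMap_cons, List.flatten_append, List.map_append, ih]

omit [DecidableEq V] in
theorem vlist_splitC (i : ℕ) (c : List (Lit V)) : vlist (splitC i c) =
    Sum.inr (i, 0) :: Sum.inr (i, c.length) :: c.zipIdx.flatMap
      (fun lj => [Sum.inr (i, lj.2), Sum.inl lj.1.2, Sum.inr (i, lj.2 + 1)]) := by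
  unfold vlist splitC
  rw [List.flatten_cons, List.flatten_cons, List.map_append, List.map_append]
  simp only [List.map_cons, List.map_nil, List.cons_append, List.nil_append]
  congr 2
  rw [← List.flatMap_def, List.map_flatMap]
  rfl

omit [DecidableEq V] in
theorem vlist_split3_length (G : List (List (Lit V))) :
    (vlist (split3 G)).length = 2 * G.length + 3 * (vlist G).length := by
  rw [vlist_split3]
  have h : ∀ n : ℕ, ((G.zipIdx n).flatMap (fun ci => vlist (splitC ci.2 ci.1))).length =
      2 * G.length + 3 * (vlist G).length := by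
    induction G with
    | nil => intro n; simp [vlist]
    | cons c G ih =>
      intro n
      rw [List.zipIdx_cons, List.flatMap_cons, List.length_append, ih (n + 1)]
      have h1 : (vlist (splitC n c)).length = 2 + 3 * c.length := by
        rw [vlist_splitC, List.length_cons, List.length_cons, List.length_flatMap]
        simp only [List.length_cons, List.length_nil]
        rw [List.map_const', List.sum_replicate, List.length_zipIdx, smul_eq_mul]
        omega
      have h2 : (vlist (c :: G)).length = c.length + (vlist G).length := by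
        unfold vlist
        simp
      simp only at h1 ⊢
      rw [h1, h2, List.length_cons]
      ring
  exact h 0

theorem cnt_nil' {W : Type} [DecidableEq W] (t : W) : cnt ([] : List W) t = 0 := rfl

theorem cnt_cons' {W : Type} [DecidableEq W] (b : W) (l : List W) (t : W) :
    cnt (b :: l) t = cnt l t + if b = t then 1 else 0 := by
  unfold cnt
  by_cases h : b = t
  · rw [List.filter_cons_of_pos (by simpa using h), List.length_cons, if_pos h]
  · rw [List.filter_cons_of_neg (by simpa using h), if_neg h, Nat.add_zero]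

theorem cnt_append' {W : Type} [DecidableEq W] (l l' : List W) (t : W) :
    cnt (l ++ l') t = cnt l t + cnt l' t := by
  unfold cnt
  rw [List.filter_append, List.length_append]

theorem cnt_zero' {W : Type} [DecidableEq W] {l : List W} {t : W} (h : t ∉ l) :
    cnt l t = 0 := by
  unfold cnt
  rw [List.length_eq_zero_iff, List.filter_eq_nil_iff]
  intro x hx
  simp only [decide_eq_true_eq]
  rintro rfl
  exact h hx

omit [DecidableEq V] in
theorem inr_eq {i j m : ℕ} : ((Sum.inr (i, m) : V ⊕ (ℕ × ℕ)) = Sum.inr (i, j)) ↔ j = m := by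
  constructor
  · intro h
    simp only [Sum.inr.injEq, Prod.mk.injEq] at h
    exact h.2.symm
  · rintro rfl
    rfl

/-- new variables occur at most twice -/
theorem count_new_block (i j : ℕ) (c : List (Lit V)) : ∀ n : ℕ,
    (j < n → cnt ((c.zipIdx n).flatMap (fun lj => ([Sum.inr (i, lj.2), Sum.inl lj.1.2,
      Sum.inr (i, lj.2 + 1)] : List (V ⊕ (ℕ × ℕ))))) (Sum.inr (i, j)) = 0) ∧
    cnt ((c.zipIdx n).flatMap (fun lj => ([Sum.inr (i, lj.2), Sum.inl lj.1.2,
      Sum.inr (i, lj.2 + 1)] : List (V ⊕ (ℕ × ℕ))))) (Sum.inr (i, j)) +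
      (if j = n then 1 else 0) + (if j = n + c.length then 1 else 0) ≤ 2 := by
  induction c with
  | nil =>
    intro n
    refine ⟨fun _ => by simp [cnt], ?_⟩
    simp only [List.zipIdx_nil, List.flatMap_nil, cnt_nil', List.length_nil, Nat.add_zero]
    split_ifs <;> omega
  | cons l c ih =>
    intro n
    obtain ⟨ih1, ih2⟩ := ih (n + 1)
    rw [List.zipIdx_cons, List.flatMap_cons, cnt_append']
    have h1 : cnt ([Sum.inr (i, n), Sum.inl l.2, Sum.inr (i, n + 1)] : List (V ⊕ (ℕ × ℕ)))
        (Sum.inr (i, j)) = (if j = n then 1 else 0) + (if j = n + 1 then 1 else 0) := by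
      rw [cnt_cons', cnt_cons', cnt_cons', cnt_nil']
      simp only [inr_eq, reduceCtorEq, if_false]
      omega
    simp only at h1 ⊢
    rw [h1, List.length_cons]
    refine ⟨?_, ?_⟩
    · intro hj
      rw [ih1 (by omega), if_neg (by omega), if_neg (by omega)]
    · have e : n + (c.length + 1) = n + 1 + c.length := by omega
      rw [e]
      by_cases hj : j = n
      · rw [ih1 (by omega), if_pos hj, if_neg (by omega), if_neg (by omega)]
      · rw [if_neg hj]
        omega

theorem count_new_splitC (i i' j : ℕ) (c : List (Lit V)) :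
    cnt (vlist (splitC i c)) (Sum.inr (i', j)) ≤ if i = i' then 2 else 0 := by
  rw [vlist_splitC]
  split_ifs with h
  · subst h
    have h2 := (count_new_block i j c 0).2
    rw [cnt_cons', cnt_cons']
    simp only [inr_eq]
    rw [Nat.zero_add] at h2
    omega
  · rw [Nat.le_zero]
    refine cnt_zero' ?_
    intro hm
    simp only [List.mem_cons, List.mem_flatMap, List.not_mem_nil, or_false, Sum.inr.injEq,
      Prod.mk.injEq, reduceCtorEq, false_or] at hm
    rcases hm with hm | hm | ⟨lj, _, hm | hm⟩ <;> exact h hm.1.symm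

theorem split3_count_new (G : List (List (Lit V))) (i j : ℕ) :
    cnt (vlist (split3 G)) (Sum.inr (i, j)) ≤ 2 := by
  rw [vlist_split3]
  have h : ∀ n : ℕ, (i < n → cnt ((G.zipIdx n).flatMap
      (fun ci => vlist (splitC ci.2 ci.1))) (Sum.inr (i, j)) = 0) ∧
      cnt ((G.zipIdx n).flatMap (fun ci => vlist (splitC ci.2 ci.1))) (Sum.inr (i, j)) ≤ 2 := by
    induction G with
    | nil => intro n; simp [cnt]
    | cons c G ih =>
      intro n
      obtain ⟨ih1, ih2⟩ := ih (n + 1)
      rw [List.zipIdx_cons, List.flatMap_cons, cnt_append']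
      have h1 := count_new_splitC n i j c
      refine ⟨?_, ?_⟩
      · intro hi
        rw [if_neg (by omega)] at h1
        rw [ih1 (by omega)]
        simp only
        omega
      · by_cases hi : n = i
        · rw [if_pos hi] at h1
          rw [ih1 (by omega)]
          exact h1
        · rw [if_neg hi] at h1
          simp only
          omega
  exact (h 0).2

theorem split3_count_old (G : List (List (Lit V))) (v : V) :
    cnt (vlist (split3 G)) (Sum.inl v) = cnt (vlist G) v := by
  rw [vlist_split3]
  have inl_eq : ∀ w : V, ((Sum.inl w : V ⊕ (ℕ × ℕ)) = Sum.inl v) ↔ w = v := by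
    intro w
    rw [Sum.inl.injEq]
  have hb : ∀ (i : ℕ) (c : List (Lit V)) (n : ℕ), cnt ((c.zipIdx n).flatMap
      (fun lj => ([Sum.inr (i, lj.2), Sum.inl lj.1.2, Sum.inr (i, lj.2 + 1)] :
      List (V ⊕ (ℕ × ℕ))))) (Sum.inl v) = cnt (c.map Prod.snd) v := by
    intro i c
    induction c with
    | nil => intro n; simp [cnt]
    | cons l c ih =>
      intro n
      rw [List.zipIdx_cons, List.flatMap_cons, cnt_append', ih (n + 1), List.map_cons,
        cnt_cons', cnt_cons', cnt_cons', cnt_cons', cnt_nil']
      simp only [reduceCtorEq, if_false, inl_eq]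
      omega
  have h : ∀ n : ℕ, cnt ((G.zipIdx n).flatMap (fun ci => vlist (splitC ci.2 ci.1)))
      (Sum.inl v) = cnt (vlist G) v := by
    induction G with
    | nil => intro n; simp [vlist, cnt]
    | cons c G ih =>
      intro n
      rw [List.zipIdx_cons, List.flatMap_cons, cnt_append', ih (n + 1)]
      have h1 : vlist (c :: G) = c.map Prod.snd ++ vlist G := by
        unfold vlist
        simp
      rw [h1, cnt_append', vlist_splitC, cnt_cons', cnt_cons']
      simp only
      rw [hb n c 0]
      simp only [reduceCtorEq, if_false]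
      omega
  exact h 0

theorem split3_count {K : ℕ} {G : List (List (Lit V))} (hK : ∀ v, (vlist G).count v ≤ K)
    (w : V ⊕ (ℕ × ℕ)) : @List.count _ instBEqOfDecidableEq w (vlist (split3 G)) ≤ K + 2 := by
  rw [← cnt_eq]
  rcases w with v | ⟨i, j⟩
  · rw [split3_count_old, cnt_eq]
    exact (hK v).trans (Nat.le_add_right _ _)
  · exact (split3_count_new G i j).trans (Nat.le_add_left _ _)

end split

section ptime

variable {V : Type} [DecidableEq V] [SCode V] {α : Type} [SCode α]

omit [DecidableEq V] in
theorem split3_ptime {G : α → List (List (Lit V))} (hG : PTime G) :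
    PTime (fun a => split3 (G a)) := by
  unfold split3
  refine PTime.flatMap (f := fun (_ : α) (ci : List (Lit V) × ℕ) => splitC ci.2 ci.1)
    (PTime.zipIdx hG) ?_
  unfold splitC
  have h1 : PTime (fun x : α × (List (Lit V) × ℕ) => x.2.1) := PTime.fst.comp PTime.snd
  have h2 : PTime (fun x : α × (List (Lit V) × ℕ) => x.2.2) := PTime.snd.comp PTime.snd
  refine PTime.cons (PTime.cons ((PTime.const true).pair (PTime.inr (h2.pair (PTime.const 0))))
    (PTime.const [])) (PTime.cons (PTime.cons ((PTime.const false).pair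
      (PTime.inr (h2.pair (PTime.length h1)))) (PTime.const [])) ?_)
  refine PTime.map (f := fun (x : α × (List (Lit V) × ℕ)) (lj : Lit V × ℕ) => midC x.2.2 lj)
    (PTime.zipIdx h1) ?_
  unfold midC
  have g1 : PTime (fun x : (α × (List (Lit V) × ℕ)) × (Lit V × ℕ) => x.1.2.2) :=
    h2.comp PTime.fst
  have g2 : PTime (fun x : (α × (List (Lit V) × ℕ)) × (Lit V × ℕ) => x.2.2) :=
    PTime.snd.comp PTime.snd
  have g3 : PTime (fun x : (α × (List (Lit V) × ℕ)) × (Lit V × ℕ) => x.2.1) :=
    PTime.fst.comp PTime.snd
  exact PTime.cons ((PTime.const false).pair (PTime.inr (g1.pair g2)))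
    (PTime.cons ((PTime.fst.comp g3).pair (PTime.inl (PTime.snd.comp g3)))
      (PTime.cons ((PTime.const true).pair (PTime.inr (g1.pair (PTime.succ g2))))
        (PTime.const [])))

end ptime

end Pool.Agent.Lib.MP_87d05f_lc
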