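import Mathlib
import Pool.Agent.Lib.MP_87d05f_lc.GSearch
import Pool.Agent.Lib.MP_87d05f_lc.Split
import Pool.Agent.Lib.MP_87d05f_lc.SparseMain

set_option autoImplicit false

/-!
# Deterministic sparsification for clauses of any width
-/

namespace Pool.Agent.Lib.MP_87d05f_lc

open Pool.Agent.PolyTime Function Turing

/-! ### Numbers -/

theorem exists_Tg {A κ b N s : ℕ} (hb : 0 < b) (hN : 0 < N) (hNe : N = A * b) (hκ : κ = N * s)
    (hs : 2 * N ≤ 2 ^ s) : ∃ T : ℕ → ℕ, (∀ m, 1 ≤ T m) ∧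
      (∀ m m₁ m₂, m₁ + 1 ≤ m → m₂ + κ ≤ m → 1 + T m₁ + T m₂ ≤ T m) ∧
      ∀ n m, m ≤ A * n → T m ≤ 4 * 2 ^ (n / b) := by
  obtain ⟨μ, hμ0, hμ1, hμN, hsum⟩ := exists_mu N s hN hs
  rw [← hκ] at hsum
  have hl1 : 1 ≤ μ⁻¹ := (one_le_inv₀ hμ0).2 hμ1
  have hfl : ∀ m : ℕ, 2 ≤ ⌊2 * (μ⁻¹) ^ m⌋₊ := by
    intro m
    rw [Nat.le_floor_iff (by positivity)]
    have := one_le_pow₀ (n := m) hl1
    push_cast
    linarith
  refine ⟨fun m => ⌊2 * (μ⁻¹) ^ m⌋₊ - 1, ?_, ?_, ?_⟩
  · intro m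
    have := hfl m
    change 1 ≤ ⌊2 * (μ⁻¹) ^ m⌋₊ - 1
    omega
  · intro m m₁ m₂ h1 h2
    have f1 := hfl m₁
    have f2 := hfl m₂
    have key : ⌊2 * (μ⁻¹) ^ m₁⌋₊ + ⌊2 * (μ⁻¹) ^ m₂⌋₊ ≤ ⌊2 * (μ⁻¹) ^ m⌋₊ := by
      rw [Nat.le_floor_iff (by positivity)]
      push_cast
      have g1 : (⌊2 * (μ⁻¹) ^ m₁⌋₊ : ℝ) ≤ 2 * (μ⁻¹) ^ m₁ := Nat.floor_le (by positivity)
      have g2 : (⌊2 * (μ⁻¹) ^ m₂⌋₊ : ℝ) ≤ 2 * (μ⁻¹) ^ m₂ := Nat.floor_le (by positivity)
      have e1 : (μ⁻¹) ^ m₁ ≤ (μ⁻¹) ^ m * μ := by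
        have : (μ⁻¹) ^ (m₁ + 1) ≤ (μ⁻¹) ^ m := pow_le_pow_right₀ hl1 h1
        calc (μ⁻¹) ^ m₁ = (μ⁻¹) ^ (m₁ + 1) * μ := by
              rw [pow_succ, mul_assoc, inv_mul_cancel₀ hμ0.ne', mul_one]
          _ ≤ (μ⁻¹) ^ m * μ := mul_le_mul_of_nonneg_right this hμ0.le
      have e2 : (μ⁻¹) ^ m₂ ≤ (μ⁻¹) ^ m * μ ^ κ := by
        have : (μ⁻¹) ^ (m₂ + κ) ≤ (μ⁻¹) ^ m := pow_le_pow_right₀ hl1 h2
        calc (μ⁻¹) ^ m₂ = (μ⁻¹) ^ (m₂ + κ) * μ ^ κ := by
              rw [pow_add, mul_assoc, ← mul_pow, inv_mul_cancel₀ hμ0.ne', one_pow, mul_one]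
          _ ≤ (μ⁻¹) ^ m * μ ^ κ := mul_le_mul_of_nonneg_right this (by positivity)
      have e3 : (μ⁻¹) ^ m * (μ + μ ^ κ) ≤ (μ⁻¹) ^ m * 1 :=
        mul_le_mul_of_nonneg_left hsum (by positivity)
      linarith
    change 1 + (⌊2 * (μ⁻¹) ^ m₁⌋₊ - 1) + (⌊2 * (μ⁻¹) ^ m₂⌋₊ - 1) ≤ ⌊2 * (μ⁻¹) ^ m⌋₊ - 1
    omega
  · intro n m hm
    have h1 : n < b * (n / b) + b := by
      have := Nat.div_add_mod n b
      have := Nat.mod_lt n hb
      omega
    have h2 : m ≤ N * (n / b + 1) := by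
      have : A * n ≤ A * (b * (n / b) + b) := Nat.mul_le_mul_left _ h1.le
      rw [hNe]
      nlinarith
    have h3 : (μ⁻¹) ^ m ≤ 2 ^ (n / b + 1) := by
      calc (μ⁻¹) ^ m ≤ (μ⁻¹) ^ (N * (n / b + 1)) := pow_le_pow_right₀ hl1 h2
        _ = 2 ^ (n / b + 1) := by
          rw [pow_mul, inv_pow, hμN]
          norm_num
    have h4 : (⌊2 * (μ⁻¹) ^ m⌋₊ : ℝ) ≤ 4 * 2 ^ (n / b) := by
      refine le_trans (Nat.floor_le (by positivity)) ?_
      rw [pow_succ] at h3
      linarith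
    have h5 : ⌊2 * (μ⁻¹) ^ m⌋₊ ≤ 4 * 2 ^ (n / b) := by exact_mod_cast h4
    exact (Nat.sub_le _ _).trans h5

theorem exists_exp (c d : ℕ) : ∃ s : ℕ, 1 ≤ s ∧ c * s ^ d ≤ 2 ^ s := by
  obtain ⟨t, ht⟩ : ∃ t, t = c + 2 * d := ⟨_, rfl⟩
  refine ⟨2 ^ (2 * t), Nat.one_le_two_pow, ?_⟩
  have h1 : c ≤ 2 ^ c := Nat.lt_two_pow_self.le
  have h2 : t + 1 ≤ 2 ^ t := Nat.lt_two_pow_self
  have h3 : (t + 1) * (t + 1) ≤ 2 ^ (2 * t) := by
    rw [two_mul, pow_add]
    exact Nat.mul_le_mul h2 h2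
  have h4 : c + 2 * t * d ≤ 2 ^ (2 * t) := by
    refine le_trans ?_ h3
    nlinarith
  calc c * (2 ^ (2 * t)) ^ d ≤ 2 ^ c * (2 ^ (2 * t)) ^ d := Nat.mul_le_mul_right _ h1
    _ = 2 ^ (c + 2 * t * d) := by rw [← pow_mul, ← pow_add]
    _ ≤ 2 ^ 2 ^ (2 * t) := Nat.pow_le_pow_right (by norm_num) h4

theorem exists_TK (k b : ℕ) (hk : 2 ≤ k) (hb : 0 < b) :
    ∃ (M : ℕ) (T : ℕ → ℕ), 1 ≤ M ∧ (∀ m, 1 ≤ T m) ∧
      (∀ m m₁ m₂, m₁ + 1 ≤ m → m₂ + M ^ (k - 1) ≤ m → 1 + T m₁ + T m₂ ≤ T m) ∧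
      ∀ n m, m ≤ 2 * 3 ^ (k - 1) * M ^ (k - 2) * n → T m ≤ 4 * 2 ^ (n / b) := by
  obtain ⟨s, hs1, hs⟩ := exists_exp (2 * (2 * 3 ^ (k - 1) * (2 * 3 ^ (k - 1) * b) ^ (k - 2) * b))
    (k - 2)
  obtain ⟨M, hM⟩ : ∃ M, M = 2 * 3 ^ (k - 1) * b * s := ⟨_, rfl⟩
  have hMpos : 0 < M := by rw [hM]; positivity
  have h1 : M ^ (k - 1) = 2 * 3 ^ (k - 1) * M ^ (k - 2) * b * s := by
    have : k - 1 = (k - 2) + 1 := by omega
    conv_lhs => rw [this, pow_succ]
    conv_lhs => rw [mul_comm]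
    conv_lhs => enter [1]; rw [hM]
    ring
  have h2 : 2 * (2 * 3 ^ (k - 1) * M ^ (k - 2) * b) ≤ 2 ^ s := by
    refine le_trans (le_of_eq ?_) hs
    rw [hM, mul_pow (2 * 3 ^ (k - 1) * b) s]
    ring
  obtain ⟨T, hT1, hT2, hT3⟩ := exists_Tg (A := 2 * 3 ^ (k - 1) * M ^ (k - 2))
    (κ := M ^ (k - 1)) (N := 2 * 3 ^ (k - 1) * M ^ (k - 2) * b) (s := s) hb (by positivity) rfl
    h1 h2
  exact ⟨M, T, hMpos, hT1, hT2, hT3⟩

/-! ### Semantics at the end -/

/-- separators for the `k`-CNF formulas of a class -/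
def SepK (k : ℕ) (Q : List (List (Bool × ℕ)) → Prop) (ε : ℚ) (b : ℕ) : Prop :=
  ∃ C e : ℕ, ∃ (tm : FinTM2) (e₀ : tm.Γ tm.k₀ ≃ Bool) (acc rej : List (tm.Γ tm.k₁)), acc ≠ rej ∧
    ∀ F : List (List (Bool × ℕ)), F ≠ [] → (∀ c ∈ F, c.length ≤ k) → Q F →
      ((∃ a : ℕ → Bool, ∀ c ∈ F, ∃ l ∈ c, a l.2 = l.1) →
        Nonempty (TM2OutputsInTime tm ((encF F).map e₀.symm) (some acc)
          (C * ((encF F).length + 1) ^ e * 2 ^ (nvars F / b)))) ∧
      ((∀ a : ℕ → Bool, ε * (F.length : ℚ) ≤ ((F.countP (falsB a) : ℕ) : ℚ)) →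
        Nonempty (TM2OutputsInTime tm ((encF F).map e₀.symm) (some rej)
          (C * ((encF F).length + 1) ^ e * 2 ^ (nvars F / b))))

section fin

variable {C d b' : ℕ} {tm : FinTM2} {e₀ : tm.Γ tm.k₀ ≃ Bool} {acc rej : List (tm.Γ tm.k₁)}

/-- the formula given to the separator -/
def endF (G : BF') : BF' := occ3 (split3 G)

/-- the query -/
def qfK (C d b' : ℕ) (G : BF') : Qry :=
  (encG (endF G), (C * ((encG (endF G)).length + 1) ^ d, mydiv (vlist (split3 G)).length b'))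

theorem endF_canon (G : BF') : Canon (endF G) := occ3_canon _

theorem qfK_ptime (C d b' : ℕ) : PTime (qfK C d b') := by
  unfold qfK endF
  have h0 : PTime (fun G : BF' => split3 G) := split3_ptime PTime.id
  have h := encG_ptime (occ3_ptime h0)
  exact h.pair (PTime.pair (PTime.mul (PTime.const C)
    (PTime.natPow_const (PTime.succ (PTime.length h)) d))
    (mydiv_ptime (PTime.length (vlist_ptime h0)) (PTime.const b')))

theorem occ_endF (G : BF') : Occ (numG (endF G)) := by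
  have hc := endF_canon G
  refine ⟨?_, fun v => ?_⟩
  · intro h
    have h1 : [] ∈ binF (numG (endF G)) := List.mem_map.2 ⟨[], h, rfl⟩
    rw [binF_numG hc] at h1
    unfold endF occ3 at h1
    rcases List.mem_append.1 h1 with h1 | h1
    · obtain ⟨⟨x, i⟩, hd, he⟩ := List.mem_map.1 h1
      unfold renC at he
      simp only [List.map_eq_nil_iff, List.zipIdx_eq_nil_iff] at he
      rw [he] at hd
      exact (split3_clause (List.mem_of_getElem? (List.mem_zipIdx_iff_getElem?.1 hd))).1 rfl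
    · obtain ⟨v, _, h1⟩ := List.mem_flatMap.1 h1
      obtain ⟨p, hp, h1⟩ := List.mem_map.1 h1
      simp at h1
  · have h1 := numG_count hc v
    have h2 := occ3_count (split3 G) (Nat.bits v)
    exact h1.trans h2

theorem clause_endF (G : BF') : ∀ c ∈ numG (endF G), c.length ≤ 3 := by
  intro c hc
  obtain ⟨d, hd, rfl⟩ := List.mem_map.1 hc
  rw [List.length_map]
  exact occ3_clause_length (fun c hc => (split3_clause hc).2) d hd

theorem endF_ne {G : BF'} (h : G ≠ []) : numG (endF G) ≠ [] := by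
  intro h'
  have h1 := numG_length (endF G)
  have h2 := occ3_length_ge (split3 G)
  rw [h'] at h1
  simp only [List.length_nil] at h1
  unfold endF at h1
  have : (split3 G).length = 0 := by omega
  exact split3_ne h (List.length_eq_zero_iff.1 this)

theorem qtimeK {G : BF'} (hb' : 0 < b') :
    C * ((encF (numG (endF G))).length + 1) ^ d * 2 ^ (nvars (numG (endF G)) / b') ≤
      C * ((encG (endF G)).length + 1) ^ d * 2 ^ (mydiv (vlist (split3 G)).length b') := by
  have hc := endF_canon G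
  rw [encF_numG hc, nvars_numG hc, mydiv_eq hb']
  refine Nat.mul_le_mul_left _ (Nat.pow_le_pow_right (by norm_num) ?_)
  exact Nat.div_le_div_right (by rw [nvars_eq]; exact occ3_nvars (split3 G))

theorem gfin_yes {ν : Type} (hb' : 0 < b')
    (hS : ∀ F : List (List (Bool × ℕ)), F ≠ [] → (∀ c ∈ F, c.length ≤ 3) → Occ F →
      (∃ a : ℕ → Bool, ∀ c ∈ F, ∃ l ∈ c, a l.2 = l.1) →
        Nonempty (TM2OutputsInTime tm ((encF F).map e₀.symm) (some acc)
          (C * ((encF F).length + 1) ^ d * 2 ^ (nvars F / b'))))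
    {a : List Bool → Bool} {G : BF'} (hG : ∀ c ∈ G, ∃ l ∈ c, tr a l) :
    (gfinA (qfK C d b') tm e₀ acc G : Bool ⊕ (NdG ν × NdG ν)) = Sum.inl true := by
  have h0 : [] ∉ G := by
    intro h
    obtain ⟨l, hl, _⟩ := hG _ h
    simp at hl
  unfold gfinA gfin
  rw [decide_eq_false h0]
  rcases hGe : G.isEmpty with _ | _
  · have hne : G ≠ [] := by
      rintro rfl
      simp at hGe
    simp only [cond_false, Sum.elim_inl, Sum.elim_inr]
    have hc := endF_canon G
    obtain ⟨a1, ha1⟩ := split3_sat hG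
    obtain ⟨a', ha'⟩ := occ3_sat ha1
    have h := hS (numG (endF G)) (endF_ne hne) (clause_endF G) (occ_endF G)
      (numG_sat hc ha')
    have h' := outputs_mono (qtimeK (C := C) (d := d) (G := G) hb') h
    rw [encF_numG hc] at h'
    have h2 := (ansT_of_outputs tm e₀ acc acc (qfK C d b' G) h').2 rfl
    rw [h2]
  · rfl

theorem gfin_no {ν : Type} {k p q K : ℕ} (hq : 0 < q) (hb' : 0 < b') (hne : acc ≠ rej)
    (hS : ∀ F : List (List (Bool × ℕ)), F ≠ [] → (∀ c ∈ F, c.length ≤ 3) → Occ F →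
      (∀ a : ℕ → Bool, ((p : ℚ) / (8 * q * (k + 2) * (K + 3) : ℕ)) * (F.length : ℚ) ≤
        ((F.countP (falsB a) : ℕ) : ℚ)) →
        Nonempty (TM2OutputsInTime tm ((encF F).map e₀.symm) (some rej)
          (C * ((encF F).length + 1) ^ d * 2 ^ (nvars F / b'))))
    {G : BF'} (h3 : ∀ c ∈ G, c.length ≤ k)
    (hK : ∀ v, @List.count _ instBEqOfDecidableEq v (vlist G) ≤ K)
    (hG : ∀ a, p * G.length ≤ 2 * q * G.countP (falsB a) ∧ 0 < G.countP (falsB a)) :
    (gfinA (qfK C d b') tm e₀ acc G : Bool ⊕ (NdG ν × NdG ν)) = Sum.inl false := by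
  unfold gfinA gfin
  by_cases h0 : [] ∈ G
  · rw [decide_eq_true h0]
    rfl
  · rw [decide_eq_false h0]
    rcases hGe : G.isEmpty with _ | _
    · have hGne : G ≠ [] := by
        rintro rfl
        simp at hGe
      simp only [cond_false, Sum.elim_inl, Sum.elim_inr]
      have hc := endF_canon G
      have hq8 : 0 < 8 * q * (k + 2) * (K + 3) := by positivity
      have hcount := split3_count hK
      have h := hS (numG (endF G)) (endF_ne hGne) (clause_endF G) (occ_endF G) (by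
        intro a
        rw [frac_iff hq8, numG_length, numG_fals]
        set a' : List Bool → Bool := fun w => a (unbits w) with ha'
        have g1 := occ3_fals hcount a'
        set a2 := backA (split3 G) a' with ha2
        have g0 := split3_fals G a2
        have g2 := (hG (fun v => a2 (Sum.inl v))).1
        have g3 := occ3_length (G := split3 G) (fun c hc => (split3_clause hc).2)
        have g4 := split3_length h3
        have g5 : (occ3 (split3 G)).length ≤ 4 * ((k + 2) * G.length) :=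
          g3.trans (Nat.mul_le_mul_left _ g4)
        change p * (occ3 (split3 G)).length ≤ 8 * q * (k + 2) * (K + 3) *
          (occ3 (split3 G)).countP (falsB a')
        calc p * (occ3 (split3 G)).length ≤ p * (4 * ((k + 2) * G.length)) :=
              Nat.mul_le_mul_left _ g5
          _ = 4 * (k + 2) * (p * G.length) := by ring
          _ ≤ 4 * (k + 2) * (2 * q * G.countP (falsB (fun v => a2 (Sum.inl v)))) :=
              Nat.mul_le_mul_left _ g2
          _ = 8 * q * (k + 2) * G.countP (falsB (fun v => a2 (Sum.inl v))) := by ring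
          _ ≤ 8 * q * (k + 2) * ((K + 2 + 1) * (occ3 (split3 G)).countP (falsB a')) :=
              Nat.mul_le_mul_left _ (g0.trans g1)
          _ = _ := by ring)
      have h' := outputs_mono (qtimeK (C := C) (d := d) (G := G) hb') h
      rw [encF_numG hc] at h'
      have h2 := ansT_of_outputs tm e₀ acc rej (qfK C d b' G) h'
      rcases h4 : ansT tm e₀ acc (qfK C d b' G) with _ | _
      · rfl
      · exact absurd (h2.1 h4).symm hne
    · exfalso
      have h1 : G = [] := List.isEmpty_iff.1 hGe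
      have := (hG (fun _ => true)).2
      rw [h1] at this
      simp at this

end fin


theorem vlist_length_le_k {V : Type} {k : ℕ} {G : List (List (Lit V))}
    (h : ∀ c ∈ G, c.length ≤ k) : (vlist G).length ≤ k * G.length := by
  unfold vlist
  rw [List.length_map, List.length_flatten]
  induction G with
  | nil => simp
  | cons c G ih =>
    have h1 := ih (fun d hd => h d (List.mem_cons_of_mem _ hd))
    have h2 := h c List.mem_cons_self
    rw [List.map_cons, List.sum_cons, List.length_cons, Nat.mul_add]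
    omega

theorem length_le_vlist {V : Type} {G : List (List (Lit V))} (h : [] ∉ G) :
    G.length ≤ (vlist G).length := by
  unfold vlist
  rw [List.length_map, List.length_flatten]
  induction G with
  | nil => simp
  | cons c G ih =>
    rw [List.mem_cons, not_or] at h
    have h1 := ih h.2
    have h2 : 0 < c.length := List.length_pos_iff.2 (Ne.symm h.1)
    rw [List.map_cons, List.sum_cons, List.length_cons]
    omega

theorem kok_nil (k M : ℕ) {V : Type} [DecidableEq V] (e : KEnv V) : KOk k M e [] := by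
  refine ⟨List.nodup_nil, by simp, ⟨?_, ?_, ?_, ?_, ?_⟩⟩
  · intro S hS; simp [toF] at hS
  · intro S hS; simp [toF] at hS
  · intro S hS; simp [toF] at hS
  · intro S hS; simp [toF] at hS
  · intro H _ j _
    simp [toF, dgk]

/-- the initial state -/
def initK (x : List Bool) : KEnv (List Bool) × NdG (KNd (List Bool)) :=
  (mkK (parse x), Sum.inl [])

/-- the leaf function -/
def lfK (p q K1 K2 : ℕ) (e : KEnv (List Bool)) (s : KNd (List Bool)) :
    BF' × List (List Bool) := (ksparse p q K1 e s, high K2 (ksparse p q K1 e s))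

/-- a formula with an empty clause -/
def badK (e : KEnv (List Bool)) : Bool := decide (([] : List (Lit (List Bool))) ∈ e.1)

theorem ksparse_main (k p q b : ℕ) (hk : 2 ≤ k) (hp : 0 < p) (hq : 0 < q) (hb : 0 < b) :
    ∃ K b' : ℕ, 0 < b' ∧ (SepK 3 Occ ((p : ℚ) / (8 * q * (k + 2) * (K + 3) : ℕ)) b' →
      SepK k (fun _ => True) ((p : ℚ) / (q : ℚ)) b) := by
  obtain ⟨M, T, hM, hT1, hT2, hT3⟩ := exists_TK k (4 * b) hk (by positivity)
  obtain ⟨K1, hK1⟩ : ∃ K1, K1 = k * M ^ (k - 1) := ⟨_, rfl⟩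
  have hMpow : 1 ≤ M ^ (k - 1) := Nat.one_le_pow _ _ hM
  have hK1pos : 1 ≤ K1 := by
    rw [hK1]
    exact Nat.mul_pos (by omega) hMpow
  obtain ⟨M3, hM3⟩ : ∃ M3, M3 = 8 * k * q * K1 := ⟨_, rfl⟩
  have hM3pos : 0 < M3 := by
    rw [hM3]
    have : 0 < k := by omega
    positivity
  obtain ⟨K2, hK2⟩ : ∃ K2, K2 = M3 * (4 * b) := ⟨_, rfl⟩
  have hK2pos : 0 < K2 := by rw [hK2]; positivity
  have h5K2 : 0 < 5 * K2 := by positivity
  refine ⟨K2, 5 * K2, h5K2, ?_⟩
  rintro ⟨C, d, tm, e₀, acc, rej, hne, hS⟩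
  have hYes := fun F h1 h2 h3 => (hS F h1 h2 h3).1
  have hNo := fun F h1 h2 h3 => (hS F h1 h2 h3).2
  have hinit : PTime initK := (mkK_ptime parse_ptime).pair (PTime.const _)
  have hsp : PTime (fun y : KEnv (List Bool) × KNd (List Bool) => ksparse p q K1 y.1 y.2) :=
    ksparse_ptime p q K1 PTime.fst PTime.snd
  have hhi : PTime (fun y : KEnv (List Bool) × KNd (List Bool) =>
      high K2 (ksparse p q K1 y.1 y.2)) := high_ptime K2 hsp
  have hbad : PTime badK := mem_ptime (PTime.const []) PTime.fst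
  have hgexp : PTime (fun x : KEnv (List Bool) × NdG (KNd (List Bool)) =>
      gexp badK (fun e s => krc M e s k) (lfK p q K1 K2) (qfK C d (5 * K2)) x.1 x.2) :=
    gexp_ptime _ _ _ _ hbad (krc_ptime M k PTime.fst PTime.snd) (hsp.pair hhi)
      (qfK_ptime C d (5 * K2))
  obtain ⟨tm', e₀', acc', rej', P, κ, hne', h⟩ := oracle_search tm e₀ acc hinit hgexp
  -- size polynomials
  obtain ⟨P1, hP1⟩ := (mkK_ptime parse_ptime).sz_le
  obtain ⟨P2, hP2⟩ := hsp.sz_le
  obtain ⟨P3, hP3⟩ := hhi.sz_le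
  have hen : PTime (fun G : BF' => encG (endF G)) := by
    unfold endF
    exact encG_ptime (occ3_ptime (split3_ptime PTime.id))
  obtain ⟨P4, hP4⟩ := hen.sz_le
  -- the bounds as functions of the length
  obtain ⟨fE, hfE⟩ : ∃ f : ℕ → ℕ, f = fun L => P1.eval (4 * L + 1) := ⟨_, rfl⟩
  have pE : PolyB fE := by
    rw [hfE]
    exact PolyB.eval P1 (((PolyB.const 4).mul PolyB.id).add (PolyB.const 1))
  obtain ⟨fN, hfN⟩ : ∃ f : ℕ → ℕ, f = fun L =>
    3 ^ (k - 1) * M ^ (k - 2) * fE L * (fE L + 1) + 1 := ⟨_, rfl⟩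
  have pN : PolyB fN := by
    rw [hfN]
    exact (((PolyB.const (3 ^ (k - 1) * M ^ (k - 2))).mul pE).mul
      (pE.add (PolyB.const 1))).add (PolyB.const 1)
  obtain ⟨fE1, hfE1⟩ : ∃ f : ℕ → ℕ, f = fun L => P2.eval (fE L + fN L + 1) +
    P3.eval (fE L + fN L + 1) := ⟨_, rfl⟩
  have pE1 : PolyB fE1 := by
    rw [hfE1]
    exact (PolyB.eval P2 ((pE.add pN).add (PolyB.const 1))).add
      (PolyB.eval P3 ((pE.add pN).add (PolyB.const 1)))
  obtain ⟨fB, hfB⟩ : ∃ f : ℕ → ℕ, f = fun L => fE L + fN L + 2 * fE1 L + 7 := ⟨_, rfl⟩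
  have pB : PolyB fB := by
    rw [hfB]
    exact ((pE.add pN).add ((PolyB.const 2).mul pE1)).add (PolyB.const 7)
  obtain ⟨fD, hfD⟩ : ∃ f : ℕ → ℕ, f = fun L => 2 * 3 ^ (k - 1) * M ^ (k - 2) * L + L := ⟨_, rfl⟩
  have pD : PolyB fD := by
    rw [hfD]
    exact ((PolyB.const (2 * 3 ^ (k - 1) * M ^ (k - 2))).mul PolyB.id).add PolyB.id
  obtain ⟨fQ, hfQ⟩ : ∃ f : ℕ → ℕ, f = fun L => P4.eval (fE1 L) := ⟨_, rfl⟩
  have pQ : PolyB fQ := by
    rw [hfQ]
    exact PolyB.eval P4 pE1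
  obtain ⟨fR, hfR⟩ : ∃ f : ℕ → ℕ, f = fun L => (fQ L + 1) +
    (C * (fQ L + 1) ^ d + 1) * (L + 1) := ⟨_, rfl⟩
  have pR : PolyB fR := by
    rw [hfR]
    exact (pQ.add (PolyB.const 1)).add ((((PolyB.const C).mul
      ((pQ.add (PolyB.const 1)).pow d)).add (PolyB.const 1)).mul (PolyB.id.add (PolyB.const 1)))
  obtain ⟨C', k', hC'⟩ : PolyB (fun L => P.eval L + 16 * (P.eval (fB L + ((fD L + 1) *
      (fB L + 1) + 6)) + κ * (fR L + 2))) :=
    (PolyB.eval P PolyB.id).add ((PolyB.const 16).mul ((PolyB.eval P (pB.add (((pD.add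
      (PolyB.const 1)).mul (pB.add (PolyB.const 1))).add (PolyB.const 6)))).add
      ((PolyB.const κ).mul (pR.add (PolyB.const 2)))))
  refine ⟨C', k', tm', e₀', acc', rej', hne', ?_⟩
  intro F hF hF3 _
  obtain ⟨x, hx⟩ : ∃ x, x = encF F := ⟨_, rfl⟩
  obtain ⟨L, hL⟩ : ∃ L, L = x.length := ⟨_, rfl⟩
  obtain ⟨n, hn⟩ : ∃ n, n = nvars F := ⟨_, rfl⟩
  obtain ⟨e, he⟩ : ∃ e, e = mkK (binF F) := ⟨_, rfl⟩
  have hnL : n ≤ L := by
    rw [hn, hL, hx]
    exact nvars_le_length F
  have hcl : parse x = binF F := by rw [hx]; exact parse_encF F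
  have hi1 : (initK x).1 = e := by
    change mkK (parse x) = _
    rw [hcl, he]
  have hi2 : (initK x).2 = Sum.inl [] := rfl
  have hwid : ∀ c ∈ binF F, c.length ≤ k := by
    intro c hc
    obtain ⟨c', hc', rfl⟩ := List.mem_map.1 hc
    rw [List.length_map]
    exact hF3 c' hc'
  have hWF : badK e = false → KWF k e := by
    intro hb0
    unfold badK at hb0
    rw [decide_eq_false_iff_not] at hb0
    rw [he] at hb0 ⊢
    exact mkK_wf hwid hb0
  have hnd : e.2.Nodup := by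
    rw [he]
    exact nodup_ded _
  have hlits : e.2.length ≤ 2 * n := by
    rw [he, hn, ← nvars_binF]
    exact mkK_lits (binF F)
  have hszE : sz e ≤ fE L := by
    rw [he, ← hcl, hfE]
    refine (hP1 x).trans (eval_mono P1 ?_)
    rw [hL]
    exact sz_listBool_le x
  have hszN : ∀ s : KNd (List Bool), KOk k M e s → sz s ≤ fN L := by
    intro s hs
    rw [hfN]
    exact sz_knode_le hk hM hnd hs (fE L) hszE
  have hpot : KPot k M e [] ≤ 2 * 3 ^ (k - 1) * M ^ (k - 2) * n := by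
    unfold KPot
    refine (Nat.sub_le _ _).trans ?_
    have := Nat.mul_le_mul_left (3 ^ (k - 1) * M ^ (k - 2)) hlits
    nlinarith
  have hru : badK e = false → ∀ s, KOk k M e s → krc M e s k = none ∨
      ∃ l r, krc M e s k = some (l, r) ∧ KOk k M e l ∧ KOk k M e r ∧
        KPot k M e l + 1 ≤ KPot k M e s ∧ KPot k M e r + M ^ (k - 1) ≤ KPot k M e s := by
    intro hb0 s hs
    rcases krc_ok hk hM (hWF hb0) hs with h | h
    · exact Or.inl h.1
    · exact Or.inr h
  have hnone : badK e = false → ∀ s, KOk k M e s → krc M e s k = none →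
      (ded (e.1.map (fun c => ktcl s c))).length ≤ K1 * e.2.length := by
    intro hb0 s hs hr
    rcases krc_ok hk hM (hWF hb0) hs with h | ⟨l, r, h, _⟩
    · rw [hK1]
      exact ktypes_le hM (hWF hb0) hs h.2
    · rw [h] at hr
      simp at hr
  obtain ⟨h4, hh4⟩ : ∃ h4, h4 = n / (4 * b) := ⟨_, rfl⟩
  have hh4n : h4 ≤ n := by rw [hh4]; exact Nat.div_le_self _ _
  have hspk : badK e = false → ∀ s, KOk k M e s → ∀ c ∈ ksparse p q K1 e s, c.length ≤ k := by
    intro hb0 s hs c hc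
    obtain ⟨c', hc', rfl⟩ := List.mem_map.1 (spr_mem hc)
    exact ktcl_length (hWF hb0) hs hc'
  have hleaf : badK e = false → ∀ s, KOk k M e s → krc M e s k = none →
      sz (lfK p q K1 K2 e s).1 ≤ fE1 L ∧ sz (lfK p q K1 K2 e s).2 ≤ fE1 L ∧
      (vlist (lfK p q K1 K2 e s).1).length ≤ M3 * n ∧
      (lfK p q K1 K2 e s).2.length ≤ h4 := by
    intro hb0 s hs hr
    change sz (ksparse p q K1 e s) ≤ fE1 L ∧ sz (high K2 (ksparse p q K1 e s)) ≤ fE1 L ∧
      (vlist (ksparse p q K1 e s)).length ≤ M3 * n ∧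
      (high K2 (ksparse p q K1 e s)).length ≤ h4
    have g0 : sz (e, s) ≤ fE L + fN L + 1 := by
      have := hszN s hs
      rw [sz_pair]
      omega
    have g1 : sz (ksparse p q K1 e s) ≤ P2.eval (fE L + fN L + 1) :=
      (hP2 (e, s)).trans (eval_mono P2 g0)
    have g2 : sz (high K2 (ksparse p q K1 e s)) ≤ P3.eval (fE L + fN L + 1) :=
      (hP3 (e, s)).trans (eval_mono P3 g0)
    have g3 := hnone hb0 s hs hr
    have g4 : (ksparse p q K1 e s).length ≤ 4 * q * K1 * e.2.length :=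
      spr_size hp hq hK1pos g3
    have g5 : (vlist (ksparse p q K1 e s)).length ≤ k * (ksparse p q K1 e s).length :=
      vlist_length_le_k (hspk hb0 s hs)
    have g6 : (vlist (ksparse p q K1 e s)).length ≤ M3 * n := by
      have e1 := Nat.mul_le_mul_left (4 * q * K1) hlits
      have e2 := Nat.mul_le_mul_left k (g4.trans e1)
      rw [hM3]
      refine g5.trans (e2.trans (le_of_eq ?_))
      ring
    refine ⟨?_, ?_, g6, ?_⟩
    · rw [hfE1]
      exact g1.trans (Nat.le_add_right _ _)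
    · rw [hfE1]
      exact g2.trans (Nat.le_add_left _ _)
    · have g7 := (high_length K2 (ksparse p q K1 e s)).trans g6
      rw [hK2, Nat.mul_assoc] at g7
      have g8 := Nat.le_of_mul_le_mul_left g7 hM3pos
      rw [hh4, Nat.le_div_iff_mul_le (by positivity)]
      rw [← hK2] at g8
      rw [Nat.mul_comm]
      exact g8
  -- the invariant holds at the root and bounds the sizes
  have hszI : ∀ t : NdG (KNd (List Bool)), GInv (KOk k M e) (fE1 L) (M3 * n) h4 t →
      sz t ≤ fB L := by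
    intro t ht
    rw [hfB]
    rcases t with s | ⟨G, vs⟩
    · have := hszN s ht
      rw [sz_inl]
      change sz s + 2 ≤ fE L + fN L + 2 * fE1 L + 7
      omega
    · obtain ⟨g1, g2, _, _⟩ := ht
      rw [sz_inr, sz_pair]
      change sz G + sz vs + 1 + 4 ≤ fE L + fN L + 2 * fE1 L + 7
      change sz G ≤ _ at g1
      change sz vs ≤ _ at g2
      omega
  have hszB : sz e ≤ fB L := by
    rw [hfB]
    change sz e ≤ fE L + fN L + 2 * fE1 L + 7
    omega
  have hroot : GInv (KOk k M e) (fE1 L) (M3 * n) h4 (Sum.inl []) := kok_nil k M e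
  -- the cost of the queries
  have hcost : ∀ (t : NdG (KNd (List Bool))) (y : Qry), GInv (KOk k M e) (fE1 L) (M3 * n) h4 t →
      gexp badK (fun e s => krc M e s k) (lfK p q K1 K2) (qfK C d (5 * K2)) e t =
        Sum.inl (Sum.inr y) → qcost y ≤ fR L * 2 ^ h4 := by
    intro t y ht hy
    obtain ⟨G, g1, g2, g0, rfl⟩ := gquery_of badK (fun e s => krc M e s k) (lfK p q K1 K2)
      (qfK C d (5 * K2)) (KOk k M e) hleaf t ht y hy
    have g3 : (encG (endF G)).length ≤ fQ L := by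
      have e1 := length_le_sz (encG (endF G))
      have e2 := (hP4 G).trans (eval_mono P4 g1)
      rw [hfQ]
      change (encG (endF G)).length ≤ P4.eval (fE1 L)
      omega
    have g4 : mydiv (vlist (split3 G)).length (5 * K2) ≤ h4 := by
      rw [mydiv_eq h5K2, hh4]
      have e1 := vlist_split3_length G
      have e2 := length_le_vlist g0
      have e3 : (vlist (split3 G)).length ≤ 5 * (M3 * n) := by omega
      refine (Nat.div_le_div_right e3).trans ?_
      rw [Nat.mul_div_mul_left _ _ (by norm_num), hK2, Nat.mul_div_mul_left _ _ hM3pos]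
    unfold qcost qfK
    simp only
    rw [hfR]
    change (encG (endF G)).length + 1 + (C * ((encG (endF G)).length + 1) ^ d + 1) *
      (2 ^ mydiv (vlist (split3 G)).length (5 * K2) *
        (mydiv (vlist (split3 G)).length (5 * K2) + 1)) ≤
      ((fQ L + 1) + (C * (fQ L + 1) ^ d + 1) * (L + 1)) * 2 ^ h4
    have g5 : C * ((encG (endF G)).length + 1) ^ d + 1 ≤ C * (fQ L + 1) ^ d + 1 :=
      Nat.add_le_add_right (Nat.mul_le_mul_left _ (Nat.pow_le_pow_left (by omega) _)) 1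
    have g6 : 2 ^ mydiv (vlist (split3 G)).length (5 * K2) ≤ 2 ^ h4 :=
      Nat.pow_le_pow_right (by norm_num) g4
    have g7 : 2 ^ mydiv (vlist (split3 G)).length (5 * K2) *
        (mydiv (vlist (split3 G)).length (5 * K2) + 1) ≤ 2 ^ h4 * (L + 1) :=
      Nat.mul_le_mul g6 (by omega)
    have g8 := Nat.mul_le_mul g5 g7
    have g9 : (fQ L + 1) * 1 ≤ (fQ L + 1) * 2 ^ h4 :=
      Nat.mul_le_mul_left _ Nat.one_le_two_pow
    have g10 : ((fQ L + 1) + (C * (fQ L + 1) ^ d + 1) * (L + 1)) * 2 ^ h4 =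
        (fQ L + 1) * 2 ^ h4 + (C * (fQ L + 1) ^ d + 1) * (2 ^ h4 * (L + 1)) := by ring
    rw [g10]
    omega
  -- the total time
  have hdep : GDep (KPot k M e) h4 (Sum.inl []) ≤ fD L := by
    change KPot k M e [] + h4 ≤ fD L
    rw [hfD]
    change KPot k M e [] + h4 ≤ 2 * 3 ^ (k - 1) * M ^ (k - 2) * L + L
    have := Nat.mul_le_mul_left (2 * 3 ^ (k - 1) * M ^ (k - 2)) hnL
    omega
  have htime : P.eval x.length + GWt T (KPot k M e) h4 (Sum.inl []) * (P.eval (fB L +
      ((GDep (KPot k M e) h4 (Sum.inl []) + 1) * (fB L + 1) + 6)) + κ * (fR L * 2 ^ h4 + 2)) ≤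
      C' * (x.length + 1) ^ k' * 2 ^ (n / b) := by
    rw [← hL]
    have t1 : T (KPot k M e []) ≤ 4 * 2 ^ h4 := by
      rw [hh4]
      exact hT3 n _ hpot
    have t2 : GWt T (KPot k M e) h4 (Sum.inl []) = T (KPot k M e []) * (4 * 2 ^ h4) := by
      change T (KPot k M e []) * 2 ^ (h4 + 2) = _
      rw [pow_add]
      ring
    have t3 : P.eval (fB L + ((GDep (KPot k M e) h4 (Sum.inl []) + 1) * (fB L + 1) + 6)) ≤
        P.eval (fB L + ((fD L + 1) * (fB L + 1) + 6)) := by
      refine eval_mono P ?_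
      have := Nat.mul_le_mul_right (fB L + 1) (Nat.add_le_add_right hdep 1)
      omega
    rw [t2]
    have t4 := arith_total (PL := P.eval L) (Pe := P.eval (fB L + ((fD L + 1) * (fB L + 1) + 6)))
      (κ := κ) (R := fR L * 2 ^ h4) (fR := fR L) t1 le_rfl Nat.one_le_two_pow
    have t5 : 2 ^ h4 * 2 ^ h4 * 2 ^ h4 ≤ 2 ^ (n / b) := by
      rw [hh4]
      exact arith_exp n b hb
    have t6 := Nat.mul_le_mul (hC' L) t5
    refine le_trans ?_ t6
    refine le_trans ?_ t4
    exact Nat.add_le_add_left (Nat.mul_le_mul_left _ (Nat.add_le_add_right t3 _)) _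
  have hmain := h x (GInv (KOk k M e) (fE1 L) (M3 * n) h4) (GDep (KPot k M e) h4)
    (GWt T (KPot k M e) h4) (fB L) (fR L * 2 ^ h4) (by
      rw [hi1]
      exact GX_spec badK (fun e s => krc M e s k) (lfK p q K1 K2) (qfK C d (5 * K2)) tm e₀ acc
        hMpow (KOk k M e) (KPot k M e) hT1 hT2 hru hleaf)
    (GWt_pos hT1 (KPot k M e) h4) (by rw [hi2]; exact hroot) hszI (by rw [hi1]; exact hszB)
    (by
      intro t y ht hy
      rw [hi1] at hy
      exact hcost t y ht hy)
    (C' * (x.length + 1) ^ k' * 2 ^ (n / b)) (by rw [hi2]; exact htime)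
  rw [hi1, hi2] at hmain
  rw [← hx, ← hn]
  refine ⟨?_, ?_⟩
  · rintro ⟨a, ha⟩
    refine hmain.1 ?_
    have hsat : ∀ c ∈ e.1, ∃ l ∈ c, tr (fun w => a (unbits w)) l := by
      rw [he]
      refine mkK_sat ?_
      intro c hc
      obtain ⟨c', hc', rfl⟩ := List.mem_map.1 hc
      obtain ⟨l, hl, hla⟩ := ha c' hc'
      refine ⟨(l.1, Nat.bits l.2), List.mem_map.2 ⟨l, hl, rfl⟩, ?_⟩
      unfold tr
      simp only [unbits_bits]
      exact hla
    have hb0 : badK e = false := by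
      unfold badK
      rw [decide_eq_false_iff_not]
      intro h0
      obtain ⟨l, hl, _⟩ := hsat _ h0
      simp at hl
    exact gaccS_of_sat badK (fun e s => krc M e s k) (lfK p q K1 K2) (qfK C d (5 * K2)) tm e₀
      acc hb0 (a := fun w => a (unbits w)) (KOk k M e) (KPot k M e)
      (fun s => ∀ S ∈ s, ∃ l ∈ S, tr (fun w => a (unbits w)) l) hMpow (hru hb0)
      (fun s l r hs hr => krc_sat hsat hs hr)
      (fun s hs hsa hr => gfin_yes h5K2 hYes (assignAll_sat _ _ (by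
        intro c hc
        obtain ⟨c', hc', rfl⟩ := List.mem_map.1 (spr_mem hc)
        exact ktcl_sat hsat hsa hc')))
      _ _ le_rfl (kok_nil k M e) (by simp)
  · intro hgap
    refine hmain.2 fun hacc => ?_
    have hb0 : badK e = false := by
      rcases hb0 : badK e with _ | _
      · rfl
      · exfalso
        have h1 := GX_bad badK (fun e s => krc M e s k) (lfK p q K1 K2) (qfK C d (5 * K2)) tm
          e₀ acc hb0 (Sum.inl [])
        have h2 : GX badK (fun e s => krc M e s k) (lfK p q K1 K2) (qfK C d (5 * K2)) tm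
          e₀ acc e = expandA tm e₀ acc (gexp badK (fun e s => krc M e s k) (lfK p q K1 K2)
            (qfK C d (5 * K2))) e := rfl
        rw [← h2] at hacc
        cases hacc with
        | leaf g => rw [h1] at g; simp at g
        | left g _ => rw [h1] at g; simp at g
        | right g _ => rw [h1] at g; simp at g
    obtain ⟨s', hs', hr, ps, hps, hfin⟩ := gexists_fin badK (fun e s => krc M e s k)
      (lfK p q K1 K2) (qfK C d (5 * K2)) tm e₀ acc hb0 (KOk k M e)
      (by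
        intro s l r hs hr
        rcases hru hb0 s hs with h | ⟨l', r', h, h1, h2, _⟩
        · rw [h] at hr; simp at hr
        · rw [h] at hr
          simp only [Option.some.injEq, Prod.mk.injEq] at hr
          obtain ⟨rfl, rfl⟩ := hr
          exact ⟨h1, h2⟩)
      hacc [] rfl (kok_nil k M e)
    have hlen : e.1.length = F.length := by
      rw [he, mkK_length]
      exact List.length_map ..
    have hty := hnone hb0 s' hs' hr
    have hmaplen : (e.1.map (fun c => ktcl s' c)).length = F.length := by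
      rw [List.length_map, hlen]
    have hnoA : ∀ a : List Bool → Bool, p * (e.1.map (fun c => ktcl s' c)).length ≤
        q * (e.1.map (fun c => ktcl s' c)).countP (falsB a) := by
      intro a
      have g1 := hgap (fun n => a (Nat.bits n))
      rw [frac_iff hq] at g1
      rw [hmaplen]
      have g2 := ktcl_fals e s' a
      have g3 : F.countP (falsB (fun n => a (Nat.bits n))) = e.1.countP (falsB a) := by
        rw [he, mkK_fals]
        unfold binF
        rw [List.countP_map]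
        congr 1
        funext c
        simp only [Function.comp, falsB, List.any_map]
        rfl
      rw [g3] at g1
      exact g1.trans (Nat.mul_le_mul_left _ g2)
    have hFlen : 0 < F.length := List.length_pos_iff.2 hF
    have hgap2 : ∀ a : List Bool → Bool, p * (ksparse p q K1 e s').length ≤
        2 * q * (ksparse p q K1 e s').countP (falsB a) ∧
        0 < (ksparse p q K1 e s').countP (falsB a) := by
      intro a
      obtain ⟨g1, g2⟩ := spr_gap hty (hnoA a)
      exact ⟨g1, g2 (by rw [hmaplen]; positivity)⟩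
    have hgap3 := assignAll_no (B := fun r => p * (ksparse p q K1 e s').length ≤ 2 * q * r ∧
      0 < r) ps _ hgap2
    have hno := gfin_no (ν := KNd (List Bool)) (C := C) (d := d) (e₀ := e₀) (k := k) (K := K2)
      hq h5K2 hne hNo
      (G := assignAll (ksparse p q K1 e s') ps)
      (assignAll_clause_length _ _ (hspk hb0 s' hs'))
      (fun v => count_assignAll_high K2 _ ps hps v)
      (fun a => ⟨(Nat.mul_le_mul_left p (assignAll_length ps _)).trans (hgap3 a).1,
        (hgap3 a).2⟩)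
    have hfin' : (gfinA (qfK C d (5 * K2)) tm e₀ acc
      (assignAll (ksparse p q K1 e s') ps) : Bool ⊕ (NdG (KNd (List Bool)) ×
        NdG (KNd (List Bool)))) = Sum.inl true := hfin
    rw [hno] at hfin'
    simp at hfin'

end Pool.Agent.Lib.MP_87d05f_lc
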