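import Mathlib
import Pool.Agent.Lib.MP_87d05f_lc.KMain

set_option autoImplicit false

/-!
# Reductions between promise problems with exponential separators
-/

namespace Pool.Agent.Lib.MP_87d05f_lc

open Pool.Agent.PolyTime Function Turing

theorem transfer_machine (tm : FinTM2) (e₀ : tm.Γ tm.k₀ ≃ Bool) (acc : List (tm.Γ tm.k₁))
    {f : List Bool → Qry} (hf : PTime f) :
    ∃ (tm' : FinTM2) (e₀' : tm'.Γ tm'.k₀ ≃ Bool) (acc' rej' : List (tm'.Γ tm'.k₁))
      (P : Polynomial ℕ) (κ : ℕ), acc' ≠ rej' ∧ ∀ (x : List Bool) (m : ℕ),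
        P.eval x.length + κ * qcost (f x) ≤ m →
        (ansT tm e₀ acc (f x) = true →
          Nonempty (TM2OutputsInTime tm' (x.map e₀'.symm) (some acc') m)) ∧
        (ansT tm e₀ acc (f x) = false →
          Nonempty (TM2OutputsInTime tm' (x.map e₀'.symm) (some rej') m)) := by
  have hi : PTime (fun x : List Bool => ((x, false) : List Bool × Bool)) :=
    PTime.id.pair (PTime.const false)
  have hq : PTime (fun s : List Bool × Bool => f s.1) := hf.comp PTime.fst
  have hn : PTime (fun p : Bool × (List Bool × Bool) => ((p.2.1, p.1) : List Bool × Bool)) :=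
    (PTime.fst.comp PTime.snd).pair PTime.fst
  have hd : PTime (fun _ : List Bool × Bool => true) := PTime.const true
  have ho : PTime (fun s : List Bool × Bool => s.2) := PTime.snd
  obtain ⟨tm', e₀', acc', rej', P, κ, hne, h⟩ := oracle_machine tm e₀ acc
    (init := fun x => (x, false)) (query := fun s => f s.1) (next := fun r s => (s.1, r))
    (dn := fun _ => true) (out := fun s => s.2) hi hq hn hd ho
  refine ⟨tm', e₀', acc', rej', P + P.comp (Polynomial.C 4 * Polynomial.X + 5), κ, hne, ?_⟩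
  intro x m hm
  have hsz : ∀ b : Bool, sz ((x, b) : List Bool × Bool) ≤ 4 * x.length + 5 := by
    intro b
    have h1 := sz_listBool_le x
    have h2 := sz_bool_le b
    rw [sz_pair]
    omega
  have hrun := h x 1 (4 * x.length + 5) (qcost (f x)) le_rfl (by
      intro i hi
      rcases Nat.lt_or_ge i 1 with h1 | h1
      · obtain rfl : i = 0 := by omega
        exact hsz false
      · obtain rfl : i = 1 := by omega
        exact hsz _)
    (by
      intro i hi
      obtain rfl : i = 0 := by omega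
      exact le_rfl)
    (by intro i h1 h2; omega) rfl m (by
      rw [one_mul]
      refine le_trans ?_ hm
      simp only [Polynomial.eval_add, Polynomial.eval_comp, Polynomial.eval_mul,
        Polynomial.eval_C, Polynomial.eval_X, Polynomial.eval_ofNat]
      omega)
  have e : (if ((fun s : List Bool × Bool => ((s.1, ansT tm e₀ acc (f s.1)) :
      List Bool × Bool))^[1] (x, false)).2 = true then acc' else rej') =
      (if ansT tm e₀ acc (f x) = true then acc' else rej') := rfl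
  constructor
  · intro ha
    have h2 : (if ansT tm e₀ acc (f x) = true then acc' else rej') = acc' := if_pos ha
    rw [← h2]
    exact hrun
  · intro ha
    have h2 : (if ansT tm e₀ acc (f x) = true then acc' else rej') = rej' :=
      if_neg (by rw [ha]; simp)
    rw [← h2]
    exact hrun

/-- exponential separators for a promise problem: `en` the encoding, `V` the instances, `Y` and
`N` the two promise sets, `μ` the measure of the running time -/
def GSep {I : Type} (en : I → List Bool) (V Y N : I → Prop) (μ : I → ℕ) (b : ℕ) : Prop :=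
  ∃ C e : ℕ, ∃ (tm : FinTM2) (e₀ : tm.Γ tm.k₀ ≃ Bool) (acc rej : List (tm.Γ tm.k₁)), acc ≠ rej ∧
    ∀ F : I, V F →
      (Y F → Nonempty (TM2OutputsInTime tm ((en F).map e₀.symm) (some acc)
        (C * ((en F).length + 1) ^ e * 2 ^ (μ F / b)))) ∧
      (N F → Nonempty (TM2OutputsInTime tm ((en F).map e₀.symm) (some rej)
        (C * ((en F).length + 1) ^ e * 2 ^ (μ F / b))))

theorem transfer {I₁ I₂ : Type} {en₁ : I₁ → List Bool} {en₂ : I₂ → List Bool}
    {V₁ Y₁ N₁ : I₁ → Prop} {V₂ Y₂ N₂ : I₂ → Prop} {μ₁ : I₁ → ℕ} {μ₂ : I₂ → ℕ} {b₁ b₂ : ℕ}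
    {f : List Bool → List Bool} {h : List Bool → ℕ} (hf : PTime f) (hh : PTime h)
    (hμ : ∀ F, V₁ F → μ₁ F ≤ (en₁ F).length)
    (hred : ∀ F, V₁ F → ∃ F', V₂ F' ∧ en₂ F' = f (en₁ F) ∧ (Y₁ F → Y₂ F') ∧ (N₁ F → N₂ F') ∧
      μ₂ F' / b₂ ≤ h (en₁ F) ∧ h (en₁ F) ≤ μ₁ F / b₁)
    (hsep : GSep en₂ V₂ Y₂ N₂ μ₂ b₂) : GSep en₁ V₁ Y₁ N₁ μ₁ b₁ := by
  obtain ⟨C, e, tm, e₀, acc, rej, hne, hS⟩ := hsep
  have hq : PTime (fun x => ((f x, (C * ((f x).length + 1) ^ e, h x)) : Qry)) :=
    hf.pair ((PTime.mul (PTime.const C)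
      (PTime.natPow_const (PTime.succ (PTime.length hf)) e)).pair hh)
  obtain ⟨tm', e₀', acc', rej', P, κ, hne', hM⟩ := transfer_machine tm e₀ acc hq
  obtain ⟨Pf, hPf⟩ := hf.sz_le
  obtain ⟨fQ, hfQ⟩ : ∃ g : ℕ → ℕ, g = fun L => Pf.eval (4 * L + 1) := ⟨_, rfl⟩
  have pQ : PolyB fQ := by
    rw [hfQ]
    exact PolyB.eval Pf (((PolyB.const 4).mul PolyB.id).add (PolyB.const 1))
  obtain ⟨fR, hfR⟩ : ∃ g : ℕ → ℕ, g = fun L => (fQ L + 1) +
    (C * (fQ L + 1) ^ e + 1) * (L + 1) := ⟨_, rfl⟩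
  have pR : PolyB fR := by
    rw [hfR]
    exact (pQ.add (PolyB.const 1)).add ((((PolyB.const C).mul
      ((pQ.add (PolyB.const 1)).pow e)).add (PolyB.const 1)).mul (PolyB.id.add (PolyB.const 1)))
  obtain ⟨C', e', hC'⟩ : PolyB (fun L => P.eval L + κ * fR L) :=
    (PolyB.eval P PolyB.id).add ((PolyB.const κ).mul pR)
  refine ⟨C', e', tm', e₀', acc', rej', hne', fun F hF => ?_⟩
  obtain ⟨F', hV, hen, hY, hN, hμ2, hμ1⟩ := hred F hF
  obtain ⟨x, hx⟩ : ∃ x, x = en₁ F := ⟨_, rfl⟩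
  obtain ⟨L, hL⟩ : ∃ L, L = x.length := ⟨_, rfl⟩
  have hflen : (f x).length ≤ fQ L := by
    have e1 := length_le_sz (f x)
    have e2 := (hPf x).trans (eval_mono Pf (sz_listBool_le x))
    rw [hfQ, hL]
    change (f x).length ≤ Pf.eval (4 * x.length + 1)
    omega
  have hhL : h x ≤ L := by
    rw [hx] at hL ⊢
    rw [hL]
    exact hμ1.trans ((Nat.div_le_self _ _).trans (hμ F hF))
  have hcost : qcost ((f x, (C * ((f x).length + 1) ^ e, h x)) : Qry) ≤ fR L * 2 ^ h x := by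
    unfold qcost
    simp only
    rw [hfR]
    change (f x).length + 1 + (C * ((f x).length + 1) ^ e + 1) * (2 ^ h x * (h x + 1)) ≤
      ((fQ L + 1) + (C * (fQ L + 1) ^ e + 1) * (L + 1)) * 2 ^ h x
    have g5 : C * ((f x).length + 1) ^ e + 1 ≤ C * (fQ L + 1) ^ e + 1 :=
      Nat.add_le_add_right (Nat.mul_le_mul_left _ (Nat.pow_le_pow_left (by omega) _)) 1
    have g7 : 2 ^ h x * (h x + 1) ≤ 2 ^ h x * (L + 1) := Nat.mul_le_mul_left _ (by omega)
    have g8 := Nat.mul_le_mul g5 g7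
    have g9 : (fQ L + 1) * 1 ≤ (fQ L + 1) * 2 ^ h x :=
      Nat.mul_le_mul_left _ Nat.one_le_two_pow
    have g10 : ((fQ L + 1) + (C * (fQ L + 1) ^ e + 1) * (L + 1)) * 2 ^ h x =
        (fQ L + 1) * 2 ^ h x + (C * (fQ L + 1) ^ e + 1) * (2 ^ h x * (L + 1)) := by ring
    rw [g10]
    omega
  have htime : P.eval x.length + κ * qcost ((f x, (C * ((f x).length + 1) ^ e, h x)) : Qry) ≤
      C' * (x.length + 1) ^ e' * 2 ^ (μ₁ F / b₁) := by
    rw [← hL]
    have t1 : P.eval L + κ * (fR L * 2 ^ h x) ≤ (P.eval L + κ * fR L) * 2 ^ h x := by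
      have : P.eval L * 1 ≤ P.eval L * 2 ^ h x := Nat.mul_le_mul_left _ Nat.one_le_two_pow
      rw [Nat.add_mul, Nat.mul_assoc]
      omega
    have t2 : 2 ^ h x ≤ 2 ^ (μ₁ F / b₁) := by
      rw [hx]
      exact Nat.pow_le_pow_right (by norm_num) hμ1
    refine (Nat.add_le_add_left (Nat.mul_le_mul_left κ hcost) _).trans (t1.trans ?_)
    exact Nat.mul_le_mul (hC' L) t2
  have hmono : C * ((en₂ F').length + 1) ^ e * 2 ^ (μ₂ F' / b₂) ≤
      C * ((f x).length + 1) ^ e * 2 ^ (h x) := by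
    rw [hen, ← hx]
    refine Nat.mul_le_mul_left _ (Nat.pow_le_pow_right (by norm_num) ?_)
    rw [hx]
    exact hμ2
  have hrun := hM x _ htime
  rw [← hx]
  refine ⟨fun hy => hrun.1 ?_, fun hn => hrun.2 ?_⟩
  · have h1 := outputs_mono hmono ((hS F' hV).1 (hY hy))
    rw [hen, ← hx] at h1
    exact (ansT_of_outputs tm e₀ acc acc ((f x, (C * ((f x).length + 1) ^ e, h x)) : Qry) h1).2
      rfl
  · have h1 := outputs_mono hmono ((hS F' hV).2 (hN hn))
    rw [hen, ← hx] at h1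
    have h2 := ansT_of_outputs tm e₀ acc rej ((f x, (C * ((f x).length + 1) ^ e, h x)) : Qry) h1
    rw [← Bool.not_eq_true]
    exact fun h3 => hne (h2.1 h3).symm

/-- the measure may be changed -/
theorem GSep.mono {I : Type} {en : I → List Bool} {V V' Y Y' N N' : I → Prop} {μ μ' : I → ℕ}
    {b b' : ℕ} (hV : ∀ F, V' F → V F) (hY : ∀ F, V' F → Y' F → Y F) (hN : ∀ F, V' F → N' F → N F)
    (hμ : ∀ F, V' F → μ F / b ≤ μ' F / b') (h : GSep en V Y N μ b) :
    GSep en V' Y' N' μ' b' := by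
  obtain ⟨C, e, tm, e₀, acc, rej, hne, h⟩ := h
  refine ⟨C, e, tm, e₀, acc, rej, hne, fun F h1 => ?_⟩
  have ht : C * ((en F).length + 1) ^ e * 2 ^ (μ F / b) ≤
      C * ((en F).length + 1) ^ e * 2 ^ (μ' F / b') :=
    Nat.mul_le_mul_left _ (Nat.pow_le_pow_right (by norm_num) (hμ F h1))
  exact ⟨fun g => outputs_mono ht ((h F (hV F h1)).1 (hY F h1 g)),
    fun g => outputs_mono ht ((h F (hV F h1)).2 (hN F h1 g))⟩

end Pool.Agent.Lib.MP_87d05f_lc
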