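import Mathlib
import Pool.Agent.Lib.MP_87d05f_lc.Transfer

set_option autoImplicit false

/-!
# Lists of lists of words as bit strings
-/

namespace Pool.Agent.Lib.MP_87d05f_lc

open Pool.Agent.PolyTime Function

/-- a list of lists of words as a bit string -/
def encW (G : List (List (List Bool))) : List Bool :=
  G.flatMap (fun c => c.flatMap (fun w => w.flatMap (fun x => [true, x]) ++ [false, false]) ++
    [false, true])

/-- reading it -/
def parseW (x : List Bool) : List (List (List Bool)) := (x.foldr pstep (none, [])).2

theorem foldr_encW (G r : List (List (List Bool))) :
    (encW G).foldr pstep (none, r) = (none, G ++ r) := by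
  have hc : ∀ (c d : List (List Bool)) (r : List (List (List Bool))),
      (c.flatMap (fun w => w.flatMap (fun x => [true, x]) ++ [false, false])).foldr pstep
        (none, d :: r) = (none, (c ++ d) :: r) := by
    intro c
    induction c with
    | nil => intro d r; rfl
    | cons w c ih =>
      intro d r
      rw [List.flatMap_cons, List.foldr_append, ih, List.foldr_append]
      have h : ([false, false] : List Bool).foldr pstep (none, (c ++ d) :: r) =
        (none, ([] :: (c ++ d)) :: r) := rfl
      rw [h, foldr_bits, List.append_nil]
      rfl
  induction G with
  | nil => rfl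
  | cons c G ih =>
    have h : ([false, true] : List Bool).foldr pstep (none, G ++ r) =
        (none, [] :: (G ++ r)) := rfl
    unfold encW at ih ⊢
    rw [List.flatMap_cons, List.foldr_append, ih, List.foldr_append, h, hc]
    simp

theorem parseW_encW (G : List (List (List Bool))) : parseW (encW G) = G := by
  unfold parseW
  rw [foldr_encW]
  simp

theorem parseW_ptime : PTime parseW := by
  have hpact : PTime (fun p : (Bool × Bool) × List (List (List Bool)) =>
      pact p.1.1 p.1.2 p.2) := by
    unfold pact
    refine PTime.cond (PTime.fst.comp PTime.fst) ?_ (PTime.cond (PTime.snd.comp PTime.fst) ?_ ?_)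
    · refine PTime.list_casesOn (f := fun p : (Bool × Bool) × List (List (List Bool)) => p.2)
        (g := fun _ => ([] : List (List (List Bool))))
        (h := fun p c r => (List.casesOn c ([] :: r) (fun l c' => ((p.1.2 :: l) :: c') :: r) :
          List (List (List Bool)))) PTime.snd (PTime.const _) ?_
      refine PTime.list_casesOn
        (f := fun q : ((Bool × Bool) × List (List (List Bool))) × List (List Bool) ×
          List (List (List Bool)) => q.2.1)
        (g := fun q => [] :: q.2.2)
        (h := fun q l c' => ((q.1.1.2 :: l) :: c') :: q.2.2) (PTime.fst.comp PTime.snd) ?_ ?_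
      · exact PTime.cons (PTime.const []) (PTime.snd.comp PTime.snd)
      · exact PTime.cons (PTime.cons (PTime.cons ((PTime.snd.comp PTime.fst).comp
          (PTime.fst.comp PTime.fst)) (PTime.fst.comp PTime.snd)) (PTime.snd.comp PTime.snd))
          ((PTime.snd.comp PTime.snd).comp PTime.fst)
    · exact PTime.cons (PTime.const []) PTime.snd
    · refine PTime.list_casesOn (f := fun p : (Bool × Bool) × List (List (List Bool)) => p.2)
        (g := fun _ => ([] : List (List (List Bool))))
        (h := fun p c r => ([] :: c) :: r) PTime.snd (PTime.const _) ?_
      exact PTime.cons (PTime.cons (PTime.const []) (PTime.fst.comp PTime.snd))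
        (PTime.snd.comp PTime.snd)
  have hstep : PTime (fun p : List Bool × Bool × (Option Bool × List (List (List Bool))) =>
      pstep p.2.1 p.2.2) := by
    unfold pstep
    have hb : PTime (fun p : List Bool × Bool × (Option Bool × List (List (List Bool))) =>
        p.2.1) := PTime.fst.comp PTime.snd
    have ho : PTime (fun p : List Bool × Bool × (Option Bool × List (List (List Bool))) =>
        p.2.2.1) := PTime.fst.comp (PTime.snd.comp PTime.snd)
    have hs : PTime (fun p : List Bool × Bool × (Option Bool × List (List (List Bool))) =>
        p.2.2.2) := PTime.snd.comp (PTime.snd.comp PTime.snd)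
    refine PTime.option_casesOn
      (f := fun p : List Bool × Bool × (Option Bool × List (List (List Bool))) => p.2.2.1)
      (g := fun p => ((some p.2.1, p.2.2.2) : Option Bool × List (List (List Bool))))
      (h := fun p b₂ => ((none, pact p.2.1 b₂ p.2.2.2) :
        Option Bool × List (List (List Bool)))) ho ((PTime.some hb).pair hs) ?_
    refine (PTime.const none).pair ?_
    exact hpact.comp (((hb.comp PTime.fst).pair PTime.snd).pair (hs.comp PTime.fst))
  have hsz : ∀ (b₁ b₂ : Bool) (s : List (List (List Bool))), sz (pact b₁ b₂ s) ≤ sz s + 4 := by
    intro b₁ b₂ s
    have hb := sz_bool_le b₂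
    unfold pact
    rcases b₁ with _ | _ <;> rcases b₂ with _ | _ <;> rcases s with _ | ⟨c, r⟩ <;>
      simp only [cond_true, cond_false, sz_nil, sz_cons] <;> try omega
    · rcases c with _ | ⟨l, c'⟩
      · simp only [sz_cons, sz_nil]; omega
      · simp only [sz_cons, sz_false]; omega
    · rcases c with _ | ⟨l, c'⟩
      · simp only [sz_cons, sz_nil]; omega
      · simp only [sz_cons, sz_true]; omega
  have hfold : PTime (fun x : List Bool => x.foldr pstep (none, [])) := by
    refine PTime.foldr (f := fun (_ : List Bool) b s => pstep b s) PTime.id (PTime.const _) hstep
      (Polynomial.C 10) ?_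
    intro a s b _
    rcases s with ⟨o, s⟩
    have hb := sz_bool_le b
    rcases o with _ | b₂
    · simp only [pstep, sz_pair, sz_none, sz_some, Polynomial.eval_C]
      omega
    · have := hsz b b₂ s
      simp only [pstep, sz_pair, sz_none, sz_some, Polynomial.eval_C]
      omega
  exact PTime.snd.comp hfold

theorem encW_ptime {α : Type} [SCode α] {G : α → List (List (List Bool))} (hG : PTime G) :
    PTime (fun a => encW (G a)) := by
  unfold encW
  refine PTime.flatMap (f := fun (_ : α) (c : List (List Bool)) =>
    c.flatMap (fun w => w.flatMap (fun x => [true, x]) ++ [false, false]) ++ [false, true]) hG ?_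
  refine PTime.append ?_ (PTime.const _)
  refine PTime.flatMap (f := fun (_ : α × List (List Bool)) (w : List Bool) =>
    w.flatMap (fun x => [true, x]) ++ [false, false]) PTime.snd ?_
  refine PTime.append ?_ (PTime.const _)
  refine PTime.flatMap (f := fun (_ : (α × List (List Bool)) × List Bool) (x : Bool) =>
    [true, x]) PTime.snd ?_
  exact PTime.cons (PTime.const true) (PTime.cons PTime.snd (PTime.const []))

theorem encW_append (G H : List (List (List Bool))) : encW (G ++ H) = encW G ++ encW H := by
  unfold encW
  rw [List.flatMap_append]

/-- the number of words is at most the length of the code -/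
theorem encW_length (G : List (List (List Bool))) :
    G.length + (G.map List.length).sum ≤ (encW G).length := by
  induction G with
  | nil => simp
  | cons c G ih =>
    have h : ∀ c : List (List Bool), c.length ≤
        (c.flatMap (fun w => w.flatMap (fun x => [true, x]) ++ [false, false])).length := by
      intro c
      induction c with
      | nil => simp
      | cons w c ih =>
        rw [List.flatMap_cons, List.length_append, List.length_append, List.length_cons]
        simp only [List.length_cons, List.length_nil]
        omega
    have h1 : encW (c :: G) = encW [c] ++ encW G := encW_append [c] G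
    rw [h1, List.length_append, List.map_cons, List.sum_cons, List.length_cons]
    have h2 : (encW [c]).length = (c.flatMap (fun w => w.flatMap (fun x => [true, x]) ++
        [false, false])).length + 2 := by
      unfold encW
      simp
    have h3 := h c
    omega

end Pool.Agent.Lib.MP_87d05f_lc
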