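import Mathlib
import Pool.Agent.Lib.MP_87d05f_lc.ParseW

set_option autoImplicit false

/-!
# Constraint satisfaction problems: reduction to `k`-CNF
-/

namespace Pool.Agent.Lib.MP_87d05f_lc

open Pool.Agent.PolyTime Function Turing

section code

variable {g : ℕ} {ar : Fin g → ℕ}

/-- a constraint: a relation symbol with variables -/
abbrev Con (ar : Fin g → ℕ) : Type := (i : Fin g) × (Fin (ar i) → ℕ)

/-- the words of a constraint -/
def wordC (c : Con ar) : List (List Bool) := Nat.bits (c.1 : ℕ) :: (List.ofFn c.2).map Nat.bits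

/-- the encoding of instances -/
def codeC (F : List (Con ar)) : List Bool :=
  F.flatMap (fun c => ((c.1 : ℕ) :: List.ofFn c.2).flatMap (fun v =>
    (Nat.bits v).flatMap (fun x => [true, x]) ++ [false, false]) ++ [false, true])

theorem codeC_eq (F : List (Con ar)) : codeC F = encW (F.map wordC) := by
  unfold codeC encW
  rw [List.flatMap_map]
  refine List.flatMap_congr fun c _ => ?_
  have h : wordC c = ((c.1 : ℕ) :: List.ofFn c.2).map Nat.bits := rfl
  rw [h, List.flatMap_map]

/-- the number of variables of an instance -/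
def nvC (F : List (Con ar)) : ℕ := (F.flatMap (fun c => List.ofFn c.2)).toFinset.card

theorem vars_wordC (F : List (Con ar)) :
    (F.map wordC).flatMap List.tail = (F.flatMap (fun c => List.ofFn c.2)).map Nat.bits := by
  rw [List.flatMap_map, List.map_flatMap]
  rfl

theorem nvC_eq (F : List (Con ar)) :
    (ded ((F.map wordC).flatMap List.tail)).length = nvC F := by
  rw [ded_length, vars_wordC]
  unfold nvC
  have h : ∀ l : List ℕ, (l.map Nat.bits).toFinset = l.toFinset.image Nat.bits := by
    intro l
    ext w
    simp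
  rw [h, Finset.card_image_of_injective _ bits_injective]

theorem nvC_le (F : List (Con ar)) : nvC F ≤ (codeC F).length := by
  rw [codeC_eq]
  refine le_trans ?_ (encW_length _)
  unfold nvC
  refine (List.toFinset_card_le _).trans ?_
  rw [List.length_flatMap]
  refine le_trans ?_ (Nat.le_add_left _ _)
  rw [List.map_map]
  refine List.sum_le_sum fun c _ => ?_
  simp [wordC]

theorem length_le_code (F : List (Con ar)) : F.length ≤ (codeC F).length := by
  rw [codeC_eq]
  refine le_trans ?_ (encW_length _)
  rw [List.length_map]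
  omega

theorem getD_wordC (c : Con ar) (j : Fin (ar c.1)) :
    (wordC c).tail.getD (j : ℕ) [] = Nat.bits (c.2 j) := by
  unfold wordC
  rw [List.tail_cons, List.getD_eq_getElem?_getD, List.getElem?_map, List.getElem?_ofFn]
  simp

end code

/-! ### Names for bits of values -/

/-- the name of bit `t` of variable `w` -/
def nb (w : List Bool) (t : ℕ) : List Bool := List.replicate t true ++ (false :: (w ++ [true]))

theorem replicate_true_inj {i j : ℕ} {r r' : List Bool}
    (h : List.replicate i true ++ (false :: r) = List.replicate j true ++ (false :: r')) :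
    i = j ∧ r = r' := by
  induction i generalizing j with
  | zero =>
    cases j with
    | zero => simpa using h
    | succ j => simp [List.replicate_succ] at h
  | succ i ih =>
    cases j with
    | zero => simp [List.replicate_succ] at h
    | succ j =>
      rw [List.replicate_succ, List.replicate_succ] at h
      simp only [List.cons_append, List.cons.injEq, true_and] at h
      obtain ⟨h1, h2⟩ := ih h
      exact ⟨by rw [h1], h2⟩

theorem nb_inj {w w' : List Bool} {t t' : ℕ} (h : nb w t = nb w' t') : w = w' ∧ t = t' := by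
  unfold nb at h
  obtain ⟨h1, h2⟩ := replicate_true_inj h
  exact ⟨List.append_cancel_right h2, h1⟩

theorem nb_end (w : List Bool) (t : ℕ) : ∃ u, nb w t = u ++ [true] :=
  ⟨List.replicate t true ++ (false :: w), by simp [nb]⟩

theorem nb_ptime {α : Type} [SCode α] {w : α → List Bool} {t : α → ℕ} (hw : PTime w)
    (ht : PTime t) : PTime (fun a => nb (w a) (t a)) := by
  unfold nb
  exact PTime.append (PTime.replicate ht (PTime.const true))
    (PTime.cons (PTime.const false) (PTime.append hw (PTime.const [true])))

/-! ### The reduction -/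

/-- patterns of clauses: position, bit, sign -/
abbrev Pat := List (ℕ × ℕ × Bool)

/-- the clause of a pattern -/
def litsOf (vs : List (List Bool)) (P : Pat) : List (Lit (List Bool)) :=
  P.map (fun q => (q.2.2, nb (vs.getD q.1 []) q.2.1))

/-- the clauses of a constraint, from a table -/
def clW (tab : List (List Bool × List Pat)) (c : List (List Bool)) : BF' :=
  (Option.casesOn (tab.find? (fun e => decide (e.1 = c.headD []))) []
    (fun e => e.2.map (fun P => litsOf c.tail P)))

/-- one clause instead of none -/
def orOne (G : BF') : BF' := bif G.isEmpty then [[(true, [true])]] else G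

/-- the reduction on words -/
def redW (tab : List (List Bool × List Pat)) (G : List (List (List Bool))) : BF' :=
  orOne (G.flatMap (clW tab))

theorem clW_ptime {α : Type} [SCode α] (tab : List (List Bool × List Pat))
    {c : α → List (List Bool)} (hc : PTime c) : PTime (fun a => clW tab (c a)) := by
  unfold clW
  refine PTime.option_casesOn
    (f := fun a => tab.find? (fun e => decide (e.1 = (c a).headD [])))
    (g := fun _ => ([] : BF')) (h := fun a e => e.2.map (fun P => litsOf (c a).tail P)) ?_
    (PTime.const _) ?_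
  · refine PTime.find? (l := fun _ => tab) (p := fun a (e : List Bool × List Pat) =>
      decide (e.1 = (c a).headD [])) (PTime.const tab) ?_
    exact PTime.eq (PTime.fst.comp PTime.snd) (PTime.headD (hc.comp PTime.fst) (PTime.const []))
  · refine PTime.map (l := fun q : α × (List Bool × List Pat) => q.2.2)
      (f := fun q P => litsOf (c q.1).tail P) (PTime.snd.comp PTime.snd) ?_
    unfold litsOf
    refine PTime.map (l := fun q : (α × (List Bool × List Pat)) × Pat => q.2)
      (f := fun q (r : ℕ × ℕ × Bool) =>
        ((r.2.2, nb ((c q.1.1).tail.getD r.1 []) r.2.1) : Lit (List Bool))) PTime.snd ?_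
    have h1 : PTime (fun y : ((α × (List Bool × List Pat)) × Pat) × (ℕ × ℕ × Bool) =>
        (c y.1.1.1).tail) := PTime.tail (hc.comp (PTime.fst.comp (PTime.fst.comp PTime.fst)))
    have h2 : PTime (fun y : ((α × (List Bool × List Pat)) × Pat) × (ℕ × ℕ × Bool) => y.2.1) :=
      PTime.fst.comp PTime.snd
    have h3 : PTime (fun y : ((α × (List Bool × List Pat)) × Pat) × (ℕ × ℕ × Bool) =>
        y.2.2.1) := PTime.fst.comp (PTime.snd.comp PTime.snd)
    have h4 : PTime (fun y : ((α × (List Bool × List Pat)) × Pat) × (ℕ × ℕ × Bool) =>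
        y.2.2.2) := PTime.snd.comp (PTime.snd.comp PTime.snd)
    exact h4.pair (nb_ptime (PTime.getD h2 h1 (PTime.const [])) h3)

theorem redW_ptime {α : Type} [SCode α] (tab : List (List Bool × List Pat))
    {G : α → List (List (List Bool))} (hG : PTime G) : PTime (fun a => redW tab (G a)) := by
  unfold redW orOne
  have h : PTime (fun a => (G a).flatMap (clW tab)) :=
    PTime.flatMap (f := fun (_ : α) c => clW tab c) hG (clW_ptime tab PTime.snd)
  exact PTime.cond (PTime.isEmpty h) (PTime.const _) h

section sem

variable {g d W : ℕ} {ar : Fin g → ℕ} (R : (i : Fin g) → (Fin (ar i) → Fin d) → Bool)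
  (dc : (Fin W → Bool) → Fin d)

/-- the pattern of a forbidden bit assignment -/
def patOf {n W : ℕ} (β : Fin n → Fin W → Bool) : Pat :=
  (List.finRange n).flatMap (fun (j : Fin n) =>
    (List.finRange W).map (fun (t : Fin W) => ((j : ℕ), (t : ℕ), !(β j t))))

/-- the bit assignments violating a relation -/
noncomputable def badP (i : Fin g) : List (Fin (ar i) → Fin W → Bool) :=
  (Finset.univ.filter (fun β : Fin (ar i) → Fin W → Bool =>
    R i (fun j => dc (β j)) = false)).toList

/-- the table -/
noncomputable def tabR : List (List Bool × List Pat) :=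
  (List.finRange g).map (fun (i : Fin g) => (Nat.bits (i : ℕ), (badP R dc i).map patOf))

theorem find_tabR (i : Fin g) : (tabR R dc).find? (fun e => decide (e.1 = Nat.bits (i : ℕ))) =
    some (Nat.bits (i : ℕ), (badP R dc i).map patOf) := by
  unfold tabR
  have key : ∀ l : List (Fin g), i ∈ l →
      (l.map (fun (i : Fin g) => (Nat.bits (i : ℕ), (badP R dc i).map patOf))).find?
        (fun e => decide (e.1 = Nat.bits (i : ℕ))) =
      some (Nat.bits (i : ℕ), (badP R dc i).map patOf) := by
    intro l
    induction l with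
    | nil => intro h; simp at h
    | cons k l ih =>
      intro h
      rw [List.map_cons, List.find?_cons]
      by_cases hk : k = i
      · subst hk
        simp
      · have hne : Nat.bits (k : ℕ) ≠ Nat.bits (i : ℕ) := fun h' =>
          hk (Fin.ext (bits_injective h'))
        simp only [decide_eq_false hne]
        exact ih (by rcases List.mem_cons.1 h with h | h
                     · exact absurd h.symm hk
                     · exact h)
  exact key _ (List.mem_finRange i)

/-- the clause of a pattern, for a constraint -/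
def clauseOf (c : Con ar) (β : Fin (ar c.1) → Fin W → Bool) : List (Lit (List Bool)) :=
  (List.finRange (ar c.1)).flatMap (fun (j : Fin (ar c.1)) => (List.finRange W).map
    (fun (t : Fin W) => (!(β j t), nb (Nat.bits (c.2 j)) (t : ℕ))))

theorem litsOf_patOf (c : Con ar) (β : Fin (ar c.1) → Fin W → Bool) :
    litsOf (wordC c).tail (patOf β) = clauseOf c β := by
  unfold litsOf patOf clauseOf
  rw [List.map_flatMap]
  refine List.flatMap_congr fun j _ => ?_
  rw [List.map_map]
  refine List.map_congr_left fun t _ => ?_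
  simp only [Function.comp, getD_wordC]

theorem clW_wordC (c : Con ar) :
    clW (tabR R dc) (wordC c) = (badP R dc c.1).map (clauseOf c) := by
  unfold clW
  have h : (wordC c).headD [] = Nat.bits (c.1 : ℕ) := rfl
  rw [h, find_tabR]
  simp only [List.map_map]
  refine List.map_congr_left fun β _ => ?_
  exact litsOf_patOf c β

theorem falsB_clauseOf (b : List Bool → Bool) (c : Con ar) (β : Fin (ar c.1) → Fin W → Bool) :
    falsB b (clauseOf c β) = true ↔ (fun j t => b (nb (Nat.bits (c.2 j)) ((t : Fin W) : ℕ))) = β := by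
  rw [falsB_iff]
  unfold clauseOf tr
  constructor
  · intro h
    funext j t
    have h1 := h (!(β j t), nb (Nat.bits (c.2 j)) (t : ℕ)) (by
      rw [List.mem_flatMap]
      exact ⟨j, List.mem_finRange j, List.mem_map.2 ⟨t, List.mem_finRange t, rfl⟩⟩)
    simp only at h1
    revert h1
    generalize b (nb (Nat.bits (c.2 j)) (t : ℕ)) = x
    generalize β j t = y
    revert x y
    decide
  · rintro h l hl
    obtain ⟨j, _, hl⟩ := List.mem_flatMap.1 hl
    obtain ⟨t, _, rfl⟩ := List.mem_map.1 hl
    subst h
    simp only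
    generalize b (nb (Nat.bits (c.2 j)) (t : ℕ)) = x
    revert x
    decide

/-- the assignment read off from the bits -/
def decA (b : List Bool → Bool) (v : ℕ) : Fin d := dc (fun t => b (nb (Nat.bits v) (t : ℕ)))

theorem count_clW (b : List Bool → Bool) (c : Con ar) :
    (if R c.1 (fun j => decA dc b (c.2 j)) = false then 1 else 0) ≤
      (clW (tabR R dc) (wordC c)).countP (falsB b) := by
  split_ifs with h
  · rw [clW_wordC]
    have h1 : clauseOf c (fun j t => b (nb (Nat.bits (c.2 j)) ((t : Fin W) : ℕ))) ∈
        (badP R dc c.1).map (clauseOf c) := by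
      refine List.mem_map.2 ⟨_, ?_, rfl⟩
      unfold badP
      rw [Finset.mem_toList, Finset.mem_filter]
      exact ⟨Finset.mem_univ _, h⟩
    exact List.countP_pos_iff.2 ⟨_, h1, (falsB_clauseOf b c _).2 rfl⟩
  · exact Nat.zero_le _

theorem count_redW (b : List Bool → Bool) (F : List (Con ar)) :
    F.countP (fun c => !(R c.1 (fun j => decA dc b (c.2 j)))) ≤
      ((F.map wordC).flatMap (clW (tabR R dc))).countP (falsB b) := by
  induction F with
  | nil => simp
  | cons c F ih =>
    rw [List.map_cons, List.flatMap_cons, List.countP_append, List.countP_cons]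
    have h := count_clW R dc b c
    have h2 : (if (!(R c.1 (fun j => decA dc b (c.2 j)))) = true then 1 else 0) =
        (if R c.1 (fun j => decA dc b (c.2 j)) = false then 1 else 0) := by
      rcases R c.1 (fun j => decA dc b (c.2 j)) with _ | _ <;> simp
    rw [h2]
    omega

theorem sat_redW {ec : Fin d → Fin W → Bool} (hec : ∀ v, dc (ec v) = v) {a : ℕ → Fin d}
    {F : List (Con ar)} (ha : ∀ c ∈ F, R c.1 (fun j => a (c.2 j)) = true) :
    ∃ b : List Bool → Bool, ∀ c ∈ (F.map wordC).flatMap (clW (tabR R dc)), ∃ l ∈ c, tr b l := by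
  obtain ⟨nf, hnf⟩ : ∃ nf : ℕ × Fin W → List Bool,
      nf = fun p => nb (Nat.bits p.1) (p.2 : ℕ) := ⟨_, rfl⟩
  have hinj : Function.Injective nf := by
    rintro ⟨v, t⟩ ⟨v', t'⟩ h
    rw [hnf] at h
    obtain ⟨h1, h2⟩ := nb_inj h
    rw [Prod.mk.injEq]
    exact ⟨bits_injective h1, Fin.ext h2⟩
  refine ⟨Function.extend nf (fun p => ec (a p.1) p.2) (fun _ => false), fun c hc => ?_⟩
  obtain ⟨w, hw, hc⟩ := List.mem_flatMap.1 hc
  obtain ⟨k, hk, rfl⟩ := List.mem_map.1 hw
  rw [clW_wordC] at hc
  obtain ⟨β, hβ, rfl⟩ := List.mem_map.1 hc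
  rw [← falsB_false, ← Bool.not_eq_true]
  intro h
  rw [falsB_clauseOf] at h
  have h1 : ∀ (v : ℕ) (t : Fin W), Function.extend nf (fun p => ec (a p.1) p.2)
      (fun _ => false) (nb (Nat.bits v) (t : ℕ)) = ec (a v) t := by
    intro v t
    have := hinj.extend_apply (fun p => ec (a p.1) p.2) (fun _ => false) (v, t)
    rw [hnf] at this ⊢
    exact this
  simp only [h1] at h
  unfold badP at hβ
  rw [Finset.mem_toList, Finset.mem_filter] at hβ
  have h2 := hβ.2
  rw [← h] at h2
  have h3 := ha k hk
  simp only [hec] at h2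
  rw [h2] at h3
  exact absurd h3 (by simp)

/-- the bound on the number of clauses of a constraint -/
noncomputable def clB : ℕ := 1 + ∑ i : Fin g, (badP R dc i).length

theorem length_redW (F : List (Con ar)) :
    ((F.map wordC).flatMap (clW (tabR R dc))).length ≤ clB R dc * F.length := by
  induction F with
  | nil => simp
  | cons c F ih =>
    rw [List.map_cons, List.flatMap_cons, List.length_append, List.length_cons, clW_wordC,
      List.length_map, Nat.mul_add, Nat.mul_one]
    have h : (badP R dc c.1).length ≤ clB R dc := by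
      unfold clB
      have := Finset.single_le_sum (f := fun i : Fin g => (badP R dc i).length)
        (fun _ _ => Nat.zero_le _) (Finset.mem_univ c.1)
      omega
    omega

theorem width_redW (F : List (Con ar)) :
    ∀ c ∈ (F.map wordC).flatMap (clW (tabR R dc)), c.length ≤ (∑ i : Fin g, ar i) * W := by
  intro c hc
  obtain ⟨w, hw, hc⟩ := List.mem_flatMap.1 hc
  obtain ⟨k, hk, rfl⟩ := List.mem_map.1 hw
  rw [clW_wordC] at hc
  obtain ⟨β, hβ, rfl⟩ := List.mem_map.1 hc
  unfold clauseOf
  rw [List.length_flatMap]
  have h1 : (List.map (fun (j : Fin (ar k.1)) => ((List.finRange W).map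
    (fun (t : Fin W) => (!(β j t), nb (Nat.bits (k.2 j)) (t : ℕ)))).length)
      (List.finRange (ar k.1))).sum = ar k.1 * W := by
    simp
  rw [h1]
  exact Nat.mul_le_mul_right _ (Finset.single_le_sum (f := fun i : Fin g => ar i)
    (fun _ _ => Nat.zero_le _) (Finset.mem_univ k.1))

theorem vars_redW (F : List (Con ar)) :
    nvars ((F.map wordC).flatMap (clW (tabR R dc))) ≤ W * nvC F := by
  rw [nvars_eq]
  have h : (vlist ((F.map wordC).flatMap (clW (tabR R dc)))).toFinset ⊆
      ((F.flatMap (fun c => List.ofFn c.2)).toFinset ×ˢ Finset.range W).image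
        (fun p : ℕ × ℕ => nb (Nat.bits p.1) p.2) := by
    intro x hx
    rw [List.mem_toFinset] at hx
    obtain ⟨l, hl, rfl⟩ := List.mem_map.1 hx
    obtain ⟨c, hc, hl⟩ := List.mem_flatten.1 hl
    obtain ⟨w, hw, hc⟩ := List.mem_flatMap.1 hc
    obtain ⟨k, hk, rfl⟩ := List.mem_map.1 hw
    rw [clW_wordC] at hc
    obtain ⟨β, hβ, rfl⟩ := List.mem_map.1 hc
    obtain ⟨j, _, hl⟩ := List.mem_flatMap.1 hl
    obtain ⟨t, _, rfl⟩ := List.mem_map.1 hl
    rw [Finset.mem_image]
    refine ⟨(k.2 j, (t : ℕ)), ?_, rfl⟩
    rw [Finset.mem_product, List.mem_toFinset, List.mem_flatMap, Finset.mem_range]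
    exact ⟨⟨k, hk, List.mem_ofFn.2 ⟨j, rfl⟩⟩, t.2⟩
  refine (Finset.card_le_card h).trans (Finset.card_image_le.trans ?_)
  rw [Finset.card_product, Finset.card_range, Nat.mul_comm]
  exact le_rfl

theorem canon_redW (F : List (Con ar)) :
    Canon (orOne ((F.map wordC).flatMap (clW (tabR R dc)))) := by
  intro w hw
  unfold orOne at hw
  rcases hG : ((F.map wordC).flatMap (clW (tabR R dc))).isEmpty with _ | _
  · rw [hG, cond_false] at hw
    obtain ⟨l, hl, rfl⟩ := List.mem_map.1 hw
    obtain ⟨c, hc, hl⟩ := List.mem_flatten.1 hl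
    obtain ⟨w, hw, hc⟩ := List.mem_flatMap.1 hc
    obtain ⟨k, hk, rfl⟩ := List.mem_map.1 hw
    rw [clW_wordC] at hc
    obtain ⟨β, hβ, rfl⟩ := List.mem_map.1 hc
    obtain ⟨j, _, hl⟩ := List.mem_flatMap.1 hl
    obtain ⟨t, _, rfl⟩ := List.mem_map.1 hl
    exact nb_end _ _
  · rw [hG, cond_true] at hw
    have h1 : vlist ([[(true, [true])]] : BF') = [[true]] := rfl
    rw [h1, List.mem_singleton] at hw
    exact ⟨[], by rw [hw]; rfl⟩

end sem

theorem exists_bits (d : ℕ) (hd : 0 < d) : ∃ (W : ℕ) (dc : (Fin W → Bool) → Fin d)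
    (ec : Fin d → Fin W → Bool), 0 < W ∧ ∀ v, dc (ec v) = v := by
  have : Nonempty (Fin d) := ⟨⟨0, hd⟩⟩
  obtain ⟨ec, hec⟩ : ∃ ec : Fin d → Fin d → Bool, ec = fun v t => decide (v = t) := ⟨_, rfl⟩
  have hinj : Function.Injective ec := by
    intro v v' h
    have := congrFun h v'
    rw [hec] at this
    simpa using this
  exact ⟨d, Function.invFun ec, ec, hd, fun v => Function.leftInverse_invFun hinj v⟩

/-- separators for all `k`-CNF problems give separators for all finite constraint languages -/
theorem csp_rev {g d : ℕ} {ar : Fin g → ℕ} (R : (i : Fin g) → (Fin (ar i) → Fin d) → Bool)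
    (hd : 0 < d)
    (H : ∀ k p q b : ℕ, 3 ≤ k → 0 < p → p < q → 0 < b →
      SepK k (fun _ => True) ((p : ℚ) / (q : ℕ)) b) {p q b : ℕ} (hp : 0 < p) (hpq : p < q)
    (hb : 0 < b) :
    GSep (codeC (ar := ar)) (fun F => F ≠ [])
      (fun F => ∃ a : ℕ → Fin d, ∀ c ∈ F, R c.1 (fun j => a (c.2 j)) = true)
      (fun F => ∀ a : ℕ → Fin d, ((p : ℚ) / (q : ℕ)) * (F.length : ℚ) ≤
        ((F.countP (fun c => !(R c.1 (fun j => a (c.2 j)))) : ℕ) : ℚ)) nvC b := by
  have hq : 0 < q := by omega
  obtain ⟨W, dc, ec, hW, hec⟩ := exists_bits d hd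
  obtain ⟨k, hk⟩ : ∃ k, k = (∑ i : Fin g, ar i) * W + 3 := ⟨_, rfl⟩
  obtain ⟨B, hB⟩ : ∃ B, B = clB R dc := ⟨_, rfl⟩
  have hBpos : 0 < B := by rw [hB]; unfold clB; omega
  obtain ⟨C, e, tm, e₀, acc, rej, hne, hS⟩ := H k p (q * B) (2 * W * b) (by omega) hp
    (lt_of_lt_of_le hpq (Nat.le_mul_of_pos_right q hBpos)) (by positivity)
  have hS' : GSep encF (fun F => F ≠ [] ∧ ∀ c ∈ F, c.length ≤ k)
      (fun F => ∃ a : ℕ → Bool, ∀ c ∈ F, ∃ l ∈ c, a l.2 = l.1)
      (fun F => ∀ a : ℕ → Bool, ((p : ℚ) / (q * B : ℕ)) * (F.length : ℚ) ≤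
        ((F.countP (falsB a) : ℕ) : ℚ)) nvars (2 * W * b) :=
    ⟨C, e, tm, e₀, acc, rej, hne, fun F hF => hS F hF.1 hF.2 trivial⟩
  have hf : PTime (fun x => encG (redW (tabR R dc) (parseW x))) :=
    encG_ptime (redW_ptime _ parseW_ptime)
  have hh : PTime (fun x => mydiv (ded ((parseW x).flatMap List.tail)).length b) := by
    refine mydiv_ptime (PTime.length (ded_ptime ?_)) (PTime.const b)
    exact PTime.flatMap (f := fun (_ : List Bool) (c : List (List Bool)) => c.tail) parseW_ptime
      (PTime.tail PTime.snd)
  refine transfer hf hh (fun F _ => nvC_le F) ?_ hS'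
  intro F hF
  have hx : parseW (codeC F) = F.map wordC := by rw [codeC_eq, parseW_encW]
  have hcan := canon_redW R dc F
  obtain ⟨G, hG⟩ : ∃ G, G = (F.map wordC).flatMap (clW (tabR R dc)) := ⟨_, rfl⟩
  rw [← hG] at hcan
  have hred : redW (tabR R dc) (parseW (codeC F)) = orOne G := by
    rw [hx, hG]
    rfl
  have hh' : mydiv (ded ((parseW (codeC F)).flatMap List.tail)).length b = nvC F / b := by
    rw [hx, nvC_eq, mydiv_eq hb]
  simp only [hred, hh']
  refine ⟨numG (orOne G), ⟨?_, ?_⟩, encF_numG hcan, ?_, ?_, ?_, le_rfl⟩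
  · intro h
    have h1 := numG_length (orOne G)
    rw [h, List.length_nil] at h1
    have h2 := List.length_eq_zero_iff.1 h1.symm
    unfold orOne at h2
    rcases hE : G.isEmpty with _ | _
    · rw [hE, cond_false] at h2
      rw [h2] at hE
      simp at hE
    · rw [hE, cond_true] at h2
      simp at h2
  · intro c hc
    obtain ⟨c', hc', rfl⟩ := List.mem_map.1 hc
    rw [List.length_map]
    unfold orOne at hc'
    rcases hE : G.isEmpty with _ | _
    · rw [hE, cond_false, hG] at hc'
      have := width_redW R dc F c' hc'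
      omega
    · rw [hE, cond_true] at hc'
      rw [List.mem_singleton.1 hc']
      simp only [List.length_cons, List.length_nil]
      omega
  · rintro ⟨a, ha⟩
    obtain ⟨β, hβ⟩ := sat_redW R dc hec ha
    rw [← hG] at hβ
    unfold orOne at hcan ⊢
    rcases hE : G.isEmpty with _ | _
    · rw [hE] at hcan
      simp only [cond_false] at hcan ⊢
      exact numG_sat hcan hβ
    · simp only [cond_true]
      refine ⟨fun _ => true, fun c hc => ?_⟩
      simp only [numG, List.map_cons, List.map_nil, List.mem_singleton] at hc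
      rw [hc]
      exact ⟨_, List.mem_singleton_self _, rfl⟩
  · intro hN a
    have hq' : 0 < q * B := by positivity
    rw [frac_iff hq', numG_length, numG_fals]
    have h1 := hN (decA dc (fun w => a (unbits w)))
    rw [frac_iff hq] at h1
    have h2 := count_redW R dc (fun w => a (unbits w)) F
    have h3 := length_redW R dc F
    rw [← hG] at h2 h3
    rw [← hB] at h3
    have hFpos : 0 < F.length := List.length_pos_iff.2 hF
    have hGne : G.isEmpty = false := by
      by_contra hE
      rw [Bool.not_eq_false, List.isEmpty_iff] at hE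
      rw [hE, List.countP_nil] at h2
      have : 0 < p * F.length := Nat.mul_pos hp hFpos
      have h4 : F.countP (fun c => !(R c.1 (fun j =>
        decA dc (fun w => a (unbits w)) (c.2 j)))) = 0 := by omega
      rw [h4, Nat.mul_zero] at h1
      omega
    unfold orOne
    rw [hGne, cond_false]
    calc p * G.length ≤ p * (B * F.length) := Nat.mul_le_mul_left _ h3
      _ = B * (p * F.length) := by ring
      _ ≤ B * (q * F.countP (fun c => !(R c.1 (fun j =>
        decA dc (fun w => a (unbits w)) (c.2 j))))) := Nat.mul_le_mul_left _ h1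
      _ ≤ B * (q * G.countP (falsB (fun w => a (unbits w)))) :=
        Nat.mul_le_mul_left _ (Nat.mul_le_mul_left _ h2)
      _ = q * B * G.countP (falsB (fun w => a (unbits w))) := by ring
  · rw [nvars_numG hcan]
    have h1 : nvars (orOne G) ≤ W * nvC F + 1 := by
      unfold orOne
      rcases hE : G.isEmpty with _ | _
      · rw [cond_false]
        have := vars_redW R dc F
        rw [← hG] at this
        omega
      · rw [cond_true]
        have : nvars ([[(true, [true])]] : BF') = 1 := by
          unfold nvars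
          simp
        omega
    rcases Nat.eq_zero_or_pos (nvC F) with h0 | h0
    · rw [h0] at h1 ⊢
      have e2 : 0 < W * b := Nat.mul_pos hW hb
      have e1 : 2 * W * b = 2 * (W * b) := by ring
      rw [Nat.zero_div, Nat.div_eq_of_lt (by omega)]
    · have h2 : nvars (orOne G) ≤ 2 * W * nvC F := by
        have : 0 < W * nvC F := Nat.mul_pos hW h0
        have e1 : 2 * W * nvC F = 2 * (W * nvC F) := by ring
        omega
      have h3 := Nat.div_le_div_right (c := 2 * W * b) h2
      rw [Nat.mul_div_mul_left _ _ (by positivity)] at h3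
      exact h3

end Pool.Agent.Lib.MP_87d05f_lc
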