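import Mathlib
import Pool.Agent.Lib.MP_87d05f_lc.CspRev

set_option autoImplicit false

/-!
# An assignment that is good on average
-/

namespace Pool.Agent.Lib.MP_87d05f_lc

section avg

variable {g d : ℕ} {ar : Fin g → ℕ}

/-- the value of an assignment -/
def valC (φ : (i : Fin g) → (Fin (ar i) → Fin d) → ℕ) (a : ℕ → Fin d) (F : List (Con ar)) : ℕ :=
  (F.map (fun c => φ c.1 (fun j => a (c.2 j)))).sum

theorem sum_list_comm {Ω α : Type} [Fintype Ω] (L : List α) (f : Ω → α → ℕ) :
    ∑ ω, (L.map (f ω)).sum = (L.map (fun c => ∑ ω, f ω c)).sum := by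
  induction L with
  | nil => simp
  | cons c L ih =>
    simp only [List.map_cons, List.sum_cons]
    rw [Finset.sum_add_distrib, ih]

theorem exists_average (φ : (i : Fin g) → (Fin (ar i) → Fin d) → ℕ) (hd : 0 < d)
    (L : List (Con ar)) (hL : ∀ c ∈ L, ∃ a : ℕ → Fin d, 1 ≤ φ c.1 (fun j => a (c.2 j))) :
    ∃ a : ℕ → Fin d, L.length ≤ d ^ (∑ i : Fin g, ar i) * valC φ a L := by
  classical
  -- a bound for the variables
  obtain ⟨N, hN⟩ : ∃ N, ∀ c ∈ L, ∀ j, c.2 j < N := by
    refine ⟨(L.flatMap (fun c => List.ofFn c.2)).sum + 1, fun c hc j => ?_⟩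
    refine Nat.lt_succ_of_le (List.single_le_sum (fun _ _ => Nat.zero_le _) _ ?_)
    exact List.mem_flatMap.2 ⟨c, hc, List.mem_ofFn.2 ⟨j, rfl⟩⟩
  obtain ⟨ext, hext⟩ : ∃ ext : (Fin N → Fin d) → ℕ → Fin d,
    ext = fun (ω : Fin N → Fin d) (v : ℕ) => if h : v < N then ω ⟨v, h⟩ else ⟨0, hd⟩ :=
      ⟨_, rfl⟩
  obtain ⟨E, hE⟩ : ∃ E, E = d ^ (∑ i : Fin g, ar i) := ⟨_, rfl⟩
  -- one constraint
  have one : ∀ c ∈ L, Fintype.card (Fin N → Fin d) ≤
      E * ∑ ω : Fin N → Fin d, φ c.1 (fun j => ext ω (c.2 j)) := by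
    intro c hc
    obtain ⟨a, ha⟩ := hL c hc
    obtain ⟨good, hgood⟩ : ∃ good : Finset (Fin N → Fin d), good =
      Finset.univ.filter (fun ω => 1 ≤ φ c.1 (fun j => ext ω (c.2 j))) := ⟨_, rfl⟩
    have h1 : good.card ≤ ∑ ω : Fin N → Fin d, φ c.1 (fun j => ext ω (c.2 j)) := by
      rw [hgood, Finset.card_filter]
      refine Finset.sum_le_sum fun ω _ => ?_
      split_ifs with h
      · exact h
      · exact Nat.zero_le _
    obtain ⟨ow, how⟩ : ∃ ow : (Fin N → Fin d) → (Fin N → Fin d),
      ow = fun (ω : Fin N → Fin d) (v : Fin N) =>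
        if ∃ j, c.2 j = (v : ℕ) then a v else ω v := ⟨_, rfl⟩
    have h2 : ∀ ω, ow ω ∈ good := by
      intro ω
      rw [hgood, Finset.mem_filter]
      refine ⟨Finset.mem_univ _, ?_⟩
      have : (fun j => ext (ow ω) (c.2 j)) = fun j => a (c.2 j) := by
        funext j
        rw [hext, how]
        simp only
        rw [dif_pos (hN c hc j), if_pos ⟨j, rfl⟩]
      rw [this]
      exact ha
    have h3 : Fintype.card (Fin N → Fin d) ≤
        (good ×ˢ (Finset.univ : Finset (Fin (ar c.1) → Fin d))).card := by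
      rw [← Finset.card_univ]
      refine Finset.card_le_card_of_injOn (fun ω => (ow ω, fun j => ext ω (c.2 j))) ?_ ?_
      · intro ω _
        simp only [Finset.coe_product, Set.mem_prod, Finset.mem_coe, Finset.mem_univ, and_true]
        exact h2 ω
      · intro ω _ ω' _ h
        simp only [Prod.mk.injEq] at h
        funext v
        by_cases hv : ∃ j, c.2 j = (v : ℕ)
        · obtain ⟨j, hj⟩ := hv
          have h5 := congrFun h.2 j
          rw [hext] at h5
          simp only [hj] at h5
          rw [dif_pos v.2, dif_pos v.2] at h5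
          exact h5
        · have h5 := congrFun h.1 v
          rw [how] at h5
          simp only [if_neg hv] at h5
          exact h5
    have h3' : Fintype.card (Fin (ar c.1) → Fin d) = d ^ ar c.1 := by
      rw [Fintype.card_fun, Fintype.card_fin, Fintype.card_fin]
    rw [Finset.card_product, Finset.card_univ (α := Fin (ar c.1) → Fin d), h3'] at h3
    have h4 : d ^ ar c.1 ≤ E := by
      rw [hE]
      refine Nat.pow_le_pow_right hd ?_
      exact Finset.single_le_sum (f := fun i : Fin g => ar i) (fun _ _ => Nat.zero_le _)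
        (Finset.mem_univ c.1)
    calc Fintype.card (Fin N → Fin d) ≤ good.card * d ^ ar c.1 := h3
      _ ≤ (∑ ω : Fin N → Fin d, φ c.1 (fun j => ext ω (c.2 j))) * E := Nat.mul_le_mul h1 h4
      _ = _ := Nat.mul_comm _ _
  -- all constraints
  have all : L.length * Fintype.card (Fin N → Fin d) ≤
      E * ∑ ω : Fin N → Fin d, valC φ (ext ω) L := by
    have h1 : ∑ ω : Fin N → Fin d, valC φ (ext ω) L =
        (L.map (fun c => ∑ ω : Fin N → Fin d, φ c.1 (fun j => ext ω (c.2 j)))).sum :=
      sum_list_comm L (fun ω c => φ c.1 (fun j => ext ω (c.2 j)))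
    rw [h1, ← List.sum_map_mul_left]
    calc L.length * Fintype.card (Fin N → Fin d) =
          (L.map (fun _ => Fintype.card (Fin N → Fin d))).sum := by
            rw [List.map_const', List.sum_replicate, smul_eq_mul]
      _ ≤ _ := List.sum_le_sum one
  by_contra hcon
  push Not at hcon
  have h2 : ∑ ω : Fin N → Fin d, (E * valC φ (ext ω) L + 1) ≤
      ∑ _ω : Fin N → Fin d, L.length := by
    refine Finset.sum_le_sum fun ω _ => ?_
    have := hcon (ext ω)
    rw [← hE] at this
    exact this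
  rw [Finset.sum_add_distrib, ← Finset.mul_sum, Finset.sum_const, Finset.sum_const,
    Finset.card_univ, smul_eq_mul, smul_eq_mul, Nat.mul_one] at h2
  have h3 : 0 < Fintype.card (Fin N → Fin d) := by
    rw [Fintype.card_fun, Fintype.card_fin, Fintype.card_fin]
    positivity
  have h4 := all
  rw [Nat.mul_comm L.length] at h4
  omega

end avg

end Pool.Agent.Lib.MP_87d05f_lc
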