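import Mathlib
import Pool.Agent.Lib.MP_87d05f_lc.Transfer

set_option autoImplicit false

/-!
# Reductions with guesses
-/

namespace Pool.Agent.Lib.MP_87d05f_lc

open Pool.Agent.PolyTime Function Turing

section gs

variable (C e : ℕ) (lf : List Bool → List Bool → Bool ⊕ (List Bool × ℕ))

/-- the search tree of all guesses -/
def gsx (z : List Bool × ℕ) (s : List Bool) : (Bool ⊕ Qry) ⊕ (List Bool × List Bool) :=
  bif decide (s.length < z.2) then Sum.inr (true :: s, false :: s) else
  (lf z.1 s).elim (fun b => Sum.inl (Sum.inl b))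
    (fun q => Sum.inl (Sum.inr (q.1, (C * (q.1.length + 1) ^ e, q.2))))

theorem gsx_ptime (hlf : PTime (fun p : List Bool × List Bool => lf p.1 p.2)) :
    PTime (fun p : (List Bool × ℕ) × List Bool => gsx C e lf p.1 p.2) := by
  unfold gsx
  refine PTime.cond (PTime.nat_lt (PTime.length PTime.snd) (PTime.snd.comp PTime.fst)) ?_ ?_
  · exact PTime.inr (PTime.pair (PTime.cons (PTime.const true) PTime.snd)
      (PTime.cons (PTime.const false) PTime.snd))
  · refine PTime.sum_elim (f := fun p : (List Bool × ℕ) × List Bool => lf p.1.1 p.2)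
      (g := fun _ b => (Sum.inl (Sum.inl b) : (Bool ⊕ Qry) ⊕ (List Bool × List Bool)))
      (h := fun _ (q : List Bool × ℕ) =>
        (Sum.inl (Sum.inr (q.1, (C * (q.1.length + 1) ^ e, q.2))) :
          (Bool ⊕ Qry) ⊕ (List Bool × List Bool))) ?_ (PTime.inl (PTime.inl PTime.snd)) ?_
    · exact hlf.comp ((PTime.fst.comp PTime.fst).pair PTime.snd)
    · have h1 : PTime (fun y : ((List Bool × ℕ) × List Bool) × (List Bool × ℕ) => y.2.1) :=
        PTime.fst.comp PTime.snd
      have h2 : PTime (fun y : ((List Bool × ℕ) × List Bool) × (List Bool × ℕ) => y.2.2) :=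
        PTime.snd.comp PTime.snd
      exact PTime.inl (PTime.inr (h1.pair ((PTime.mul (PTime.const C)
        (PTime.natPow_const (PTime.succ (PTime.length h1)) e)).pair h2)))

variable {tm : FinTM2} {e₀ : tm.Γ tm.k₀ ≃ Bool} {acc rej : List (tm.Γ tm.k₁)}

/-- the answer at a leaf -/
noncomputable def leafA (tm : FinTM2) (e₀ : tm.Γ tm.k₀ ≃ Bool) (acc : List (tm.Γ tm.k₁))
    (x s : List Bool) : Bool :=
  (lf x s).elim (fun b => b) (fun q => ansT tm e₀ acc (q.1, (C * (q.1.length + 1) ^ e, q.2)))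

theorem gsx_lt {x : List Bool} {D : ℕ} {s : List Bool} (h : s.length < D) :
    expandA tm e₀ acc (gsx C e lf) (x, D) s = Sum.inr (true :: s, false :: s) := by
  unfold expandA gsx
  rw [decide_eq_true h]
  rfl

theorem gsx_ge {x : List Bool} {D : ℕ} {s : List Bool} (h : ¬ s.length < D) :
    expandA tm e₀ acc (gsx C e lf) (x, D) s = Sum.inl (leafA C e lf tm e₀ acc x s) := by
  unfold expandA gsx leafA
  rw [decide_eq_false h]
  simp only [cond_false]
  rcases lf x s with b | q <;> rfl

theorem gsx_acc {x : List Bool} {D : ℕ} {s : List Bool} (hs : s.length ≤ D) :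
    AccLeaf (expandA tm e₀ acc (gsx C e lf) (x, D)) s ↔
      ∃ u : List Bool, u.length + s.length = D ∧ leafA C e lf tm e₀ acc x (u ++ s) = true := by
  constructor
  · intro h
    induction h with
    | @leaf s h =>
      by_cases hlt : s.length < D
      · rw [gsx_lt C e lf hlt] at h
        simp at h
      · rw [gsx_ge C e lf hlt] at h
        simp only [Sum.inl.injEq] at h
        exact ⟨[], by simp only [List.length_nil]; omega, by rw [List.nil_append]; exact h⟩
    | @left s l r h h' ih =>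
      by_cases hlt : s.length < D
      · rw [gsx_lt C e lf hlt] at h
        simp only [Sum.inr.injEq, Prod.mk.injEq] at h
        obtain ⟨rfl, rfl⟩ := h
        obtain ⟨u, hu, hu'⟩ := ih (by rw [List.length_cons]; omega)
        refine ⟨u ++ [true], ?_, by rw [List.append_assoc]; exact hu'⟩
        simp only [List.length_append, List.length_cons, List.length_nil] at hu ⊢
        omega
      · rw [gsx_ge C e lf hlt] at h
        simp at h
    | @right s l r h h' ih =>
      by_cases hlt : s.length < D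
      · rw [gsx_lt C e lf hlt] at h
        simp only [Sum.inr.injEq, Prod.mk.injEq] at h
        obtain ⟨rfl, rfl⟩ := h
        obtain ⟨u, hu, hu'⟩ := ih (by rw [List.length_cons]; omega)
        refine ⟨u ++ [false], ?_, by rw [List.append_assoc]; exact hu'⟩
        simp only [List.length_append, List.length_cons, List.length_nil] at hu ⊢
        omega
      · rw [gsx_ge C e lf hlt] at h
        simp at h
  · rintro ⟨u, hu, hl⟩
    induction u using List.reverseRecOn generalizing s with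
    | nil =>
      refine .leaf ?_
      simp only [List.length_nil] at hu
      rw [gsx_ge C e lf (by omega), ← hl, List.nil_append]
    | append_singleton u b ih =>
      simp only [List.length_append, List.length_cons, List.length_nil] at hu
      have hE := gsx_lt C e lf (tm := tm) (e₀ := e₀) (acc := acc) (x := x) (D := D) (s := s)
        (by omega)
      have h1 := ih (s := b :: s) (by rw [List.length_cons]; omega)
        (by rw [List.length_cons]; omega) (by rw [List.append_assoc] at hl; exact hl)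
      rcases b with _ | _
      · exact .right hE h1
      · exact .left hE h1

end gs

/-- reductions with guesses: `dep` is the number of guessed bits, `lf x s` is the answer or the
query for the guess `s` -/
theorem guess_transfer {I₁ I₂ : Type} {en₁ : I₁ → List Bool} {en₂ : I₂ → List Bool}
    {V₁ Y₁ N₁ : I₁ → Prop} {V₂ Y₂ N₂ : I₂ → Prop} {μ₁ : I₁ → ℕ} {μ₂ : I₂ → ℕ} {b₁ b₂ K₀ : ℕ}
    {dep : List Bool → ℕ} {lf : List Bool → List Bool → Bool ⊕ (List Bool × ℕ)}
    (hdep : PTime dep) (hlf : PTime (fun p : List Bool × List Bool => lf p.1 p.2))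
    (hdb : ∀ F, V₁ F → dep (en₁ F) ≤ μ₁ F / b₁ + K₀)
    (hb : ∀ F, V₁ F → ∀ s y h, s.length = dep (en₁ F) → lf (en₁ F) s = Sum.inr (y, h) →
      dep (en₁ F) + h ≤ μ₁ F / b₁ + K₀)
    (hμ : ∀ F, V₁ F → μ₁ F ≤ (en₁ F).length)
    (hY : ∀ F, V₁ F → Y₁ F → ∃ s, s.length = dep (en₁ F) ∧ (lf (en₁ F) s = Sum.inl true ∨
      ∃ F' h, V₂ F' ∧ Y₂ F' ∧ lf (en₁ F) s = Sum.inr (en₂ F', h) ∧ μ₂ F' / b₂ ≤ h))
    (hN : ∀ F, V₁ F → N₁ F → ∀ s, s.length = dep (en₁ F) → (lf (en₁ F) s = Sum.inl false ∨
      ∃ F' h, V₂ F' ∧ N₂ F' ∧ lf (en₁ F) s = Sum.inr (en₂ F', h) ∧ μ₂ F' / b₂ ≤ h))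
    (hsep : GSep en₂ V₂ Y₂ N₂ μ₂ b₂) : GSep en₁ V₁ Y₁ N₁ μ₁ b₁ := by
  obtain ⟨C, e, tm, e₀, acc, rej, hne, hS⟩ := hsep
  have hi : PTime (fun x : List Bool => (((x, dep x), []) : (List Bool × ℕ) × List Bool)) :=
    (PTime.id.pair hdep).pair (PTime.const [])
  obtain ⟨tm', e₀', acc', rej', P, κ, hne', hM⟩ := oracle_search tm e₀ acc hi
    (gsx_ptime C e lf hlf)
  obtain ⟨Pl, hPl⟩ := hlf.sz_le
  -- bounds
  obtain ⟨fB, hfB⟩ : ∃ f : ℕ → ℕ, f = fun L => 8 * (L + K₀) + 10 := ⟨_, rfl⟩
  obtain ⟨fQ, hfQ⟩ : ∃ f : ℕ → ℕ, f = fun L => Pl.eval (16 * (L + K₀) + 21) := ⟨_, rfl⟩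
  obtain ⟨fR, hfR⟩ : ∃ f : ℕ → ℕ, f = fun L => (fQ L + 1) +
    (C * (fQ L + 1) ^ e + 1) * (L + K₀ + 1) := ⟨_, rfl⟩
  obtain ⟨fT, hfT⟩ : ∃ f : ℕ → ℕ, f = fun L => P.eval L + 2 *
    (P.eval (fB L + ((L + K₀ + 1) * (fB L + 1) + 6)) + κ * (fR L + 2)) := ⟨_, rfl⟩
  have pB : PolyB fB := by
    rw [hfB]
    exact ((PolyB.const 8).mul (PolyB.id.add (PolyB.const K₀))).add (PolyB.const 10)
  have pQ : PolyB fQ := by
    rw [hfQ]
    exact PolyB.eval Pl (((PolyB.const 16).mul (PolyB.id.add (PolyB.const K₀))).add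
      (PolyB.const 21))
  have pR : PolyB fR := by
    rw [hfR]
    exact (pQ.add (PolyB.const 1)).add ((((PolyB.const C).mul
      ((pQ.add (PolyB.const 1)).pow e)).add (PolyB.const 1)).mul
        ((PolyB.id.add (PolyB.const K₀)).add (PolyB.const 1)))
  have pT : PolyB (fun L => fT L * 2 ^ K₀) := by
    rw [hfT]
    refine PolyB.mul ((PolyB.eval P PolyB.id).add ((PolyB.const 2).mul ((PolyB.eval P
      (pB.add ((((PolyB.id.add (PolyB.const K₀)).add (PolyB.const 1)).mul
        (pB.add (PolyB.const 1))).add (PolyB.const 6)))).add ((PolyB.const κ).mul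
          (pR.add (PolyB.const 2)))))) (PolyB.const _)
  obtain ⟨C', e', hC'⟩ := pT
  refine ⟨C', e', tm', e₀', acc', rej', hne', fun F hF => ?_⟩
  obtain ⟨x, hx⟩ : ∃ x, x = en₁ F := ⟨_, rfl⟩
  obtain ⟨L, hL⟩ : ∃ L, L = x.length := ⟨_, rfl⟩
  obtain ⟨D, hD⟩ : ∃ D, D = dep x := ⟨_, rfl⟩
  obtain ⟨m, hm⟩ : ∃ m, m = μ₁ F / b₁ := ⟨_, rfl⟩
  have hmL : m ≤ L := by
    rw [hm, hL, hx]
    exact (Nat.div_le_self _ _).trans (hμ F hF)
  have hDm : D ≤ m + K₀ := by
    rw [hD, hx, hm]
    exact hdb F hF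
  obtain ⟨t, ht⟩ : ∃ t, t = m + K₀ - D := ⟨_, rfl⟩
  have hsx : sz x ≤ 4 * L + 1 := by
    rw [hL]
    exact sz_listBool_le x
  -- the machine on this input
  have hrun := hM x (fun s => s.length ≤ D) (fun s => D - s.length)
    (fun s => 2 ^ (D - s.length + 1) - 1) (fB L) (fR L * 2 ^ t) ?_ ?_ ?_ ?_ ?_ ?_
    (C' * (L + 1) ^ e' * 2 ^ m) ?_
  · change (AccLeaf (expandA tm e₀ acc (gsx C e lf) (x, dep x)) [] →
      Nonempty (TM2OutputsInTime tm' (x.map e₀'.symm) (some acc') (C' * (L + 1) ^ e' * 2 ^ m))) ∧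
      (¬ AccLeaf (expandA tm e₀ acc (gsx C e lf) (x, dep x)) [] →
      Nonempty (TM2OutputsInTime tm' (x.map e₀'.symm) (some rej')
        (C' * (L + 1) ^ e' * 2 ^ m))) at hrun
    rw [← hD] at hrun
    rw [hm, hL, hx] at hrun
    have hacc := gsx_acc C e lf (tm := tm) (e₀ := e₀) (acc := acc) (x := x) (D := D)
      (s := []) (Nat.zero_le _)
    simp only [List.append_nil, List.length_nil, Nat.add_zero] at hacc
    rw [hx] at hacc
    rw [hx] at hD
    have hq : ∀ (F' : I₂) (h : ℕ), μ₂ F' / b₂ ≤ h →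
        C * ((en₂ F').length + 1) ^ e * 2 ^ (μ₂ F' / b₂) ≤
          C * ((en₂ F').length + 1) ^ e * 2 ^ h := fun F' h hh =>
      Nat.mul_le_mul_left _ (Nat.pow_le_pow_right (by norm_num) hh)
    constructor
    · intro hy
      refine hrun.1 (hacc.2 ?_)
      obtain ⟨s, hs, h⟩ := hY F hF hy
      refine ⟨s, by rw [hD]; exact hs, ?_⟩
      unfold leafA
      rcases h with h | ⟨F', h', hV, hY', h, hle⟩
      · rw [h]
        rfl
      · rw [h]
        have h1 := outputs_mono (hq F' h' hle) ((hS F' hV).1 hY')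
        exact (ansT_of_outputs tm e₀ acc acc
          ((en₂ F', (C * ((en₂ F').length + 1) ^ e, h')) : Qry) h1).2 rfl
    · intro hn
      refine hrun.2 fun ha => ?_
      obtain ⟨s, hs, h⟩ := hacc.1 ha
      rw [hD] at hs
      unfold leafA at h
      rcases hN F hF hn s hs with h' | ⟨F', h', hV, hN', h2, hle⟩
      · rw [h'] at h
        simp at h
      · rw [h2] at h
        have h1 := outputs_mono (hq F' h' hle) ((hS F' hV).2 hN')
        have h3 := (ansT_of_outputs tm e₀ acc rej
          ((en₂ F', (C * ((en₂ F').length + 1) ^ e, h')) : Qry) h1).1 h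
        exact hne h3.symm
  · intro s hs
    by_cases hlt : s.length < D
    · right
      refine ⟨true :: s, false :: s, ?_, ?_, ?_, ?_, ?_, ?_⟩
      · change expandA tm e₀ acc (gsx C e lf) (x, dep x) s = _
        rw [← hD]
        exact gsx_lt C e lf hlt
      · rw [List.length_cons]; omega
      · rw [List.length_cons]; omega
      · rw [List.length_cons]; omega
      · rw [List.length_cons]; omega
      · simp only [List.length_cons]
        obtain ⟨k, hk⟩ : ∃ k, D - s.length = k + 1 := ⟨D - s.length - 1, by omega⟩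
        have e1 : D - (s.length + 1) + 1 = k + 1 := by omega
        have e2 : D - s.length + 1 = k + 1 + 1 := by omega
        rw [e1, e2, pow_succ 2 (k + 1)]
        have : 1 ≤ 2 ^ (k + 1) := Nat.one_le_two_pow
        generalize 2 ^ (k + 1) = Z at *
        omega
    · left
      refine ⟨leafA C e lf tm e₀ acc x s, ?_⟩
      change expandA tm e₀ acc (gsx C e lf) (x, dep x) s = _
      rw [← hD]
      exact gsx_ge C e lf hlt
  · intro s
    have : 2 ^ (D - s.length + 1) = 2 * 2 ^ (D - s.length) := by rw [pow_succ]; ring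
    have h2 : 1 ≤ 2 ^ (D - s.length) := Nat.one_le_two_pow
    generalize 2 ^ (D - s.length) = Z at *
    omega
  · exact Nat.zero_le _
  · intro s hs
    have h1 := sz_listBool_le s
    rw [hfB]
    simp only
    omega
  · change sz ((x, dep x) : List Bool × ℕ) ≤ _
    rw [← hD, hfB, sz_pair, sz_nat]
    simp only
    omega
  · intro s q hs hq
    change gsx C e lf (x, dep x) s = _ at hq
    rw [← hD] at hq
    unfold gsx at hq
    by_cases hlt : s.length < D
    · rw [decide_eq_true hlt] at hq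
      simp at hq
    · rw [decide_eq_false hlt] at hq
      simp only [cond_false] at hq
      rcases hl : lf x s with b | y
      · rw [hl] at hq
        simp at hq
      · rw [hl] at hq
        simp only [Sum.elim_inr, Sum.inl.injEq, Sum.inr.injEq] at hq
        subst hq
        have hslen : s.length = D := le_antisymm hs (not_lt.1 hlt)
        have hb' := hb F hF s y.1 y.2 (by rw [hslen, hD, hx]) (by rw [← hx, hl])
        rw [← hx, ← hD, ← hm] at hb'
        have hyt : y.2 ≤ t := by omega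
        have hyl : y.1.length ≤ fQ L := by
          have e1 := length_le_sz y.1
          have e2 := hPl (x, s)
          simp only at e2
          rw [hl] at e2
          have e3 : sz (Sum.inr y : Bool ⊕ (List Bool × ℕ)) = 1 + (1 + 1 + 1) + sz y := by
            simp only [sz_inr]
            omega
          have e4 : sz y = 1 + sz y.1 + sz y.2 := by
            rcases y with ⟨y1, y2⟩
            simp only [sz_pair]
            omega
          have e5 : sz ((x, s) : List Bool × List Bool) ≤ 16 * (L + K₀) + 21 := by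
            have := sz_listBool_le s
            rw [sz_pair]
            omega
          have e6 := eval_mono Pl e5
          rw [hfQ]
          simp only
          omega
        unfold qcost
        simp only
        rw [hfR]
        change y.1.length + 1 + (C * (y.1.length + 1) ^ e + 1) * (2 ^ y.2 * (y.2 + 1)) ≤
          ((fQ L + 1) + (C * (fQ L + 1) ^ e + 1) * (L + K₀ + 1)) * 2 ^ t
        have g5 : C * (y.1.length + 1) ^ e + 1 ≤ C * (fQ L + 1) ^ e + 1 :=
          Nat.add_le_add_right (Nat.mul_le_mul_left _ (Nat.pow_le_pow_left (by omega) _)) 1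
        have g7 : 2 ^ y.2 * (y.2 + 1) ≤ 2 ^ t * (L + K₀ + 1) :=
          Nat.mul_le_mul (Nat.pow_le_pow_right (by norm_num) hyt) (by omega)
        have g8 := Nat.mul_le_mul g5 g7
        have g9 : (fQ L + 1) * 1 ≤ (fQ L + 1) * 2 ^ t :=
          Nat.mul_le_mul_left _ Nat.one_le_two_pow
        have g10 : ((fQ L + 1) + (C * (fQ L + 1) ^ e + 1) * (L + K₀ + 1)) * 2 ^ t =
            (fQ L + 1) * 2 ^ t + (C * (fQ L + 1) ^ e + 1) * (2 ^ t * (L + K₀ + 1)) := by ring
        rw [g10]
        omega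
  · change P.eval x.length + (2 ^ (D - 0 + 1) - 1) *
      (P.eval (fB L + ((D - 0 + 1) * (fB L + 1) + 6)) + κ * (fR L * 2 ^ t + 2)) ≤ _
    rw [← hL, Nat.sub_zero]
    have a1 : P.eval (fB L + ((D + 1) * (fB L + 1) + 6)) ≤
        P.eval (fB L + ((L + K₀ + 1) * (fB L + 1) + 6)) := by
      refine eval_mono P ?_
      have := Nat.mul_le_mul_right (fB L + 1) (show D + 1 ≤ L + K₀ + 1 by omega)
      omega
    have a2 : 1 ≤ 2 ^ t := Nat.one_le_two_pow
    have a3 : P.eval (fB L + ((D + 1) * (fB L + 1) + 6)) + κ * (fR L * 2 ^ t + 2) ≤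
        (P.eval (fB L + ((L + K₀ + 1) * (fB L + 1) + 6)) + κ * (fR L + 2)) * 2 ^ t := by
      have b1 : P.eval (fB L + ((L + K₀ + 1) * (fB L + 1) + 6)) * 1 ≤
          P.eval (fB L + ((L + K₀ + 1) * (fB L + 1) + 6)) * 2 ^ t := Nat.mul_le_mul_left _ a2
      have b2 : κ * (fR L * 2 ^ t + 2) ≤ κ * ((fR L + 2) * 2 ^ t) := by
        refine Nat.mul_le_mul_left _ ?_
        rw [Nat.add_mul]
        omega
      have b3 : (P.eval (fB L + ((L + K₀ + 1) * (fB L + 1) + 6)) + κ * (fR L + 2)) * 2 ^ t =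
          P.eval (fB L + ((L + K₀ + 1) * (fB L + 1) + 6)) * 2 ^ t +
            κ * ((fR L + 2) * 2 ^ t) := by ring
      rw [b3]
      omega
    have a4 : 2 ^ (D + 1) - 1 ≤ 2 * 2 ^ D := by
      rw [pow_succ]
      omega
    have a5 := Nat.mul_le_mul a4 a3
    have a6 : 2 ^ D * 2 ^ t = 2 ^ K₀ * 2 ^ m := by
      rw [← pow_add, ← pow_add]
      congr 1
      omega
    have a7 := Nat.mul_le_mul_right (2 ^ m) (hC' L)
    have a8 : fT L * 2 ^ K₀ * 2 ^ m = P.eval L * (2 ^ K₀ * 2 ^ m) +
        2 * 2 ^ D * ((P.eval (fB L + ((L + K₀ + 1) * (fB L + 1) + 6)) + κ * (fR L + 2)) *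
          2 ^ t) := by
      rw [hfT]
      simp only
      calc _ = P.eval L * (2 ^ K₀ * 2 ^ m) + 2 *
            (P.eval (fB L + ((L + K₀ + 1) * (fB L + 1) + 6)) + κ * (fR L + 2)) *
              (2 ^ K₀ * 2 ^ m) := by ring
        _ = P.eval L * (2 ^ K₀ * 2 ^ m) + 2 *
            (P.eval (fB L + ((L + K₀ + 1) * (fB L + 1) + 6)) + κ * (fR L + 2)) *
              (2 ^ D * 2 ^ t) := by rw [a6]
        _ = _ := by ring
    have a9 : P.eval L * 1 ≤ P.eval L * (2 ^ K₀ * 2 ^ m) :=
      Nat.mul_le_mul_left _ (Nat.mul_pos (by positivity) (by positivity))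
    rw [a8] at a7
    omega

end Pool.Agent.Lib.MP_87d05f_lc
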