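import Mathlib
import Pool.Agent.Lib.MP_87d05f_lc.Average
import Pool.Agent.Lib.MP_87d05f_lc.GuessSearch

set_option autoImplicit false

/-!
# Approximation of the maximum value by guessing the values of groups of constraints
-/

namespace Pool.Agent.Lib.MP_87d05f_lc

open Pool.Agent.PolyTime Function Turing

/-! ### Programs -/

/-- a table: for every symbol, patterns with payoffs -/
abbrev TabP := List (List Bool × List (Pat × ℕ))

/-- the bit assignments of a constraint with their payoffs -/
def optC (tab : TabP) (c : List (List Bool)) : List (List (Lit (List Bool)) × ℕ) :=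
  (Option.casesOn (tab.find? (fun e => decide (e.1 = c.headD []))) []
    (fun e => e.2.map (fun P => (litsOf c.tail P.1, P.2))))

/-- the bit assignments of the first `n` constraints of a list -/
def optG (tab : TabP) : ℕ → List (List (List Bool)) → List (List (Lit (List Bool)) × ℕ)
  | 0, _ => [([], 0)]
  | n + 1, cs => List.casesOn cs [([], 0)] (fun c cs' =>
      (optC tab c).flatMap (fun p => (optG tab n cs').map (fun q => (p.1 ++ q.1, p.2 + q.2))))

/-- no complementary literals -/
def consis (l : List (Lit (List Bool))) : Bool := l.all (fun p => !(decide ((!p.1, p.2) ∈ l)))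

/-- some assignment gives a positive payoff -/
def useful (tab : TabP) (c : List (List Bool)) : Bool :=
  (optC tab c).any (fun p => decide (0 < p.2) && consis p.1)

/-- the number with the given bits, at most `cap` -/
def capval (cap : ℕ) (w : List Bool) : ℕ :=
  w.foldr (fun b n => bif decide (cap ≤ 2 * n + b.toNat) then cap else 2 * n + b.toNat) 0

/-- the guessed value of group `j` -/
def gval (β : ℕ) (s : List Bool) (j : ℕ) : ℕ := capval (2 ^ β) ((s.drop (j * β)).take β)

/-- the clauses of group `j` -/
def grpF (tab : TabP) (B β : ℕ) (us : List (List (List Bool))) (s : List Bool) (j : ℕ) : BF' :=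
  ((optG tab B ((us.drop (j * B)).take B)).filter (fun p => decide (p.2 < gval β s j))).map
    Prod.fst

/-- the formula of a guess -/
def allF (tab : TabP) (B β : ℕ) (us : List (List (List Bool))) (s : List Bool) : BF' :=
  (List.range (mydiv us.length B + 1)).flatMap (grpF tab B β us s)

/-- the sum of the guesses -/
def sumG (B β : ℕ) (us : List (List (List Bool))) (s : List Bool) : ℕ :=
  ((List.range (mydiv us.length B + 1)).flatMap (fun j => List.replicate (gval β s j) ())).length

/-- the useful constraints of an input -/
def usI (tab : TabP) (x : List Bool) : List (List (List Bool)) :=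
  (parseW x).tail.filter (useful tab)

/-- the threshold of an input -/
def thI (x : List Bool) : ℕ := (((parseW x).headD []).headD []).length

/-- the number of guessed bits -/
def depI (tab : TabP) (B β : ℕ) (x : List Bool) : ℕ := β * (mydiv (usI tab x).length B + 1)

/-- what to do at a leaf -/
def lfI (tab : TabP) (B β Φ E b4 : ℕ) (x s : List Bool) : Bool ⊕ (List Bool × ℕ) :=
  bif decide (thI x * E ≤ (usI tab x).length) then Sum.inl true else
  bif decide (Φ * (usI tab x).length < thI x) then Sum.inl false else
  bif decide (sumG B β (usI tab x) s < thI x) then Sum.inl false else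
  Sum.inr (encG (orOne (allF tab B β (usI tab x) s)), mydiv (usI tab x).length b4)

theorem optC_ptime {α : Type} [SCode α] (tab : TabP) {c : α → List (List Bool)} (hc : PTime c) :
    PTime (fun a => optC tab (c a)) := by
  unfold optC
  refine PTime.option_casesOn
    (f := fun a => tab.find? (fun e => decide (e.1 = (c a).headD [])))
    (g := fun _ => ([] : List (List (Lit (List Bool)) × ℕ)))
    (h := fun a e => e.2.map (fun P => (litsOf (c a).tail P.1, P.2))) ?_ (PTime.const _) ?_
  · refine PTime.find? (l := fun _ => tab) (p := fun a (e : List Bool × List (Pat × ℕ)) =>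
      decide (e.1 = (c a).headD [])) (PTime.const tab) ?_
    exact PTime.eq (PTime.fst.comp PTime.snd) (PTime.headD (hc.comp PTime.fst) (PTime.const []))
  · refine PTime.map (l := fun q : α × (List Bool × List (Pat × ℕ)) => q.2.2)
      (f := fun q (P : Pat × ℕ) => (litsOf (c q.1).tail P.1, P.2)) (PTime.snd.comp PTime.snd) ?_
    refine PTime.pair ?_ (PTime.snd.comp PTime.snd)
    unfold litsOf
    refine PTime.map (l := fun q : (α × (List Bool × List (Pat × ℕ))) × (Pat × ℕ) => q.2.1)
      (f := fun q (r : ℕ × ℕ × Bool) =>
        ((r.2.2, nb ((c q.1.1).tail.getD r.1 []) r.2.1) : Lit (List Bool)))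
      (PTime.fst.comp PTime.snd) ?_
    have h1 : PTime (fun y : ((α × (List Bool × List (Pat × ℕ))) × (Pat × ℕ)) × (ℕ × ℕ × Bool) =>
        (c y.1.1.1).tail) := PTime.tail (hc.comp (PTime.fst.comp (PTime.fst.comp PTime.fst)))
    have h2 : PTime (fun y : ((α × (List Bool × List (Pat × ℕ))) × (Pat × ℕ)) × (ℕ × ℕ × Bool) =>
        y.2.1) := PTime.fst.comp PTime.snd
    have h3 : PTime (fun y : ((α × (List Bool × List (Pat × ℕ))) × (Pat × ℕ)) × (ℕ × ℕ × Bool) =>
        y.2.2.1) := PTime.fst.comp (PTime.snd.comp PTime.snd)
    have h4 : PTime (fun y : ((α × (List Bool × List (Pat × ℕ))) × (Pat × ℕ)) × (ℕ × ℕ × Bool) =>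
        y.2.2.2) := PTime.snd.comp (PTime.snd.comp PTime.snd)
    exact h4.pair (nb_ptime (PTime.getD h2 h1 (PTime.const [])) h3)

theorem optG_ptime (tab : TabP) (n : ℕ) : PTime (fun cs : List (List (List Bool)) =>
    optG tab n cs) := by
  induction n with
  | zero => exact PTime.const _
  | succ n ih =>
    change PTime (fun cs : List (List (List Bool)) =>
      (List.casesOn cs [([], 0)] (fun c cs' =>
      (optC tab c).flatMap (fun p => (optG tab n cs').map (fun q => (p.1 ++ q.1, p.2 + q.2)))) :
        List (List (Lit (List Bool)) × ℕ)))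
    refine PTime.list_casesOn (f := fun cs : List (List (List Bool)) => cs)
      (g := fun _ => ([([], 0)] : List (List (Lit (List Bool)) × ℕ)))
      (h := fun _ c cs' => (optC tab c).flatMap (fun p =>
        (optG tab n cs').map (fun q => (p.1 ++ q.1, p.2 + q.2)))) PTime.id (PTime.const _) ?_
    refine PTime.flatMap
      (l := fun a : List (List (List Bool)) × List (List Bool) × List (List (List Bool)) =>
        optC tab a.2.1)
      (f := fun a (p : List (Lit (List Bool)) × ℕ) =>
        (optG tab n a.2.2).map (fun q => (p.1 ++ q.1, p.2 + q.2)))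
      (optC_ptime tab (PTime.fst.comp PTime.snd)) ?_
    refine PTime.map
      (l := fun a : (List (List (List Bool)) × List (List Bool) × List (List (List Bool))) ×
        (List (Lit (List Bool)) × ℕ) => optG tab n a.1.2.2)
      (f := fun a (q : List (Lit (List Bool)) × ℕ) => (a.2.1 ++ q.1, a.2.2 + q.2))
      (ih.comp (PTime.snd.comp (PTime.snd.comp PTime.fst))) ?_
    exact (PTime.append (PTime.fst.comp (PTime.snd.comp PTime.fst))
      (PTime.fst.comp PTime.snd)).pair (PTime.add (PTime.snd.comp (PTime.snd.comp PTime.fst))
        (PTime.snd.comp PTime.snd))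

theorem useful_ptime {α : Type} [SCode α] (tab : TabP) {c : α → List (List Bool)}
    (hc : PTime c) : PTime (fun a => useful tab (c a)) := by
  unfold useful
  refine PTime.any (l := fun a => optC tab (c a))
    (p := fun _ (p : List (Lit (List Bool)) × ℕ) => decide (0 < p.2) && consis p.1)
    (optC_ptime tab hc) ?_
  refine PTime.and (PTime.nat_lt (PTime.const 0) (PTime.snd.comp PTime.snd)) ?_
  unfold consis
  refine PTime.all (l := fun q : α × (List (Lit (List Bool)) × ℕ) => q.2.1)
    (p := fun q (r : Lit (List Bool)) => !(decide ((!r.1, r.2) ∈ q.2.1)))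
    (PTime.fst.comp PTime.snd) ?_
  refine PTime.not (mem_ptime ?_ (PTime.fst.comp (PTime.snd.comp PTime.fst)))
  exact (PTime.not (PTime.fst.comp PTime.snd)).pair (PTime.snd.comp PTime.snd)

theorem capval_le (cap : ℕ) (w : List Bool) : capval cap w ≤ cap := by
  unfold capval
  cases w with
  | nil => simp
  | cons b w =>
    rw [List.foldr_cons]
    by_cases h : cap ≤ 2 * (w.foldr (fun b n => bif decide (cap ≤ 2 * n + b.toNat) then cap
      else 2 * n + b.toNat) 0) + b.toNat
    · rw [decide_eq_true h, cond_true]
    · rw [decide_eq_false h, cond_false]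
      omega

theorem toNat_ptime {α : Type} [SCode α] {f : α → Bool} (hf : PTime f) :
    PTime (fun a => (f a).toNat) :=
  (PTime.cond hf (PTime.const 1) (PTime.const 0)).of_eq fun a => by cases f a <;> rfl

theorem capval_ptime {α : Type} [SCode α] (cap : ℕ) {w : α → List Bool} (hw : PTime w) :
    PTime (fun a => capval cap (w a)) := by
  have h : PTime (fun w : List Bool => capval cap w) := by
    unfold capval
    refine PTime.foldr (f := fun (_ : List Bool) b n =>
      bif decide (cap ≤ 2 * n + b.toNat) then cap else 2 * n + b.toNat) PTime.id (PTime.const 0)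
      ?_ (Polynomial.C (2 * cap + 10)) ?_
    · have h1 : PTime (fun p : List Bool × Bool × ℕ => 2 * p.2.2 + p.2.1.toNat) :=
        PTime.add (PTime.mul (PTime.const 2) (PTime.snd.comp PTime.snd))
          (toNat_ptime (PTime.fst.comp PTime.snd))
      exact PTime.cond (PTime.nat_le (PTime.const cap) h1) (PTime.const cap) h1
    · intro a n b _
      rw [Polynomial.eval_C]
      by_cases h : cap ≤ 2 * n + b.toNat
      · rw [decide_eq_true h, cond_true, sz_nat, sz_nat]
        omega
      · rw [decide_eq_false h, cond_false, sz_nat, sz_nat]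
        omega
  exact h.comp hw

theorem gval_ptime {α : Type} [SCode α] (β : ℕ) {s : α → List Bool} {j : α → ℕ} (hs : PTime s)
    (hj : PTime j) : PTime (fun a => gval β (s a) (j a)) := by
  unfold gval
  exact capval_ptime _ (PTime.take (PTime.const β)
    (PTime.drop (PTime.mul hj (PTime.const β)) hs))

theorem allF_ptime {α : Type} [SCode α] (tab : TabP) (B β : ℕ)
    {us : α → List (List (List Bool))} {s : α → List Bool} (hus : PTime us) (hs : PTime s) :
    PTime (fun a => allF tab B β (us a) (s a)) := by
  unfold allF
  refine PTime.flatMap (l := fun a => List.range (mydiv (us a).length B + 1))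
    (f := fun a j => grpF tab B β (us a) (s a) j)
    (PTime.range (PTime.succ (mydiv_ptime (PTime.length hus) (PTime.const B)))) ?_
  unfold grpF
  refine PTime.map (l := fun q : α × ℕ =>
    (optG tab B (((us q.1).drop (q.2 * B)).take B)).filter
      (fun p => decide (p.2 < gval β (s q.1) q.2)))
    (f := fun _ (p : List (Lit (List Bool)) × ℕ) => p.1) ?_ (PTime.fst.comp PTime.snd)
  refine PTime.filter (l := fun q : α × ℕ => optG tab B (((us q.1).drop (q.2 * B)).take B))
    (p := fun q (p : List (Lit (List Bool)) × ℕ) => decide (p.2 < gval β (s q.1) q.2)) ?_ ?_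
  · exact (optG_ptime tab B).comp (PTime.take (PTime.const B)
      (PTime.drop (PTime.mul PTime.snd (PTime.const B)) (hus.comp PTime.fst)))
  · exact PTime.nat_lt (PTime.snd.comp PTime.snd)
      (gval_ptime β (hs.comp (PTime.fst.comp PTime.fst)) (PTime.snd.comp PTime.fst))

theorem sumG_ptime {α : Type} [SCode α] (B β : ℕ)
    {us : α → List (List (List Bool))} {s : α → List Bool} (hus : PTime us) (hs : PTime s) :
    PTime (fun a => sumG B β (us a) (s a)) := by
  unfold sumG
  refine PTime.length (PTime.flatMap (l := fun a => List.range (mydiv (us a).length B + 1))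
    (f := fun a j => List.replicate (gval β (s a) j) ())
    (PTime.range (PTime.succ (mydiv_ptime (PTime.length hus) (PTime.const B)))) ?_)
  exact PTime.replicate (gval_ptime β (hs.comp PTime.fst) PTime.snd) (PTime.const ())

theorem usI_ptime (tab : TabP) : PTime (usI tab) := by
  unfold usI
  refine PTime.filter (l := fun x => (parseW x).tail)
    (p := fun (_ : List Bool) (c : List (List Bool)) => useful tab c)
    (PTime.tail parseW_ptime) (useful_ptime tab PTime.snd)

theorem thI_ptime : PTime thI := by
  unfold thI
  exact PTime.length (PTime.headD (PTime.headD parseW_ptime (PTime.const [])) (PTime.const []))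

theorem depI_ptime (tab : TabP) (B β : ℕ) : PTime (depI tab B β) := by
  unfold depI
  exact PTime.mul (PTime.const β) (PTime.succ (mydiv_ptime (PTime.length (usI_ptime tab))
    (PTime.const B)))

theorem lfI_ptime (tab : TabP) (B β Φ E b4 : ℕ) :
    PTime (fun p : List Bool × List Bool => lfI tab B β Φ E b4 p.1 p.2) := by
  unfold lfI
  have hu : PTime (fun p : List Bool × List Bool => usI tab p.1) :=
    (usI_ptime tab).comp PTime.fst
  have hl : PTime (fun p : List Bool × List Bool => (usI tab p.1).length) := PTime.length hu
  have ht : PTime (fun p : List Bool × List Bool => thI p.1) := thI_ptime.comp PTime.fst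
  refine PTime.cond (PTime.nat_le (PTime.mul ht (PTime.const E)) hl) (PTime.const _)
    (PTime.cond (PTime.nat_lt (PTime.mul (PTime.const Φ) hl) ht) (PTime.const _)
      (PTime.cond (PTime.nat_lt (sumG_ptime B β hu PTime.snd) ht) (PTime.const _) ?_))
  refine PTime.inr (PTime.pair (encG_ptime ?_) (mydiv_ptime hl (PTime.const b4)))
  unfold orOne
  have h := allF_ptime tab B β hu (s := fun p : List Bool × List Bool => p.2) PTime.snd
  exact PTime.cond (PTime.isEmpty h) (PTime.const _) h

end Pool.Agent.Lib.MP_87d05f_lc
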