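import Mathlib
import Pool.Agent.Lib.MP_87d05f_lc.MaxRev

set_option autoImplicit false

/-!
# Semantics of the guessing reduction
-/

namespace Pool.Agent.Lib.MP_87d05f_lc

open Pool.Agent.PolyTime Function Turing

theorem falsB_append {V : Type} (b : V → Bool) (l l' : List (Lit V)) :
    falsB b (l ++ l') = (falsB b l && falsB b l') := by
  unfold falsB
  rw [List.any_append, Bool.not_or]

theorem consis_of_fals {b : List Bool → Bool} {l : List (Lit (List Bool))}
    (h : falsB b l = true) : consis l = true := by
  unfold consis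
  rw [List.all_eq_true]
  intro p hp
  rw [Bool.not_eq_true', decide_eq_false_iff_not]
  intro hp'
  rw [falsB_iff] at h
  have h1 := h p hp
  have h2 := h _ hp'
  unfold tr at h1 h2
  simp only at h2
  revert h1 h2
  generalize b p.2 = x
  generalize p.1 = y
  revert x y
  decide

theorem fals_of_consis {l : List (Lit (List Bool))} (h : consis l = true) :
    ∃ b : List Bool → Bool, falsB b l = true := by
  refine ⟨fun v => decide ((false, v) ∈ l), ?_⟩
  rw [falsB_iff]
  rintro ⟨sg, v⟩ hp
  unfold consis at h
  rw [List.all_eq_true] at h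
  have h1 := h _ hp
  rw [Bool.not_eq_true', decide_eq_false_iff_not] at h1
  unfold tr
  simp only at h1 ⊢
  rcases sg with _ | _
  · rw [decide_eq_true hp]
    simp
  · rw [Bool.not_true] at h1
    rw [decide_eq_false h1]
    simp

theorem find_finRange {γ : Type} {g : ℕ} (f : Fin g → γ) (i : Fin g) :
    ((List.finRange g).map (fun (i : Fin g) => (Nat.bits (i : ℕ), f i))).find?
      (fun e => decide (e.1 = Nat.bits (i : ℕ))) = some (Nat.bits (i : ℕ), f i) := by
  have key : ∀ l : List (Fin g), i ∈ l →
      (l.map (fun (i : Fin g) => (Nat.bits (i : ℕ), f i))).find?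
        (fun e => decide (e.1 = Nat.bits (i : ℕ))) = some (Nat.bits (i : ℕ), f i) := by
    intro l
    induction l with
    | nil => intro h; simp at h
    | cons k l ih =>
      intro h
      rw [List.map_cons, List.find?_cons]
      by_cases hk : k = i
      · subst hk
        simp
      · have hne : Nat.bits (k : ℕ) ≠ Nat.bits (i : ℕ) := fun h' =>
          hk (Fin.ext (bits_injective h'))
        simp only [decide_eq_false hne]
        exact ih (by rcases List.mem_cons.1 h with h | h
                     · exact absurd h.symm hk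
                     · exact h)
  exact key _ (List.mem_finRange i)

section sem

variable {g d W : ℕ} {ar : Fin g → ℕ} (φ : (i : Fin g) → (Fin (ar i) → Fin d) → ℕ)
  (dc : (Fin W → Bool) → Fin d)

/-- all bit assignments of a constraint -/
noncomputable def allP (n W : ℕ) : List (Fin n → Fin W → Bool) :=
  (Finset.univ : Finset (Fin n → Fin W → Bool)).toList

/-- the table of a payoff language -/
noncomputable def tabP : TabP :=
  (List.finRange g).map (fun (i : Fin g) => (Nat.bits (i : ℕ),
    (allP (ar i) W).map (fun β => (patOf β, φ i (fun j => dc (β j))))))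

theorem optC_wordC (c : Con ar) : optC (tabP φ dc) (wordC c) =
    (allP (ar c.1) W).map (fun β => (clauseOf c β, φ c.1 (fun j => dc (β j)))) := by
  unfold optC
  have h : (wordC c).headD [] = Nat.bits (c.1 : ℕ) := rfl
  rw [h]
  unfold tabP
  rw [find_finRange (fun i => (allP (ar i) W).map (fun β => (patOf β, φ i (fun j => dc (β j)))))
    c.1]
  simp only [List.map_map]
  refine List.map_congr_left fun β _ => ?_
  simp only [Function.comp, litsOf_patOf]

/-- the payoff of a constraint -/
def payB (b : List Bool → Bool) (c : Con ar) : ℕ := φ c.1 (fun j => decA dc b (c.2 j))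

theorem optC_spec (b : List Bool → Bool) (c : Con ar) :
    (∃ p ∈ optC (tabP φ dc) (wordC c), falsB b p.1 = true ∧ p.2 = payB φ dc b c) ∧
    ∀ p ∈ optC (tabP φ dc) (wordC c), falsB b p.1 = true → p.2 = payB φ dc b c := by
  rw [optC_wordC]
  constructor
  · refine ⟨_, List.mem_map.2 ⟨fun j t => b (nb (Nat.bits (c.2 j)) ((t : Fin W) : ℕ)), ?_, rfl⟩,
      (falsB_clauseOf b c _).2 rfl, rfl⟩
    unfold allP
    rw [Finset.mem_toList]
    exact Finset.mem_univ _
  · intro p hp h
    obtain ⟨β, _, rfl⟩ := List.mem_map.1 hp
    rw [falsB_clauseOf] at h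
    subst h
    rfl

theorem optG_spec (b : List Bool → Bool) (n : ℕ) : ∀ L : List (Con ar),
    (∃ p ∈ optG (tabP φ dc) n (L.map wordC), falsB b p.1 = true ∧
      p.2 = ((L.take n).map (payB φ dc b)).sum) ∧
    ∀ p ∈ optG (tabP φ dc) n (L.map wordC), falsB b p.1 = true →
      p.2 = ((L.take n).map (payB φ dc b)).sum := by
  induction n with
  | zero =>
    intro L
    constructor
    · exact ⟨_, List.mem_singleton_self _, rfl, rfl⟩
    · intro p hp _
      rw [optG, List.mem_singleton] at hp
      rw [hp]
      rfl
  | succ n ih =>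
    intro L
    rcases L with _ | ⟨c, L⟩
    · constructor
      · exact ⟨_, List.mem_singleton_self _, rfl, rfl⟩
      · intro p hp _
        rw [List.map_nil, optG, List.mem_singleton] at hp
        rw [hp]
        rfl
    · obtain ⟨⟨p, hp, hp1, hp2⟩, hp3⟩ := optC_spec φ dc b c
      obtain ⟨⟨q, hq, hq1, hq2⟩, hq3⟩ := ih L
      have hG : optG (tabP φ dc) (n + 1) ((c :: L).map wordC) =
          (optC (tabP φ dc) (wordC c)).flatMap (fun p =>
            (optG (tabP φ dc) n (L.map wordC)).map (fun q => (p.1 ++ q.1, p.2 + q.2))) := rfl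
      rw [hG, List.take_succ_cons, List.map_cons, List.sum_cons]
      constructor
      · refine ⟨(p.1 ++ q.1, p.2 + q.2), List.mem_flatMap.2 ⟨p, hp, List.mem_map.2 ⟨q, hq, rfl⟩⟩,
          ?_, ?_⟩
        · rw [falsB_append, hp1, hq1]
          rfl
        · simp only
          rw [hp2, hq2]
      · intro r hr h
        obtain ⟨p', hp', hr⟩ := List.mem_flatMap.1 hr
        obtain ⟨q', hq', rfl⟩ := List.mem_map.1 hr
        simp only at h ⊢
        rw [falsB_append, Bool.and_eq_true] at h
        rw [hp3 p' hp' h.1, hq3 q' hq' h.2]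

theorem optG_width (n : ℕ) : ∀ L : List (Con ar), ∀ p ∈ optG (tabP φ dc) n (L.map wordC),
    p.1.length ≤ n * ((∑ i : Fin g, ar i) * W) := by
  induction n with
  | zero =>
    intro L p hp
    rw [optG, List.mem_singleton] at hp
    rw [hp]
    simp
  | succ n ih =>
    intro L
    rcases L with _ | ⟨c, L⟩
    · intro p hp
      rw [List.map_nil, optG, List.mem_singleton] at hp
      rw [hp]
      simp
    · intro r hr
      have hG : optG (tabP φ dc) (n + 1) ((c :: L).map wordC) =
          (optC (tabP φ dc) (wordC c)).flatMap (fun p =>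
            (optG (tabP φ dc) n (L.map wordC)).map (fun q => (p.1 ++ q.1, p.2 + q.2))) := rfl
      rw [hG] at hr
      obtain ⟨p', hp', hr⟩ := List.mem_flatMap.1 hr
      obtain ⟨q', hq', rfl⟩ := List.mem_map.1 hr
      have h1 := ih L q' hq'
      rw [optC_wordC] at hp'
      obtain ⟨β, _, rfl⟩ := List.mem_map.1 hp'
      simp only [List.length_append]
      have h2 : (clauseOf c β).length ≤ (∑ i : Fin g, ar i) * W := by
        unfold clauseOf
        rw [List.length_flatMap]
        have h3 : (List.map (fun (j : Fin (ar c.1)) => ((List.finRange W).map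
          (fun (t : Fin W) => (!(β j t), nb (Nat.bits (c.2 j)) (t : ℕ)))).length)
            (List.finRange (ar c.1))).sum = ar c.1 * W := by
          simp
        rw [h3]
        exact Nat.mul_le_mul_right _ (Finset.single_le_sum (f := fun i : Fin g => ar i)
          (fun _ _ => Nat.zero_le _) (Finset.mem_univ c.1))
      rw [Nat.add_mul, Nat.one_mul]
      omega

theorem optG_vars (n : ℕ) : ∀ L : List (Con ar), ∀ p ∈ optG (tabP φ dc) n (L.map wordC),
    ∀ l ∈ p.1, ∃ v t, v ∈ L.flatMap (fun c => List.ofFn c.2) ∧ t < W ∧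
      l.2 = nb (Nat.bits v) t := by
  induction n with
  | zero =>
    intro L p hp l hl
    rw [optG, List.mem_singleton] at hp
    rw [hp] at hl
    simp at hl
  | succ n ih =>
    intro L
    rcases L with _ | ⟨c, L⟩
    · intro p hp l hl
      rw [List.map_nil, optG, List.mem_singleton] at hp
      rw [hp] at hl
      simp at hl
    · intro r hr l hl
      have hG : optG (tabP φ dc) (n + 1) ((c :: L).map wordC) =
          (optC (tabP φ dc) (wordC c)).flatMap (fun p =>
            (optG (tabP φ dc) n (L.map wordC)).map (fun q => (p.1 ++ q.1, p.2 + q.2))) := rfl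
      rw [hG] at hr
      obtain ⟨p', hp', hr⟩ := List.mem_flatMap.1 hr
      obtain ⟨q', hq', rfl⟩ := List.mem_map.1 hr
      simp only at hl
      rcases List.mem_append.1 hl with hl | hl
      · rw [optC_wordC] at hp'
        obtain ⟨β, _, rfl⟩ := List.mem_map.1 hp'
        obtain ⟨j, _, hl⟩ := List.mem_flatMap.1 hl
        obtain ⟨t, _, rfl⟩ := List.mem_map.1 hl
        refine ⟨c.2 j, t, ?_, t.2, rfl⟩
        rw [List.flatMap_cons]
        exact List.mem_append_left _ (List.mem_ofFn.2 ⟨j, rfl⟩)
      · obtain ⟨v, t, h1, h2, h3⟩ := ih L q' hq' l hl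
        refine ⟨v, t, ?_, h2, h3⟩
        rw [List.flatMap_cons]
        exact List.mem_append_right _ h1

theorem optG_length (n : ℕ) : ∀ L : List (Con ar), (optG (tabP φ dc) n (L.map wordC)).length ≤
    (1 + ∑ i : Fin g, (allP (ar i) W).length) ^ n := by
  induction n with
  | zero => intro L; simp [optG]
  | succ n ih =>
    intro L
    rcases L with _ | ⟨c, L⟩
    · rw [List.map_nil]
      change 1 ≤ _
      exact Nat.one_le_pow _ _ (by omega)
    · have hG : optG (tabP φ dc) (n + 1) ((c :: L).map wordC) =
          (optC (tabP φ dc) (wordC c)).flatMap (fun p =>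
            (optG (tabP φ dc) n (L.map wordC)).map (fun q => (p.1 ++ q.1, p.2 + q.2))) := rfl
      rw [hG, List.length_flatMap]
      simp only [List.length_map, List.map_const', List.sum_replicate, smul_eq_mul]
      rw [pow_succ, Nat.mul_comm]
      refine Nat.mul_le_mul (ih L) ?_
      rw [optC_wordC, List.length_map]
      have := Finset.single_le_sum (f := fun i : Fin g => (allP (ar i) W).length)
        (fun _ _ => Nat.zero_le _) (Finset.mem_univ c.1)
      omega

theorem exists_decA {ec : Fin d → Fin W → Bool} (hec : ∀ v, dc (ec v) = v) (a : ℕ → Fin d) :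
    ∃ b : List Bool → Bool, ∀ v, decA dc b v = a v := by
  obtain ⟨nf, hnf⟩ : ∃ nf : ℕ × Fin W → List Bool,
      nf = fun p => nb (Nat.bits p.1) (p.2 : ℕ) := ⟨_, rfl⟩
  have hinj : Function.Injective nf := by
    rintro ⟨v, t⟩ ⟨v', t'⟩ h
    rw [hnf] at h
    obtain ⟨h1, h2⟩ := nb_inj h
    rw [Prod.mk.injEq]
    exact ⟨bits_injective h1, Fin.ext h2⟩
  refine ⟨Function.extend nf (fun p => ec (a p.1) p.2) (fun _ => false), fun v => ?_⟩
  unfold decA
  have h1 : (fun t : Fin W => Function.extend nf (fun p => ec (a p.1) p.2)
      (fun _ => false) (nb (Nat.bits v) (t : ℕ))) = ec (a v) := by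
    funext t
    have := hinj.extend_apply (fun p => ec (a p.1) p.2) (fun _ => false) (v, t)
    rw [hnf] at this ⊢
    exact this
  rw [h1, hec]

theorem useful_iff {ec : Fin d → Fin W → Bool} (hec : ∀ v, dc (ec v) = v) (c : Con ar) :
    useful (tabP φ dc) (wordC c) = true ↔
      ∃ a : ℕ → Fin d, 1 ≤ φ c.1 (fun j => a (c.2 j)) := by
  unfold useful
  rw [List.any_eq_true]
  constructor
  · rintro ⟨p, hp, h⟩
    rw [Bool.and_eq_true, decide_eq_true_eq] at h
    obtain ⟨b, hb⟩ := fals_of_consis h.2
    have h1 := (optC_spec φ dc b c).2 p hp hb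
    refine ⟨decA dc b, ?_⟩
    unfold payB at h1
    rw [← h1]
    exact h.1
  · rintro ⟨a, ha⟩
    obtain ⟨b, hb⟩ := exists_decA dc hec a
    obtain ⟨p, hp, h1, h2⟩ := (optC_spec φ dc b c).1
    refine ⟨p, hp, ?_⟩
    rw [Bool.and_eq_true, decide_eq_true_eq]
    refine ⟨?_, consis_of_fals h1⟩
    rw [h2]
    unfold payB
    simp only [hb]
    exact ha

end sem

/-! ### Groups and guesses -/

theorem sum_groups (l : List ℕ) (B : ℕ) (J : ℕ) :
    ((List.range J).map (fun j => ((l.drop (j * B)).take B).sum)).sum = (l.take (J * B)).sum := by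
  induction J with
  | zero => simp
  | succ J ih =>
    rw [List.range_succ, List.map_append, List.sum_append, ih]
    simp only [List.map_cons, List.map_nil, List.sum_cons, List.sum_nil, Nat.add_zero]
    rw [← List.sum_append]
    congr 1
    rw [Nat.add_mul, Nat.one_mul, List.take_add]

/-- the bits of a number -/
def padB : ℕ → ℕ → List Bool
  | 0, _ => []
  | β + 1, v => decide (v % 2 = 1) :: padB β (v / 2)

theorem padB_length (β : ℕ) : ∀ v, (padB β v).length = β := by
  induction β with
  | zero => intro v; rfl
  | succ β ih => intro v; rw [padB, List.length_cons, ih]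

theorem capval_padB {cap : ℕ} (β : ℕ) : ∀ v, v < cap → v < 2 ^ β → capval cap (padB β v) = v := by
  induction β with
  | zero =>
    intro v _ h2
    rw [pow_zero, Nat.lt_one_iff] at h2
    rw [h2]
    rfl
  | succ β ih =>
    intro v h1 h2
    have h3 := ih (v / 2) (by omega) (by rw [pow_succ] at h2; omega)
    unfold capval at h3 ⊢
    rw [padB, List.foldr_cons, h3]
    have h4 : (decide (v % 2 = 1)).toNat = v % 2 := by
      rcases Nat.mod_two_eq_zero_or_one v with h | h <;> simp [h]
    rw [h4, decide_eq_false (by omega), cond_false]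
    omega

theorem take_blocks (β : ℕ) (vs : List ℕ) : ∀ j, j < vs.length →
    ((vs.flatMap (padB β)).drop (j * β)).take β = padB β (vs.getD j 0) := by
  induction vs with
  | nil => intro j hj; simp at hj
  | cons v vs ih =>
    intro j hj
    rw [List.flatMap_cons]
    rcases j with _ | j
    · rw [Nat.zero_mul, List.drop_zero, List.take_append_of_le_length (by rw [padB_length]),
        List.take_of_length_le (by rw [padB_length])]
      rfl
    · have h1 : (j + 1) * β = (padB β v).length + j * β := by
        rw [padB_length]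
        ring
      rw [h1, List.drop_length_add_append]
      exact ih j (by simpa using hj)

end Pool.Agent.Lib.MP_87d05f_lc
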