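import Mathlib
import Pool.Agent.Lib.MP_87d05f_lc.MaxSem

set_option autoImplicit false

/-!
# Approximation schemes for maximum constraint satisfaction from separators
-/

namespace Pool.Agent.Lib.MP_87d05f_lc

open Pool.Agent.PolyTime Function Turing

section main

variable {g d : ℕ} {ar : Fin g → ℕ}

/-- the encoding of instances with a threshold in unary -/
def enM (I : ℕ × List (Con ar)) : List Bool :=
  encW ([List.replicate I.1 true] :: I.2.map wordC)

/-- the value reaches the threshold -/
def YM (φ : (i : Fin g) → (Fin (ar i) → Fin d) → ℕ) (I : ℕ × List (Con ar)) : Prop :=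
  ∃ a : ℕ → Fin d, I.1 ≤ valC φ a I.2

/-- the value is much smaller than the threshold -/
def NM (φ : (i : Fin g) → (Fin (ar i) → Fin d) → ℕ) (ε : ℚ) (I : ℕ × List (Con ar)) : Prop :=
  ∀ a : ℕ → Fin d, ((valC φ a I.2 : ℕ) : ℚ) < (1 - ε) * (I.1 : ℚ)

theorem countP_flatMap_ge {α β : Type} (p : β → Bool) (q : α → Bool) (f : α → List β)
    (h : ∀ a, q a = true → 1 ≤ (f a).countP p) (l : List α) :
    l.countP q ≤ (l.flatMap f).countP p := by
  induction l with
  | nil => simp
  | cons a l ih =>
    rw [List.flatMap_cons, List.countP_append, List.countP_cons]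
    by_cases hq : q a = true
    · have := h a hq
      simp only [hq, if_true]
      omega
    · simp only [hq, Bool.false_eq_true, if_false]
      omega

theorem valC_filter (φ : (i : Fin g) → (Fin (ar i) → Fin d) → ℕ) (p : Con ar → Bool)
    (hp : ∀ c, p c = false → ∀ a : ℕ → Fin d, φ c.1 (fun j => a (c.2 j)) = 0) (a : ℕ → Fin d)
    (F : List (Con ar)) : valC φ a (F.filter p) = valC φ a F := by
  unfold valC
  induction F with
  | nil => rfl
  | cons c F ih =>
    rcases hc : p c with _ | _
    · rw [List.filter_cons_of_neg (by simp [hc]), List.map_cons, List.sum_cons, hp c hc a, ih,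
        Nat.zero_add]
    · rw [List.filter_cons_of_pos hc, List.map_cons, List.map_cons, List.sum_cons, List.sum_cons,
        ih]

theorem valC_le (φ : (i : Fin g) → (Fin (ar i) → Fin d) → ℕ) {Φ : ℕ} (hΦ : ∀ i x, φ i x ≤ Φ)
    (a : ℕ → Fin d) (F : List (Con ar)) : valC φ a F ≤ Φ * F.length := by
  unfold valC
  calc (F.map (fun c => φ c.1 (fun j => a (c.2 j)))).sum ≤ (F.map (fun _ => Φ)).sum :=
        List.sum_le_sum fun c _ => hΦ _ _
    _ = Φ * F.length := by
        rw [List.map_const', List.sum_replicate, smul_eq_mul, Nat.mul_comm]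

theorem enM_parse (I : ℕ × List (Con ar)) :
    parseW (enM I) = [List.replicate I.1 true] :: I.2.map wordC := parseW_encW _

theorem thI_enM (I : ℕ × List (Con ar)) : thI (enM I) = I.1 := by
  unfold thI
  rw [enM_parse]
  simp

theorem usI_enM (tab : TabP) (I : ℕ × List (Con ar)) :
    usI tab (enM I) = (I.2.filter (fun c => useful tab (wordC c))).map wordC := by
  unfold usI
  rw [enM_parse, List.tail_cons, List.filter_map]
  rfl

theorem length_le_enM (I : ℕ × List (Con ar)) : I.2.length ≤ (enM I).length := by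
  unfold enM
  refine le_trans ?_ (encW_length _)
  rw [List.length_cons, List.length_map]
  omega

/-- the sum of the guesses against the value -/
theorem sumG_eq (B β : ℕ) (us : List (List (List Bool))) (s : List Bool) (hB : 1 ≤ B) :
    sumG B β us s = ((List.range (us.length / B + 1)).map (gval β s)).sum := by
  unfold sumG
  rw [mydiv_eq hB, List.length_flatMap]
  simp only [List.length_replicate]

/-! ### The query formula -/

section query

variable {W : ℕ} (φ : (i : Fin g) → (Fin (ar i) → Fin d) → ℕ) (dc : (Fin W → Bool) → Fin d)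

theorem allF_mem {B β : ℕ} (hB : 1 ≤ B) {Fu : List (Con ar)} {s : List Bool}
    {c : List (Lit (List Bool))} (hc : c ∈ allF (tabP φ dc) B β (Fu.map wordC) s) :
    ∃ j, j < Fu.length / B + 1 ∧
      ∃ p ∈ optG (tabP φ dc) B (((Fu.drop (j * B)).take B).map wordC),
        p.2 < gval β s j ∧ c = p.1 := by
  unfold allF at hc
  rw [mydiv_eq hB, List.length_map] at hc
  obtain ⟨j, hj, hc⟩ := List.mem_flatMap.1 hc
  unfold grpF at hc
  obtain ⟨p, hp, rfl⟩ := List.mem_map.1 hc
  rw [List.mem_filter, decide_eq_true_eq, ← List.map_drop, ← List.map_take] at hp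
  exact ⟨j, List.mem_range.1 hj, p, hp.1, hp.2, rfl⟩

theorem allF_length {B β : ℕ} (hB : 1 ≤ B) (Fu : List (Con ar)) (s : List Bool) :
    (allF (tabP φ dc) B β (Fu.map wordC) s).length ≤
      (Fu.length / B + 1) * (1 + ∑ i : Fin g, (allP (ar i) W).length) ^ B := by
  unfold allF
  rw [mydiv_eq hB, List.length_map, List.length_flatMap]
  calc ((List.range (Fu.length / B + 1)).map
        (fun j => (grpF (tabP φ dc) B β (Fu.map wordC) s j).length)).sum
      ≤ ((List.range (Fu.length / B + 1)).map
        (fun _ => (1 + ∑ i : Fin g, (allP (ar i) W).length) ^ B)).sum := by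
        refine List.sum_le_sum fun j _ => ?_
        unfold grpF
        rw [List.length_map]
        refine (List.length_filter_le _ _).trans ?_
        rw [← List.map_drop, ← List.map_take]
        exact optG_length φ dc B _
    _ = _ := by
        rw [List.map_const', List.sum_replicate, smul_eq_mul, List.length_range]

theorem allF_width {B β : ℕ} (hB : 1 ≤ B) (Fu : List (Con ar)) (s : List Bool) :
    ∀ c ∈ allF (tabP φ dc) B β (Fu.map wordC) s, c.length ≤ B * ((∑ i : Fin g, ar i) * W) := by
  intro c hc
  obtain ⟨j, _, p, hp, _, rfl⟩ := allF_mem φ dc hB hc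
  exact optG_width φ dc B _ p hp

theorem allF_vars {B β : ℕ} (hB : 1 ≤ B) (Fu : List (Con ar)) (s : List Bool) :
    ∀ w ∈ vlist (allF (tabP φ dc) B β (Fu.map wordC) s), ∃ v t,
      v ∈ Fu.flatMap (fun c => List.ofFn c.2) ∧ t < W ∧ w = nb (Nat.bits v) t := by
  intro w hw
  obtain ⟨l, hl, rfl⟩ := List.mem_map.1 hw
  obtain ⟨c, hc, hl⟩ := List.mem_flatten.1 hl
  obtain ⟨j, _, p, hp, _, rfl⟩ := allF_mem φ dc hB hc
  obtain ⟨v, t, hv, ht, h⟩ := optG_vars φ dc B _ p hp l hl
  refine ⟨v, t, ?_, ht, h⟩
  obtain ⟨c, hc, hv⟩ := List.mem_flatMap.1 hv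
  exact List.mem_flatMap.2 ⟨c, List.mem_of_mem_drop (List.mem_of_mem_take hc), hv⟩

theorem allF_nvars {B β : ℕ} (hB : 1 ≤ B) (Fu : List (Con ar)) (s : List Bool) :
    nvars (allF (tabP φ dc) B β (Fu.map wordC) s) ≤ W * ((∑ i : Fin g, ar i) * Fu.length) := by
  rw [nvars_eq]
  have h : (vlist (allF (tabP φ dc) B β (Fu.map wordC) s)).toFinset ⊆
      ((Fu.flatMap (fun c => List.ofFn c.2)).toFinset ×ˢ Finset.range W).image
        (fun p : ℕ × ℕ => nb (Nat.bits p.1) p.2) := by
    intro x hx
    rw [List.mem_toFinset] at hx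
    obtain ⟨v, t, hv, ht, rfl⟩ := allF_vars φ dc hB Fu s x hx
    rw [Finset.mem_image]
    refine ⟨(v, t), ?_, rfl⟩
    rw [Finset.mem_product, List.mem_toFinset, Finset.mem_range]
    exact ⟨hv, ht⟩
  refine (Finset.card_le_card h).trans (Finset.card_image_le.trans ?_)
  rw [Finset.card_product, Finset.card_range, Nat.mul_comm]
  refine Nat.mul_le_mul_left _ ((List.toFinset_card_le _).trans ?_)
  rw [List.length_flatMap]
  calc (Fu.map (fun c => (List.ofFn c.2).length)).sum ≤ (Fu.map (fun _ => ∑ i, ar i)).sum := by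
        refine List.sum_le_sum fun c _ => ?_
        rw [List.length_ofFn]
        exact Finset.single_le_sum (f := fun i : Fin g => ar i)
          (fun _ _ => Nat.zero_le _) (Finset.mem_univ c.1)
    _ = _ := by
        rw [List.map_const', List.sum_replicate, smul_eq_mul, Nat.mul_comm]

theorem allF_canon {B β : ℕ} (hB : 1 ≤ B) (Fu : List (Con ar)) (s : List Bool) :
    Canon (orOne (allF (tabP φ dc) B β (Fu.map wordC) s)) := by
  intro w hw
  unfold orOne at hw
  rcases hG : (allF (tabP φ dc) B β (Fu.map wordC) s).isEmpty with _ | _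
  · rw [hG, cond_false] at hw
    obtain ⟨v, t, _, _, rfl⟩ := allF_vars φ dc hB Fu s w hw
    exact nb_end _ _
  · rw [hG, cond_true] at hw
    have h1 : vlist ([[(true, [true])]] : BF') = [[true]] := rfl
    rw [h1, List.mem_singleton] at hw
    exact ⟨[], by rw [hw]; rfl⟩

theorem query_ok {B β b k : ℕ} (hB : 1 ≤ B) (hb : 0 < b) (hW : 0 < W)
    (hk : B * ((∑ i : Fin g, ar i) * W) + 3 ≤ k) (Fu : List (Con ar)) (s : List Bool) :
    (numG (orOne (allF (tabP φ dc) B β (Fu.map wordC) s)) ≠ [] ∧
      ∀ c ∈ numG (orOne (allF (tabP φ dc) B β (Fu.map wordC) s)), c.length ≤ k) ∧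
    nvars (numG (orOne (allF (tabP φ dc) B β (Fu.map wordC) s))) /
      ((W * ((∑ i : Fin g, ar i) + 1)) * (4 * b)) ≤ Fu.length / (4 * b) := by
  have hcan := allF_canon φ dc (β := β) hB Fu s
  have hw := allF_width φ dc (β := β) hB Fu s
  have hn := allF_nvars φ dc (β := β) hB Fu s
  obtain ⟨G, hG⟩ : ∃ G, G = allF (tabP φ dc) B β (Fu.map wordC) s := ⟨_, rfl⟩
  rw [← hG] at hcan hw hn ⊢
  refine ⟨⟨?_, ?_⟩, ?_⟩
  · intro h
    have h1 := numG_length (orOne G)
    rw [h, List.length_nil] at h1
    have h2 := List.length_eq_zero_iff.1 h1.symm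
    unfold orOne at h2
    rcases hE : G.isEmpty with _ | _
    · rw [hE, cond_false] at h2
      rw [h2] at hE
      simp at hE
    · rw [hE, cond_true] at h2
      simp at h2
  · intro c hc
    obtain ⟨c', hc', rfl⟩ := List.mem_map.1 hc
    rw [List.length_map]
    unfold orOne at hc'
    rcases hE : G.isEmpty with _ | _
    · rw [hE, cond_false] at hc'
      have := hw c' hc'
      omega
    · rw [hE, cond_true] at hc'
      rw [List.mem_singleton.1 hc']
      simp only [List.length_cons, List.length_nil]
      omega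
  · rw [nvars_numG hcan]
    obtain ⟨A, hA⟩ : ∃ A, A = ∑ i : Fin g, ar i := ⟨_, rfl⟩
    rw [← hA] at hn ⊢
    have h1 : nvars (orOne G) ≤ W * (A * Fu.length) + 1 := by
      unfold orOne
      rcases hE : G.isEmpty with _ | _
      · rw [cond_false]
        omega
      · rw [cond_true]
        have : nvars ([[(true, [true])]] : BF') = 1 := by
          unfold nvars
          simp
        omega
    have hWA : 0 < W * (A + 1) := by positivity
    rcases Nat.eq_zero_or_pos Fu.length with h0 | h0
    · rw [h0, Nat.mul_zero, Nat.mul_zero] at h1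
      rw [h0, Nat.zero_div, Nat.div_eq_of_lt]
      have := Nat.mul_le_mul hWA (show 4 ≤ 4 * b by omega)
      omega
    · have h2 : nvars (orOne G) ≤ W * (A + 1) * Fu.length := by
        have e1 : W * (A + 1) * Fu.length = W * (A * Fu.length) + W * Fu.length := by ring
        have e2 : 1 ≤ W * Fu.length := Nat.mul_pos hW h0
        omega
      have h3 := Nat.div_le_div_right (c := W * (A + 1) * (4 * b)) h2
      rw [Nat.mul_div_mul_left _ _ hWA] at h3
      exact h3

end query

theorem max_rev (φ : (i : Fin g) → (Fin (ar i) → Fin d) → ℕ) (hd : 0 < d)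
    (H : ∀ k p q b : ℕ, 3 ≤ k → 0 < p → p < q → 0 < b →
      SepK k (fun _ => True) ((p : ℚ) / (q : ℕ)) b) {p q b : ℕ} (hp : 0 < p) (hpq : p < q)
    (hb : 0 < b) :
    GSep (enM (ar := ar)) (fun _ => True) (YM φ) (NM φ ((p : ℚ) / (q : ℕ)))
      (fun I => I.2.length) b := by
  have hq : 0 < q := by omega
  obtain ⟨W, dc, ec, hW, hec⟩ := exists_bits d hd
  -- the parameters
  obtain ⟨Φ, hΦ1, hΦ⟩ : ∃ Φ, 1 ≤ Φ ∧ ∀ i x, φ i x ≤ Φ := by
    refine ⟨1 + ∑ i : Fin g, ∑ x : Fin (ar i) → Fin d, φ i x, by omega, fun i x => ?_⟩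
    have h1 := Finset.single_le_sum (f := fun i : Fin g => ∑ x : Fin (ar i) → Fin d, φ i x)
      (fun _ _ => Nat.zero_le _) (Finset.mem_univ i)
    have h2 := Finset.single_le_sum (f := fun x : Fin (ar i) → Fin d => φ i x)
      (fun _ _ => Nat.zero_le _) (Finset.mem_univ x)
    have h3 := le_trans h2 h1
    omega
  obtain ⟨β, hβ1, hβ⟩ := exists_exp (4 * b * Φ + 1) 1
  rw [pow_one] at hβ
  obtain ⟨B, hB⟩ : ∃ B, B = 4 * b * β := ⟨_, rfl⟩
  have hBpos : 1 ≤ B := by
    rw [hB]
    exact Nat.mul_pos (by omega) (by omega)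
  have hBΦ : B * Φ < 2 ^ β := by
    rw [hB]
    calc 4 * b * β * Φ < 4 * b * β * Φ + β := by omega
      _ = (4 * b * Φ + 1) * β := by ring
      _ ≤ 2 ^ β := hβ
  obtain ⟨E, hE⟩ : ∃ E, E = d ^ (∑ i : Fin g, ar i) := ⟨_, rfl⟩
  have hEpos : 0 < E := by rw [hE]; positivity
  obtain ⟨Q, hQ⟩ : ∃ Q, Q = (1 + ∑ i : Fin g, (allP (ar i) W).length) ^ B := ⟨_, rfl⟩
  have hQpos : 0 < Q := by rw [hQ]; positivity
  obtain ⟨tab, htab⟩ : ∃ tab, tab = tabP φ dc := ⟨_, rfl⟩
  obtain ⟨A, hA⟩ : ∃ A, A = ∑ i : Fin g, ar i := ⟨_, rfl⟩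
  obtain ⟨q₂, hq₂⟩ : ∃ q₂, q₂ = q * (2 * E * 2 ^ β * Q) := ⟨_, rfl⟩
  have hq₂' : 0 < 2 * E * 2 ^ β * Q := by positivity
  obtain ⟨k, hk⟩ : ∃ k, k = B * (A * W) + 3 := ⟨_, rfl⟩
  obtain ⟨b₂, hb₂⟩ : ∃ b₂, b₂ = (W * (A + 1)) * (4 * b) := ⟨_, rfl⟩
  obtain ⟨C, e, tm, e₀, acc, rej, hne, hS⟩ := H k p q₂ b₂ (by omega) hp
    (by rw [hq₂]; exact lt_of_lt_of_le hpq (Nat.le_mul_of_pos_right q hq₂'))
    (by rw [hb₂]; positivity)
  have hS' : GSep encF (fun F => F ≠ [] ∧ ∀ c ∈ F, c.length ≤ k)
      (fun F => ∃ a : ℕ → Bool, ∀ c ∈ F, ∃ l ∈ c, a l.2 = l.1)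
      (fun F => ∀ a : ℕ → Bool, ((p : ℚ) / (q₂ : ℕ)) * (F.length : ℚ) ≤
        ((F.countP (falsB a) : ℕ) : ℚ)) nvars b₂ :=
    ⟨C, e, tm, e₀, acc, rej, hne, fun F hF => hS F hF.1 hF.2 trivial⟩
  -- arithmetic of the exponents
  have hexp : ∀ u m : ℕ, u ≤ m → β * (u / B + 1) + u / (4 * b) ≤ m / b + β := by
    intro u m hum
    have h1 : β * (u / B) ≤ u / (4 * b) := by
      rw [hB, ← Nat.div_div_eq_div_mul]
      exact Nat.mul_div_le _ _
    have h2 : u / (4 * b) = u / b / 4 := by
      rw [Nat.mul_comm, Nat.div_div_eq_div_mul]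
    have h3 : u / b ≤ m / b := Nat.div_le_div_right hum
    rw [Nat.mul_add, Nat.mul_one]
    omega
  -- the useful constraints
  have huse : ∀ c : Con ar, useful tab (wordC c) = true ↔
      ∃ a : ℕ → Fin d, 1 ≤ φ c.1 (fun j => a (c.2 j)) := by
    intro c
    rw [htab]
    exact useful_iff φ dc hec c
  have hval : ∀ (a : ℕ → Fin d) (F : List (Con ar)),
      valC φ a (F.filter (fun c => useful tab (wordC c))) = valC φ a F := by
    intro a F
    refine valC_filter φ _ (fun c hc a => ?_) a F
    by_contra h0
    have : useful tab (wordC c) = true := (huse c).2 ⟨a, Nat.one_le_iff_ne_zero.2 h0⟩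
    rw [hc] at this
    exact absurd this (by simp)
  have hul : ∀ F : List (Con ar),
      (F.filter (fun c => useful tab (wordC c))).length ≤ F.length :=
    fun F => List.length_filter_le _ _
  refine guess_transfer (K₀ := β) (depI_ptime tab B β) (lfI_ptime tab B β Φ E (4 * b))
    ?_ ?_ (fun I _ => length_le_enM I) ?_ ?_ hS'
  · intro I _
    unfold depI
    rw [usI_enM, List.length_map, mydiv_eq hBpos]
    exact le_trans (Nat.le_add_right _ _) (hexp _ _ (hul I.2))
  · intro I _ s y h hs hl
    unfold lfI at hl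
    rw [usI_enM, List.length_map, thI_enM] at hl
    unfold depI
    rw [usI_enM, List.length_map, mydiv_eq hBpos]
    have hh : h = (I.2.filter (fun c => useful tab (wordC c))).length / (4 * b) := by
      rcases h1 : decide (I.1 * E ≤ (I.2.filter (fun c => useful tab (wordC c))).length) with _ | _
      · rw [h1, cond_false] at hl
        rcases h2 : decide (Φ * (I.2.filter (fun c => useful tab (wordC c))).length < I.1)
          with _ | _
        · rw [h2, cond_false] at hl
          rcases h3 : decide (sumG B β ((I.2.filter (fun c => useful tab (wordC c))).map wordC) s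
            < I.1) with _ | _
          · rw [h3, cond_false] at hl
            simp only [Sum.inr.injEq, Prod.mk.injEq] at hl
            rw [← hl.2, mydiv_eq (by omega)]
          · rw [h3, cond_true] at hl
            simp at hl
        · rw [h2, cond_true] at hl
          simp at hl
      · rw [h1, cond_true] at hl
        simp at hl
    rw [hh]
    exact hexp _ _ (hul I.2)
  · -- completeness
    rintro ⟨t, F⟩ _ ⟨a, ha⟩
    simp only at ha
    obtain ⟨Fu, hFu⟩ : ∃ Fu, Fu = F.filter (fun c => useful tab (wordC c)) := ⟨_, rfl⟩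
    have hvF : t ≤ valC φ a Fu := by
      rw [hFu, hval]
      exact ha
    obtain ⟨β₀, hβ₀⟩ := exists_decA dc hec a
    have hpay : ∀ c : Con ar, payB φ dc β₀ c = φ c.1 (fun j => a (c.2 j)) := by
      intro c
      unfold payB
      simp only [hβ₀]
    obtain ⟨v, hv⟩ : ∃ v : ℕ → ℕ, v = fun j =>
      ((((Fu.map (payB φ dc β₀)).drop (j * B)).take B)).sum := ⟨_, rfl⟩
    have hvlt : ∀ j, v j < 2 ^ β := by
      intro j
      refine lt_of_le_of_lt ?_ hBΦ
      rw [hv]
      simp only
      rw [← List.map_drop, ← List.map_take]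
      calc (((Fu.drop (j * B)).take B).map (payB φ dc β₀)).sum
          ≤ (((Fu.drop (j * B)).take B).map (fun _ => Φ)).sum :=
            List.sum_le_sum fun c _ => by rw [hpay]; exact hΦ _ _
        _ = ((Fu.drop (j * B)).take B).length * Φ := by
            rw [List.map_const', List.sum_replicate, smul_eq_mul]
        _ ≤ B * Φ := Nat.mul_le_mul_right _ (List.length_take_le _ _)
    obtain ⟨J, hJ⟩ : ∃ J, J = Fu.length / B + 1 := ⟨_, rfl⟩
    obtain ⟨s, hs⟩ : ∃ s, s = ((List.range J).map v).flatMap (padB β) := ⟨_, rfl⟩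
    have hgv : ∀ j, j < J → gval β s j = v j := by
      intro j hj
      unfold gval
      rw [hs, take_blocks β _ j (by simpa using hj)]
      have h1 : ((List.range J).map v).getD j 0 = v j := by
        rw [List.getD_eq_getElem?_getD, List.getElem?_map, List.getElem?_range hj]
        rfl
      rw [h1]
      exact capval_padB β _ (hvlt j) (hvlt j)
    have hJB : Fu.length ≤ J * B := by
      have h1 := Nat.div_add_mod Fu.length B
      have h2 := Nat.mod_lt Fu.length (show 0 < B by omega)
      rw [hJ, Nat.add_mul, Nat.one_mul]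
      have h3 : B * (Fu.length / B) = Fu.length / B * B := Nat.mul_comm _ _
      omega
    have hsumv : ((List.range J).map v).sum = valC φ a Fu := by
      rw [hv]
      rw [sum_groups, List.take_of_length_le (by rw [List.length_map]; exact hJB)]
      unfold valC
      congr 1
      exact List.map_congr_left fun c _ => hpay c
    refine ⟨s, ?_, ?_⟩
    · unfold depI
      rw [usI_enM, List.length_map, mydiv_eq hBpos]
      simp only
      rw [← hFu, ← hJ, hs, List.length_flatMap]
      simp only [List.map_map]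
      have : (List.range J).map (fun a => (padB β (v a)).length) =
          (List.range J).map (fun _ => β) := List.map_congr_left fun j _ => padB_length β _
      change ((List.range J).map (fun a => (padB β (v a)).length)).sum = _
      rw [this, List.map_const', List.sum_replicate, smul_eq_mul, List.length_range,
        Nat.mul_comm]
    · unfold lfI
      rw [usI_enM, List.length_map, thI_enM]
      simp only
      rw [← hFu]
      by_cases h1 : t * E ≤ Fu.length
      · left
        rw [decide_eq_true h1, cond_true]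
      · have h2 : ¬ Φ * Fu.length < t := by
          have := valC_le φ hΦ a Fu
          omega
        have h3 : ¬ sumG B β (Fu.map wordC) s < t := by
          rw [sumG_eq _ _ _ _ hBpos, List.length_map, ← hJ]
          have : (List.range J).map (gval β s) = (List.range J).map v :=
            List.map_congr_left fun j hj => hgv j (List.mem_range.1 hj)
          rw [this, hsumv]
          omega
        rw [decide_eq_false h1, decide_eq_false h2, decide_eq_false h3]
        simp only [cond_false]
        right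
        obtain ⟨⟨q1, q2⟩, q3⟩ := query_ok φ dc (β := β) hBpos hb hW (k := k)
          (by rw [hk, hA]) Fu s
        have hcan := allF_canon φ dc (β := β) hBpos Fu s
        refine ⟨numG (orOne (allF (tabP φ dc) B β (Fu.map wordC) s)), Fu.length / (4 * b),
          ⟨q1, q2⟩, ?_, ?_, by rw [hb₂, hA]; exact q3⟩
        · have hsat : ∀ c ∈ allF (tabP φ dc) B β (Fu.map wordC) s, ∃ l ∈ c, tr β₀ l := by
            intro c hc
            rw [← falsB_false, ← Bool.not_eq_true]
            intro hf
            obtain ⟨j, hj, r, hr, hr2, rfl⟩ := allF_mem φ dc hBpos hc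
            have h5 := (optG_spec φ dc β₀ B _).2 r hr hf
            rw [List.take_take, Nat.min_self] at h5
            rw [hgv j (by rw [hJ]; exact hj), hv] at hr2
            simp only at hr2
            rw [← List.map_drop, ← List.map_take, ← h5] at hr2
            exact lt_irrefl _ hr2
          obtain ⟨G, hG⟩ : ∃ G, G = allF (tabP φ dc) B β (Fu.map wordC) s := ⟨_, rfl⟩
          rw [← hG] at hsat hcan ⊢
          unfold orOne at hcan ⊢
          rcases hE : G.isEmpty with _ | _
          · rw [hE] at hcan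
            simp only [cond_false] at hcan ⊢
            exact numG_sat hcan hsat
          · simp only [cond_true]
            refine ⟨fun _ => true, fun c hc => ?_⟩
            simp only [numG, List.map_cons, List.map_nil, List.mem_singleton] at hc
            rw [hc]
            exact ⟨_, List.mem_singleton_self _, rfl⟩
        · rw [encF_numG hcan, mydiv_eq (by omega), htab]
  · -- soundness
    rintro ⟨t, F⟩ _ hN s hs
    unfold NM at hN
    simp only at hN
    obtain ⟨Fu, hFu⟩ : ∃ Fu, Fu = F.filter (fun c => useful tab (wordC c)) := ⟨_, rfl⟩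
    have hN' : ∀ a : ℕ → Fin d, q * valC φ a Fu + p * t < q * t := by
      intro a
      have h1 := hN a
      rw [← hval, ← hFu] at h1
      have hq' : (0 : ℚ) < q := by exact_mod_cast hq
      have h2 := mul_lt_mul_of_pos_left h1 hq'
      have h3 : (q : ℚ) * ((1 - (p : ℚ) / (q : ℕ)) * (t : ℚ)) = q * t - p * t := by
        field_simp
      rw [h3, lt_sub_iff_add_lt] at h2
      exact_mod_cast h2
    unfold lfI
    rw [usI_enM, List.length_map, thI_enM]
    simp only
    rw [← hFu]
    have h1 : ¬ t * E ≤ Fu.length := by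
      intro h1
      obtain ⟨a, ha⟩ := exists_average φ hd Fu (by
        intro c hc
        rw [hFu, List.mem_filter] at hc
        exact (huse c).1 hc.2)
      rw [← hE] at ha
      have h2 := hN' a
      have h3 : valC φ a Fu < t := by
        have h4 : q * valC φ a Fu < q * t := by omega
        exact lt_of_mul_lt_mul_left h4 (Nat.zero_le _)
      have h4 : E * valC φ a Fu < E * t := Nat.mul_lt_mul_of_pos_left h3 hEpos
      rw [Nat.mul_comm t] at h1
      omega
    rw [decide_eq_false h1, cond_false]
    by_cases h2 : Φ * Fu.length < t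
    · left
      rw [decide_eq_true h2, cond_true]
    rw [decide_eq_false h2, cond_false]
    by_cases h3 : sumG B β (Fu.map wordC) s < t
    · left
      rw [decide_eq_true h3, cond_true]
    rw [decide_eq_false h3, cond_false]
    right
    obtain ⟨⟨q1, q2⟩, q3⟩ := query_ok φ dc (β := β) hBpos hb hW (k := k)
      (by rw [hk, hA]) Fu s
    have hcan := allF_canon φ dc (β := β) hBpos Fu s
    refine ⟨numG (orOne (allF (tabP φ dc) B β (Fu.map wordC) s)), Fu.length / (4 * b),
      ⟨q1, q2⟩, ?_, by rw [encF_numG hcan, mydiv_eq (by omega), htab],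
      by rw [hb₂, hA]; exact q3⟩
    intro a
    rw [frac_iff (by rw [hq₂]; positivity), numG_length, numG_fals]
    obtain ⟨b', hb'⟩ : ∃ b' : List Bool → Bool, b' = fun w => a (unbits w) := ⟨_, rfl⟩
    rw [← hb']
    obtain ⟨G, hG⟩ : ∃ G, G = allF (tabP φ dc) B β (Fu.map wordC) s := ⟨_, rfl⟩
    obtain ⟨J, hJ⟩ : ∃ J, J = Fu.length / B + 1 := ⟨_, rfl⟩
    obtain ⟨v, hv⟩ : ∃ v : ℕ → ℕ, v = fun j =>
      ((((Fu.map (payB φ dc b')).drop (j * B)).take B)).sum := ⟨_, rfl⟩
    have hJB : Fu.length ≤ J * B := by
      have h1 := Nat.div_add_mod Fu.length B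
      have h2 := Nat.mod_lt Fu.length (show 0 < B by omega)
      rw [hJ, Nat.add_mul, Nat.one_mul]
      have h3 : B * (Fu.length / B) = Fu.length / B * B := Nat.mul_comm _ _
      omega
    have hsumv : ((List.range J).map v).sum = valC φ (decA dc b') Fu := by
      rw [hv]
      rw [sum_groups, List.take_of_length_le (by rw [List.length_map]; exact hJB)]
      unfold valC
      congr 1
    have hGV : (List.range J).countP (fun j => decide (v j < gval β s j)) ≤
        G.countP (falsB b') := by
      rw [hG]
      unfold allF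
      rw [mydiv_eq hBpos, List.length_map, ← hJ]
      refine countP_flatMap_ge _ _ _ ?_ _
      intro j hj
      rw [decide_eq_true_eq] at hj
      obtain ⟨r, hr, hr1, hr2⟩ := (optG_spec φ dc b' B ((Fu.drop (j * B)).take B)).1
      rw [List.take_take, Nat.min_self] at hr2
      refine List.countP_pos_iff.2 ⟨r.1, ?_, hr1⟩
      unfold grpF
      refine List.mem_map.2 ⟨r, ?_, rfl⟩
      rw [List.mem_filter, decide_eq_true_eq, ← List.map_drop, ← List.map_take]
      refine ⟨hr, ?_⟩
      rw [hr2]
      rw [hv] at hj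
      simp only at hj
      rw [← List.map_drop, ← List.map_take] at hj
      exact hj
    have hsum : ∀ l : List ℕ, (l.map (gval β s)).sum ≤ (l.map v).sum +
        2 ^ β * l.countP (fun j => decide (v j < gval β s j)) := by
      intro l
      induction l with
      | nil => simp
      | cons j l ih =>
        rw [List.map_cons, List.map_cons, List.sum_cons, List.sum_cons, List.countP_cons]
        have hg : gval β s j ≤ 2 ^ β := capval_le _ _
        by_cases hj : v j < gval β s j
        · rw [decide_eq_true hj, if_pos rfl, Nat.mul_add, Nat.mul_one]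
          omega
        · rw [decide_eq_false hj]
          simp only [Bool.false_eq_true, if_false, Nat.add_zero]
          omega
    have hs1 := hsum (List.range J)
    rw [sumG_eq _ _ _ _ hBpos, List.length_map, ← hJ] at h3
    rw [hsumv] at hs1
    have h4 := hN' (decA dc b')
    have hlen : G.length ≤ J * Q := by
      rw [hG, hJ, hQ]
      exact allF_length φ dc hBpos Fu s
    have hJt : J ≤ t * E := by
      have := Nat.div_le_self Fu.length B
      omega
    obtain ⟨V, hV⟩ : ∃ V, V = G.countP (falsB b') := ⟨_, rfl⟩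
    have hVle : t ≤ valC φ (decA dc b') Fu + 2 ^ β * V := by
      have h5 := Nat.mul_le_mul_left (2 ^ β) hGV
      rw [← hV] at h5
      omega
    have hpt : p * t < q * (2 ^ β * V) := by
      have h5 := Nat.mul_le_mul_left q hVle
      rw [Nat.mul_add] at h5
      omega
    have hVpos : 0 < V := by
      rcases Nat.eq_zero_or_pos V with h | h
      · rw [h, Nat.mul_zero, Nat.mul_zero] at hpt
        omega
      · exact h
    have hGne : G.isEmpty = false := by
      by_contra hE
      rw [Bool.not_eq_false, List.isEmpty_iff] at hE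
      rw [hV, hE, List.countP_nil] at hVpos
      omega
    have hor : orOne G = G := by
      unfold orOne
      rw [hGne, cond_false]
    rw [← hG, hor, ← hV]
    calc p * G.length ≤ p * (t * E * Q) :=
          Nat.mul_le_mul_left _ (hlen.trans (Nat.mul_le_mul_right _ hJt))
      _ = E * Q * (p * t) := by ring
      _ ≤ E * Q * (q * (2 ^ β * V)) := Nat.mul_le_mul_left _ hpt.le
      _ ≤ 2 * (E * Q * (q * (2 ^ β * V))) := by omega
      _ = q₂ * V := by rw [hq₂]; ring

end main

end Pool.Agent.Lib.MP_87d05f_lc
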