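import Mathlib
import Pool.Agent.Lib.MP_87d05f_lc.MaxMain
import Pool.Agent.Lib.MP_87d05f_lc.OutMachine

set_option autoImplicit false

/-!
# The payoff language with partial assignments
-/

namespace Pool.Agent.Lib.MP_87d05f_lc

open Pool.Agent.PolyTime Function Turing

theorem ofFn_getD {α : Type} (l : List α) (z : α) (A : ℕ) (h : l.length ≤ A) :
    List.ofFn (fun j : Fin A => l.getD j z) = l ++ List.replicate (A - l.length) z := by
  apply List.ext_getElem
  · simp only [List.length_ofFn, List.length_append, List.length_replicate]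
    omega
  · intro i h1 h2
    rw [List.getElem_ofFn]
    by_cases hi : i < l.length
    · rw [List.getElem_append_left hi]
      simp [List.getD, hi]
    · rw [List.getElem_append_right (by omega)]
      simp [List.getD, hi]

theorem find_map_inj {α κ γ : Type} [DecidableEq κ] (key : α → κ) (val : α → γ)
    (hinj : Injective key) (l : List α) (a : α) (ha : a ∈ l) :
    (l.map (fun y => (key y, val y))).find? (fun e => decide (e.1 = key a)) =
      some (key a, val a) := by
  induction l with
  | nil => simp at ha
  | cons b l ih =>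
    rw [List.map_cons, List.find?_cons]
    by_cases hb : b = a
    · subst hb
      simp
    · have hne : key b ≠ key a := fun h => hb (hinj h)
      simp only [decide_eq_false hne]
      refine ih ?_
      rcases List.mem_cons.1 ha with h | h
      · exact absurd h.symm hb
      · exact h

/-! ### Programs -/

/-- a table of the symbols of the extended language -/
abbrev TabX := List ((List Bool × List ℕ) × List Bool)

/-- zero if the word is not assigned, otherwise its value plus one -/
def lkp (ρ : List (List Bool × ℕ)) (w : List Bool) : ℕ :=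
  (Option.casesOn (ρ.find? (fun e => decide (e.1 = w))) 0 (fun e => e.2 + 1))

theorem lkp_none {ρ : List (List Bool × ℕ)} {w : List Bool}
    (h : ρ.find? (fun e => decide (e.1 = w)) = none) : lkp ρ w = 0 := by
  unfold lkp
  rw [h]

theorem lkp_some {ρ : List (List Bool × ℕ)} {w : List Bool} {e : List Bool × ℕ}
    (h : ρ.find? (fun e => decide (e.1 = w)) = some e) : lkp ρ w = e.2 + 1 := by
  unfold lkp
  rw [h]

/-- put the assigned values into the symbol of a constraint -/
def rcW (tab : TabX) (A : ℕ) (ρ : List (List Bool × ℕ)) (c : List (List Bool)) :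
    List (List Bool) :=
  (Option.casesOn (tab.find? (fun e => decide (e.1 = (c.headD [],
    c.tail.map (lkp ρ) ++ List.replicate (A - c.tail.length) 0)))) [] (fun e => e.2)) ::
    (c.tail ++ List.replicate (A - c.tail.length) [])

theorem lkp_ptime {α : Type} [SCode α] {ρ : α → List (List Bool × ℕ)} {w : α → List Bool}
    (hρ : PTime ρ) (hw : PTime w) : PTime (fun a => lkp (ρ a) (w a)) := by
  unfold lkp
  refine PTime.option_casesOn
    (f := fun a => (ρ a).find? (fun e => decide (e.1 = w a)))
    (g := fun _ => (0 : ℕ))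
    (h := fun _ (e : List Bool × ℕ) => e.2 + 1) ?_ (PTime.const _)
    (PTime.succ (PTime.snd.comp PTime.snd))
  refine PTime.find? (l := ρ) (p := fun a (e : List Bool × ℕ) => decide (e.1 = w a)) hρ ?_
  exact PTime.eq (PTime.fst.comp PTime.snd) (hw.comp PTime.fst)

theorem rcW_ptime {α : Type} [SCode α] (tab : TabX) (A : ℕ) {ρ : α → List (List Bool × ℕ)}
    {c : α → List (List Bool)} (hρ : PTime ρ) (hc : PTime c) :
    PTime (fun a => rcW tab A (ρ a) (c a)) := by
  unfold rcW
  have ht : PTime (fun a => (c a).tail) := PTime.tail hc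
  have hl : PTime (fun a => A - (c a).tail.length) :=
    PTime.sub (PTime.const A) (PTime.length ht)
  refine PTime.cons ?_ (PTime.append ht (PTime.replicate hl (PTime.const [])))
  refine PTime.option_casesOn
    (f := fun a => tab.find? (fun e => decide (e.1 = ((c a).headD [],
      (c a).tail.map (lkp (ρ a)) ++ List.replicate (A - (c a).tail.length) 0))))
    (g := fun _ => ([] : List Bool))
    (h := fun _ (e : (List Bool × List ℕ) × List Bool) => e.2) ?_ (PTime.const _)
    (PTime.snd.comp PTime.snd)
  refine PTime.find? (l := fun _ => tab)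
    (p := fun a (e : (List Bool × List ℕ) × List Bool) => decide (e.1 = ((c a).headD [],
      (c a).tail.map (lkp (ρ a)) ++ List.replicate (A - (c a).tail.length) 0)))
    (PTime.const tab) ?_
  refine PTime.eq (PTime.fst.comp PTime.snd) ?_
  have h1 : PTime (fun a => ((c a).headD [],
      (c a).tail.map (lkp (ρ a)) ++ List.replicate (A - (c a).tail.length) 0)) := by
    refine (PTime.headD hc (PTime.const [])).pair (PTime.append ?_
      (PTime.replicate hl (PTime.const 0)))
    exact PTime.map (l := fun a => (c a).tail) (f := fun a w => lkp (ρ a) w) ht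
      (lkp_ptime (hρ.comp PTime.fst) PTime.snd)
  exact h1.comp PTime.fst

/-! ### The extended language -/

/-- symbols of the extended language -/
abbrev SymX (g d A : ℕ) : Type := Fin g × (Fin A → Option (Fin d))

/-- a numbering of the symbols -/
noncomputable def eX (g d A : ℕ) : SymX g d A ≃ Fin (Fintype.card (SymX g d A)) :=
  Fintype.equivFin _

/-- arities of the extended language -/
abbrev arX (g d A : ℕ) : Fin (Fintype.card (SymX g d A)) → ℕ := fun _ => A

section lang

variable {g d : ℕ} {ar : Fin g → ℕ}

/-- payoffs of the extended language -/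
noncomputable def phiP (φ : (i : Fin g) → (Fin (ar i) → Fin d) → ℕ) {A : ℕ}
    (hA : ∀ i, ar i ≤ A) :
    (k : Fin (Fintype.card (SymX g d A))) → (Fin (arX g d A k) → Fin d) → ℕ :=
  fun k x => φ ((eX g d A).symm k).1 (fun j =>
    (((eX g d A).symm k).2 (Fin.castLE (hA _) j)).getD (x (Fin.castLE (hA _) j)))

/-- the constraint with a partial assignment in its symbol -/
noncomputable def rcC (A : ℕ) (ρ : ℕ → Option (Fin d)) (c : Con ar) : Con (arX g d A) :=
  ⟨eX g d A (c.1, fun j => ((List.ofFn c.2).map ρ).getD j none),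
    fun j => (List.ofFn c.2).getD j 0⟩

theorem phiP_eX (φ : (i : Fin g) → (Fin (ar i) → Fin d) → ℕ) {A : ℕ} (hA : ∀ i, ar i ≤ A)
    (y : SymX g d A) (x : Fin A → Fin d) :
    phiP φ hA (eX g d A y) x = φ y.1 (fun j =>
      (y.2 (Fin.castLE (hA _) j)).getD (x (Fin.castLE (hA _) j))) := by
  have key : ∀ z : SymX g d A, z = y → φ z.1 (fun j =>
      (z.2 (Fin.castLE (hA _) j)).getD (x (Fin.castLE (hA _) j))) = φ y.1 (fun j =>
      (y.2 (Fin.castLE (hA _) j)).getD (x (Fin.castLE (hA _) j))) := by
    rintro z rfl
    rfl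
  exact key _ (Equiv.symm_apply_apply _ _)

theorem valC_rcC (φ : (i : Fin g) → (Fin (ar i) → Fin d) → ℕ) {A : ℕ} (hA : ∀ i, ar i ≤ A)
    (ρ : ℕ → Option (Fin d)) (a : ℕ → Fin d) (F : List (Con ar)) :
    valC (phiP φ hA) a (F.map (rcC A ρ)) = valC φ (fun v => (ρ v).getD (a v)) F := by
  unfold valC
  rw [List.map_map]
  refine congrArg List.sum (List.map_congr_left fun c _ => ?_)
  change phiP φ hA (eX g d A (c.1, fun j => ((List.ofFn c.2).map ρ).getD j none))
    (fun j => a ((List.ofFn c.2).getD j 0)) = _
  rw [phiP_eX]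
  congr 1
  funext j
  have h1 : (List.ofFn c.2).getD ((Fin.castLE (hA c.1) j : Fin A) : ℕ) 0 = c.2 j := by
    simp [List.getD]
  have h2 : ((List.ofFn c.2).map ρ).getD ((Fin.castLE (hA c.1) j : Fin A) : ℕ) none =
      ρ (c.2 j) := by
    simp [List.getD]
  rw [h1]
  simp only
  rw [h2]

/-- code of an optional value -/
def optN (o : Option (Fin d)) : ℕ := (Option.casesOn o 0 (fun x => (x : ℕ) + 1))

theorem optN_inj : Injective (optN (d := d)) := by
  intro x y h
  rcases x with _ | x <;> rcases y with _ | y
  · rfl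
  · exact absurd h (by unfold optN; simp)
  · exact absurd h (by unfold optN; simp)
  · unfold optN at h
    simp only [Nat.add_right_cancel_iff] at h
    rw [Fin.ext h]

/-- the table of the symbols -/
noncomputable def tabX (g d A : ℕ) : TabX :=
  ((Finset.univ : Finset (SymX g d A)).toList).map (fun y =>
    ((Nat.bits (y.1 : ℕ), List.ofFn (fun j => optN (y.2 j))), Nat.bits (eX g d A y : ℕ)))

theorem tabX_find {A : ℕ} (y : SymX g d A) :
    (tabX g d A).find? (fun e => decide (e.1 = (Nat.bits (y.1 : ℕ),
      List.ofFn (fun j => optN (y.2 j))))) =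
      some ((Nat.bits (y.1 : ℕ), List.ofFn (fun j => optN (y.2 j))),
        Nat.bits (eX g d A y : ℕ)) := by
  unfold tabX
  refine find_map_inj (fun y : SymX g d A => (Nat.bits (y.1 : ℕ),
    List.ofFn (fun j => optN (y.2 j)))) (fun y => Nat.bits (eX g d A y : ℕ)) ?_ _ y
    (Finset.mem_toList.2 (Finset.mem_univ _))
  rintro ⟨i, f⟩ ⟨i', f'⟩ h
  simp only [Prod.mk.injEq] at h
  obtain ⟨h1, h2⟩ := h
  have h3 := List.ofFn_injective h2
  refine Prod.ext (Fin.ext (bits_injective h1)) ?_
  funext j
  exact optN_inj (congrFun h3 j)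

/-- a value from its number -/
def fdN (hd : 0 < d) (n : ℕ) : Fin d := if h : n < d then ⟨n, h⟩ else ⟨0, hd⟩

/-- the partial assignment of a list -/
def paR (hd : 0 < d) (ρ : List (List Bool × ℕ)) (v : ℕ) : Option (Fin d) :=
  if lkp ρ (Nat.bits v) = 0 then none else some (fdN hd (lkp ρ (Nat.bits v) - 1))

theorem lkp_le {ρ : List (List Bool × ℕ)} {D : ℕ} (h : ∀ e ∈ ρ, e.2 < D) (w : List Bool) :
    lkp ρ w ≤ D := by
  rcases hf : ρ.find? (fun e => decide (e.1 = w)) with _ | e
  · rw [lkp_none hf]
    exact Nat.zero_le _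
  · rw [lkp_some hf]
    exact h e (List.mem_of_find?_eq_some hf)

theorem optN_paR (hd : 0 < d) {ρ : List (List Bool × ℕ)} (h : ∀ e ∈ ρ, e.2 < d) (v : ℕ) :
    optN (paR hd ρ v) = lkp ρ (Nat.bits v) := by
  have h1 := lkp_le h (Nat.bits v)
  unfold paR
  by_cases h0 : lkp ρ (Nat.bits v) = 0
  · rw [if_pos h0, h0]
    rfl
  · rw [if_neg h0]
    unfold optN fdN
    rw [dif_pos (by omega)]
    simp only
    omega

theorem rcW_wordC (hd : 0 < d) {ρ : List (List Bool × ℕ)} (h : ∀ e ∈ ρ, e.2 < d) {A : ℕ}
    (c : Con ar) (hA : ar c.1 ≤ A) :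
    rcW (tabX g d A) A ρ (wordC c) = wordC (rcC A (paR hd ρ) c) := by
  have hlen : (wordC c).tail.length = (List.ofFn c.2).length := by
    unfold wordC
    rw [List.tail_cons, List.length_map]
  have hlA : (List.ofFn c.2).length ≤ A := by
    rw [List.length_ofFn]
    exact hA
  have hkey : ((wordC c).headD [],
      (wordC c).tail.map (lkp ρ) ++ List.replicate (A - (wordC c).tail.length) 0) =
      (Nat.bits (c.1 : ℕ), List.ofFn (fun j : Fin A =>
        optN (((List.ofFn c.2).map (paR hd ρ)).getD j none))) := by
    refine Prod.ext rfl ?_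
    simp only
    have h1 : (fun j : Fin A => optN (((List.ofFn c.2).map (paR hd ρ)).getD j none)) =
        (fun j : Fin A => (((List.ofFn c.2).map (fun v => lkp ρ (Nat.bits v))).getD j 0)) := by
      funext j
      by_cases hj : (j : ℕ) < (List.ofFn c.2).length
      · simp only [List.getD, List.getElem?_map, List.getElem?_eq_getElem hj, Option.map_some,
          Option.getD_some]
        exact optN_paR hd h _
      · rw [List.getD_eq_getElem?_getD, List.getD_eq_getElem?_getD, List.getElem?_map,
          List.getElem?_map, List.getElem?_eq_none (by omega)]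
        rfl
    rw [h1, ofFn_getD _ _ _ (by rw [List.length_map]; exact hlA), hlen, List.length_map]
    unfold wordC
    rw [List.tail_cons, List.map_map]
    rfl
  unfold rcW
  rw [hkey, tabX_find (g := g) (d := d) (A := A)
    (c.1, fun j => ((List.ofFn c.2).map (paR hd ρ)).getD j none), hlen]
  unfold rcC
  have e : wordC (⟨eX g d A (c.1, fun j => ((List.ofFn c.2).map (paR hd ρ)).getD j none),
      fun j => (List.ofFn c.2).getD j 0⟩ : Con (arX g d A)) =
      Nat.bits (eX g d A (c.1, fun j => ((List.ofFn c.2).map (paR hd ρ)).getD j none) : ℕ) ::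
        (List.ofFn (fun j : Fin A => (List.ofFn c.2).getD j 0)).map Nat.bits := rfl
  rw [e, ofFn_getD _ _ _ hlA]
  refine congrArg (List.cons _) ?_
  rw [List.map_append, List.map_replicate]
  unfold wordC
  rw [List.tail_cons]
  simp

theorem lkp_append (ρ β : List (List Bool × ℕ)) (w : List Bool) :
    lkp (ρ ++ β) w = if lkp ρ w = 0 then lkp β w else lkp ρ w := by
  rcases h1 : ρ.find? (fun e => decide (e.1 = w)) with _ | e
  · rw [lkp_none h1, if_pos rfl]
    have h3 : (ρ ++ β).find? (fun e => decide (e.1 = w)) =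
        β.find? (fun e => decide (e.1 = w)) := by
      rw [List.find?_append, h1, Option.none_or]
    unfold lkp
    rw [h3]
  · have h3 : (ρ ++ β).find? (fun e => decide (e.1 = w)) = some e := by
      rw [List.find?_append, h1, Option.some_or]
    rw [lkp_some h1, lkp_some h3, if_neg (by omega)]

theorem paR_getD_append (hd : 0 < d) (ρ β : List (List Bool × ℕ)) (a : ℕ → Fin d)
    (h : ∀ e ∈ β, ∀ v : ℕ, e.1 = Nat.bits v → e.2 = (a v : ℕ)) (v : ℕ) :
    (paR hd (ρ ++ β) v).getD (a v) = (paR hd ρ v).getD (a v) := by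
  unfold paR
  rw [lkp_append]
  by_cases h0 : lkp ρ (Nat.bits v) = 0
  · rw [if_pos h0, if_pos h0, Option.getD_none]
    rcases h2 : β.find? (fun e => decide (e.1 = Nat.bits v)) with _ | e'
    · rw [lkp_none h2, if_pos rfl, Option.getD_none]
    · have h3 := List.find?_some h2
      have h4 := h e' (List.mem_of_find?_eq_some h2) v (by simpa using h3)
      rw [lkp_some h2, if_neg (by omega), Option.getD_some, h4]
      unfold fdN
      rw [dif_pos (by rw [Nat.add_sub_cancel]; exact (a v).2)]
      exact Fin.ext (Nat.add_sub_cancel _ _)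
  · rw [if_neg h0]

end lang

end Pool.Agent.Lib.MP_87d05f_lc
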