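import Mathlib
import Pool.Agent.Lib.MP_87d05f_lc.BlockLang

set_option autoImplicit false

/-!
# Block search: the programs
-/

namespace Pool.Agent.Lib.MP_87d05f_lc

open Pool.Agent.PolyTime Function Turing

/-- the distinct variables -/
def vsB (G : List (List (List Bool))) : List (List Bool) := ded (G.flatMap List.tail)

/-- the size of a block of variables -/
def nqB (r : ℕ) (G : List (List (List Bool))) : ℕ := mydiv (vsB G).length r + 1

/-- the number of ones -/
def ones (l : List Bool) : ℕ := (l.filter (fun b => b)).length

/-- the assignment of block `j` given by a string -/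
def blkB (W r : ℕ) (G : List (List (List Bool))) (j : ℕ) (s : List Bool) :
    List (List Bool × ℕ) :=
  (((vsB G).drop (j * nqB r G)).take (nqB r G)).zipIdx.map
    (fun p => (p.1, ones ((s.drop (p.2 * W)).take W)))

/-- the next string, with the carry -/
def incS (s : List Bool) : List Bool × Bool :=
  s.foldr (fun b p => (xor b p.2 :: p.1, b && p.2)) ([], true)

/-- states: constraints and assigned values, block number, threshold, string -/
abbrev StB : Type := (List (List (List Bool)) × List (List Bool × ℕ)) × ((ℕ × ℕ) × List Bool)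

/-- the first state -/
def initB (W r Φ : ℕ) (x : List Bool) : StB :=
  ((parseW x, []), ((0, Φ * (parseW x).length),
    List.replicate (W * nqB r (parseW x)) false))

/-- the extended assignment -/
def rhoB (W r : ℕ) (st : StB) : List (List Bool × ℕ) :=
  st.1.2 ++ blkB W r st.1.1 st.2.1.1 st.2.2

/-- the instance asked -/
def fmlB (tab : TabX) (A W r : ℕ) (st : StB) : List Bool :=
  encW ([List.replicate st.2.1.2 true] :: st.1.1.map (rcW tab A (rhoB W r st)))

/-- the question -/
def queryB (tab : TabX) (A W r C e b₂ : ℕ) (st : StB) : Qry :=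
  (fmlB tab A W r st, (C * ((fmlB tab A W r st).length + 1) ^ e, mydiv st.1.1.length b₂))

/-- the next state -/
def nextB (W r : ℕ) (a : Bool) (st : StB) : StB :=
  bif a then ((st.1.1, rhoB W r st), ((st.2.1.1 + 1, st.2.1.2),
    List.replicate st.2.2.length false))
  else (st.1, ((st.2.1.1, bif (incS st.2.2).2 then st.2.1.2 - 1 else st.2.1.2),
    (incS st.2.2).1))

/-- all blocks are assigned -/
def dnB (r : ℕ) (st : StB) : Bool := decide (r ≤ st.2.1.1)

/-- the values of all places -/
def outB (st : StB) : List Bool :=
  st.1.1.flatMap (fun c => c.tail.flatMap (fun w =>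
    List.replicate (lkp st.1.2 w - 1) true ++ [false]))

section ptime

variable {α : Type} [SCode α]

theorem vsB_ptime {G : α → List (List (List Bool))} (hG : PTime G) :
    PTime (fun a => vsB (G a)) := by
  unfold vsB
  exact ded_ptime (PTime.flatMap (f := fun (_ : α) (c : List (List Bool)) => c.tail) hG
    (PTime.tail PTime.snd))

theorem nqB_ptime (r : ℕ) {G : α → List (List (List Bool))} (hG : PTime G) :
    PTime (fun a => nqB r (G a)) := by
  unfold nqB
  exact PTime.succ (mydiv_ptime (PTime.length (vsB_ptime hG)) (PTime.const r))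

theorem ones_ptime {l : α → List Bool} (hl : PTime l) : PTime (fun a => ones (l a)) := by
  unfold ones
  exact PTime.length (PTime.filter (p := fun (_ : α) (b : Bool) => b) hl PTime.snd)

theorem blkB_ptime (W r : ℕ) {G : α → List (List (List Bool))} {j : α → ℕ}
    {s : α → List Bool} (hG : PTime G) (hj : PTime j) (hs : PTime s) :
    PTime (fun a => blkB W r (G a) (j a) (s a)) := by
  unfold blkB
  have hn := nqB_ptime r hG
  refine PTime.map (l := fun a => (((vsB (G a)).drop (j a * nqB r (G a))).take
      (nqB r (G a))).zipIdx)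
    (f := fun a (p : List Bool × ℕ) => (p.1, ones (((s a).drop (p.2 * W)).take W)))
    (PTime.zipIdx (PTime.take hn (PTime.drop (PTime.mul hj hn) (vsB_ptime hG)))) ?_
  exact (PTime.fst.comp PTime.snd).pair (ones_ptime (PTime.take (PTime.const W)
    (PTime.drop (PTime.mul (PTime.snd.comp PTime.snd) (PTime.const W)) (hs.comp PTime.fst))))

theorem incS_ptime {s : α → List Bool} (hs : PTime s) : PTime (fun a => incS (s a)) := by
  have h : PTime (fun s : List Bool => incS s) := by
    unfold incS
    refine PTime.foldr (f := fun (_ : List Bool) b (p : List Bool × Bool) =>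
      ((xor b p.2 :: p.1, b && p.2) : List Bool × Bool)) PTime.id (PTime.const _) ?_
      (Polynomial.C 20) ?_
    · have hb : PTime (fun p : List Bool × Bool × (List Bool × Bool) => p.2.1) :=
        PTime.fst.comp PTime.snd
      have hl : PTime (fun p : List Bool × Bool × (List Bool × Bool) => p.2.2.1) :=
        PTime.fst.comp (PTime.snd.comp PTime.snd)
      have hc : PTime (fun p : List Bool × Bool × (List Bool × Bool) => p.2.2.2) :=
        PTime.snd.comp (PTime.snd.comp PTime.snd)
      have hx : PTime (fun p : List Bool × Bool × (List Bool × Bool) => xor p.2.1 p.2.2.2) :=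
        (PTime.cond hb (PTime.not hc) hc).of_eq fun p => by
          cases p.2.1 <;> cases p.2.2.2 <;> rfl
      exact (PTime.cons hx hl).pair (PTime.and hb hc)
    · intro a p b _
      have h1 := sz_bool_le (xor b p.2)
      have h2 := sz_bool_le (b && p.2)
      have h3 : sz p = sz p.1 + sz p.2 + 1 := by
        rcases p with ⟨p1, p2⟩
        rw [sz_pair]
      have h4 := sz_pos p.2
      rw [Polynomial.eval_C, sz_pair, sz_cons, h3]
      omega
  exact h.comp hs

theorem initB_ptime (W r Φ : ℕ) : PTime (initB W r Φ) := by
  unfold initB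
  refine (parseW_ptime.pair (PTime.const [])).pair (PTime.pair (PTime.pair (PTime.const 0)
    (PTime.mul (PTime.const Φ) (PTime.length parseW_ptime))) ?_)
  exact PTime.replicate (PTime.mul (PTime.const W) (nqB_ptime r parseW_ptime))
    (PTime.const false)

theorem rhoB_ptime (W r : ℕ) : PTime (rhoB W r) := by
  unfold rhoB
  exact PTime.append (PTime.snd.comp PTime.fst) (blkB_ptime W r (PTime.fst.comp PTime.fst)
    (PTime.fst.comp (PTime.fst.comp PTime.snd)) (PTime.snd.comp PTime.snd))

theorem fmlB_ptime (tab : TabX) (A W r : ℕ) : PTime (fmlB tab A W r) := by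
  unfold fmlB
  refine encW_ptime (PTime.cons (PTime.cons (PTime.replicate
    (PTime.snd.comp (PTime.fst.comp PTime.snd)) (PTime.const true)) (PTime.const [])) ?_)
  refine PTime.map (l := fun st : StB => st.1.1) (f := fun st c => rcW tab A (rhoB W r st) c)
    (PTime.fst.comp PTime.fst) ?_
  exact rcW_ptime tab A ((rhoB_ptime W r).comp PTime.fst) PTime.snd

theorem queryB_ptime (tab : TabX) (A W r C e b₂ : ℕ) : PTime (queryB tab A W r C e b₂) := by
  unfold queryB
  have h := fmlB_ptime tab A W r
  exact h.pair ((PTime.mul (PTime.const C) (PTime.natPow_const (PTime.succ (PTime.length h))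
    e)).pair (mydiv_ptime (PTime.length (PTime.fst.comp PTime.fst)) (PTime.const b₂)))

theorem nextB_ptime (W r : ℕ) : PTime (fun p : Bool × StB => nextB W r p.1 p.2) := by
  unfold nextB
  have hG : PTime (fun p : Bool × StB => p.2.1.1) := PTime.fst.comp (PTime.fst.comp PTime.snd)
  have h1 : PTime (fun p : Bool × StB => p.2.1) := PTime.fst.comp PTime.snd
  have hj : PTime (fun p : Bool × StB => p.2.2.1.1) :=
    PTime.fst.comp (PTime.fst.comp (PTime.snd.comp PTime.snd))
  have ht : PTime (fun p : Bool × StB => p.2.2.1.2) :=
    PTime.snd.comp (PTime.fst.comp (PTime.snd.comp PTime.snd))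
  have hs : PTime (fun p : Bool × StB => p.2.2.2) := PTime.snd.comp (PTime.snd.comp PTime.snd)
  have hi := incS_ptime hs
  refine PTime.cond PTime.fst ?_ ?_
  · exact (hG.pair ((rhoB_ptime W r).comp PTime.snd)).pair (((PTime.succ hj).pair ht).pair
      (PTime.replicate (PTime.length hs) (PTime.const false)))
  · exact h1.pair ((hj.pair (PTime.cond (PTime.snd.comp hi) (PTime.pred ht) ht)).pair
      (PTime.fst.comp hi))

theorem dnB_ptime (r : ℕ) : PTime (dnB r) := by
  unfold dnB
  exact PTime.nat_le (PTime.const r) (PTime.fst.comp (PTime.fst.comp PTime.snd))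

theorem outB_ptime : PTime outB := by
  unfold outB
  refine PTime.flatMap (l := fun st : StB => st.1.1)
    (f := fun st (c : List (List Bool)) => c.tail.flatMap (fun w =>
      List.replicate (lkp st.1.2 w - 1) true ++ [false])) (PTime.fst.comp PTime.fst) ?_
  refine PTime.flatMap (l := fun q : StB × List (List Bool) => q.2.tail)
    (f := fun q (w : List Bool) => List.replicate (lkp q.1.1.2 w - 1) true ++ [false])
    (PTime.tail PTime.snd) ?_
  refine PTime.append (PTime.replicate (PTime.pred (lkp_ptime ?_ PTime.snd))
    (PTime.const true)) (PTime.const _)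
  exact PTime.snd.comp (PTime.fst.comp (PTime.fst.comp PTime.fst))

end ptime

end Pool.Agent.Lib.MP_87d05f_lc
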