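import Mathlib
import Pool.Agent.Lib.MP_87d05f_lc.BlockProg

set_option autoImplicit false

/-!
# Block search: the invariant
-/

namespace Pool.Agent.Lib.MP_87d05f_lc

open Pool.Agent.PolyTime Function Turing

/-! ### Strings in order -/

/-- the number of strings after `s` -/
def rkS : List Bool → ℕ
  | [] => 0
  | b :: l => (bif b then 0 else 2 ^ l.length) + rkS l

theorem rkS_lt (s : List Bool) : rkS s < 2 ^ s.length := by
  induction s with
  | nil => simp [rkS]
  | cons b l ih =>
    rw [rkS, List.length_cons, pow_succ]
    rcases b with _ | _
    · rw [cond_false]; omega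
    · rw [cond_true]; omega

theorem rkS_zeros (n : ℕ) : rkS (List.replicate n false) + 1 = 2 ^ n := by
  induction n with
  | zero => rfl
  | succ n ih =>
    rw [List.replicate_succ, rkS, List.length_replicate, cond_false, pow_succ]
    omega

theorem rkS_inj : ∀ s s' : List Bool, s.length = s'.length → rkS s = rkS s' → s = s' := by
  intro s
  induction s with
  | nil => intro s' h _; exact (List.length_eq_zero_iff.1 h.symm).symm
  | cons b l ih =>
    intro s' h h'
    rcases s' with _ | ⟨b', l'⟩
    · simp at h
    · have hl : l.length = l'.length := by simpa using h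
      rw [rkS, rkS, hl] at h'
      have h1 := rkS_lt l
      have h2 := rkS_lt l'
      rw [hl] at h1
      rcases b with _ | _ <;> rcases b' with _ | _ <;> simp only [cond_true, cond_false] at h'
      · rw [ih l' hl (by omega)]
      · omega
      · omega
      · rw [ih l' hl (by omega)]

theorem incS_cons (b : Bool) (l : List Bool) :
    incS (b :: l) = (xor b (incS l).2 :: (incS l).1, b && (incS l).2) := rfl

theorem incS_length (s : List Bool) : (incS s).1.length = s.length := by
  induction s with
  | nil => rfl
  | cons b l ih => rw [incS_cons, List.length_cons, List.length_cons, ih]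

theorem incS_spec (s : List Bool) :
    ((incS s).2 = true → rkS s = 0 ∧ rkS (incS s).1 + 1 = 2 ^ s.length) ∧
    ((incS s).2 = false → rkS (incS s).1 + 1 = rkS s) := by
  induction s with
  | nil =>
    constructor
    · intro _; exact ⟨rfl, rfl⟩
    · intro h; exact absurd h (by simp [incS])
  | cons b l ih =>
    rw [incS_cons]
    have hl := incS_length l
    have h1 := rkS_lt l
    have h2 := rkS_lt (incS l).1
    rw [hl] at h2
    simp only
    rw [rkS, rkS, hl, List.length_cons, pow_succ]
    rcases hc : (incS l).2 with _ | _
    · have h3 := ih.2 hc
      rcases b with _ | _ <;> simp <;> omega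
    · have h3 := ih.1 hc
      rcases b with _ | _ <;> simp <;> omega

/-! ### Blocks of strings -/

/-- the string of a number -/
def chk (W x : ℕ) : List Bool := List.replicate x true ++ List.replicate (W - x) false

theorem chk_length {W x : ℕ} (h : x ≤ W) : (chk W x).length = W := by
  unfold chk
  rw [List.length_append, List.length_replicate, List.length_replicate]
  omega

theorem ones_chk (W x : ℕ) : ones (chk W x) = x := by
  unfold ones chk
  rw [List.filter_append, List.length_append]
  have h1 : ((List.replicate x true).filter (fun b => b)) = List.replicate x true := by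
    rw [List.filter_replicate]; simp
  have h2 : ((List.replicate (W - x) false).filter (fun b => b)) = [] := by
    rw [List.filter_replicate]; simp
  rw [h1, h2, List.length_replicate]
  rfl

theorem ones_le (l : List Bool) : ones l ≤ l.length := by
  unfold ones
  exact List.length_filter_le _ _

theorem take_chunks {α : Type} (W : ℕ) (f : α → List Bool) (hf : ∀ a, (f a).length = W)
    (vs : List α) : ∀ j (hj : j < vs.length),
    ((vs.flatMap f).drop (j * W)).take W = f vs[j] := by
  induction vs with
  | nil => intro j hj; simp at hj
  | cons v vs ih =>
    intro j hj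
    rw [List.flatMap_cons]
    rcases j with _ | j
    · rw [Nat.zero_mul, List.drop_zero, List.take_append_of_le_length (by rw [hf]),
        List.take_of_length_le (by rw [hf])]
      rfl
    · have h1 : (j + 1) * W = (f v).length + j * W := by
        rw [hf]
        ring
      rw [h1, List.drop_length_add_append]
      exact ih j (by simpa using hj)

theorem flatMap_length_const {α : Type} (W : ℕ) (f : α → List Bool)
    (hf : ∀ a, (f a).length = W) (vs : List α) : (vs.flatMap f).length = vs.length * W := by
  induction vs with
  | nil => simp
  | cons v vs ih =>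
    rw [List.flatMap_cons, List.length_append, ih, hf, List.length_cons]
    ring

/-- iteration with a rank -/
theorem iter_rank {σ : Type} (step : σ → σ) (Inv : σ → Prop) (dn : σ → Bool) (rank : σ → ℕ)
    (h : ∀ s, Inv s → dn s = false → Inv (step s) ∧ rank (step s) < rank s) :
    ∀ (n : ℕ) (s0 : σ), Inv s0 → rank s0 ≤ n → ∃ N, N ≤ n ∧ (∀ i, i ≤ N → Inv (step^[i] s0)) ∧
      (∀ i, i < N → dn (step^[i] s0) = false) ∧ dn (step^[N] s0) = true := by
  intro n
  induction n with
  | zero =>
    intro s0 h0 hr
    rcases hd : dn s0 with _ | _
    · have := (h s0 h0 hd).2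
      omega
    · refine ⟨0, le_rfl, fun i hi => ?_, fun i hi => by omega, hd⟩
      obtain rfl : i = 0 := by omega
      exact h0
  | succ n ih =>
    intro s0 h0 hr
    rcases hd : dn s0 with _ | _
    · obtain ⟨h1, h2⟩ := h s0 h0 hd
      obtain ⟨N, hN, hi, hf, ht⟩ := ih (step s0) h1 (by omega)
      refine ⟨N + 1, by omega, fun i hi' => ?_, fun i hi' => ?_, ?_⟩
      · rcases i with _ | i
        · exact h0
        · rw [iterate_succ_apply]
          exact hi i (by omega)
      · rcases i with _ | i
        · exact hd
        · rw [iterate_succ_apply]
          exact hf i (by omega)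
      · rw [iterate_succ_apply]
        exact ht
    · refine ⟨0, Nat.zero_le _, fun i hi => ?_, fun i hi => by omega, hd⟩
      obtain rfl : i = 0 := by omega
      exact h0

end Pool.Agent.Lib.MP_87d05f_lc
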