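import Mathlib
import Pool.Agent.Lib.MP_87d05f_lc.BlockInv

set_option autoImplicit false

/-!
# Block search: one step
-/

namespace Pool.Agent.Lib.MP_87d05f_lc

open Pool.Agent.PolyTime Function Turing

/-! ### Blocks -/

theorem blkB_fst (W r : ℕ) (G : List (List (List Bool))) (j : ℕ) (s : List Bool) :
    (blkB W r G j s).map Prod.fst = ((vsB G).drop (j * nqB r G)).take (nqB r G) := by
  unfold blkB
  rw [List.map_map]
  change (List.zipIdx _).map (fun p => p.1) = _
  exact List.zipIdx_map_fst 0 _

theorem blkB_val {W r : ℕ} {G : List (List (List Bool))} {j : ℕ} {s : List Bool} :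
    ∀ e ∈ blkB W r G j s, e.2 ≤ W := by
  intro e he
  unfold blkB at he
  obtain ⟨p, _, rfl⟩ := List.mem_map.1 he
  exact (ones_le _).trans (List.length_take_le _ _)

theorem exists_blk {d : ℕ} (hd : 0 < d) (r : ℕ) (G : List (List (List Bool))) (j : ℕ)
    (a : ℕ → Fin d) : ∃ s : List Bool, s.length = (d - 1) * nqB r G ∧
      ∀ e ∈ blkB (d - 1) r G j s, ∀ v : ℕ, e.1 = Nat.bits v → e.2 = (a v : ℕ) := by
  obtain ⟨B, hB⟩ : ∃ B, B = ((vsB G).drop (j * nqB r G)).take (nqB r G) := ⟨_, rfl⟩
  obtain ⟨f, hf⟩ : ∃ f : ℕ → List Bool, f = fun i => chk (d - 1) (a (unbits (B.getD i []))) :=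
    ⟨_, rfl⟩
  have hfl : ∀ i, (f i).length = d - 1 := by
    intro i
    rw [hf]
    exact chk_length (by have := (a (unbits (B.getD i []))).2; omega)
  refine ⟨(List.range (nqB r G)).flatMap f, ?_, ?_⟩
  · rw [flatMap_length_const (d - 1) f hfl, List.length_range, Nat.mul_comm]
  · intro e he v hv
    unfold blkB at he
    rw [← hB] at he
    obtain ⟨⟨w, i⟩, hp, rfl⟩ := List.mem_map.1 he
    rw [List.mem_zipIdx_iff_getElem?] at hp
    simp only at hp hv ⊢
    obtain ⟨hi, hw⟩ := List.getElem?_eq_some_iff.1 hp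
    have hin : i < nqB r G := by
      refine lt_of_lt_of_le hi ?_
      rw [hB]
      exact List.length_take_le _ _
    rw [take_chunks (d - 1) f hfl (List.range (nqB r G)) i (by rw [List.length_range]; exact hin),
      List.getElem_range, hf]
    simp only
    rw [ones_chk]
    have h1 : B.getD i [] = w := by
      rw [List.getD_eq_getElem?_getD, hp]
      rfl
    rw [h1, hv, unbits_bits]

section inv

variable {g d : ℕ} {ar : Fin g → ℕ}

/-- the partial assignment completed -/
def ovr (hd : 0 < d) (ρ : List (List Bool × ℕ)) (a : ℕ → Fin d) : ℕ → Fin d :=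
  fun v => (paR hd ρ v).getD (a v)

theorem ovr_append (hd : 0 < d) (ρ β : List (List Bool × ℕ)) (a : ℕ → Fin d)
    (h : ∀ e ∈ β, ∀ v : ℕ, e.1 = Nat.bits v → e.2 = (a v : ℕ)) :
    ovr hd (ρ ++ β) a = ovr hd ρ a := by
  funext v
  exact paR_getD_append hd ρ β a h v

theorem ovr_ovr (hd : 0 < d) (ρ β : List (List Bool × ℕ)) (a : ℕ → Fin d) :
    ovr hd ρ (ovr hd (ρ ++ β) a) = ovr hd (ρ ++ β) a := by
  funext v
  unfold ovr
  by_cases h0 : lkp ρ (Nat.bits v) = 0
  · have : paR hd ρ v = none := by
      unfold paR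
      rw [if_pos h0]
    rw [this, Option.getD_none]
  · have : paR hd (ρ ++ β) v = paR hd ρ v := by
      unfold paR
      rw [lkp_append, if_neg h0]
    rw [this]
    have h2 : paR hd ρ v = some (fdN hd (lkp ρ (Nat.bits v) - 1)) := by
      unfold paR
      rw [if_neg h0]
    rw [h2, Option.getD_some, Option.getD_some]

/-- the invariant of the search -/
structure InvB (φ : (i : Fin g) → (Fin (ar i) → Fin d) → ℕ) (hd : 0 < d) (F : List (Con ar))
    (r Φ p q O : ℕ) (st : StB) : Prop where
  hG : st.1.1 = F.map wordC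
  hρ : st.1.2.map Prod.fst = (vsB (F.map wordC)).take (st.2.1.1 * nqB r (F.map wordC))
  hv : ∀ e ∈ st.1.2, e.2 < d
  hs : st.2.2.length = (d - 1) * nqB r (F.map wordC)
  hj : st.2.1.1 ≤ r
  ht : st.2.1.2 ≤ Φ * F.length
  hup : ∀ a, valC φ (ovr hd st.1.2 a) F ≤ st.2.1.2
  hrej : ∀ s' : List Bool, s'.length = (d - 1) * nqB r (F.map wordC) →
    rkS st.2.2 < rkS s' → ∀ a,
      valC φ (ovr hd (st.1.2 ++ blkB (d - 1) r (F.map wordC) st.2.1.1 s') a) F < st.2.1.2
  hlo : ∃ a, q * O ≤ q * valC φ (ovr hd st.1.2 a) F + st.2.1.1 * (p * O)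

/-- the rank of a state -/
def rankB (r w : ℕ) (st : StB) : ℕ := (r - st.2.1.1 + st.2.1.2) * 2 ^ w + rkS st.2.2

theorem invB_step {φ : (i : Fin g) → (Fin (ar i) → Fin d) → ℕ} {hd : 0 < d}
    {F : List (Con ar)} {r Φ p q O : ℕ} (hO : ∀ a, valC φ a F ≤ O) (hpq : p ≤ q) {st : StB}
    (h : InvB φ hd F r Φ p q O st) (hj : st.2.1.1 < r) (A : Bool)
    (hyes : (∃ a, st.2.1.2 ≤ valC φ (ovr hd (rhoB (d - 1) r st) a) F) → A = true)
    (hno : (∀ a, q * valC φ (ovr hd (rhoB (d - 1) r st) a) F + p * st.2.1.2 < q * st.2.1.2) →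
      A = false) :
    InvB φ hd F r Φ p q O (nextB (d - 1) r A st) ∧
      rankB r ((d - 1) * nqB r (F.map wordC)) (nextB (d - 1) r A st) <
        rankB r ((d - 1) * nqB r (F.map wordC)) st := by
  obtain ⟨⟨G, ρ⟩, ⟨⟨j, t⟩, s⟩⟩ := st
  obtain ⟨hG, hρ, hv, hs, hj', ht, hup, hrej, hlo⟩ := h
  simp only at hG hρ hv hs hj' ht hup hrej hlo hj hyes hno
  subst hG
  obtain ⟨n, hn⟩ : ∃ n, n = nqB r (F.map wordC) := ⟨_, rfl⟩
  obtain ⟨w, hw⟩ : ∃ w, w = (d - 1) * n := ⟨_, rfl⟩
  rw [← hn] at hρ hs hrej ⊢
  rw [← hw] at hs hrej ⊢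
  have hr : rhoB (d - 1) r ((F.map wordC, ρ), ((j, t), s)) =
      ρ ++ blkB (d - 1) r (F.map wordC) j s := rfl
  rw [hr] at hyes hno
  rcases A with _ | _
  · -- rejected
    have hrj : ∀ a, valC φ (ovr hd (ρ ++ blkB (d - 1) r (F.map wordC) j s) a) F < t := by
      intro a
      by_contra hc
      have := hyes ⟨a, not_lt.1 hc⟩
      simp at this
    have hnext : nextB (d - 1) r false ((F.map wordC, ρ), ((j, t), s)) =
        ((F.map wordC, ρ), ((j, bif (incS s).2 then t - 1 else t), (incS s).1)) := rfl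
    rw [hnext]
    obtain ⟨h1, h2⟩ := incS_spec s
    have hl := incS_length s
    have hlt := rkS_lt s
    rcases hc : (incS s).2 with _ | _
    · have h3 := h2 hc
      simp only [cond_false]
      constructor
      · refine ⟨rfl, by rw [← hn]; exact hρ, hv, by rw [← hn, ← hw]; simpa [hl] using hs, hj',
          ht, hup, ?_, hlo⟩
        intro s' hs' hlt'
        rw [← hn, ← hw] at hs'
        simp only at hlt' ⊢
        rcases Nat.lt_or_ge (rkS s) (rkS s') with h4 | h4
        · exact hrej s' hs' h4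
        · have h5 : s' = s := rkS_inj _ _ (by rw [hs', hs]) (by omega)
          rw [h5]
          exact hrj
      · unfold rankB
        simp only
        omega
    · obtain ⟨h3, h4⟩ := h1 hc
      simp only [cond_true]
      have hall : ∀ s' : List Bool, s'.length = w → ∀ a,
          valC φ (ovr hd (ρ ++ blkB (d - 1) r (F.map wordC) j s') a) F < t := by
        intro s' hs'
        rcases Nat.lt_or_ge (rkS s) (rkS s') with h5 | h5
        · exact hrej s' hs' h5
        · have h6 : s' = s := rkS_inj _ _ (by rw [hs', hs]) (by omega)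
          rw [h6]
          exact hrj
      have hup' : ∀ a, valC φ (ovr hd ρ a) F < t := by
        intro a
        obtain ⟨s', hs', h5⟩ := exists_blk hd r (F.map wordC) j a
        rw [← hn, ← hw] at hs'
        have h6 := hall s' hs' a
        rwa [ovr_append hd _ _ _ h5] at h6
      have htpos : 0 < t := lt_of_le_of_lt (Nat.zero_le _) (hup' (fun _ => ⟨0, hd⟩))
      constructor
      · refine ⟨rfl, by rw [← hn]; exact hρ, hv, by rw [← hn, ← hw]; simpa [hl] using hs, hj',
          ?_, ?_, ?_, hlo⟩
        · simp only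
          omega
        · intro a
          have := hup' a
          simp only
          omega
        · intro s' hs' hlt'
          rw [← hn, ← hw] at hs'
          simp only at hlt'
          have h5 := rkS_lt s'
          rw [hs'] at h5
          rw [hs] at h4
          omega
      · unfold rankB
        simp only
        obtain ⟨t', rfl⟩ : ∃ t', t = t' + 1 := ⟨t - 1, by omega⟩
        rw [hs] at h4
        have e1 : (r - j + (t' + 1)) * 2 ^ w = (r - j + (t' + 1 - 1)) * 2 ^ w + 2 ^ w := by
          rw [Nat.add_sub_cancel, ← Nat.add_assoc, Nat.add_mul _ 1, Nat.one_mul]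
        rw [e1]
        omega
  · -- accepted
    have hacc : ∃ a, q * t ≤ q * valC φ (ovr hd (ρ ++ blkB (d - 1) r (F.map wordC) j s) a) F +
        p * t := by
      by_contra hc
      have := hno (fun a => by
        by_contra h1
        exact hc ⟨a, not_lt.1 h1⟩)
      simp at this
    have hnext : nextB (d - 1) r true ((F.map wordC, ρ), ((j, t), s)) =
        ((F.map wordC, ρ ++ blkB (d - 1) r (F.map wordC) j s),
          ((j + 1, t), List.replicate s.length false)) := rfl
    rw [hnext]
    have hz := rkS_zeros s.length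
    rw [hs] at hz
    constructor
    · refine ⟨rfl, ?_, ?_, ?_, hj, ht, ?_, ?_, ?_⟩
      · simp only
        rw [← hn, List.map_append, hρ, blkB_fst, ← hn, Nat.add_mul, Nat.one_mul, List.take_add]
      · intro e he
        simp only [List.mem_append] at he
        rcases he with he | he
        · exact hv e he
        · have := blkB_val e he
          omega
      · simp only
        rw [List.length_replicate, hs, ← hn, hw]
      · intro a
        simp only
        have h1 := hup (ovr hd (ρ ++ blkB (d - 1) r (F.map wordC) j s) a)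
        rwa [ovr_ovr] at h1
      · intro s' hs' hlt'
        simp only at hlt'
        rw [hs] at hlt'
        rw [← hn, ← hw] at hs'
        have h5 := rkS_lt s'
        rw [hs'] at h5
        omega
      · simp only
        obtain ⟨a, ha⟩ := hlo
        obtain ⟨a', ha'⟩ := hacc
        refine ⟨a', ?_⟩
        have h1 := hup a
        have h2 := hO (ovr hd ρ a)
        generalize valC φ (ovr hd ρ a) F = x at *
        generalize valC φ (ovr hd (ρ ++ blkB (d - 1) r (F.map wordC) j s) a') F = y at *
        obtain ⟨c, rfl⟩ : ∃ c, q = p + c := ⟨q - p, by omega⟩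
        have h3 : c * t ≤ (p + c) * y := by
          rw [Nat.add_mul p c t] at ha'
          omega
        have h4 : c * x ≤ (p + c) * y := (Nat.mul_le_mul_left c h1).trans h3
        have h5 : p * x ≤ p * O := Nat.mul_le_mul_left p h2
        have h6 : (p + c) * x = p * x + c * x := Nat.add_mul _ _ _
        have h7 : (j + 1) * (p * O) = j * (p * O) + p * O := by ring
        rw [h7]
        omega
    · unfold rankB
      simp only
      rw [hs]
      obtain ⟨k, hk⟩ : ∃ k, r = j + 1 + k := ⟨r - (j + 1), by omega⟩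
      have e1 : (r - j + t) * 2 ^ w = (r - (j + 1) + t) * 2 ^ w + 2 ^ w := by
        have e2 : r - j + t = (r - (j + 1) + t) + 1 := by omega
        rw [e2, Nat.add_mul _ 1, Nat.one_mul]
      rw [e1]
      omega

end inv

end Pool.Agent.Lib.MP_87d05f_lc
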