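import Mathlib
import Pool.Agent.Lib.MP_87d05f_lc.CspRev

set_option autoImplicit false

/-!
# Gadget reductions from 3-CNF to constraint satisfaction problems
-/

namespace Pool.Agent.Lib.MP_87d05f_lc

open Pool.Agent.PolyTime Function Turing

/-! ### Names -/

/-- decoding of `nb` -/
def unb (x : List Bool) : List Bool × ℕ :=
  ((x.dropWhile id).tail.dropLast, (x.takeWhile id).length)

theorem unb_nb (w : List Bool) (t : ℕ) : unb (nb w t) = (w, t) := by
  unfold unb nb
  have h1 : (List.replicate t true ++ (false :: (w ++ [true]))).dropWhile id =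
      false :: (w ++ [true]) := by
    induction t with
    | zero => rfl
    | succ t ih =>
      rw [List.replicate_succ, List.cons_append, List.dropWhile_cons]
      simp
  have h2 : ((List.replicate t true ++ (false :: (w ++ [true]))).takeWhile id).length = t := by
    induction t with
    | zero => rfl
    | succ t ih =>
      rw [List.replicate_succ, List.cons_append, List.takeWhile_cons]
      simp
  rw [h1, h2]
  simp

/-- the slots of a gadget: kind, two indices -/
abbrev Slot : Type := ℕ × ℕ × ℕ

/-- the literals of a clause, in three positions -/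
def litJ {V : Type} (c : List (Bool × V)) (df : Bool × V) (j : ℕ) : Bool × V :=
  c.getD j (c.headD df)

theorem litJ_mem {V : Type} {c : List (Bool × V)} (hc : c ≠ []) (df : Bool × V) (j : ℕ) :
    litJ c df j ∈ c := by
  unfold litJ
  rcases Nat.lt_or_ge j c.length with h | h
  · rw [List.getD_eq_getElem _ _ h]
    exact List.getElem_mem h
  · rw [List.getD_eq_default _ _ h]
    rcases c with _ | ⟨l, c⟩
    · exact absurd rfl hc
    · exact List.mem_cons_self

theorem exists_litJ {V : Type} {c : List (Bool × V)} (hc : c.length ≤ 3) (df : Bool × V)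
    {l : Bool × V} (hl : l ∈ c) : ∃ j < 3, litJ c df j = l := by
  obtain ⟨j, hj, rfl⟩ := List.getElem_of_mem hl
  exact ⟨j, by omega, by unfold litJ; rw [List.getD_eq_getElem _ _ hj]⟩

/-- the name of a slot in the block of clause `c` with index `n` -/
def nmS (n : ℕ) (c : List (Lit (List Bool))) (q : Slot) : List Bool :=
  bif decide (q.1 = 0) then nb [] (3 * q.2.1) else
  bif decide (q.1 ≤ 3) then nb (litJ c (true, []) (q.1 - 1)).2
    (3 * (bif (litJ c (true, []) (q.1 - 1)).1 then q.2.1 else q.2.2) + 1) else
  nb (List.replicate n false) (3 * q.2.1 + 2)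

theorem nmS_end (n : ℕ) (c : List (Lit (List Bool))) (q : Slot) : ∃ u, nmS n c q = u ++ [true] := by
  unfold nmS
  rcases decide (q.1 = 0) with _ | _ <;> rcases decide (q.1 ≤ 3) with _ | _ <;>
    exact nb_end _ _

theorem bits_unbits_nmS (n : ℕ) (c : List (Lit (List Bool))) (q : Slot) :
    Nat.bits (unbits (nmS n c q)) = nmS n c q := by
  obtain ⟨u, hu⟩ := nmS_end n c q
  rw [hu, bits_unbits]

theorem litJ_ptime {α : Type} [SCode α] {c : α → List (Lit (List Bool))} {j : α → ℕ}
    (hc : PTime c) (hj : PTime j) : PTime (fun a => litJ (c a) (true, []) (j a)) := by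
  unfold litJ
  exact PTime.getD hj hc (PTime.headD hc (PTime.const _))

theorem nmS_ptime {α : Type} [SCode α] {n : α → ℕ} {c : α → List (Lit (List Bool))}
    {q : α → Slot} (hn : PTime n) (hc : PTime c) (hq : PTime q) :
    PTime (fun a => nmS (n a) (c a) (q a)) := by
  unfold nmS
  have h1 : PTime (fun a => (q a).1) := PTime.fst.comp hq
  have h2 : PTime (fun a => (q a).2.1) := (PTime.fst.comp PTime.snd).comp hq
  have h3 : PTime (fun a => (q a).2.2) := (PTime.snd.comp PTime.snd).comp hq
  have hl := litJ_ptime hc (PTime.pred h1)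
  refine PTime.cond (PTime.nat_eq h1 (PTime.const 0)) (nb_ptime (PTime.const _)
    (PTime.mul (PTime.const 3) h2)) (PTime.cond (PTime.nat_le h1 (PTime.const 3)) ?_ ?_)
  · refine nb_ptime (PTime.snd.comp hl) (PTime.succ (PTime.mul (PTime.const 3) ?_))
    exact PTime.cond (PTime.fst.comp hl) h2 h3
  · exact nb_ptime (PTime.replicate hn (PTime.const false))
      (PTime.succ (PTime.succ (PTime.mul (PTime.const 3) h2)))

/-- the value of a slot -/
def slv {D : Type} (G : ℕ → D) (U : ℕ → ℕ → D) (s : ℕ → Bool) (C : ℕ → D) (q : Slot) : D :=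
  bif decide (q.1 = 0) then G q.2.1 else
  bif decide (q.1 ≤ 3) then U (q.1 - 1) (bif s (q.1 - 1) then q.2.1 else q.2.2) else C q.2.1

/-- values of the names -/
theorem name_val {D : Type} (A : List Bool → D) (n : ℕ) (c : List (Lit (List Bool)))
    (q : Slot) :
    A (nmS n c q) = slv (fun t => A (nb [] (3 * t)))
      (fun j t => A (nb (litJ c (true, []) j).2 (3 * t + 1)))
      (fun j => (litJ c (true, []) j).1) (fun t => A (nb (List.replicate n false) (3 * t + 2))) q := by
  unfold nmS slv
  rcases decide (q.1 = 0) with _ | _ <;> rcases decide (q.1 ≤ 3) with _ | _ <;> rfl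

/-- the assignment of names from its parts -/
def mkA {D : Type} (G : ℕ → D) (V : List Bool → ℕ → D) (C : ℕ → ℕ → D) (x : List Bool) : D :=
  if (unb x).2 % 3 = 0 then G ((unb x).2 / 3) else
  if (unb x).2 % 3 = 1 then V (unb x).1 ((unb x).2 / 3) else
  C (unb x).1.length ((unb x).2 / 3)

theorem mkA_val {D : Type} (G : ℕ → D) (V : List Bool → ℕ → D) (C : ℕ → ℕ → D) (n : ℕ)
    (c : List (Lit (List Bool))) (q : Slot) :
    mkA G V C (nmS n c q) = slv G (fun j => V (litJ c (true, []) j).2)
      (fun j => (litJ c (true, []) j).1) (C n) q := by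
  rw [name_val (mkA G V C) n c q]
  have h0 : ∀ t, mkA G V C (nb [] (3 * t)) = G t := by
    intro t
    unfold mkA
    rw [unb_nb]
    simp only
    rw [if_pos (by omega), Nat.mul_div_cancel_left _ (by norm_num)]
  have h1 : ∀ w t, mkA G V C (nb w (3 * t + 1)) = V w t := by
    intro w t
    unfold mkA
    rw [unb_nb]
    simp only
    rw [if_neg (by omega), if_pos (by omega), show (3 * t + 1) / 3 = t by omega]
  have h2 : ∀ n t, mkA G V C (nb (List.replicate n false) (3 * t + 2)) = C n t := by
    intro n t
    unfold mkA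
    rw [unb_nb]
    simp only [List.length_replicate]
    rw [if_neg (by omega), if_neg (by omega), show (3 * t + 2) / 3 = t by omega]
  simp only [h0, h1, h2]

/-! ### Templates -/

section temp

variable {g d : ℕ} {ar : Fin g → ℕ}

/-- a constraint with slots -/
abbrev TCon (ar : Fin g → ℕ) : Type := (i : Fin g) × (Fin (ar i) → Slot)

/-- the words of a template -/
def wordT (T : List (TCon ar)) : List (List Bool × List Slot) :=
  T.map (fun t => (Nat.bits (t.1 : ℕ), List.ofFn t.2))

/-- the block of a clause, in words -/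
def blkW (T : List (List Bool × List Slot)) (p : List (Lit (List Bool)) × ℕ) :
    List (List (List Bool)) :=
  T.map (fun e => e.1 :: e.2.map (fun q => nmS p.2 p.1 q))

/-- the block of a clause -/
def blk (T : List (TCon ar)) (p : List (Lit (List Bool)) × ℕ) : List (Con ar) :=
  T.map (fun t => ⟨t.1, fun j => unbits (nmS p.2 p.1 (t.2 j))⟩)

theorem blk_word (T : List (TCon ar)) (p : List (Lit (List Bool)) × ℕ) :
    (blk T p).map wordC = blkW (wordT T) p := by
  unfold blk blkW wordT
  rw [List.map_map, List.map_map]
  refine List.map_congr_left fun t _ => ?_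
  simp only [Function.comp, wordC]
  rw [List.map_ofFn, List.map_ofFn]
  congr 2
  funext j
  simp only [Function.comp, bits_unbits_nmS]

/-- the reduction -/
def redT (T : List (TCon ar)) (F : List (List (Bool × ℕ))) : List (Con ar) :=
  (binF F).zipIdx.flatMap (blk T)

/-- the reduction, in words -/
def redTW (T : List (List Bool × List Slot)) (G : BF') : List (List (List Bool)) :=
  G.zipIdx.flatMap (blkW T)

theorem redT_code (T : List (TCon ar)) (F : List (List (Bool × ℕ))) :
    codeC (redT T F) = encW (redTW (wordT T) (parse (encF F))) := by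
  rw [codeC_eq, parse_encF]
  unfold redT redTW
  rw [List.map_flatMap]
  congr 1
  refine List.flatMap_congr fun p _ => ?_
  exact blk_word T p

theorem blkW_ptime {α : Type} [SCode α] (T : List (List Bool × List Slot))
    {p : α → List (Lit (List Bool)) × ℕ} (hp : PTime p) : PTime (fun a => blkW T (p a)) := by
  unfold blkW
  refine PTime.map (l := fun _ => T) (f := fun a (e : List Bool × List Slot) =>
    e.1 :: e.2.map (fun q => nmS (p a).2 (p a).1 q)) (PTime.const T) ?_
  refine PTime.cons (PTime.fst.comp PTime.snd) ?_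
  refine PTime.map (l := fun a : α × (List Bool × List Slot) => a.2.2)
    (f := fun a (q : Slot) => nmS (p a.1).2 (p a.1).1 q) (PTime.snd.comp PTime.snd) ?_
  exact nmS_ptime (PTime.snd.comp (hp.comp (PTime.fst.comp PTime.fst)))
    (PTime.fst.comp (hp.comp (PTime.fst.comp PTime.fst))) PTime.snd

theorem redTW_ptime {α : Type} [SCode α] (T : List (List Bool × List Slot)) {G : α → BF'}
    (hG : PTime G) : PTime (fun a => redTW T (G a)) := by
  unfold redTW
  exact PTime.flatMap (f := fun (_ : α) p => blkW T p) (PTime.zipIdx hG) (blkW_ptime T PTime.snd)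

theorem redT_length (T : List (TCon ar)) (F : List (List (Bool × ℕ))) :
    (redT T F).length = T.length * F.length := by
  unfold redT
  rw [List.length_flatMap]
  have h : (binF F).zipIdx.map (fun p => (blk T p).length) =
      (binF F).zipIdx.map (fun _ => T.length) := by
    refine List.map_congr_left fun p _ => ?_
    unfold blk
    rw [List.length_map]
  rw [h]
  simp [binF, Nat.mul_comm]

/-- the value of a template under an assignment of slots -/
def valT (R : (i : Fin g) → (Fin (ar i) → Fin d) → Bool) (T : List (TCon ar))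
    (ρ : Slot → Fin d) : ℕ :=
  T.countP (fun t => R t.1 (fun j => ρ (t.2 j)))

/-- a gadget for a constraint language -/
structure Gad (R : (i : Fin g) → (Fin (ar i) → Fin d) → Bool) where
  /-- the template -/
  T : List (TCon ar)
  /-- the value at solutions -/
  M : ℕ
  /-- the assignment of globals -/
  G0 : ℕ → Fin d
  /-- the assignment of the names of a variable -/
  V0 : Bool → ℕ → Fin d
  /-- the assignment of local names -/
  C0 : (ℕ → Bool) → ℕ → Fin d
  /-- reading off the value of a variable -/
  dec : (ℕ → Fin d) → (ℕ → Fin d) → Bool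
  hmax : ∀ G U s C, valT R T (slv G U s C) ≤ M
  hcomp : ∀ s z : ℕ → Bool, (∃ j < 3, z j = s j) →
    M ≤ valT R T (slv G0 (fun j => V0 (z j)) s (C0 (fun j => z j == s j)))
  hsound : ∀ G U s C, M ≤ valT R T (slv G U s C) → ∃ j < 3, dec G (U j) = s j

theorem countP_blk (R : (i : Fin g) → (Fin (ar i) → Fin d) → Bool) (T : List (TCon ar))
    (a : ℕ → Fin d) (p : List (Lit (List Bool)) × ℕ) :
    (blk T p).countP (fun c => R c.1 (fun j => a (c.2 j))) =
      valT R T (fun q => a (unbits (nmS p.2 p.1 q))) := by
  unfold blk valT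
  rw [List.countP_map]
  rfl

theorem countP_redT (R : (i : Fin g) → (Fin (ar i) → Fin d) → Bool) (T : List (TCon ar))
    (a : ℕ → Fin d) (F : List (List (Bool × ℕ))) :
    (redT T F).countP (fun c => R c.1 (fun j => a (c.2 j))) =
      ((binF F).zipIdx.map (fun p => valT R T (fun q => a (unbits (nmS p.2 p.1 q))))).sum := by
  unfold redT
  rw [List.countP_flatMap]
  congr 1
  refine List.map_congr_left fun p _ => ?_
  simp only [Function.comp]
  exact countP_blk R T a p

/-- completeness of the reduction -/
theorem gad_yes {R : (i : Fin g) → (Fin (ar i) → Fin d) → Bool} (X : Gad R)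
    {F : List (List (Bool × ℕ))} (h3 : ∀ c ∈ F, c.length ≤ 3)
    (hs : ∃ a : ℕ → Bool, ∀ c ∈ F, ∃ l ∈ c, a l.2 = l.1) :
    ∃ a : ℕ → Fin d, X.M * F.length ≤
      (redT X.T F).countP (fun c => R c.1 (fun j => a (c.2 j))) := by
  obtain ⟨α, hα⟩ := hs
  obtain ⟨G, hG⟩ : ∃ G, G = binF F := ⟨_, rfl⟩
  obtain ⟨tv, htv⟩ : ∃ tv : List (Lit (List Bool)) → ℕ → Bool,
    tv = fun c j => (α (unbits (litJ c (true, []) j).2) == (litJ c (true, []) j).1) := ⟨_, rfl⟩
  obtain ⟨A, hA⟩ : ∃ A : List Bool → Fin d, A = mkA X.G0 (fun w => X.V0 (α (unbits w)))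
    (fun n => X.C0 (tv (G.getD n []))) := ⟨_, rfl⟩
  refine ⟨fun m => A (Nat.bits m), ?_⟩
  rw [countP_redT R X.T (fun m => A (Nat.bits m)) F, ← hG]
  have hlen : G.zipIdx.length = F.length := by
    rw [List.length_zipIdx, hG]
    unfold binF
    rw [List.length_map]
  have hb : ∀ p ∈ G.zipIdx, X.M ≤ valT R X.T (fun q => A (Nat.bits (unbits (nmS p.2 p.1 q)))) := by
    rintro ⟨c, n⟩ hp
    have hget := List.mem_zipIdx_iff_getElem?.1 hp
    have hc : c ∈ G := List.mem_of_getElem? hget
    have hgD : G.getD n [] = c := by
      rw [List.getD_eq_getElem?_getD, hget]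
      rfl
    have hv : (fun q => A (Nat.bits (unbits (nmS n c q)))) =
        slv X.G0 (fun j => X.V0 (α (unbits (litJ c (true, []) j).2)))
          (fun j => (litJ c (true, []) j).1)
          (X.C0 (fun j => α (unbits (litJ c (true, []) j).2) == (litJ c (true, []) j).1)) := by
      funext q
      rw [bits_unbits_nmS, hA, mkA_val]
      rw [hgD, htv]
    simp only [hv]
    refine X.hcomp _ _ ?_
    rw [hG] at hc
    obtain ⟨c₀, hc₀, rfl⟩ := List.mem_map.1 hc
    obtain ⟨l, hl, hla⟩ := hα c₀ hc₀
    have hl' : ((l.1, Nat.bits l.2) : Lit (List Bool)) ∈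
        c₀.map (fun l => ((l.1, Nat.bits l.2) : Lit (List Bool))) := List.mem_map.2 ⟨l, hl, rfl⟩
    obtain ⟨j, hj, hjl⟩ := exists_litJ (by rw [List.length_map]; exact h3 c₀ hc₀)
      ((true, []) : Lit (List Bool)) hl'
    refine ⟨j, hj, ?_⟩
    rw [hjl]
    simp only [unbits_bits]
    exact hla
  calc X.M * F.length = (G.zipIdx.map (fun _ => X.M)).sum := by
        rw [List.map_const', List.sum_replicate, hlen, smul_eq_mul, Nat.mul_comm]
    _ ≤ _ := List.sum_le_sum hb

/-- soundness of the reduction -/
theorem gad_no {R : (i : Fin g) → (Fin (ar i) → Fin d) → Bool} (X : Gad R)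
    {F : List (List (Bool × ℕ))} (h0 : [] ∉ F) (a : ℕ → Fin d) :
    ∃ α : ℕ → Bool, (redT X.T F).countP (fun c => R c.1 (fun j => a (c.2 j))) +
      F.countP (falsB α) ≤ X.M * F.length := by
  obtain ⟨A, hA⟩ : ∃ A : List Bool → Fin d, A = fun w => a (unbits w) := ⟨_, rfl⟩
  obtain ⟨al, hal⟩ : ∃ al : List Bool → Bool, al = fun w => X.dec (fun t => A (nb [] (3 * t)))
    (fun t => A (nb w (3 * t + 1))) := ⟨_, rfl⟩
  refine ⟨fun v => al (Nat.bits v), ?_⟩
  have hF : F.countP (falsB (fun v => al (Nat.bits v))) = (binF F).countP (falsB al) := by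
    unfold binF
    rw [List.countP_map]
    congr 1
    funext c
    simp only [Function.comp, falsB, List.any_map]
    rfl
  rw [hF, countP_redT]
  have h0' : [] ∉ binF F := by
    intro h
    obtain ⟨c, hc, hce⟩ := List.mem_map.1 h
    rw [List.map_eq_nil_iff] at hce
    rw [hce] at hc
    exact h0 hc
  have hlen : (binF F).length = F.length := by
    unfold binF
    rw [List.length_map]
  rw [← hlen]
  generalize binF F = G at h0' ⊢
  have key : ∀ (n : ℕ) (G : BF'), [] ∉ G →
      ((G.zipIdx n).map (fun p => valT R X.T (fun q => a (unbits (nmS p.2 p.1 q))))).sum +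
        G.countP (falsB al) ≤ X.M * G.length := by
    intro n G
    induction G generalizing n with
    | nil => intro _; simp
    | cons c G ih =>
      intro h0
      rw [List.mem_cons, not_or] at h0
      have h1 := ih (n + 1) h0.2
      rw [List.zipIdx_cons, List.map_cons, List.sum_cons, List.countP_cons, List.length_cons,
        Nat.mul_add, Nat.mul_one]
      have h2 : valT R X.T (fun q => a (unbits (nmS n c q))) +
          (if falsB al c = true then 1 else 0) ≤ X.M := by
        have hv : (fun q => a (unbits (nmS n c q))) = slv (fun t => A (nb [] (3 * t)))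
            (fun j t => A (nb (litJ c (true, []) j).2 (3 * t + 1)))
            (fun j => (litJ c (true, []) j).1)
            (fun t => A (nb (List.replicate n false) (3 * t + 2))) := by
          funext q
          rw [← name_val A n c q, hA]
        rw [hv]
        have hm := X.hmax (fun t => A (nb [] (3 * t)))
            (fun j t => A (nb (litJ c (true, []) j).2 (3 * t + 1)))
            (fun j => (litJ c (true, []) j).1)
            (fun t => A (nb (List.replicate n false) (3 * t + 2)))
        split_ifs with hf
        · by_contra hlt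
          have hge : X.M ≤ valT R X.T (slv (fun t => A (nb [] (3 * t)))
            (fun j t => A (nb (litJ c (true, []) j).2 (3 * t + 1)))
            (fun j => (litJ c (true, []) j).1)
            (fun t => A (nb (List.replicate n false) (3 * t + 2)))) := by omega
          obtain ⟨j, hj, hdec⟩ := X.hsound _ _ _ _ hge
          rw [falsB_iff] at hf
          refine hf _ (litJ_mem (Ne.symm h0.1) (true, []) j) ?_
          unfold tr
          rw [hal]
          exact hdec
        · omega
      simp only
      omega
  exact key 0 G h0'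

end temp

end Pool.Agent.Lib.MP_87d05f_lc
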