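import Mathlib
import Pool.Agent.Lib.MP_87d05f_lc.CspFwd

set_option autoImplicit false

/-!
# Occurrences of variables in the reduced instance
-/

namespace Pool.Agent.Lib.MP_87d05f_lc

open Pool.Agent.PolyTime Function Turing

theorem countP_zipIdx_fst {α : Type} (p : α → Bool) (l : List α) : ∀ n,
    (l.zipIdx n).countP (fun x => p x.1) = l.countP p := by
  induction l with
  | nil => intro n; rfl
  | cons a l ih =>
    intro n
    rw [List.zipIdx_cons, List.countP_cons, List.countP_cons, ih]

theorem countP_zipIdx_snd {α : Type} (k : ℕ) (l : List α) : ∀ n,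
    (l.zipIdx n).countP (fun x => decide (x.2 = k)) ≤ 1 ∧
    (k < n → (l.zipIdx n).countP (fun x => decide (x.2 = k)) = 0) := by
  induction l with
  | nil => intro n; exact ⟨by simp, fun _ => rfl⟩
  | cons a l ih =>
    intro n
    rw [List.zipIdx_cons, List.countP_cons]
    obtain ⟨h1, h2⟩ := ih (n + 1)
    by_cases hk : n = k
    · have h3 := h2 (by omega)
      rw [h3]
      simp only [hk, decide_true, if_true]
      exact ⟨le_rfl, fun h => absurd h (lt_irrefl _)⟩
    · simp only [hk, decide_false, Bool.false_eq_true, if_false, Nat.add_zero]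
      exact ⟨h1, fun h => h2 (by omega)⟩

theorem countP_le_countP_vlist {V : Type} (v : V) [DecidableEq V] {p : List (Lit V) → Bool}
    (hp : ∀ c, p c = true → v ∈ c.map Prod.snd) (G : List (List (Lit V))) :
    G.countP p ≤ (vlist G).countP (fun u => decide (u = v)) := by
  unfold vlist
  induction G with
  | nil => simp
  | cons c G ih =>
    rw [List.countP_cons, List.flatten_cons, List.map_append, List.countP_append]
    by_cases hv : p c = true
    · simp only [hv, if_true]
      have : 0 < (c.map Prod.snd).countP (fun u => decide (u = v)) :=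
        List.countP_pos_iff.2 ⟨v, hp c hv, by simp⟩
      omega
    · simp only [hv, Bool.false_eq_true, if_false]
      omega

theorem countP_binF {F : List (List (Bool × ℕ))} {N : ℕ}
    (h : ∀ v, (F.flatten.map (fun l => l.2)).count v ≤ N) (w : List Bool) :
    (vlist (binF F)).countP (fun u => decide (u = w)) ≤ N := by
  have h1 : vlist (binF F) = (F.flatten.map (fun l => l.2)).map Nat.bits := by
    unfold vlist binF
    rw [← List.map_flatten, List.map_map, List.map_map]
    rfl
  rw [h1, List.countP_map]
  by_cases hw : ∃ v, Nat.bits v = w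
  · obtain ⟨v, rfl⟩ := hw
    refine le_trans (le_of_eq ?_) (h v)
    rw [List.count_eq_countP]
    refine List.countP_congr fun u _ => ?_
    simp only [Function.comp, decide_eq_true_eq, beq_iff_eq]
    exact ⟨fun h => bits_injective h, fun h => by rw [h]⟩
  · have : (F.flatten.map (fun l => l.2)).countP ((fun u => decide (u = w)) ∘ Nat.bits) = 0 := by
      rw [List.countP_eq_zero]
      intro v _ hv
      simp only [Function.comp, decide_eq_true_eq] at hv
      exact hw ⟨v, hv⟩
    rw [this]
    exact Nat.zero_le _

section occ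

variable {g : ℕ} {ar : Fin g → ℕ}

theorem length_names (T : List (TCon ar)) (p : List (Lit (List Bool)) × ℕ) :
    ((blk T p).flatMap (fun c => List.ofFn c.2)).length ≤ T.length * ∑ i : Fin g, ar i := by
  rw [List.length_flatMap]
  unfold blk
  rw [List.map_map]
  have h : (T.map ((fun c : Con ar => (List.ofFn c.2).length) ∘
      (fun t : TCon ar => (⟨t.1, fun j => unbits (nmS p.2 p.1 (t.2 j))⟩ : Con ar)))).sum ≤
      (T.map (fun _ => ∑ i : Fin g, ar i)).sum := by
    refine List.sum_le_sum fun t _ => ?_
    simp only [Function.comp, List.length_ofFn]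
    exact Finset.single_le_sum (f := fun i : Fin g => ar i) (fun _ _ => Nat.zero_le _)
      (Finset.mem_univ t.1)
  refine h.trans ?_
  rw [List.map_const', List.sum_replicate, smul_eq_mul]

/-- every variable has a bounded number of occurrences -/
theorem redT_count {T : List (TCon ar)} (hT : ∀ x ∈ T, ∀ j, (x.2 j).1 ≠ 0)
    {F : List (List (Bool × ℕ))} (h0 : [] ∉ F)
    (hocc : ∀ v, (F.flatten.map (fun l => l.2)).count v ≤ 3) (m : ℕ) :
    ((redT T F).flatMap (fun c => List.ofFn c.2)).count m ≤
      3 * (T.length * ∑ i : Fin g, ar i) := by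
  obtain ⟨L, hL⟩ : ∃ L, L = T.length * ∑ i : Fin g, ar i := ⟨_, rfl⟩
  obtain ⟨G, hG⟩ : ∃ G, G = binF F := ⟨_, rfl⟩
  rw [← hL]
  unfold redT
  rw [List.flatMap_assoc, List.count_flatMap, ← hG]
  have h0' : [] ∉ G := by
    intro h
    rw [hG] at h
    obtain ⟨c, hc, hce⟩ := List.mem_map.1 h
    rw [List.map_eq_nil_iff] at hce
    rw [hce] at hc
    exact h0 hc
  have h1 : (G.zipIdx.map (List.count m ∘ fun p =>
      (blk T p).flatMap (fun c => List.ofFn c.2))).sum ≤
      (G.zipIdx.map (fun p => L *
        (if m ∈ (blk T p).flatMap (fun c => List.ofFn c.2) then 1 else 0))).sum := by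
    refine List.sum_le_sum fun p _ => ?_
    simp only [Function.comp]
    split_ifs with hm
    · rw [Nat.mul_one, hL]
      exact List.count_le_length.trans (length_names T p)
    · rw [List.count_eq_zero.2 hm]
      exact Nat.zero_le _
  refine h1.trans ?_
  have h2 : (G.zipIdx.map (fun p => L *
        (if m ∈ (blk T p).flatMap (fun c => List.ofFn c.2) then 1 else 0))).sum =
      L * G.zipIdx.countP (fun p =>
        decide (m ∈ (blk T p).flatMap (fun c => List.ofFn c.2))) := by
    generalize G.zipIdx = Z
    induction Z with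
    | nil => simp
    | cons p Z ih =>
      rw [List.map_cons, List.sum_cons, ih, List.countP_cons, Nat.mul_add, Nat.add_comm]
      congr 2
      simp only [decide_eq_true_eq]
  rw [h2, Nat.mul_comm]
  refine Nat.mul_le_mul_right _ ?_
  -- analysis of the name
  obtain ⟨v, t, hvt⟩ : ∃ v t, unb (Nat.bits m) = (v, t) := ⟨_, _, rfl⟩
  have hname : ∀ p : List (Lit (List Bool)) × ℕ, p.1 ≠ [] →
      m ∈ (blk T p).flatMap (fun c => List.ofFn c.2) →
      (t % 3 = 1 ∧ v ∈ p.1.map Prod.snd) ∨ (t % 3 = 2 ∧ p.2 = v.length) := by
    intro p hp hm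
    obtain ⟨c, hc, hm⟩ := List.mem_flatMap.1 hm
    obtain ⟨x, hx, rfl⟩ := List.mem_map.1 hc
    obtain ⟨j, hj⟩ := (List.mem_ofFn' _ _).1 hm
    simp only at hj
    have h3 := hT x hx j
    rw [← hj, bits_unbits_nmS] at hvt
    unfold nmS at hvt
    rw [decide_eq_false h3, cond_false] at hvt
    rcases h4 : decide ((x.2 j).1 ≤ 3) with _ | _
    · rw [h4, cond_false, unb_nb, Prod.mk.injEq] at hvt
      right
      exact ⟨by omega, by rw [← hvt.1, List.length_replicate]⟩
    · rw [h4, cond_true, unb_nb, Prod.mk.injEq] at hvt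
      left
      exact ⟨by omega, by
        rw [← hvt.1]
        exact List.mem_map.2 ⟨_, litJ_mem hp _ _, rfl⟩⟩
  have hne : ∀ p ∈ G.zipIdx, p.1 ≠ [] := by
    rintro ⟨c, n⟩ hp hc
    have hget := List.mem_zipIdx_iff_getElem?.1 hp
    have hc' : c ∈ G := List.mem_of_getElem? hget
    simp only at hc
    rw [hc] at hc'
    exact h0' hc'
  by_cases ht : t % 3 = 1
  · have h5 : G.zipIdx.countP (fun p =>
        decide (m ∈ (blk T p).flatMap (fun c => List.ofFn c.2))) ≤
        G.zipIdx.countP (fun p => (fun c => decide (v ∈ c.map Prod.snd)) p.1) := by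
      refine List.countP_mono_left fun p hp hm => ?_
      simp only [decide_eq_true_eq] at hm ⊢
      rcases hname p (hne p hp) hm with h6 | h6
      · exact h6.2
      · omega
    refine h5.trans ?_
    rw [countP_zipIdx_fst (fun c => decide (v ∈ c.map Prod.snd)) G 0]
    refine (countP_le_countP_vlist v (fun c hc => by simpa using hc) G).trans ?_
    rw [hG]
    exact countP_binF hocc v
  · have h5 : G.zipIdx.countP (fun p =>
        decide (m ∈ (blk T p).flatMap (fun c => List.ofFn c.2))) ≤
        G.zipIdx.countP (fun p => decide (p.2 = v.length)) := by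
      refine List.countP_mono_left fun p hp hm => ?_
      simp only [decide_eq_true_eq] at hm ⊢
      rcases hname p (hne p hp) hm with h6 | h6
      · exact absurd h6.1 ht
      · exact h6.2
    exact h5.trans ((countP_zipIdx_snd v.length G 0).1.trans (by norm_num))

end occ

end Pool.Agent.Lib.MP_87d05f_lc
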