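import Mathlib
import Pool.Agent.Lib.MP_87d05f_lc.CspFwd

set_option autoImplicit false

/-!
# The gadget of a constraint language whose polymorphisms map to projections
-/

namespace Pool.Agent.Lib.MP_87d05f_lc

open Pool.Agent.PolyTime Function Turing

section pol

variable {g d : ℕ} {ar : Fin g → ℕ}

/-- polymorphisms -/
def IsPol (R : (i : Fin g) → (Fin (ar i) → Fin d) → Bool) {n : ℕ}
    (f : (Fin n → Fin d) → Fin d) : Prop :=
  ∀ (i : Fin g) (t : Fin n → Fin (ar i) → Fin d), (∀ k, R i (t k) = true) →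
    R i (fun j => f (fun k => t k j)) = true

/-- a map from the polymorphisms to the projections that preserves minors -/
def MinHom (R : (i : Fin g) → (Fin (ar i) → Fin d) → Bool) : Prop :=
  ∃ ξ : (n : ℕ) → ((Fin (n + 1) → Fin d) → Fin d) → Fin (n + 1),
    ∀ (n m : ℕ) (π : Fin (n + 1) → Fin (m + 1)) (f : (Fin (n + 1) → Fin d) → Fin d),
      IsPol R f → ξ m (fun x => f (fun k => x (π k))) = π (ξ n f)

/-! ### Endomorphisms -/

/-- endomorphisms -/
def IsEnd (R : (i : Fin g) → (Fin (ar i) → Fin d) → Bool) (u : Fin d → Fin d) : Prop :=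
  ∀ (i : Fin g) (x : Fin (ar i) → Fin d), R i x = true → R i (fun j => u (x j)) = true

/-- an endomorphism with smallest image -/
theorem exists_min_end (R : (i : Fin g) → (Fin (ar i) → Fin d) → Bool) :
    ∃ e : Fin d → Fin d, IsEnd R e ∧ ∀ u, IsEnd R u →
      (Finset.univ.image e).card ≤ (Finset.univ.image u).card := by
  classical
  have hne : (Finset.univ.filter (fun u : Fin d → Fin d => IsEnd R u)).Nonempty :=
    ⟨id, by rw [Finset.mem_filter]; exact ⟨Finset.mem_univ _, fun i x hx => hx⟩⟩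
  obtain ⟨e, he, hmin⟩ := Finset.exists_min_image _
    (fun u : Fin d → Fin d => (Finset.univ.image u).card) hne
  rw [Finset.mem_filter] at he
  exact ⟨e, he.2, fun u hu => hmin u (by rw [Finset.mem_filter]; exact ⟨Finset.mem_univ _, hu⟩)⟩

/-! ### The seven satisfying assignments -/

/-- the truth values of the seven assignments -/
def bit7 (k : Fin 7) (j : ℕ) : Bool := Nat.testBit ((k : ℕ) + 1) j

/-- an assignment with given value at one position -/
def rep7 (j : ℕ) (b : Bool) : Fin 7 :=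
  match j, b with
  | 0, true => 0
  | 0, false => 1
  | 1, true => 1
  | 1, false => 0
  | 2, true => 3
  | _, _ => 0

theorem bit7_rep7 : ∀ j : ℕ, j < 3 → ∀ b, bit7 (rep7 j b) j = b := by decide

theorem bit7_two : ∀ j : ℕ, j < 3 → ∀ j' : ℕ, j' < 3 → j ≠ j' → ∀ k k' : Fin 7,
    ∃ k₁, bit7 k₁ j = bit7 k j ∧ bit7 k₁ j' = bit7 k' j' := by decide

theorem bit7_pos : ∀ k : Fin 7, ∃ j : ℕ, j < 3 ∧ bit7 k j = true := by
  intro k
  have h : ∀ k : Fin 7, ∃ j : Fin 3, bit7 k j = true := by decide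
  obtain ⟨j, hj⟩ := h k
  exact ⟨j, j.2, hj⟩

/-- the assignment with given values -/
def idx7 (a b c : Bool) : Fin 7 :=
  ⟨a.toNat + 2 * b.toNat + 4 * c.toNat - 1, by
    cases a <;> cases b <;> cases c <;> decide⟩

theorem bit7_idx7' : ∀ a b c : Bool, (a || b || c) = true →
    bit7 (idx7 a b c) 0 = a ∧ bit7 (idx7 a b c) 1 = b ∧ bit7 (idx7 a b c) 2 = c := by decide

theorem bit7_idx7 {y : ℕ → Bool} (hy : ∃ j < 3, y j = true) {j : ℕ} (hj : j < 3) :
    bit7 (idx7 (y 0) (y 1) (y 2)) j = y j := by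
  have h : (y 0 || y 1 || y 2) = true := by
    obtain ⟨j, hj, h⟩ := hy
    rcases j with _ | _ | _ | j
    · simp [h]
    · simp [h]
    · simp [h]
    · omega
  obtain ⟨h0, h1, h2⟩ := bit7_idx7' _ _ _ h
  rcases j with _ | _ | _ | j
  · exact h0
  · exact h1
  · exact h2
  · omega

/-! ### Slots -/

/-- the function depends on one position only -/
def Fac (γ : Fin 7 → Fin d) (j : ℕ) : Prop := ∀ k k' : Fin 7, bit7 k j = bit7 k' j → γ k = γ k'

instance (γ : Fin 7 → Fin d) (j : ℕ) : Decidable (Fac γ j) := by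
  unfold Fac
  infer_instance

theorem Fac.const {γ : Fin 7 → Fin d} {j j' : ℕ} (hj : j < 3) (hj' : j' < 3) (hne : j ≠ j')
    (h : Fac γ j) (h' : Fac γ j') : ∀ k, γ k = γ 0 := by
  intro k
  obtain ⟨k₁, h1, h2⟩ := bit7_two j hj j' hj' hne k 0
  rw [← h k₁ k h1, h' k₁ 0 h2]

/-- the slot of a function depending on one position -/
def mkSl (γ : Fin 7 → Fin d) (j : ℕ) : Slot :=
  (j + 1, (γ (rep7 j true) : ℕ) * d + (γ (rep7 j false) : ℕ),
    (γ (rep7 j false) : ℕ) * d + (γ (rep7 j true) : ℕ))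

/-- numbers of the functions -/
noncomputable def codeG (γ : Fin 7 → Fin d) : ℕ := (Fintype.equivFin (Fin 7 → Fin d) γ : ℕ)

theorem codeG_inj : Function.Injective (codeG (d := d)) := by
  intro γ γ' h
  unfold codeG at h
  exact (Fintype.equivFin _).injective (Fin.ext h)

/-- the slot of a function; for constant functions there is one copy for every position -/
noncomputable def slotK (κ : Fin 3) (γ : Fin 7 → Fin d) : Slot :=
  if ∀ k, γ k = γ 0 then mkSl γ κ else
  if Fac γ 0 then mkSl γ 0 else if Fac γ 1 then mkSl γ 1 else if Fac γ 2 then mkSl γ 2 else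
  (4, codeG γ, 0)

theorem slotK_const {κ : Fin 3} {γ : Fin 7 → Fin d} (h : ∀ k, γ k = γ 0) :
    slotK κ γ = mkSl γ κ := by
  unfold slotK
  rw [if_pos h]

theorem slotK_fac {κ : Fin 3} {γ : Fin 7 → Fin d} (h : ¬ ∀ k, γ k = γ 0) {j : ℕ} (hj : j < 3)
    (hf : Fac γ j) : slotK κ γ = mkSl γ j := by
  have hun : ∀ j' < 3, j' ≠ j → ¬ Fac γ j' := fun j' hj' hne hf' =>
    h (Fac.const hj' hj hne hf' hf)
  unfold slotK
  rw [if_neg h]
  rcases j with _ | _ | _ | j
  · rw [if_pos hf]
  · rw [if_neg (hun 0 (by norm_num) (by norm_num)), if_pos hf]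
  · rw [if_neg (hun 0 (by norm_num) (by norm_num)), if_neg (hun 1 (by norm_num) (by norm_num)),
      if_pos hf]
  · omega

theorem slotK_cases (κ : Fin 3) (γ : Fin 7 → Fin d) :
    (∃ j < 3, Fac γ j ∧ slotK κ γ = mkSl γ j) ∨ slotK κ γ = (4, codeG γ, 0) := by
  by_cases h : ∀ k, γ k = γ 0
  · refine Or.inl ⟨κ, κ.2, ?_, slotK_const h⟩
    intro k k' _
    rw [h k, h k']
  by_cases h0 : Fac γ 0
  · exact Or.inl ⟨0, by norm_num, h0, slotK_fac h (by norm_num) h0⟩
  by_cases h1 : Fac γ 1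
  · exact Or.inl ⟨1, by norm_num, h1, slotK_fac h (by norm_num) h1⟩
  by_cases h2 : Fac γ 2
  · exact Or.inl ⟨2, by norm_num, h2, slotK_fac h (by norm_num) h2⟩
  right
  unfold slotK
  rw [if_neg h, if_neg h0, if_neg h1, if_neg h2]

theorem slotK_ne (κ : Fin 3) (γ : Fin 7 → Fin d) : (slotK κ γ).1 ≠ 0 := by
  rcases slotK_cases κ γ with ⟨j, _, _, h⟩ | h
  · rw [h]
    unfold mkSl
    simp
  · rw [h]
    simp

theorem slv_mkSl {D : Type} (G : ℕ → D) (U : ℕ → ℕ → D) (s : ℕ → Bool) (C : ℕ → D)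
    (γ : Fin 7 → Fin d) {j : ℕ} (hj : j < 3) :
    slv G U s C (mkSl γ j) = U j (bif s j then (γ (rep7 j true) : ℕ) * d + (γ (rep7 j false) : ℕ)
      else (γ (rep7 j false) : ℕ) * d + (γ (rep7 j true) : ℕ)) := by
  unfold slv mkSl
  simp only [Nat.add_sub_cancel]
  rw [decide_eq_false (by omega : ¬ (j + 1 = 0)), decide_eq_true (by omega : j + 1 ≤ 3)]
  rfl

theorem slv_four {D : Type} (G : ℕ → D) (U : ℕ → ℕ → D) (s : ℕ → Bool) (C : ℕ → D) (a b : ℕ) :
    slv G U s C (4, a, b) = C a := rfl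

/-! ### The gadget -/

/-- a number as an element of the domain -/
def fin' (hd : 0 < d) (t : ℕ) : Fin d := ⟨t % d, Nat.mod_lt _ hd⟩

theorem fin'_val (hd : 0 < d) (a : Fin d) : fin' hd (a : ℕ) = a :=
  Fin.ext (Nat.mod_eq_of_lt a.2)

theorem fin'_add (hd : 0 < d) (a b : Fin d) : fin' hd ((a : ℕ) * d + (b : ℕ)) = b := by
  unfold fin'
  refine Fin.ext ?_
  simp only
  rw [Nat.mul_comm, Nat.mul_add_mod, Nat.mod_eq_of_lt b.2]

theorem fin'_div (hd : 0 < d) (a b : Fin d) : fin' hd (((a : ℕ) * d + (b : ℕ)) / d) = a := by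
  have h : ((a : ℕ) * d + (b : ℕ)) / d = a := by
    rw [Nat.mul_comm, Nat.mul_add_div hd, Nat.div_eq_of_lt b.2, Nat.add_zero]
  rw [h, fin'_val]

/-- the templates -/
noncomputable def polT (R : (i : Fin g) → (Fin (ar i) → Fin d) → Bool) (e : Fin d → Fin d) :
    List (TCon ar) :=
  (List.finRange g).flatMap (fun (i : Fin g) =>
    ((Finset.univ.filter (fun t : (Fin 7 → Fin (ar i) → Fin d) × (Fin (ar i) → Fin 3) =>
      ∀ k, R i (fun j => e (t.1 k j)) = true)).toList).map
        (fun t => ⟨i, fun j => slotK (t.2 j) (fun k => e (t.1 k j))⟩))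

theorem mem_polT {R : (i : Fin g) → (Fin (ar i) → Fin d) → Bool} {e : Fin d → Fin d}
    {x : TCon ar} :
    x ∈ polT R e ↔ ∃ (i : Fin g) (t : Fin 7 → Fin (ar i) → Fin d) (κ : Fin (ar i) → Fin 3),
      (∀ k, R i (fun j => e (t k j)) = true) ∧
      x = ⟨i, fun j => slotK (κ j) (fun k => e (t k j))⟩ := by
  unfold polT
  rw [List.mem_flatMap]
  constructor
  · rintro ⟨i, _, hx⟩
    obtain ⟨t, ht, rfl⟩ := List.mem_map.1 hx
    rw [Finset.mem_toList, Finset.mem_filter] at ht
    exact ⟨i, t.1, t.2, ht.2, rfl⟩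
  · rintro ⟨i, t, κ, ht, rfl⟩
    refine ⟨i, List.mem_finRange i, List.mem_map.2 ⟨(t, κ), ?_, rfl⟩⟩
    rw [Finset.mem_toList, Finset.mem_filter]
    exact ⟨Finset.mem_univ _, ht⟩

/-- the values of the names of a variable -/
def V0p (hd : 0 < d) (z : Bool) (t : ℕ) : Fin d := bif z then fin' hd (t / d) else fin' hd t

/-- the values of the local names -/
noncomputable def C0p (hd : 0 < d) (y : ℕ → Bool) (t : ℕ) : Fin d :=
  haveI : Nonempty (Fin 7 → Fin d) := ⟨fun _ => ⟨0, hd⟩⟩
  (Function.invFun codeG t : Fin 7 → Fin d) (idx7 (y 0) (y 1) (y 2))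

theorem slv_compl (hd : 0 < d) (G : ℕ → Fin d) {s z : ℕ → Bool} (h : ∃ j < 3, z j = s j)
    (κ : Fin 3) (γ : Fin 7 → Fin d) :
    slv G (fun j => V0p hd (z j)) s (C0p hd (fun j => z j == s j)) (slotK κ γ) =
      γ (idx7 (z 0 == s 0) (z 1 == s 1) (z 2 == s 2)) := by
  have hy : ∃ j < 3, (fun j => z j == s j) j = true := by
    obtain ⟨j, hj, hj'⟩ := h
    exact ⟨j, hj, by simp [hj']⟩
  rcases slotK_cases κ γ with ⟨j, hj, h2, h1⟩ | h1
  · rw [h1, slv_mkSl _ _ _ _ _ hj]
    have hb := bit7_idx7 hy hj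
    have hγ : γ (idx7 (z 0 == s 0) (z 1 == s 1) (z 2 == s 2)) = γ (rep7 j (z j == s j)) := by
      refine h2 _ _ ?_
      rw [hb, bit7_rep7 j hj]
    rw [hγ]
    unfold V0p
    rcases z j with _ | _ <;> rcases s j with _ | _ <;>
      simp [fin'_add, fin'_div]
  · rw [h1, slv_four]
    unfold C0p
    have : Nonempty (Fin 7 → Fin d) := ⟨fun _ => ⟨0, hd⟩⟩
    rw [Function.leftInverse_invFun codeG_inj γ]

/-- the operation of a variable -/
def FU (e : Fin d → Fin d) (u : ℕ → Fin d) (h : Fin 2 → Fin d) : Fin d :=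
  e (u ((e (h 1) : ℕ) * d + (e (h 0) : ℕ)))

section sound

variable {R : (i : Fin g) → (Fin (ar i) → Fin d) → Bool} {e : Fin d → Fin d}

/-- the operation of a block, with a choice of copies of the constants -/
noncomputable def opB (e : Fin d → Fin d) (G : ℕ → Fin d) (U : ℕ → ℕ → Fin d) (s : ℕ → Bool)
    (C : ℕ → Fin d) (κ : Fin d → Fin 3) (x : Fin 7 → Fin d) : Fin d :=
  e (slv G U s C (slotK (κ (e (x 0))) (fun k => e (x k))))

theorem opB_pol (he : IsEnd R e) {G : ℕ → Fin d} {U : ℕ → ℕ → Fin d} {s : ℕ → Bool}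
    {C : ℕ → Fin d}
    (hall : ∀ x ∈ polT R e, R x.1 (fun j => slv G U s C (x.2 j)) = true) (κ : Fin d → Fin 3) :
    IsPol R (opB e G U s C κ) := by
  intro i t ht
  have h1 := hall _ (mem_polT.2 ⟨i, t, fun j => κ (e (t 0 j)), fun k => he i _ (ht k), rfl⟩)
  exact he i _ h1

/-- the values on constants do not depend on the copy -/
theorem palette_eq (he : IsEnd R e) (hmin : ∀ u, IsEnd R u →
      (Finset.univ.image e).card ≤ (Finset.univ.image u).card)
    {G : ℕ → Fin d} {U : ℕ → ℕ → Fin d} {s : ℕ → Bool} {C : ℕ → Fin d}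
    (hall : ∀ x ∈ polT R e, R x.1 (fun j => slv G U s C (x.2 j)) = true) (x : Fin d)
    (κ₁ κ₂ : Fin 3) :
    e (U (κ₁ : ℕ) ((e x : ℕ) * d + (e x : ℕ))) = e (U (κ₂ : ℕ) ((e x : ℕ) * d + (e x : ℕ))) := by
  -- the unary operations of the mixtures
  obtain ⟨φ, hφ⟩ : ∃ φ : (Fin d → Fin 3) → Fin d → Fin d,
    φ = fun (κ : Fin d → Fin 3) (y : Fin d) => e (U (κ y : ℕ) ((y : ℕ) * d + (y : ℕ))) :=
      ⟨_, rfl⟩
  have hend : ∀ κ, IsEnd R (fun y => φ κ (e y)) := by
    intro κ i y hy
    have h1 := opB_pol he hall κ i (fun _ => y) (fun _ => hy)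
    have h2 : (fun j => opB e G U s C κ (fun k : Fin 7 => (fun _ => y) k j)) =
        (fun j => φ κ (e (y j))) := by
      funext j
      unfold opB
      rw [slotK_const (fun _ => rfl), slv_mkSl _ _ _ _ _ (κ (e (y j))).2, hφ]
      rcases s ((κ (e (y j)) : Fin 3) : ℕ) with _ | _ <;> rfl
    rw [h2] at h1
    exact h1
  have hinj : ∀ κ, Set.InjOn (φ κ) (Finset.univ.image e : Finset (Fin d)) := by
    intro κ
    rw [← Finset.card_image_iff]
    refine le_antisymm Finset.card_image_le ?_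
    have h1 := hmin _ (hend κ)
    have h2 : Finset.univ.image (fun y => φ κ (e y)) = (Finset.univ.image e).image (φ κ) := by
      rw [Finset.image_image]
      rfl
    rw [h2] at h1
    exact h1
  have hmem : ∀ y : Fin d, e y ∈ Finset.univ.image e :=
    fun y => Finset.mem_image_of_mem _ (Finset.mem_univ y)
  -- the constant mixture is onto
  have hsurj : (Finset.univ.image e).image (φ (fun _ => κ₁)) = Finset.univ.image e := by
    refine Finset.eq_of_subset_of_card_le ?_ ?_
    · intro y hy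
      obtain ⟨z, _, rfl⟩ := Finset.mem_image.1 hy
      rw [hφ]
      exact hmem _
    · rw [Finset.card_image_of_injOn (hinj _)]
  have h1 : φ (fun _ => κ₂) (e x) ∈ (Finset.univ.image e).image (φ (fun _ => κ₁)) := by
    rw [hsurj, hφ]
    exact hmem _
  obtain ⟨z, hz, hz'⟩ := Finset.mem_image.1 h1
  by_cases hzx : z = e x
  · rw [hzx, hφ] at hz'
    exact hz'
  · exfalso
    have h2 := hinj (fun y => if y = e x then κ₂ else κ₁) (hmem x) hz (by
      have e1 : φ (fun y => if y = e x then κ₂ else κ₁) (e x) = φ (fun _ => κ₂) (e x) := by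
        rw [hφ]
        simp
      have e2 : φ (fun y => if y = e x then κ₂ else κ₁) z = φ (fun _ => κ₁) z := by
        rw [hφ]
        simp [hzx]
      rw [e1, e2, hz'])
    exact hzx h2.symm

/-- minors of the operation of a block -/
theorem opB_minor (he : IsEnd R e) (hmin : ∀ u, IsEnd R u →
      (Finset.univ.image e).card ≤ (Finset.univ.image u).card)
    {G : ℕ → Fin d} {U : ℕ → ℕ → Fin d} {s : ℕ → Bool} {C : ℕ → Fin d}
    (hall : ∀ x ∈ polT R e, R x.1 (fun j => slv G U s C (x.2 j)) = true)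
    {j : ℕ} (hj : j < 3) (h : Fin 2 → Fin d) :
    opB e G U s C (fun _ => 0) (fun k => h (if bit7 k j = s j then 1 else 0)) =
      FU e (U j) h := by
  unfold FU opB
  by_cases hc : e (h 0) = e (h 1)
  · have h1 : ∀ k, (fun k => e (h (if bit7 k j = s j then 1 else 0))) k = e (h 0) := by
      intro k
      simp only
      split_ifs
      · exact hc.symm
      · rfl
    have h2 : ∀ k, (fun k => e (h (if bit7 k j = s j then 1 else 0))) k =
        (fun k => e (h (if bit7 k j = s j then 1 else 0))) 0 := by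
      intro k
      rw [h1, h1]
    rw [slotK_const h2, slv_mkSl _ _ _ _ _ (by norm_num)]
    have h3 := h1 (rep7 ((0 : Fin 3) : ℕ) true)
    have h4 := h1 (rep7 ((0 : Fin 3) : ℕ) false)
    simp only at h3 h4
    rw [h3, h4, ← hc, Bool.cond_self]
    exact palette_eq he hmin hall (h 0) 0 ⟨j, hj⟩
  · have hfac : Fac (fun k => e (h (if bit7 k j = s j then 1 else 0))) j := by
      intro k k' hk
      simp only [hk]
    have hne : ¬ ∀ k, (fun k => e (h (if bit7 k j = s j then 1 else 0))) k =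
        (fun k => e (h (if bit7 k j = s j then 1 else 0))) 0 := by
      intro hall
      have e1 := hall (rep7 j (s j))
      have e2 := hall (rep7 j (!s j))
      simp only [bit7_rep7 j hj] at e1 e2
      rw [if_pos trivial] at e1
      rw [if_neg (by cases s j <;> simp)] at e2
      exact hc (e2.trans e1.symm)
    rw [slotK_fac hne hj hfac, slv_mkSl _ _ _ _ _ hj]
    simp only [bit7_rep7 j hj]
    rcases s j with _ | _ <;> simp

end sound

/-- the gadget -/
theorem exists_gad {R : (i : Fin g) → (Fin (ar i) → Fin d) → Bool} (hd : 0 < d)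
    (hR : MinHom R) : ∃ X : Gad R, X.M = X.T.length ∧ ∀ x ∈ X.T, ∀ j, (x.2 j).1 ≠ 0 := by
  obtain ⟨ξ, hξ⟩ := hR
  obtain ⟨e, he, hmin⟩ := exists_min_end R
  refine ⟨{ T := polT R e, M := (polT R e).length, G0 := fin' hd, V0 := V0p hd, C0 := C0p hd
            dec := fun _ u => decide (ξ 1 (FU e u) = 1), hmax := ?_, hcomp := ?_,
            hsound := ?_ }, rfl, ?_⟩
  · intro G U s C
    exact List.countP_le_length
  · intro s z h
    refine le_of_eq (List.countP_eq_length.2 fun x hx => ?_).symm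
    obtain ⟨i, t, κ, ht, rfl⟩ := mem_polT.1 hx
    simp only
    have h1 : (fun j => slv (fin' hd) (fun j => V0p hd (z j)) s
        (C0p hd (fun j => z j == s j)) (slotK (κ j) (fun k => e (t k j)))) =
        fun j => e (t (idx7 (z 0 == s 0) (z 1 == s 1) (z 2 == s 2)) j) := by
      funext j
      exact slv_compl hd _ h _ _
    rw [h1]
    exact ht _
  · intro G U s C hM
    have hall := List.countP_eq_length.1 (le_antisymm List.countP_le_length hM)
    obtain ⟨f, hf⟩ : ∃ f : (Fin (6 + 1) → Fin d) → Fin d,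
      f = opB e G U s C (fun _ => 0) := ⟨_, rfl⟩
    have hpol : IsPol R f := by
      rw [hf]
      exact opB_pol he hall _
    obtain ⟨j, hj, hbit⟩ := bit7_pos (ξ 6 f)
    refine ⟨j, hj, ?_⟩
    have h1 := hξ 6 1 (fun k => if bit7 k j = s j then 1 else 0) f hpol
    have h2 : (fun x : Fin (1 + 1) → Fin d =>
        f (fun k => x ((fun k => if bit7 k j = s j then 1 else 0) k))) = FU e (U j) := by
      funext h
      rw [hf]
      exact opB_minor he hmin hall hj h
    rw [h2] at h1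
    simp only [h1, hbit]
    rcases s j with _ | _ <;> simp
  · intro x hx j
    obtain ⟨i, t, κ, ht, rfl⟩ := mem_polT.1 hx
    exact slotK_ne _ _

end pol

end Pool.Agent.Lib.MP_87d05f_lc
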