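import Mathlib
import Pool.Agent.Lib.MP_87d05f_lc.PolGadget
import Pool.Agent.Lib.MP_87d05f_lc.CspOcc

set_option autoImplicit false

/-!
# Separators for constraint satisfaction problems
-/

namespace Pool.Agent.Lib.MP_87d05f_lc

open Pool.Agent.PolyTime Function Turing

theorem length_le_encF (F : List (List (Bool × ℕ))) : F.length ≤ (encF F).length := by
  unfold encF
  induction F with
  | nil => simp
  | cons c F ih =>
    rw [List.flatMap_cons, List.length_append, List.length_append, List.length_cons]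
    simp only [List.length_cons, List.length_nil]
    omega

/-- the class of instances for the satisfiability problem -/
def V3 (F : List (List (Bool × ℕ))) : Prop := F ≠ [] ∧ (∀ c ∈ F, c.length ≤ 3) ∧ Occ F

/-- satisfiable -/
def Y3 (F : List (List (Bool × ℕ))) : Prop := ∃ a : ℕ → Bool, ∀ c ∈ F, ∃ l ∈ c, a l.2 = l.1

/-- far from satisfiable -/
def N3 (ε : ℚ) (F : List (List (Bool × ℕ))) : Prop :=
  ∀ a : ℕ → Bool, ε * (F.length : ℚ) ≤ ((F.countP (falsB a) : ℕ) : ℚ)

section csp

variable {g d : ℕ} {ar : Fin g → ℕ}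

/-- satisfiable instances -/
def YC (R : (i : Fin g) → (Fin (ar i) → Fin d) → Bool) (F : List (Con ar)) : Prop :=
  ∃ a : ℕ → Fin d, ∀ c ∈ F, R c.1 (fun j => a (c.2 j)) = true

/-- instances in which no variable occurs more than `K` times -/
def VK (K : ℕ) (F : List (Con ar)) : Prop :=
  F ≠ [] ∧ ∀ v, (F.flatMap (fun c => List.ofFn c.2)).count v ≤ K

/-- instances far from satisfiable -/
def NC (R : (i : Fin g) → (Fin (ar i) → Fin d) → Bool) (ε : ℚ) (F : List (Con ar)) : Prop :=
  ∀ a : ℕ → Fin d, ε * (F.length : ℚ) ≤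
    ((F.countP (fun c => !(R c.1 (fun j => a (c.2 j)))) : ℕ) : ℚ)

theorem countP_not_add {α : Type} (p : α → Bool) (l : List α) :
    l.countP p + l.countP (fun x => !(p x)) = l.length := by
  have := List.length_eq_countP_add_countP p (l := l)
  rw [this]
  congr 1
  refine List.countP_congr fun x _ => ?_
  cases p x <;> simp

/-- the reduction from satisfiability to a constraint language with a gadget satisfied by all
its solutions -/
theorem csp_fwd {R : (i : Fin g) → (Fin (ar i) → Fin d) → Bool} (X : Gad R)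
    (hM : X.M = X.T.length) (hT : X.T ≠ []) (hG : ∀ x ∈ X.T, ∀ j, (x.2 j).1 ≠ 0)
    {p q b : ℕ} (hq : 0 < q) (hb : 0 < b)
    (hsep : GSep (codeC (ar := ar)) (VK (3 * (X.T.length * ∑ i : Fin g, ar i))) (YC R)
      (NC R ((p : ℚ) / (q * X.T.length : ℕ))) List.length (X.T.length * b)) :
    GSep encF V3 Y3 (N3 ((p : ℚ) / (q : ℕ))) List.length b := by
  have hBpos : 0 < X.T.length := List.length_pos_iff.2 hT
  have hf : PTime (fun x => encW (redTW (wordT X.T) (parse x))) :=
    encW_ptime (redTW_ptime _ parse_ptime)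
  have hh : PTime (fun x => mydiv (parse x).length b) :=
    mydiv_ptime (PTime.length parse_ptime) (PTime.const b)
  refine transfer hf hh (fun F _ => length_le_encF F) ?_ hsep
  rintro F ⟨hne, h3, h0, hocc⟩
  have hlen : (parse (encF F)).length = F.length := by
    rw [parse_encF]
    unfold binF
    rw [List.length_map]
  refine ⟨redT X.T F, ⟨?_, fun v => redT_count hG h0 hocc v⟩, redT_code X.T F, ?_, ?_, ?_, ?_⟩
  · intro h
    have h1 := redT_length X.T F
    rw [h, List.length_nil] at h1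
    have h2 : 0 < F.length := List.length_pos_iff.2 hne
    have h3 : 0 < X.T.length * F.length := Nat.mul_pos hBpos h2
    omega
  · intro hs
    obtain ⟨a, ha⟩ := gad_yes X h3 hs
    refine ⟨a, ?_⟩
    have h1 : (redT X.T F).countP (fun c => R c.1 (fun j => a (c.2 j))) =
        (redT X.T F).length := by
      refine le_antisymm List.countP_le_length ?_
      rw [redT_length, ← hM]
      exact ha
    intro c hc
    exact List.countP_eq_length.1 h1 c hc
  · intro hN a
    obtain ⟨α, hα⟩ := gad_no X h0 a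
    have h1 := hN α
    rw [frac_iff hq] at h1
    rw [frac_iff (by positivity), redT_length]
    have h2 := countP_not_add (fun c : Con ar => R c.1 (fun j => a (c.2 j))) (redT X.T F)
    rw [redT_length] at h2
    rw [hM] at hα
    have h4 : F.countP (falsB α) ≤
        (redT X.T F).countP (fun c => !(R c.1 (fun j => a (c.2 j)))) := by omega
    calc p * (X.T.length * F.length) = X.T.length * (p * F.length) := by ring
      _ ≤ X.T.length * (q * F.countP (falsB α)) := Nat.mul_le_mul_left _ h1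
      _ ≤ X.T.length * (q * (redT X.T F).countP (fun c => !(R c.1 (fun j => a (c.2 j))))) :=
        Nat.mul_le_mul_left _ (Nat.mul_le_mul_left _ h4)
      _ = _ := by ring
  · rw [redT_length, hlen, mydiv_eq hb, Nat.mul_div_mul_left _ _ hBpos]
  · rw [hlen, mydiv_eq hb]

/-- the template of the polymorphism gadget is not empty -/
theorem gad_ne {R : (i : Fin g) → (Fin (ar i) → Fin d) → Bool} (X : Gad R)
    (hM : X.M = X.T.length) : X.T ≠ [] := by
  intro h
  have hv : ∀ ρ, valT R X.T ρ = 0 := by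
    intro ρ
    unfold valT
    rw [h]
    rfl
  have hM0 : X.M = 0 := by rw [hM, h]; rfl
  obtain ⟨j, _, h1⟩ := X.hsound X.G0 (fun _ => X.V0 true) (fun _ => true) (X.V0 true)
    (by rw [hM0]; exact Nat.zero_le _)
  obtain ⟨j, _, h2⟩ := X.hsound X.G0 (fun _ => X.V0 true) (fun _ => false) (X.V0 true)
    (by rw [hM0]; exact Nat.zero_le _)
  rw [h1] at h2
  exact absurd h2 (by simp)

theorem minHom_pos {R : (i : Fin g) → (Fin (ar i) → Fin d) → Bool} (hR : MinHom R) : 0 < d := by
  rcases Nat.eq_zero_or_pos d with h | h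
  · exfalso
    subst h
    obtain ⟨ξ, hξ⟩ := hR
    have hp : IsPol R (fun x : Fin (0 + 1) → Fin 0 => x 0) := fun i t ht => ht 0
    have h1 := hξ 0 1 (fun _ => 0) _ hp
    have h2 := hξ 0 1 (fun _ => 1) _ hp
    have h3 : (fun x : Fin (1 + 1) → Fin 0 => (fun x : Fin (0 + 1) → Fin 0 => x 0)
        (fun k => x ((fun _ : Fin (0 + 1) => (0 : Fin (1 + 1))) k))) =
        (fun x : Fin (1 + 1) → Fin 0 => (fun x : Fin (0 + 1) → Fin 0 => x 0)
        (fun k => x ((fun _ : Fin (0 + 1) => (1 : Fin (1 + 1))) k))) := by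
      funext x
      exact (x 0).elim0
    rw [h3, h2] at h1
    exact absurd h1 (by decide)
  · exact h

/-- The equivalence for constraint languages whose polymorphisms map to projections. The
hypotheses are the consequences of the sparsification theorem. -/
theorem csp_main {R : (i : Fin g) → (Fin (ar i) → Fin d) → Bool} (hR : MinHom R)
    {A : Prop}
    (hA : ¬ A → ∀ k p q b : ℕ, 3 ≤ k → 0 < p → p < q → 0 < b →
      SepK k (fun _ => True) ((p : ℚ) / (q : ℕ)) b)
    (hB : A → ∃ p q b : ℕ, 0 < p ∧ p < q ∧ 0 < b ∧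
      ¬ GSep encF V3 Y3 (N3 ((p : ℚ) / (q : ℕ))) List.length b) :
    (A → ∃ K : ℕ, ∃ ε : ℚ, 0 < ε ∧ ε < 1 ∧ ∃ b : ℕ, 0 < b ∧
      ¬ GSep (codeC (ar := ar)) (VK K) (YC R) (NC R ε) List.length b) ∧
    ((∃ ε : ℚ, 0 < ε ∧ ε < 1 ∧ ∃ b : ℕ, 0 < b ∧
      ¬ GSep (codeC (ar := ar)) (fun F => F ≠ []) (YC R) (NC R ε) nvC b) → A) ∧
    ((∃ K : ℕ, ∃ ε : ℚ, 0 < ε ∧ ε < 1 ∧ ∃ b : ℕ, 0 < b ∧
      ¬ GSep (codeC (ar := ar)) (VK K) (YC R) (NC R ε) List.length b) →
      ∃ ε : ℚ, 0 < ε ∧ ε < 1 ∧ ∃ b : ℕ, 0 < b ∧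
      ¬ GSep (codeC (ar := ar)) (fun F => F ≠ []) (YC R) (NC R ε) nvC b) := by
  have hd := minHom_pos hR
  refine ⟨?_, ?_, ?_⟩
  · intro a
    obtain ⟨p, q, b, hp, hpq, hb, h⟩ := hB a
    obtain ⟨X, hM, hG⟩ := exists_gad hd hR
    have hne := gad_ne X hM
    have hBpos : 0 < X.T.length := List.length_pos_iff.2 hne
    refine ⟨3 * (X.T.length * ∑ i : Fin g, ar i), (p : ℚ) / (q * X.T.length : ℕ), ?_, ?_,
      X.T.length * b, Nat.mul_pos hBpos hb,
      fun hs => h (csp_fwd X hM hne hG (by omega) hb hs)⟩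
    · have h1 : (0 : ℚ) < p := by exact_mod_cast hp
      have h2 : (0 : ℚ) < (q * X.T.length : ℕ) := by
        have : 0 < q * X.T.length := Nat.mul_pos (by omega) hBpos
        exact_mod_cast this
      positivity
    · have h2 : (0 : ℚ) < (q * X.T.length : ℕ) := by
        have : 0 < q * X.T.length := Nat.mul_pos (by omega) hBpos
        exact_mod_cast this
      rw [div_lt_one h2]
      have : p < q * X.T.length := lt_of_lt_of_le hpq (Nat.le_mul_of_pos_right q hBpos)
      exact_mod_cast this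
  · rintro ⟨ε, h0, h1, b, hb, h⟩
    by_contra hnA
    refine h ?_
    have hp : 0 < ε.num.toNat := by
      have := Rat.num_pos.2 h0
      omega
    have hpq : ((ε.num.toNat : ℕ) : ℚ) / ((ε.den : ℕ) : ℚ) = ε := by
      have h2 : ((ε.num.toNat : ℕ) : ℤ) = ε.num := Int.toNat_of_nonneg (Rat.num_pos.2 h0).le
      have h3 : ((ε.num.toNat : ℕ) : ℚ) = (ε.num : ℚ) := by exact_mod_cast h2
      rw [h3, Rat.num_div_den]
    have hlt : ε.num.toNat < ε.den := by
      have hq' : (0 : ℚ) < ((ε.den : ℕ) : ℚ) := by exact_mod_cast ε.den_pos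
      rw [← hpq, div_lt_one hq'] at h1
      exact_mod_cast h1
    have := csp_rev R hd (hA hnA) hp hlt hb
    rw [hpq] at this
    exact this
  · rintro ⟨K₀, ε, h0, h1, b, hb, h⟩
    obtain ⟨K, hK⟩ : ∃ K, K = (∑ i : Fin g, ar i) + 1 := ⟨_, rfl⟩
    refine ⟨ε, h0, h1, K * b, by rw [hK]; positivity, fun hs => h ?_⟩
    refine hs.mono (fun _ h => h.1) (fun _ _ h => h) (fun _ _ h => h) fun F _ => ?_
    have h2 : nvC F ≤ K * F.length := by
      unfold nvC
      refine (List.toFinset_card_le _).trans ?_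
      rw [List.length_flatMap]
      have h3 : (F.map (fun c : Con ar => (List.ofFn c.2).length)).sum ≤
          (F.map (fun _ : Con ar => K)).sum := by
        refine List.sum_le_sum fun c _ => ?_
        rw [List.length_ofFn, hK]
        have := Finset.single_le_sum (f := fun i : Fin g => ar i)
          (fun _ _ => Nat.zero_le _) (Finset.mem_univ c.1)
        omega
      refine h3.trans ?_
      rw [List.map_const', List.sum_replicate, smul_eq_mul, Nat.mul_comm]
    have h3 := Nat.div_le_div_right (c := K * b) h2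
    rw [Nat.mul_div_mul_left _ _ (by omega)] at h3
    exact h3

end csp

/-! ### The two consequences of the sparsification theorem -/

/-- some pair of parameters has no separator -/
def GapETH : Prop := ∃ ε : ℚ, 0 < ε ∧ ε < 1 ∧ ∃ b : ℕ, 0 < b ∧ ¬ SepK 3 (fun _ => True) ε b

theorem sepK_of_not (h : ¬ GapETH) (k p q b : ℕ) (hk : 3 ≤ k) (hp : 0 < p) (hpq : p < q)
    (hb : 0 < b) : SepK k (fun _ => True) ((p : ℚ) / (q : ℕ)) b := by
  have hq : 0 < q := by omega
  obtain ⟨K, b', hb', hmain⟩ := ksparse_main k p q b (by omega) hp hq hb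
  refine hmain ?_
  by_contra hno
  refine h ⟨(p : ℚ) / (8 * q * (k + 2) * (K + 3) : ℕ), ?_, ?_, b', hb', fun hs => hno ?_⟩
  · have h1 : (0 : ℚ) < p := by exact_mod_cast hp
    have h2 : (0 : ℚ) < ((8 * q * (k + 2) * (K + 3) : ℕ) : ℚ) := by
      have : 0 < 8 * q * (k + 2) * (K + 3) := by positivity
      exact_mod_cast this
    positivity
  · have h2 : (0 : ℚ) < ((8 * q * (k + 2) * (K + 3) : ℕ) : ℚ) := by
      have : 0 < 8 * q * (k + 2) * (K + 3) := by positivity
      exact_mod_cast this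
    rw [div_lt_one h2]
    have : p < 8 * q * (k + 2) * (K + 3) := by
      calc p < q * (1 * 1) := by omega
        _ ≤ q * ((8 * (k + 2)) * (K + 3)) :=
          Nat.mul_le_mul_left _ (Nat.mul_le_mul (by omega) (by omega))
        _ = _ := by ring
    exact_mod_cast this
  · obtain ⟨C, e, tm, e₀, acc, rej, hne, h3⟩ := hs
    exact ⟨C, e, tm, e₀, acc, rej, hne, fun F h4 h5 _ => h3 F h4 h5 trivial⟩

theorem length_le_occ {F : List (List (Bool × ℕ))} (h : Occ F) : F.length ≤ 3 * nvars F := by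
  have h1 := length_le_vlist (V := ℕ) h.1
  refine h1.trans ?_
  rw [nvars_eq, ← List.sum_toFinset_count_eq_length, Nat.mul_comm, ← smul_eq_mul]
  exact Finset.sum_le_card_nsmul _ _ _ fun v _ => h.2 v

theorem sparse_of (h : GapETH) : ∃ p q b : ℕ, 0 < p ∧ p < q ∧ 0 < b ∧
    ¬ GSep encF V3 Y3 (N3 ((p : ℚ) / (q : ℕ))) List.length b := by
  obtain ⟨ε, h0, h1, b, hb, h⟩ := h
  have hp : 0 < ε.num.toNat := by
    have := Rat.num_pos.2 h0
    omega
  have hpq : ((ε.num.toNat : ℕ) : ℚ) / ((ε.den : ℕ) : ℚ) = ε := by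
    have h2 : ((ε.num.toNat : ℕ) : ℤ) = ε.num := Int.toNat_of_nonneg (Rat.num_pos.2 h0).le
    have h3 : ((ε.num.toNat : ℕ) : ℚ) = (ε.num : ℚ) := by exact_mod_cast h2
    rw [h3, Rat.num_div_den]
  have hlt : ε.num.toNat < ε.den := by
    have hq' : (0 : ℚ) < ((ε.den : ℕ) : ℚ) := by exact_mod_cast ε.den_pos
    rw [← hpq, div_lt_one hq'] at h1
    exact_mod_cast h1
  obtain ⟨K, b', hb', hmain⟩ := ksparse_main 3 ε.num.toNat ε.den b (by omega) hp ε.den_pos hb
  refine ⟨ε.num.toNat, 8 * ε.den * (3 + 2) * (K + 3), 3 * b', hp, ?_, by positivity,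
    fun hs => h ?_⟩
  · calc ε.num.toNat < ε.den * (1 * 1) := by omega
      _ ≤ ε.den * ((8 * (3 + 2)) * (K + 3)) :=
        Nat.mul_le_mul_left _ (Nat.mul_le_mul (by omega) (by omega))
      _ = _ := by ring
  · have h4 : SepK 3 Occ ((ε.num.toNat : ℚ) / (8 * ε.den * (3 + 2) * (K + 3) : ℕ)) b' := by
      obtain ⟨C, e, tm, e₀, acc, rej, hne, h3⟩ := hs
      refine ⟨C, e, tm, e₀, acc, rej, hne, fun F h4 h5 h6 => ?_⟩
      have h7 := h3 F ⟨h4, h5, h6⟩
      have ht : C * ((encF F).length + 1) ^ e * 2 ^ (F.length / (3 * b')) ≤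
          C * ((encF F).length + 1) ^ e * 2 ^ (nvars F / b') := by
        refine Nat.mul_le_mul_left _ (Nat.pow_le_pow_right (by norm_num) ?_)
        have := Nat.div_le_div_right (c := 3 * b') (length_le_occ h6)
        rwa [Nat.mul_div_mul_left _ _ (by norm_num)] at this
      exact ⟨fun g => outputs_mono ht (h7.1 g), fun g => outputs_mono ht (h7.2 g)⟩
    have h5 := hmain h4
    rw [hpq] at h5
    exact h5

end Pool.Agent.Lib.MP_87d05f_lc
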