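import Mathlib
import Pool.Agent.Lib.MP_87d05f_lc.MaxMain
import Pool.Agent.Lib.MP_87d05f_lc.CspMain

set_option autoImplicit false

/-!
# A gadget of maximum degree three for the maximum cut problem
-/

namespace Pool.Agent.Lib.MP_87d05f_lc

open Pool.Agent.PolyTime Function Turing

/-! ### The template -/

/-- a local vertex -/
def lcl (i : ℕ) : Slot := (0, i, 0)

/-- rail `i` of position `j`, or the local vertex `k` if the position is absent -/
def rail (j i k : ℕ) : Slot := (j + 1, i, k)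

/-- the local vertex `i` or `k` depending on the sign of position `j` -/
def sele (j i k : ℕ) : Slot := (j + 4, i, k)

/-- the wires of position `j` -/
def wiresJ (j : ℕ) : List (Slot × Slot) :=
  [(rail j 0 (24 * j + 4), lcl (24 * j)), (rail j 1 (24 * j + 6), lcl (24 * j + 1)),
    (lcl (24 * j + 1), lcl (24 * j + 2)), (lcl (24 * j + 3), sele j (24 * j + 2) (24 * j + 1)),
    (lcl (24 * j + 4), lcl (24 * j + 5)), (lcl (24 * j + 5), lcl (24 * j + 6)),
    (lcl (24 * j), lcl (24 * j + 7)), (lcl (24 * j + 7), lcl (24 * j + 8)),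
    (lcl (24 * j + 3), lcl (24 * j + 9)), (lcl (24 * j + 9), lcl (24 * j + 10)),
    (lcl (24 * j), lcl (24 * j + 11)), (lcl (24 * j + 3), lcl (24 * j + 12)),
    (lcl (24 * j + 13), lcl (24 * j + 14)), (lcl (24 * j + 15), lcl (24 * j + 16)),
    (lcl (24 * j + 17), lcl (24 * j + 18)), (lcl (24 * j + 17), lcl (24 * j + 19)),
    (lcl (24 * j + 17), lcl (24 * j + 20)), (lcl (24 * j + 21), lcl (24 * j + 22)),
    (lcl (24 * j + 21), lcl (24 * j + 23))]

/-- the triangles of position `j` -/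
def trisJ (j : ℕ) : List (Slot × Slot × Slot) :=
  [(lcl (24 * j + 18), lcl (24 * j + 22), lcl (24 * j + 13)),
    (lcl (24 * j + 14), lcl (24 * j + 8), lcl (24 * j + 10)),
    (lcl (24 * j + 16), lcl (24 * j + 11), lcl (24 * j + 12)),
    (lcl (24 * j + 19), lcl (24 * j + 23), lcl (24 * j + 15))]

/-- the wires of the gadget -/
def cwires : List (Slot × Slot) :=
  wiresJ 0 ++ (wiresJ 1 ++ (wiresJ 2 ++
    [(lcl 72, lcl 21), (lcl 72, lcl 45), (lcl 72, lcl 73), (lcl 73, lcl 74), (lcl 74, lcl 69),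
      (lcl 74, lcl 75), (lcl 76, lcl 77)]))

/-- the triangles of the gadget -/
def ctris : List (Slot × Slot × Slot) :=
  trisJ 0 ++ (trisJ 1 ++ (trisJ 2 ++ [(lcl 20, lcl 44, lcl 76), (lcl 77, lcl 68, lcl 75)]))

/-- the edges of a triangle -/
def triE (t : Slot × Slot × Slot) : List (Slot × Slot) :=
  [(t.1, t.2.1), (t.2.1, t.2.2), (t.2.2, t.1)]

/-- the edges of the gadget -/
def cutT : List (Slot × Slot) := cwires ++ ctris.flatMap triE

/-- is the edge cut? -/
def cutE {S : Type} (ρ : S → Bool) (e : S × S) : Bool := xor (ρ e.1) (ρ e.2)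

/-- the values of the slots: `C` the local vertices, `R` the rails, `s` the signs, `p` the
presence -/
def slc (C : ℕ → Bool) (R : ℕ → ℕ → Bool) (s p : ℕ → Bool) (q : Slot) : Bool :=
  bif decide (q.1 = 0) then C q.2.1 else
  bif decide (q.1 ≤ 3) then (bif p (q.1 - 1) then R (q.1 - 1) q.2.1 else C q.2.2) else
  C (bif s (q.1 - 4) then q.2.1 else q.2.2)

theorem cutT_length : cutT.length = 106 := by decide

theorem tri_le {S : Type} (ρ : S → Bool) (a b c : S) :
    ([(a, b), (b, c), (c, a)] : List (S × S)).countP (cutE ρ) ≤ 2 ∧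
    (2 ≤ ([(a, b), (b, c), (c, a)] : List (S × S)).countP (cutE ρ) →
      ¬ (ρ a = ρ b ∧ ρ b = ρ c)) := by
  have key : ∀ x y z : Bool, (((0 + if (z ^^ x) = true then 1 else 0) +
      if (y ^^ z) = true then 1 else 0) + if (x ^^ y) = true then 1 else 0) ≤ 2 ∧
      (2 ≤ (((0 + if (z ^^ x) = true then 1 else 0) +
      if (y ^^ z) = true then 1 else 0) + if (x ^^ y) = true then 1 else 0) →
      ¬ (x = y ∧ y = z)) := by decide
  simp only [List.countP_cons, List.countP_nil, cutE]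
  exact key (ρ a) (ρ b) (ρ c)

theorem tris_le (ρ : Slot → Bool) (l : List (Slot × Slot × Slot)) :
    (l.flatMap triE).countP (cutE ρ) ≤ 2 * l.length ∧
    (2 * l.length ≤ (l.flatMap triE).countP (cutE ρ) →
      ∀ t ∈ l, ¬ (ρ t.1 = ρ t.2.1 ∧ ρ t.2.1 = ρ t.2.2)) := by
  induction l with
  | nil => simp
  | cons t l ih =>
    rw [List.flatMap_cons, List.countP_append, List.length_cons]
    obtain ⟨h1, h2⟩ := tri_le ρ t.1 t.2.1 t.2.2
    change (triE t).countP (cutE ρ) ≤ 2 at h1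
    change 2 ≤ (triE t).countP (cutE ρ) → _ at h2
    refine ⟨by omega, fun h => ?_⟩
    intro t' ht'
    rcases List.mem_cons.1 ht' with rfl | ht'
    · exact h2 (by omega)
    · exact ih.2 (by omega) t' ht'

/-- the value of the gadget is at most 92; if it is 92 all wires are cut and no triangle is
constant -/
theorem cutT_le (ρ : Slot → Bool) : cutT.countP (cutE ρ) ≤ 92 ∧
    (92 ≤ cutT.countP (cutE ρ) → (∀ e ∈ cwires, ρ e.1 = !(ρ e.2)) ∧
      ∀ t ∈ ctris, ¬ (ρ t.1 = ρ t.2.1 ∧ ρ t.2.1 = ρ t.2.2)) := by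
  unfold cutT
  rw [List.countP_append]
  have h1 : cwires.countP (cutE ρ) ≤ cwires.length := List.countP_le_length
  obtain ⟨h2, h3⟩ := tris_le ρ ctris
  have h4 : cwires.length = 64 := by decide
  have h5 : ctris.length = 14 := by decide
  refine ⟨by omega, fun h => ⟨fun e he => ?_, h3 (by omega)⟩⟩
  have h6 : cwires.countP (cutE ρ) = cwires.length := by omega
  have h7 := List.countP_eq_length.1 h6 e he
  unfold cutE at h7
  revert h7
  generalize ρ e.1 = x
  generalize ρ e.2 = y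
  revert x y
  decide

theorem slc_lcl (C : ℕ → Bool) (R : ℕ → ℕ → Bool) (s p : ℕ → Bool) (i : ℕ) :
    slc C R s p (lcl i) = C i := rfl

theorem slc_rail (C : ℕ → Bool) (R : ℕ → ℕ → Bool) (s p : ℕ → Bool) {j : ℕ} (hj : j < 3)
    (i k : ℕ) : slc C R s p (rail j i k) = bif p j then R j i else C k := by
  unfold slc rail
  simp only [Nat.add_sub_cancel]
  rw [decide_eq_false (by omega), decide_eq_true (by omega)]
  rfl

theorem slc_sele (C : ℕ → Bool) (R : ℕ → ℕ → Bool) (s p : ℕ → Bool) (j i k : ℕ) :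
    slc C R s p (sele j i k) = bif s j then C i else C k := by
  unfold slc sele
  simp only [Nat.add_sub_cancel]
  rw [decide_eq_false (by omega), decide_eq_false (by omega)]
  cases s j <;> rfl

/-- position `j`: if the literal is false then the output vertex differs from `C (24 j + 22)` -/
theorem pos_a : ∀ pj sj r0 r1 v0 v1 v2 v3 v4 v5 v6 : Bool, v1 = !v2 → v4 = !v5 → v5 = !v6 →
    v3 = (!bif sj then v2 else v1) → (pj = false → sj = true) → (bif pj then r0 else v4) = !v0 →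
    (bif pj then r1 else v6) = !v1 → ¬ (pj = true ∧ (r0 ^^ r1) = sj) → v0 = v3 := by
  decide

theorem pos_b : ∀ v0 v7 v8 v9 v10 v11 v12 v13 v14 v15 v16 : Bool, v0 = !v7 → v7 = !v8 →
    v0 = !v9 → v9 = !v10 → v0 = !v11 → v0 = !v12 → ¬ (v14 = v8 ∧ v8 = v10) → v13 = !v14 →
    ¬ (v16 = v11 ∧ v11 = v12) → v15 = !v16 → v13 = !v15 := by
  decide

theorem pos_c : ∀ v13 v15 v17 v18 v19 v20 v21 v22 v23 : Bool, v13 = !v15 → v17 = !v18 →
    v17 = !v19 → v17 = !v20 → ¬ (v18 = v22 ∧ v22 = v13) → v21 = !v22 →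
    ¬ (v19 = v23 ∧ v23 = v15) → v21 = !v23 → v20 = v21 := by
  decide

theorem posJ {C : ℕ → Bool} {R : ℕ → ℕ → Bool} {s p : ℕ → Bool} {j : ℕ} (hj : j < 3)
    (hw : ∀ e ∈ wiresJ j, slc C R s p e.1 = !(slc C R s p e.2))
    (ht : ∀ t ∈ trisJ j, ¬ (slc C R s p t.1 = slc C R s p t.2.1 ∧
      slc C R s p t.2.1 = slc C R s p t.2.2)) (hs : p j = false → s j = true)
    (hf : ¬ (p j = true ∧ xor (R j 0) (R j 1) = s j)) :
    C (24 * j + 20) = C (24 * j + 21) := by
  unfold wiresJ at hw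
  unfold trisJ at ht
  simp only [List.forall_mem_cons, List.not_mem_nil, false_imp_iff, implies_true, and_true,
    slc_lcl, slc_rail C R s p hj, slc_sele] at hw ht
  obtain ⟨w1, w2, w3, w4, w5, w6, w7, w8, w9, w10, w11, w12, w13, w14, w15, w16, w17, w18,
    w19⟩ := hw
  obtain ⟨t1, t2, t3, t4⟩ := ht
  have h1 := pos_a _ _ _ _ _ _ _ _ _ _ _ w3 w5 w6 w4 hs w1 w2 hf
  rw [← h1] at w9 w12
  have h2 := pos_b _ _ _ _ _ _ _ _ _ _ _ w7 w8 w9 w10 w11 w12 t2 w13 t3 w14
  exact pos_c _ _ _ _ _ _ _ _ _ h2 w15 w16 w17 t1 w18 t4 w19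

theorem fin_a : ∀ x72 x73 x74 x75 x76 x77 x21 x45 x69 : Bool,
    x72 = !x21 → x72 = !x45 → x72 = !x73 → x73 = !x74 → x74 = !x69 → x74 = !x75 →
    x76 = !x77 → ¬ (x21 = x45 ∧ x45 = x76) → ¬ (x77 = x69 ∧ x69 = x75) → False := by
  decide

/-- soundness of the gadget -/
theorem cut_sound {C : ℕ → Bool} {R : ℕ → ℕ → Bool} {s p : ℕ → Bool}
    (hs : ∀ j, p j = false → s j = true)
    (h : 92 ≤ cutT.countP (cutE (slc C R s p))) :
    ∃ j < 3, p j = true ∧ xor (R j 0) (R j 1) = s j := by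
  by_contra hno
  push Not at hno
  obtain ⟨hw, ht⟩ := (cutT_le (slc C R s p)).2 h
  unfold cwires at hw
  unfold ctris at ht
  simp only [List.forall_mem_append] at hw ht
  obtain ⟨hw0, hw1, hw2, hw3⟩ := hw
  obtain ⟨ht0, ht1, ht2, ht3⟩ := ht
  have e0 := posJ (by norm_num) hw0 ht0 (hs 0) (fun h => hno 0 (by norm_num) h.1 h.2)
  have e1 := posJ (by norm_num) hw1 ht1 (hs 1) (fun h => hno 1 (by norm_num) h.1 h.2)
  have e2 := posJ (by norm_num) hw2 ht2 (hs 2) (fun h => hno 2 (by norm_num) h.1 h.2)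
  simp only [List.forall_mem_cons, List.not_mem_nil, false_imp_iff, implies_true, and_true,
    slc_lcl] at hw3 ht3
  obtain ⟨w1, w2, w3, w4, w5, w6, w7⟩ := hw3
  obtain ⟨t1, t2⟩ := ht3
  simp only [Nat.mul_zero, Nat.zero_add, Nat.reduceMul, Nat.reduceAdd] at e0 e1 e2
  rw [e0, e1] at t1
  rw [e2] at t2
  exact fin_a _ _ _ _ _ _ _ _ _ w1 w2 w3 w4 w5 w6 w7 t1 t2

/-- the local values for a satisfied clause: `z` are the values of the variables (false at absent
positions) -/
def locV (s z : ℕ → Bool) (i : ℕ) : Bool :=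
  let j := i / 24
  let q := bif s j then !(z j) else z j
  match i % 24 with
  | 0 => bif decide (i < 72) then true else true
  | 1 => bif decide (i < 72) then !(z j) else false
  | 2 => bif decide (i < 72) then z j else true
  | 3 => bif decide (i < 72) then q else false
  | 4 => bif decide (i < 72) then false else
      !((!(bif s 0 then !(z 0) else z 0)) || (!(bif s 1 then !(z 1) else z 1)))
  | 5 => bif decide (i < 72) then true else
      ((!(bif s 0 then !(z 0) else z 0)) || (!(bif s 1 then !(z 1) else z 1)))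
  | 6 => false
  | 7 => false
  | 8 => true
  | 9 => !q
  | 10 => q
  | 11 => false
  | 12 => !q
  | 13 => q
  | 14 => !q
  | 15 => false
  | 16 => true
  | 17 => q
  | 18 => !q
  | 19 => !q
  | 20 => !q
  | 21 => false
  | 22 => true
  | _ => true

/-- a function with three values -/
def f3 (a b c : Bool) : ℕ → Bool
  | 0 => a
  | 1 => b
  | _ => c

theorem f3_eq (s : ℕ → Bool) {j : ℕ} (hj : j < 3) : f3 (s 0) (s 1) (s 2) j = s j := by
  have : j = 0 ∨ j = 1 ∨ j = 2 := by omega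
  rcases this with rfl | rfl | rfl <;> rfl

/-- the values of the rails -/
def railV (z : ℕ → Bool) (j i : ℕ) : Bool := bif decide (i = 0) then false else z j

theorem locV_congr (s z : ℕ → Bool) {i : ℕ} (hi : i < 78) :
    locV (f3 (s 0) (s 1) (s 2)) (f3 (z 0) (z 1) (z 2)) i = locV s z i := by
  by_cases h : i < 72
  · have hj : i / 24 < 3 := by omega
    unfold locV
    simp only [f3_eq s hj, f3_eq z hj]
    rfl
  · have : i = 72 ∨ i = 73 ∨ i = 74 ∨ i = 75 ∨ i = 76 ∨ i = 77 := by omega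
    rcases this with rfl | rfl | rfl | rfl | rfl | rfl <;> rfl

theorem slc_congr (s p z : ℕ → Bool) {q : Slot} (h1 : q.1 ≤ 6) (h2 : q.2.1 < 78)
    (h3 : q.2.2 < 78) : slc (locV (f3 (s 0) (s 1) (s 2)) (f3 (z 0) (z 1) (z 2)))
      (railV (f3 (z 0) (z 1) (z 2))) (f3 (s 0) (s 1) (s 2)) (f3 (p 0) (p 1) (p 2)) q =
    slc (locV s z) (railV z) s p q := by
  unfold slc
  by_cases hq : q.1 = 0
  · rw [decide_eq_true hq, cond_true, cond_true, locV_congr s z h2]
  · rw [decide_eq_false hq, cond_false, cond_false]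
    by_cases hq3 : q.1 ≤ 3
    · rw [decide_eq_true hq3, cond_true, cond_true, f3_eq p (by omega)]
      unfold railV
      rw [f3_eq z (by omega), locV_congr s z h3]
    · rw [decide_eq_false hq3, cond_false, cond_false, f3_eq s (by omega)]
      rcases s (q.1 - 4) with _ | _
      · rw [cond_false]
        exact locV_congr s z h3
      · rw [cond_true]
        exact locV_congr s z h2

theorem cutT_bound : ∀ e ∈ cutT, (e.1.1 ≤ 6 ∧ e.1.2.1 < 78 ∧ e.1.2.2 < 78) ∧
    (e.2.1 ≤ 6 ∧ e.2.2.1 < 78 ∧ e.2.2.2 < 78) := by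
  decide

theorem cut_check : ∀ s0 s1 s2 p0 p1 p2 z0 z1 z2 : Bool, (p0 = false → s0 = true ∧ z0 = false) →
    (p1 = false → s1 = true ∧ z1 = false) → (p2 = false → s2 = true ∧ z2 = false) →
    (z0 = s0 ∧ p0 = true) ∨ (z1 = s1 ∧ p1 = true) ∨ (z2 = s2 ∧ p2 = true) →
    cutT.countP (cutE (slc (locV (f3 s0 s1 s2) (f3 z0 z1 z2)) (railV (f3 z0 z1 z2))
      (f3 s0 s1 s2) (f3 p0 p1 p2))) = 92 := by
  decide +kernel

/-- completeness of the gadget -/
theorem cut_complete {s p z : ℕ → Bool} (hs : ∀ j, p j = false → s j = true ∧ z j = false)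
    (hz : ∃ j < 3, p j = true ∧ z j = s j) :
    92 ≤ cutT.countP (cutE (slc (locV s z) (railV z) s p)) := by
  have h1 : cutT.countP (cutE (slc (locV s z) (railV z) s p)) =
      cutT.countP (cutE (slc (locV (f3 (s 0) (s 1) (s 2)) (f3 (z 0) (z 1) (z 2)))
      (railV (f3 (z 0) (z 1) (z 2))) (f3 (s 0) (s 1) (s 2)) (f3 (p 0) (p 1) (p 2)))) := by
    refine List.countP_congr fun e he => ?_
    obtain ⟨⟨a1, a2, a3⟩, b1, b2, b3⟩ := cutT_bound e he
    unfold cutE
    rw [slc_congr s p z a1 a2 a3, slc_congr s p z b1 b2 b3]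
  rw [h1, cut_check _ _ _ _ _ _ _ _ _ (hs 0) (hs 1) (hs 2)]
  obtain ⟨j, hj, h2, h3⟩ := hz
  have : j = 0 ∨ j = 1 ∨ j = 2 := by omega
  rcases this with rfl | rfl | rfl
  · exact Or.inl ⟨h3, h2⟩
  · exact Or.inr (Or.inl ⟨h3, h2⟩)
  · exact Or.inr (Or.inr ⟨h3, h2⟩)

end Pool.Agent.Lib.MP_87d05f_lc
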