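import Mathlib
import Pool.Agent.Lib.MP_87d05f_lc.CutGad

set_option autoImplicit false

/-!
# The reduction from 3-CNF to the maximum cut problem
-/

namespace Pool.Agent.Lib.MP_87d05f_lc

open Pool.Agent.PolyTime Function Turing

/-! ### Names -/

/-- the literal at a position -/
def ltJ (c : List (Lit (List Bool))) (j : ℕ) : Lit (List Bool) := c.getD j (true, [])

/-- the name of a local vertex -/
def locN (n i : ℕ) : List Bool := nb (List.replicate n false) (3 * i + 2)

/-- the name of a slot -/
def nmC (n : ℕ) (c : List (Lit (List Bool))) (q : Slot) : List Bool :=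
  bif decide (q.1 = 0) then locN n q.2.1 else
  bif decide (q.1 ≤ 3) then (bif decide (q.1 - 1 < c.length) then
    nb (ltJ c (q.1 - 1)).2 (3 * q.2.1 + 1) else locN n q.2.2) else
  locN n (bif (ltJ c (q.1 - 4)).1 then q.2.1 else q.2.2)

theorem nmC_end (n : ℕ) (c : List (Lit (List Bool))) (q : Slot) : ∃ u, nmC n c q = u ++ [true] := by
  unfold nmC
  rcases decide (q.1 = 0) with _ | _ <;> rcases decide (q.1 ≤ 3) with _ | _ <;>
    rcases decide (q.1 - 1 < c.length) with _ | _ <;> exact nb_end _ _

theorem bits_unbits_nmC (n : ℕ) (c : List (Lit (List Bool))) (q : Slot) :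
    Nat.bits (unbits (nmC n c q)) = nmC n c q := by
  obtain ⟨u, hu⟩ := nmC_end n c q
  rw [hu, bits_unbits]

theorem ltJ_ptime {α : Type} [SCode α] {c : α → List (Lit (List Bool))} {j : α → ℕ}
    (hc : PTime c) (hj : PTime j) : PTime (fun a => ltJ (c a) (j a)) := by
  unfold ltJ
  exact PTime.getD hj hc (PTime.const _)

theorem locN_ptime {α : Type} [SCode α] {n i : α → ℕ} (hn : PTime n) (hi : PTime i) :
    PTime (fun a => locN (n a) (i a)) := by
  unfold locN
  exact nb_ptime (PTime.replicate hn (PTime.const false))
    (PTime.succ (PTime.succ (PTime.mul (PTime.const 3) hi)))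

theorem nmC_ptime {α : Type} [SCode α] {n : α → ℕ} {c : α → List (Lit (List Bool))}
    {q : α → Slot} (hn : PTime n) (hc : PTime c) (hq : PTime q) :
    PTime (fun a => nmC (n a) (c a) (q a)) := by
  unfold nmC
  have h1 : PTime (fun a => (q a).1) := PTime.fst.comp hq
  have h2 : PTime (fun a => (q a).2.1) := (PTime.fst.comp PTime.snd).comp hq
  have h3 : PTime (fun a => (q a).2.2) := (PTime.snd.comp PTime.snd).comp hq
  have hp : PTime (fun a => (q a).1 - 1) := PTime.pred h1
  have hp4 : PTime (fun a => (q a).1 - 4) :=
    (PTime.pred (PTime.pred (PTime.pred (PTime.pred h1)))).of_eq fun a => by omega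
  refine PTime.cond (PTime.nat_eq h1 (PTime.const 0)) (locN_ptime hn h2)
    (PTime.cond (PTime.nat_le h1 (PTime.const 3)) ?_ ?_)
  · refine PTime.cond (PTime.nat_lt hp (PTime.length hc)) ?_ (locN_ptime hn h3)
    exact nb_ptime (PTime.snd.comp (ltJ_ptime hc hp)) (PTime.succ (PTime.mul (PTime.const 3) h2))
  · exact locN_ptime hn (PTime.cond (PTime.fst.comp (ltJ_ptime hc hp4)) h2 h3)

/-- values of the names -/
theorem nmC_val (A : List Bool → Bool) (n : ℕ) (c : List (Lit (List Bool))) (q : Slot) :
    A (nmC n c q) = slc (fun i => A (locN n i)) (fun j i => A (nb (ltJ c j).2 (3 * i + 1)))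
      (fun j => (ltJ c j).1) (fun j => decide (j < c.length)) q := by
  unfold nmC slc
  simp only
  rcases decide (q.1 = 0) with _ | _
  · rcases decide (q.1 ≤ 3) with _ | _
    · rcases (ltJ c (q.1 - 4)).1 with _ | _ <;> rfl
    · rcases decide (q.1 - 1 < c.length) with _ | _ <;> rfl
  · rfl

/-- the assignment of names from its parts -/
def mkC (V : List Bool → ℕ → Bool) (C : ℕ → ℕ → Bool) (x : List Bool) : Bool :=
  if (unb x).2 % 3 = 1 then V (unb x).1 ((unb x).2 / 3) else
  C (unb x).1.length ((unb x).2 / 3)

theorem mkC_val (V : List Bool → ℕ → Bool) (C : ℕ → ℕ → Bool) (n : ℕ)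
    (c : List (Lit (List Bool))) (q : Slot) :
    mkC V C (nmC n c q) = slc (C n) (fun j => V (ltJ c j).2)
      (fun j => (ltJ c j).1) (fun j => decide (j < c.length)) q := by
  rw [nmC_val (mkC V C) n c q]
  have h1 : ∀ w t, mkC V C (nb w (3 * t + 1)) = V w t := by
    intro w t
    unfold mkC
    rw [unb_nb]
    simp only
    rw [if_pos (by omega), show (3 * t + 1) / 3 = t by omega]
  have h2 : ∀ n t, mkC V C (locN n t) = C n t := by
    intro n t
    unfold mkC locN
    rw [unb_nb]
    simp only [List.length_replicate]
    rw [if_neg (by omega), show (3 * t + 2) / 3 = t by omega]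
  simp only [h1, h2]

/-! ### The reduction -/

/-- the edges of a block, in words -/
def blkCW (p : List (Lit (List Bool)) × ℕ) : List (List (List Bool)) :=
  cutT.map (fun e => [nmC p.2 p.1 e.1, nmC p.2 p.1 e.2])

/-- the edges of a block -/
def blkC (p : List (Lit (List Bool)) × ℕ) : List (ℕ × ℕ) :=
  cutT.map (fun e => (unbits (nmC p.2 p.1 e.1), unbits (nmC p.2 p.1 e.2)))

/-- the words of an edge -/
def wordE (e : ℕ × ℕ) : List (List Bool) := [Nat.bits e.1, Nat.bits e.2]

theorem blkC_word (p : List (Lit (List Bool)) × ℕ) : (blkC p).map wordE = blkCW p := by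
  unfold blkC blkCW wordE
  rw [List.map_map]
  refine List.map_congr_left fun e _ => ?_
  simp only [Function.comp, bits_unbits_nmC]

/-- the graph of a formula -/
def redC (F : List (List (Bool × ℕ))) : List (ℕ × ℕ) := (binF F).zipIdx.flatMap blkC

/-- the graph of a formula, in words -/
def redCW (G : BF') : List (List (List Bool)) := G.zipIdx.flatMap blkCW

/-- the encoding of instances of the cut problem -/
def enCut (I : ℕ × List (ℕ × ℕ)) : List Bool :=
  encW ([List.replicate I.1 true] :: I.2.map wordE)

theorem redC_word (F : List (List (Bool × ℕ))) :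
    (redC F).map wordE = redCW (binF F) := by
  unfold redC redCW
  rw [List.map_flatMap]
  exact List.flatMap_congr fun p _ => blkC_word p

theorem blkCW_ptime {α : Type} [SCode α] {p : α → List (Lit (List Bool)) × ℕ} (hp : PTime p) :
    PTime (fun a => blkCW (p a)) := by
  unfold blkCW
  refine PTime.map (l := fun _ => cutT) (f := fun a (e : Slot × Slot) =>
    [nmC (p a).2 (p a).1 e.1, nmC (p a).2 (p a).1 e.2]) (PTime.const cutT) ?_
  have hn : PTime (fun a : α × (Slot × Slot) => (p a.1).2) :=
    PTime.snd.comp (hp.comp PTime.fst)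
  have hc : PTime (fun a : α × (Slot × Slot) => (p a.1).1) :=
    PTime.fst.comp (hp.comp PTime.fst)
  exact PTime.cons (nmC_ptime hn hc (PTime.fst.comp PTime.snd))
    (PTime.cons (nmC_ptime hn hc (PTime.snd.comp PTime.snd)) (PTime.const []))

/-- the reduction on strings -/
def cutF (x : List Bool) : List Bool :=
  encW ([List.replicate (92 * (parse x).length) true] :: redCW (parse x))

theorem cutF_ptime : PTime cutF := by
  unfold cutF
  refine encW_ptime (PTime.cons (PTime.cons (PTime.replicate (PTime.mul (PTime.const 92)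
    (PTime.length parse_ptime)) (PTime.const true)) (PTime.const [])) ?_)
  unfold redCW
  exact PTime.flatMap (f := fun (_ : List Bool) p => blkCW p) (PTime.zipIdx parse_ptime)
    (blkCW_ptime PTime.snd)

theorem cutF_enc (F : List (List (Bool × ℕ))) :
    cutF (encF F) = enCut (92 * F.length, redC F) := by
  unfold cutF enCut
  rw [parse_encF]
  have h : (binF F).length = F.length := by
    unfold binF
    rw [List.length_map]
  rw [h, redC_word]

theorem redC_length (F : List (List (Bool × ℕ))) : (redC F).length = 106 * F.length := by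
  unfold redC
  rw [List.length_flatMap]
  have h : (binF F).zipIdx.map (fun p => (blkC p).length) =
      (binF F).zipIdx.map (fun _ => 106) := by
    refine List.map_congr_left fun p _ => ?_
    unfold blkC
    rw [List.length_map, cutT_length]
  rw [h]
  simp [binF, Nat.mul_comm]

theorem countP_blkC (a : ℕ → Bool) (p : List (Lit (List Bool)) × ℕ) :
    (blkC p).countP (cutE a) = cutT.countP (cutE (fun q => a (unbits (nmC p.2 p.1 q)))) := by
  unfold blkC
  rw [List.countP_map]
  rfl

theorem countP_redC (a : ℕ → Bool) (F : List (List (Bool × ℕ))) :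
    (redC F).countP (cutE a) = ((binF F).zipIdx.map (fun p =>
      cutT.countP (cutE (fun q => a (unbits (nmC p.2 p.1 q)))))).sum := by
  unfold redC
  rw [List.countP_flatMap]
  exact congrArg List.sum (List.map_congr_left fun p _ => countP_blkC a p)

/-! ### Completeness -/

theorem slc_congrR {C : ℕ → Bool} {R R' : ℕ → ℕ → Bool} {s p : ℕ → Bool}
    (h : ∀ j, p j = true → ∀ i, R j i = R' j i) (q : Slot) : slc C R s p q = slc C R' s p q := by
  unfold slc
  rcases decide (q.1 = 0) with _ | _
  · rcases decide (q.1 ≤ 3) with _ | _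
    · rfl
    · rw [cond_true, cond_true]
      rcases hp : p (q.1 - 1) with _ | _
      · rfl
      · rw [cond_true, cond_true, h _ hp]
  · rfl

theorem cut_yes {F : List (List (Bool × ℕ))} (h3 : ∀ c ∈ F, c.length ≤ 3) (hs : Y3 F) :
    ∃ a : ℕ → Bool, 92 * F.length ≤ (redC F).countP (cutE a) := by
  obtain ⟨α, hα⟩ := hs
  obtain ⟨G, hG⟩ : ∃ G, G = binF F := ⟨_, rfl⟩
  obtain ⟨zv, hzv⟩ : ∃ zv : List (Lit (List Bool)) → ℕ → Bool,
    zv = fun c j => decide (j < c.length) && α (unbits (ltJ c j).2) := ⟨_, rfl⟩
  obtain ⟨A, hA⟩ : ∃ A : List Bool → Bool, A = mkC (fun w i => bif decide (i = 0) then false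
    else α (unbits w)) (fun n => locV (fun j => (ltJ (G.getD n []) j).1)
      (zv (G.getD n []))) := ⟨_, rfl⟩
  refine ⟨fun m => A (Nat.bits m), ?_⟩
  rw [countP_redC, ← hG]
  have hlen : G.zipIdx.length = F.length := by
    rw [List.length_zipIdx, hG]
    unfold binF
    rw [List.length_map]
  have hb : ∀ p ∈ G.zipIdx, 92 ≤
      cutT.countP (cutE (fun q => A (Nat.bits (unbits (nmC p.2 p.1 q))))) := by
    rintro ⟨c, n⟩ hp
    have hget := List.mem_zipIdx_iff_getElem?.1 hp
    have hc : c ∈ G := List.mem_of_getElem? hget
    have hgD : G.getD n [] = c := by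
      rw [List.getD_eq_getElem?_getD, hget]
      rfl
    have hv : (fun q => A (Nat.bits (unbits (nmC n c q)))) =
        slc (locV (fun j => (ltJ c j).1) (zv c)) (railV (zv c)) (fun j => (ltJ c j).1)
          (fun j => decide (j < c.length)) := by
      funext q
      rw [bits_unbits_nmC, hA, mkC_val, hgD]
      refine slc_congrR (fun j hj i => ?_) q
      unfold railV
      rw [hzv]
      simp only
      rw [hj]
      rfl
    simp only [hv]
    refine cut_complete (fun j hj => ?_) ?_
    · simp only [decide_eq_false_iff_not, not_lt] at hj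
      rw [hzv]
      unfold ltJ
      rw [List.getD_eq_default _ _ hj]
      exact ⟨rfl, by simp [hj]⟩
    · rw [hG] at hc
      obtain ⟨c₀, hc₀, rfl⟩ := List.mem_map.1 hc
      obtain ⟨l, hl, hla⟩ := hα c₀ hc₀
      obtain ⟨j, hj, rfl⟩ := List.getElem_of_mem hl
      have h3' := h3 c₀ hc₀
      refine ⟨j, by omega, by simp [hj], ?_⟩
      rw [hzv]
      simp only
      unfold ltJ
      rw [List.getD_eq_getElem _ _ (by simpa using hj)]
      simp only [List.length_map, hj, decide_true, Bool.true_and, List.getElem_map, unbits_bits]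
      exact hla
  calc 92 * F.length = (G.zipIdx.map (fun _ => 92)).sum := by
        rw [List.map_const', List.sum_replicate, hlen, smul_eq_mul, Nat.mul_comm]
    _ ≤ _ := List.sum_le_sum hb

/-! ### Soundness -/

theorem cut_no (F : List (List (Bool × ℕ))) (a : ℕ → Bool) :
    ∃ α : ℕ → Bool, (redC F).countP (cutE a) + F.countP (falsB α) ≤ 92 * F.length := by
  obtain ⟨A, hA⟩ : ∃ A : List Bool → Bool, A = fun w => a (unbits w) := ⟨_, rfl⟩
  obtain ⟨al, hal⟩ : ∃ al : List Bool → Bool,
    al = fun w => xor (A (nb w 1)) (A (nb w 4)) := ⟨_, rfl⟩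
  refine ⟨fun v => al (Nat.bits v), ?_⟩
  have hF : F.countP (falsB (fun v => al (Nat.bits v))) = (binF F).countP (falsB al) := by
    unfold binF
    rw [List.countP_map]
    congr 1
    funext c
    simp only [Function.comp, falsB, List.any_map]
    rfl
  rw [hF, countP_redC]
  have hlen : (binF F).length = F.length := by
    unfold binF
    rw [List.length_map]
  rw [← hlen]
  generalize binF F = G
  have key : ∀ (n : ℕ) (G : BF'),
      ((G.zipIdx n).map (fun p => cutT.countP (cutE (fun q =>
        a (unbits (nmC p.2 p.1 q)))))).sum + G.countP (falsB al) ≤ 92 * G.length := by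
    intro n G
    induction G generalizing n with
    | nil => simp
    | cons c G ih =>
      have h1 := ih (n + 1)
      rw [List.zipIdx_cons, List.map_cons, List.sum_cons, List.countP_cons, List.length_cons,
        Nat.mul_add, Nat.mul_one]
      have h2 : cutT.countP (cutE (fun q => a (unbits (nmC n c q)))) +
          (if falsB al c = true then 1 else 0) ≤ 92 := by
        have hv : (fun q => a (unbits (nmC n c q))) = slc (fun i => A (locN n i))
            (fun j i => A (nb (ltJ c j).2 (3 * i + 1))) (fun j => (ltJ c j).1)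
            (fun j => decide (j < c.length)) := by
          funext q
          rw [← nmC_val A n c q, hA]
        rw [hv]
        have hm := (cutT_le (slc (fun i => A (locN n i))
            (fun j i => A (nb (ltJ c j).2 (3 * i + 1))) (fun j => (ltJ c j).1)
            (fun j => decide (j < c.length)))).1
        split_ifs with hf
        · by_contra hlt
          have hge : 92 ≤ cutT.countP (cutE (slc (fun i => A (locN n i))
            (fun j i => A (nb (ltJ c j).2 (3 * i + 1))) (fun j => (ltJ c j).1)
            (fun j => decide (j < c.length)))) := by omega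
          obtain ⟨j, hj, hpj, hdec⟩ := cut_sound (fun j hj => by
            simp only [decide_eq_false_iff_not, not_lt] at hj
            unfold ltJ
            rw [List.getD_eq_default _ _ hj]) hge
          rw [decide_eq_true_eq] at hpj
          rw [falsB_iff] at hf
          refine hf (ltJ c j) ?_ ?_
          · unfold ltJ
            rw [List.getD_eq_getElem _ _ hpj]
            exact List.getElem_mem hpj
          · unfold tr
            rw [hal]
            exact hdec
        · omega
      simp only
      omega
  exact key 0 G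

end Pool.Agent.Lib.MP_87d05f_lc
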