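import Mathlib
import Pool.Agent.Lib.MP_87d05f_lc.CutRed

set_option autoImplicit false

/-!
# The graph of a formula is simple and has maximum degree at most three
-/

namespace Pool.Agent.Lib.MP_87d05f_lc

open Pool.Agent.PolyTime Function Turing

/-! ### Local indices -/

/-- the index of a local vertex, 999 for rails -/
def lkC (x : List Bool) : ℕ := if (unb x).2 % 3 = 2 then (unb x).2 / 3 else 999

/-- the block of an edge -/
def kbC (x y : List Bool) : ℕ := if (unb x).2 % 3 = 2 then (unb x).1.length else (unb y).1.length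

/-- the index of a slot, 999 for rails -/
def liC (s p : ℕ → Bool) (q : Slot) : ℕ :=
  bif decide (q.1 = 0) then q.2.1 else
  bif decide (q.1 ≤ 3) then (bif p (q.1 - 1) then 999 else q.2.2) else
  bif s (q.1 - 4) then q.2.1 else q.2.2

/-- the possible indices of a slot -/
def plC (q : Slot) : List ℕ :=
  bif decide (q.1 = 0) then [q.2.1] else bif decide (q.1 ≤ 3) then [999, q.2.2] else
  [q.2.1, q.2.2]

theorem liC_mem (s p : ℕ → Bool) (q : Slot) : liC s p q ∈ plC q := by
  unfold liC plC
  rcases decide (q.1 = 0) with _ | _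
  · rcases decide (q.1 ≤ 3) with _ | _
    · rcases s (q.1 - 4) with _ | _ <;> simp
    · rcases p (q.1 - 1) with _ | _ <;> simp
  · simp

theorem unb_locN (n i : ℕ) : unb (locN n i) = (List.replicate n false, 3 * i + 2) := by
  unfold locN
  rw [unb_nb]

theorem lkC_nmC (n : ℕ) (c : List (Lit (List Bool))) (q : Slot) :
    lkC (nmC n c q) = liC (fun j => (ltJ c j).1) (fun j => decide (j < c.length)) q := by
  have h1 : ∀ i, lkC (locN n i) = i := by
    intro i
    unfold lkC
    rw [unb_locN]
    simp only
    rw [if_pos (by omega)]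
    omega
  have h2 : ∀ w i, lkC (nb w (3 * i + 1)) = 999 := by
    intro w i
    unfold lkC
    rw [unb_nb]
    simp only
    rw [if_neg (by omega)]
  unfold nmC liC
  beta_reduce
  rcases decide (q.1 = 0) with _ | _
  · rcases decide (q.1 ≤ 3) with _ | _
    · simp only [cond_false, h1]
    · rcases decide (q.1 - 1 < c.length) with _ | _
      · simp only [cond_false, cond_true, h1]
      · simp only [cond_false, cond_true, h2]
  · simp only [cond_true, h1]

/-- local names belong to their block -/
theorem nmC_block {n : ℕ} {c : List (Lit (List Bool))} {q : Slot}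
    (h : (unb (nmC n c q)).2 % 3 = 2) : (unb (nmC n c q)).1.length = n := by
  revert h
  unfold nmC
  rcases decide (q.1 = 0) with _ | _
  · rcases decide (q.1 ≤ 3) with _ | _
    · intro _
      simp only [cond_false]
      rw [unb_locN, List.length_replicate]
    · rcases decide (q.1 - 1 < c.length) with _ | _
      · intro _
        simp only [cond_false, cond_true]
        rw [unb_locN, List.length_replicate]
      · intro h
        simp only [cond_false, cond_true] at h
        rw [unb_nb] at h
        simp only at h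
        omega
  · intro _
    simp only [cond_true]
    rw [unb_locN, List.length_replicate]

theorem plC_999 : ∀ e ∈ cutT, (∀ a ∈ plC e.1, a ≠ 999) ∨ (∀ b ∈ plC e.2, b ≠ 999) := by
  decide +kernel

theorem plC_ne : ∀ e ∈ cutT, ∀ a ∈ plC e.1, ∀ b ∈ plC e.2, a ≠ b := by
  decide +kernel

/-- the unordered pair of indices -/
def keyC (a b : ℕ) : ℕ × ℕ := (min a b, max a b)

/-- the possible keys of an edge -/
def pkC (e : Slot × Slot) : List (ℕ × ℕ) := (plC e.1).flatMap (fun a => (plC e.2).map (keyC a))

theorem pkC_nodup : (cutT.flatMap pkC).Nodup := by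
  decide +kernel

theorem map_nodup_of {α β : Type} {K : α → List β} {k : α → β} {l : List α}
    (h : (l.flatMap K).Nodup) (hk : ∀ a ∈ l, k a ∈ K a) : (l.map k).Nodup := by
  induction l with
  | nil => simp
  | cons a l ih =>
    rw [List.flatMap_cons, List.nodup_append] at h
    rw [List.map_cons, List.nodup_cons]
    refine ⟨?_, ih h.2.1 (fun b hb => hk b (List.mem_cons_of_mem _ hb))⟩
    intro hm
    obtain ⟨b, hb, hbe⟩ := List.mem_map.1 hm
    exact h.2.2 (k a) (hk a List.mem_cons_self) (k a) (List.mem_flatMap.2 ⟨b, hb, by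
      rw [← hbe]
      exact hk b (List.mem_cons_of_mem _ hb)⟩) rfl

/-- the key of an edge of the graph -/
def KC (e : ℕ × ℕ) : ℕ × (ℕ × ℕ) :=
  (kbC (Nat.bits e.1) (Nat.bits e.2), keyC (lkC (Nat.bits e.1)) (lkC (Nat.bits e.2)))

theorem keyC_mem {s p : ℕ → Bool} (e : Slot × Slot) :
    keyC (liC s p e.1) (liC s p e.2) ∈ pkC e :=
  List.mem_flatMap.2 ⟨_, liC_mem s p e.1, List.mem_map.2 ⟨_, liC_mem s p e.2, rfl⟩⟩

theorem liC_lt {n : ℕ} {c : List (Lit (List Bool))} {q : Slot} (h : lkC (nmC n c q) ≠ 999) :
    (unb (nmC n c q)).2 % 3 = 2 := by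
  unfold lkC at h
  by_contra hne
  rw [if_neg hne] at h
  exact h rfl

theorem block_key {n : ℕ} {c : List (Lit (List Bool))} {e : Slot × Slot} (he : e ∈ cutT) :
    kbC (nmC n c e.1) (nmC n c e.2) = n ∧ kbC (nmC n c e.2) (nmC n c e.1) = n := by
  have key : (unb (nmC n c e.1)).2 % 3 = 2 ∨ (unb (nmC n c e.2)).2 % 3 = 2 := by
    rcases plC_999 e he with h | h
    · left
      refine liC_lt (h _ ?_)
      rw [lkC_nmC]
      exact liC_mem _ _ _
    · right
      refine liC_lt (h _ ?_)
      rw [lkC_nmC]
      exact liC_mem _ _ _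
  unfold kbC
  by_cases h1 : (unb (nmC n c e.1)).2 % 3 = 2
  · by_cases h2 : (unb (nmC n c e.2)).2 % 3 = 2
    · rw [if_pos h1, if_pos h2]
      exact ⟨nmC_block h1, nmC_block h2⟩
    · rw [if_pos h1, if_neg h2]
      exact ⟨nmC_block h1, nmC_block h1⟩
  · have h2 : (unb (nmC n c e.2)).2 % 3 = 2 := by
      rcases key with h | h
      · exact absurd h h1
      · exact h
    rw [if_neg h1, if_pos h2]
    exact ⟨nmC_block h2, nmC_block h2⟩

theorem keyC_comm (a b : ℕ) : keyC a b = keyC b a := by
  unfold keyC
  rw [min_comm, max_comm]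

/-- the keys do not depend on the orientation -/
theorem KC_swap {F : List (List (Bool × ℕ))} {e : ℕ × ℕ} (he : e ∈ redC F) :
    KC (e.2, e.1) = KC e := by
  obtain ⟨p, _, he⟩ := List.mem_flatMap.1 he
  obtain ⟨t, ht, rfl⟩ := List.mem_map.1 he
  unfold KC
  simp only [bits_unbits_nmC]
  obtain ⟨h1, h2⟩ := block_key (n := p.2) (c := p.1) ht
  rw [h1, h2, keyC_comm]

theorem redC_loop {F : List (List (Bool × ℕ))} {e : ℕ × ℕ} (he : e ∈ redC F) : e.1 ≠ e.2 := by
  obtain ⟨p, _, he⟩ := List.mem_flatMap.1 he
  obtain ⟨t, ht, rfl⟩ := List.mem_map.1 he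
  simp only
  intro h
  have h1 : nmC p.2 p.1 t.1 = nmC p.2 p.1 t.2 := by
    rw [← bits_unbits_nmC, h, bits_unbits_nmC]
  have h2 := congrArg lkC h1
  rw [lkC_nmC, lkC_nmC] at h2
  exact plC_ne t ht _ (liC_mem _ _ _) _ (liC_mem _ _ _) h2

theorem redC_keys (F : List (List (Bool × ℕ))) : ((redC F).map KC).Nodup := by
  unfold redC
  rw [List.map_flatMap]
  have h1 : ∀ p ∈ (binF F).zipIdx, (blkC p).map KC = cutT.map (fun e =>
      (p.2, keyC (liC (fun j => (ltJ p.1 j).1) (fun j => decide (j < p.1.length)) e.1)
        (liC (fun j => (ltJ p.1 j).1) (fun j => decide (j < p.1.length)) e.2))) := by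
    intro p _
    unfold blkC
    rw [List.map_map]
    refine List.map_congr_left fun e he => ?_
    simp only [Function.comp]
    unfold KC
    simp only [bits_unbits_nmC]
    rw [(block_key (n := p.2) (c := p.1) he).1, lkC_nmC, lkC_nmC]
  rw [List.flatMap_congr h1]
  generalize binF F = G
  have key : ∀ (n : ℕ) (G : BF'), ((G.zipIdx n).flatMap (fun p => cutT.map (fun e =>
      (p.2, keyC (liC (fun j => (ltJ p.1 j).1) (fun j => decide (j < p.1.length)) e.1)
        (liC (fun j => (ltJ p.1 j).1) (fun j => decide (j < p.1.length)) e.2))))).Nodup ∧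
      ∀ x ∈ ((G.zipIdx n).flatMap (fun p => cutT.map (fun e =>
      (p.2, keyC (liC (fun j => (ltJ p.1 j).1) (fun j => decide (j < p.1.length)) e.1)
        (liC (fun j => (ltJ p.1 j).1) (fun j => decide (j < p.1.length)) e.2))))), n ≤ x.1 := by
    intro n G
    induction G generalizing n with
    | nil => simp
    | cons c G ih =>
      obtain ⟨i1, i2⟩ := ih (n + 1)
      rw [List.zipIdx_cons, List.flatMap_cons]
      refine ⟨?_, ?_⟩
      · rw [List.nodup_append]
        refine ⟨?_, i1, ?_⟩
        · have h2 : (cutT.map (fun e => keyC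
              (liC (fun j => (ltJ c j).1) (fun j => decide (j < c.length)) e.1)
              (liC (fun j => (ltJ c j).1) (fun j => decide (j < c.length)) e.2))).Nodup :=
            map_nodup_of pkC_nodup (fun e _ => keyC_mem e)
          have h3 : Function.Injective (fun x : ℕ × ℕ => (n, x)) := by
            intro x y h
            simpa using h
          have h4 := h2.map h3
          rw [List.map_map] at h4
          exact h4
        · intro x hx y hy hxy
          obtain ⟨e, _, rfl⟩ := List.mem_map.1 hx
          have := i2 y hy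
          rw [← hxy] at this
          simp only at this
          omega
      · intro x hx
        rcases List.mem_append.1 hx with hx | hx
        · obtain ⟨e, _, rfl⟩ := List.mem_map.1 hx
          exact le_rfl
        · have := i2 x hx
          omega
  exact (key 0 G).1

/-- no edge is repeated, in either orientation -/
theorem redC_simple (F : List (List (Bool × ℕ))) :
    (redC F).Pairwise (fun e f => e ≠ f ∧ e ≠ (f.2, f.1)) := by
  have h := redC_keys F
  rw [List.Nodup, List.pairwise_map] at h
  refine List.Pairwise.imp_of_mem (fun {e f} he hf hne => ⟨?_, ?_⟩) h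
  · rintro rfl
    exact hne rfl
  · intro h1
    refine hne ?_
    rw [h1, KC_swap hf]

/-! ### Degrees -/

/-- the end points of the edges of the gadget -/
def EP : List Slot := cutT.flatMap (fun e => [e.1, e.2])

/-- the possible indices of a slot that is a local vertex -/
def qlC (q : Slot) : List ℕ :=
  bif decide (q.1 = 0) then [q.2.1] else bif decide (q.1 ≤ 3) then [q.2.2] else [q.2.1, q.2.2]

theorem EP_deg : ∀ i < 78, EP.countP (fun q => decide (i ∈ qlC q)) ≤ 3 := by
  decide +kernel

theorem EP_lt : ∀ q ∈ EP, ∀ i ∈ qlC q, i < 78 := by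
  decide +kernel

theorem EP_rails : EP.filter (fun q => decide (q.1 ≠ 0) && decide (q.1 ≤ 3)) =
    [(1, 0, 4), (1, 1, 6), (2, 0, 28), (2, 1, 30), (3, 0, 52), (3, 1, 54)] := by
  decide +kernel

theorem nmC_cases (n : ℕ) (c : List (Lit (List Bool))) (q : Slot) :
    (∃ i ∈ qlC q, unb (nmC n c q) = (List.replicate n false, 3 * i + 2)) ∨
    (q.1 ≠ 0 ∧ q.1 ≤ 3 ∧ q.1 - 1 < c.length ∧
      unb (nmC n c q) = ((ltJ c (q.1 - 1)).2, 3 * q.2.1 + 1)) := by
  unfold nmC qlC
  by_cases h0 : q.1 = 0
  · left
    rw [decide_eq_true h0]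
    exact ⟨_, List.mem_singleton_self _, unb_locN _ _⟩
  · rw [decide_eq_false h0]
    by_cases h3 : q.1 ≤ 3
    · rw [decide_eq_true h3]
      by_cases hl : q.1 - 1 < c.length
      · right
        rw [decide_eq_true hl]
        exact ⟨h0, h3, hl, unb_nb _ _⟩
      · left
        rw [decide_eq_false hl]
        exact ⟨_, List.mem_singleton_self _, unb_locN _ _⟩
    · left
      rw [decide_eq_false h3]
      rcases (ltJ c (q.1 - 4)).1 with _ | _
      · exact ⟨q.2.2, by simp, unb_locN _ _⟩
      · exact ⟨q.2.1, by simp, unb_locN _ _⟩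

theorem rails_le {c : List (Lit (List Bool))} (hc : c.length ≤ 3) (w : List Bool) (i : ℕ) :
    ([(1, 0, 4), (1, 1, 6), (2, 0, 28), (2, 1, 30), (3, 0, 52), (3, 1, 54)] :
      List Slot).countP (fun q => decide (q.1 - 1 < c.length ∧ (ltJ c (q.1 - 1)).2 = w ∧
        q.2.1 = i)) ≤ (c.map Prod.snd).countP (fun u => decide (u = w)) := by
  have hi : i = 0 ∨ i = 1 ∨ 2 ≤ i := by omega
  rcases c with _ | ⟨l0, _ | ⟨l1, _ | ⟨l2, _ | ⟨l3, c⟩⟩⟩⟩
  · simp
  · rcases hi with rfl | rfl | hi
    · simp [ltJ, List.countP_cons]
    · simp [ltJ, List.countP_cons]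
    · have h1 : i ≠ 0 := by omega
      have h2 : i ≠ 1 := by omega
      simp [ltJ, List.countP_cons, h1.symm, h2.symm]
  · rcases hi with rfl | rfl | hi
    · simp [ltJ, List.countP_cons]
    · simp [ltJ, List.countP_cons]
    · have h1 : i ≠ 0 := by omega
      have h2 : i ≠ 1 := by omega
      simp [ltJ, List.countP_cons, h1.symm, h2.symm]
  · rcases hi with rfl | rfl | hi
    · simp [ltJ, List.countP_cons]
    · simp [ltJ, List.countP_cons]
    · have h1 : i ≠ 0 := by omega
      have h2 : i ≠ 1 := by omega
      simp [ltJ, List.countP_cons, h1.symm, h2.symm]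
  · simp only [List.length_cons] at hc
    omega

theorem sum_vlist (P : List Bool → Bool) (G : BF') : ∀ n : ℕ,
    ((G.zipIdx n).map (fun p => (p.1.map Prod.snd).countP P)).sum = (vlist G).countP P := by
  unfold vlist
  induction G with
  | nil => intro n; rfl
  | cons c G ih =>
    intro n
    rw [List.zipIdx_cons, List.map_cons, List.sum_cons, ih, List.flatten_cons, List.map_append,
      List.countP_append]

/-- the maximum degree is at most three -/
theorem redC_deg {F : List (List (Bool × ℕ))} (h3 : ∀ c ∈ F, c.length ≤ 3)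
    (hocc : ∀ v, (F.flatten.map (fun l => l.2)).count v ≤ 3) (v : ℕ) :
    ((redC F).flatMap (fun e => [e.1, e.2])).count v ≤ 3 := by
  obtain ⟨w, t, hwt⟩ : ∃ w t, unb (Nat.bits v) = (w, t) := ⟨_, _, rfl⟩
  have hblk : ∀ p : List (Lit (List Bool)) × ℕ,
      ((blkC p).flatMap (fun e => [e.1, e.2])).count v =
        EP.countP (fun q => decide (unbits (nmC p.2 p.1 q) = v)) := by
    intro p
    have : (blkC p).flatMap (fun e => [e.1, e.2]) = EP.map (fun q => unbits (nmC p.2 p.1 q)) := by
      unfold blkC EP
      rw [List.flatMap_map, List.map_flatMap]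
      rfl
    rw [this, List.count_eq_countP, List.countP_map]
    refine List.countP_congr fun q _ => ?_
    simp [Function.comp]
  have hname : ∀ p : List (Lit (List Bool)) × ℕ, ∀ q : Slot, unbits (nmC p.2 p.1 q) = v →
      unb (nmC p.2 p.1 q) = (w, t) := by
    intro p q h
    rw [← hwt, ← h, bits_unbits_nmC]
  unfold redC
  rw [List.flatMap_assoc, List.count_flatMap]
  have hsum : ((binF F).zipIdx.map (List.count v ∘ fun p =>
      (blkC p).flatMap (fun e => [e.1, e.2]))) = (binF F).zipIdx.map (fun p =>
      EP.countP (fun q => decide (unbits (nmC p.2 p.1 q) = v))) :=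
    List.map_congr_left fun p _ => hblk p
  rw [hsum]
  have hlenG : ∀ c ∈ binF F, c.length ≤ 3 := by
    intro c hc
    obtain ⟨c₀, hc₀, rfl⟩ := List.mem_map.1 hc
    rw [List.length_map]
    exact h3 c₀ hc₀
  by_cases ht : t % 3 = 1
  · have h1 : ∀ p ∈ (binF F).zipIdx, EP.countP (fun q =>
        decide (unbits (nmC p.2 p.1 q) = v)) ≤
        (p.1.map Prod.snd).countP (fun u => decide (u = w)) := by
      intro p hp
      have hc : p.1 ∈ binF F := by
        have hget := List.mem_zipIdx_iff_getElem?.1 hp
        exact List.mem_of_getElem? hget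
      refine le_trans ?_ (rails_le (hlenG _ hc) w (t / 3))
      rw [← EP_rails, List.countP_filter]
      refine List.countP_mono_left fun q _ hq => ?_
      rw [decide_eq_true_eq] at hq
      have h2 := hname p q hq
      rcases nmC_cases p.2 p.1 q with ⟨i, _, h⟩ | ⟨h4, h5, h6, h⟩
      · rw [h2, Prod.mk.injEq] at h
        omega
      · rw [h2, Prod.mk.injEq] at h
        simp only [Bool.and_eq_true, decide_eq_true_eq]
        exact ⟨⟨h6, h.1.symm, by omega⟩, h4, h5⟩
    refine (List.sum_le_sum h1).trans ?_
    rw [sum_vlist (fun u => decide (u = w)) (binF F) 0]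
    exact countP_binF hocc w
  · have h1 : ∀ p ∈ (binF F).zipIdx, EP.countP (fun q =>
        decide (unbits (nmC p.2 p.1 q) = v)) ≤ 3 * (if p.2 = w.length then 1 else 0) := by
      intro p _
      have hi : ∀ q ∈ EP, decide (unbits (nmC p.2 p.1 q) = v) = true →
          p.2 = w.length ∧ t / 3 < 78 ∧ t / 3 ∈ qlC q := by
        intro q hq0 hq
        rw [decide_eq_true_eq] at hq
        have h2 := hname p q hq
        rcases nmC_cases p.2 p.1 q with ⟨i, hi, h⟩ | ⟨h4, h5, h6, h⟩
        · rw [h2, Prod.mk.injEq] at h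
          have h7 : t / 3 = i := by omega
          rw [h7]
          exact ⟨by rw [h.1, List.length_replicate], EP_lt q hq0 i hi, hi⟩
        · rw [h2, Prod.mk.injEq] at h
          omega
      split_ifs with hp
      · by_cases h78 : t / 3 < 78
        · rw [Nat.mul_one]
          refine le_trans (List.countP_mono_left fun q hq h => ?_) (EP_deg _ h78)
          rw [decide_eq_true_eq]
          exact (hi q hq h).2.2
        · have : EP.countP (fun q => decide (unbits (nmC p.2 p.1 q) = v)) = 0 := by
            rw [List.countP_eq_zero]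
            intro q hq h
            exact h78 (hi q hq h).2.1
          rw [this]
          exact Nat.zero_le _
      · have : EP.countP (fun q => decide (unbits (nmC p.2 p.1 q) = v)) = 0 := by
          rw [List.countP_eq_zero]
          intro q hq h
          exact hp (hi q hq h).1
        rw [this]
    refine (List.sum_le_sum h1).trans ?_
    rw [List.sum_map_mul_left]
    have h2 : ((binF F).zipIdx.map (fun p => if p.2 = w.length then 1 else 0)).sum =
        (binF F).zipIdx.countP (fun p => decide (p.2 = w.length)) := by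
      generalize (binF F).zipIdx = Z
      induction Z with
      | nil => rfl
      | cons p Z ih =>
        rw [List.map_cons, List.sum_cons, ih, List.countP_cons, Nat.add_comm]
        congr 1
        by_cases hp : p.2 = w.length <;> simp [hp]
    rw [h2]
    have := (countP_zipIdx_snd w.length (binF F) 0).1
    omega

end Pool.Agent.Lib.MP_87d05f_lc
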