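import Mathlib
import Pool.Agent.Lib.MP_87d05f_lc.CutDeg

set_option autoImplicit false

/-!
# Separators for the maximum cut problem on graphs of maximum degree three
-/

namespace Pool.Agent.Lib.MP_87d05f_lc

open Pool.Agent.PolyTime Function Turing

/-- simple graphs of maximum degree at most three, with a threshold -/
def VCut (I : ℕ × List (ℕ × ℕ)) : Prop :=
  (∀ e ∈ I.2, e.1 ≠ e.2) ∧ I.2.Pairwise (fun e f => e ≠ f ∧ e ≠ (f.2, f.1)) ∧
    ∀ v, (I.2.flatMap (fun e => [e.1, e.2])).count v ≤ 3

/-- some cut reaches the threshold -/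
def YCut (I : ℕ × List (ℕ × ℕ)) : Prop := ∃ a : ℕ → Bool, I.1 ≤ I.2.countP (cutE a)

/-- all cuts are much smaller -/
def NCut (ε : ℚ) (I : ℕ × List (ℕ × ℕ)) : Prop :=
  ∀ a : ℕ → Bool, ((I.2.countP (cutE a) : ℕ) : ℚ) < (1 - ε) * (I.1 : ℚ)

/-- the number of vertices -/
def nvCut (I : ℕ × List (ℕ × ℕ)) : ℕ := (I.2.flatMap (fun e => [e.1, e.2])).toFinset.card

theorem length_ends (E : List (ℕ × ℕ)) : (E.flatMap (fun e => [e.1, e.2])).length =
    2 * E.length := by
  induction E with
  | nil => rfl
  | cons e E ih =>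
    rw [List.flatMap_cons, List.length_append, ih, List.length_cons]
    simp only [List.length_cons, List.length_nil]
    omega

theorem lt_frac_iff {p q c t : ℕ} (hq : 0 < q) :
    ((c : ℕ) : ℚ) < (1 - (p : ℚ) / (q : ℕ)) * (t : ℚ) ↔ q * c + p * t < q * t := by
  have hq' : (0 : ℚ) < q := by exact_mod_cast hq
  have h3 : (q : ℚ) * ((1 - (p : ℚ) / (q : ℕ)) * (t : ℚ)) = q * t - p * t := by
    field_simp
  constructor
  · intro h
    have h2 := mul_lt_mul_of_pos_left h hq'
    rw [h3, lt_sub_iff_add_lt] at h2
    exact_mod_cast h2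
  · intro h
    have h2 : (q : ℚ) * c + p * t < q * t := by exact_mod_cast h
    rw [← lt_sub_iff_add_lt, ← h3] at h2
    exact lt_of_mul_lt_mul_left h2 hq'.le

theorem cut_fwd {p q b : ℕ} (hp : 0 < p) (hq : 0 < q) (hb : 0 < b)
    (hsep : GSep enCut VCut YCut (NCut ((p : ℚ) / (93 * q : ℕ))) nvCut (212 * b)) :
    GSep encF V3 Y3 (N3 ((p : ℚ) / (q : ℕ))) List.length b := by
  have hh : PTime (fun x => mydiv (parse x).length b) :=
    mydiv_ptime (PTime.length parse_ptime) (PTime.const b)
  refine transfer cutF_ptime hh (fun F _ => length_le_encF F) ?_ hsep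
  rintro F ⟨hne, h3, h0, hocc⟩
  have hlen : (parse (encF F)).length = F.length := by
    rw [parse_encF]
    unfold binF
    rw [List.length_map]
  have hm : 0 < F.length := List.length_pos_iff.2 hne
  refine ⟨(92 * F.length, redC F), ⟨fun e he => redC_loop he, redC_simple F,
    redC_deg h3 hocc⟩, (cutF_enc F).symm, cut_yes h3, ?_, ?_, ?_⟩
  · intro hN a
    simp only
    obtain ⟨α, hα⟩ := cut_no F a
    have h1 := hN α
    rw [frac_iff hq] at h1
    rw [lt_frac_iff (by positivity)]
    have h2 : q * (redC F).countP (cutE a) + q * F.countP (falsB α) ≤ q * (92 * F.length) := by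
      rw [← Nat.mul_add]
      exact Nat.mul_le_mul_left _ hα
    have h4 : 0 < p * F.length := Nat.mul_pos hp hm
    have e1 : 93 * q * (redC F).countP (cutE a) = 93 * (q * (redC F).countP (cutE a)) := by ring
    have e2 : p * (92 * F.length) = 92 * (p * F.length) := by ring
    have e3 : 93 * q * (92 * F.length) = 93 * (q * (92 * F.length)) := by ring
    rw [e1, e2, e3]
    omega
  · rw [hlen, mydiv_eq hb]
    have h1 : nvCut (92 * F.length, redC F) ≤ 212 * F.length := by
      unfold nvCut
      refine (List.toFinset_card_le _).trans ?_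
      simp only
      rw [length_ends, redC_length]
      omega
    have h2 := Nat.div_le_div_right (c := 212 * b) h1
    rwa [Nat.mul_div_mul_left _ _ (by norm_num)] at h2
  · rw [hlen, mydiv_eq hb]

/-- the payoff of the maximum cut problem -/
def phiX : (i : Fin 1) → (Fin 2 → Fin 2) → ℕ := fun _ x => if x 0 ≠ x 1 then 1 else 0

/-- an edge as a constraint -/
def conE (e : ℕ × ℕ) : Con (fun _ : Fin 1 => 2) := ⟨0, ![e.1, e.2]⟩

theorem wordC_conE (e : ℕ × ℕ) : wordC (conE e) = [] :: wordE e := by
  unfold wordC conE wordE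
  simp

theorem valC_conE (a : ℕ → Fin 2) (E : List (ℕ × ℕ)) :
    valC (ar := fun _ : Fin 1 => 2) phiX a (E.map conE) =
      E.countP (cutE (fun v => decide (a v = 1))) := by
  unfold valC
  induction E with
  | nil => rfl
  | cons e E ih =>
    rw [List.map_cons, List.map_cons, List.sum_cons, ih, List.countP_cons, Nat.add_comm]
    congr 1
    have key : ∀ x y : Fin 2, (if x ≠ y then 1 else 0) =
        (if xor (decide (x = 1)) (decide (y = 1)) = true then 1 else 0) := by decide
    exact key (a e.1) (a e.2)

theorem edges_le {I : ℕ × List (ℕ × ℕ)} (h : VCut I) : I.2.length ≤ 2 * nvCut I := by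
  have h1 := length_ends I.2
  have h2 : (I.2.flatMap (fun e => [e.1, e.2])).length ≤ 3 * nvCut I := by
    unfold nvCut
    rw [← List.sum_toFinset_count_eq_length, Nat.mul_comm, ← smul_eq_mul]
    exact Finset.sum_le_card_nsmul _ _ _ fun v _ => h.2.2 v
  omega

theorem cut_of_max {ε : ℚ} {b : ℕ} (hb : 0 < b)
    (hs : GSep (enM (ar := fun _ : Fin 1 => 2)) (fun _ => True) (YM phiX) (NM phiX ε)
      (fun I => I.2.length) (2 * b)) : GSep enCut VCut YCut (NCut ε) nvCut b := by
  have hf : PTime (fun x => encW ((parseW x).headD [] ::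
      (parseW x).tail.map (fun c => [] :: c))) := by
    refine encW_ptime (PTime.cons (PTime.headD parseW_ptime (PTime.const [])) ?_)
    exact PTime.map (f := fun (_ : List Bool) (c : List (List Bool)) => [] :: c)
      (PTime.tail parseW_ptime) (PTime.cons (PTime.const []) PTime.snd)
  have hh : PTime (fun x => mydiv (parseW x).tail.length (2 * b)) :=
    mydiv_ptime (PTime.length (PTime.tail parseW_ptime)) (PTime.const (2 * b))
  refine transfer hf hh ?_ ?_ hs
  · intro I _
    unfold enCut nvCut
    refine (List.toFinset_card_le _).trans ?_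
    rw [length_ends]
    refine le_trans ?_ (encW_length _)
    have h1 : ∀ E : List (ℕ × ℕ), ((E.map wordE).map List.length).sum = 2 * E.length := by
      intro E
      induction E with
      | nil => rfl
      | cons e E ih =>
        rw [List.map_cons, List.map_cons, List.sum_cons, ih]
        unfold wordE
        simp only [List.length_cons, List.length_nil]
        omega
    rw [List.map_cons, List.sum_cons, h1]
    omega
  · rintro ⟨t, E⟩ hV
    have hx : parseW (enCut (t, E)) = [List.replicate t true] :: E.map wordE := by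
      unfold enCut
      rw [parseW_encW]
    have hl : mydiv (parseW (enCut (t, E))).tail.length (2 * b) = E.length / (2 * b) := by
      rw [hx, List.tail_cons, List.length_map, mydiv_eq (by omega)]
    simp only [hl]
    refine ⟨(t, E.map conE), trivial, ?_, ?_, ?_, ?_, ?_⟩
    · rw [hx]
      unfold enM
      simp only [List.headD_cons, List.tail_cons, List.map_map]
      congr 2
    · rintro ⟨a, ha⟩
      refine ⟨fun v => if a v = true then 1 else 0, ?_⟩
      simp only at ha ⊢
      rw [valC_conE]
      have : (fun v => decide ((if a v = true then (1 : Fin 2) else 0) = 1)) = a := by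
        funext v
        rcases a v with _ | _ <;> simp
      rw [this]
      exact ha
    · intro hN a
      simp only
      rw [valC_conE]
      exact hN _
    · simp only [List.length_map]
      exact le_rfl
    · have h1 := edges_le hV
      have h2 := Nat.div_le_div_right (c := 2 * b) h1
      rw [Nat.mul_div_mul_left _ _ (by norm_num)] at h2
      exact h2

theorem cut_rev (H : ∀ k p q b : ℕ, 3 ≤ k → 0 < p → p < q → 0 < b →
      SepK k (fun _ => True) ((p : ℚ) / (q : ℕ)) b) {p q b : ℕ} (hp : 0 < p) (hpq : p < q)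
    (hb : 0 < b) : GSep enCut VCut YCut (NCut ((p : ℚ) / (q : ℕ))) nvCut b :=
  cut_of_max hb (max_rev (ar := fun _ : Fin 1 => 2) phiX (by norm_num) H hp hpq
    (show 0 < 2 * b by omega))

/-- The equivalence for the maximum cut problem. -/
theorem cut_main : GapETH ↔ ∃ ε : ℚ, 0 < ε ∧ ε < 1 ∧ ∃ b : ℕ, 0 < b ∧
    ¬ GSep enCut VCut YCut (NCut ε) nvCut b := by
  constructor
  · intro h
    obtain ⟨p, q, b, hp, hpq, hb, h⟩ := sparse_of h
    refine ⟨(p : ℚ) / (93 * q : ℕ), ?_, ?_, 212 * b, by omega,
      fun hs => h (cut_fwd hp (by omega) hb hs)⟩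
    · have h1 : (0 : ℚ) < p := by exact_mod_cast hp
      have h2 : (0 : ℚ) < (93 * q : ℕ) := by
        have : 0 < 93 * q := by omega
        exact_mod_cast this
      positivity
    · have h2 : (0 : ℚ) < (93 * q : ℕ) := by
        have : 0 < 93 * q := by omega
        exact_mod_cast this
      rw [div_lt_one h2]
      have : p < 93 * q := by omega
      exact_mod_cast this
  · rintro ⟨ε, h0, h1, b, hb, h⟩
    by_contra hnA
    refine h ?_
    have hp : 0 < ε.num.toNat := by
      have := Rat.num_pos.2 h0
      omega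
    have hpq : ((ε.num.toNat : ℕ) : ℚ) / ((ε.den : ℕ) : ℚ) = ε := by
      have h2 : ((ε.num.toNat : ℕ) : ℤ) = ε.num := Int.toNat_of_nonneg (Rat.num_pos.2 h0).le
      have h3 : ((ε.num.toNat : ℕ) : ℚ) = (ε.num : ℚ) := by exact_mod_cast h2
      rw [h3, Rat.num_div_den]
    have hlt : ε.num.toNat < ε.den := by
      have hq' : (0 : ℚ) < ((ε.den : ℕ) : ℚ) := by exact_mod_cast ε.den_pos
      rw [← hpq, div_lt_one hq'] at h1
      exact_mod_cast h1
    have := cut_rev (sepK_of_not hnA) hp hlt hb
    rw [hpq] at this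
    exact this

end Pool.Agent.Lib.MP_87d05f_lc
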