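import Mathlib
import Pool.Agent.Lib.MP_87d05f_lc.BlockStep
import Pool.Agent.Lib.MP_87d05f_lc.CutMain

set_option autoImplicit false

/-!
# Block search: near-optimal assignments from separators
-/

namespace Pool.Agent.Lib.MP_87d05f_lc

open Pool.Agent.PolyTime Function Turing

section main

variable {g d : ℕ} {ar : Fin g → ℕ}

/-- the values of all places of an instance, in unary -/
def outW (F : List (Con ar)) (α : ℕ → Fin d) : List Bool :=
  F.flatMap (fun c => (List.ofFn c.2).flatMap (fun v =>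
    List.replicate (α v : ℕ) true ++ [false]))

theorem exists_opt (φ : (i : Fin g) → (Fin (ar i) → Fin d) → ℕ) (hd : 0 < d) {Φ : ℕ}
    (hΦ : ∀ i x, φ i x ≤ Φ) (F : List (Con ar)) :
    ∃ O, (∀ a, valC φ a F ≤ O) ∧ ∃ a, valC φ a F = O := by
  classical
  have hex : ∃ k, ∀ a : ℕ → Fin d, valC φ a F ≤ k := ⟨Φ * F.length, fun a => valC_le φ hΦ a F⟩
  refine ⟨Nat.find hex, Nat.find_spec hex, ?_⟩
  by_contra hno
  have h1 := Nat.find_spec hex
  have h2 : ∀ a : ℕ → Fin d, valC φ a F < Nat.find hex := fun a =>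
    lt_of_le_of_ne (h1 a) (fun h => hno ⟨a, h⟩)
  have h3 := h2 (fun _ => ⟨0, hd⟩)
  have h4 : Nat.find hex ≤ Nat.find hex - 1 := Nat.find_min' hex (fun a => by
    have := h2 a
    omega)
  omega

theorem lkp_ne_zero {ρ : List (List Bool × ℕ)} {w : List Bool} (h : w ∈ ρ.map Prod.fst) :
    lkp ρ w ≠ 0 := by
  obtain ⟨e, he, rfl⟩ := List.mem_map.1 h
  rcases hf : ρ.find? (fun e' => decide (e'.1 = e.1)) with _ | e'
  · rw [List.find?_eq_none] at hf
    have := hf e he
    simp at this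
  · rw [lkp_some hf]
    omega

theorem ovr_val (hd : 0 < d) {ρ : List (List Bool × ℕ)} (hv : ∀ e ∈ ρ, e.2 < d)
    (a : ℕ → Fin d) {v : ℕ} (h : lkp ρ (Nat.bits v) ≠ 0) :
    ((ovr hd ρ a v : Fin d) : ℕ) = lkp ρ (Nat.bits v) - 1 := by
  have h1 := lkp_le hv (Nat.bits v)
  unfold ovr paR
  rw [if_neg h, Option.getD_some]
  unfold fdN
  rw [dif_pos (by omega)]

theorem mem_vsB {F : List (Con ar)} {c : Con ar} (hc : c ∈ F) {v : ℕ}
    (hv : v ∈ List.ofFn c.2) : Nat.bits v ∈ vsB (F.map wordC) := by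
  unfold vsB
  rw [mem_ded, vars_wordC]
  exact List.mem_map_of_mem (List.mem_flatMap.2 ⟨c, hc, hv⟩)

theorem vsB_length (F : List (Con ar)) :
    (vsB (F.map wordC)).length ≤ (∑ i : Fin g, ar i) * F.length := by
  unfold vsB
  rw [ded_length]
  refine (List.toFinset_card_le _).trans ?_
  rw [vars_wordC, List.length_map, List.length_flatMap]
  calc (F.map (fun c => (List.ofFn c.2).length)).sum ≤ (F.map (fun _ => ∑ i, ar i)).sum := by
        refine List.sum_le_sum fun c _ => ?_
        rw [List.length_ofFn]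
        exact Finset.single_le_sum (f := fun i : Fin g => ar i)
          (fun _ _ => Nat.zero_le _) (Finset.mem_univ c.1)
    _ = _ := by
        rw [List.map_const', List.sum_replicate, smul_eq_mul, Nat.mul_comm]

theorem invB_out {φ : (i : Fin g) → (Fin (ar i) → Fin d) → ℕ} {hd : 0 < d}
    {F : List (Con ar)} {r Φ p q O : ℕ} (hr : 0 < r) {st : StB}
    (h : InvB φ hd F r Φ p q O st) (hj : dnB r st = true) :
    ∃ α : ℕ → Fin d, outB st = outW F α ∧ q * O ≤ q * valC φ α F + r * (p * O) := by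
  obtain ⟨⟨G, ρ⟩, ⟨⟨j, t⟩, s⟩⟩ := st
  obtain ⟨hG, hρ, hv, hs, hj', ht, hup, hrej, ⟨a, ha⟩⟩ := h
  simp only at hG hρ hv hs hj' ht hup hrej ha
  unfold dnB at hj
  rw [decide_eq_true_eq] at hj
  simp only at hj
  obtain rfl : j = r := le_antisymm hj' hj
  subst hG
  have hall : ρ.map Prod.fst = vsB (F.map wordC) := by
    rw [hρ]
    refine List.take_of_length_le ?_
    unfold nqB
    rw [mydiv_eq hr]
    exact (Nat.lt_mul_div_succ _ hr).le
  refine ⟨ovr hd ρ a, ?_, ha⟩
  unfold outB outW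
  simp only
  rw [List.flatMap_map]
  refine List.flatMap_congr fun c hc => ?_
  unfold wordC
  rw [List.tail_cons, List.flatMap_map]
  refine List.flatMap_congr fun v hv' => ?_
  have h1 : lkp ρ (Nat.bits v) ≠ 0 := lkp_ne_zero (by rw [hall]; exact mem_vsB hc hv')
  rw [ovr_val hd hv a h1]

theorem invB_init {φ : (i : Fin g) → (Fin (ar i) → Fin d) → ℕ} {hd : 0 < d}
    {F : List (Con ar)} {r Φ p q O : ℕ} (hΦ : ∀ i x, φ i x ≤ Φ)
    (hO : ∃ a, valC φ a F = O) :
    InvB φ hd F r Φ p q O (initB (d - 1) r Φ (encW (F.map wordC))) := by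
  unfold initB
  rw [parseW_encW]
  obtain ⟨a, ha⟩ := hO
  have hov : ∀ a : ℕ → Fin d, ovr hd [] a = a := by
    intro a
    funext v
    rfl
  refine ⟨rfl, ?_, ?_, ?_, Nat.zero_le _, ?_, ?_, ?_, ⟨a, ?_⟩⟩
  · simp
  · intro e he
    simp at he
  · simp only
    rw [List.length_replicate]
  · simp only
    rw [List.length_map]
  · intro a
    simp only
    rw [hov, List.length_map]
    exact valC_le φ hΦ a F
  · intro s' hs' hlt
    simp only at hlt
    have h1 := rkS_zeros ((d - 1) * nqB r (F.map wordC))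
    have h2 := rkS_lt s'
    rw [hs'] at h2
    omega
  · simp only
    rw [hov, ha]
    omega

/-- The search theorem: near-optimal assignments. -/
theorem search_main (φ : (i : Fin g) → (Fin (ar i) → Fin d) → ℕ) (hd : 0 < d)
    (H : ∀ k p q b : ℕ, 3 ≤ k → 0 < p → p < q → 0 < b →
      SepK k (fun _ => True) ((p : ℚ) / (q : ℕ)) b) {p q b : ℕ} (hp : 0 < p) (hpq : p < q)
    (hb : 0 < b) :
    ∃ C e : ℕ, ∃ (tm : FinTM2) (e₀ : tm.Γ tm.k₀ ≃ Bool) (e₁ : tm.Γ tm.k₁ ≃ Bool),
      ∀ F : List (Con ar), ∃ α : ℕ → Fin d, (∀ a, q * valC φ a F ≤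
        q * valC φ α F + p * valC φ a F) ∧
        Nonempty (TM2OutputsInTime tm ((codeC F).map e₀.symm)
          (some ((outW F α).map e₁.symm))
          (C * ((codeC F).length + 1) ^ e * 2 ^ (F.length / b))) := by
  -- parameters
  obtain ⟨Φ, hΦ⟩ : ∃ Φ, ∀ i x, φ i x ≤ Φ := by
    refine ⟨∑ i : Fin g, ∑ x : Fin (ar i) → Fin d, φ i x, fun i x => ?_⟩
    have h1 := Finset.single_le_sum (f := fun i : Fin g => ∑ x : Fin (ar i) → Fin d, φ i x)
      (fun _ _ => Nat.zero_le _) (Finset.mem_univ i)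
    have h2 := Finset.single_le_sum (f := fun x : Fin (ar i) → Fin d => φ i x)
      (fun _ _ => Nat.zero_le _) (Finset.mem_univ x)
    exact le_trans h2 h1
  obtain ⟨A, hA⟩ : ∃ A, A = ∑ i : Fin g, ar i := ⟨_, rfl⟩
  have hAi : ∀ i, ar i ≤ A := by
    intro i
    rw [hA]
    exact Finset.single_le_sum (f := fun i : Fin g => ar i)
      (fun _ _ => Nat.zero_le _) (Finset.mem_univ i)
  obtain ⟨r, hr⟩ : ∃ r, r = (d * (A + 1)) * (4 * b) := ⟨_, rfl⟩
  have hrpos : 0 < r := by rw [hr]; positivity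
  have hqr : p < q * r := lt_of_lt_of_le hpq (Nat.le_mul_of_pos_right q hrpos)
  obtain ⟨C, e, tm, e₀, acc, rej, hne, hS⟩ := max_rev (phiP φ hAi) hd H hp hqr
    (show 0 < 4 * b by omega)
  obtain ⟨tab, htab⟩ : ∃ tab, tab = tabX g d A := ⟨_, rfl⟩
  obtain ⟨tm', e₀', e₁', P, κ, hM⟩ := oracle_machine_out tm e₀ acc
    (initB_ptime (d - 1) r Φ) (queryB_ptime tab A (d - 1) r C e (4 * b))
    (nextB_ptime (d - 1) r) (dnB_ptime r) outB_ptime
  obtain ⟨Pp, hPp⟩ := parseW_ptime.sz_le
  obtain ⟨Pf, hPf⟩ := (fmlB_ptime tab A (d - 1) r).sz_le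
  -- bounds
  obtain ⟨fG, hfG⟩ : ∃ f : ℕ → ℕ, f = fun L => Pp.eval (4 * L + 1) := ⟨_, rfl⟩
  obtain ⟨fB, hfB⟩ : ∃ f : ℕ → ℕ, f = fun L => fG L + (A * L) * (fG L + 2 * d + 3) +
    2 * Φ * L + 4 * ((d - 1) * (A * L + 1)) + 2 * r + 10 := ⟨_, rfl⟩
  obtain ⟨fQ, hfQ⟩ : ∃ f : ℕ → ℕ, f = fun L => Pf.eval (fB L) := ⟨_, rfl⟩
  obtain ⟨fR, hfR⟩ : ∃ f : ℕ → ℕ, f = fun L => (fQ L + 1) +
    (C * (fQ L + 1) ^ e + 1) * (L + 1) := ⟨_, rfl⟩
  obtain ⟨fT, hfT⟩ : ∃ f : ℕ → ℕ, f = fun L => P.eval L +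
    (r + Φ * L + 1) * 2 ^ (d - 1) * (P.eval (fB L) + κ * fR L) := ⟨_, rfl⟩
  have pG : PolyB fG := by
    rw [hfG]
    exact PolyB.eval Pp (((PolyB.const 4).mul PolyB.id).add (PolyB.const 1))
  have pB : PolyB fB := by
    rw [hfB]
    exact ((((pG.add (((PolyB.const A).mul PolyB.id).mul ((pG.add (PolyB.const (2 * d))).add
      (PolyB.const 3)))).add ((PolyB.const (2 * Φ)).mul PolyB.id)).add ((PolyB.const 4).mul
        ((PolyB.const (d - 1)).mul (((PolyB.const A).mul PolyB.id).add (PolyB.const 1))))).add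
          (PolyB.const (2 * r))).add (PolyB.const 10)
  have pQ : PolyB fQ := by
    rw [hfQ]
    exact PolyB.eval Pf pB
  have pR : PolyB fR := by
    rw [hfR]
    exact (pQ.add (PolyB.const 1)).add ((((PolyB.const C).mul
      ((pQ.add (PolyB.const 1)).pow e)).add (PolyB.const 1)).mul
        (PolyB.id.add (PolyB.const 1)))
  have pT : PolyB fT := by
    rw [hfT]
    exact (PolyB.eval P PolyB.id).add (((((PolyB.const r).add ((PolyB.const Φ).mul
      PolyB.id)).add (PolyB.const 1)).mul (PolyB.const _)).mul ((PolyB.eval P pB).add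
        ((PolyB.const κ).mul pR)))
  obtain ⟨C', e', hC'⟩ := pT
  refine ⟨C', e', tm', e₀', e₁', fun F => ?_⟩
  obtain ⟨O, hO, hOa⟩ := exists_opt φ hd hΦ F
  obtain ⟨x, hx⟩ : ∃ x, x = encW (F.map wordC) := ⟨_, rfl⟩
  obtain ⟨L, hL⟩ : ∃ L, L = x.length := ⟨_, rfl⟩
  obtain ⟨m, hm⟩ : ∃ m, m = F.length := ⟨_, rfl⟩
  have hmL : m ≤ L := by
    rw [hm, hL, hx]
    refine le_trans ?_ (encW_length _)
    rw [List.length_map]
    omega
  obtain ⟨n, hn⟩ : ∃ n, n = nqB r (F.map wordC) := ⟨_, rfl⟩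
  have hnv := vsB_length F
  rw [← hA, ← hm] at hnv
  have hn' : n = (vsB (F.map wordC)).length / r + 1 := by
    rw [hn]
    unfold nqB
    rw [mydiv_eq hrpos]
  have hnL : n ≤ A * L + 1 := by
    rw [hn']
    have h1 := Nat.div_le_self (vsB (F.map wordC)).length r
    have h2 := Nat.mul_le_mul_left A hmL
    omega
  -- the exponents
  have hexp : (d - 1) * n + m / (4 * b) ≤ (d - 1) + m / b := by
    have h1 : (d - 1) * ((vsB (F.map wordC)).length / r) ≤ m / (4 * b) := by
      calc (d - 1) * ((vsB (F.map wordC)).length / r)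
          ≤ ((d - 1) * (vsB (F.map wordC)).length) / r := Nat.mul_div_le_mul_div_assoc _ _ _
        _ ≤ ((d * (A + 1)) * m) / r := by
            refine Nat.div_le_div_right ?_
            rw [Nat.mul_assoc]
            refine Nat.mul_le_mul (by omega) (hnv.trans (Nat.mul_le_mul_right _ (by omega)))
        _ = m / (4 * b) := by
            rw [hr]
            exact Nat.mul_div_mul_left _ _ (by positivity)
    have h2 : m / (4 * b) = m / b / 4 := by
      rw [Nat.mul_comm, Nat.div_div_eq_div_mul]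
    rw [hn', Nat.mul_add, Nat.mul_one]
    omega
  -- the step of the machine
  obtain ⟨step, hstep⟩ : ∃ step : StB → StB, step = fun s =>
    nextB (d - 1) r (ansT tm e₀ acc (queryB tab A (d - 1) r C e (4 * b) s)) s := ⟨_, rfl⟩
  have hfml : ∀ st : StB, InvB φ hd F r Φ p (q * r) O st → fmlB tab A (d - 1) r st =
      enM (st.2.1.2, F.map (rcC A (paR hd (rhoB (d - 1) r st)))) := by
    intro st hst
    unfold fmlB enM
    rw [hst.hG, List.map_map, List.map_map]
    refine congrArg encW (congrArg (List.cons _) (List.map_congr_left fun c _ => ?_))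
    simp only [Function.comp]
    rw [htab]
    refine rcW_wordC hd ?_ c (hAi c.1)
    intro e' he'
    unfold rhoB at he'
    rcases List.mem_append.1 he' with h | h
    · exact hst.hv e' h
    · have := blkB_val e' h
      omega
  have hlenG : ∀ st : StB, InvB φ hd F r Φ p (q * r) O st →
      mydiv st.1.1.length (4 * b) = m / (4 * b) := by
    intro st hst
    rw [hst.hG, List.length_map, ← hm, mydiv_eq (by omega)]
  have hans : ∀ st : StB, InvB φ hd F r Φ p (q * r) O st →
      ((∃ a, st.2.1.2 ≤ valC φ (ovr hd (rhoB (d - 1) r st) a) F) →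
        ansT tm e₀ acc (queryB tab A (d - 1) r C e (4 * b) st) = true) ∧
      ((∀ a, q * r * valC φ (ovr hd (rhoB (d - 1) r st) a) F + p * st.2.1.2 <
        q * r * st.2.1.2) →
        ansT tm e₀ acc (queryB tab A (d - 1) r C e (4 * b) st) = false) := by
    intro st hst
    unfold queryB
    rw [hfml st hst, hlenG st hst]
    have h1 := hS (st.2.1.2, F.map (rcC A (paR hd (rhoB (d - 1) r st)))) trivial
    simp only [List.length_map, ← hm] at h1
    constructor
    · rintro ⟨a, ha⟩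
      have h2 : YM (phiP φ hAi) (st.2.1.2, F.map (rcC A (paR hd (rhoB (d - 1) r st)))) := by
        refine ⟨a, ?_⟩
        simp only
        rw [valC_rcC]
        exact ha
      exact (ansT_of_outputs tm e₀ acc acc _ (h1.1 h2)).2 rfl
    · intro hno
      have h2 : NM (phiP φ hAi) ((p : ℚ) / ((q * r : ℕ) : ℚ))
          (st.2.1.2, F.map (rcC A (paR hd (rhoB (d - 1) r st)))) := by
        intro a
        simp only
        rw [valC_rcC, lt_frac_iff (by omega)]
        exact hno a
      rw [← Bool.not_eq_true]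
      intro h3
      exact hne ((ansT_of_outputs tm e₀ acc rej _ (h1.2 h2)).1 h3).symm
  have hinv : ∀ st : StB, InvB φ hd F r Φ p (q * r) O st → dnB r st = false →
      InvB φ hd F r Φ p (q * r) O (step st) ∧
      rankB r ((d - 1) * n) (step st) < rankB r ((d - 1) * n) st := by
    intro st hst hdn
    rw [hstep, hn]
    unfold dnB at hdn
    rw [decide_eq_false_iff_not] at hdn
    exact invB_step hO hqr.le hst (not_le.1 hdn) _ (hans st hst).1 (hans st hst).2
  have hinit : InvB φ hd F r Φ p (q * r) O (initB (d - 1) r Φ x) := by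
    rw [hx]
    exact invB_init hΦ hOa
  obtain ⟨N, hN, hNinv, hNf, hNt⟩ := iter_rank step (InvB φ hd F r Φ p (q * r) O) (dnB r)
    (rankB r ((d - 1) * n)) hinv _ _ hinit le_rfl
  have hNpos : 1 ≤ N := by
    rcases N with _ | N
    · exfalso
      have h1 : dnB r (initB (d - 1) r Φ x) = false := by
        unfold dnB initB
        rw [decide_eq_false_iff_not]
        simp only
        omega
      rw [iterate_zero, id] at hNt
      rw [h1] at hNt
      simp at hNt
    · omega
  have hNle : N ≤ (r + Φ * L + 1) * 2 ^ ((d - 1) * n) := by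
    refine hN.trans ?_
    unfold rankB
    have h1 := rkS_lt (initB (d - 1) r Φ x).2.2
    rw [hinit.hs, ← hn] at h1
    have h2 : (initB (d - 1) r Φ x).2.1.1 = 0 := rfl
    have h3 := hinit.ht
    rw [← hm] at h3
    have h4 := Nat.mul_le_mul_left Φ hmL
    rw [h2, Nat.sub_zero]
    calc (r + (initB (d - 1) r Φ x).2.1.2) * 2 ^ ((d - 1) * n) +
          rkS (initB (d - 1) r Φ x).2.2
        ≤ (r + (initB (d - 1) r Φ x).2.1.2) * 2 ^ ((d - 1) * n) +
          2 ^ ((d - 1) * n) := by omega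
      _ = (r + (initB (d - 1) r Φ x).2.1.2 + 1) * 2 ^ ((d - 1) * n) := by ring
      _ ≤ _ := Nat.mul_le_mul_right _ (by omega)
  -- sizes
  have hszG : ∀ st : StB, InvB φ hd F r Φ p (q * r) O st → sz st.1.1 ≤ fG L := by
    intro st hst
    have h1 : sz (F.map wordC) ≤ Pp.eval (sz x) := by
      have h2 := hPp x
      have h3 : parseW x = F.map wordC := by rw [hx, parseW_encW]
      rwa [h3] at h2
    rw [hst.hG]
    refine h1.trans ?_
    rw [hfG]
    refine eval_mono Pp ?_
    rw [hL]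
    exact sz_listBool_le x
  have hsz : ∀ st : StB, InvB φ hd F r Φ p (q * r) O st → sz st ≤ fB L := by
    intro st hst
    have h1 := hszG st hst
    have h2 : sz st.1.2 ≤ (A * L) * (fG L + 2 * d + 3) + 1 := by
      have h3 : ∀ e' ∈ st.1.2, sz e' ≤ fG L + 2 * d + 2 := by
        rintro ⟨w, y⟩ he'
        have h4 := hst.hv _ he'
        simp only at h4
        have h5 : w ∈ st.1.2.map Prod.fst := List.mem_map.2 ⟨_, he', rfl⟩
        rw [hst.hρ] at h5
        have h6 := List.mem_of_mem_take h5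
        unfold vsB at h6
        rw [mem_ded] at h6
        obtain ⟨c, hc, hw⟩ := List.mem_flatMap.1 h6
        rw [← hst.hG] at hc
        have h7 := sz_le_of_mem hc
        have h8 := sz_le_of_mem hw
        have h9 : sz c.tail ≤ sz c := by
          rw [← List.drop_one]
          exact sz_drop_le _ _
        rw [sz_pair, sz_nat]
        omega
      refine (sz_list_le _ _ h3).trans ?_
      have h4 : st.1.2.length ≤ A * L := by
        have h5 : st.1.2.length = (st.1.2.map Prod.fst).length := by rw [List.length_map]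
        rw [h5, hst.hρ, List.length_take]
        have h6 := Nat.mul_le_mul_left A hmL
        omega
      have h5 := Nat.mul_le_mul_right (fG L + 2 * d + 2 + 1) h4
      have h6 : fG L + 2 * d + 2 + 1 = fG L + 2 * d + 3 := by omega
      rw [h6] at h5 ⊢
      omega
    have h3 := hst.hj
    have h4 := hst.ht
    rw [← hm] at h4
    have h5 := Nat.mul_le_mul_left Φ hmL
    have h6 := sz_listBool_le st.2.2
    rw [hst.hs, ← hn] at h6
    have h7 := Nat.mul_le_mul_left (d - 1) hnL
    obtain ⟨⟨G, ρ⟩, ⟨⟨j, t⟩, s⟩⟩ := st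
    simp only at h1 h2 h3 h4 h6
    rw [sz_pair, sz_pair, sz_pair, sz_pair, sz_nat, sz_nat, hfB]
    have e1 : 2 * Φ * L = 2 * (Φ * L) := Nat.mul_assoc _ _ _
    simp only
    rw [e1]
    omega
  have hh : m / (4 * b) ≤ L := (Nat.div_le_self _ _).trans hmL
  have hqc : ∀ st : StB, InvB φ hd F r Φ p (q * r) O st →
      qcost (queryB tab A (d - 1) r C e (4 * b) st) ≤ fR L * 2 ^ (m / (4 * b)) := by
    intro st hst
    have hyl : (fmlB tab A (d - 1) r st).length ≤ fQ L := by
      have e1 := length_le_sz (fmlB tab A (d - 1) r st)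
      have e2 := hPf st
      have e3 := eval_mono Pf (hsz st hst)
      rw [hfQ]
      simp only
      omega
    unfold queryB qcost
    rw [hlenG st hst]
    simp only
    rw [hfR]
    change (fmlB tab A (d - 1) r st).length + 1 +
      (C * ((fmlB tab A (d - 1) r st).length + 1) ^ e + 1) *
        (2 ^ (m / (4 * b)) * (m / (4 * b) + 1)) ≤
      ((fQ L + 1) + (C * (fQ L + 1) ^ e + 1) * (L + 1)) * 2 ^ (m / (4 * b))
    have g5 : C * ((fmlB tab A (d - 1) r st).length + 1) ^ e + 1 ≤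
        C * (fQ L + 1) ^ e + 1 :=
      Nat.add_le_add_right (Nat.mul_le_mul_left _ (Nat.pow_le_pow_left (by omega) _)) 1
    have g7 : 2 ^ (m / (4 * b)) * (m / (4 * b) + 1) ≤ 2 ^ (m / (4 * b)) * (L + 1) :=
      Nat.mul_le_mul_left _ (by omega)
    have g8 := Nat.mul_le_mul g5 g7
    have g9 : (fQ L + 1) * 1 ≤ (fQ L + 1) * 2 ^ (m / (4 * b)) :=
      Nat.mul_le_mul_left _ Nat.one_le_two_pow
    have g10 : ((fQ L + 1) + (C * (fQ L + 1) ^ e + 1) * (L + 1)) * 2 ^ (m / (4 * b)) =
        (fQ L + 1) * 2 ^ (m / (4 * b)) +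
          (C * (fQ L + 1) ^ e + 1) * (2 ^ (m / (4 * b)) * (L + 1)) := by ring
    rw [g10]
    omega
  -- the run
  obtain ⟨α, hα, hαO⟩ := invB_out hrpos (hNinv N le_rfl) hNt
  refine ⟨α, ?_, ?_⟩
  · intro a
    have h1 := hO a
    have h2 : q * O ≤ q * valC φ α F + p * O := by
      have e1 : q * r * O = r * (q * O) := by ring
      have e2 : q * r * valC φ α F + r * (p * O) = r * (q * valC φ α F + p * O) := by ring
      rw [e1, e2] at hαO
      exact Nat.le_of_mul_le_mul_left hαO hrpos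
    obtain ⟨c, rfl⟩ : ∃ c, q = p + c := ⟨q - p, by omega⟩
    rw [Nat.add_mul p c O] at h2
    have h3 : c * valC φ a F ≤ c * O := Nat.mul_le_mul_left c h1
    have h4 : (p + c) * valC φ a F = p * valC φ a F + c * valC φ a F := Nat.add_mul _ _ _
    rw [h4]
    omega
  · rw [codeC_eq, ← hx, ← hα]
    have hrun := hM x N (fB L) (fR L * 2 ^ (m / (4 * b))) hNpos ?_ ?_ ?_ ?_
      (C' * (x.length + 1) ^ e' * 2 ^ (F.length / b)) ?_
    · rw [← hstep] at hrun
      exact hrun
    · intro i hi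
      rw [← hstep]
      exact hsz _ (hNinv i hi)
    · intro i hi
      rw [← hstep]
      exact hqc _ (hNinv i hi.le)
    · intro i _ hi
      rw [← hstep]
      exact hNf i hi
    · rw [← hstep]
      exact hNt
    · rw [← hL, ← hm]
      have a1 : N * (P.eval (fB L) + κ * (fR L * 2 ^ (m / (4 * b)))) ≤
          ((r + Φ * L + 1) * 2 ^ ((d - 1) * n)) *
            ((P.eval (fB L) + κ * fR L) * 2 ^ (m / (4 * b))) := by
        refine Nat.mul_le_mul hNle ?_
        have b1 : P.eval (fB L) * 1 ≤ P.eval (fB L) * 2 ^ (m / (4 * b)) :=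
          Nat.mul_le_mul_left _ Nat.one_le_two_pow
        have b2 : (P.eval (fB L) + κ * fR L) * 2 ^ (m / (4 * b)) =
            P.eval (fB L) * 2 ^ (m / (4 * b)) + κ * (fR L * 2 ^ (m / (4 * b))) := by ring
        rw [b2]
        omega
      have a2 : 2 ^ ((d - 1) * n) * 2 ^ (m / (4 * b)) ≤ 2 ^ (d - 1) * 2 ^ (m / b) := by
        rw [← pow_add, ← pow_add]
        exact Nat.pow_le_pow_right (by norm_num) hexp
      have a3 : ((r + Φ * L + 1) * 2 ^ ((d - 1) * n)) *
            ((P.eval (fB L) + κ * fR L) * 2 ^ (m / (4 * b))) ≤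
          (r + Φ * L + 1) * 2 ^ (d - 1) * (P.eval (fB L) + κ * fR L) * 2 ^ (m / b) := by
        calc _ = ((r + Φ * L + 1) * (P.eval (fB L) + κ * fR L)) *
              (2 ^ ((d - 1) * n) * 2 ^ (m / (4 * b))) := by ring
          _ ≤ ((r + Φ * L + 1) * (P.eval (fB L) + κ * fR L)) *
              (2 ^ (d - 1) * 2 ^ (m / b)) := Nat.mul_le_mul_left _ a2
          _ = _ := by ring
      have a4 := Nat.mul_le_mul_right (2 ^ (m / b)) (hC' L)
      have a5 : fT L * 2 ^ (m / b) = P.eval L * 2 ^ (m / b) +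
          (r + Φ * L + 1) * 2 ^ (d - 1) * (P.eval (fB L) + κ * fR L) * 2 ^ (m / b) := by
        rw [hfT]
        simp only
        rw [Nat.add_mul]
      have a6 : P.eval L * 1 ≤ P.eval L * 2 ^ (m / b) :=
        Nat.mul_le_mul_left _ Nat.one_le_two_pow
      rw [a5] at a4
      omega

end main

end Pool.Agent.Lib.MP_87d05f_lc
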