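import Mathlib
import Pool.Agent.Lib.MP_87d05f_lc.OutMachine

set_option autoImplicit false

/-!
# Calling a machine as a subroutine, reading its output
-/

namespace Pool.Agent.Lib.MP_87d05f_lc

open Pool.Agent.PolyTime Function Turing

section call

variable {K : Type} [DecidableEq K]

/-! ### Copying the output -/

/-- the coded stack `k` becomes bits on `X`, reversed; the flag is on `C` -/
def cpX {γ : Type} (G : List γ) (k : K) (dc : γ → Bool) : Cmd (KK K) :=
  .loopT (.inl (.inl .C)) (readU (.inl (.inr (.inl k))) .skip (fun j =>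
    (Option.casesOn G[j]? .skip (fun s => .seq (.push (.inl (.inr (.inr .X))) (dc s))
      (.push (.inl (.inl .C)) true)))) (G.length + 1) 0)

theorem run_cpX {γ : Type} (G : List γ) (k : K) (dc : γ → Bool) (a q : List Bool)
    (ct : Ct → List Bool) (l : List γ) (hl : ∀ s ∈ l, s ∈ G) :
    ∀ (T : K → List Bool) (y : List Bool), T k = stcode G l →
    RunLe (cpX G k dc) (full (stk a [] [true] []) (Sum.elim T (axk q y)) ct)
      (full (stk a [] [] []) (Sum.elim (update T k []) (axk q ((l.map dc).reverse ++ y))) ct)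
      (l.length * (G.length + 4) + 4) := by
  induction l with
  | nil =>
    intro T y hT
    have e0 : update T k [] = T := by
      have h1 : T k = [] := hT
      rw [← h1, update_eq_self]
    rw [e0]
    refine (RunLe.loopT_true (n := 1) (n' := 1) (l := [])
      (S' := full (stk a [] [] []) (Sum.elim T (axk q y)) ct) (by rfl) ?_ ?_).mono (by simp)
    · rw [full_st, update_C]
      refine run_readU_nil _ _ _ _ _ _ _ 0 ?_ (RunLe.skip _)
      exact hT
    · exact RunLe.loopT_none (by rfl)
  | cons s l ih =>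
    intro T y hT
    have hs : s ∈ G := hl s List.mem_cons_self
    have h := ih (fun t ht => hl t (List.mem_cons_of_mem _ ht)) (update T k (stcode G l))
      (dc s :: y) (by rw [update_self])
    rw [update_idem] at h
    have e : ((s :: l).map dc).reverse ++ y = (l.map dc).reverse ++ (dc s :: y) := by simp
    rw [e]
    refine (RunLe.loopT_true (n := 2 + G.length + 1) (l := []) (by rfl) ?_ h).mono
      (by simp only [List.length_cons]; nlinarith)
    rw [full_st, update_C]
    have hi := ix_lt hs
    refine (run_readU _ _ _ (ix G s) _ _ _ _ (stcode G l) 2 (by omega) ?_ ?_).mono (by omega)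
    · change T k = _
      rw [hT]
      rfl
    · rw [Nat.zero_add, getElem?_ix hs, full_tm, Sum.update_elim_inl]
      refine RunLe.seq (n := 1) (n' := 1)
        (S' := full (stk a [] [] []) (Sum.elim (update T k (stcode G l))
          (axk q (dc s :: y))) ct) ?_ ?_
      · have h2 := RunLe.push (full (stk a [] [] [])
          (Sum.elim (update T k (stcode G l)) (axk q y)) ct) (.inl (.inr (.inr .X)) : KK K) (dc s)
        rw [full_tm, Sum.update_elim_inr, update_axX] at h2
        exact h2
      · have h2 := RunLe.push (full (stk a [] [] [])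
          (Sum.elim (update T k (stcode G l)) (axk q (dc s :: y))) ct)
          (.inl (.inl .C) : KK K) true
        rw [full_st, update_C] at h2
        exact h2

/-- the bits of `X` become the code of a list on `A` -/
def wrA : Cmd (KK K) :=
  .loopB (.inl (.inr (.inr .X))) (pushL (.inl (.inl .A)) [true, false])
    (pushL (.inl (.inl .A)) [true, true, false, false])

theorem run_wrA (r q : List Bool) (T : K → List Bool) (ct : Ct → List Bool) (y : List Bool) :
    ∀ w : List Bool,
    RunLe (wrA : Cmd (KK K)) (full (stk ((enc w).bits ++ r) [] [] []) (Sum.elim T (axk q y)) ct)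
      (full (stk ((enc (y.reverse ++ w)).bits ++ r) [] [] []) (Sum.elim T (axk q [])) ct)
      (5 * y.length + 1) := by
  induction y with
  | nil =>
    intro w
    exact RunLe.loopB_none (by rfl)
  | cons b y ih =>
    intro w
    have e : (b :: y).reverse ++ w = y.reverse ++ (b :: w) := by simp
    rw [e]
    have h := ih (b :: w)
    cases b
    · refine (RunLe.loopB_false (n := 2) (l := y) (by rfl) ?_ h).mono
        (by simp only [List.length_cons]; omega)
      rw [full_tm, Sum.update_elim_inr, update_axX]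
      have h2 := run_pushL (.inl (.inl .A) : KK K) [true, false]
        (full (stk ((enc w).bits ++ r) [] [] []) (Sum.elim T (axk q y)) ct)
      rw [full_st, update_A] at h2
      rw [bits_cons_false]
      exact h2
    · refine (RunLe.loopB_true (n := 4) (l := y) (by rfl) ?_ h).mono
        (by simp only [List.length_cons]; omega)
      rw [full_tm, Sum.update_elim_inr, update_axX]
      have h2 := run_pushL (.inl (.inl .A) : KK K) [true, true, false, false]
        (full (stk ((enc w).bits ++ r) [] [] []) (Sum.elim T (axk q y)) ct)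
      rw [full_st, update_A] at h2
      rw [bits_cons_true]
      exact h2

/-! ### The subroutine -/

variable {Γ : K → Type} {Λ σ : Type}

/-- the output word of the subroutine -/
def ansW (m : Λ → TM2.Stmt Γ Λ σ) (k₀ k₁ : K) (sy : Bool → Γ k₀) (main : Λ) (v₀ : σ)
    (dc : Γ k₁ → Bool) (x : List Bool) (T : ℕ) : List Bool :=
  (((fstep m)^[T] (cfg₀ k₀ sy main v₀ x)).stk k₁).map dc

theorem exists_callW [Fintype K] [Fintype Λ] [Fintype σ] (m : Λ → TM2.Stmt Γ Λ σ) (k₀ k₁ : K)
    [Fintype (Γ k₀)] (sy : Bool → Γ k₀) (main : Λ) (v₀ : σ) (dc : Γ k₁ → Bool) :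
    ∃ (cc : Cmd (KK K)) (κ : ℕ), ∀ (x : List Bool) (N h : ℕ) (r : List Bool),
      RunLe cc (full (stk (true :: ((enc (x, (N, h))).bits ++ r)) [] [] []) (fun _ => [])
          (ctk [] [] [] [] []))
        (full (stk (true :: ((enc (ansW m k₀ k₁ sy main v₀ dc x (N * 2 ^ h))).bits ++ r))
          [] [] []) (fun _ => []) (ctk [] [] [] [] []))
        (κ * ((x.length + 1) + (N + 1) * (2 ^ h * (h + 1)))) := by
  classical
  -- the alphabet
  obtain ⟨G, hm, hGk₀⟩ := exists_alphabet m k₀
  set CL : List (Option Λ × σ) := (Finset.univ : Finset (Option Λ × σ)).toList with hCLdef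
  have hCL : ∀ p, p ∈ CL := fun p => by rw [hCLdef]; simp
  clear_value CL
  obtain ⟨t₀, ht₀⟩ := stepC_run G CL m hm hCL
  set gK : ℕ := ∑ k, (G k).length with hgK
  have hgk : ∀ k, (G k).length ≤ gK := fun k =>
    Finset.single_le_sum (f := fun k => (G k).length) (fun _ _ => Nat.zero_le _) (Finset.mem_univ k)
  clear_value gK
  set ks : List K := (Finset.univ : Finset K).toList with hks
  have hmem : ∀ k, k ∈ ks := fun k => by rw [hks]; simp
  clear_value ks
  refine ⟨.seq (.pop (.inl (.inl .A)) .skip .skip .skip)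
    (.seq (.pop (.inl (.inl .A)) .skip .skip .skip)
    (.seq rdX (.seq (ldC G k₀ sy) (.seq (.pop (.inl (.inl .A)) .skip .skip .skip)
    (.seq (rdN .N true) (.seq (rdN .Z false)
    (.seq (pushL (.inl (.inr (.inr .Q))) (scode CL (some main, v₀)))
    (.seq (clockC (mapCmd Sum.inr (stepC G CL m)))
    (.seq (.push (.inl (.inl .C)) true)
    (.seq (cpX (G k₁) k₁ dc)
    (.seq (.push (.inl (.inl .A)) false)
    (.seq wrA
    (.seq (.push (.inl (.inl .A)) true)
    (.seq (clearL ks) (clearC (.inl (.inr (.inr .Q)))))))))))))))))),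
    60 + gK + t₀ + 2 * CL.length + (gK + 9) * (t₀ + 1) + ks.length * (gK * (t₀ + 1) + 1), ?_⟩
  intro x N h r
  set c₀ : TM2.Cfg Γ Λ σ := cfg₀ k₀ sy main v₀ x with hc₀
  set T : ℕ := N * 2 ^ h with hT
  have hgood₀ : Good G c₀.stk := by
    intro k s hs
    rw [hc₀] at hs
    change s ∈ update (fun _ => []) k₀ (x.map sy) k at hs
    by_cases hk : k = k₀
    · subst hk; exact hGk₀ s
    · rw [update_of_ne hk] at hs
      simp at hs
  obtain ⟨hgf, hlen⟩ := iterate_fstep_good (G := G) (m := m) (c := t₀)
    (fun c hc => ⟨(ht₀ c [] hc).1, (ht₀ c [] hc).2.2⟩) T c₀ hgood₀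
  -- the phases
  have E : (fun _ : K ⊕ Ax => ([] : List Bool)) = Sum.elim (fun _ => []) (axk [] []) := by
    funext k
    rcases k with k | k
    · rfl
    · cases k <;> rfl
  have p1 : RunLe (.pop (.inl (.inl .A)) .skip .skip .skip : Cmd (KK K))
      (full (stk (true :: ((enc (x, (N, h))).bits ++ r)) [] [] []) (fun _ => [])
        (ctk [] [] [] [] []))
      (full (stk ((enc (x, (N, h))).bits ++ r) [] [] []) (fun _ => []) (ctk [] [] [] [] [])) 1 := by
    have h1 := run_popT (k := (.inl (.inl .A) : KK K))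
      (S := full (stk (true :: ((enc (x, (N, h))).bits ++ r)) [] [] []) (fun _ => [])
        (ctk [] [] [] [] [])) (l := (enc (x, (N, h))).bits ++ r) true rfl
    rw [full_st, update_A] at h1
    exact h1
  have hbits : (enc (x, (N, h))).bits ++ r =
      true :: ((enc x).bits ++ (true :: ((enc N).bits ++ ((enc h).bits ++ r)))) := by
    simp [Sx.bits]
  have p2 : RunLe (.pop (.inl (.inl .A)) .skip .skip .skip : Cmd (KK K))
      (full (stk ((enc (x, (N, h))).bits ++ r) [] [] []) (fun _ => []) (ctk [] [] [] [] []))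
      (full (stk ((enc x).bits ++ (true :: ((enc N).bits ++ ((enc h).bits ++ r)))) [] [] [])
        (fun _ => []) (ctk [] [] [] [] [])) 1 := by
    have h1 := run_popT (k := (.inl (.inl .A) : KK K))
      (S := full (stk ((enc (x, (N, h))).bits ++ r) [] [] []) (fun _ => [])
        (ctk [] [] [] [] []))
      (l := (enc x).bits ++ (true :: ((enc N).bits ++ ((enc h).bits ++ r)))) true
      (by rw [hbits]; rfl)
    rw [full_st, update_A] at h1
    exact h1
  have p3 := run_rdX x (fun _ : K => []) [] (ctk [] [] [] [] [])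
    (true :: ((enc N).bits ++ ((enc h).bits ++ r))) []
  rw [← E, List.append_nil] at p3
  have p4 := run_ldC G k₀ sy (stk (true :: ((enc N).bits ++ ((enc h).bits ++ r))) [] [] []) []
    (ctk [] [] [] [] []) x.reverse (fun _ => [])
  rw [List.reverse_reverse, List.append_nil, List.length_reverse] at p4
  set T₀ : K → List Bool := update (fun _ => []) k₀ (stcode (G k₀) (x.map sy)) with hT₀
  have p5 : RunLe (.pop (.inl (.inl .A)) .skip .skip .skip : Cmd (KK K))
      (full (stk (true :: ((enc N).bits ++ ((enc h).bits ++ r))) [] [] [])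
        (Sum.elim T₀ (axk [] [])) (ctk [] [] [] [] []))
      (full (stk ((enc N).bits ++ ((enc h).bits ++ r)) [] [] [])
        (Sum.elim T₀ (axk [] [])) (ctk [] [] [] [] [])) 1 := by
    have h1 := run_popT (k := (.inl (.inl .A) : KK K))
      (S := full (stk (true :: ((enc N).bits ++ ((enc h).bits ++ r))) [] [] [])
        (Sum.elim T₀ (axk [] [])) (ctk [] [] [] [] []))
      (l := (enc N).bits ++ ((enc h).bits ++ r)) true rfl
    rw [full_st, update_A] at h1
    exact h1
  have p6 := run_rdN .N true N (Sum.elim T₀ (axk [] [])) ((enc h).bits ++ r)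
    (ctk [] [] [] [] [])
  rw [ctk_N, List.append_nil, update_ctN] at p6
  have p7 := run_rdN .Z false h (Sum.elim T₀ (axk [] [])) r
    (ctk (List.replicate N true) [] [] [] [])
  rw [ctk_Z, List.append_nil, update_ctZ] at p7
  have p8 : RunLe (pushL (.inl (.inr (.inr .Q)) : KK K) (scode CL (some main, v₀)))
      (full (stk r [] [] []) (Sum.elim T₀ (axk [] []))
        (ctk (List.replicate N true) (List.replicate h false) [] [] []))
      (full (stk r [] [] []) (emC G CL c₀ [])
        (ctk (List.replicate N true) (List.replicate h false) [] [] [])) (CL.length + 1) := by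
    have h1 := run_pushL (.inl (.inr (.inr .Q)) : KK K) (scode CL (some main, v₀))
      (full (stk r [] [] []) (Sum.elim T₀ (axk [] []))
        (ctk (List.replicate N true) (List.replicate h false) [] [] []))
    rw [full_tm, Sum.update_elim_inr, update_axQ] at h1
    have e1 : full (stk r [] [] []) (Sum.elim T₀ (axk [] []))
        (ctk (List.replicate N true) (List.replicate h false) [] [] [])
        (.inl (.inr (.inr .Q)) : KK K) = [] := rfl
    rw [e1, List.append_nil] at h1
    have e2 : (Sum.elim T₀ (axk (scode CL (some main, v₀)) []) : K ⊕ Ax → List Bool) =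
        emC G CL c₀ [] := by
      unfold emC emS
      congr 1
      funext k
      rw [hT₀, hc₀]
      change _ = stcode (G k) (update (fun _ => []) k₀ (x.map sy) k)
      rw [Function.apply_update (fun k l => stcode (G k) l)]
      rfl
    rw [e2] at h1
    refine h1.mono ?_
    rw [scode, ucode_length]
    have := ix_le CL (some main, v₀)
    omega
  obtain ⟨-, p9⟩ := run_clockC (K := St ⊕ (K ⊕ Ax)) (X := TM2.Cfg Γ Λ σ)
    (body := mapCmd Sum.inr (stepC G CL m))
    (E := fun c => Sum.elim (stk r [] [] []) (emC G CL c [])) (f := fstep m)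
    (Pr := fun c => Good G c.stk) (t₀ := t₀)
    (fun c hc => ⟨(ht₀ c [] hc).1, RunLe.inr (ht₀ c [] hc).2.1 _⟩) h N c₀ hgood₀
  set cf : TM2.Cfg Γ Λ σ := (fstep m)^[T] c₀ with hcf
  -- copying the output
  set Tc : K → List Bool := fun k => stcode (G k) (cf.stk k) with hTc
  have e5 : (emC G CL cf [] : K ⊕ Ax → List Bool) =
      Sum.elim Tc (axk (scode CL (cf.l, cf.var)) []) := rfl
  have p10 : RunLe (.push (.inl (.inl .C)) true : Cmd (KK K))
      (full (stk r [] [] []) (Sum.elim Tc (axk (scode CL (cf.l, cf.var)) []))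
        (ctk [] [] [] [] []))
      (full (stk r [] [true] []) (Sum.elim Tc (axk (scode CL (cf.l, cf.var)) []))
        (ctk [] [] [] [] [])) 1 := by
    have h1 := RunLe.push (full (stk r [] [] [])
      (Sum.elim Tc (axk (scode CL (cf.l, cf.var)) [])) (ctk [] [] [] [] []))
      (.inl (.inl .C) : KK K) true
    rw [full_st, update_C] at h1
    exact h1
  have p11 := run_cpX (G k₁) k₁ dc r (scode CL (cf.l, cf.var)) (ctk [] [] [] [] [])
    (cf.stk k₁) (hgf k₁) Tc [] rfl
  rw [List.append_nil] at p11
  have p12 : RunLe (.push (.inl (.inl .A)) false : Cmd (KK K))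
      (full (stk r [] [] []) (Sum.elim (update Tc k₁ [])
        (axk (scode CL (cf.l, cf.var)) ((cf.stk k₁).map dc).reverse)) (ctk [] [] [] [] []))
      (full (stk ((enc ([] : List Bool)).bits ++ r) [] [] []) (Sum.elim (update Tc k₁ [])
        (axk (scode CL (cf.l, cf.var)) ((cf.stk k₁).map dc).reverse)) (ctk [] [] [] [] []))
      1 := by
    have h1 := RunLe.push (full (stk r [] [] []) (Sum.elim (update Tc k₁ [])
      (axk (scode CL (cf.l, cf.var)) ((cf.stk k₁).map dc).reverse)) (ctk [] [] [] [] []))
      (.inl (.inl .A) : KK K) false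
    rw [full_st, update_A] at h1
    exact h1
  have p13 := run_wrA r (scode CL (cf.l, cf.var)) (update Tc k₁ []) (ctk [] [] [] [] [])
    ((cf.stk k₁).map dc).reverse []
  rw [List.reverse_reverse, List.append_nil, List.length_reverse, List.length_map] at p13
  have e7 : (cf.stk k₁).map dc = ansW m k₀ k₁ sy main v₀ dc x T := rfl
  have p14 : RunLe (.push (.inl (.inl .A)) true : Cmd (KK K))
      (full (stk ((enc ((cf.stk k₁).map dc)).bits ++ r) [] [] [])
        (Sum.elim (update Tc k₁ []) (axk (scode CL (cf.l, cf.var)) [])) (ctk [] [] [] [] []))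
      (full (stk (true :: ((enc ((cf.stk k₁).map dc)).bits ++ r)) [] [] [])
        (Sum.elim (update Tc k₁ []) (axk (scode CL (cf.l, cf.var)) [])) (ctk [] [] [] [] []))
      1 := by
    have h1 := RunLe.push (full (stk ((enc ((cf.stk k₁).map dc)).bits ++ r) [] [] [])
        (Sum.elim (update Tc k₁ []) (axk (scode CL (cf.l, cf.var)) [])) (ctk [] [] [] [] []))
      (.inl (.inl .A) : KK K) true
    rw [full_st, update_A] at h1
    exact h1
  -- the final stacks of the machine
  set B : ℕ := (x.length + T * t₀) * gK with hB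
  have hlenk : ∀ k, (cf.stk k).length ≤ x.length + T * t₀ := by
    intro k
    refine (hlen k).trans ?_
    refine Nat.add_le_add_right ?_ _
    rw [hc₀]
    change (update (fun _ => []) k₀ (x.map sy) k).length ≤ _
    by_cases hk : k = k₀
    · subst hk; rw [update_self]; simp
    · rw [update_of_ne hk]; simp
  have hcode : ∀ k, (stcode (G k) (cf.stk k)).length ≤ B := by
    intro k
    refine (stcode_length_le (hgf k)).trans ?_
    exact Nat.mul_le_mul (hlenk k) (hgk k)
  have p15 := run_clearL (stk (true :: ((enc ((cf.stk k₁).map dc)).bits ++ r)) [] [] [])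
    (axk (scode CL (cf.l, cf.var)) []) (ctk [] [] [] [] []) B ks (update Tc k₁ []) (by
      intro k
      by_cases hk : k = k₁
      · subst hk
        rw [update_self]
        exact Nat.zero_le _
      · rw [update_of_ne hk]
        exact hcode k)
  have e6 : (fun k => if k ∈ ks then [] else update Tc k₁ [] k) =
      (fun _ : K => ([] : List Bool)) := by
    funext k
    rw [if_pos (hmem k)]
  rw [e6] at p15
  have p16 := run_clearC (.inl (.inr (.inr .Q)) : KK K) (scode CL (cf.l, cf.var))
    (full (stk (true :: ((enc ((cf.stk k₁).map dc)).bits ++ r)) [] [] [])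
      (Sum.elim (fun _ => []) (axk (scode CL (cf.l, cf.var)) [])) (ctk [] [] [] [] [])) rfl
  rw [full_tm, Sum.update_elim_inr, update_axQ, ← E] at p16
  have hall := RunLe.seq p1 (RunLe.seq p2 (RunLe.seq p3 (RunLe.seq p4 (RunLe.seq p5 (RunLe.seq p6
    (RunLe.seq p7 (RunLe.seq p8 (RunLe.seq p9 (RunLe.seq p10 (RunLe.seq p11 (RunLe.seq p12
      (RunLe.seq p13 (RunLe.seq p14 (RunLe.seq p15 p16))))))))))))))
  rw [← e7]
  refine hall.mono ?_
  -- the time
  have hq : (scode CL (cf.l, cf.var)).length ≤ CL.length + 1 := by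
    rw [scode, ucode_length]
    have := ix_le CL (cf.l, cf.var)
    omega
  have hg0 := hgk k₀
  have hg1 := hgk k₁
  have hl1 := hlenk k₁
  set u : ℕ := (cf.stk k₁).length with hu
  set p : ℕ := 2 ^ h with hp
  have hp1 : 1 ≤ p := Nat.one_le_two_pow
  set a : ℕ := x.length with ha
  set V : ℕ := (N + 1) * (p * (h + 1)) with hV
  have v1 : N * (p * (h + 1)) + p * (h + 1) = V := by rw [hV]; ring
  have v2 : h + 1 ≤ p * (h + 1) := Nat.le_mul_of_pos_left _ hp1
  have v3 : N * 1 ≤ N * (p * (h + 1)) := Nat.mul_le_mul_left _ (by nlinarith)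
  have v4 : T ≤ V := by
    have : N * p ≤ N * (p * (h + 1)) := Nat.mul_le_mul_left _ (Nat.le_mul_of_pos_right _ (by omega))
    rw [hT]
    omega
  have v5 : N * (p * (t₀ + 6 * h + 8) + 3) ≤ (t₀ + 17) * V := by
    have : N * (p * (t₀ + 6 * h + 8) + 3) = (t₀ + 8) * (N * p) + 6 * (N * (p * h)) + 3 * N := by
      ring
    rw [this]
    have w1 : N * (p * h) ≤ V := by
      have : N * (p * h) ≤ N * (p * (h + 1)) :=
        Nat.mul_le_mul_left _ (Nat.mul_le_mul_left _ (by omega))
      omega
    have w2 : (t₀ + 8) * (N * p) ≤ (t₀ + 8) * V := Nat.mul_le_mul_left _ v4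
    nlinarith
  have v6 : B ≤ gK * (t₀ + 1) * (a + V) := by
    rw [hB]
    have : a + T * t₀ ≤ (t₀ + 1) * (a + V) := by nlinarith
    calc (a + T * t₀) * gK ≤ ((t₀ + 1) * (a + V)) * gK := Nat.mul_le_mul_right _ this
      _ = _ := by ring
  have v7 : ks.length * (B + 1) ≤ ks.length * (gK * (t₀ + 1) + 1) * (a + 1 + V) := by
    have : B + 1 ≤ (gK * (t₀ + 1) + 1) * (a + 1 + V) := by nlinarith
    calc ks.length * (B + 1) ≤ ks.length * ((gK * (t₀ + 1) + 1) * (a + 1 + V)) :=
          Nat.mul_le_mul_left _ this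
      _ = _ := by ring
  have v8 : a * ((G k₀).length + 2) ≤ (gK + 2) * a := by
    rw [Nat.mul_comm]
    exact Nat.mul_le_mul_right _ (by omega)
  have v12 : u * ((G k₁).length + 4) + 5 * u ≤ (gK + 9) * (t₀ + 1) * (a + V) := by
    have w1 : u ≤ (t₀ + 1) * (a + V) := by nlinarith
    have w2 : u * ((G k₁).length + 4) + 5 * u = ((G k₁).length + 9) * u := by ring
    rw [w2]
    calc ((G k₁).length + 9) * u ≤ (gK + 9) * ((t₀ + 1) * (a + V)) :=
          Nat.mul_le_mul (by omega) w1
      _ = _ := by ring
  have v13 : (gK + 9) * (t₀ + 1) * (a + V) ≤ (gK + 9) * (t₀ + 1) * (a + 1 + V) :=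
    Nat.mul_le_mul_left _ (by omega)
  have v9 : (60 + gK + t₀ + 2 * CL.length + (gK + 9) * (t₀ + 1) +
      ks.length * (gK * (t₀ + 1) + 1)) * (a + 1 + V) =
      ks.length * (gK * (t₀ + 1) + 1) * (a + 1 + V) +
      ((gK + 9) * (t₀ + 1) * (a + 1 + V) + (60 + gK + t₀ + 2 * CL.length) * (a + 1 + V)) := by
    ring
  rw [v9]
  have v10 : (2 * CL.length) * 1 ≤ (2 * CL.length) * (a + 1 + V) :=
    Nat.mul_le_mul_left _ (by omega)
  have v11 : 1 + (1 + (6 * a + 1 + (a * ((G k₀).length + 2) + 1 + (1 + (3 * N + 1 +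
      (3 * h + 1 + (CL.length + 1 + (N * (p * (t₀ + 6 * h + 8) + 3) + (h + 2) +
      (1 + ((u * ((G k₁).length + 4) + 4) + (1 + ((5 * u + 1) + (1 +
      (ks.length * (B + 1) + ((scode CL (cf.l, cf.var)).length + 1))))))))))))))) ≤
      ks.length * (gK * (t₀ + 1) + 1) * (a + 1 + V) +
      ((gK + 9) * (t₀ + 1) * (a + 1 + V) + (60 + gK + t₀ + 2 * CL.length) * (a + 1 + V)) := by
    have z1 : (60 + gK + t₀ + 2 * CL.length) * (a + 1 + V) =
        60 * (a + 1 + V) + gK * (a + 1 + V) + t₀ * (a + 1 + V) +
          (2 * CL.length) * (a + 1 + V) := by ring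
    have z2 : (gK + 2) * a ≤ gK * (a + 1 + V) + 2 * a := by
      have : gK * a ≤ gK * (a + 1 + V) := Nat.mul_le_mul_left _ (by omega)
      rw [Nat.add_mul]
      omega
    have z3 : (t₀ + 17) * V ≤ t₀ * (a + 1 + V) + 17 * V := by
      have : t₀ * V ≤ t₀ * (a + 1 + V) := Nat.mul_le_mul_left _ (by omega)
      rw [Nat.add_mul]
      omega
    rw [z1]
    omega
  exact v11

end call

end Pool.Agent.Lib.MP_87d05f_lc
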