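import Mathlib
import Pool.Agent.Lib.MP_87d05f_lc.CallW

set_option autoImplicit false

/-!
# Composition of machines with words as outputs
-/

namespace Pool.Agent.Lib.MP_87d05f_lc

open Pool.Agent.PolyTime Function Turing Polynomial

/-- the output word of a given machine -/
def ansWT (tm : FinTM2) (e₀ : tm.Γ tm.k₀ ≃ Bool) (e₁ : tm.Γ tm.k₁ ≃ Bool) (q : Qry) :
    List Bool :=
  ansW tm.m tm.k₀ tm.k₁ e₀.symm tm.main tm.initialState e₁ q.1 (q.2.1 * 2 ^ q.2.2)

theorem ansWT_of_outputs (tm : FinTM2) (e₀ : tm.Γ tm.k₀ ≃ Bool) (e₁ : tm.Γ tm.k₁ ≃ Bool)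
    (w : List Bool) (q : Qry)
    (h : Nonempty (TM2OutputsInTime tm (q.1.map e₀.symm) (some (w.map e₁.symm))
      (q.2.1 * 2 ^ q.2.2))) : ansWT tm e₀ e₁ q = w := by
  obtain ⟨⟨⟨n, h1⟩, h2⟩⟩ := h
  have h0 : initList tm (q.1.map e₀.symm) =
      cfg₀ tm.k₀ e₀.symm tm.main tm.initialState q.1 := by
    unfold initList cfg₀
    congr 1
    funext k
    by_cases hk : k = tm.k₀
    · refine Eq.trans (dif_pos hk) ?_
      cases hk
      exact (update_self tm.k₀ (q.1.map e₀.symm) (fun _ => [])).symm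
    · exact Eq.trans (dif_neg hk) (update_of_ne hk (q.1.map e₀.symm) (fun _ => [])).symm
  have h3 : (fstep tm.m)^[n] (cfg₀ tm.k₀ e₀.symm tm.main tm.initialState q.1) =
      haltList tm (w.map e₁.symm) := by
    rw [← h0]
    exact fstep_of_evals tm.m n _ _ h1
  have h4 : (fstep tm.m)^[q.2.1 * 2 ^ q.2.2] (cfg₀ tm.k₀ e₀.symm tm.main tm.initialState q.1) =
      haltList tm (w.map e₁.symm) := by
    obtain ⟨j, hj⟩ := Nat.exists_eq_add_of_le h2
    rw [hj, Nat.add_comm, Function.iterate_add_apply, h3]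
    exact fstep_halted tm.m _ _ j
  have h5 : (haltList tm (w.map e₁.symm)).stk tm.k₁ = w.map e₁.symm := by
    unfold haltList
    exact dif_pos rfl
  unfold ansWT ansW
  rw [h4, h5, List.map_map]
  have h6 : (e₁ ∘ e₁.symm) = id := by
    funext b
    exact e₁.apply_symm_apply b
  rw [h6, List.map_id]

/-- Composition with programs before and after. -/
theorem word_machine (tm : FinTM2) (e₀ : tm.Γ tm.k₀ ≃ Bool) (e₁ : tm.Γ tm.k₁ ≃ Bool)
    {query : List Bool → Qry} {out : List Bool × List Bool → List Bool} (hq : PTime query)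
    (ho : PTime out) :
    ∃ (tm' : FinTM2) (e₀' : tm'.Γ tm'.k₀ ≃ Bool) (e₁' : tm'.Γ tm'.k₁ ≃ Bool)
      (P : Polynomial ℕ) (κ : ℕ), ∀ (x : List Bool) (B m : ℕ),
        (ansWT tm e₀ e₁ (query x)).length ≤ B →
        P.eval (x.length + B) + κ * qcost (query x) ≤ m →
        Nonempty (TM2OutputsInTime tm' (x.map e₀'.symm)
          (some ((out (x, ansWT tm e₀ e₁ (query x))).map e₁'.symm)) m) := by
  have : Fintype tm.K := tm.kFin
  have hq' : PTime (fun x : List Bool => (query x, x)) := hq.pair PTime.id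
  obtain ⟨cq, Pq, hcq⟩ := ptime_cmd hq'
  have ho' : PTime (fun p : List Bool × List Bool => out (p.2, p.1)) :=
    ho.comp (PTime.snd.pair PTime.fst)
  obtain ⟨co, Po, hco⟩ := ptime_cmd ho'
  obtain ⟨Pz, hPz⟩ := ho'.sz_le
  obtain ⟨cc, κ, hcc⟩ := @exists_callW tm.K tm.kDecidableEq tm.Γ tm.Λ tm.σ tm.kFin tm.ΛFin
    tm.σFin tm.m tm.k₀ tm.k₁ tm.Γk₀Fin e₀.symm tm.main tm.initialState e₁
  set up : Cmd St → Cmd (KK tm.K) := fun c => mapCmd Sum.inl (mapCmd Sum.inl c) with hup
  set c : Cmd (KK tm.K) := .seq (up convCmd) (.seq (up cq) (.seq cc (.seq (up co)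
    (up decCmd)))) with hc
  refine ⟨(Flow.compile c).toTM (.inl (.inl .A)) (.inl (.inl .A)), Equiv.refl _, Equiv.refl _,
    C 7 * X + C 20 + Pq.comp (C 4 * X + C 1) + Po.comp (C 4 * X + C 3) +
      C 7 * Pz.comp (C 4 * X + C 3), κ, ?_⟩
  intro x B m hB hm
  obtain ⟨w, hw⟩ : ∃ w, w = ansWT tm e₀ e₁ (query x) := ⟨_, rfl⟩
  rw [← hw] at hB ⊢
  have h1 := run_st (K := tm.K) (run_conv x)
  have h2 := run_st (K := tm.K) (hcq x)
  have h3 := hcc (query x).1 (query x).2.1 (query x).2.2 (enc x).bits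
  have h4 := run_st (K := tm.K) (hco (w, x))
  have h5 := run_st (K := tm.K) (run_dec (out (x, w)))
  have e1 : (enc (query x, x)).bits = true :: ((enc (query x)).bits ++ (enc x).bits) := by
    simp [Sx.bits]
  have e2 : (enc (w, x)).bits = true :: ((enc w).bits ++ (enc x).bits) := by
    simp [Sx.bits]
  rw [e1] at h2
  rw [e2] at h4
  have e3 : ansW tm.m tm.k₀ tm.k₁ e₀.symm tm.main tm.initialState e₁ (query x).1
      ((query x).2.1 * 2 ^ (query x).2.2) = w := hw.symm
  rw [e3] at h3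
  have hrun := RunLe.seq h1 (RunLe.seq h2 (RunLe.seq h3 (RunLe.seq h4 h5)))
  obtain ⟨t, ht, hrun⟩ := hrun
  have hsz : sz ((w, x) : List Bool × List Bool) ≤ 4 * (x.length + B) + 3 := by
    have g1 := sz_listBool_le x
    have g2 := sz_listBool_le w
    rw [sz_pair]
    omega
  have hlen : (out (x, w)).length ≤ Pz.eval (4 * (x.length + B) + 3) := by
    have h6 := (length_le_sz _).trans ((hPz (w, x)).trans (eval_mono Pz hsz))
    simp only at h6
    omega
  have hb1 : t + 1 ≤ m := by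
    refine le_trans ?_ hm
    have g1 := eval_mono Pq (sz_listBool_le x)
    have g2 := eval_mono Po hsz
    have g3 : eval (4 * x.length + 1) Pq ≤ eval (4 * (x.length + B) + 1) Pq :=
      eval_mono Pq (by omega)
    simp only [eval_add, eval_mul, eval_C, eval_X, eval_comp]
    change t + 1 ≤ _ + κ * (((query x).1.length + 1) +
      ((query x).2.1 + 1) * (2 ^ (query x).2.2 * ((query x).2.2 + 1)))
    generalize κ * (((query x).1.length + 1) +
      ((query x).2.1 + 1) * (2 ^ (query x).2.2 * ((query x).2.2 + 1))) = z at *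
    omega
  rw [← update_eq_fA, ← update_eq_fA] at hrun
  have h := Cmd.outputs c (.inl (.inl .A)) (.inl (.inl .A)) hrun m hb1
  have e : ∀ l : List Bool, List.map (Equiv.refl Bool).symm l = l := fun l => List.map_id l
  have e4 : ∀ x' y' : List Bool, x' = x → y' = out (x, w) →
      Nonempty (TM2OutputsInTime ((Flow.compile c).toTM (.inl (.inl .A)) (.inl (.inl .A))) x'
        (some y') m) := by
    rintro x' y' rfl rfl
    exact h
  exact e4 _ _ (e x) (e _)

end Pool.Agent.Lib.MP_87d05f_lc
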