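import Mathlib
import Pool.Agent.Lib.MP_87d05f_lc.WordMachine
import Pool.Agent.Lib.MP_87d05f_lc.Transfer

set_option autoImplicit false

/-!
# Reductions between search problems in exponential time
-/

namespace Pool.Agent.Lib.MP_87d05f_lc

open Pool.Agent.PolyTime Function Turing

/-- a machine computes good words in exponential time -/
def GFind {I : Type} (en : I → List Bool) (V : I → Prop) (good : I → List Bool → Prop)
    (μ : I → ℕ) (b : ℕ) : Prop :=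
  ∃ C e : ℕ, ∃ (tm : FinTM2) (e₀ : tm.Γ tm.k₀ ≃ Bool) (e₁ : tm.Γ tm.k₁ ≃ Bool),
    ∀ F : I, V F → ∃ w : List Bool, good F w ∧
      Nonempty (TM2OutputsInTime tm ((en F).map e₀.symm) (some (w.map e₁.symm))
        (C * ((en F).length + 1) ^ e * 2 ^ (μ F / b)))

theorem sep_of_find {I : Type} {en : I → List Bool} {V Y N : I → Prop} {μ : I → ℕ} {b : ℕ}
    (h : GFind en V (fun F w => (Y F → w = [true]) ∧ (N F → w = [false])) μ b) :
    GSep en V Y N μ b := by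
  obtain ⟨C, e, tm, e₀, e₁, h⟩ := h
  refine ⟨C, e, tm, e₀, [true].map e₁.symm, [false].map e₁.symm, ?_, fun F hF => ?_⟩
  · intro h1
    simp at h1
  · obtain ⟨w, ⟨h1, h2⟩, h3⟩ := h F hF
    constructor
    · intro hY
      rw [h1 hY] at h3
      exact h3
    · intro hN
      rw [h2 hN] at h3
      exact h3

theorem find_transfer {I₁ I₂ : Type} {en₁ : I₁ → List Bool} {en₂ : I₂ → List Bool}
    {V₁ : I₁ → Prop} {V₂ : I₂ → Prop} {good₁ : I₁ → List Bool → Prop}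
    {good₂ : I₂ → List Bool → Prop} {μ₁ : I₁ → ℕ} {μ₂ : I₂ → ℕ} {b₁ b₂ R : ℕ}
    {f : List Bool → List Bool} {h : List Bool → ℕ} {out : List Bool × List Bool → List Bool}
    (hf : PTime f) (hh : PTime h) (ho : PTime out)
    (hμ : ∀ F, V₁ F → μ₁ F ≤ (en₁ F).length)
    (hred : ∀ F, V₁ F → ∃ F', V₂ F' ∧ en₂ F' = f (en₁ F) ∧
      (∀ w, good₂ F' w → w.length ≤ R * (en₁ F).length ∧ good₁ F (out (en₁ F, w))) ∧
      μ₂ F' / b₂ ≤ h (en₁ F) ∧ h (en₁ F) ≤ μ₁ F / b₁)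
    (hfind : GFind en₂ V₂ good₂ μ₂ b₂) : GFind en₁ V₁ good₁ μ₁ b₁ := by
  obtain ⟨C, e, tm, e₀, e₁, hS⟩ := hfind
  have hq : PTime (fun x => ((f x, (C * ((f x).length + 1) ^ e, h x)) : Qry)) :=
    hf.pair ((PTime.mul (PTime.const C)
      (PTime.natPow_const (PTime.succ (PTime.length hf)) e)).pair hh)
  obtain ⟨tm', e₀', e₁', P, κ, hM⟩ := word_machine tm e₀ e₁ hq ho
  obtain ⟨Pf, hPf⟩ := hf.sz_le
  obtain ⟨fQ, hfQ⟩ : ∃ g : ℕ → ℕ, g = fun L => Pf.eval (4 * L + 1) := ⟨_, rfl⟩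
  have pQ : PolyB fQ := by
    rw [hfQ]
    exact PolyB.eval Pf (((PolyB.const 4).mul PolyB.id).add (PolyB.const 1))
  obtain ⟨fR, hfR⟩ : ∃ g : ℕ → ℕ, g = fun L => (fQ L + 1) +
    (C * (fQ L + 1) ^ e + 1) * (L + 1) := ⟨_, rfl⟩
  have pR : PolyB fR := by
    rw [hfR]
    exact (pQ.add (PolyB.const 1)).add ((((PolyB.const C).mul
      ((pQ.add (PolyB.const 1)).pow e)).add (PolyB.const 1)).mul (PolyB.id.add (PolyB.const 1)))
  obtain ⟨C', e', hC'⟩ : PolyB (fun L => P.eval (L + R * L) + κ * fR L) :=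
    (PolyB.eval P (PolyB.id.add ((PolyB.const R).mul PolyB.id))).add
      ((PolyB.const κ).mul pR)
  refine ⟨C', e', tm', e₀', e₁', fun F hF => ?_⟩
  obtain ⟨F', hV, hen, hgood, hμ2, hμ1⟩ := hred F hF
  obtain ⟨x, hx⟩ : ∃ x, x = en₁ F := ⟨_, rfl⟩
  obtain ⟨L, hL⟩ : ∃ L, L = x.length := ⟨_, rfl⟩
  have hflen : (f x).length ≤ fQ L := by
    have e1 := length_le_sz (f x)
    have e2 := (hPf x).trans (eval_mono Pf (sz_listBool_le x))
    rw [hfQ, hL]
    change (f x).length ≤ Pf.eval (4 * x.length + 1)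
    omega
  have hhL : h x ≤ L := by
    rw [hx] at hL ⊢
    rw [hL]
    exact hμ1.trans ((Nat.div_le_self _ _).trans (hμ F hF))
  have hcost : qcost ((f x, (C * ((f x).length + 1) ^ e, h x)) : Qry) ≤ fR L * 2 ^ h x := by
    unfold qcost
    simp only
    rw [hfR]
    change (f x).length + 1 + (C * ((f x).length + 1) ^ e + 1) * (2 ^ h x * (h x + 1)) ≤
      ((fQ L + 1) + (C * (fQ L + 1) ^ e + 1) * (L + 1)) * 2 ^ h x
    have g5 : C * ((f x).length + 1) ^ e + 1 ≤ C * (fQ L + 1) ^ e + 1 :=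
      Nat.add_le_add_right (Nat.mul_le_mul_left _ (Nat.pow_le_pow_left (by omega) _)) 1
    have g7 : 2 ^ h x * (h x + 1) ≤ 2 ^ h x * (L + 1) := Nat.mul_le_mul_left _ (by omega)
    have g8 := Nat.mul_le_mul g5 g7
    have g9 : (fQ L + 1) * 1 ≤ (fQ L + 1) * 2 ^ h x :=
      Nat.mul_le_mul_left _ Nat.one_le_two_pow
    have g10 : ((fQ L + 1) + (C * (fQ L + 1) ^ e + 1) * (L + 1)) * 2 ^ h x =
        (fQ L + 1) * 2 ^ h x + (C * (fQ L + 1) ^ e + 1) * (2 ^ h x * (L + 1)) := by ring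
    rw [g10]
    omega
  have htime : P.eval (x.length + R * x.length) +
      κ * qcost ((f x, (C * ((f x).length + 1) ^ e, h x)) : Qry) ≤
      C' * (x.length + 1) ^ e' * 2 ^ (μ₁ F / b₁) := by
    rw [← hL]
    have t1 : P.eval (L + R * L) + κ * (fR L * 2 ^ h x) ≤
        (P.eval (L + R * L) + κ * fR L) * 2 ^ h x := by
      have : P.eval (L + R * L) * 1 ≤ P.eval (L + R * L) * 2 ^ h x :=
        Nat.mul_le_mul_left _ Nat.one_le_two_pow
      rw [Nat.add_mul, Nat.mul_assoc]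
      omega
    have t2 : 2 ^ h x ≤ 2 ^ (μ₁ F / b₁) := by
      rw [hx]
      exact Nat.pow_le_pow_right (by norm_num) hμ1
    refine (Nat.add_le_add_left (Nat.mul_le_mul_left κ hcost) _).trans (t1.trans ?_)
    exact Nat.mul_le_mul (hC' L) t2
  have hmono : C * ((en₂ F').length + 1) ^ e * 2 ^ (μ₂ F' / b₂) ≤
      C * ((f x).length + 1) ^ e * 2 ^ (h x) := by
    rw [hen, ← hx]
    refine Nat.mul_le_mul_left _ (Nat.pow_le_pow_right (by norm_num) ?_)
    rw [hx]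
    exact hμ2
  obtain ⟨w, hw, hrun⟩ := hS F' hV
  obtain ⟨hwl, hwg⟩ := hgood w hw
  have h1 := outputs_mono hmono hrun
  rw [hen, ← hx] at h1
  have h2 := ansWT_of_outputs tm e₀ e₁ w ((f x, (C * ((f x).length + 1) ^ e, h x)) : Qry) h1
  have h3 := hM x (R * x.length) _ (by rw [h2, hx]; exact hwl) htime
  rw [h2] at h3
  rw [← hx] at hwg ⊢
  exact ⟨_, hwg, h3⟩

end Pool.Agent.Lib.MP_87d05f_lc
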