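import Mathlib
import Pool.Agent.Lib.MP_87d05f_lc.FindT
import Pool.Agent.Lib.MP_87d05f_lc.BlockMain

set_option autoImplicit false

/-!
# Search for large cuts
-/

namespace Pool.Agent.Lib.MP_87d05f_lc

open Pool.Agent.PolyTime Function Turing

/-- good answers for a payoff language -/
def goodMax {g d : ℕ} {ar : Fin g → ℕ} (φ : (i : Fin g) → (Fin (ar i) → Fin d) → ℕ) (ε : ℚ)
    (F : List (Con ar)) (w : List Bool) : Prop :=
  ∃ a : ℕ → Fin d, w = outW F a ∧
    ∀ a' : ℕ → Fin d, (1 - ε) * ((valC φ a' F : ℕ) : ℚ) ≤ ((valC φ a F : ℕ) : ℚ)

/-- good answers for the maximum cut -/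
def goodCut (ε : ℚ) (E : List (ℕ × ℕ)) (w : List Bool) : Prop :=
  ∃ a : ℕ → Bool, w = E.flatMap (fun e => [a e.1, a e.2]) ∧
    ∀ a' : ℕ → Bool, (1 - ε) * ((E.countP (cutE a') : ℕ) : ℚ) ≤ ((E.countP (cutE a) : ℕ) : ℚ)

/-- the code of a graph -/
def enG (E : List (ℕ × ℕ)) : List Bool := encW (E.map wordE)

/-- simple graphs of maximum degree at most three -/
def VG (E : List (ℕ × ℕ)) : Prop := VCut (0, E)

/-- the number of vertices -/
def nvG (E : List (ℕ × ℕ)) : ℕ := nvCut (0, E)

/-! ### From payoffs to cuts -/

/-- values in unary to bits -/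
def convV (w : List Bool) : List Bool :=
  w.foldr (fun b acc => bif b then true :: acc.tail else false :: acc) []

theorem convV_ptime : PTime convV := by
  unfold convV
  refine PTime.foldr (f := fun (_ : List Bool) b (acc : List Bool) =>
    bif b then true :: acc.tail else false :: acc) PTime.id (PTime.const []) ?_
    (Polynomial.C 10) ?_
  · exact PTime.cond (PTime.fst.comp PTime.snd)
      (PTime.cons (PTime.const true) (PTime.tail (PTime.snd.comp PTime.snd)))
      (PTime.cons (PTime.const false) (PTime.snd.comp PTime.snd))
  · intro a s b _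
    rw [Polynomial.eval_C]
    have h1 : sz s.tail ≤ sz s := by
      rw [← List.drop_one]
      exact sz_drop_le _ _
    cases b
    · rw [cond_false, sz_cons, sz_false]
      omega
    · rw [cond_true, sz_cons, sz_true]
      omega

theorem convV_token (x : Fin 2) (r : List Bool) :
    convV ((List.replicate (x : ℕ) true ++ [false]) ++ r) = decide (x = 1) :: convV r := by
  unfold convV
  rw [List.foldr_append]
  generalize r.foldr (fun b acc => bif b then true :: acc.tail else false :: acc) [] = u
  fin_cases x <;> rfl

theorem convV_outW (E : List (ℕ × ℕ)) (a : ℕ → Fin 2) :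
    convV (outW (E.map conE) a) =
      E.flatMap (fun e => [decide (a e.1 = 1), decide (a e.2 = 1)]) := by
  induction E with
  | nil => rfl
  | cons e E ih =>
    have h1 : outW ((e :: E).map conE) a = (List.replicate ((a e.1 : Fin 2) : ℕ) true ++
        [false]) ++ ((List.replicate ((a e.2 : Fin 2) : ℕ) true ++ [false]) ++
          outW (E.map conE) a) := by
      unfold outW
      rw [List.map_cons, List.flatMap_cons]
      have h2 : List.ofFn (conE e).2 = [e.1, e.2] := by
        unfold conE
        simp
      rw [h2]
      simp only [List.flatMap_cons, List.flatMap_nil, List.append_nil, List.append_assoc]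
    rw [h1, convV_token, convV_token, ih, List.flatMap_cons]
    rfl

theorem outW_length (E : List (ℕ × ℕ)) (a : ℕ → Fin 2) :
    (outW (E.map conE) a).length ≤ 4 * E.length := by
  induction E with
  | nil => simp [outW]
  | cons e E ih =>
    have h1 : outW ((e :: E).map conE) a = (List.replicate ((a e.1 : Fin 2) : ℕ) true ++
        [false]) ++ ((List.replicate ((a e.2 : Fin 2) : ℕ) true ++ [false]) ++
          outW (E.map conE) a) := by
      unfold outW
      rw [List.map_cons, List.flatMap_cons]
      have h2 : List.ofFn (conE e).2 = [e.1, e.2] := by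
        unfold conE
        simp
      rw [h2]
      simp only [List.flatMap_cons, List.flatMap_nil, List.append_nil, List.append_assoc]
    rw [h1]
    have h3 := (a e.1).2
    have h4 := (a e.2).2
    simp only [List.length_append, List.length_replicate, List.length_cons, List.length_nil]
    omega

theorem length_le_enG (E : List (ℕ × ℕ)) : E.length ≤ (enG E).length := by
  unfold enG
  refine le_trans ?_ (encW_length _)
  rw [List.length_map]
  omega

theorem nvG_le (E : List (ℕ × ℕ)) : nvG E ≤ (enG E).length := by
  unfold enG nvG nvCut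
  refine (List.toFinset_card_le _).trans ?_
  simp only
  rw [length_ends]
  refine le_trans ?_ (encW_length _)
  have h1 : ((E.map wordE).map List.length).sum = 2 * E.length := by
    induction E with
    | nil => rfl
    | cons e E ih =>
      rw [List.map_cons, List.map_cons, List.sum_cons, ih]
      unfold wordE
      simp only [List.length_cons, List.length_nil]
      omega
  rw [h1]
  omega

theorem find_cut_of_max {ε : ℚ} {b : ℕ} (hb : 0 < b)
    (hs : GFind (codeC (ar := fun _ : Fin 1 => 2)) (fun _ => True)
      (goodMax (ar := fun _ : Fin 1 => 2) phiX ε) List.length (2 * b)) :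
    GFind enG VG (goodCut ε) nvG b := by
  have hf : PTime (fun x => encW ((parseW x).map (fun c => [] :: c))) := by
    refine encW_ptime ?_
    exact PTime.map (f := fun (_ : List Bool) (c : List (List Bool)) => [] :: c)
      parseW_ptime (PTime.cons (PTime.const []) PTime.snd)
  have hh : PTime (fun x => mydiv (parseW x).length (2 * b)) :=
    mydiv_ptime (PTime.length parseW_ptime) (PTime.const (2 * b))
  have ho : PTime (fun p : List Bool × List Bool => convV p.2) := convV_ptime.comp PTime.snd
  refine find_transfer (R := 4) hf hh ho (fun E _ => nvG_le E) ?_ hs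
  intro E hV
  have hx : parseW (enG E) = E.map wordE := by
    unfold enG
    rw [parseW_encW]
  refine ⟨E.map conE, trivial, ?_, ?_, ?_, ?_⟩
  · rw [hx, codeC_eq, List.map_map, List.map_map]
    rfl
  · rintro w ⟨a, rfl, ha⟩
    constructor
    · have h1 := outW_length E a
      have h2 := length_le_enG E
      omega
    · refine ⟨fun v => decide (a v = 1), ?_, ?_⟩
      · exact convV_outW E a
      · intro a'
        have h1 := ha (fun v => if a' v = true then 1 else 0)
        rw [valC_conE, valC_conE] at h1
        have h2 : (fun v => decide ((if a' v = true then (1 : Fin 2) else 0) = 1)) = a' := by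
          funext v
          rcases a' v with _ | _ <;> simp
        rw [h2] at h1
        exact h1
  · rw [hx, List.length_map, List.length_map, mydiv_eq (by omega)]
  · rw [hx, List.length_map, mydiv_eq (by omega)]
    have h1 : E.length ≤ 2 * nvG E := edges_le (I := (0, E)) hV
    have h2 := Nat.div_le_div_right (c := 2 * b) h1
    rw [Nat.mul_div_mul_left _ _ (by norm_num)] at h2
    exact h2

/-! ### From cuts to separators -/

/-- the number of cut edges of a list of pairs of bits -/
def cutW (w : List Bool) : ℕ :=
  (w.foldr (fun b (s : Option Bool × ℕ) => (Option.casesOn s.1 (some b, s.2)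
    (fun b' => (none, s.2 + (xor b b').toNat)) : Option Bool × ℕ)) (none, 0)).2

theorem cutW_ptime : PTime cutW := by
  unfold cutW
  refine PTime.snd.comp (PTime.foldr (f := fun (_ : List Bool) b (s : Option Bool × ℕ) =>
    (Option.casesOn s.1 (some b, s.2)
      (fun b' => (none, s.2 + (xor b b').toNat)) : Option Bool × ℕ)) PTime.id (PTime.const _) ?_
    (Polynomial.C 20) ?_)
  · have hb : PTime (fun p : List Bool × Bool × (Option Bool × ℕ) => p.2.1) :=
      PTime.fst.comp PTime.snd
    have ho : PTime (fun p : List Bool × Bool × (Option Bool × ℕ) => p.2.2.1) :=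
      PTime.fst.comp (PTime.snd.comp PTime.snd)
    have hn : PTime (fun p : List Bool × Bool × (Option Bool × ℕ) => p.2.2.2) :=
      PTime.snd.comp (PTime.snd.comp PTime.snd)
    refine PTime.option_casesOn
      (f := fun p : List Bool × Bool × (Option Bool × ℕ) => p.2.2.1)
      (g := fun p => ((some p.2.1, p.2.2.2) : Option Bool × ℕ))
      (h := fun p b' => ((none, p.2.2.2 + (xor p.2.1 b').toNat) : Option Bool × ℕ)) ho
      ((PTime.some hb).pair hn) ?_
    refine (PTime.const none).pair (PTime.add (hn.comp PTime.fst) (toNat_ptime ?_))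
    exact (PTime.cond (hb.comp PTime.fst) (PTime.not PTime.snd) PTime.snd).of_eq
      (fun p => by cases p.1.2.1 <;> cases p.2 <;> rfl)
  · rintro a ⟨o, n⟩ b _
    rw [Polynomial.eval_C]
    have h1 := sz_bool_le b
    rcases o with _ | b'
    · simp only [sz_pair, sz_none, sz_some]
      omega
    · have h2 : (xor b b').toNat ≤ 1 := Bool.toNat_le _
      simp only [sz_pair, sz_none, sz_some, sz_nat]
      omega

theorem cutW_eq (E : List (ℕ × ℕ)) (a : ℕ → Bool) :
    cutW (E.flatMap (fun e => [a e.1, a e.2])) = E.countP (cutE a) := by
  have key : (E.flatMap (fun e => [a e.1, a e.2])).foldr (fun b (s : Option Bool × ℕ) =>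
      (Option.casesOn s.1 (some b, s.2)
        (fun b' => (none, s.2 + (xor b b').toNat)) : Option Bool × ℕ)) (none, 0) =
      (none, E.countP (cutE a)) := by
    induction E with
    | nil => rfl
    | cons e E ih =>
      rw [List.flatMap_cons, List.foldr_append, ih, List.countP_cons]
      simp only [List.foldr_cons, List.foldr_nil, Prod.mk.injEq, true_and]
      unfold cutE
      rcases a e.1 <;> rcases a e.2 <;> rfl
  unfold cutW
  rw [key]

theorem length_ends' (E : List (ℕ × ℕ)) (a : ℕ → Bool) :
    (E.flatMap (fun e => [a e.1, a e.2])).length = 2 * E.length := by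
  induction E with
  | nil => rfl
  | cons e E ih =>
    rw [List.flatMap_cons, List.length_append, ih, List.length_cons]
    simp only [List.length_cons, List.length_nil]
    omega

/-- the answer computed from a cut -/
def outC (p q : ℕ) (z : List Bool × List Bool) : List Bool :=
  [decide (q * thI z.1 ≤ q * cutW z.2 + p * thI z.1)]

theorem outC_ptime (p q : ℕ) : PTime (outC p q) := by
  unfold outC
  have ht : PTime (fun z : List Bool × List Bool => thI z.1) := thI_ptime.comp PTime.fst
  have hc : PTime (fun z : List Bool × List Bool => cutW z.2) := cutW_ptime.comp PTime.snd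
  exact PTime.cons (PTime.nat_le (PTime.mul (PTime.const q) ht)
    (PTime.add (PTime.mul (PTime.const q) hc) (PTime.mul (PTime.const p) ht))) (PTime.const [])

theorem nvCut_eq (E : List (ℕ × ℕ)) (t : ℕ) :
    (ded (E.map wordE).flatten).length = nvCut (t, E) := by
  have h0 : (E.map wordE).flatten = (E.flatMap (fun e => [e.1, e.2])).map Nat.bits := by
    induction E with
    | nil => rfl
    | cons e E ih =>
      rw [List.map_cons, List.flatten_cons, ih, List.flatMap_cons, List.map_append]
      rfl
  rw [ded_length, h0]
  unfold nvCut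
  have h : ∀ l : List ℕ, (l.map Nat.bits).toFinset = l.toFinset.image Nat.bits := by
    intro l
    ext w
    simp
  rw [h, Finset.card_image_of_injective _ bits_injective]

theorem sep_of_find_cut {p q b : ℕ} (hq : 0 < q) (hpq : p ≤ q) (hb : 0 < b)
    (hs : GFind enG VG (goodCut ((p : ℚ) / (q : ℕ))) nvG b) :
    GSep enCut VCut YCut (NCut ((p : ℚ) / (q : ℕ))) nvCut b := by
  refine sep_of_find ?_
  have hf : PTime (fun x => encW (parseW x).tail) := encW_ptime (PTime.tail parseW_ptime)
  have hh : PTime (fun x => mydiv (ded (parseW x).tail.flatten).length b) :=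
    mydiv_ptime (PTime.length (ded_ptime (PTime.flatten (PTime.tail parseW_ptime))))
      (PTime.const b)
  have hx : ∀ (t : ℕ) (E : List (ℕ × ℕ)),
      parseW (enCut (t, E)) = [List.replicate t true] :: E.map wordE := by
    intro t E
    unfold enCut
    rw [parseW_encW]
  have hlen : ∀ (t : ℕ) (E : List (ℕ × ℕ)), 2 * E.length ≤ (enCut (t, E)).length := by
    intro t E
    unfold enCut
    refine le_trans ?_ (encW_length _)
    have h1 : ∀ E : List (ℕ × ℕ), ((E.map wordE).map List.length).sum = 2 * E.length := by
      intro E
      induction E with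
      | nil => rfl
      | cons e E ih =>
        rw [List.map_cons, List.map_cons, List.sum_cons, ih]
        unfold wordE
        simp only [List.length_cons, List.length_nil]
        omega
    rw [List.map_cons, List.sum_cons, h1]
    dsimp only
    omega
  refine find_transfer (R := 1) hf hh (outC_ptime p q) ?_ ?_ hs
  · rintro ⟨t, E⟩ _
    refine le_trans ?_ (hlen t E)
    unfold nvCut
    refine (List.toFinset_card_le _).trans ?_
    rw [length_ends]
  · rintro ⟨t, E⟩ hV
    refine ⟨E, hV, ?_, ?_, ?_, ?_⟩
    · rw [hx, List.tail_cons]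
      rfl
    · rintro w ⟨a, rfl, ha⟩
      have hth : thI (enCut (t, E)) = t := by
        unfold thI
        rw [hx]
        simp
      constructor
      · rw [length_ends' E a, Nat.one_mul]
        exact hlen t E
      · unfold outC
        simp only
        rw [hth, cutW_eq]
        have hq' : (0 : ℚ) < ((q : ℕ) : ℚ) := by exact_mod_cast hq
        constructor
        · rintro ⟨a', ha'⟩
          simp only at ha'
          have h1 := ha a'
          have h2 : ((q : ℕ) : ℚ) * ((1 - (p : ℚ) / ((q : ℕ) : ℚ)) *
              ((E.countP (cutE a') : ℕ) : ℚ)) =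
              (((q : ℕ) : ℚ) - (p : ℚ)) * ((E.countP (cutE a') : ℕ) : ℚ) := by
            field_simp
          have h3 := mul_le_mul_of_nonneg_left h1 hq'.le
          rw [h2] at h3
          have h4 : (t : ℚ) ≤ ((E.countP (cutE a') : ℕ) : ℚ) := by exact_mod_cast ha'
          have h5 : (0 : ℚ) ≤ ((q : ℕ) : ℚ) - (p : ℚ) := by
            have : (p : ℚ) ≤ ((q : ℕ) : ℚ) := by exact_mod_cast hpq
            linarith
          have h6 := mul_le_mul_of_nonneg_left h4 h5
          have h7 : ((q : ℕ) : ℚ) * (t : ℚ) ≤
              ((q : ℕ) : ℚ) * ((E.countP (cutE a) : ℕ) : ℚ) + (p : ℚ) * (t : ℚ) := by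
            have h8 : (((q : ℕ) : ℚ) - (p : ℚ)) * (t : ℚ) =
              ((q : ℕ) : ℚ) * (t : ℚ) - (p : ℚ) * (t : ℚ) := by ring
            linarith
          have h9 : q * t ≤ q * E.countP (cutE a) + p * t := by exact_mod_cast h7
          rw [decide_eq_true h9]
        · intro hN
          have h1 := hN a
          simp only at h1
          rw [lt_frac_iff hq] at h1
          rw [decide_eq_false (by omega)]
    · rw [hx, List.tail_cons, nvCut_eq E 0, mydiv_eq hb]
      rfl
    · rw [hx, List.tail_cons, nvCut_eq E t, mydiv_eq hb]

end Pool.Agent.Lib.MP_87d05f_lc
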