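import Mathlib
import Pool.Agent.Lib.MP_87d05f_lc.PolGadget

set_option autoImplicit false

/-!
# A criterion by ternary polymorphisms; Boolean languages and colourings
-/

namespace Pool.Agent.Lib.MP_87d05f_lc

section crit

variable {g d : ℕ} {ar : Fin g → ℕ} {R : (i : Fin g) → (Fin (ar i) → Fin d) → Bool}

theorem IsPol.proj (R : (i : Fin g) → (Fin (ar i) → Fin d) → Bool) {n : ℕ} (k : Fin n) :
    IsPol R (fun x : Fin n → Fin d => x k) := fun _ _ ht => ht k

theorem IsPol.minor {n m : ℕ} {f : (Fin n → Fin d) → Fin d} (hf : IsPol R f)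
    (π : Fin n → Fin m) : IsPol R (fun x : Fin m → Fin d => f (fun k => x (π k))) :=
  fun i t ht => hf i (fun k => t (π k)) (fun k => ht (π k))

theorem IsPol.comp3 {n : ℕ} {h : (Fin 3 → Fin d) → Fin d} (hh : IsPol R h)
    {p q r : (Fin n → Fin d) → Fin d} (hp : IsPol R p) (hq : IsPol R q) (hr : IsPol R r) :
    IsPol R (fun x => h ![p x, q x, r x]) := by
  intro i t ht
  have h1 := hh i ![fun j => p (fun k => t k j), fun j => q (fun k => t k j),
    fun j => r (fun k => t k j)] (by
      intro k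
      fin_cases k
      · exact hp i t ht
      · exact hq i t ht
      · exact hr i t ht)
  have h2 : (fun j : Fin (ar i) => h (fun k => (![fun j => p (fun k => t k j),
      fun j => q (fun k => t k j), fun j => r (fun k => t k j)] :
        Fin 3 → Fin (ar i) → Fin d) k j)) =
      (fun j => h ![p (fun k => t k j), q (fun k => t k j), r (fun k => t k j)]) := by
    funext j
    congr 1
    funext k
    fin_cases k <;> rfl
  rw [h2] at h1
  exact h1

/-- exactly one of three -/
def One3 (A B C : Prop) : Prop := (A ∧ ¬ B ∧ ¬ C) ∨ (¬ A ∧ B ∧ ¬ C) ∨ (¬ A ∧ ¬ B ∧ C)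

/-- the point of a set -/
def ptS {n : ℕ} (a b : Fin d) (S : Finset (Fin n)) (k : Fin n) : Fin d := if k ∈ S then a else b

theorem minHom_of_ternary (a b : Fin d)
    (H : ∀ h : (Fin 3 → Fin d) → Fin d, IsPol R h →
      One3 (h ![a, b, b] = h ![a, a, a]) (h ![b, a, b] = h ![a, a, a])
        (h ![b, b, a] = h ![a, a, a])) : MinHom R := by
  classical
  obtain ⟨U, hU⟩ : ∃ U : (n : ℕ) → ((Fin (n + 1) → Fin d) → Fin d) → Finset (Fin (n + 1)) → Prop,
    U = fun n f S => f (ptS a b S) = f (fun _ => a) := ⟨_, rfl⟩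
  have part : ∀ (n : ℕ) (f : (Fin (n + 1) → Fin d) → Fin d), IsPol R f →
      ∀ A B : Finset (Fin (n + 1)), Disjoint A B → One3 (U n f A) (U n f B) (U n f (A ∪ B)ᶜ) := by
    intro n f hf A B hAB
    have h1 := H _ (hf.minor (fun k => if k ∈ A then (0 : Fin 3) else if k ∈ B then 1 else 2))
    have e0 : (fun k => (![a, b, b] : Fin 3 → Fin d)
        (if k ∈ A then (0 : Fin 3) else if k ∈ B then 1 else 2)) = ptS a b A := by
      funext k
      unfold ptS
      by_cases hA : k ∈ A
      · simp [hA]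
      · by_cases hB : k ∈ B <;> simp [hA, hB]
    have e1 : (fun k => (![b, a, b] : Fin 3 → Fin d)
        (if k ∈ A then (0 : Fin 3) else if k ∈ B then 1 else 2)) = ptS a b B := by
      funext k
      unfold ptS
      by_cases hA : k ∈ A
      · have hB : k ∉ B := Finset.disjoint_left.1 hAB hA
        simp [hA, hB]
      · by_cases hB : k ∈ B <;> simp [hA, hB]
    have e2 : (fun k => (![b, b, a] : Fin 3 → Fin d)
        (if k ∈ A then (0 : Fin 3) else if k ∈ B then 1 else 2)) = ptS a b (A ∪ B)ᶜ := by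
      funext k
      unfold ptS
      by_cases hA : k ∈ A
      · simp [hA]
      · by_cases hB : k ∈ B <;> simp [hA, hB]
    have e3 : (fun k => (![a, a, a] : Fin 3 → Fin d)
        (if k ∈ A then (0 : Fin 3) else if k ∈ B then 1 else 2)) = fun _ => a := by
      funext k
      by_cases hA : k ∈ A
      · simp [hA]
      · by_cases hB : k ∈ B <;> simp [hA, hB]
    rw [e0, e1, e2, e3] at h1
    rw [hU]
    exact h1
  have prin : ∀ (n : ℕ) (f : (Fin (n + 1) → Fin d) → Fin d), IsPol R f →
      ∃ k, ∀ S, U n f S ↔ k ∈ S := by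
    intro n f hf
    have hP := part n f hf
    have hempty : ¬ U n f ∅ := by
      intro h
      rcases hP ∅ ∅ (Finset.disjoint_empty_left _) with h1 | h1 | h1
      · exact h1.2.1 h
      · exact h1.1 h
      · exact h1.1 h
    have huniv : U n f Finset.univ := by
      have h1 := hP ∅ ∅ (Finset.disjoint_empty_left _)
      rw [Finset.union_empty, Finset.compl_empty] at h1
      rcases h1 with h1 | h1 | h1
      · exact absurd h1.1 hempty
      · exact absurd h1.2.1 hempty
      · exact h1.2.2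
    have hcompl : ∀ A, U n f A ↔ ¬ U n f Aᶜ := by
      intro A
      have h1 := hP A ∅ (Finset.disjoint_empty_right _)
      rw [Finset.union_empty] at h1
      rcases h1 with h1 | h1 | h1
      · exact ⟨fun _ => h1.2.2, fun _ => h1.1⟩
      · exact absurd h1.2.1 hempty
      · exact ⟨fun h => absurd h h1.1, fun h => absurd h1.2.2 h⟩
    have hunion : ∀ A B, Disjoint A B → (U n f (A ∪ B) ↔ U n f A ∨ U n f B) := by
      intro A B hAB
      rw [hcompl (A ∪ B)]
      rcases hP A B hAB with h1 | h1 | h1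
      · exact ⟨fun _ => Or.inl h1.1, fun _ => h1.2.2⟩
      · exact ⟨fun _ => Or.inr h1.2.1, fun _ => h1.2.2⟩
      · exact ⟨fun h => absurd h1.2.2 h, fun h => by
          rcases h with h | h
          · exact absurd h h1.1
          · exact absurd h h1.2.1⟩
    have hex : ∀ S, U n f S ↔ ∃ k ∈ S, U n f {k} := by
      intro S
      induction S using Finset.induction_on with
      | empty => exact ⟨fun h => absurd h hempty, fun ⟨k, hk, _⟩ => absurd hk (Finset.notMem_empty k)⟩
      | @insert k S hk ih =>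
        rw [Finset.insert_eq, hunion {k} S (Finset.disjoint_singleton_left.2 hk), ih]
        constructor
        · rintro (h | ⟨k', hk', h⟩)
          · exact ⟨k, Finset.mem_union_left _ (Finset.mem_singleton_self k), h⟩
          · exact ⟨k', Finset.mem_union_right _ hk', h⟩
        · rintro ⟨k', hk', h⟩
          rcases Finset.mem_union.1 hk' with h1 | h1
          · rw [Finset.mem_singleton] at h1
            rw [h1] at h
            exact Or.inl h
          · exact Or.inr ⟨k', h1, h⟩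
    obtain ⟨k, _, hk⟩ := (hex Finset.univ).1 huniv
    refine ⟨k, fun S => ⟨fun h => ?_, fun h => (hex S).2 ⟨k, h, hk⟩⟩⟩
    obtain ⟨k', hk', h'⟩ := (hex S).1 h
    by_contra hkS
    have hne : k ≠ k' := fun e => hkS (e ▸ hk')
    have hd : Disjoint ({k} : Finset (Fin (n + 1))) {k'} := by
      rw [Finset.disjoint_singleton]
      exact hne
    rcases hP {k} {k'} hd with h1 | h1 | h1
    · exact h1.2.1 h'
    · exact h1.1 hk
    · exact h1.1 hk
  refine ⟨fun n f => if h : ∃ k, ∀ S, U n f S ↔ k ∈ S then h.choose else 0, ?_⟩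
  intro n m π f hf
  have key : ∀ k₀, (∀ S, U n f S ↔ k₀ ∈ S) → U m (fun x => f (fun k => x (π k))) {π k₀} := by
    intro k₀ h3
    have h7 : U n f (Finset.univ.filter (fun k => π k = π k₀)) := (h3 _).2 (by simp)
    have h6 : (fun k => ptS a b ({π k₀} : Finset (Fin (m + 1))) (π k)) =
        ptS a b (Finset.univ.filter (fun k => π k = π k₀)) := by
      funext k
      unfold ptS
      simp
    rw [hU] at h7 ⊢
    change f (fun k => ptS a b ({π k₀} : Finset (Fin (m + 1))) (π k)) = _
    rw [h6]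
    exact h7
  have h1 := prin n f hf
  have h2 := prin m _ (hf.minor π)
  simp only [dif_pos h1, dif_pos h2]
  exact Finset.mem_singleton.1 ((h2.choose_spec _).1 (key _ h1.choose_spec))

end crit

/-! ### Boolean languages -/

/-- a ternary operation from its values -/
def sel8 (h0 h1 h2 h3 h4 h5 h6 h7 : Fin 2) (x y z : Fin 2) : Fin 2 :=
  if x = 0 then (if y = 0 then (if z = 0 then h0 else h1) else (if z = 0 then h2 else h3))
  else (if y = 0 then (if z = 0 then h4 else h5) else (if z = 0 then h6 else h7))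

theorem sel8_eq (h : Fin 2 → Fin 2 → Fin 2 → Fin 2) : h = sel8 (h 0 0 0) (h 0 0 1) (h 0 1 0)
    (h 0 1 1) (h 1 0 0) (h 1 0 1) (h 1 1 0) (h 1 1 1) := by
  funext x y z
  fin_cases x <;> fin_cases y <;> fin_cases z <;> rfl

/-- the diagonal applied to the operation -/
def dg3 (h : Fin 2 → Fin 2 → Fin 2 → Fin 2) (x y z : Fin 2) : Fin 2 :=
  h (h x y z) (h x y z) (h x y z)

/-- majority -/
def mj3 (x y z : Fin 2) : Fin 2 := max (min x y) (max (min y z) (min x z))

/-- the possible cases for a ternary operation -/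
def Case3 (h : Fin 2 → Fin 2 → Fin 2 → Fin 2) : Prop :=
  (∀ x, h x x x = 0) ∨ (∀ x, h x x x = 1) ∨
  (∀ x y, dg3 h x y y = min x y) ∨ (∀ x y, dg3 h y x y = min x y) ∨
  (∀ x y, dg3 h y y x = min x y) ∨
  (∀ x y, dg3 h x y y = max x y) ∨ (∀ x y, dg3 h y x y = max x y) ∨
  (∀ x y, dg3 h y y x = max x y) ∨
  (∀ x y z, dg3 h x y z = mj3 x y z) ∨ (∀ x y z, dg3 h x y z = x + y + z) ∨
  (∀ x y z, dg3 h x y (dg3 h x y z) = mj3 x y z) ∨
  (∀ x y z, dg3 h x (dg3 h x y z) z = mj3 x y z) ∨
  (∀ x y z, dg3 h (dg3 h x y z) y z = mj3 x y z) ∨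
  One3 (h 1 0 0 = h 1 1 1) (h 0 1 0 = h 1 1 1) (h 0 0 1 = h 1 1 1)

instance (h : Fin 2 → Fin 2 → Fin 2 → Fin 2) : Decidable (Case3 h) := by
  unfold Case3 One3
  infer_instance

set_option maxRecDepth 100000 in
theorem case3_all : ∀ h0 h1 h2 h3 h4 h5 h6 h7 : Fin 2,
    Case3 (sel8 h0 h1 h2 h3 h4 h5 h6 h7) := by
  decide +kernel

theorem case3 (h : Fin 2 → Fin 2 → Fin 2 → Fin 2) : Case3 h := by
  rw [sel8_eq h]
  exact case3_all _ _ _ _ _ _ _ _

section boolean

variable {g : ℕ} {ar : Fin g → ℕ} {R : (i : Fin g) → (Fin (ar i) → Fin 2) → Bool}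

theorem IsPol.congr {d n : ℕ} {R : (i : Fin g) → (Fin (ar i) → Fin d) → Bool}
    {f f' : (Fin n → Fin d) → Fin d} (hf : IsPol R f) (h : ∀ x, f x = f' x) : IsPol R f' := by
  have : f = f' := funext h
  rw [← this]
  exact hf

/-- Boolean languages outside the six tractable classes -/
theorem minHom_boolean
    (h0 : ¬ IsPol R (fun _ : Fin 1 → Fin 2 => 0))
    (h1 : ¬ IsPol R (fun _ : Fin 1 → Fin 2 => 1))
    (hmin : ¬ IsPol R (fun x : Fin 2 → Fin 2 => min (x 0) (x 1)))
    (hmax : ¬ IsPol R (fun x : Fin 2 → Fin 2 => max (x 0) (x 1)))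
    (hmaj : ¬ IsPol R (fun x : Fin 3 → Fin 2 =>
      max (min (x 0) (x 1)) (max (min (x 1) (x 2)) (min (x 0) (x 2)))))
    (hmin3 : ¬ IsPol R (fun x : Fin 3 → Fin 2 => x 0 + x 1 + x 2)) : MinHom R := by
  refine minHom_of_ternary 1 0 fun f hf => ?_
  have hdg : ∀ {n : ℕ} {p q r : (Fin n → Fin 2) → Fin 2}, IsPol R p → IsPol R q → IsPol R r →
      IsPol R (fun x => dg3 (fun x y z => f ![x, y, z]) (p x) (q x) (r x)) := by
    intro n p q r hp hq hr
    have := hf.comp3 hp hq hr
    exact hf.comp3 this this this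
  have p10 := IsPol.proj R (0 : Fin 1)
  have p20 := IsPol.proj R (0 : Fin 2)
  have p21 := IsPol.proj R (1 : Fin 2)
  have p30 := IsPol.proj R (0 : Fin 3)
  have p31 := IsPol.proj R (1 : Fin 3)
  have p32 := IsPol.proj R (2 : Fin 3)
  rcases case3 (fun x y z => f ![x, y, z]) with
    h | h | h | h | h | h | h | h | h | h | h | h | h | h
  · exact absurd ((hf.comp3 p10 p10 p10).congr fun x => h (x 0)) h0
  · exact absurd ((hf.comp3 p10 p10 p10).congr fun x => h (x 0)) h1
  · exact absurd ((hdg p20 p21 p21).congr fun x => h (x 0) (x 1)) hmin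
  · exact absurd ((hdg p21 p20 p21).congr fun x => h (x 0) (x 1)) hmin
  · exact absurd ((hdg p21 p21 p20).congr fun x => h (x 0) (x 1)) hmin
  · exact absurd ((hdg p20 p21 p21).congr fun x => h (x 0) (x 1)) hmax
  · exact absurd ((hdg p21 p20 p21).congr fun x => h (x 0) (x 1)) hmax
  · exact absurd ((hdg p21 p21 p20).congr fun x => h (x 0) (x 1)) hmax
  · exact absurd ((hdg p30 p31 p32).congr fun x => h (x 0) (x 1) (x 2)) hmaj
  · exact absurd ((hdg p30 p31 p32).congr fun x => h (x 0) (x 1) (x 2)) hmin3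
  · exact absurd ((hdg p30 p31 (hdg p30 p31 p32)).congr fun x => h (x 0) (x 1) (x 2)) hmaj
  · exact absurd ((hdg p30 (hdg p30 p31 p32) p32).congr fun x => h (x 0) (x 1) (x 2)) hmaj
  · exact absurd ((hdg (hdg p30 p31 p32) p31 p32).congr fun x => h (x 0) (x 1) (x 2)) hmaj
  · exact h

end boolean

/-! ### Colourings -/

section colour

variable {q : ℕ}

/-- binary operations preserving `≠` -/
theorem binary_neq {g : Fin q → Fin q → Fin q} (hid : ∀ x, g x x = x)
    (hne : ∀ x y x' y', x ≠ x' → y ≠ y' → g x y ≠ g x' y') {a b : Fin q} (hab : a ≠ b) :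
    (g a b = a ∧ ∀ x y, x ≠ y → g x y = x) ∨ (g a b = b ∧ ∀ x y, x ≠ y → g x y = y) := by
  have hcons : ∀ x y, x ≠ y → g x y = x ∨ g x y = y := by
    intro x y hxy
    by_contra hcon
    push Not at hcon
    have h := hne (g x y) (g x y) x y hcon.1 hcon.2
    rw [hid] at h
    exact h rfl
  rcases hcons a b hab with hP | hQ
  · left
    have rule : ∀ x y, x ≠ y → g x y = x → ∀ c, c ≠ x → g c x = c := by
      intro x y hxy h c hc
      have h1 := hne c x x y hc hxy
      rw [h] at h1
      rcases hcons c x hc with h2 | h2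
      · exact h2
      · exact absurd h2 h1
    refine ⟨hP, fun c e hce => ?_⟩
    by_cases he : e = a
    · rw [he] at hce ⊢
      exact rule a b hab hP c hce
    · exact rule e a he (rule a b hab hP e he) c hce
  · right
    have rule : ∀ x y, x ≠ y → g x y = y → ∀ c, c ≠ y → g y c = c := by
      intro x y hxy h c hc
      have h1 := hne y c x y (Ne.symm hxy) hc
      rw [h] at h1
      rcases hcons y c (Ne.symm hc) with h2 | h2
      · exact absurd h2 h1
      · exact h2
    refine ⟨hQ, fun c e hce => ?_⟩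
    by_cases hc : c = b
    · rw [hc] at hce ⊢
      exact rule a b hab hQ e (Ne.symm hce)
    · exact rule b c (Ne.symm hc) (rule a b hab hQ c hc) e (Ne.symm hce)

/-- ternary operations preserving `≠` -/
theorem ternary_neq {h : Fin q → Fin q → Fin q → Fin q} (hid : ∀ x, h x x x = x)
    (hne : ∀ x y z x' y' z', x ≠ x' → y ≠ y' → z ≠ z' → h x y z ≠ h x' y' z')
    {a b c : Fin q} (hab : a ≠ b) (hac : a ≠ c) (hbc : b ≠ c) :
    One3 (h a b b = a) (h b a b = a) (h b b a = a) := by
  have g1 := binary_neq (g := fun x y => h x y y) hid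
    (fun x y x' y' h1 h2 => hne _ _ _ _ _ _ h1 h2 h2) hab
  have g2 := binary_neq (g := fun x y => h y x y) hid
    (fun x y x' y' h1 h2 => hne _ _ _ _ _ _ h2 h1 h2) hab
  have g3 := binary_neq (g := fun x y => h y y x) hid
    (fun x y x' y' h1 h2 => hne _ _ _ _ _ _ h2 h2 h1) hab
  have hba := Ne.symm hab
  have hca := Ne.symm hac
  have hcb := Ne.symm hbc
  -- the value at three different colours
  obtain ⟨w, hw⟩ : ∃ w, w = h a b c := ⟨_, rfl⟩
  have K : ∀ x y z, a ≠ x → b ≠ y → c ≠ z → h x y z ≠ w := fun x y z h1 h2 h3 => by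
    rw [hw]
    exact Ne.symm (hne a b c x y z h1 h2 h3)
  rcases g1 with ⟨g1, f1⟩ | ⟨g1, f1⟩ <;> rcases g2 with ⟨g2, f2⟩ | ⟨g2, f2⟩ <;>
    rcases g3 with ⟨g3, f3⟩ | ⟨g3, f3⟩
  · -- all first
    exfalso
    by_cases hwa : w = a
    · exact K b a b hab hba hcb (by rw [f2 a b hab, hwa])
    · exact K w a a (Ne.symm hwa) hba hca (f1 w a hwa)
  · exfalso
    by_cases hwa : w = a
    · exact K b a b hab hba hcb (by rw [f2 a b hab, hwa])
    · exact K w a a (Ne.symm hwa) hba hca (f1 w a hwa)
  · exfalso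
    by_cases hwa : w = a
    · exact K c c a hac hbc hca (by rw [f3 a c hac, hwa])
    · exact K w a a (Ne.symm hwa) hba hca (f1 w a hwa)
  · exact Or.inl ⟨g1, by rw [g2]; exact hba, by rw [g3]; exact hba⟩
  · exfalso
    by_cases hwb : w = b
    · exact K c c b hac hbc hcb (by rw [f3 b c hbc, hwb])
    · exact K b w b hab (Ne.symm hwb) hcb (f2 w b hwb)
  · exact Or.inr (Or.inl ⟨by rw [g1]; exact hba, g2, by rw [g3]; exact hba⟩)
  · exact Or.inr (Or.inr ⟨by rw [g1]; exact hba, by rw [g2]; exact hba, g3⟩)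
  · -- all second
    exfalso
    by_cases hwa : w = a
    · exact K b a a hab hba hca (by rw [f1 b a hba, hwa])
    by_cases hwb : w = b
    · exact K b a b hab hba hcb (by rw [f2 a b hab, hwb])
    by_cases hwc : w = c
    · exact K c c a hac hbc hca (by rw [f3 a c hac, hwc])
    · exact K w w a (Ne.symm hwa) (Ne.symm hwb) hca (f3 a w (Ne.symm hwa))

/-- the language of `q`-colourings -/
def neqR (q : ℕ) : (i : Fin 1) → (Fin ((fun _ => 2 : Fin 1 → ℕ) i) → Fin q) → Bool :=
  fun _ x => decide (x 0 ≠ x 1)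

theorem minHom_colour (q : ℕ) (hq : 3 ≤ q) : MinHom (neqR q) := by
  obtain ⟨a, ha⟩ : ∃ a : Fin q, a = ⟨0, by omega⟩ := ⟨_, rfl⟩
  obtain ⟨b, hb⟩ : ∃ b : Fin q, b = ⟨1, by omega⟩ := ⟨_, rfl⟩
  obtain ⟨c, hc⟩ : ∃ c : Fin q, c = ⟨2, by omega⟩ := ⟨_, rfl⟩
  have hab : a ≠ b := by rw [ha, hb]; simp
  have hac : a ≠ c := by rw [ha, hc]; simp
  have hbc : b ≠ c := by rw [hb, hc]; simp
  refine minHom_of_ternary a b fun f hf => ?_
  have hne : ∀ x y z x' y' z' : Fin q, x ≠ x' → y ≠ y' → z ≠ z' →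
      f ![x, y, z] ≠ f ![x', y', z'] := by
    intro x y z x' y' z' h1 h2 h3
    have h := hf 0 ![![x, x'], ![y, y'], ![z, z']] (by
      intro k
      fin_cases k
      · simpa [neqR] using h1
      · simpa [neqR] using h2
      · simpa [neqR] using h3)
    unfold neqR at h
    rw [decide_eq_true_eq] at h
    have e1 : (fun k => (![![x, x'], ![y, y'], ![z, z']] : Fin 3 → Fin 2 → Fin q) k 0) =
        ![x, y, z] := by
      funext k
      fin_cases k <;> rfl
    have e2 : (fun k => (![![x, x'], ![y, y'], ![z, z']] : Fin 3 → Fin 2 → Fin q) k 1) =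
        ![x', y', z'] := by
      funext k
      fin_cases k <;> rfl
    intro h4
    refine h ?_
    rw [← e1, ← e2] at h4
    exact h4
  obtain ⟨u, hu⟩ : ∃ u : Fin q → Fin q, u = fun x => f ![x, x, x] := ⟨_, rfl⟩
  have hinj : Function.Injective u := by
    intro x y hxy
    by_contra hne'
    rw [hu] at hxy
    exact hne x x x y y y hne' hne' hne' hxy
  have hbij : Function.Bijective u := Finite.injective_iff_bijective.1 hinj
  obtain ⟨e, he⟩ : ∃ e : Fin q ≃ Fin q, ∀ x, e x = u x :=
    ⟨Equiv.ofBijective u hbij, fun _ => rfl⟩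
  have h3 := ternary_neq (h := fun x y z => e.symm (f ![x, y, z])) (a := a) (b := b) (c := c)
    (by
      intro x
      rw [Equiv.symm_apply_eq, he, hu])
    (fun x y z x' y' z' h1 h2 h3 h4 => hne x y z x' y' z' h1 h2 h3 (e.symm.injective h4))
    hab hac hbc
  have hiff : ∀ x y z : Fin q, (e.symm (f ![x, y, z]) = a) = (f ![x, y, z] = f ![a, a, a]) := by
    intro x y z
    rw [Equiv.symm_apply_eq, he, hu]
  simp only [hiff] at h3
  exact h3

end colour

end Pool.Agent.Lib.MP_87d05f_lc
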