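import Mathlib
import Pool.Agent.Lib.MP_87d05f_lc.KMain

set_option autoImplicit false

/-!
# Deterministic sparsification for gap k-SAT

For every `k ≥ 3`, the version of the problem for formulas with clauses of length at most `k`
(some `(ε, b)` has no exponential separator, the time being measured in the number of variables,
the number of clauses being arbitrary) holds if and only if some `(ε, b)` has no separator on the
formulas with clauses of length at most three in which no clause is empty and every variable
occurs at most three times, the running time now being measured in the number of clause positions.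
-/

namespace Pool.Agent.Lib.MP_87d05f_lc.GapSparsificationOld

/-- the encoding of formulas fixed in the problem -/
def code (F : List (List (Bool × ℕ))) : List Bool :=
  F.flatMap (fun c => c.flatMap (fun l => [true, l.1] ++
    (Nat.bits l.2).flatMap (fun x => [true, x]) ++ [false, false]) ++ [false, true])

/-- the number of variables occurring in the formula -/
def numVars (F : List (List (Bool × ℕ))) : ℕ := (F.flatten.map (fun l => l.2)).toFinset.card

/-- no clause is empty, and every variable occurs at most three times (all literals at all clause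
positions are counted) -/
def AtMostThrice (F : List (List (Bool × ℕ))) : Prop :=
  [] ∉ F ∧ ∀ v : ℕ, (F.flatten.map (fun l => l.2)).count v ≤ 3

/-- `(ε, b)` admits an exponential separator on the formulas with property `P` all of whose
clauses have length at most `k`, with running time `C (L + 1) ^ e * 2 ^ (μ F / b)`. The notion of
the problem is the case where `k = 3`, `P` always holds and `μ` is the number of variables. -/
def Separator (k : ℕ) (P : List (List (Bool × ℕ)) → Prop) (μ : List (List (Bool × ℕ)) → ℕ)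
    (ε : ℚ) (b : ℕ) : Prop :=
  ∃ C e : ℕ, ∃ tm : Turing.FinTM2, ∃ e₀ : tm.Γ tm.k₀ ≃ Bool,
    ∃ acc rej : List (tm.Γ tm.k₁), acc ≠ rej ∧
    ∀ F : List (List (Bool × ℕ)), F ≠ [] → (∀ c ∈ F, c.length ≤ k) → P F →
      ((∃ a : ℕ → Bool, ∀ c ∈ F, ∃ l ∈ c, a l.2 = l.1) →
        Nonempty (Turing.TM2OutputsInTime tm ((code F).map e₀.symm) (some acc)
          (C * ((code F).length + 1) ^ e * 2 ^ (μ F / b)))) ∧
      ((∀ a : ℕ → Bool, ε * (F.length : ℚ) ≤
          ((F.countP (fun c => !(c.any (fun l => a l.2 == l.1))) : ℕ) : ℚ)) →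
        Nonempty (Turing.TM2OutputsInTime tm ((code F).map e₀.symm) (some rej)
          (C * ((code F).length + 1) ^ e * 2 ^ (μ F / b))))

theorem Separator.mono {k k' : ℕ} {P P' : List (List (Bool × ℕ)) → Prop}
    {μ μ' : List (List (Bool × ℕ)) → ℕ} {ε : ℚ} {b b' : ℕ} (hk : k' ≤ k)
    (hP : ∀ F, P' F → P F)
    (hμ : ∀ F, (∀ c ∈ F, c.length ≤ k') → P' F → μ F / b ≤ μ' F / b')
    (h : Separator k P μ ε b) : Separator k' P' μ' ε b' := by
  obtain ⟨C, e, tm, e₀, acc, rej, hne, h⟩ := h
  refine ⟨C, e, tm, e₀, acc, rej, hne, fun F h1 h2 h3 => ?_⟩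
  have ht : C * ((code F).length + 1) ^ e * 2 ^ (μ F / b) ≤
      C * ((code F).length + 1) ^ e * 2 ^ (μ' F / b') :=
    Nat.mul_le_mul_left _ (Nat.pow_le_pow_right (by norm_num) (hμ F h2 h3))
  have h2' : ∀ c ∈ F, c.length ≤ k := fun c hc => (h2 c hc).trans hk
  exact ⟨fun g => Pool.Agent.Lib.MP_87d05f_lc.outputs_mono ht ((h F h1 h2' (hP F h3)).1 g),
    fun g => Pool.Agent.Lib.MP_87d05f_lc.outputs_mono ht ((h F h1 h2' (hP F h3)).2 g)⟩

theorem numVars_le (F : List (List (Bool × ℕ))) (h : ∀ c ∈ F, c.length ≤ 3) :
    numVars F ≤ 3 * F.length := by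
  unfold numVars
  refine (List.toFinset_card_le _).trans ?_
  exact Pool.Agent.Lib.MP_87d05f_lc.vlist_length_le h

theorem length_le (F : List (List (Bool × ℕ))) (h : AtMostThrice F) :
    F.length ≤ 3 * numVars F := by
  have h1 : F.length ≤ (F.flatten.map (fun l => l.2)).length := by
    rw [List.length_map, List.length_flatten]
    have : ∀ G : List (List (Bool × ℕ)), [] ∉ G → G.length ≤ (G.map List.length).sum := by
      intro G
      induction G with
      | nil => intro _; simp
      | cons c G ih =>
        intro hG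
        rw [List.mem_cons, not_or] at hG
        have h2 := ih hG.2
        have h3 : 0 < c.length := List.length_pos_iff.2 (Ne.symm hG.1)
        simp only [List.length_cons, List.map_cons, List.sum_cons]
        omega
    exact this F h.1
  refine h1.trans ?_
  rw [← List.sum_toFinset_count_eq_length, Nat.mul_comm]
  unfold numVars
  rw [← smul_eq_mul]
  exact Finset.sum_le_card_nsmul _ _ _ fun v _ => h.2 v

theorem result (k : ℕ) (hk : 3 ≤ k) :
    (∃ ε : ℚ, 0 < ε ∧ ε < 1 ∧ ∃ b : ℕ, 0 < b ∧ ¬ Separator k (fun _ => True) numVars ε b) ↔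
    (∃ ε : ℚ, 0 < ε ∧ ε < 1 ∧ ∃ b : ℕ, 0 < b ∧ ¬ Separator 3 AtMostThrice List.length ε b) := by
  constructor
  · rintro ⟨ε, h0, h1, b, hb, h⟩
    have hp : 0 < ε.num.toNat := by
      have := Rat.num_pos.2 h0
      omega
    have hq : 0 < ε.den := ε.den_pos
    have hpq : ((ε.num.toNat : ℕ) : ℚ) / (ε.den : ℚ) = ε := by
      have h2 : ((ε.num.toNat : ℕ) : ℤ) = ε.num := Int.toNat_of_nonneg (Rat.num_pos.2 h0).le
      have h3 : ((ε.num.toNat : ℕ) : ℚ) = (ε.num : ℚ) := by exact_mod_cast h2
      rw [h3, Rat.num_div_den]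
    obtain ⟨K, b', hb', hmain⟩ := Pool.Agent.Lib.MP_87d05f_lc.ksparse_main k ε.num.toNat ε.den b
      (by omega) hp hq hb
    refine ⟨(ε.num.toNat : ℚ) / (8 * ε.den * (k + 2) * (K + 3) : ℕ), by positivity, ?_, 3 * b',
      by positivity, fun hs => h ?_⟩
    · refine lt_of_le_of_lt ?_ h1
      rw [← hpq]
      have hp' : (0 : ℚ) < (ε.num.toNat : ℕ) := by exact_mod_cast hp
      have hq' : (0 : ℚ) < ε.den := by exact_mod_cast hq
      have : (ε.den : ℚ) ≤ ((8 * ε.den * (k + 2) * (K + 3) : ℕ) : ℚ) := by
        have : ε.den ≤ 8 * ε.den * (k + 2) * (K + 3) := by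
          calc ε.den = ε.den * (1 * 1) := by ring
            _ ≤ ε.den * ((8 * (k + 2)) * (K + 3)) :=
              Nat.mul_le_mul_left _ (Nat.mul_le_mul (by omega) (by omega))
            _ = _ := by ring
        exact_mod_cast this
      have e1 : (ε.num.toNat : ℚ) / (8 * ε.den * (k + 2) * (K + 3) : ℕ) ≤
          (ε.num.toNat : ℚ) / ε.den :=
        div_le_div_of_nonneg_left hp'.le hq' this
      simp only [hpq] at e1 ⊢
      exact e1
    · have h2 : Separator 3 AtMostThrice numVars
          ((ε.num.toNat : ℚ) / (8 * ε.den * (k + 2) * (K + 3) : ℕ)) b' := by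
        refine Separator.mono le_rfl (fun _ h => h) (fun F _ hF => ?_) hs
        have := Nat.div_le_div_right (c := 3 * b') (length_le F hF)
        rwa [Nat.mul_div_mul_left _ _ (by norm_num)] at this
      have h3 := hmain h2
      rw [hpq] at h3
      exact h3
  · rintro ⟨ε, h0, h1, b, hb, h⟩
    refine ⟨ε, h0, h1, 3 * b, by positivity, fun hs => h ?_⟩
    refine Separator.mono hk (fun _ _ => trivial) (fun F hF _ => ?_) hs
    have := Nat.div_le_div_right (c := 3 * b) (numVars_le F hF)
    rwa [Nat.mul_div_mul_left _ _ (by norm_num)] at this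

end Pool.Agent.Lib.MP_87d05f_lc.GapSparsificationOld
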